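import Pool.Agent.Lib.MP_69e010_mp.Defs

/-!
# JOB A1: Newton's theorem for a uniform ball

`∫_{B(p,r)} dw / |y - w| / |B(p,r)| = 1/|y-p|` if `|y-p| ≥ r` and `= (3 r² - |y-p|²)/(2 r³)` if `|y-p| ≤ r`.
-/

open MeasureTheory Metric Finset

noncomputable section

namespace Ion

/-- the plane -/
abbrev A1_E2 := EuclideanSpace ℝ (Fin 2)

/-- the product of a line and a plane -/
abbrev A1_W := WithLp 2 (ℝ × A1_E2)

theorem A1_deriv {a x : ℝ} (hx : 0 < x) :
    HasDerivAt (fun x : ℝ => Real.sqrt (a ^ 2 + x ^ 2)) (x * (Real.sqrt (a ^ 2 + x ^ 2))⁻¹) x := by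
  have hpos : 0 < a ^ 2 + x ^ 2 := by positivity
  have h1 : HasDerivAt (fun x : ℝ => a ^ 2 + x ^ 2) (2 * x) x := by
    have := (hasDerivAt_pow 2 x).const_add (a ^ 2)
    simpa using this
  have h2 := h1.sqrt hpos.ne'
  convert h2 using 1
  have : Real.sqrt (a ^ 2 + x ^ 2) ≠ 0 := (Real.sqrt_pos.2 hpos).ne'
  field_simp

theorem A1_one_dim_int (a s : ℝ) :
    IntegrableOn (fun x : ℝ => x * (Real.sqrt (a ^ 2 + x ^ 2))⁻¹) (Set.Ioc 0 s) := by
  refine intervalIntegral.integrableOn_deriv_of_nonneg (g := fun x : ℝ => Real.sqrt (a ^ 2 + x ^ 2))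
    (by fun_prop) (fun x hx => A1_deriv hx.1) (fun x hx => ?_)
  exact mul_nonneg hx.1.le (by positivity)

theorem A1_one_dim (a : ℝ) {s : ℝ} (hs : 0 ≤ s) :
    ∫ x in Set.Ioo 0 s, x * (Real.sqrt (a ^ 2 + x ^ 2))⁻¹ = Real.sqrt (a ^ 2 + s ^ 2) - |a| := by
  rw [← integral_Ioc_eq_integral_Ioo, ← intervalIntegral.integral_of_le hs,
    intervalIntegral.integral_eq_sub_of_hasDerivAt_of_le hs (f := fun x : ℝ => Real.sqrt (a ^ 2 + x ^ 2))
      (by fun_prop) (fun x hx => A1_deriv hx.1)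
      ((intervalIntegrable_iff_integrableOn_Ioc_of_le hs).2 (A1_one_dim_int a s))]
  simp [Real.sqrt_sq_eq_abs]

/-- the planar integrand -/
def A1_f (a s : ℝ) (x : ℝ) : ℝ := if x < s then (Real.sqrt (a ^ 2 + x ^ 2))⁻¹ else 0

theorem A1_f_nonneg (a s x : ℝ) : 0 ≤ A1_f a s x := by
  unfold A1_f
  split_ifs <;> positivity

theorem A1_f_eq (a s : ℝ) : (fun y : ℝ => y ^ (Module.finrank ℝ A1_E2 - 1) • A1_f a s y) =
    (Set.Iio s).indicator (fun x : ℝ => x * (Real.sqrt (a ^ 2 + x ^ 2))⁻¹) := by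
  funext y
  rw [finrank_euclideanSpace_fin]
  unfold A1_f Set.indicator
  simp only [Set.mem_Iio, smul_eq_mul, mul_ite, mul_zero]
  norm_num

theorem A1_planar_int (a s : ℝ) : Integrable (fun ρ : A1_E2 => A1_f a s ‖ρ‖) := by
  rw [integrable_fun_norm_addHaar (volume : Measure A1_E2) (f := A1_f a s), A1_f_eq]
  rw [IntegrableOn, integrable_indicator_iff measurableSet_Iio, IntegrableOn,
    Measure.restrict_restrict measurableSet_Iio]
  refine (A1_one_dim_int a s).mono_set ?_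
  intro x hx
  exact ⟨hx.2, (Set.mem_Iio.1 hx.1).le⟩

theorem A1_planar (a : ℝ) {s : ℝ} (hs : 0 ≤ s) :
    ∫⁻ ρ : A1_E2, ENNReal.ofReal (A1_f a s ‖ρ‖) =
      ENNReal.ofReal (2 * Real.pi * (Real.sqrt (a ^ 2 + s ^ 2) - |a|)) := by
  rw [← ofReal_integral_eq_lintegral_ofReal (A1_planar_int a s)
    (Filter.Eventually.of_forall fun ρ => A1_f_nonneg a s _),
    integral_fun_norm_addHaar (volume : Measure A1_E2) (A1_f a s), A1_f_eq,
    setIntegral_indicator measurableSet_Iio]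
  have h1 : Set.Ioi (0 : ℝ) ∩ Set.Iio s = Set.Ioo 0 s := rfl
  rw [h1, A1_one_dim a hs, finrank_euclideanSpace_fin]
  have h2 : (volume : Measure A1_E2).real (ball 0 1) = Real.pi := by
    rw [Measure.real, EuclideanSpace.volume_ball_fin_two]
    simp [Real.pi_nonneg]
  rw [h2]
  congr 1
  rw [smul_eq_mul, nsmul_eq_mul]
  push_cast
  ring

theorem A1_iso (y : E3) : ∃ L : E3 ≃ₗᵢ[ℝ] A1_W, L y = WithLp.toLp 2 (‖y‖, 0) := by
  have hfr : Module.finrank ℝ E3 = Module.finrank ℝ A1_W := by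
    have h1 : Module.finrank ℝ A1_W = Module.finrank ℝ (ℝ × A1_E2) :=
      (WithLp.linearEquiv 2 ℝ (ℝ × A1_E2)).finrank_eq
    rw [h1, Module.finrank_prod]
    simp
  obtain ⟨L0⟩ : Nonempty (E3 ≃ₗᵢ[ℝ] A1_W) :=
    ⟨(stdOrthonormalBasis ℝ E3).equiv (stdOrthonormalBasis ℝ A1_W) (finCongr hfr)⟩
  set v : A1_W := L0 y with hv
  set w : A1_W := WithLp.toLp 2 (‖y‖, 0) with hw
  have hn : ‖v‖ = ‖w‖ := by
    rw [hv, L0.norm_map, hw]
    have h2 : ‖(WithLp.toLp 2 (‖y‖, (0 : A1_E2)) : A1_W)‖ ^ 2 = ‖y‖ ^ 2 := by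
      rw [WithLp.prod_norm_sq_eq_of_L2]
      simp
    have h3 := (sq_eq_sq₀ (norm_nonneg _) (norm_nonneg _)).1 h2
    rw [h3]
  refine ⟨L0.trans (Submodule.reflection (ℝ ∙ (v - w))ᗮ), ?_⟩
  exact Submodule.reflection_sub hn

theorem A1_norm_sq (z : ℝ) (ρ : A1_E2) : ‖(WithLp.toLp 2 (z, ρ) : A1_W)‖ ^ 2 = z ^ 2 + ‖ρ‖ ^ 2 := by
  rw [WithLp.prod_norm_sq_eq_of_L2]
  simp

theorem A1_norm (z : ℝ) (ρ : A1_E2) :
    ‖(WithLp.toLp 2 (z, ρ) : A1_W)‖ = Real.sqrt (z ^ 2 + ‖ρ‖ ^ 2) := by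
  rw [← A1_norm_sq, Real.sqrt_sq (norm_nonneg _)]

/-- the integrand -/
def A1_G (y : E3) (r : ℝ) (w : E3) : ENNReal := ENNReal.ofReal (if ‖w‖ < r then ‖y - w‖⁻¹ else 0)

theorem A1_measurable_G (y : E3) (r : ℝ) : Measurable (A1_G y r) := by
  unfold A1_G
  refine Measurable.ennreal_ofReal (Measurable.ite ?_ ?_ measurable_const)
  · exact measurableSet_lt measurable_norm measurable_const
  · exact (measurable_const.sub measurable_id).norm.inv

theorem A1_lintegral_prod (y : E3) {r : ℝ} (hr : 0 < r) :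
    ∫⁻ w, A1_G y r w = ∫⁻ z : ℝ, ∫⁻ ρ : A1_E2,
      ENNReal.ofReal (A1_f (‖y‖ - z) (Real.sqrt (r ^ 2 - z ^ 2)) ‖ρ‖) := by
  obtain ⟨L, hL⟩ := A1_iso y
  have hmp : MeasurePreserving (fun q : ℝ × A1_E2 => L.symm (WithLp.toLp 2 q)) volume volume :=
    L.symm.measurePreserving.comp (WithLp.volume_preserving_toLp ℝ A1_E2)
  rw [← hmp.lintegral_comp (A1_measurable_G y r), Measure.volume_eq_prod,
    lintegral_prod (fun q : ℝ × A1_E2 => A1_G y r (L.symm (WithLp.toLp 2 q)))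
      ((A1_measurable_G y r).comp hmp.measurable).aemeasurable]
  refine lintegral_congr fun z => lintegral_congr fun ρ => ?_
  unfold A1_G A1_f
  have h1 : ‖L.symm (WithLp.toLp 2 (z, ρ))‖ = ‖(WithLp.toLp 2 (z, ρ) : A1_W)‖ := L.symm.norm_map _
  have h2 : ‖y - L.symm (WithLp.toLp 2 (z, ρ))‖ = Real.sqrt ((‖y‖ - z) ^ 2 + ‖ρ‖ ^ 2) := by
    rw [← L.norm_map, map_sub, hL, L.apply_symm_apply]
    have h3 : (WithLp.toLp 2 (‖y‖, (0 : A1_E2)) : A1_W) - WithLp.toLp 2 (z, ρ) =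
        WithLp.toLp 2 (‖y‖ - z, -ρ) := by
      rw [← WithLp.toLp_sub, Prod.mk_sub_mk, zero_sub]
    rw [h3, A1_norm, norm_neg]
  have h4 : ‖L.symm (WithLp.toLp 2 (z, ρ))‖ < r ↔ ‖ρ‖ < Real.sqrt (r ^ 2 - z ^ 2) := by
    rw [h1, Real.lt_sqrt (norm_nonneg _), ← sq_lt_sq₀ (norm_nonneg _) hr.le, A1_norm_sq]
    constructor <;> intro h <;> linarith
  rw [h2]
  simp only [h4]

/-- the line integrand -/
def A1_h (r t z : ℝ) : ℝ := 2 * Real.pi * (Real.sqrt (r ^ 2 + t ^ 2 - 2 * t * z) - |t - z|)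

theorem A1_h_nonneg {r t z : ℝ} (hz : z ∈ Set.Icc (-r) r) : 0 ≤ A1_h r t z := by
  unfold A1_h
  have h1 : |t - z| ≤ Real.sqrt (r ^ 2 + t ^ 2 - 2 * t * z) := by
    refine Real.abs_le_sqrt ?_
    nlinarith [hz.1, hz.2]
  have := Real.pi_pos
  have h2 : 0 ≤ Real.sqrt (r ^ 2 + t ^ 2 - 2 * t * z) - |t - z| := by linarith
  positivity

theorem A1_line (t : ℝ) {r : ℝ} (hr : 0 < r) :
    ∫⁻ z : ℝ, ∫⁻ ρ : A1_E2, ENNReal.ofReal (A1_f (t - z) (Real.sqrt (r ^ 2 - z ^ 2)) ‖ρ‖) =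
      ENNReal.ofReal (∫ z in (-r)..r, A1_h r t z) := by
  have h1 : ∀ z : ℝ, ∫⁻ ρ : A1_E2, ENNReal.ofReal (A1_f (t - z) (Real.sqrt (r ^ 2 - z ^ 2)) ‖ρ‖) =
      (Set.Ioc (-r) r).indicator (fun z => ENNReal.ofReal (A1_h r t z)) z := by
    intro z
    rw [A1_planar _ (Real.sqrt_nonneg _)]
    by_cases hz : z ∈ Set.Ioc (-r) r
    · rw [Set.indicator_of_mem hz]
      unfold A1_h
      have h2 : 0 ≤ r ^ 2 - z ^ 2 := by nlinarith [hz.1, hz.2]
      rw [Real.sq_sqrt h2]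
      congr 4
      ring
    · rw [Set.indicator_of_notMem hz]
      have h2 : r ^ 2 - z ^ 2 ≤ 0 := by
        by_contra hc
        push Not at hc
        have h3 : z ^ 2 < r ^ 2 := by linarith
        have h4 := abs_lt.1 ((sq_lt_sq.1 h3).trans_eq (abs_of_pos hr))
        exact hz ⟨h4.1, h4.2.le⟩
      rw [Real.sqrt_eq_zero_of_nonpos h2]
      simp [Real.sqrt_sq_eq_abs]
  simp only [h1]
  rw [lintegral_indicator measurableSet_Ioc, intervalIntegral.integral_of_le (by linarith),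
    ofReal_integral_eq_lintegral_ofReal]
  · have hc : Continuous (A1_h r t) := by
      unfold A1_h
      fun_prop
    exact (hc.integrableOn_Icc (a := -r) (b := r)).mono_set Set.Ioc_subset_Icc_self
  · refine (ae_restrict_iff' measurableSet_Ioc).2 (Filter.Eventually.of_forall fun z hz => ?_)
    exact A1_h_nonneg (Set.Ioc_subset_Icc_self hz)

theorem A1_sqrt_int {r t : ℝ} (hr : 0 < r) (ht : 0 < t) :
    ∫ z in (-r)..r, Real.sqrt (r ^ 2 + t ^ 2 - 2 * t * z) =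
      ((r + t) ^ 3 - (r - t) ^ 2 * |r - t|) / (3 * t) := by
  have hu : ∀ z ∈ Set.Ioo (-r) r, 0 < r ^ 2 + t ^ 2 - 2 * t * z := by
    intro z hz
    nlinarith [hz.2, sq_nonneg (r - t), mul_pos ht (sub_pos.2 hz.2)]
  have hder : ∀ z ∈ Set.Ioo (-r) r, HasDerivAt (fun z : ℝ =>
      -((r ^ 2 + t ^ 2 - 2 * t * z) * Real.sqrt (r ^ 2 + t ^ 2 - 2 * t * z)) / (3 * t))
      (Real.sqrt (r ^ 2 + t ^ 2 - 2 * t * z)) z := by
    intro z hz
    have hpos := hu z hz
    have h1 : HasDerivAt (fun z : ℝ => r ^ 2 + t ^ 2 - 2 * t * z) (-(2 * t)) z := by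
      have := ((hasDerivAt_id z).const_mul (2 * t)).const_sub (r ^ 2 + t ^ 2)
      simpa using this
    have h2 := ((h1.mul (h1.sqrt hpos.ne')).neg).div_const (3 * t)
    refine h2.congr_deriv ?_
    have hs : Real.sqrt (r ^ 2 + t ^ 2 - 2 * t * z) ≠ 0 := (Real.sqrt_pos.2 hpos).ne'
    have hs2 := Real.sq_sqrt hpos.le
    field_simp
    rw [hs2]
    ring
  have hint : IntervalIntegrable (fun z : ℝ => Real.sqrt (r ^ 2 + t ^ 2 - 2 * t * z)) volume (-r) r :=
    Continuous.intervalIntegrable (by fun_prop) _ _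
  rw [intervalIntegral.integral_eq_sub_of_hasDerivAt_of_le (by linarith) (by fun_prop) hder hint]
  have h1 : r ^ 2 + t ^ 2 - 2 * t * r = (r - t) ^ 2 := by ring
  have h2 : r ^ 2 + t ^ 2 - 2 * t * (-r) = (r + t) ^ 2 := by ring
  rw [h1, h2, Real.sqrt_sq_eq_abs, Real.sqrt_sq (by linarith)]
  field_simp
  ring

theorem A1_abs_int {r t : ℝ} (hr : 0 < r) (ht : 0 ≤ t) :
    ∫ z in (-r)..r, |t - z| = if r ≤ t then 2 * r * t else r ^ 2 + t ^ 2 := by
  have key : ∀ a b : ℝ, ∫ z in a..b, (t - z) = t * (b - a) - (b ^ 2 - a ^ 2) / 2 := by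
    intro a b
    rw [intervalIntegral.integral_sub (by simp) (by simp), intervalIntegral.integral_const,
      integral_id, smul_eq_mul]
    ring
  split_ifs with h
  · have h1 : ∫ z in (-r)..r, |t - z| = ∫ z in (-r)..r, (t - z) := by
      refine intervalIntegral.integral_congr fun z hz => ?_
      rw [Set.uIcc_of_le (by linarith)] at hz
      exact abs_of_nonneg (by linarith [hz.2])
    rw [h1, key]
    ring
  · push Not at h
    have hi : ∀ a b : ℝ, IntervalIntegrable (fun z => |t - z|) volume a b := fun a b =>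
      Continuous.intervalIntegrable (by fun_prop) _ _
    rw [← intervalIntegral.integral_add_adjacent_intervals (hi (-r) t) (hi t r)]
    have h1 : ∫ z in (-r)..t, |t - z| = ∫ z in (-r)..t, (t - z) := by
      refine intervalIntegral.integral_congr fun z hz => ?_
      rw [Set.uIcc_of_le (by linarith)] at hz
      exact abs_of_nonneg (by linarith [hz.2])
    have h2 : ∫ z in t..r, |t - z| = ∫ z in t..r, -(t - z) := by
      refine intervalIntegral.integral_congr fun z hz => ?_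
      rw [Set.uIcc_of_le h.le] at hz
      exact abs_of_nonpos (by linarith [hz.1])
    rw [h1, h2, intervalIntegral.integral_neg, key, key]
    ring

theorem A1_value {r t : ℝ} (hr : 0 < r) (ht : 0 ≤ t) :
    ∫ z in (-r)..r, A1_h r t z = (Real.pi * 4 / 3 * r ^ 3) *
      (if r ≤ t then t⁻¹ else (3 * r ^ 2 - t ^ 2) / (2 * r ^ 3)) := by
  have h0 : ∫ z in (-r)..r, A1_h r t z = 2 * Real.pi *
      ((∫ z in (-r)..r, Real.sqrt (r ^ 2 + t ^ 2 - 2 * t * z)) - ∫ z in (-r)..r, |t - z|) := by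
    unfold A1_h
    rw [intervalIntegral.integral_const_mul, intervalIntegral.integral_sub
      (Continuous.intervalIntegrable (by fun_prop) _ _)
      (Continuous.intervalIntegrable (by fun_prop) _ _)]
  rw [h0, A1_abs_int hr ht]
  rcases ht.eq_or_lt with h | h
  · subst h
    have h1 : ∫ z in (-r)..r, Real.sqrt (r ^ 2 + (0 : ℝ) ^ 2 - 2 * 0 * z) = 2 * r ^ 2 := by
      have : ∀ z : ℝ, Real.sqrt (r ^ 2 + (0 : ℝ) ^ 2 - 2 * 0 * z) = r := by
        intro z
        rw [show r ^ 2 + (0 : ℝ) ^ 2 - 2 * 0 * z = r ^ 2 by ring, Real.sqrt_sq hr.le]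
      simp only [this]
      rw [intervalIntegral.integral_const, smul_eq_mul]
      ring
    rw [h1, if_neg (not_le.2 hr), if_neg (not_le.2 hr)]
    field_simp
    ring
  · rw [A1_sqrt_int hr h]
    split_ifs with h2
    · rw [abs_of_nonpos (by linarith)]
      field_simp
      ring
    · rw [abs_of_nonneg (by linarith)]
      field_simp
      ring

theorem A1_lint (p y : E3) {r : ℝ} (hr : 0 < r) :
    ∫⁻ w in ball p r, ENNReal.ofReal ‖y - w‖⁻¹ =
      ENNReal.ofReal ((Real.pi * 4 / 3 * r ^ 3) * ph p r y) := by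
  have h1 : ∫⁻ w in ball p r, ENNReal.ofReal ‖y - w‖⁻¹ = ∫⁻ w, A1_G (y - p) r (w - p) := by
    rw [← lintegral_indicator measurableSet_ball]
    refine lintegral_congr fun w => ?_
    unfold A1_G
    have h2 : y - p - (w - p) = y - w := by abel
    rw [h2]
    by_cases h3 : w ∈ ball p r
    · rw [Set.indicator_of_mem h3, if_pos (mem_ball_iff_norm.1 h3)]
    · rw [Set.indicator_of_notMem h3, if_neg (fun h4 => h3 (mem_ball_iff_norm.2 h4)),
        ENNReal.ofReal_zero]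
  rw [h1, lintegral_sub_right_eq_self (fun w => A1_G (y - p) r w) p, A1_lintegral_prod _ hr,
    A1_line _ hr, A1_value hr (norm_nonneg _)]
  rfl

theorem A1_ph_nonneg (p y : E3) {r : ℝ} (hr : 0 < r) : 0 ≤ ph p r y := by
  unfold ph
  split_ifs with h
  · positivity
  · push Not at h
    have h1 : 0 ≤ 3 * r ^ 2 - ‖y - p‖ ^ 2 := by nlinarith [norm_nonneg (y - p)]
    positivity

theorem newton_integrable (p y : E3) (r : ℝ) :
    IntegrableOn (fun w => ‖y - w‖⁻¹) (ball p r) volume := by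
  rcases le_or_gt r 0 with h | h
  · rw [ball_eq_empty.2 h]
    exact integrableOn_empty
  · refine ⟨((measurable_const.sub measurable_id).norm.inv).aestronglyMeasurable, ?_⟩
    rw [hasFiniteIntegral_iff_ofReal (Filter.Eventually.of_forall fun w => by positivity),
      A1_lint p y h]
    exact ENNReal.ofReal_lt_top

theorem newton (p y : E3) {r : ℝ} (hr : 0 < r) :
    av p r (fun w => ‖y - w‖⁻¹) = ph p r y := by
  unfold av
  rw [integral_eq_lintegral_of_nonneg_ae (Filter.Eventually.of_forall fun w => by positivity)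
    (newton_integrable p y r).1, A1_lint p y hr,
    ENNReal.toReal_ofReal (mul_nonneg (by positivity) (A1_ph_nonneg p y hr))]
  have h1 : (volume : Measure E3).real (ball p r) = Real.pi * 4 / 3 * r ^ 3 := by
    rw [Measure.real, EuclideanSpace.volume_ball_fin_three, ENNReal.toReal_mul, ENNReal.toReal_pow,
      ENNReal.toReal_ofReal hr.le, ENNReal.toReal_ofReal (by positivity)]
    ring
  rw [h1, ← mul_assoc, inv_mul_cancel₀ (by positivity), one_mul]

end Ion
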