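import Pool.Agent.Lib.MP_69e010_mp.Defs

/-!
# JOB A2: elementary properties of `ph`

`ph p r y` is a function of `t = ‖y - p‖`: `1/t` for `t ≥ r`, `(3r²-t²)/(2r³)` for `t < r`. The two formulas agree at `t = r`.
* `ph_le_inv`: for `t < r`: `(3r²-t²) t ≤ 2 r³` because `(r-t)²(2r+t) ≥ 0`.
* `inv_le_ph`: for `t < r`: `(3r²-t²)(t+r) ≥ 2r³` since `3r²t + 3r³ - t³ - t² r ≥ 2 r³`.
* `ph_lip`: as a function of `t` it is `1/r²`-Lipschitz (on each piece, then glue at `t = r`) and `|‖y-p‖ - ‖y'-p‖| ≤ ‖y-y'‖`.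
* `ph_continuousOn`: `ContinuousOn.if'`/`ContinuousOn.piecewise`, or write `ph` as `(3 r² - s²)/(2 r³) + (1/t' - ...)` with `s = min t r`, e.g.
  `ph = (3 r² - (min t r)²)/(2 r³) - 1/r + 1/(max t r)`.
-/

open MeasureTheory Metric Finset Filter Topology

noncomputable section

namespace Ion

theorem ph_eq_formula {p y : E3} {r : ℝ} (hr : 0 < r) :
    ph p r y = (3 * r ^ 2 - (min ‖y - p‖ r) ^ 2) / (2 * r ^ 3) - 1 / r + 1 / max ‖y - p‖ r := by
  unfold ph
  by_cases h : r ≤ ‖y - p‖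
  · rw [if_pos h, min_eq_right h, max_eq_left h]
    have ht : 0 < ‖y - p‖ := lt_of_lt_of_le hr h
    field_simp
    ring
  · rw [if_neg h]
    push Not at h
    rw [min_eq_left h.le, max_eq_right h.le]
    ring

theorem ph_eq {p y : E3} {r : ℝ} (h : r ≤ ‖y - p‖) : ph p r y = ‖y - p‖⁻¹ := by
  unfold ph
  rw [if_pos h]

theorem ph_pos {p y : E3} {r : ℝ} (hr : 0 < r) : 0 < ph p r y := by
  unfold ph
  split_ifs with h
  · exact inv_pos.2 (lt_of_lt_of_le hr h)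
  · push Not at h
    have h0 : 0 ≤ ‖y - p‖ := norm_nonneg _
    have h1 : ‖y - p‖ ^ 2 < r ^ 2 := by nlinarith
    have h2 : 0 < r ^ 2 := by positivity
    exact div_pos (by linarith) (by positivity)

theorem ph_le {p y : E3} {r : ℝ} (hr : 0 < r) : ph p r y ≤ 3 / (2 * r) := by
  unfold ph
  have e : 3 / (2 * r) = 3 * r ^ 2 / (2 * r ^ 3) := by field_simp
  split_ifs with h
  · have h1 : ‖y - p‖⁻¹ ≤ r⁻¹ := inv_anti₀ hr h
    have h2 : 3 / (2 * r) = r⁻¹ + 1 / 2 * r⁻¹ := by field_simp; norm_num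
    have h3 : 0 < r⁻¹ := inv_pos.2 hr
    rw [h2]
    linarith
  · rw [e]
    refine div_le_div_of_nonneg_right ?_ (by positivity)
    have := sq_nonneg ‖y - p‖
    linarith

theorem ph_le_inv {p y : E3} {r : ℝ} (hr : 0 < r) (h : y ≠ p) : ph p r y ≤ ‖y - p‖⁻¹ := by
  have ht : 0 < ‖y - p‖ := norm_pos_iff.2 (sub_ne_zero.2 h)
  unfold ph
  split_ifs with h1
  · exact le_rfl
  · push Not at h1
    generalize ‖y - p‖ = t at ht h1 ⊢
    rw [div_le_iff₀ (by positivity), inv_mul_eq_div, le_div_iff₀ ht]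
    have h2 : 0 ≤ (r - t) ^ 2 * (2 * r + t) := by positivity
    nlinarith

theorem inv_le_ph {p y : E3} {r : ℝ} (hr : 0 < r) : (‖y - p‖ + r)⁻¹ ≤ ph p r y := by
  have ht : 0 ≤ ‖y - p‖ := norm_nonneg _
  unfold ph
  split_ifs with h1
  · exact inv_anti₀ (lt_of_lt_of_le hr h1) (by linarith)
  · push Not at h1
    generalize ‖y - p‖ = t at ht h1 ⊢
    have h2 : 0 < t + r := by linarith
    rw [inv_eq_one_div, div_le_div_iff₀ h2 (by positivity)]
    have h3 : t ^ 2 ≤ r ^ 2 := pow_le_pow_left₀ ht h1.le 2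
    have h4 : t ^ 2 * t ≤ r ^ 2 * t := mul_le_mul_of_nonneg_right h3 ht
    have h5 : t ^ 2 * r ≤ r ^ 2 * r := mul_le_mul_of_nonneg_right h3 hr.le
    have h6 : 0 ≤ r ^ 2 * t := by positivity
    nlinarith

theorem ph_anti {p y y' : E3} {r : ℝ} (hr : 0 < r) (h : ‖y - p‖ ≤ ‖y' - p‖) :
    ph p r y' ≤ ph p r y := by
  rw [ph_eq_formula hr, ph_eq_formula hr]
  have ht : 0 ≤ ‖y - p‖ := norm_nonneg _
  have h1 : min ‖y - p‖ r ≤ min ‖y' - p‖ r := min_le_min_right r h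
  have h2 : max ‖y - p‖ r ≤ max ‖y' - p‖ r := max_le_max_right r h
  have h3 : 0 ≤ min ‖y - p‖ r := le_min ht hr.le
  have h4 : 0 < max ‖y - p‖ r := lt_of_lt_of_le hr (le_max_right _ _)
  have h5 : (min ‖y - p‖ r) ^ 2 ≤ (min ‖y' - p‖ r) ^ 2 := pow_le_pow_left₀ h3 h1 2
  have h6 : (3 * r ^ 2 - (min ‖y' - p‖ r) ^ 2) / (2 * r ^ 3)
      ≤ (3 * r ^ 2 - (min ‖y - p‖ r) ^ 2) / (2 * r ^ 3) :=
    div_le_div_of_nonneg_right (by linarith) (by positivity)
  have h7 : 1 / max ‖y' - p‖ r ≤ 1 / max ‖y - p‖ r := one_div_le_one_div_of_le h4 h2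
  linarith

theorem A2_aux {p y y' : E3} {r : ℝ} (hr : 0 < r) (h : ‖y - p‖ ≤ ‖y' - p‖) :
    ph p r y - ph p r y' ≤ (‖y' - p‖ - ‖y - p‖) / r ^ 2 := by
  rw [ph_eq_formula hr, ph_eq_formula hr]
  have ht : 0 ≤ ‖y - p‖ := norm_nonneg _
  generalize ‖y' - p‖ = t' at h ⊢
  generalize ‖y - p‖ = t at h ht ⊢
  have e1 : min t r + max t r = t + r := min_add_max t r
  have e2 : min t' r + max t' r = t' + r := min_add_max t' r
  have h1 : min t r ≤ min t' r := min_le_min_right r h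
  have h2 : max t r ≤ max t' r := max_le_max_right r h
  have h3 : 0 ≤ min t r := le_min ht hr.le
  have h4 : r ≤ max t r := le_max_right _ _
  have h5 : min t' r ≤ r := min_le_right _ _
  generalize min t r = s at *
  generalize max t r = M at *
  generalize min t' r = s' at *
  generalize max t' r = M' at *
  have hr2 : 0 < r ^ 2 := by positivity
  have a1 : (3 * r ^ 2 - s ^ 2) / (2 * r ^ 3) - (3 * r ^ 2 - s' ^ 2) / (2 * r ^ 3)
      ≤ (s' - s) / r ^ 2 := by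
    rw [← sub_div, div_le_div_iff₀ (by positivity) hr2]
    have b1 : (s' - s) * (s' + s) ≤ (s' - s) * (2 * r) :=
      mul_le_mul_of_nonneg_left (by linarith) (by linarith)
    have b2 := mul_le_mul_of_nonneg_right b1 hr2.le
    nlinarith
  have a2 : 1 / M - 1 / M' ≤ (M' - M) / r ^ 2 := by
    have hM : 0 < M := lt_of_lt_of_le hr h4
    have hM' : 0 < M' := lt_of_lt_of_le hM h2
    have b1 : 1 / M - 1 / M' = (M' - M) / (M * M') := by
      field_simp
    rw [b1]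
    refine div_le_div_of_nonneg_left (by linarith) hr2 ?_
    nlinarith
  have a3 : (t' - t) / r ^ 2 = (s' - s) / r ^ 2 + (M' - M) / r ^ 2 := by
    rw [← add_div]
    congr 1
    linarith
  rw [a3]
  linarith

theorem ph_lip {p y y' : E3} {r : ℝ} (hr : 0 < r) :
    |ph p r y - ph p r y'| ≤ ‖y - y'‖ / r ^ 2 := by
  rcases le_total ‖y - p‖ ‖y' - p‖ with h | h
  · rw [abs_of_nonneg (by linarith [ph_anti hr h])]
    refine (A2_aux hr h).trans (div_le_div_of_nonneg_right ?_ (by positivity))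
    have h1 := norm_sub_norm_le (y' - p) (y - p)
    have h2 : y' - p - (y - p) = y' - y := by abel
    rw [h2, norm_sub_rev y' y] at h1
    exact h1
  · rw [abs_sub_comm, abs_of_nonneg (by linarith [ph_anti hr h])]
    refine (A2_aux hr h).trans (div_le_div_of_nonneg_right ?_ (by positivity))
    have h1 := norm_sub_norm_le (y - p) (y' - p)
    have h2 : y - p - (y' - p) = y - y' := by abel
    rw [h2] at h1
    exact h1

theorem ph_continuous {p : E3} {r : ℝ} (hr : 0 < r) : Continuous (ph p r) := by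
  have e : ph p r = fun y => (3 * r ^ 2 - (min ‖y - p‖ r) ^ 2) / (2 * r ^ 3) - 1 / r
      + 1 / max ‖y - p‖ r := by
    funext y
    exact ph_eq_formula hr
  rw [e]
  have h1 : Continuous fun y : E3 => ‖y - p‖ := by fun_prop
  have h2 : Continuous fun y : E3 => min ‖y - p‖ r := h1.min continuous_const
  have h3 : Continuous fun y : E3 => max ‖y - p‖ r := h1.max continuous_const
  have h4 : ∀ y : E3, max ‖y - p‖ r ≠ 0 := fun y =>
    (lt_of_lt_of_le hr (le_max_right _ _)).ne'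
  exact (((continuous_const.sub (h2.pow 2)).div_const _).sub continuous_const).add
    (continuous_const.div h3 h4)

theorem ph_continuousOn :
    ContinuousOn (fun q : E3 × ℝ × E3 => ph q.1 q.2.1 q.2.2) {q | 0 < q.2.1} := by
  have e : ∀ q ∈ {q : E3 × ℝ × E3 | 0 < q.2.1}, (fun q : E3 × ℝ × E3 => ph q.1 q.2.1 q.2.2) q
      = (3 * q.2.1 ^ 2 - (min ‖q.2.2 - q.1‖ q.2.1) ^ 2) / (2 * q.2.1 ^ 3) - 1 / q.2.1
        + 1 / max ‖q.2.2 - q.1‖ q.2.1 := by
    intro q hq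
    exact ph_eq_formula hq
  refine ContinuousOn.congr ?_ e
  have c0 : Continuous fun q : E3 × ℝ × E3 => q.2.1 := by fun_prop
  have c1 : Continuous fun q : E3 × ℝ × E3 => ‖q.2.2 - q.1‖ := by fun_prop
  have h0 : ContinuousOn (fun q : E3 × ℝ × E3 => q.2.1) {q : E3 × ℝ × E3 | 0 < q.2.1} :=
    c0.continuousOn
  have h2 : ContinuousOn (fun q : E3 × ℝ × E3 => min ‖q.2.2 - q.1‖ q.2.1)
      {q : E3 × ℝ × E3 | 0 < q.2.1} := (c1.min c0).continuousOn
  have h3 : ContinuousOn (fun q : E3 × ℝ × E3 => max ‖q.2.2 - q.1‖ q.2.1)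
      {q : E3 × ℝ × E3 | 0 < q.2.1} := (c1.max c0).continuousOn
  have h4 : ∀ q ∈ {q : E3 × ℝ × E3 | 0 < q.2.1}, max ‖q.2.2 - q.1‖ q.2.1 ≠ 0 := fun q hq =>
    (lt_of_lt_of_le (show 0 < q.2.1 from hq) (le_max_right _ _)).ne'
  have h5 : ∀ q ∈ {q : E3 × ℝ × E3 | 0 < q.2.1}, q.2.1 ≠ 0 := fun q hq =>
    (show 0 < q.2.1 from hq).ne'
  have h6 : ∀ q ∈ {q : E3 × ℝ × E3 | 0 < q.2.1}, 2 * q.2.1 ^ 3 ≠ 0 := fun q hq => by
    have : 0 < q.2.1 := hq
    positivity
  exact (((((h0.pow 2).const_mul 3).sub (h2.pow 2)).div ((h0.pow 3).const_mul 2) h6).sub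
    (continuousOn_const.div h0 h5)).add (continuousOn_const.div h3 h4)

theorem ph_tendsto (p : E3) (r : ℝ) : Tendsto (ph p r) (cocompact E3) (𝓝 0) := by
  have h1 : Tendsto (fun y : E3 => ‖y - p‖) (cocompact E3) atTop := by
    have h2 : Tendsto (fun y : E3 => ‖y‖ + -‖p‖) (cocompact E3) atTop :=
      tendsto_atTop_add_const_right _ (-‖p‖) (tendsto_norm_cocompact_atTop (E := E3))
    refine tendsto_atTop_mono (fun y => ?_) h2
    have h3 := norm_sub_norm_le y p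
    linarith
  have h4 : Tendsto (fun y : E3 => ‖y - p‖⁻¹) (cocompact E3) (𝓝 0) :=
    tendsto_inv_atTop_zero.comp h1
  refine h4.congr' ?_
  filter_upwards [h1.eventually_ge_atTop r] with y hy
  exact (ph_eq hy).symm

end Ion
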