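import Pool.Agent.Lib.MP_69e010_mp.Defs

/-!
# JOB A4: toolkit for averages over balls

All functions are continuous, so they are integrable on balls (closed balls are compact). `volume.real (ball p r) = 4/3 π r³`
from `EuclideanSpace.volume_ball` (`Fin 3`, `Gamma (3/2+1) = 3 √π / 4`), or `EuclideanSpace.volume_ball_fin_three`.
* `av_subset`: `∫_{B(p,r)} F ≤ ∫_{B(q,ρ)} F` for `F ≥ 0` and divide by the volumes.
* `av_scale`: change of variables `w = p + r α`.
* `av_eq_zero`: a nonnegative continuous function with vanishing integral over an open set vanishes there.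
-/

open MeasureTheory Metric Finset Filter Topology

noncomputable section

namespace Ion

theorem vol_ball (p : E3) {r : ℝ} (hr : 0 ≤ r) :
    volume.real (ball p r) = 4 / 3 * Real.pi * r ^ 3 := by
  have hpi := Real.pi_pos
  rw [measureReal_def, EuclideanSpace.volume_ball_fin_three, ENNReal.toReal_mul,
    ENNReal.toReal_pow, ENNReal.toReal_ofReal hr, ENNReal.toReal_ofReal (by positivity)]
  ring

theorem integrableOn_ball {F : E3 → ℝ} (hF : Continuous F) (p : E3) (r : ℝ) :
    IntegrableOn F (ball p r) volume :=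
  (hF.continuousOn.integrableOn_compact (isCompact_closedBall p r)).mono_set ball_subset_closedBall

theorem A4_vol_pos (p : E3) {r : ℝ} (hr : 0 < r) : 0 < volume.real (ball p r) := by
  have hpi := Real.pi_pos
  rw [vol_ball p hr.le]
  positivity

theorem av_const {p : E3} {r : ℝ} (hr : 0 < r) (c : ℝ) : av p r (fun _ => c) = c := by
  have h := A4_vol_pos p hr
  unfold av
  rw [setIntegral_const, smul_eq_mul, ← mul_assoc, inv_mul_cancel₀ h.ne', one_mul]

theorem av_add {F G : E3 → ℝ} (hF : Continuous F) (hG : Continuous G) (p : E3) (r : ℝ) :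
    av p r (fun w => F w + G w) = av p r F + av p r G := by
  unfold av
  rw [integral_add (integrableOn_ball hF p r) (integrableOn_ball hG p r), mul_add]

theorem av_sub {F G : E3 → ℝ} (hF : Continuous F) (hG : Continuous G) (p : E3) (r : ℝ) :
    av p r (fun w => F w - G w) = av p r F - av p r G := by
  unfold av
  rw [integral_sub (integrableOn_ball hF p r) (integrableOn_ball hG p r), mul_sub]

theorem av_mul (c : ℝ) (F : E3 → ℝ) (p : E3) (r : ℝ) :
    av p r (fun w => c * F w) = c * av p r F := by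
  unfold av
  rw [integral_const_mul]
  ring

theorem av_sum {κ : Type*} (s : Finset κ) {F : κ → E3 → ℝ} (hF : ∀ k ∈ s, Continuous (F k)) (p : E3) (r : ℝ) :
    av p r (fun w => ∑ k ∈ s, F k w) = ∑ k ∈ s, av p r (F k) := by
  unfold av
  rw [integral_finsetSum s (fun k hk => integrableOn_ball (hF k hk) p r), Finset.mul_sum]

theorem av_mono {F G : E3 → ℝ} (hF : Continuous F) (hG : Continuous G) {p : E3} {r : ℝ}
    (h : ∀ w ∈ ball p r, F w ≤ G w) : av p r F ≤ av p r G := by
  unfold av
  exact mul_le_mul_of_nonneg_left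
    (setIntegral_mono_on (integrableOn_ball hF p r) (integrableOn_ball hG p r) measurableSet_ball h)
    (inv_nonneg.2 measureReal_nonneg)

theorem av_nonneg {F : E3 → ℝ} {p : E3} {r : ℝ} (h : ∀ w ∈ ball p r, 0 ≤ F w) : 0 ≤ av p r F := by
  unfold av
  exact mul_nonneg (inv_nonneg.2 measureReal_nonneg) (setIntegral_nonneg measurableSet_ball h)

theorem av_le {F : E3 → ℝ} (hF : Continuous F) {p : E3} {r : ℝ} (hr : 0 < r) {C : ℝ}
    (h : ∀ w ∈ ball p r, F w ≤ C) : av p r F ≤ C := by
  rw [← av_const (p := p) hr C]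
  exact av_mono hF continuous_const h

theorem le_av {F : E3 → ℝ} (hF : Continuous F) {p : E3} {r : ℝ} (hr : 0 < r) {C : ℝ}
    (h : ∀ w ∈ ball p r, C ≤ F w) : C ≤ av p r F := by
  rw [← av_const (p := p) hr C]
  exact av_mono continuous_const hF h

theorem A4_eq_zero {F : E3 → ℝ} (hF : Continuous F) {p : E3} {r : ℝ} (hr : 0 < r)
    (h : ∀ w ∈ ball p r, 0 ≤ F w) (h0 : av p r F ≤ 0) : ∀ w ∈ ball p r, F w = 0 := by
  have hv := A4_vol_pos p hr
  have h1 : ∫ w in ball p r, F w = 0 := by
    have h2 : 0 ≤ ∫ w in ball p r, F w := setIntegral_nonneg measurableSet_ball h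
    have h3 : (∫ w in ball p r, F w) = volume.real (ball p r) * av p r F := by
      unfold av
      rw [← mul_assoc, mul_inv_cancel₀ hv.ne', one_mul]
    have h4 : volume.real (ball p r) * av p r F ≤ 0 := mul_nonpos_of_nonneg_of_nonpos hv.le h0
    linarith
  have hae : 0 ≤ᵐ[volume.restrict (ball p r)] F := by
    rw [Filter.EventuallyLE, ae_restrict_iff' measurableSet_ball]
    exact Filter.Eventually.of_forall h
  have h5 := (setIntegral_eq_zero_iff_of_nonneg_ae hae (integrableOn_ball hF p r)).1 h1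
  intro w hw
  have h6 : Set.EqOn F 0 (ball p r) :=
    Measure.eqOn_open_of_ae_eq h5 isOpen_ball hF.continuousOn continuousOn_const
  exact h6 hw

theorem av_pos {F : E3 → ℝ} (hF : Continuous F) {p : E3} {r : ℝ} (hr : 0 < r) (h : ∀ w ∈ ball p r, 0 < F w) :
    0 < av p r F := by
  by_contra hc
  have h1 := A4_eq_zero hF hr (fun w hw => (h w hw).le) (not_lt.1 hc) p (mem_ball_self hr)
  exact (h p (mem_ball_self hr)).ne' h1

theorem av_subset {F : E3 → ℝ} (hF : Continuous F) {p q : E3} {r ρ : ℝ} (hr : 0 < r)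
    (hs : ball p r ⊆ ball q ρ) (h : ∀ w ∈ ball q ρ, 0 ≤ F w) :
    av p r F ≤ (ρ / r) ^ 3 * av q ρ F := by
  have hρ : 0 < ρ := by
    have := hs (mem_ball_self hr)
    exact lt_of_le_of_lt dist_nonneg (mem_ball.1 this)
  have hpi := Real.pi_pos
  have h1 : ∫ w in ball p r, F w ≤ ∫ w in ball q ρ, F w := by
    refine setIntegral_mono_set (integrableOn_ball hF q ρ) ?_ (Filter.Eventually.of_forall hs)
    rw [Filter.EventuallyLE, ae_restrict_iff' measurableSet_ball]
    exact Filter.Eventually.of_forall h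
  unfold av
  rw [vol_ball p hr.le, vol_ball q hρ.le]
  have h2 : (ρ / r) ^ 3 * ((4 / 3 * Real.pi * ρ ^ 3)⁻¹ * ∫ w in ball q ρ, F w)
      = (4 / 3 * Real.pi * r ^ 3)⁻¹ * ∫ w in ball q ρ, F w := by
    field_simp
  rw [h2]
  exact mul_le_mul_of_nonneg_left h1 (by positivity)

theorem av_scale (F : E3 → ℝ) (p : E3) {r : ℝ} (hr : 0 < r) :
    av p r F = av 0 1 (fun α => F (p + r • α)) := by
  have hpi := Real.pi_pos
  have h1 : ∫ α in ball (0 : E3) 1, F (p + r • α) = (r ^ 3)⁻¹ * ∫ w in ball p r, F w := by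
    have h2 := Measure.setIntegral_comp_smul_of_pos (volume : Measure E3) (fun w => F (p + w))
      (ball (0 : E3) 1) hr
    have hfr : Module.finrank ℝ E3 = 3 := by simp
    rw [hfr, smul_eq_mul] at h2
    rw [smul_unitBall_of_pos hr] at h2
    have h4 : ∫ w in ball (0 : E3) r, F (p + w) = ∫ w in ball p r, F w := by
      rw [← integral_indicator measurableSet_ball, ← integral_indicator measurableSet_ball,
        ← integral_add_left_eq_self ((ball p r).indicator fun w => F w) p]
      refine integral_congr_ae (Filter.Eventually.of_forall fun w => ?_)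
      simp only [Set.indicator, mem_ball, dist_eq_norm, add_sub_cancel_left, sub_zero]
    rw [h4] at h2
    exact h2
  unfold av
  rw [h1, vol_ball p hr.le, vol_ball 0 zero_le_one]
  field_simp

theorem av_eq_zero {F : E3 → ℝ} (hF : Continuous F) {p : E3} {r : ℝ} (hr : 0 < r)
    (h : ∀ w ∈ ball p r, 0 ≤ F w) (h0 : av p r F ≤ 0) : ∀ w ∈ ball p r, F w = 0 :=
  A4_eq_zero hF hr h h0

end Ion
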