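import Pool.Agent.Lib.MP_69e010_mp.A1
import Pool.Agent.Lib.MP_69e010_mp.A2
import Pool.Agent.Lib.MP_69e010_mp.A4

/-!
# JOB A3: superharmonicity of `ph` in the sense of ball averages

By `newton`, `ph q ρ w = av q ρ (z ↦ ‖w - z‖⁻¹)`. Fubini (the function `‖w - z‖⁻¹` is integrable on the product of two balls) gives `av_ph_comm`.
`av_ph_le`: `av q ρ (ph p r) = av p r (ph q ρ) ≤ av p r (w ↦ ‖w - q‖⁻¹) = av p r (w ↦ ‖q - w‖⁻¹) = ph p r q` (`ph_le_inv`; the point `w = q` is negligible, integrability from `newton_integrable`).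
`av_ph_eq`: here `ph q ρ w = ‖w - q‖⁻¹` for all `w ∈ ball p r` because `‖w - q‖ ≥ ρ`.
The bounds for `av p r (ph q ρ)` follow from `ph_le`, `av_ph_le`, `ph_le_inv`, `inv_le_ph`.
-/

open MeasureTheory Metric Finset Filter Topology

noncomputable section

namespace Ion

theorem A3_vol_pos (p : E3) {r : ℝ} (hr : 0 < r) : 0 < volume.real (ball p r) := by
  have hpi := Real.pi_pos
  rw [vol_ball p hr.le]
  positivity

theorem A3_inner (q w : E3) {ρ : ℝ} (hρ : 0 < ρ) :
    ∫ z in ball q ρ, ‖w - z‖⁻¹ = volume.real (ball q ρ) * ph q ρ w := by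
  have hv := A3_vol_pos q hρ
  rw [← newton q w hρ]
  unfold av
  rw [← mul_assoc, mul_inv_cancel₀ hv.ne', one_mul]

theorem A3_prod_integrable (p q : E3) (r : ℝ) {ρ : ℝ} (hρ : 0 < ρ) :
    Integrable (fun x : E3 × E3 => ‖x.1 - x.2‖⁻¹)
      ((volume.restrict (ball p r)).prod (volume.restrict (ball q ρ))) := by
  have hm : AEStronglyMeasurable (fun x : E3 × E3 => ‖x.1 - x.2‖⁻¹)
      ((volume.restrict (ball p r)).prod (volume.restrict (ball q ρ))) := by
    apply Measurable.aestronglyMeasurable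
    fun_prop
  rw [integrable_prod_iff hm]
  refine ⟨Filter.Eventually.of_forall fun w => newton_integrable q w ρ, ?_⟩
  have h1 : (fun w : E3 => ∫ z, ‖‖w - z‖⁻¹‖ ∂(volume.restrict (ball q ρ)))
      = fun w => volume.real (ball q ρ) * ph q ρ w := by
    funext w
    rw [← A3_inner q w hρ]
    refine integral_congr_ae (Filter.Eventually.of_forall fun z => ?_)
    simp
  simp only
  rw [h1]
  exact (integrableOn_ball (continuous_const.mul (ph_continuous hρ)) p r)

theorem av_ph_comm {p q : E3} {r ρ : ℝ} (hr : 0 < r) (hρ : 0 < ρ) :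
    av p r (ph q ρ) = av q ρ (ph p r) := by
  have hvr := A3_vol_pos p hr
  have hvρ := A3_vol_pos q hρ
  have h1 : (∫ w in ball p r, ∫ z in ball q ρ, ‖w - z‖⁻¹)
      = volume.real (ball q ρ) * ∫ w in ball p r, ph q ρ w := by
    rw [← integral_const_mul]
    refine integral_congr_ae (Filter.Eventually.of_forall fun w => ?_)
    exact A3_inner q w hρ
  have h2 : (∫ z in ball q ρ, ∫ w in ball p r, ‖w - z‖⁻¹)
      = volume.real (ball p r) * ∫ z in ball q ρ, ph p r z := by
    rw [← integral_const_mul]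
    refine integral_congr_ae (Filter.Eventually.of_forall fun z => ?_)
    simp only
    rw [← A3_inner p z hr]
    refine integral_congr_ae (Filter.Eventually.of_forall fun w => ?_)
    simp only
    rw [norm_sub_rev]
  have h3 := integral_integral_swap (f := fun (w z : E3) => ‖w - z‖⁻¹)
    (μ := volume.restrict (ball p r)) (ν := volume.restrict (ball q ρ)) (A3_prod_integrable p q r hρ)
  rw [h1, h2] at h3
  unfold av
  rw [inv_mul_eq_div, inv_mul_eq_div, div_eq_div_iff hvr.ne' hvρ.ne']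
  linarith

theorem av_ph_le {p q : E3} {r ρ : ℝ} (hr : 0 < r) (hρ : 0 < ρ) : av q ρ (ph p r) ≤ ph p r q := by
  rw [← av_ph_comm hr hρ, ← newton p q hr]
  unfold av
  refine mul_le_mul_of_nonneg_left ?_ (inv_nonneg.2 measureReal_nonneg)
  refine integral_mono_ae (integrableOn_ball (ph_continuous hρ) p r) (newton_integrable p q r) ?_
  have hq : ∀ᵐ w ∂(volume.restrict (ball p r)), w ≠ q := by
    have h0 : (volume.restrict (ball p r)) {q} = 0 := by
      have h00 : volume ({q} : Set E3) = 0 := measure_singleton q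
      exact le_antisymm ((Measure.restrict_apply_le _ _).trans h00.le) zero_le
    exact compl_mem_ae_iff.2 h0
  filter_upwards [hq] with w hw
  rw [norm_sub_rev]
  exact ph_le_inv hρ hw

theorem av_ph_eq {p q : E3} {r ρ : ℝ} (hr : 0 < r) (hρ : 0 < ρ) (h : r + ρ ≤ ‖q - p‖) :
    av q ρ (ph p r) = ph p r q := by
  rw [← av_ph_comm hr hρ, ← newton p q hr]
  unfold av
  congr 1
  refine setIntegral_congr_fun measurableSet_ball fun w hw => ?_
  rw [norm_sub_rev q w]
  refine ph_eq ?_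
  have h1 : ‖w - p‖ < r := by simpa [dist_eq_norm] using hw
  have h2 : ‖q - p‖ ≤ ‖w - q‖ + ‖w - p‖ := by
    have := norm_add_le (q - w) (w - p)
    rw [sub_add_sub_cancel, norm_sub_rev q w] at this
    exact this
  linarith

theorem kk_pos {p q : E3} {r ρ : ℝ} (hr : 0 < r) (hρ : 0 < ρ) : 0 < av p r (ph q ρ) :=
  av_pos (ph_continuous hρ) hr fun _ _ => ph_pos hρ

theorem kk_le_left {p q : E3} {r ρ : ℝ} (hr : 0 < r) (hρ : 0 < ρ) : av p r (ph q ρ) ≤ 3 / (2 * r) := by
  rw [av_ph_comm hr hρ]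
  exact (av_ph_le hr hρ).trans (ph_le hr)

theorem kk_le_right {p q : E3} {r ρ : ℝ} (hr : 0 < r) (hρ : 0 < ρ) : av p r (ph q ρ) ≤ 3 / (2 * ρ) :=
  (av_ph_le hρ hr).trans (ph_le hρ)

theorem kk_le_inv {p q : E3} {r ρ : ℝ} (hr : 0 < r) (hρ : 0 < ρ) (h : p ≠ q) :
    av p r (ph q ρ) ≤ ‖p - q‖⁻¹ :=
  (av_ph_le hρ hr).trans (ph_le_inv hρ h)

theorem kk_ge {p q : E3} {r ρ : ℝ} (hr : 0 < r) (hρ : 0 < ρ) :
    (‖p - q‖ + r + ρ)⁻¹ ≤ av p r (ph q ρ) := by
  refine le_av (ph_continuous hρ) hr fun w hw => ?_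
  have h1 : ‖w - p‖ < r := by simpa [dist_eq_norm] using hw
  have h2 : ‖w - q‖ ≤ ‖w - p‖ + ‖p - q‖ := by
    have := norm_add_le (w - p) (p - q)
    rw [sub_add_sub_cancel] at this
    exact this
  have h3 := norm_nonneg (w - q)
  refine le_trans ?_ (inv_le_ph hρ)
  exact inv_anti₀ (by linarith) (by linarith)

end Ion
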