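import Pool.Agent.Lib.MP_69e010_mp.A4

/-!
# JOB A5: averages over slightly moved balls

* `av_move_lip`: by `av_scale`, `av p' r' F - av p r F = av 0 1 (α ↦ F(p'+r'α) - F(p+rα))`, and `‖p'+r'α-p-rα‖ ≤ ‖p'-p‖+|r'-r|` on the unit ball.
* `av_move_sup`: with `B = ball p r`, `B' = ball p' r'`: `ball p (r-2t) ⊆ B ∩ B'`, `B ∪ B' ⊆ ball p (r+2t)`, so `|B △ B'| ≤ |ball p (r+2t)| - |ball p (r-2t)|
  = |B| ((1+2t/r)³-(1-2t/r)³) ≤ 12.1 (t/r) |B|`. Then `|av p' r' F - av p r F| ≤ |B|⁻¹ |∫_{B'} F - ∫_B F| + |1/|B'| - 1/|B|| ∫_{B'} F ≤ 2 C |B △ B'|/|B|`.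
-/

open MeasureTheory Metric Finset Filter Topology

noncomputable section

namespace Ion

theorem av_move_lip {F : E3 → ℝ} {L : ℝ} (hF : ∀ w w', |F w - F w'| ≤ L * ‖w - w'‖) {p p' : E3} {r r' : ℝ}
    (hr : 0 < r) (hr' : 0 < r') :
    |av p' r' F - av p r F| ≤ L * (‖p' - p‖ + |r' - r|) := by
  have hL : 0 ≤ L := by
    have h := (abs_nonneg _).trans (hF (EuclideanSpace.single 0 1) 0)
    rw [sub_zero, EuclideanSpace.norm_single] at h
    simpa using h
  have hcont : Continuous F := by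
    refine (LipschitzWith.of_dist_le_mul (K := L.toNNReal) (fun w w' => ?_)).continuous
    rw [Real.dist_eq, dist_eq_norm, Real.coe_toNNReal L hL]
    exact hF w w'
  have h1 : Continuous (fun α : E3 => F (p' + r' • α)) := hcont.comp (by fun_prop)
  have h2 : Continuous (fun α : E3 => F (p + r • α)) := hcont.comp (by fun_prop)
  have hpt : ∀ α ∈ ball (0 : E3) 1, |F (p' + r' • α) - F (p + r • α)| ≤ L * (‖p' - p‖ + |r' - r|) := by
    intro α hα
    refine (hF _ _).trans (mul_le_mul_of_nonneg_left ?_ hL)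
    have e1 : p' + r' • α - (p + r • α) = (p' - p) + (r' - r) • α := by rw [sub_smul]; abel
    rw [e1]
    refine (norm_add_le _ _).trans ?_
    rw [norm_smul, Real.norm_eq_abs]
    have h3 : ‖α‖ ≤ 1 := by
      rw [mem_ball_zero_iff] at hα
      exact hα.le
    have h4 := mul_le_mul_of_nonneg_left h3 (abs_nonneg (r' - r))
    linarith
  rw [av_scale F p' hr', av_scale F p hr, ← av_sub h1 h2, abs_le]
  constructor
  · exact le_av (h1.sub h2) one_pos (fun α hα => (abs_le.1 (hpt α hα)).1)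
  · exact av_le (h1.sub h2) one_pos (fun α hα => (abs_le.1 (hpt α hα)).2)

private theorem A5_mono {F : E3 → ℝ} (hF : Continuous F) {p q : E3} {r ρ : ℝ} (hs : ball p r ⊆ ball q ρ)
    (h : ∀ w ∈ ball q ρ, 0 ≤ F w) : ∫ w in ball p r, F w ≤ ∫ w in ball q ρ, F w := by
  refine setIntegral_mono_set (integrableOn_ball hF q ρ) ?_ (Filter.Eventually.of_forall hs)
  exact (ae_restrict_iff' measurableSet_ball).2 (Filter.Eventually.of_forall fun w hw => h w hw)

private theorem A5_const (C : ℝ) (p : E3) {r : ℝ} (hr : 0 ≤ r) :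
    ∫ _ in ball p r, C = C * (4 / 3 * Real.pi * r ^ 3) := by
  rw [setIntegral_const, vol_ball p hr, smul_eq_mul, mul_comm]

private theorem A5_sub {F : E3 → ℝ} (hF : Continuous F) (C : ℝ) (p : E3) {r : ℝ} (hr : 0 ≤ r) :
    ∫ w in ball p r, (C - F w) = C * (4 / 3 * Real.pi * r ^ 3) - ∫ w in ball p r, F w := by
  rw [integral_sub (integrableOn_ball continuous_const p r) (integrableOn_ball hF p r), A5_const C p hr]

private theorem A5_arith {I I' V V' W C : ℝ} (hV : 0 < V) (hV' : 0 < V') (hI : |I' - I| ≤ C * W)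
    (hI0 : 0 ≤ I) (hI1 : I ≤ C * V) (hVV : |V - V'| ≤ W) :
    |V'⁻¹ * I' - V⁻¹ * I| ≤ 2 * C * W / V' := by
  have e1 : V'⁻¹ * I' - V⁻¹ * I = ((I' - I) + (I / V) * (V - V')) / V' := by
    field_simp
    ring
  rw [e1, abs_div, abs_of_pos hV']
  refine div_le_div_of_nonneg_right ?_ hV'.le
  refine (abs_add_le _ _).trans ?_
  have h1 : |I / V * (V - V')| ≤ C * W := by
    rw [abs_mul, abs_of_nonneg (div_nonneg hI0 hV.le)]
    have h2 : I / V ≤ C := by rw [div_le_iff₀ hV]; exact hI1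
    exact mul_le_mul h2 hVV (abs_nonneg _) ((div_nonneg hI0 hV.le).trans h2)
  linarith

theorem av_move_sup {F : E3 → ℝ} (hF : Continuous F) {p p' : E3} {r r' t C : ℝ} (hr : 0 < r)
    (ht : 0 ≤ t) (htr : t ≤ r / 20) (hp : ‖p' - p‖ ≤ t) (hr' : |r' - r| ≤ t)
    (h0 : ∀ w ∈ ball p (2 * r), 0 ≤ F w) (hC : ∀ w ∈ ball p (2 * r), F w ≤ C) :
    |av p' r' F - av p r F| ≤ 32 * (t / r) * C := by
  obtain ⟨hr1, hr2⟩ := abs_le.1 hr'
  have hr'pos : 0 < r' := by linarith
  have hC0 : 0 ≤ C := by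
    have hp0 : p ∈ ball p (2 * r) := by rw [mem_ball, dist_self]; linarith
    exact (h0 p hp0).trans (hC p hp0)
  have hd : dist p p' ≤ t := by rw [dist_comm, dist_eq_norm]; exact hp
  have hd' : dist p' p ≤ t := by rw [dist_eq_norm]; exact hp
  have s1 : ball p (r - 2 * t) ⊆ ball p r := ball_subset_ball (by linarith)
  have s2 : ball p (r - 2 * t) ⊆ ball p' r' := ball_subset_ball' (by linarith)
  have s3 : ball p r ⊆ ball p (r + 2 * t) := ball_subset_ball (by linarith)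
  have s4 : ball p' r' ⊆ ball p (r + 2 * t) := ball_subset_ball' (by linarith)
  have s5 : ball p (r + 2 * t) ⊆ ball p (2 * r) := ball_subset_ball (by linarith)
  have h00 : ∀ w ∈ ball p (r + 2 * t), 0 ≤ F w := fun w hw => h0 w (s5 hw)
  have hCC : ∀ w ∈ ball p (r + 2 * t), 0 ≤ C - F w := fun w hw => sub_nonneg.2 (hC w (s5 hw))
  have i1 := A5_mono hF s1 (fun w hw => h00 w (s3 hw))
  have i2 := A5_mono hF s2 (fun w hw => h00 w (s4 hw))
  have i3 := A5_mono hF s3 h00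
  have i4 := A5_mono hF s4 h00
  have hG : Continuous (fun w => C - F w) := continuous_const.sub hF
  have i5 := A5_mono hG (s1.trans s3) hCC
  have i6 := A5_mono hG s3 hCC
  rw [A5_sub hF C p (by linarith), A5_sub hF C p (by linarith)] at i5
  have i7 : 0 ≤ ∫ w in ball p r, F w :=
    setIntegral_nonneg measurableSet_ball (fun w hw => h00 w (s3 hw))
  have i8 : 0 ≤ ∫ w in ball p r, (C - F w) :=
    setIntegral_nonneg measurableSet_ball (fun w hw => hCC w (s3 hw))
  rw [A5_sub hF C p hr.le] at i8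
  have hpi := Real.pi_pos
  set c : ℝ := 4 / 3 * Real.pi with hc
  have hcpos : 0 < c := by positivity
  have hcube1 : (r - 2 * t) ^ 3 ≤ r ^ 3 := pow_le_pow_left₀ (by linarith) (by linarith) 3
  have hcube2 : (r - 2 * t) ^ 3 ≤ r' ^ 3 := pow_le_pow_left₀ (by linarith) (by linarith) 3
  have hcube3 : r ^ 3 ≤ (r + 2 * t) ^ 3 := pow_le_pow_left₀ (by linarith) (by linarith) 3
  have hcube4 : r' ^ 3 ≤ (r + 2 * t) ^ 3 := pow_le_pow_left₀ (by linarith) (by linarith) 3
  have hV : 0 < c * r ^ 3 := by positivity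
  have hV' : 0 < c * r' ^ 3 := by positivity
  have key := A5_arith (I := ∫ w in ball p r, F w) (I' := ∫ w in ball p' r', F w) (V := c * r ^ 3)
    (V' := c * r' ^ 3) (W := c * ((r + 2 * t) ^ 3 - (r - 2 * t) ^ 3)) (C := C) hV hV' ?_ i7 (by linarith) ?_
  · unfold av
    rw [vol_ball p' hr'pos.le, vol_ball p hr.le]
    refine key.trans ?_
    have hlow : (r - t) ^ 3 ≤ r' ^ 3 := pow_le_pow_left₀ (by linarith) (by linarith) 3
    have hlow2 : (19 / 20 * r) ^ 3 ≤ (r - t) ^ 3 := pow_le_pow_left₀ (by linarith) (by linarith) 3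
    rw [div_le_iff₀ hV']
    have e1 : 32 * (t / r) * C * (c * r' ^ 3) = (32 * c * C * t) * (r' ^ 3 / r) := by ring
    have e2 : 2 * C * (c * ((r + 2 * t) ^ 3 - (r - 2 * t) ^ 3)) = (32 * c * C * t) * ((3 / 4) * r ^ 2 + t ^ 2) := by ring
    rw [e1, e2]
    refine mul_le_mul_of_nonneg_left ?_ (by positivity)
    rw [le_div_iff₀ hr]
    have ht2 : t ^ 2 ≤ (r / 20) ^ 2 := pow_le_pow_left₀ ht htr 2
    have ht3 : t ^ 2 * r ≤ (r / 20) ^ 2 * r := mul_le_mul_of_nonneg_right ht2 hr.le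
    have hr3 : 0 < r ^ 3 := by positivity
    nlinarith
  · have hW : C * (c * ((r + 2 * t) ^ 3 - (r - 2 * t) ^ 3)) =
        C * (c * (r + 2 * t) ^ 3) - C * (c * (r - 2 * t) ^ 3) := by ring
    rw [hW, abs_le]
    constructor <;> linarith
  · have hW : c * ((r + 2 * t) ^ 3 - (r - 2 * t) ^ 3) = c * (r + 2 * t) ^ 3 - c * (r - 2 * t) ^ 3 := by ring
    have j1 := mul_le_mul_of_nonneg_left hcube1 hcpos.le
    have j2 := mul_le_mul_of_nonneg_left hcube2 hcpos.le
    have j3 := mul_le_mul_of_nonneg_left hcube3 hcpos.le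
    have j4 := mul_le_mul_of_nonneg_left hcube4 hcpos.le
    rw [hW, abs_le]
    constructor <;> linarith

end Ion
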