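import Pool.Agent.Lib.MP_69e010_mp.I8

/-!
# JOB I9: crude upper bounds for fixed cutoffs

* `QQ_le_crude`: `V z X ≤ Vee X ≤ ∑_{i<j} (1 + (‖X i - X j‖⁻¹)²)` (`t ≤ 1 + t²`), at most `N²` pairs, and Hardy for pairs `hardy_pair` (QApi): `∫ (‖X i - X j‖⁻¹)² F² ≤ 4 ∫ gsq i F ≤ 4 ∫ ∑_k gsq k F`.
* `TT_mulw_le`: a.e. `gsq k (G F) ≤ 2 G² gsq k F + 2 F² gsq k G` (`gsq_mul_le`), `G`, `gsq k G` bounded.
* `QQ_mulw_le`: combine; `nrm2 (G ψ) ≤ C² nrm2 ψ`; `(N² - EN)` may be replaced by its absolute value.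
* `TT_nonnegI`, `nrm2_nonnegI`: integrals of nonnegative functions.
-/

open MeasureTheory Metric Finset Filter Topology

noncomputable section

namespace Ion

variable {N : ℕ}

theorem TT_nonnegI (ψ : RW N) : 0 ≤ TT ψ := by
  unfold TT
  exact Finset.sum_nonneg fun σ _ => integral_nonneg fun X => Finset.sum_nonneg fun k _ => gsq_nonneg k _ X

theorem nrm2_nonnegI (ψ : RW N) : 0 ≤ nrm2 ψ := by
  unfold nrm2
  exact Finset.sum_nonneg fun σ _ => integral_nonneg fun X => sq_nonneg _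

/-- the potential is at most the sum over the pairs -/
theorem I9_V_le {z : ℝ} (hz : 0 < z) (X : Conf N) (f : ℝ) :
    V z X * f ^ 2 ≤ ∑ i, ∑ j ∈ univ.filter (fun j => i < j), (f ^ 2 + (‖X i - X j‖⁻¹) ^ 2 * f ^ 2) := by
  have h1 : 0 ≤ Ven X := Finset.sum_nonneg fun i _ => inv_nonneg.2 (norm_nonneg _)
  have h2 : V z X ≤ Vee X := by
    unfold V
    have := mul_nonneg hz.le h1
    linarith
  have h3 : Vee X ≤ ∑ i, ∑ j ∈ univ.filter (fun j => i < j), (1 + (‖X i - X j‖⁻¹) ^ 2) := by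
    unfold Vee
    refine Finset.sum_le_sum fun i _ => Finset.sum_le_sum fun j _ => ?_
    nlinarith [sq_nonneg (‖X i - X j‖⁻¹ - 1), sq_nonneg (‖X i - X j‖⁻¹)]
  calc V z X * f ^ 2 ≤ (∑ i, ∑ j ∈ univ.filter (fun j => i < j), (1 + (‖X i - X j‖⁻¹) ^ 2)) * f ^ 2 :=
        mul_le_mul_of_nonneg_right (h2.trans h3) (sq_nonneg f)
    _ = ∑ i, ∑ j ∈ univ.filter (fun j => i < j), (f ^ 2 + (‖X i - X j‖⁻¹) ^ 2 * f ^ 2) := by
        rw [Finset.sum_mul]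
        refine Finset.sum_congr rfl fun i _ => ?_
        rw [Finset.sum_mul]
        refine Finset.sum_congr rfl fun j _ => ?_
        ring

/-- the bound of the potential energy for one component -/
theorem I9_pot {z : ℝ} (hz : 0 < z) {F : Conf N → ℝ} (hF : LipC F) :
    ∫ X, V z X * F X ^ 2 ≤ (N : ℝ) ^ 2 * (∫ X, F X ^ 2) + 4 * (N : ℝ) ^ 2 * ∫ X, ∑ k, gsq k F X := by
  have hi : ∀ (i j : Fin N), i < j → Integrable (fun X => F X ^ 2 + (‖X i - X j‖⁻¹) ^ 2 * F X ^ 2) :=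
    fun i j hij => hF.integrable_sq.add (hardy_pair hF hij.ne).1
  have hi' : ∀ i : Fin N, Integrable
      (fun X => ∑ j ∈ univ.filter (fun j => i < j), (F X ^ 2 + (‖X i - X j‖⁻¹) ^ 2 * F X ^ 2)) :=
    fun i => integrable_finsetSum _ fun j hj => hi i j (Finset.mem_filter.1 hj).2
  have h1 : ∫ X, V z X * F X ^ 2 ≤
      ∫ X, ∑ i, ∑ j ∈ univ.filter (fun j => i < j), (F X ^ 2 + (‖X i - X j‖⁻¹) ^ 2 * F X ^ 2) :=
    integral_mono (hF.integrable_V z) (integrable_finsetSum _ fun i _ => hi' i) fun X => I9_V_le hz X (F X)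
  have h2 : ∫ X, ∑ i, ∑ j ∈ univ.filter (fun j => i < j), (F X ^ 2 + (‖X i - X j‖⁻¹) ^ 2 * F X ^ 2) =
      ∑ i, ∑ j ∈ univ.filter (fun j => i < j), ∫ X : Conf N, (F X ^ 2 + (‖X i - X j‖⁻¹) ^ 2 * F X ^ 2) := by
    rw [integral_finsetSum _ fun i _ => hi' i]
    refine Finset.sum_congr rfl fun i _ => ?_
    rw [integral_finsetSum _ fun j hj => hi i j (Finset.mem_filter.1 hj).2]
  have hA : ∫ X, ∑ k, gsq k F X = ∑ k, ∫ X, gsq k F X :=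
    integral_finsetSum _ fun k _ => hF.integrable_gsq k
  have hA0 : ∀ k : Fin N, 0 ≤ ∫ X, gsq k F X := fun k => integral_nonneg fun X => gsq_nonneg k F X
  have hB0 : 0 ≤ ∫ X, F X ^ 2 := integral_nonneg fun X => sq_nonneg _
  have hA1 : ∀ i : Fin N, ∫ X, gsq i F X ≤ ∫ X, ∑ k, gsq k F X := by
    intro i
    rw [hA]
    exact Finset.single_le_sum (f := fun k => ∫ X, gsq k F X) (fun k _ => hA0 k) (Finset.mem_univ i)
  have hA2 : 0 ≤ ∫ X, ∑ k, gsq k F X := by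
    rw [hA]
    exact Finset.sum_nonneg fun k _ => hA0 k
  have h3 : ∀ i : Fin N, ∀ j ∈ univ.filter (fun j => i < j),
      ∫ X : Conf N, (F X ^ 2 + (‖X i - X j‖⁻¹) ^ 2 * F X ^ 2) ≤ (∫ X, F X ^ 2) + 4 * ∫ X, ∑ k, gsq k F X := by
    intro i j hj
    have hij : i ≠ j := (Finset.mem_filter.1 hj).2.ne
    rw [integral_add hF.integrable_sq (hardy_pair hF hij).1]
    have h4 := (hardy_pair hF hij).2
    have h5 := hA1 i
    linarith
  rw [h2] at h1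
  refine h1.trans ?_
  have h4 : ∑ i : Fin N, ∑ j ∈ univ.filter (fun j => i < j),
      ∫ X : Conf N, (F X ^ 2 + (‖X i - X j‖⁻¹) ^ 2 * F X ^ 2) ≤
      ∑ _i : Fin N, ∑ _j : Fin N, ((∫ X, F X ^ 2) + 4 * ∫ X, ∑ k, gsq k F X) := by
    refine Finset.sum_le_sum fun i _ => ?_
    refine (Finset.sum_le_sum (h3 i)).trans ?_
    exact Finset.sum_le_sum_of_subset_of_nonneg (Finset.subset_univ _) fun j _ _ => by positivity
  refine h4.trans (le_of_eq ?_)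
  rw [Finset.sum_const, Finset.sum_const, Finset.card_univ, Fintype.card_fin, nsmul_eq_mul, nsmul_eq_mul]
  ring

theorem QQ_le_crude {z : ℝ} (hz : 0 < z) {F : RW N} (hF : ∀ σ, LipC (F σ)) :
    QQ z F ≤ (1 + 4 * (N : ℝ) ^ 2) * TT F + ((N : ℝ) ^ 2 - EN z N) * nrm2 F := by
  have h1 : ∑ σ, ∫ X, V z X * (F σ X) ^ 2 ≤ (N : ℝ) ^ 2 * nrm2 F + 4 * (N : ℝ) ^ 2 * TT F := by
    unfold nrm2 TT
    rw [Finset.mul_sum, Finset.mul_sum, ← Finset.sum_add_distrib]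
    exact Finset.sum_le_sum fun σ _ => I9_pot hz (hF σ)
  unfold QQ qf
  linarith

/-- `∑_k gsq k (G F)` is at most `C (∑ gsq k F + F²)` -/
theorem I9_mul {G F : Conf N → ℝ} (hG : LipC G) (hF : LipC F) {C₁ C₂ : ℝ}
    (h1 : ∀ X, |G X| ≤ C₁) (h2 : ∀ k X, gsq k G X ≤ C₂) :
    ∫ X, ∑ k, gsq k (fun X => G X * F X) X ≤
      2 * C₁ ^ 2 * (∫ X, ∑ k, gsq k F X) + 2 * N * C₂ * ∫ X, F X ^ 2 := by
  have hi : Integrable (fun X => ∑ k, gsq k (fun X => G X * F X) X) :=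
    integrable_finsetSum _ fun k _ => (hG.mulC hF).integrable_gsq k
  have hi1 : Integrable (fun X => ∑ k, gsq k F X) := integrable_finsetSum _ fun k _ => hF.integrable_gsq k
  have hi2 : Integrable (fun X => 2 * C₁ ^ 2 * (∑ k, gsq k F X)) := hi1.const_mul _
  have hi3 : Integrable (fun X => 2 * N * C₂ * F X ^ 2) := hF.integrable_sq.const_mul _
  have h3 : ∫ X, ∑ k, gsq k (fun X => G X * F X) X ≤
      ∫ X, (2 * C₁ ^ 2 * (∑ k, gsq k F X) + 2 * N * C₂ * F X ^ 2) := by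
    refine integral_mono_ae hi (hi2.add hi3) ?_
    filter_upwards [hG.ae_diffC, hF.ae_diffC] with X hX1 hX2
    have h4 : ∀ k, gsq k (fun X => G X * F X) X ≤ 2 * C₁ ^ 2 * gsq k F X + 2 * C₂ * F X ^ 2 := by
      intro k
      refine (gsq_mul_le hX2 hX1 k).trans ?_
      have h5 : G X ^ 2 ≤ C₁ ^ 2 := by
        rw [← sq_abs (G X)]
        exact pow_le_pow_left₀ (abs_nonneg _) (h1 X) 2
      have h6 := gsq_nonneg k F X
      have h7 := mul_le_mul_of_nonneg_right h5 h6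
      have h8 := mul_le_mul_of_nonneg_left (h2 k X) (sq_nonneg (F X))
      linarith
    refine (Finset.sum_le_sum fun k _ => h4 k).trans (le_of_eq ?_)
    rw [Finset.sum_add_distrib, ← Finset.mul_sum, Finset.sum_const, Finset.card_univ, Fintype.card_fin,
      nsmul_eq_mul]
    ring
  rw [integral_add hi2 hi3, integral_const_mul, integral_const_mul] at h3
  exact h3

theorem TT_mulw_le {G : Conf N → ℝ} (hG : LipC G) :
    ∃ C, 0 ≤ C ∧ ∀ ψ : RW N, (∀ σ, LipC (ψ σ)) → TT (mulw G ψ) ≤ C * (TT ψ + nrm2 ψ) := by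
  obtain ⟨C₁, hC₁, h1⟩ := hG.bddC
  obtain ⟨C₂, hC₂, h2⟩ := hG.gsq_bdd
  refine ⟨2 * C₁ ^ 2 + 2 * N * C₂, by positivity, fun ψ hψ => ?_⟩
  have h3 : TT (mulw G ψ) ≤ 2 * C₁ ^ 2 * TT ψ + 2 * N * C₂ * nrm2 ψ := by
    unfold TT nrm2
    rw [Finset.mul_sum, Finset.mul_sum, ← Finset.sum_add_distrib]
    exact Finset.sum_le_sum fun σ _ => I9_mul hG (hψ σ) h1 h2
  have h4 : 0 ≤ 2 * (N : ℝ) * C₂ * TT ψ := mul_nonneg (by positivity) (TT_nonnegI ψ)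
  have h5 : 0 ≤ 2 * C₁ ^ 2 * nrm2 ψ := mul_nonneg (by positivity) (nrm2_nonnegI ψ)
  linarith

theorem I9_nrm2 {G : Conf N → ℝ} (hG : LipC G) {C₁ : ℝ} (h1 : ∀ X, |G X| ≤ C₁) {ψ : RW N}
    (hψ : ∀ σ, LipC (ψ σ)) : nrm2 (mulw G ψ) ≤ C₁ ^ 2 * nrm2 ψ := by
  unfold nrm2
  rw [Finset.mul_sum]
  refine Finset.sum_le_sum fun σ _ => ?_
  rw [← integral_const_mul]
  refine integral_mono (hG.mulC (hψ σ)).integrable_sq ((hψ σ).integrable_sq.const_mul _) fun X => ?_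
  show (G X * ψ σ X) ^ 2 ≤ C₁ ^ 2 * (ψ σ X) ^ 2
  rw [mul_pow]
  refine mul_le_mul_of_nonneg_right ?_ (sq_nonneg _)
  rw [← sq_abs (G X)]
  exact pow_le_pow_left₀ (abs_nonneg _) (h1 X) 2

theorem QQ_mulw_le {z : ℝ} (hz : 0 < z) {G : Conf N → ℝ} (hG : LipC G) :
    ∃ C, 0 ≤ C ∧ ∀ ψ : RW N, (∀ σ, LipC (ψ σ)) → QQ z (mulw G ψ) ≤ C * (TT ψ + nrm2 ψ) := by
  obtain ⟨C, hC, h2⟩ := TT_mulw_le hG
  obtain ⟨C₁, hC₁, h1⟩ := hG.bddC
  refine ⟨(1 + 4 * (N : ℝ) ^ 2) * C + |(N : ℝ) ^ 2 - EN z N| * C₁ ^ 2, by positivity, fun ψ hψ => ?_⟩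
  have h3 := QQ_le_crude hz (F := mulw G ψ) (fun σ => hG.mulC (hψ σ))
  have h4 := mul_le_mul_of_nonneg_left (h2 ψ hψ) (show 0 ≤ 1 + 4 * (N : ℝ) ^ 2 by positivity)
  have h5 : ((N : ℝ) ^ 2 - EN z N) * nrm2 (mulw G ψ) ≤ |(N : ℝ) ^ 2 - EN z N| * (C₁ ^ 2 * nrm2 ψ) :=
    (mul_le_mul_of_nonneg_right (le_abs_self _) (nrm2_nonnegI _)).trans
      (mul_le_mul_of_nonneg_left (I9_nrm2 hG h1 hψ) (abs_nonneg _))
  have h6 : 0 ≤ |(N : ℝ) ^ 2 - EN z N| * C₁ ^ 2 * TT ψ := mul_nonneg (by positivity) (TT_nonnegI ψ)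
  linarith

end Ion
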