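import Pool.Agent.Lib.MP_69e010_mp.I10
import Pool.Agent.Lib.MP_69e010_mp.I9

/-!
# JOB I13: choice of the cutoffs

* `mass_tendsto`: let `R0` be such that all `ψ σ` vanish outside `{‖X‖ ≤ R0}` (compact support, finitely many `σ`). For `R ≥ R0`, `R > 0`: for a.e. `X` (good, `ae_gen`) either `ψ σ X = 0` or `zt m h R X = 1` for all small `h > 0`
  (`zt_eq_one`, `muX_pos`). Dominated convergence (`tendsto_integral_filter_of_dominated_convergence`, `𝓝[>] 0` is countably generated), dominating function `ψ σ X ^ 2` (`0 ≤ zt ≤ 1`).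
* `mass_choice`: for `δ > 0` take `n0` with `nrm2 (ψ n - ψ n0) ≤ δ/4` for `n ≥ n0`; `(1 - ζ²) ψ_n² ≤ 2 (1 - ζ²) ψ_{n0}² + 2 (ψ_n - ψ_{n0})²`.
* `err_choice`: from `cutoff_err` (I10): `4 N R (2/R² + 8 (64 + 4N) T0 / log(1/h)²) = 8N/R + 32 N R (64+4N) T0 / log(1/h)²`; the second term tends to `0` as `h → 0+`.
* `log_tendsto`: `log (1/h) → ∞` as `h → 0+` (`Real.tendsto_log_atTop.comp tendsto_inv_nhdsGT_zero`).
-/

open MeasureTheory Metric Finset Filter Topology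

noncomputable section

namespace Ion

variable {N : ℕ}

theorem I13_cont {F : Conf N → ℝ} (hF : LipC F) : Continuous F := by
  obtain ⟨⟨K, hK⟩, -⟩ := hF
  exact hK.continuous

theorem I13_int_sq {F G : Conf N → ℝ} (hF : LipC F) (hG : Continuous G) :
    Integrable (fun X => G X * F X ^ 2) := by
  have hc : Continuous (fun X => G X * F X ^ 2) := hG.mul ((I13_cont hF).pow 2)
  refine hc.integrable_of_hasCompactSupport ?_
  refine hF.2.mono' ?_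
  intro X hX
  refine subset_closure ?_
  rw [Function.mem_support] at hX ⊢
  intro h0
  apply hX
  rw [h0]
  ring

theorem I13_int_sq' {F : Conf N → ℝ} (hF : LipC F) : Integrable (fun X => F X ^ 2) := by
  have h := I13_int_sq hF (continuous_const (y := (1 : ℝ)))
  simpa using h

theorem I13_bound {ψ : RW N} (hψ : ∀ σ, LipC (ψ σ)) :
    ∃ R0 : ℝ, 1 ≤ R0 ∧ ∀ σ X, ψ σ X ≠ 0 → ‖X‖ ≤ R0 := by
  have h1 : ∀ σ, ∃ C : ℝ, ∀ X, ψ σ X ≠ 0 → ‖X‖ ≤ C := by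
    intro σ
    obtain ⟨C, hC⟩ := (hψ σ).2.isCompact.isBounded.exists_norm_le
    exact ⟨C, fun X hX => hC X (subset_closure hX)⟩
  choose C hC using h1
  refine ⟨1 + ∑ σ, |C σ|, le_add_of_nonneg_right (Finset.sum_nonneg fun _ _ => abs_nonneg _), ?_⟩
  intro σ X hX
  have h2 : |C σ| ≤ ∑ σ, |C σ| :=
    Finset.single_le_sum (f := fun σ => |C σ|) (fun _ _ => abs_nonneg _) (Finset.mem_univ σ)
  have h3 := hC σ X hX
  have h4 := le_abs_self (C σ)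
  linarith

theorem mass_tendsto {m : ℕ} (hm : 2 ≤ m) (hN : m ≤ N) {ψ : RW N} (hψ : ∀ σ, LipC (ψ σ)) :
    ∃ R0 : ℝ, 1 ≤ R0 ∧ ∀ R : ℝ, R0 ≤ R →
      Tendsto (fun h => ∑ σ, ∫ X, (1 - zt m h R X ^ 2) * ψ σ X ^ 2) (𝓝[>] 0) (𝓝 0) := by
  obtain ⟨R0, hR0, hb⟩ := I13_bound hψ
  refine ⟨R0, hR0, fun R hR => ?_⟩
  have hRpos : 0 < R := by linarith
  have hI : ∀ᶠ h in 𝓝[>] (0 : ℝ), h ∈ Set.Ioo (0 : ℝ) 1 := Ioo_mem_nhdsGT one_pos
  have hm1 : 1 ≤ m := by omega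
  have hσ : ∀ σ, Tendsto (fun h => ∫ X, (1 - zt m h R X ^ 2) * ψ σ X ^ 2) (𝓝[>] 0) (𝓝 0) := by
    intro σ
    have h0 : ∫ _ : Conf N, (0 : ℝ) = 0 := by simp
    suffices hs : Tendsto (fun h => ∫ X, (1 - zt m h R X ^ 2) * ψ σ X ^ 2) (𝓝[>] 0)
        (𝓝 (∫ _ : Conf N, (0 : ℝ))) by
      rw [h0] at hs
      exact hs
    refine tendsto_integral_filter_of_dominated_convergence (fun X => ψ σ X ^ 2) ?_ ?_
      (I13_int_sq' (hψ σ)) ?_
    · filter_upwards [hI] with h hh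
      have hc : Continuous (fun X : Conf N => (1 - zt m h R X ^ 2) * ψ σ X ^ 2) :=
        (continuous_const.sub ((continuous_zt hm1 hN hh.1 hh.2 hRpos).pow 2)).mul ((I13_cont (hψ σ)).pow 2)
      exact hc.aestronglyMeasurable
    · filter_upwards [hI] with h hh
      refine Eventually.of_forall fun X => ?_
      have h1 := zt_nonneg m h R X
      have h2 := zt_le_one m h R X
      have h3 : 0 ≤ 1 - zt m h R X ^ 2 := by nlinarith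
      have h4 : 1 - zt m h R X ^ 2 ≤ 1 := by nlinarith
      rw [Real.norm_eq_abs, abs_of_nonneg (mul_nonneg h3 (sq_nonneg _))]
      calc (1 - zt m h R X ^ 2) * ψ σ X ^ 2 ≤ 1 * ψ σ X ^ 2 :=
            mul_le_mul_of_nonneg_right h4 (sq_nonneg _)
        _ = ψ σ X ^ 2 := one_mul _
    · filter_upwards [ae_gen hm hN] with X hX
      by_cases h1 : ψ σ X = 0
      · rw [h1]
        simp
      · have h2 := hb σ X h1
        have h3 : 0 < muX m X := muX_pos hm1 hN hX.1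
        have h4 : ∀ᶠ h in 𝓝[>] (0 : ℝ), h ∈ Set.Ioo (0 : ℝ) (min 1 (muX m X)) :=
          Ioo_mem_nhdsGT (lt_min one_pos h3)
        refine Tendsto.congr' ?_ tendsto_const_nhds
        filter_upwards [h4] with h hh
        have h5 : zt m h R X = 1 :=
          zt_eq_one hh.1 (lt_of_lt_of_le hh.2 (min_le_left _ _)) hRpos (h2.trans hR)
            (le_of_lt (lt_of_lt_of_le hh.2 (min_le_right _ _)))
        rw [h5]
        ring
  have h6 := tendsto_finsetSum (Finset.univ : Finset (Spin N)) (fun σ _ => hσ σ)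
  simpa using h6

theorem mass_choice {m : ℕ} (hm : 2 ≤ m) (hN : m ≤ N) {ψ : ℕ → RW N} (hψ : ∀ n σ, LipC (ψ n σ))
    (hC : ∀ e : ℝ, 0 < e → ∃ n0, ∀ n, n0 ≤ n → nrm2 (fun σ X => ψ n σ X - ψ n0 σ X) ≤ e)
    {δ : ℝ} (hδ : 0 < δ) :
    ∃ n0 : ℕ, ∃ R0 : ℝ, 1 ≤ R0 ∧ ∀ R : ℝ, R0 ≤ R → ∀ᶠ h in 𝓝[>] (0 : ℝ), ∀ n, n0 ≤ n →
      ∑ σ, ∫ X, (1 - zt m h R X ^ 2) * ψ n σ X ^ 2 ≤ δ := by
  obtain ⟨n0, hn0⟩ := hC (δ / 4) (by positivity)
  obtain ⟨R0, hR0, hR⟩ := mass_tendsto hm hN (hψ n0)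
  refine ⟨n0, R0, hR0, fun R hR1 => ?_⟩
  have hRpos : 0 < R := by linarith
  have hm1 : 1 ≤ m := by omega
  have hI : ∀ᶠ h in 𝓝[>] (0 : ℝ), h ∈ Set.Ioo (0 : ℝ) 1 := Ioo_mem_nhdsGT one_pos
  have hE := (hR R hR1).eventually_le_const (show (0 : ℝ) < δ / 4 by positivity)
  filter_upwards [hI, hE] with h hh hE n hn
  have hzc : Continuous fun X : Conf N => 1 - zt m h R X ^ 2 :=
    continuous_const.sub ((continuous_zt hm1 hN hh.1 hh.2 hRpos).pow 2)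
  have hd : ∀ σ, LipC (fun X => ψ n σ X - ψ n0 σ X) := fun σ => (hψ n σ).sub (hψ n0 σ)
  have h1 : ∀ σ, ∫ X, (1 - zt m h R X ^ 2) * ψ n σ X ^ 2 ≤
      2 * (∫ X, (1 - zt m h R X ^ 2) * ψ n0 σ X ^ 2) + 2 * ∫ X, (ψ n σ X - ψ n0 σ X) ^ 2 := by
    intro σ
    have i1 := I13_int_sq (hψ n0 σ) hzc
    have i2 := I13_int_sq' (hd σ)
    rw [← integral_const_mul, ← integral_const_mul, ← integral_add (i1.const_mul 2) (i2.const_mul 2)]
    refine integral_mono (I13_int_sq (hψ n σ) hzc) ((i1.const_mul 2).add (i2.const_mul 2)) ?_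
    intro X
    show (1 - zt m h R X ^ 2) * ψ n σ X ^ 2 ≤
      2 * ((1 - zt m h R X ^ 2) * ψ n0 σ X ^ 2) + 2 * (ψ n σ X - ψ n0 σ X) ^ 2
    have h1 := zt_nonneg m h R X
    have h2 := zt_le_one m h R X
    have h3 : 0 ≤ 1 - zt m h R X ^ 2 := by nlinarith
    have h4 : 1 - zt m h R X ^ 2 ≤ 1 := by nlinarith
    have h5 : ψ n σ X ^ 2 ≤ 2 * ψ n0 σ X ^ 2 + 2 * (ψ n σ X - ψ n0 σ X) ^ 2 := by
      nlinarith [sq_nonneg (ψ n σ X - 2 * ψ n0 σ X)]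
    have h6 := mul_le_mul_of_nonneg_left h5 h3
    have h7 : (1 - zt m h R X ^ 2) * (ψ n σ X - ψ n0 σ X) ^ 2 ≤ 1 * (ψ n σ X - ψ n0 σ X) ^ 2 :=
      mul_le_mul_of_nonneg_right h4 (sq_nonneg _)
    nlinarith
  have h2 : ∑ σ, ∫ X, (1 - zt m h R X ^ 2) * ψ n σ X ^ 2 ≤
      2 * (∑ σ, ∫ X, (1 - zt m h R X ^ 2) * ψ n0 σ X ^ 2) + 2 * ∑ σ, ∫ X, (ψ n σ X - ψ n0 σ X) ^ 2 := by
    rw [Finset.mul_sum, Finset.mul_sum, ← Finset.sum_add_distrib]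
    exact Finset.sum_le_sum fun σ _ => h1 σ
  have h3 : ∑ σ, ∫ X, (ψ n σ X - ψ n0 σ X) ^ 2 ≤ δ / 4 := hn0 n hn
  linarith

theorem I13_log : Tendsto (fun h : ℝ => Real.log (1 / h)) (𝓝[>] 0) atTop := by
  have h1 : (fun h : ℝ => Real.log (1 / h)) = fun h => Real.log (h⁻¹) := by
    funext h
    rw [one_div]
  rw [h1]
  exact Real.tendsto_log_atTop.comp tendsto_inv_nhdsGT_zero

theorem err_choice {m : ℕ} (hm : 2 ≤ m) (hN : m ≤ N) (T0 : ℝ) {δ : ℝ} (hδ : 0 < δ) :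
    ∃ R0 : ℝ, 1 ≤ R0 ∧ ∀ R : ℝ, R0 ≤ R → ∀ᶠ h in 𝓝[>] (0 : ℝ), ∀ ψ : RW N, (∀ σ, LipC (ψ σ)) → nrm2 ψ = 1 → TT ψ ≤ T0 →
      2 * N * (2 * R) * ∑ σ, ∫ X, (∑ k, gsq k (zt m h R) X) * ψ σ X ^ 2 ≤ δ := by
  have hNn : (0 : ℝ) ≤ N := Nat.cast_nonneg N
  refine ⟨1 + 16 * N / δ, le_add_of_nonneg_right (by positivity), fun R hR => ?_⟩
  have hq : 0 ≤ 16 * (N : ℝ) / δ := by positivity
  have hR1 : 1 ≤ R := by linarith
  have hRpos : 0 < R := by linarith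
  have hI : ∀ᶠ h in 𝓝[>] (0 : ℝ), h ∈ Set.Ioo (0 : ℝ) 1 := Ioo_mem_nhdsGT one_pos
  have ht : Tendsto (fun h : ℝ => (2 * N * (2 * R) * (8 * (64 + 4 * N)) * T0) / Real.log (1 / h) ^ 2)
      (𝓝[>] 0) (𝓝 0) :=
    Tendsto.const_div_atTop ((tendsto_pow_atTop two_ne_zero).comp I13_log) _
  have hE := ht.eventually_le_const (show (0 : ℝ) < δ / 2 by positivity)
  filter_upwards [hI, hE] with h hh hE ψ hψ hn hT
  have h1 := cutoff_err hm hN hh.1 hh.2 hRpos hψ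
  rw [hn] at h1
  have hlog : 0 < Real.log (1 / h) := by
    apply Real.log_pos
    rw [one_div]
    exact (one_lt_inv₀ hh.1).2 hh.2
  have h2 : 8 * (64 + 4 * (N : ℝ)) / Real.log (1 / h) ^ 2 * TT ψ ≤
      8 * (64 + 4 * (N : ℝ)) / Real.log (1 / h) ^ 2 * T0 :=
    mul_le_mul_of_nonneg_left hT (by positivity)
  have h3 : 2 * (N : ℝ) * (2 * R) * ∑ σ, ∫ X, (∑ k, gsq k (zt m h R) X) * ψ σ X ^ 2 ≤
      2 * (N : ℝ) * (2 * R) * (2 / R ^ 2 * 1 + 8 * (64 + 4 * (N : ℝ)) / Real.log (1 / h) ^ 2 * T0) :=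
    mul_le_mul_of_nonneg_left (h1.trans (by linarith)) (by positivity)
  have h4 : 2 * (N : ℝ) * (2 * R) * (2 / R ^ 2 * 1 + 8 * (64 + 4 * (N : ℝ)) / Real.log (1 / h) ^ 2 * T0) =
      8 * N / R + (2 * N * (2 * R) * (8 * (64 + 4 * N)) * T0) / Real.log (1 / h) ^ 2 := by
    field_simp
    ring
  have h5 : 8 * (N : ℝ) / R ≤ δ / 2 := by
    rw [div_le_iff₀ hRpos]
    have h6 : 16 * (N : ℝ) / δ ≤ R := by linarith
    rw [div_le_iff₀ hδ] at h6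
    nlinarith
  rw [h4] at h3
  linarith

end Ion
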