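import Pool.Agent.Lib.MP_69e010_mp.I12
import Pool.Agent.Lib.MP_69e010_mp.I13

/-!
# JOB I14: conclusion (section 11)

Let `m = 10^30`, `c = c1 m > 0`, and `z1, C3, Cs, Q0` from `basic_lower`. Claim with
`C = max m (max Q0 (max (4 (|Cs| + 1) / c) (32/(3 c) (|Cs|/2 + 20 C3 + 2) + 1)))`. Suppose `N > z + C`, `Q = N - z`. Then `m ≤ N`, `Q0 ≤ Q`, `A := c/4 Q - Cs > 0`.
* `T0 := 4 z² N + 1`. By `TT_le` (QApi): `TT (ψ n) ≤ 2 qf z (ψ n) + 4 z² N`, and `qf z (ψ n) → EN z N ≤ 0` (`EN_nonpos`), so `TT (ψ n) ≤ T0` for large `n`.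
* `mass_choice` with `δ = 1/2`, `err_choice` with `T0`, `δ = 1`: choose `R`, then `h ∈ (0,1)` (both eventual statements hold for some small `h`). `ζ := zt m h R`, `zt_cut`: `Cut m (h²) (2R) ζ`.
* `Gt m ζ` is `LipC` (`Gt_lipC`) and symmetric (`gw m ζ i (X ∘ π) = gw m ζ (π i) X` by `nuc_perm` and `Cut.symm`, reindex the sum), so `mulw (Gt m ζ) (ψ n)` is `Adms` (`mulw_adms`), and by `QQ_mulw_le`
  `QQ z (mulw (Gt m ζ) (ψ n)) ≤ C' (T0 + 1)`. `bil_le` with `s = 1 / (C'(T0+1) + 1)`: `bil ≤ QQ z (ψ n) / (2 s) + s C' (T0+1) / 2 ≤ 1` for large `n`, because `QQ z (ψ n) = qf - EN → 0`.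
* `basic_lower`: `A ∑ ∫ ζ² ψ² - C3 ∑ ∫ # ζ² ψ² ≤ 1 + 1`, `∑ ∫ ζ² ψ² ≥ 1 - 1/2`, `∑ ∫ # ζ² ψ² ≤ ∑ ∫ # ψ² ≤ 4 a² T0` (`near_count`), `a = ((z+z1)^2)⁻¹`.
* `arith`: `4 a² (4 z² N + 1) ≤ 16 + 16 Q / z1² + 4` for `N = z + Q`, `z > 0`, `z1 ≥ 1`: `z² (z+Q) ≤ (z+z1)^3 + Q (z+z1)²`, `(z+z1)^4 ≥ (z+z1)^3`, `(z + z1)² ≥ z1²`.
* So `A/2 ≤ C3 (20 + 16 Q / z1²) + 2`, `16 C3 / z1² ≤ c / 32`: `c Q / 8 - Cs / 2 ≤ c Q / 32 + 20 C3 + 2`, a contradiction to the choice of `C`.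
-/

open MeasureTheory Metric Finset Filter Topology

noncomputable section

namespace Ion

variable {N : ℕ}

theorem gw_perm {m : ℕ} {h Ri : ℝ} {ζ : Conf N → ℝ} (hζ : Cut m h Ri ζ) (π : Equiv.Perm (Fin N)) (i : Fin N)
    (X : Conf N) : gw m ζ i (X ∘ π) = gw m ζ (π i) X := by
  unfold gw
  rw [nuc_perm, hζ.symm]

theorem Gt_perm {m : ℕ} {h Ri : ℝ} {ζ : Conf N → ℝ} (hζ : Cut m h Ri ζ) (π : Equiv.Perm (Fin N)) (X : Conf N) :
    Gt m ζ (X ∘ π) = Gt m ζ X := by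
  unfold Gt
  simp only [gw_perm hζ π]
  exact Equiv.sum_comp π (fun i => gw m ζ i X ^ 2)

theorem I14_arith {z z1 Q : ℝ} (hz : 0 < z) (hz1 : 1 ≤ z1) (hQ : 0 ≤ Q) :
    4 * (((z + z1) ^ 2)⁻¹) ^ 2 * (4 * z ^ 2 * (z + Q) + 1) ≤ 20 + 16 * Q / z1 ^ 2 := by
  have hw : 1 ≤ z + z1 := by linarith
  have hw0 : 0 < z + z1 := by linarith
  have hz1' : 0 < z1 := by linarith
  set w := z + z1 with hwdef
  have hzw : z ≤ w := by linarith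
  have hz1w : z1 ≤ w := by linarith
  have e1 : 4 * ((w ^ 2)⁻¹) ^ 2 * (4 * z ^ 2 * (z + Q) + 1) =
      16 * (z ^ 3 / w ^ 4) + 16 * (Q * (z ^ 2 / w ^ 4)) + 4 / w ^ 4 := by
    field_simp
    ring
  have h1 : z ^ 3 / w ^ 4 ≤ 1 := by
    rw [div_le_one (by positivity)]
    calc z ^ 3 ≤ w ^ 3 := pow_le_pow_left₀ hz.le hzw 3
      _ ≤ w ^ 4 := pow_le_pow_right₀ hw (by norm_num)
  have h2 : z ^ 2 / w ^ 4 ≤ 1 / z1 ^ 2 := by
    rw [div_le_div_iff₀ (by positivity) (by positivity), one_mul]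
    calc z ^ 2 * z1 ^ 2 ≤ w ^ 2 * w ^ 2 := by
          apply mul_le_mul (pow_le_pow_left₀ hz.le hzw 2) (pow_le_pow_left₀ hz1'.le hz1w 2) (by positivity) (by positivity)
      _ = w ^ 4 := by ring
  have h3 : 4 / w ^ 4 ≤ 4 := by
    rw [div_le_iff₀ (by positivity)]
    have : 1 ≤ w ^ 4 := one_le_pow₀ hw
    linarith
  have h4 : Q * (z ^ 2 / w ^ 4) ≤ Q * (1 / z1 ^ 2) := mul_le_mul_of_nonneg_left h2 hQ
  rw [e1]
  have h5 : 16 * Q / z1 ^ 2 = 16 * (Q * (1 / z1 ^ 2)) := by ring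
  rw [h5]
  linarith

/-- the final contradiction -/
theorem I14_final {c Q Cs C3 z1 I1 I2 B E : ℝ} (hc : 0 < c) (hQ : 0 < Q) (hC3 : 0 < C3) (hz1 : 1 ≤ z1)
    (hz1C : 512 * C3 ≤ z1 ^ 2 * c) (b3 : 4 * (|Cs| + 1) / c < Q)
    (b4 : 32 / (3 * c) * (|Cs| / 2 + 20 * C3 + 2) + 1 < Q)
    (F : (c / 4 * Q - Cs) * I1 - C3 * I2 ≤ B + E) (hB : B ≤ 1) (hE : E ≤ 1) (M1 : 1 / 2 ≤ I1)
    (M2 : I2 ≤ 20 + 16 * Q / z1 ^ 2) : False := by
  have k5 := le_abs_self Cs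
  have hApos : 0 < c / 4 * Q - Cs := by
    have h0 : 4 * (|Cs| + 1) < Q * c := (div_lt_iff₀ hc).1 b3
    linarith
  have k1 : (c / 4 * Q - Cs) * (1 / 2) ≤ (c / 4 * Q - Cs) * I1 := mul_le_mul_of_nonneg_left M1 hApos.le
  have k2 : C3 * I2 ≤ C3 * (20 + 16 * Q / z1 ^ 2) := mul_le_mul_of_nonneg_left M2 hC3.le
  have hz1' : 0 < z1 ^ 2 := by positivity
  have k3 : C3 * (16 * Q / z1 ^ 2) ≤ c * Q / 32 := by
    have e1 : C3 * (16 * Q / z1 ^ 2) = (C3 * (16 * Q)) / z1 ^ 2 := by ring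
    rw [e1, div_le_iff₀ hz1']
    have h0 : (512 * C3) * Q ≤ (z1 ^ 2 * c) * Q := mul_le_mul_of_nonneg_right hz1C hQ.le
    have h2 : c * Q / 32 * z1 ^ 2 = (z1 ^ 2 * c) * Q / 32 := by ring
    rw [h2]
    linarith
  have k4 : |Cs| / 2 + 20 * C3 + 2 < 3 * c / 32 * Q := by
    have h2 : 32 / (3 * c) * (|Cs| / 2 + 20 * C3 + 2) < Q := by linarith
    have h3 : 32 / (3 * c) * (|Cs| / 2 + 20 * C3 + 2) = (|Cs| / 2 + 20 * C3 + 2) / (3 * c / 32) := by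
      have : c ≠ 0 := hc.ne'
      field_simp
    rw [h3, div_lt_iff₀ (by positivity)] at h2
    linarith
  have k6 : C3 * (20 + 16 * Q / z1 ^ 2) = 20 * C3 + C3 * (16 * Q / z1 ^ 2) := by ring
  linarith

/-- the final theorem for minimizing Cauchy sequences of real wave functions -/
theorem ion_seq : ∃ C : ℝ, ∀ z : ℝ, 0 < z → ∀ (N : ℕ) (ψ : ℕ → RW N), (∀ n, Adms (ψ n)) → (∀ n, nrm2 (ψ n) = 1) →
    Tendsto (fun n => qf z (ψ n)) atTop (𝓝 (EN z N)) →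
    (∀ e : ℝ, 0 < e → ∃ n0, ∀ n, n0 ≤ n → nrm2 (fun σ X => ψ n σ X - ψ n0 σ X) ≤ e) →
    (N : ℝ) ≤ z + C := by
  obtain ⟨m, hm⟩ : ∃ m : ℕ, 10 ^ 30 ≤ m := ⟨10 ^ 30, le_rfl⟩
  have hm2 : 2 ≤ m := le_trans (by norm_num) hm
  have hm1 : 1 ≤ m := le_trans (by norm_num) hm
  obtain ⟨z1, C3, Cs, Q0, hz1, hC3, hz1C, H⟩ := basic_lower hm
  have hc : 0 < c1 m := by
    have hmr : (0 : ℝ) < m := by exact_mod_cast (show 0 < m by omega)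
    unfold c1 eps ea
    positivity
  generalize c1 m = c at hc H hz1C
  refine ⟨max (m : ℝ) (max Q0 (max (4 * (|Cs| + 1) / c) (32 / (3 * c) * (|Cs| / 2 + 20 * C3 + 2) + 1))), ?_⟩
  intro z hz N ψ hA h1 hq hC
  by_contra hcon
  rw [not_le] at hcon
  obtain ⟨Q, hQ⟩ : ∃ Q : ℝ, Q = (N : ℝ) - z := ⟨_, rfl⟩
  have hcon' : max (m : ℝ) (max Q0 (max (4 * (|Cs| + 1) / c) (32 / (3 * c) * (|Cs| / 2 + 20 * C3 + 2) + 1))) < Q := by
    rw [hQ]; linarith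
  have b1 : (m : ℝ) < Q := lt_of_le_of_lt (le_max_left _ _) hcon'
  have b0 := lt_of_le_of_lt (le_max_right _ _) hcon'
  have b2 : Q0 < Q := lt_of_le_of_lt (le_max_left _ _) b0
  have b5 := lt_of_le_of_lt (le_max_right _ _) b0
  have b3 : 4 * (|Cs| + 1) / c < Q := lt_of_le_of_lt (le_max_left _ _) b5
  have b4 : 32 / (3 * c) * (|Cs| / 2 + 20 * C3 + 2) + 1 < Q := lt_of_le_of_lt (le_max_right _ _) b5
  have hmN : m ≤ N := by
    have : (m : ℝ) < N := by linarith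
    exact_mod_cast this.le
  have hQpos : 0 < Q := by
    have : (0 : ℝ) ≤ m := Nat.cast_nonneg m
    linarith
  have hNQ : (N : ℝ) = z + Q := by rw [hQ]; ring
  have hEN : EN z N ≤ 0 := EN_nonpos hz N
  obtain ⟨T0, hT0⟩ : ∃ T0 : ℝ, T0 = 4 * z ^ 2 * N + 1 := ⟨_, rfl⟩
  have hT0pos : 0 < T0 := by
    rw [hT0]; positivity
  have hTT : ∀ᶠ n in atTop, TT (ψ n) ≤ T0 := by
    filter_upwards [hq.eventually_lt_const (show EN z N < 1 / 2 by linarith)] with n hn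
    have h := TT_le hz (hA n)
    rw [h1 n] at h
    rw [hT0]
    linarith
  obtain ⟨n1, R1, hR1, hmass⟩ := mass_choice hm2 hmN (ψ := ψ) (fun n σ => (hA n).1 σ) hC
    (δ := 1 / 2) (by norm_num)
  obtain ⟨R2, hR2, herr⟩ := err_choice hm2 hmN T0 (δ := 1) one_pos
  obtain ⟨R, hRdef⟩ : ∃ R : ℝ, R = max R1 R2 := ⟨_, rfl⟩
  have hR1' : R1 ≤ R := by rw [hRdef]; exact le_max_left _ _
  have hR2' : R2 ≤ R := by rw [hRdef]; exact le_max_right _ _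
  have hRpos : 0 < R := by linarith
  have e3 : ∀ᶠ h in 𝓝[>] (0 : ℝ), h ∈ Set.Ioo (0 : ℝ) 1 := Ioo_mem_nhdsGT one_pos
  obtain ⟨h, ⟨hm1', herr'⟩, h3'⟩ := (((hmass R hR1').and (herr R hR2')).and e3).exists
  have hcut := zt_cut (N := N) hm1 hmN h3'.1 h3'.2 hRpos
  have hh2 : 0 < h ^ 2 := pow_pos h3'.1 2
  obtain ⟨ζ, hζ⟩ : ∃ ζ : Conf N → ℝ, ζ = zt m h R := ⟨_, rfl⟩
  rw [← hζ] at hcut
  have hG : LipC (Gt m ζ) := Gt_lipC hm2 hmN hh2 hcut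
  obtain ⟨C', hC'0, hC'⟩ := QQ_mulw_le hz hG
  obtain ⟨s, hsdef⟩ : ∃ s : ℝ, s = 1 / (C' * (T0 + 1) + 1) := ⟨_, rfl⟩
  have hD : 0 < C' * (T0 + 1) + 1 := by positivity
  have hs : 0 < s := by rw [hsdef]; positivity
  have hsC : s * (C' * (T0 + 1)) ≤ 1 := by
    rw [hsdef, one_div, inv_mul_le_iff₀ hD]
    linarith
  have hQQ : Tendsto (fun n => QQ z (ψ n)) atTop (𝓝 0) := by
    have h2 : (fun n => QQ z (ψ n)) = fun n => qf z (ψ n) - EN z N := by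
      funext n
      unfold QQ
      rw [h1 n, mul_one]
    rw [h2]
    have := hq.sub_const (EN z N)
    simpa using this
  have hbil : ∀ᶠ n in atTop, bil z (ψ n) (mulw (Gt m ζ) (ψ n)) ≤ 1 := by
    filter_upwards [hTT, hQQ.eventually_lt_const hs] with n hT hQn
    have adm := mulw_adms hG (fun π X => Gt_perm hcut π X) (hA n)
    have b := bil_le hz (hA n) adm s
    have q := hC' (ψ n) (hA n).1
    rw [h1 n] at q
    have q2 : QQ z (mulw (Gt m ζ) (ψ n)) ≤ C' * (T0 + 1) :=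
      q.trans (mul_le_mul_of_nonneg_left (by linarith) hC'0)
    have q3 : s ^ 2 * QQ z (mulw (Gt m ζ) (ψ n)) ≤ s * 1 := by
      calc s ^ 2 * QQ z (mulw (Gt m ζ) (ψ n)) ≤ s ^ 2 * (C' * (T0 + 1)) :=
            mul_le_mul_of_nonneg_left q2 (by positivity)
        _ = s * (s * (C' * (T0 + 1))) := by ring
        _ ≤ s * 1 := mul_le_mul_of_nonneg_left hsC hs.le
    have q4 : 2 * s * bil z (ψ n) (mulw (Gt m ζ) (ψ n)) ≤ 2 * s * 1 := by linarith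
    exact le_of_mul_le_mul_left q4 (by positivity)
  obtain ⟨n, ⟨hT, hb⟩, hn1⟩ := ((hTT.and hbil).and (eventually_ge_atTop n1)).exists
  have F := H z hz N hmN (by rw [← hQ]; exact b2.le) (h ^ 2) (2 * R) ζ (ψ n) hh2 hcut (hA n)
  have hE := herr' (ψ n) (hA n).1 (h1 n) hT
  rw [← hζ] at hE
  have hM := hm1' n hn1
  rw [← hζ] at hM
  obtain ⟨a, ha⟩ : ∃ a : ℝ, a = ((z + z1) ^ 2)⁻¹ := ⟨_, rfl⟩
  have ha0 : 0 < a := by rw [ha]; positivity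
  rw [← ha, ← hQ] at F
  -- integrability
  have i1 : ∀ σ, Integrable (fun X : Conf N => ζ X ^ 2 * ψ n σ X ^ 2) := by
    intro σ
    have := near_int hmN hcut ((hA n).1 σ) a 1 0
    refine this.congr (Filter.Eventually.of_forall fun X => ?_)
    simp
  have i2 : ∀ σ, Integrable (fun X : Conf N =>
      ((univ.filter fun j => ‖X j‖ < a).card : ℝ) * (ζ X ^ 2 * ψ n σ X ^ 2)) := by
    intro σ
    have := near_int hmN hcut ((hA n).1 σ) a 0 (-1)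
    refine this.congr (Filter.Eventually.of_forall fun X => ?_)
    simp
  have i3 : ∀ σ, Integrable (fun X : Conf N => ψ n σ X ^ 2) := by
    intro σ
    exact ((hA n).1 σ).integrable_sq
  have hz2 : ∀ X : Conf N, ζ X ^ 2 ≤ 1 := fun X =>
    pow_le_one₀ (hcut.nonneg X) (hcut.le_one X)
  -- the mass
  have M1 : 1 / 2 ≤ ∑ σ, ∫ X, ζ X ^ 2 * ψ n σ X ^ 2 := by
    have e1 : ∑ σ, ∫ X, (1 - ζ X ^ 2) * ψ n σ X ^ 2 =
        nrm2 (ψ n) - ∑ σ, ∫ X, ζ X ^ 2 * ψ n σ X ^ 2 := by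
      unfold nrm2
      rw [← Finset.sum_sub_distrib]
      refine Finset.sum_congr rfl fun σ _ => ?_
      rw [← integral_sub (i3 σ) (i1 σ)]
      congr 1
      funext X
      ring
    rw [e1, h1 n] at hM
    linarith
  -- the electrons near the nucleus
  have M2 : ∑ σ, ∫ X : Conf N, ((univ.filter fun j => ‖X j‖ < a).card : ℝ) * (ζ X ^ 2 * ψ n σ X ^ 2) ≤
      4 * a ^ 2 * T0 := by
    have e1 : ∀ σ, ∫ X : Conf N, ((univ.filter fun j => ‖X j‖ < a).card : ℝ) * (ζ X ^ 2 * ψ n σ X ^ 2) ≤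
        4 * a ^ 2 * ∫ X, ∑ j, gsq j (ψ n σ) X := by
      intro σ
      obtain ⟨j1, j2⟩ := near_count ((hA n).1 σ) ha0
      refine le_trans (integral_mono (i2 σ) j1 fun X => ?_) j2
      have hc0 : (0 : ℝ) ≤ ((univ.filter fun j => ‖X j‖ < a).card : ℝ) := Nat.cast_nonneg _
      have hp0 : 0 ≤ ψ n σ X ^ 2 := sq_nonneg _
      have : ζ X ^ 2 * ψ n σ X ^ 2 ≤ ψ n σ X ^ 2 := mul_le_of_le_one_left hp0 (hz2 X)
      exact mul_le_mul_of_nonneg_left this hc0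
    calc _ ≤ ∑ σ, 4 * a ^ 2 * ∫ X, ∑ j, gsq j (ψ n σ) X := Finset.sum_le_sum fun σ _ => e1 σ
      _ = 4 * a ^ 2 * TT (ψ n) := by
          unfold TT
          rw [Finset.mul_sum]
      _ ≤ 4 * a ^ 2 * T0 := mul_le_mul_of_nonneg_left hT (by positivity)
  -- left side
  have L1 : ∑ σ, ∫ X : Conf N, (c / 4 * Q - Cs - C3 * (univ.filter fun j => ‖X j‖ < a).card) *
        (ζ X ^ 2 * ψ n σ X ^ 2) =
      (c / 4 * Q - Cs) * (∑ σ, ∫ X, ζ X ^ 2 * ψ n σ X ^ 2) -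
      C3 * ∑ σ, ∫ X : Conf N, ((univ.filter fun j => ‖X j‖ < a).card : ℝ) * (ζ X ^ 2 * ψ n σ X ^ 2) := by
    rw [Finset.mul_sum, Finset.mul_sum, ← Finset.sum_sub_distrib]
    refine Finset.sum_congr rfl fun σ _ => ?_
    rw [← integral_const_mul, ← integral_const_mul, ← integral_sub ((i1 σ).const_mul _) ((i2 σ).const_mul _)]
    congr 1
    funext X
    ring
  rw [L1] at F
  have ar := I14_arith hz hz1 hQpos.le
  rw [← ha, ← hNQ, ← hT0] at ar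
  exact I14_final hc hQpos hC3 hz1 hz1C b3 b4 F hb hE M1 (M2.trans ar)

end Ion
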