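import Pool.Agent.Lib.MP_69e010_mp.AtomDefs
import Pool.Agent.Lib.MP_69e010_mp.M.MFin
import Pool.Agent.Lib.MP_69e010_mp.I14

/-!
# The definitions of `AtomDefs` agree with those of stream M; the final theorem
-/

open MeasureTheory Filter Topology
open scoped ENNReal

noncomputable section

namespace Ion.Atom

theorem ev_eq {N : ℕ} (k : Fin N) (c : Fin 3) : (ev k c : Ion.Conf N) = Ion.ev k c := by
  funext i
  show (if i = k then EuclideanSpace.single c (1 : ℝ) else 0) = (Pi.single k (EuclideanSpace.single c (1 : ℝ)) : Ion.Conf N) i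
  rw [Pi.single_apply]

theorem lap_eq {N : ℕ} (F : Ion.Conf N → ℂ) (X : Ion.Conf N) : lap (N := N) F X = Ion.lapC F X := by
  unfold lap Ion.lapC
  refine Finset.sum_congr rfl fun k _ => Finset.sum_congr rfl fun c _ => ?_
  have h := ev_eq k c
  show fderiv ℝ (fun Y : Ion.Conf N => fderiv ℝ F Y (ev k c : Ion.Conf N)) X (ev k c : Ion.Conf N) = _
  rw [h]

theorem pot_eq (z : ℝ) {N : ℕ} (X : Ion.Conf N) : pot z (N := N) X = Ion.V z X := by
  have h : ∀ i j : Fin N, (dist (X i) (X j))⁻¹ = ‖X i - X j‖⁻¹ := fun i j => by rw [dist_eq_norm]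
  have h2 : pot z (N := N) X = (∑ i : Fin N, ∑ j ∈ Finset.univ.filter (fun j => i < j), (dist (X i) (X j))⁻¹)
      - z * ∑ i : Fin N, ‖X i‖⁻¹ := rfl
  have h3 : Ion.V z X = (∑ i : Fin N, ∑ j ∈ Finset.univ.filter (fun j => i < j), ‖X i - X j‖⁻¹)
      - z * ∑ i : Fin N, ‖X i‖⁻¹ := rfl
  rw [h2, h3]
  simp only [h]

theorem Hexp_eq (z : ℝ) {N : ℕ} (φ : Ion.Om N → ℂ) : Hexp z (N := N) φ = Ion.HF z φ := by
  funext ω
  have h1 := lap_eq (N := N) (fun X => φ (Ion.jn (fun i => (ω i).2) X)) (fun i => (ω i).1)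
  have h2 := pot_eq z (N := N) (fun i => (ω i).1)
  exact congrArg₂ (fun (a : ℂ) (b : ℝ) => -a + (b : ℂ) * φ ω) h1 h2

theorem isHam_iff (z : ℝ) (N : ℕ) (A : Op (FS N)) : IsHam z N A ↔ Ion.IsHam z N A := by
  constructor
  · rintro ⟨h1, h2⟩
    refine ⟨h1, fun φ hφ => ?_⟩
    obtain ⟨f, g, h3, h4, x, h5, h6⟩ := h2 φ hφ
    rw [Hexp_eq] at h4
    subst h5 h6
    exact ⟨x, h3, h4⟩
  · rintro ⟨h1, h2⟩
    refine ⟨h1, fun φ hφ => ?_⟩
    rw [Hexp_eq]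
    obtain ⟨x, h3, h4⟩ := h2 φ hφ
    exact ⟨_, _, h3, h4, x, rfl, rfl⟩

section operators
variable {E : Type} [NormedAddCommGroup E] [InnerProductSpace ℂ E]

theorem isRes_iff (A : E →ₗ.[ℂ] E) (l : ℂ) : IsRes (E := E) A l ↔ Ion.IsRes A l := by
  constructor
  · rintro ⟨B, h1, h2⟩
    refine ⟨B, fun y => ?_, fun x => h2 _ _ ⟨x, rfl, rfl⟩⟩
    obtain ⟨x, h3, h4⟩ := h1 y
    refine ⟨x, h3, ?_⟩
    have h4' : A x = y + l • B y := h4
    rw [h4', h3, add_sub_cancel_right]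
  · rintro ⟨B, h1, h2⟩
    refine ⟨B, fun g => ?_, ?_⟩
    · obtain ⟨x, h3, h4⟩ := h1 g
      refine ⟨x, h3, ?_⟩
      show A x = g + l • B g
      rw [← h3, ← sub_eq_iff_eq_add]
      exact h4
    · rintro f g ⟨x, rfl, rfl⟩
      exact h2 x

theorem spec_eq (A : E →ₗ.[ℂ] E) : spec (E := E) A = Ion.specR A := by
  ext t
  exact not_congr (isRes_iff A t)

theorem isEig_iff (A : E →ₗ.[ℂ] E) (l : ℂ) : IsEig (E := E) A l ↔ Ion.IsEig A l := by
  constructor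
  · rintro ⟨f, h1, x, rfl, h3⟩
    exact ⟨x, h1, h3⟩
  · rintro ⟨x, h1, h2⟩
    exact ⟨x, h1, x, rfl, h2⟩

end operators

theorem bound_iff (z : ℝ) (N : ℕ) : Bound z N ↔ Ion.Bound z N := by
  constructor
  · rintro ⟨A, h1, h2⟩
    rw [isEig_iff, spec_eq] at h2
    exact ⟨A, (isHam_iff z N A).1 h1, h2⟩
  · rintro ⟨A, h1, h2⟩
    refine ⟨A, (isHam_iff z N A).2 h1, ?_⟩
    rw [isEig_iff, spec_eq]
    exact h2

theorem nc_eq (z : ℝ) : Nc z = Ion.Nc z := by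
  unfold Nc Ion.Nc
  congr 1
  ext N
  exact bound_iff z N

/-- the final theorem -/
theorem final :
    ∃ C : ℝ, ∀ z : ℝ, 0 < z →
      (∀ N : ℕ, ∃! A : Op (FS N), IsHam z N A) ∧
      (∀ (N : ℕ) (A : Op (FS N)), IsHam z N A → BddBelow (spec A) ∧ sInf (spec A) ∈ spec A) ∧
      (∀ N : ℕ, Bound z N → (N : ℝ) ≤ z + C) ∧
      {N : ℕ | Bound z N}.Nonempty ∧ BddAbove {N : ℕ | Bound z N} ∧ (Nc z : ℝ) ≤ z + C := by
  obtain ⟨f1, f2, C, f3⟩ := Ion.final_of_seq Ion.ion_seq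
  refine ⟨C, fun z hz => ⟨fun N => ?_, fun N A hA => ?_, ?_⟩⟩
  · obtain ⟨A, hA, hu⟩ := f1 z N
    exact ⟨A, (isHam_iff z N A).2 hA, fun B hB => hu B ((isHam_iff z N B).1 hB)⟩
  · rw [spec_eq]
    exact f2 z hz N A ((isHam_iff z N A).1 hA)
  · obtain ⟨g1, g2, g3, g4⟩ := f3 z hz
    have e : {N : ℕ | Bound z N} = {N : ℕ | Ion.Bound z N} := by
      ext N
      exact bound_iff z N
    rw [nc_eq, e]
    exact ⟨fun N hN => g1 N ((bound_iff z N).1 hN), g2, g3, g4⟩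

end Ion.Atom
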