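import Mathlib

/-!
# Atoms: the Hamiltonian, bound systems and `N_c(z)`

`H_N = ∑_j (-Δ_j - z/|x_j|) + ∑_{i<j} 1/|x_i - x_j|` in the space of the functions in `L²((ℝ³ × {1,2})^N)` which are antisymmetric
under exchange of the pairs (position, spin). `E_N = inf spec H_N`. The system with `N` electrons is bound if `E_N` is an eigenvalue
of `H_N`. `N_c(z)` is the largest `N` for which the system is bound.
-/

open MeasureTheory Filter Topology
open scoped ENNReal

noncomputable section

namespace Ion.Atom

/-! ## Configurations -/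

/-- configurations `ω` of `N` electrons: `ω i` = (position in `ℝ³`, spin) of electron `i` -/
def Om (N : ℕ) : Type := Fin N → EuclideanSpace ℝ (Fin 3) × Fin 2

/-- the product measurable space -/
instance instOm (N : ℕ) : MeasurableSpace (Om N) :=
  MeasurableSpace.pi (X := fun _ : Fin N => EuclideanSpace ℝ (Fin 3) × Fin 2)

/-- Lebesgue measure in the positions, counting measure in the spins -/
def mu (N : ℕ) : Measure (Om N) :=
  Measure.pi fun _ : Fin N => (volume : Measure (EuclideanSpace ℝ (Fin 3))).prod (Measure.count : Measure (Fin 2))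

/-- the sign of a permutation as a complex number -/
def sgn {N : ℕ} (π : Equiv.Perm (Fin N)) : ℂ := ((Equiv.Perm.sign π : ℤ) : ℂ)

/-- exchange of electrons -/
def perm {N : ℕ} (π : Equiv.Perm (Fin N)) (ω : Om N) : Om N := fun i => ω (π i)

/-! ## The Hilbert space -/

/-- `L²((ℝ³ × {1,2})^N)`, complex valued -/
def L2 (N : ℕ) : Type := Lp ℂ 2 (mu N)

/-- the norm of `L²` -/
instance instL2 (N : ℕ) : NormedAddCommGroup (L2 N) := Lp.instNormedAddCommGroup (E := ℂ) (p := 2) (μ := mu N)

/-- the inner product of `L²` -/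
instance instL2' (N : ℕ) : InnerProductSpace ℂ (L2 N) :=
  MeasureTheory.L2.innerProductSpace (μ := mu N) (𝕜 := ℂ) (E := ℂ)

/-- a function which represents the class `f` -/
def fn {N : ℕ} (f : Lp ℂ 2 (mu N)) (ω : Om N) : ℂ := f ω

/-- antisymmetry under exchange of the pairs (position, spin) -/
def AntiL {N : ℕ} (f : L2 N) : Prop :=
  ∀ π : Equiv.Perm (Fin N), (fun ω => fn f (perm π ω)) =ᵐ[mu N] fun ω => sgn π * fn f ω

/-- exchange of electrons preserves the measure -/
theorem mu_perm {N : ℕ} (π : Equiv.Perm (Fin N)) : MeasurePreserving (perm π) (mu N) (mu N) := by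
  have h := measurePreserving_piCongrLeft
    (fun _ : Fin N => (volume : Measure (EuclideanSpace ℝ (Fin 3))).prod (Measure.count : Measure (Fin 2)))
    (π.symm : Fin N ≃ Fin N)
  have h1 : ⇑(MeasurableEquiv.piCongrLeft (fun _ : Fin N => EuclideanSpace ℝ (Fin 3) × Fin 2)
      (π.symm : Fin N ≃ Fin N)) = perm π := by
    funext ω i
    have h2 := MeasurableEquiv.piCongrLeft_apply_apply (π.symm : Fin N ≃ Fin N)
      (β := fun _ : Fin N => EuclideanSpace ℝ (Fin 3) × Fin 2) ω (π i)
    rw [Equiv.symm_apply_apply] at h2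
    exact h2
  rw [h1] at h
  exact h

theorem AntiL.add {N : ℕ} {f g : L2 N} (hf : AntiL f) (hg : AntiL g) : AntiL (f + g) := by
  intro π
  have h2 := Lp.coeFn_add (μ := mu N) (p := 2) (E := ℂ) f g
  have h1 := (mu_perm π).quasiMeasurePreserving.ae_eq_comp h2
  filter_upwards [hf π, hg π, h1, h2] with ω a1 a2 a3 a4
  have a3' : fn (f + g) (perm π ω) = fn f (perm π ω) + fn g (perm π ω) := a3
  have a4' : fn (f + g) ω = fn f ω + fn g ω := a4
  rw [a3', a4', mul_add]
  exact congrArg₂ (· + ·) a1 a2

theorem AntiL.zero {N : ℕ} : AntiL (0 : L2 N) := by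
  intro π
  have h2 := Lp.coeFn_zero ℂ 2 (mu N)
  have h1 := (mu_perm π).quasiMeasurePreserving.ae_eq_comp h2
  filter_upwards [h1, h2] with ω a1 a2
  have a1' : fn (0 : L2 N) (perm π ω) = 0 := a1
  have a2' : fn (0 : L2 N) ω = 0 := a2
  rw [a1', a2', mul_zero]

theorem AntiL.smul {N : ℕ} (c : ℂ) {f : L2 N} (hf : AntiL f) : AntiL (c • f) := by
  intro π
  have h2 := Lp.coeFn_smul (μ := mu N) (p := 2) (E := ℂ) c f
  have h1 := (mu_perm π).quasiMeasurePreserving.ae_eq_comp h2
  filter_upwards [hf π, h1, h2] with ω a1 a2 a3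
  have a2' : fn (c • f) (perm π ω) = c * fn f (perm π ω) := a2
  have a3' : fn (c • f) ω = c * fn f ω := a3
  have a1' : fn f (perm π ω) = sgn π * fn f ω := a1
  rw [a2', a1', a3']
  ring

/-- the antisymmetric functions in `L²` -/
def Fer (N : ℕ) : Submodule ℂ (L2 N) where
  carrier := {f | AntiL f}
  add_mem' := AntiL.add
  zero_mem' := AntiL.zero
  smul_mem' := AntiL.smul

/-- the fermionic Hilbert space: the antisymmetric functions in `L²((ℝ³ × {1,2})^N)` -/
def FS (N : ℕ) : Type := Fer N

/-- the norm of the fermionic space -/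
instance instFS (N : ℕ) : NormedAddCommGroup (FS N) := Submodule.normedAddCommGroup (Fer N)

/-- the inner product of the fermionic space -/
instance instFS' (N : ℕ) : InnerProductSpace ℂ (FS N) := Submodule.innerProductSpace (Fer N)

theorem isClosed_Fer (N : ℕ) : IsClosed (Fer N : Set (L2 N)) := by
  have h : {f : Lp ℂ 2 (mu N) |
      ∀ π : Equiv.Perm (Fin N), (fun ω => fn f (perm π ω)) =ᵐ[mu N] fun ω => sgn π * fn f ω}
      = ⋂ π : Equiv.Perm (Fin N),
      {f : Lp ℂ 2 (mu N) | Lp.compMeasurePreserving (perm π) (mu_perm π) f = sgn π • f} := by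
    ext f
    simp only [Set.mem_iInter, Set.mem_ofPred_eq]
    constructor
    · intro hf π
      apply Lp.ext
      have h1 := Lp.coeFn_compMeasurePreserving f (mu_perm π)
      have h2 := Lp.coeFn_smul (sgn π) f
      have h3 := hf π
      filter_upwards [h1, h2, h3] with ω a1 a2 a3
      rw [a1, a2]
      exact a3
    · intro hf π
      have h1 := Lp.coeFn_compMeasurePreserving f (mu_perm π)
      have h2 := Lp.coeFn_smul (sgn π) f
      rw [hf π] at h1
      filter_upwards [h1, h2] with ω a1 a2
      exact a1.symm.trans a2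
  have h3 : IsClosed {f : Lp ℂ 2 (mu N) |
      ∀ π : Equiv.Perm (Fin N), (fun ω => fn f (perm π ω)) =ᵐ[mu N] fun ω => sgn π * fn f ω} := by
    rw [h]
    refine isClosed_iInter fun π => ?_
    refine isClosed_eq ?_ (continuous_const_smul _)
    exact (Lp.isometry_compMeasurePreserving (mu_perm π)).continuous
  exact h3

theorem complete_L2 (N : ℕ) : CompleteSpace (L2 N) := (Lp.instCompleteSpace : CompleteSpace (Lp ℂ 2 (mu N)))

theorem complete_FS (N : ℕ) : CompleteSpace (FS N) :=
  haveI := complete_L2 N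
  (isClosed_Fer N).completeSpace_coe

instance instFSc (N : ℕ) : CompleteSpace (FS N) := complete_FS N

/-- an element of the fermionic space as an element of `L²` -/
def incl {N : ℕ} (f : FS N) : L2 N := Subtype.val (α := L2 N) (p := fun g => g ∈ Fer N) f

/-- the class `f` is represented by the function `φ` -/
def Rep {N : ℕ} (f : FS N) (φ : Om N → ℂ) : Prop := fn (incl f) =ᵐ[mu N] φ

/-! ## The differential expression -/

/-- the positions of `N` electrons -/
def Conf (N : ℕ) : Type := Fin N → EuclideanSpace ℝ (Fin 3)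

/-- norm on the positions (only the topology matters) -/
instance instConf (N : ℕ) : NormedAddCommGroup (Conf N) :=
  Pi.normedAddCommGroup (G := fun _ : Fin N => EuclideanSpace ℝ (Fin 3))

/-- vector space of the positions -/
instance instConf' (N : ℕ) : NormedSpace ℝ (Conf N) :=
  Pi.normedSpace (E := fun _ : Fin N => EuclideanSpace ℝ (Fin 3))

/-- the configuration with positions `X` and spins `σ` -/
def jn {N : ℕ} (σ : Fin N → Fin 2) (X : Conf N) : Om N := fun i => (X i, σ i)

/-- the positions of a configuration -/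
def pos {N : ℕ} (ω : Om N) : Conf N := fun i => (ω i).1

/-- the spins of a configuration -/
def spin {N : ℕ} (ω : Om N) (i : Fin N) : Fin 2 := (ω i).2

/-- test functions: antisymmetric under exchange of the pairs (position, spin), and for every spin configuration smooth with
compact support in the positions -/
def Test {N : ℕ} (φ : Om N → ℂ) : Prop :=
  (∀ σ : Fin N → Fin 2, ContDiff ℝ (⊤ : ℕ∞) fun X : Conf N => φ (jn σ X)) ∧
  (∀ σ : Fin N → Fin 2, HasCompactSupport fun X : Conf N => φ (jn σ X)) ∧
  ∀ (π : Equiv.Perm (Fin N)) (ω : Om N), φ (perm π ω) = sgn π * φ ω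

/-- the unit vector in the direction of the coordinate `c` of electron `k` -/
def ev {N : ℕ} (k : Fin N) (c : Fin 3) : Conf N :=
  fun i => if i = k then EuclideanSpace.single c (1 : ℝ) else 0

/-- the Laplacian in all coordinates of all electrons -/
def lap {N : ℕ} (F : Conf N → ℂ) (X : Conf N) : ℂ :=
  ∑ k : Fin N, ∑ c : Fin 3, fderiv ℝ (fun Y => fderiv ℝ F Y (ev k c)) X (ev k c)

/-- the potential energy `∑_{i<j} 1/|x_i - x_j| - z ∑_i 1/|x_i|` -/
def pot (z : ℝ) {N : ℕ} (X : Conf N) : ℝ :=
  (∑ i, ∑ j ∈ Finset.univ.filter (fun j => i < j), (dist (X i) (X j))⁻¹) - z * ∑ i, ‖X i‖⁻¹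

/-- the Hamiltonian as a differential expression: `-Δ φ + ∑_{i<j} φ/|x_i - x_j| - z ∑_i φ/|x_i|` -/
def Hexp (z : ℝ) {N : ℕ} (φ : Om N → ℂ) (ω : Om N) : ℂ :=
  - lap (fun X => φ (jn (spin ω) X)) (pos ω) + (pot z (pos ω) : ℂ) * φ ω

/-! ## Unbounded operators, spectrum and eigenvalues -/

section operators
variable {E : Type} [NormedAddCommGroup E] [InnerProductSpace ℂ E]

/-- operators in the Hilbert space `E`, defined on a subspace (`LinearPMap` of Mathlib) -/
def Op (E : Type) [NormedAddCommGroup E] [InnerProductSpace ℂ E] : Type := E →ₗ.[ℂ] E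

/-- `f` is in the domain of `A` and `A f = g` -/
def Maps (A : Op E) (f g : E) : Prop := ∃ x : A.domain, (x : E) = f ∧ A.toFun x = g

/-- `A` is self-adjoint (the notion of Mathlib for partially defined operators) -/
def SelfAdj [CompleteSpace E] (A : Op E) : Prop := IsSelfAdjoint (show E →ₗ.[ℂ] E from A)

/-- `l` is in the resolvent set of `A`: `A - l` has a bounded inverse `B` which is defined everywhere -/
def IsRes (A : Op E) (l : ℂ) : Prop :=
  ∃ B : E →L[ℂ] E, (∀ g : E, Maps A (B g) (g + l • B g)) ∧ ∀ f g : E, Maps A f g → B (g - l • f) = f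

/-- the real points of the spectrum of `A` (this is the whole spectrum if `A` is self-adjoint) -/
def spec (A : Op E) : Set ℝ := {t : ℝ | ¬ IsRes A (t : ℂ)}

/-- `l` is an eigenvalue of `A` -/
def IsEig (A : Op E) (l : ℂ) : Prop := ∃ f : E, f ≠ 0 ∧ Maps A f (l • f)

end operators

/-! ## Atoms -/

/-- `A` is the Hamiltonian `H_N` of the atom with nuclear charge `z` and `N` electrons: a self-adjoint operator in the fermionic
space, which is given on the test functions by the differential expression -/
def IsHam (z : ℝ) (N : ℕ) (A : Op (FS N)) : Prop :=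
  SelfAdj A ∧ ∀ φ : Om N → ℂ, Test φ → ∃ f g : FS N, Rep f φ ∧ Rep g (Hexp z φ) ∧ Maps A f g

/-- the system with `N` electrons is bound: `E_N = inf spec H_N` is an eigenvalue of `H_N` -/
def Bound (z : ℝ) (N : ℕ) : Prop := ∃ A : Op (FS N), IsHam z N A ∧ IsEig A ((sInf (spec A) : ℝ) : ℂ)

/-- `N_c(z)`: the largest number of electrons of a bound system -/
def Nc (z : ℝ) : ℕ := sSup {N : ℕ | Bound z N}

end Ion.Atom
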