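import Pool.Agent.Lib.MP_69e010_mp.A3

/-!
# JOB B1: basic facts for trap systems

All statements are immediate from A2 (`ph_*`), A3 (`kk_*`, `av_ph_*`), A4 (`av_*`) and the fields of `Sys`.
`ea m = 1/(100 m)`, so `0 < ea m ≤ 1/100` for `1 ≤ m` and `m * ea m = 1/100`.
* `dj_pos` from `pos` and `ne`.
* `del_le`: `del j = ea m * d(x_j) ≤ ‖x_j‖/400`.
* `avj_FF`: `av_sub`, `av_const`, `av_sum`, `av_mul`.
* `FF_tendsto`: `ph_tendsto`.
* `phi_zero`: `‖0 - x_j‖ = ‖x_j‖ ≥ del j`.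
-/

open MeasureTheory Metric Finset Filter Topology

noncomputable section

namespace Ion

theorem ea_pos {m : ℕ} (hm : 1 ≤ m) : 0 < ea m := by
  have h : (1 : ℝ) ≤ (m : ℝ) := by exact_mod_cast hm
  unfold ea
  positivity

theorem ea_le {m : ℕ} (hm : 1 ≤ m) : ea m ≤ 1 / 100 := by
  have h : (1 : ℝ) ≤ (m : ℝ) := by exact_mod_cast hm
  unfold ea
  apply one_div_le_one_div_of_le
  · norm_num
  · linarith

theorem mul_ea {m : ℕ} (hm : 1 ≤ m) : (m : ℝ) * ea m = 1 / 100 := by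
  have h : (1 : ℝ) ≤ (m : ℝ) := by exact_mod_cast hm
  unfold ea
  field_simp

namespace Sys

variable {ι : Type} [Fintype ι] {m : ℕ} (S : Sys ι m)

theorem dj_pos (j : ι) : 0 < S.dj j := S.pos _ (S.ne j)

theorem dj_le (j : ι) : S.dj j ≤ ‖S.x j‖ / 4 := S.le _

theorem del_pos (hm : 1 ≤ m) (j : ι) : 0 < S.del j :=
  mul_pos (ea_pos hm) (S.dj_pos j)

theorem del_le (hm : 1 ≤ m) (j : ι) : S.del j ≤ ‖S.x j‖ / 400 := by
  have h1 := ea_le hm
  have h2 := S.dj_le j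
  have h3 := S.dj_pos j
  have h4 : S.del j ≤ 1 / 100 * (‖S.x j‖ / 4) :=
    mul_le_mul h1 h2 h3.le (by norm_num)
  linarith

theorem phi_continuous (hm : 1 ≤ m) (j : ι) : Continuous (S.phi j) :=
  ph_continuous (S.del_pos hm j)

theorem phi_pos (hm : 1 ≤ m) (j : ι) (y : E3) : 0 < S.phi j y :=
  ph_pos (S.del_pos hm j)

theorem phi_le (hm : 1 ≤ m) (j : ι) (y : E3) : S.phi j y ≤ 3 / (2 * S.del j) :=
  ph_le (S.del_pos hm j)

theorem phi_zero (hm : 1 ≤ m) (j : ι) : S.phi j 0 = ‖S.x j‖⁻¹ := by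
  have h1 := S.del_le hm j
  have h2 : 0 ≤ ‖S.x j‖ := norm_nonneg _
  have h3 : ‖(0 : E3) - S.x j‖ = ‖S.x j‖ := by rw [zero_sub, norm_neg]
  have h4 : ph (S.x j) (S.del j) 0 = ‖(0 : E3) - S.x j‖⁻¹ := ph_eq (by rw [h3]; linarith)
  rw [h3] at h4
  exact h4

theorem FF_continuous (hm : 1 ≤ m) (c : ℝ) (b : ι → ℝ) : Continuous (S.FF c b) :=
  continuous_const.sub
    (continuous_finsetSum _ fun j _ => continuous_const.mul (S.phi_continuous hm j))

theorem FF_tendsto (c : ℝ) (b : ι → ℝ) : Tendsto (S.FF c b) (cocompact E3) (𝓝 c) := by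
  have h1 : ∀ j : ι, Tendsto (fun y => b j * S.phi j y) (cocompact E3) (𝓝 (b j * 0)) :=
    fun j => (ph_tendsto (S.x j) (S.del j)).const_mul (b j)
  have h2 : Tendsto (fun y => ∑ j, b j * S.phi j y) (cocompact E3) (𝓝 (∑ j : ι, b j * 0)) :=
    tendsto_finsetSum _ fun j _ => h1 j
  have h3 := h2.const_sub c
  have h4 : c - ∑ j : ι, b j * 0 = c := by simp
  rw [h4] at h3
  exact h3

theorem av_phi_le (hm : 1 ≤ m) (j : ι) (p : E3) {r : ℝ} (hr : 0 < r) :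
    av p r (S.phi j) ≤ S.phi j p :=
  av_ph_le (S.del_pos hm j) hr

theorem av_phi_eq (hm : 1 ≤ m) (j : ι) {p : E3} {r : ℝ} (hr : 0 < r) (h : S.del j + r ≤ ‖p - S.x j‖) :
    av p r (S.phi j) = S.phi j p :=
  av_ph_eq (S.del_pos hm j) hr h

theorem av_FF (hm : 1 ≤ m) (c : ℝ) (b : ι → ℝ) (p : E3) {r : ℝ} (hr : 0 < r) :
    av p r (S.FF c b) = c - ∑ j, b j * av p r (S.phi j) := by
  have h1 : av p r (S.FF c b) =
      av p r (fun _ => c) - av p r (fun w => ∑ j, b j * S.phi j w) :=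
    av_sub continuous_const
      (continuous_finsetSum _ fun j _ => continuous_const.mul (S.phi_continuous hm j)) p r
  have h2 : av p r (fun w => ∑ j, b j * S.phi j w) =
      ∑ j, av p r (fun w => b j * S.phi j w) :=
    av_sum Finset.univ (F := fun j w => b j * S.phi j w)
      (fun j _ => continuous_const.mul (S.phi_continuous hm j)) p r
  rw [h1, h2, av_const hr]
  congr 1
  exact Finset.sum_congr rfl fun j _ => av_mul (b j) (S.phi j) p r

theorem avj_FF (hm : 1 ≤ m) (c : ℝ) (b : ι → ℝ) (i : ι) :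
    S.avj i (S.FF c b) = c - ∑ j, b j * S.K i j :=
  S.av_FF hm c b (S.x i) (S.del_pos hm i)

theorem K_symm (hm : 1 ≤ m) (i j : ι) : S.K i j = S.K j i :=
  av_ph_comm (S.del_pos hm i) (S.del_pos hm j)

theorem K_pos (hm : 1 ≤ m) (i j : ι) : 0 < S.K i j :=
  kk_pos (S.del_pos hm i) (S.del_pos hm j)

theorem K_le_left (hm : 1 ≤ m) (i j : ι) : S.K i j ≤ 3 / (2 * S.del i) :=
  kk_le_left (S.del_pos hm i) (S.del_pos hm j)

theorem K_le_right (hm : 1 ≤ m) (i j : ι) : S.K i j ≤ 3 / (2 * S.del j) :=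
  kk_le_right (S.del_pos hm i) (S.del_pos hm j)

theorem K_le_inv (hm : 1 ≤ m) {i j : ι} (h : S.x i ≠ S.x j) : S.K i j ≤ ‖S.x i - S.x j‖⁻¹ :=
  kk_le_inv (S.del_pos hm i) (S.del_pos hm j) h

theorem K_ge (hm : 1 ≤ m) (i j : ι) : (‖S.x i - S.x j‖ + S.del i + S.del j)⁻¹ ≤ S.K i j :=
  kk_ge (S.del_pos hm i) (S.del_pos hm j)

theorem K_le_phi (hm : 1 ≤ m) (i j : ι) : S.K i j ≤ S.phi j (S.x i) :=
  S.av_phi_le hm j (S.x i) (S.del_pos hm i)

end Sys

end Ion
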