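import Pool.Agent.Lib.MP_69e010_mp.B1

/-!
# JOB B2: existence of a gap radius (Lemma 2.1)

For `y ≠ 0` there is `ρ ∈ [d(y)/2, 3d(y)/4]` such that every trap ball `B_j` is inside `B(y, ρ)` (near) or outside (far).

Proof. If `‖x_j - y‖ ≥ d(y)`: `d_j ≤ d(y) + ‖x_j-y‖ ≤ 2 ‖x_j-y‖`, `del j ≤ 2 ea m ‖x_j-y‖`, so `‖x_j-y‖ - del j ≥ (1 - 2 ea m) d(y) ≥ 3/4 d(y) ≥ ρ`: far for every such `ρ`.
The other `j` (at most `m` by `card`) have `d_j ≤ 2 d(y)`, `del j ≤ 2 ea m d(y) = d(y)/(50 m)`.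
Consider the `m+1` levels `ρ_i = d(y)/2 + i d(y)/(4(m+1))`, `i = 0..m`. If all levels are bad, choose for every level a bad `j` (`‖x_j-y‖ + del j > ρ_i` and `‖x_j-y‖ - del j < ρ_i`,
i.e. `|ρ_i - ‖x_j-y‖| < del j`), necessarily with `‖x_j-y‖ < d(y)`; the map is injective because two different levels differ by at least
`d(y)/(4(m+1)) ≥ d(y)/(8m) > 2 del j`. So `m+1 ≤ m` (`Finset.card_le_card_of_injOn` or pigeonhole). Contradiction.
`near_*`: near `j` have `‖x_j-y‖ ≤ ρ ≤ 3/4 d(y)`, so by `lip`: `d(y)/4 ≤ d_j ≤ 2 d(y)`.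
-/

open MeasureTheory Metric Finset Filter Topology

noncomputable section

namespace Ion

namespace Sys

variable {ι : Type} [Fintype ι] {m : ℕ} (S : Sys ι m)

theorem B2_lip1 (j : ι) (y : E3) : S.dj j ≤ S.d y + ‖S.x j - y‖ := by
  have h := (abs_le.1 (S.lip (S.x j) y)).2
  unfold dj
  linarith

theorem B2_lip2 (j : ι) (y : E3) : S.d y ≤ S.dj j + ‖S.x j - y‖ := by
  have h := (abs_le.1 (S.lip (S.x j) y)).1
  unfold dj
  linarith

theorem exists_gap (hm : 1 ≤ m) {y : E3} (hy : y ≠ 0) : ∃ ρ, S.Gap y ρ := by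
  by_contra hcon
  push Not at hcon
  have hD := S.pos y hy
  obtain ⟨D, hDd⟩ : ∃ D, D = S.d y := ⟨_, rfl⟩
  rw [← hDd] at hD
  have hm' : (1 : ℝ) ≤ m := by exact_mod_cast hm
  have hea := ea_pos hm
  have hea1 := ea_le hm
  have hmea := mul_ea hm
  have key : ∀ i : Fin (m + 1), ∃ j, D / 2 + (i : ℕ) * (D / (4 * (m + 1))) < ‖S.x j - y‖ + S.del j ∧
      ‖S.x j - y‖ - S.del j < D / 2 + (i : ℕ) * (D / (4 * (m + 1))) := by
    intro i
    have hi : ((i : ℕ) : ℝ) ≤ m := by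
      have := Nat.lt_succ_iff.1 i.2
      exact_mod_cast this
    have hi0 : (0 : ℝ) ≤ ((i : ℕ) : ℝ) := Nat.cast_nonneg _
    have hq : 0 < D / (4 * (m + 1)) := by positivity
    have h1 : ((i : ℕ) : ℝ) * (D / (4 * (m + 1))) ≤ D / 4 := by
      have h2 : ((i : ℕ) : ℝ) * (D / (4 * (m + 1))) ≤ (m + 1) * (D / (4 * (m + 1))) :=
        mul_le_mul_of_nonneg_right (by linarith) hq.le
      have h3 : ((m : ℝ) + 1) * (D / (4 * (m + 1))) = D / 4 := by field_simp
      linarith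
    by_contra hno
    push Not at hno
    apply hcon (D / 2 + (i : ℕ) * (D / (4 * (m + 1))))
    refine ⟨?_, ?_, fun j => ?_⟩
    · rw [← hDd]
      have : 0 ≤ ((i : ℕ) : ℝ) * (D / (4 * (m + 1))) := mul_nonneg hi0 hq.le
      linarith
    · rw [← hDd]
      linarith
    · by_cases hj : ‖S.x j - y‖ + S.del j ≤ D / 2 + (i : ℕ) * (D / (4 * (m + 1)))
      · exact Or.inl hj
      · exact Or.inr (hno j (not_le.1 hj))
  choose f hf1 hf2 using key
  have hdel : ∀ j, S.del j ≤ ea m * (D + ‖S.x j - y‖) := by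
    intro j
    unfold del
    rw [hDd]
    exact mul_le_mul_of_nonneg_left (S.B2_lip1 j y) hea.le
  have hfJ : ∀ i, ‖S.x (f i) - y‖ < D := by
    intro i
    by_contra hge
    push Not at hge
    have hi : ((i : ℕ) : ℝ) ≤ m := by
      have := Nat.lt_succ_iff.1 i.2
      exact_mod_cast this
    have hq : 0 < D / (4 * (m + 1)) := by positivity
    have h1 : ((i : ℕ) : ℝ) * (D / (4 * (m + 1))) ≤ D / 4 := by
      have h2 : ((i : ℕ) : ℝ) * (D / (4 * (m + 1))) ≤ (m + 1) * (D / (4 * (m + 1))) :=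
        mul_le_mul_of_nonneg_right (by linarith) hq.le
      have h3 : ((m : ℝ) + 1) * (D / (4 * (m + 1))) = D / 4 := by field_simp
      linarith
    have h4 := hf2 i
    have h5 := hdel (f i)
    have h6 : ea m * (D + ‖S.x (f i) - y‖) ≤ 1 / 100 * (D + ‖S.x (f i) - y‖) :=
      mul_le_mul_of_nonneg_right hea1 (by linarith)
    linarith
  have hinj : Function.Injective f := by
    intro i i' hii
    by_contra hne
    have h1 := hf1 i
    have h2 := hf2 i
    have h3 := hf1 i'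
    have h4 := hf2 i'
    rw [← hii] at h3 h4
    have h5 := hfJ i
    have h6 := hdel (f i)
    have h7 : S.del (f i) ≤ 2 * (ea m * D) := by
      have : ea m * (D + ‖S.x (f i) - y‖) ≤ ea m * (D + D) :=
        mul_le_mul_of_nonneg_left (by linarith) hea.le
      linarith
    have h8 : 4 * (ea m * D) < D / (4 * (m + 1)) := by
      rw [lt_div_iff₀ (by positivity)]
      have e : 4 * (ea m * D) * (4 * ((m : ℝ) + 1)) = 16 * D * (m * ea m) + 16 * D * ea m := by ring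
      rw [e, hmea]
      have : D * ea m ≤ D * (1 / 100) := mul_le_mul_of_nonneg_left hea1 hD.le
      nlinarith
    have hq : 0 < D / (4 * ((m : ℝ) + 1)) := by positivity
    rcases lt_or_gt_of_ne (fun h => hne (Fin.ext h) : ((i : ℕ)) ≠ (i' : ℕ)) with h9 | h9
    · have h10 : ((i : ℕ) : ℝ) + 1 ≤ ((i' : ℕ) : ℝ) := by exact_mod_cast h9
      have h11 := mul_le_mul_of_nonneg_right h10 hq.le
      linarith
    · have h10 : ((i' : ℕ) : ℝ) + 1 ≤ ((i : ℕ) : ℝ) := by exact_mod_cast h9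
      have h11 := mul_le_mul_of_nonneg_right h10 hq.le
      linarith
  have hc := S.card y
  have hc2 : (univ : Finset (Fin (m + 1))).card ≤ (univ.filter fun j => ‖S.x j - y‖ < S.d y).card := by
    refine Finset.card_le_card_of_injOn f (fun i _ => ?_) (hinj.injOn)
    rw [← hDd]
    simp [hfJ i]
  rw [Finset.card_univ, Fintype.card_fin] at hc2
  omega

theorem mem_near {y : E3} {ρ : ℝ} {j : ι} : j ∈ S.near y ρ ↔ ‖S.x j - y‖ + S.del j ≤ ρ := by
  unfold near
  rw [Finset.mem_filter]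
  exact ⟨fun h => h.2, fun h => ⟨Finset.mem_univ _, h⟩⟩

theorem near_card (hm : 1 ≤ m) {y : E3} (hy : y ≠ 0) {ρ : ℝ} (h : S.Gap y ρ) : (S.near y ρ).card ≤ m := by
  refine le_trans (Finset.card_le_card fun j hj => ?_) (S.card y)
  rw [mem_near] at hj
  rw [Finset.mem_filter]
  refine ⟨Finset.mem_univ _, ?_⟩
  have h1 := S.del_pos hm j
  have h2 := h.2.1
  have h3 := S.pos y hy
  linarith

theorem near_ge (hm : 1 ≤ m) {y : E3} {ρ : ℝ} (h : S.Gap y ρ) {j : ι} (hj : j ∈ S.near y ρ) :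
    S.d y / 4 ≤ S.dj j := by
  rw [mem_near] at hj
  have h1 := S.del_pos hm j
  have h2 := h.2.1
  have h3 := S.B2_lip2 j y
  linarith

theorem near_le (hm : 1 ≤ m) {y : E3} (hy : y ≠ 0) {ρ : ℝ} (h : S.Gap y ρ) {j : ι} (hj : j ∈ S.near y ρ) :
    S.dj j ≤ 2 * S.d y := by
  rw [mem_near] at hj
  have h1 := S.del_pos hm j
  have h2 := h.2.1
  have h3 := S.B2_lip1 j y
  have h4 := S.pos y hy
  linarith

theorem near_ratio (hm : 1 ≤ m) {y : E3} {ρ : ℝ} (h : S.Gap y ρ) {j : ι} (hj : j ∈ S.near y ρ) :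
    ρ / S.del j ≤ 3 / ea m := by
  have h1 := S.del_pos hm j
  have h2 := h.2.1
  have h3 := S.near_ge hm h hj
  have h4 := ea_pos hm
  rw [div_le_div_iff₀ h1 h4]
  unfold del
  have h5 : ρ ≤ 3 * S.dj j := by linarith
  have h6 := mul_le_mul_of_nonneg_right h5 h4.le
  linarith

theorem near_ball {y : E3} {ρ : ℝ} {j : ι} (hj : j ∈ S.near y ρ) :
    ball (S.x j) (S.del j) ⊆ ball y ρ := by
  rw [mem_near] at hj
  apply ball_subset_ball'
  rw [dist_eq_norm]
  linarith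

theorem far_of_not_near {y : E3} {ρ : ℝ} (h : S.Gap y ρ) {j : ι} (hj : j ∉ S.near y ρ) :
    ρ ≤ ‖S.x j - y‖ - S.del j := by
  rw [mem_near] at hj
  exact (h.2.2 j).resolve_left hj

theorem gap_pos (hm : 1 ≤ m) {y : E3} (hy : y ≠ 0) {ρ : ℝ} (h : S.Gap y ρ) : 0 < ρ := by
  have h1 := h.1
  have h2 := S.pos y hy
  linarith

end Sys

end Ion
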