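import Pool.Agent.Lib.MP_69e010_mp.B2

/-!
# JOB B3: the local lemma (Lemma 2.2)

Let `F = F_{c,b} ≥ 0` on `E3`, `0 ≤ t_j ≤ τ d_j`, `b_j ≤ t_j F̄_j`, `ρ` a gap radius at `y ≠ 0`, `H = F + ∑_near t_j F̄_j φ_j`.
* `HH_ge`: `H ≥ F` since `t_j F̄_j φ_j ≥ 0`.
* `HH_super`: for `ball p r ⊆ ball y ρ`: `H = c - ∑_far b_j φ_j + ∑_near (t_j F̄_j - b_j) φ_j`. For far `j` the average of `φ_j` over `ball p r` is exact (`av_phi_eq`:
  `ball p r ⊆ ball y ρ` gives `‖p - y‖ + r ≤ ρ` - for `r > 0` in the normed space `E3` -, so `del j + r ≤ ‖p - x_j‖`), for near `j` use `av_phi_le` and coefficient `≥ 0`.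
* `HH_harm`: the same with coefficient `0` (equality).
* `LL_near`: `F̄_j = av over B_j of F ≤ av over B_j of H ≤ (ρ/del j)³ av y ρ H ≤ (3/ea)³ H(y)` (`av_subset`, `near_ball`, `near_ratio`, `HH_super` with `p = y`, `r = ρ`).
* `LL_sum`: `t_j ≤ τ d_j`, `φ_j(y) ≤ 3/(2 del j) = 3/(2 ea d_j)`, at most `m` near traps: `m * τ * 27/ea³ * 3/(2 ea) = 81/2 m τ / ea⁴`.
* `LL_two`: for `τ ≤ ea⁵`: `81/2 * m * ea = 0.405`, so `H(y) = F(y) + sum ≤ F(y) + 0.405 H(y)`.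
-/

open MeasureTheory Metric Finset Filter Topology

noncomputable section

namespace Ion

namespace Sys

variable {ι : Type} [Fintype ι] {m : ℕ} (S : Sys ι m)

theorem B3_ball_sub {p y : E3} {r ρ : ℝ} (hr : 0 < r) (hp : ball p r ⊆ ball y ρ) : ‖p - y‖ + r ≤ ρ := by
  obtain ⟨e, he, hpe⟩ : ∃ e : E3, ‖e‖ = 1 ∧ p - y = ‖p - y‖ • e := by
    by_cases h : p - y = 0
    · obtain ⟨e, he⟩ := exists_norm_eq E3 (zero_le_one : (0 : ℝ) ≤ 1)
      exact ⟨e, he, by simp [h]⟩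
    · have hn : ‖p - y‖ ≠ 0 := norm_ne_zero_iff.2 h
      refine ⟨‖p - y‖⁻¹ • (p - y), ?_, ?_⟩
      · rw [norm_smul, norm_inv, norm_norm, inv_mul_cancel₀ hn]
      · rw [smul_smul, mul_inv_cancel₀ hn, one_smul]
  have key : ∀ s : ℝ, 0 ≤ s → s < r → ‖p - y‖ + s < ρ := by
    intro s hs hsr
    have h1 : p + s • e ∈ ball p r := by
      rw [mem_ball, dist_eq_norm, add_sub_cancel_left, norm_smul, he, mul_one, Real.norm_of_nonneg hs]
      exact hsr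
    have h2 := hp h1
    rw [mem_ball, dist_eq_norm] at h2
    have h3 : p + s • e - y = (‖p - y‖ + s) • e := by
      rw [add_smul, ← hpe]; abel
    rw [h3, norm_smul, he, mul_one, Real.norm_of_nonneg (by positivity)] at h2
    exact h2
  by_contra hcon
  push Not at hcon
  have h0 := key 0 le_rfl hr
  have h1 := key (max 0 (ρ - ‖p - y‖)) (le_max_left _ _) (max_lt hr (by linarith))
  have h2 : ρ - ‖p - y‖ ≤ max 0 (ρ - ‖p - y‖) := le_max_right _ _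
  linarith

theorem HH_continuous (hm : 1 ≤ m) (c : ℝ) (b t : ι → ℝ) (y : E3) (ρ : ℝ) : Continuous (S.HH c b t y ρ) := by
  unfold HH
  exact (S.FF_continuous hm c b).add
    (continuous_finsetSum _ fun j _ => continuous_const.mul (S.phi_continuous hm j))

theorem B3_avj_nonneg {c : ℝ} {b : ι → ℝ} (hF : ∀ w, 0 ≤ S.FF c b w) (j : ι) : 0 ≤ S.avj j (S.FF c b) :=
  av_nonneg fun w _ => hF w

theorem HH_ge (hm : 1 ≤ m) {c τ : ℝ} {b t : ι → ℝ} (ht : S.Adm τ t) (hF : ∀ w, 0 ≤ S.FF c b w)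
    (y : E3) (ρ : ℝ) (w : E3) : S.FF c b w ≤ S.HH c b t y ρ w := by
  unfold HH
  refine le_add_of_nonneg_right (Finset.sum_nonneg fun j _ => ?_)
  exact mul_nonneg (mul_nonneg (ht j).1 (S.B3_avj_nonneg hF j)) (S.phi_pos hm j w).le

theorem B3_av_HH (hm : 1 ≤ m) (c : ℝ) (b t : ι → ℝ) (y : E3) (ρ : ℝ) (p : E3) {r : ℝ} (hr : 0 < r) :
    av p r (S.HH c b t y ρ) = (c - ∑ j, b j * av p r (S.phi j))
      + ∑ j ∈ S.near y ρ, t j * S.avj j (S.FF c b) * av p r (S.phi j) := by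
  have h1 : av p r (S.HH c b t y ρ) = av p r (S.FF c b)
      + av p r (fun w => ∑ j ∈ S.near y ρ, t j * S.avj j (S.FF c b) * S.phi j w) := by
    have := av_add (S.FF_continuous hm c b)
      (continuous_finsetSum (S.near y ρ) fun j _ =>
        (continuous_const (y := t j * S.avj j (S.FF c b))).mul (S.phi_continuous hm j)) p r
    exact this
  have h2 : av p r (fun w => ∑ j ∈ S.near y ρ, t j * S.avj j (S.FF c b) * S.phi j w)
      = ∑ j ∈ S.near y ρ, av p r (fun w => t j * S.avj j (S.FF c b) * S.phi j w) :=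
    av_sum (S.near y ρ) (F := fun j w => t j * S.avj j (S.FF c b) * S.phi j w)
      (fun j _ => continuous_const.mul (S.phi_continuous hm j)) p r
  rw [h1, S.av_FF hm c b p hr, h2]
  congr 1
  exact Finset.sum_congr rfl fun j _ => av_mul _ _ _ _

theorem B3_diff (hm : 1 ≤ m) {c : ℝ} {b t : ι → ℝ} {y : E3} {ρ : ℝ} (hρ : S.Gap y ρ)
    {p : E3} {r : ℝ} (hr : 0 < r) (hp : ball p r ⊆ ball y ρ) :
    S.HH c b t y ρ p - av p r (S.HH c b t y ρ)
      = ∑ j ∈ S.near y ρ, (t j * S.avj j (S.FF c b) - b j) * (S.phi j p - av p r (S.phi j)) := by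
  have hsub := B3_ball_sub hr hp
  have hfar : ∀ j, j ∉ S.near y ρ → av p r (S.phi j) = S.phi j p := by
    intro j hj
    refine S.av_phi_eq hm j hr ?_
    have h1 := S.far_of_not_near hρ hj
    have h2 : ‖S.x j - y‖ ≤ ‖p - S.x j‖ + ‖p - y‖ := by
      have : S.x j - y = -(p - S.x j) + (p - y) := by abel
      rw [this]
      exact (norm_add_le _ _).trans (by rw [norm_neg])
    linarith
  have hsum : ∑ j, b j * (S.phi j p - av p r (S.phi j))
      = ∑ j ∈ S.near y ρ, b j * (S.phi j p - av p r (S.phi j)) := by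
    symm
    refine Finset.sum_subset (Finset.subset_univ _) fun j _ hj => ?_
    rw [hfar j hj, sub_self, mul_zero]
  rw [S.B3_av_HH hm c b t y ρ p hr]
  have e1 : S.HH c b t y ρ p = (c - ∑ j, b j * S.phi j p)
      + ∑ j ∈ S.near y ρ, t j * S.avj j (S.FF c b) * S.phi j p := rfl
  have e2 : ∑ j, b j * (S.phi j p - av p r (S.phi j))
      = ∑ j, b j * S.phi j p - ∑ j, b j * av p r (S.phi j) := by
    rw [← Finset.sum_sub_distrib]; exact Finset.sum_congr rfl fun j _ => by ring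
  have e3 : ∑ j ∈ S.near y ρ, (t j * S.avj j (S.FF c b) - b j) * (S.phi j p - av p r (S.phi j))
      = ∑ j ∈ S.near y ρ, t j * S.avj j (S.FF c b) * S.phi j p
        - ∑ j ∈ S.near y ρ, t j * S.avj j (S.FF c b) * av p r (S.phi j)
        - ∑ j ∈ S.near y ρ, b j * (S.phi j p - av p r (S.phi j)) := by
    rw [← Finset.sum_sub_distrib, ← Finset.sum_sub_distrib]
    exact Finset.sum_congr rfl fun j _ => by ring
  rw [e1, e3, ← hsum, e2]
  ring

theorem HH_super (hm : 1 ≤ m) {c : ℝ} {b t : ι → ℝ}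
    (hb : ∀ j, b j ≤ t j * S.avj j (S.FF c b)) {y : E3} {ρ : ℝ} (hρ : S.Gap y ρ)
    {p : E3} {r : ℝ} (hr : 0 < r) (hp : ball p r ⊆ ball y ρ) :
    av p r (S.HH c b t y ρ) ≤ S.HH c b t y ρ p := by
  have h := S.B3_diff hm (c := c) (b := b) (t := t) hρ hr hp
  have h2 : 0 ≤ ∑ j ∈ S.near y ρ, (t j * S.avj j (S.FF c b) - b j) * (S.phi j p - av p r (S.phi j)) :=
    Finset.sum_nonneg fun j _ => mul_nonneg (sub_nonneg.2 (hb j)) (sub_nonneg.2 (S.av_phi_le hm j p hr))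
  linarith

theorem HH_harm (hm : 1 ≤ m) {c : ℝ} {b t : ι → ℝ} {y : E3} {ρ : ℝ} (hρ : S.Gap y ρ)
    (hb : ∀ j ∈ S.near y ρ, b j = t j * S.avj j (S.FF c b))
    {p : E3} {r : ℝ} (hr : 0 < r) (hp : ball p r ⊆ ball y ρ) :
    av p r (S.HH c b t y ρ) = S.HH c b t y ρ p := by
  have h := S.B3_diff hm (c := c) (b := b) (t := t) hρ hr hp
  have h2 : ∑ j ∈ S.near y ρ, (t j * S.avj j (S.FF c b) - b j) * (S.phi j p - av p r (S.phi j)) = 0 :=
    Finset.sum_eq_zero fun j hj => by rw [← hb j hj, sub_self, zero_mul]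
  linarith

theorem LL_near (hm : 1 ≤ m) {c τ : ℝ} {b t : ι → ℝ} (ht : S.Adm τ t) (hF : ∀ w, 0 ≤ S.FF c b w)
    (hb : ∀ j, b j ≤ t j * S.avj j (S.FF c b)) {y : E3} (hy : y ≠ 0) {ρ : ℝ} (hρ : S.Gap y ρ)
    {j : ι} (hj : j ∈ S.near y ρ) :
    S.avj j (S.FF c b) ≤ 27 / ea m ^ 3 * S.HH c b t y ρ y := by
  have hdel := S.del_pos hm j
  have hρ0 := S.gap_pos hm hy hρ
  have hea := ea_pos hm
  have hH0 : ∀ w, 0 ≤ S.HH c b t y ρ w := fun w => (hF w).trans (S.HH_ge hm ht hF y ρ w)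
  have h1 : S.avj j (S.FF c b) ≤ S.avj j (S.HH c b t y ρ) :=
    av_mono (S.FF_continuous hm c b) (S.HH_continuous hm c b t y ρ) fun w _ => S.HH_ge hm ht hF y ρ w
  have h2 : S.avj j (S.HH c b t y ρ) ≤ (ρ / S.del j) ^ 3 * av y ρ (S.HH c b t y ρ) :=
    av_subset (S.HH_continuous hm c b t y ρ) hdel (S.near_ball hj) fun w _ => hH0 w
  have h3 : av y ρ (S.HH c b t y ρ) ≤ S.HH c b t y ρ y := S.HH_super hm hb hρ hρ0 subset_rfl
  have h4 : (ρ / S.del j) ^ 3 ≤ (3 / ea m) ^ 3 :=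
    pow_le_pow_left₀ (by positivity) (S.near_ratio hm hρ hj) 3
  have h5 : (3 / ea m) ^ 3 = 27 / ea m ^ 3 := by rw [div_pow]; norm_num
  calc S.avj j (S.FF c b) ≤ (ρ / S.del j) ^ 3 * av y ρ (S.HH c b t y ρ) := h1.trans h2
    _ ≤ (ρ / S.del j) ^ 3 * S.HH c b t y ρ y := mul_le_mul_of_nonneg_left h3 (by positivity)
    _ ≤ (3 / ea m) ^ 3 * S.HH c b t y ρ y := mul_le_mul_of_nonneg_right h4 (hH0 y)
    _ = _ := by rw [h5]

theorem LL_sum (hm : 1 ≤ m) {c τ : ℝ} (hτ : 0 ≤ τ) {b t : ι → ℝ} (ht : S.Adm τ t) (hF : ∀ w, 0 ≤ S.FF c b w)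
    (hb : ∀ j, b j ≤ t j * S.avj j (S.FF c b)) {y : E3} (hy : y ≠ 0) {ρ : ℝ} (hρ : S.Gap y ρ) :
    ∑ j ∈ S.near y ρ, t j * S.avj j (S.FF c b) * S.phi j y
      ≤ 81 / 2 * m / ea m ^ 4 * τ * S.HH c b t y ρ y := by
  have hea := ea_pos hm
  have hH0 : 0 ≤ S.HH c b t y ρ y := (hF y).trans (S.HH_ge hm ht hF y ρ y)
  have hterm : ∀ j ∈ S.near y ρ, t j * S.avj j (S.FF c b) * S.phi j y
      ≤ 81 / 2 / ea m ^ 4 * τ * S.HH c b t y ρ y := by
    intro j hj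
    have hd := S.dj_pos j
    have h1 := S.LL_near hm ht hF hb hy hρ hj
    have h2 := S.phi_le hm j y
    have h3 := (ht j).2
    calc t j * S.avj j (S.FF c b) * S.phi j y
        ≤ (τ * S.dj j) * (27 / ea m ^ 3 * S.HH c b t y ρ y) * (3 / (2 * S.del j)) := by
          refine mul_le_mul (mul_le_mul h3 h1 (S.B3_avj_nonneg hF j) (by positivity)) h2
            (S.phi_pos hm j y).le (by positivity)
      _ = _ := by
          unfold del
          field_simp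
          ring
  calc ∑ j ∈ S.near y ρ, t j * S.avj j (S.FF c b) * S.phi j y
      ≤ ∑ j ∈ S.near y ρ, 81 / 2 / ea m ^ 4 * τ * S.HH c b t y ρ y := Finset.sum_le_sum hterm
    _ = ((S.near y ρ).card : ℝ) * (81 / 2 / ea m ^ 4 * τ * S.HH c b t y ρ y) := by
        rw [Finset.sum_const, nsmul_eq_mul]
    _ ≤ (m : ℝ) * (81 / 2 / ea m ^ 4 * τ * S.HH c b t y ρ y) := by
        refine mul_le_mul_of_nonneg_right ?_ (by positivity)
        exact_mod_cast S.near_card hm hy hρ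
    _ = _ := by ring

theorem LL_two (hm : 1 ≤ m) {c : ℝ} {b t : ι → ℝ} (ht : S.Adm (ea m ^ 5) t) (hF : ∀ w, 0 ≤ S.FF c b w)
    (hb : ∀ j, b j ≤ t j * S.avj j (S.FF c b)) {y : E3} (hy : y ≠ 0) {ρ : ℝ} (hρ : S.Gap y ρ) :
    S.HH c b t y ρ y ≤ 2 * S.FF c b y := by
  have hea := ea_pos hm
  have hH0 : 0 ≤ S.HH c b t y ρ y := (hF y).trans (S.HH_ge hm ht hF y ρ y)
  have h := S.LL_sum hm (by positivity) ht hF hb hy hρ
  have e1 : S.HH c b t y ρ y = S.FF c b y + ∑ j ∈ S.near y ρ, t j * S.avj j (S.FF c b) * S.phi j y := rfl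
  have e2 : (81 / 2 * m / ea m ^ 4 * ea m ^ 5 : ℝ) = 81 / 200 := by
    have h4 : (81 / 2 * m / ea m ^ 4 * ea m ^ 5 : ℝ) = 81 / 2 * (m * ea m) := by
      field_simp
    rw [h4, mul_ea hm]; norm_num
  rw [e2] at h
  have := hF y
  linarith

/-- sharper version for very weak traps -/
theorem LL_one (hm : 1 ≤ m) {c : ℝ} {b t : ι → ℝ} (ht : S.Adm (ea m ^ 12) t) (hF : ∀ w, 0 ≤ S.FF c b w)
    (hb : ∀ j, b j ≤ t j * S.avj j (S.FF c b)) {y : E3} (hy : y ≠ 0) {ρ : ℝ} (hρ : S.Gap y ρ) :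
    S.HH c b t y ρ y ≤ (1 + ea m ^ 6) * S.FF c b y := by
  have hea := ea_pos hm
  have hea1 := ea_le hm
  have hH0 : 0 ≤ S.HH c b t y ρ y := (hF y).trans (S.HH_ge hm ht hF y ρ y)
  have h := S.LL_sum hm (by positivity) ht hF hb hy hρ
  have e1 : S.HH c b t y ρ y = S.FF c b y + ∑ j ∈ S.near y ρ, t j * S.avj j (S.FF c b) * S.phi j y := rfl
  have e2 : (81 / 2 * m / ea m ^ 4 * ea m ^ 12 : ℝ) = 81 / 200 * ea m ^ 7 := by
    have h4 : (81 / 2 * m / ea m ^ 4 * ea m ^ 12 : ℝ) = 81 / 2 * (m * ea m) * ea m ^ 7 := by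
      field_simp
    rw [h4, mul_ea hm]; ring
  rw [e2] at h
  set H := S.HH c b t y ρ y
  set q := ea m ^ 6 with hq
  have hq0 : 0 ≤ q := by positivity
  have hq7 : ea m ^ 7 = q * ea m := by rw [hq]; ring
  have hq1 : q ≤ 1 := by
    rw [hq]; exact pow_le_one₀ hea.le (by linarith)
  rw [hq7] at h
  have hF0 := hF y
  -- `H (1 - 0.405 q ea) ≤ F`
  have h1 : H ≤ S.FF c b y + 81 / 200 * (q * ea m) * H := by linarith
  have h2 : q * ea m ≤ q / 100 := by nlinarith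
  have h3 : q * ea m * H ≤ q / 100 * H := mul_le_mul_of_nonneg_right h2 hH0
  have h4 : H * (1 - 81 / 20000 * q) ≤ S.FF c b y := by linarith
  have h5 : H ≤ H * ((1 + q) * (1 - 81 / 20000 * q)) := by
    have : 1 ≤ (1 + q) * (1 - 81 / 20000 * q) := by nlinarith
    nlinarith
  calc H ≤ H * ((1 + q) * (1 - 81 / 20000 * q)) := h5
    _ = (1 + q) * (H * (1 - 81 / 20000 * q)) := by ring
    _ ≤ (1 + q) * S.FF c b y := mul_le_mul_of_nonneg_left h4 (by linarith)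

end Sys

end Ion
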