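import Pool.Agent.Lib.MP_69e010_mp.B3

/-!
# JOB B4: positivity (Lemma 2.3)

`S.Adm (ea m ^ 5) t`, `c ≥ 0`, `b_j ≤ t_j F̄_j` for all `j` implies `F = F_{c,b} ≥ 0`; and `F > 0` if `c > 0`.

Proof. `F` is continuous and tends to `c` at infinity (`FF_tendsto`). Suppose `F` takes a negative value (first claim), resp. a value `≤ 0` (second claim; there `F ≥ 0` by the first claim, so the
minimum is `0`). Then the minimum `-μ ≤ 0` of `F` is attained at some `y*` (outside a compact set `F > -μ'` ...; e.g. `Continuous.exists_forall_le_of_hasBasis` or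
`exists_forall_le'`-type lemmas with `cocompact`). Put `f = F + μ = F_{c+μ, b}`: `f ≥ 0`, `f(y*) = 0`, and `b_j ≤ t_j F̄_j = t_j (f̄_j - μ) ≤ t_j f̄_j` (`avj_FF`).
Claim: the zero set of `f` is open. Let `f(y) = 0`.
 - `y ≠ 0`: take a gap radius `ρ`; `H(y) ≤ 2 f(y) = 0` (`LL_two`), `av y ρ f ≤ av y ρ H ≤ H(y) ≤ 0` (`HH_ge`, `HH_super`), so `f = 0` on `ball y ρ` (`av_eq_zero`).
 - `y = 0`: for `r > 0` with `r ≤ ‖x_j‖/2` for all `j` every `φ_j` is averaged exactly over `ball 0 r` (`av_phi_eq`, `del_le`), so `av 0 r f = f 0 = 0` and `f = 0` on `ball 0 r`.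
The zero set is also closed and nonempty, `E3` is connected, so `f = 0` everywhere, contradiction with `f → c + μ > 0` (in the second claim `μ = 0` and `c > 0`).
-/

open MeasureTheory Metric Finset Filter Topology

noncomputable section

namespace Ion

namespace Sys

variable {ι : Type} [Fintype ι] {m : ℕ} (S : Sys ι m)

theorem B4_shift (c μ : ℝ) (b : ι → ℝ) (w : E3) : S.FF (c + μ) b w = S.FF c b w + μ := by
  unfold FF
  ring

theorem B4_radius : ∃ r : ℝ, 0 < r ∧ ∀ j, r ≤ ‖S.x j‖ / 2 := by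
  have h : ∀ j : ι, ∀ᶠ r in 𝓝[>] (0 : ℝ), r ≤ ‖S.x j‖ / 2 := by
    intro j
    have hj : 0 < ‖S.x j‖ / 2 := by
      have := norm_pos_iff.2 (S.ne j)
      linarith
    have h1 : ∀ᶠ r in 𝓝 (0 : ℝ), r ≤ ‖S.x j‖ / 2 := by
      filter_upwards [Iio_mem_nhds hj] with r hr using le_of_lt hr
    exact mem_nhdsWithin_of_mem_nhds h1
  have h2 : ∀ᶠ r in 𝓝[>] (0 : ℝ), ∀ j, r ≤ ‖S.x j‖ / 2 := Filter.eventually_all.2 h
  have h3 : ∀ᶠ r in 𝓝[>] (0 : ℝ), 0 < r := self_mem_nhdsWithin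
  obtain ⟨r, hr⟩ := (h2.and h3).exists
  exact ⟨r, hr.2, hr.1⟩

theorem B4_open (hm : 1 ≤ m) {c : ℝ} {b t : ι → ℝ} (ht : S.Adm (ea m ^ 5) t) (hF : ∀ w, 0 ≤ S.FF c b w)
    (hb : ∀ j, b j ≤ t j * S.avj j (S.FF c b)) : IsOpen {w | S.FF c b w = 0} := by
  rw [Metric.isOpen_iff]
  intro w hw
  rw [Set.mem_ofPred_eq] at hw
  have hc := S.FF_continuous hm c b
  by_cases hw0 : w = 0
  · subst hw0
    obtain ⟨r, hr, hrj⟩ := S.B4_radius
    have h1 : av 0 r (S.FF c b) = S.FF c b 0 := by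
      rw [S.av_FF hm c b 0 hr]
      unfold FF
      congr 1
      apply Finset.sum_congr rfl
      intro j _
      rw [S.av_phi_eq hm j hr]
      have h2 := S.del_le hm j
      have h3 := hrj j
      have h4 : 0 < ‖S.x j‖ := norm_pos_iff.2 (S.ne j)
      rw [zero_sub, norm_neg]
      linarith
    refine ⟨r, hr, fun z hz => ?_⟩
    exact av_eq_zero hc hr (fun z _ => hF z) (le_of_eq (h1.trans hw)) z hz
  · obtain ⟨ρ, hρ⟩ := S.exists_gap hm hw0
    have hρ0 := S.gap_pos hm hw0 hρ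
    have h1 := S.LL_two hm ht hF hb hw0 hρ
    have h2 := S.HH_super hm hb hρ hρ0 (Set.Subset.refl (ball w ρ))
    have h3 : av w ρ (S.FF c b) ≤ av w ρ (S.HH c b t w ρ) :=
      av_mono hc (S.HH_continuous hm c b t w ρ) (fun z _ => S.HH_ge hm ht hF w ρ z)
    refine ⟨ρ, hρ0, fun z hz => ?_⟩
    have h4 : av w ρ (S.FF c b) ≤ 0 := by
      rw [hw] at h1
      linarith
    exact av_eq_zero hc hρ0 (fun z _ => hF z) h4 z hz

/-- strong minimum principle -/
theorem smp (hm : 1 ≤ m) {c : ℝ} {b t : ι → ℝ} (ht : S.Adm (ea m ^ 5) t) (hF : ∀ w, 0 ≤ S.FF c b w)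
    (hb : ∀ j, b j ≤ t j * S.avj j (S.FF c b)) {y : E3} (hy : S.FF c b y = 0) : c = 0 := by
  have hc := S.FF_continuous hm c b
  have h1 : IsClopen {w | S.FF c b w = 0} :=
    ⟨isClosed_eq hc continuous_const, S.B4_open hm ht hF hb⟩
  have h2 : {w | S.FF c b w = 0} = Set.univ := h1.eq_univ ⟨y, hy⟩
  have h3 : S.FF c b = fun _ => (0 : ℝ) := by
    funext w
    have : w ∈ {w | S.FF c b w = 0} := by
      rw [h2]
      exact Set.mem_univ w
    exact this
  have h4 := S.FF_tendsto c b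
  rw [h3] at h4
  exact (tendsto_nhds_unique h4 tendsto_const_nhds)

theorem FF_nonneg (hm : 1 ≤ m) {c : ℝ} (hc : 0 ≤ c) {b t : ι → ℝ} (ht : S.Adm (ea m ^ 5) t)
    (hb : ∀ j, b j ≤ t j * S.avj j (S.FF c b)) (y : E3) : 0 ≤ S.FF c b y := by
  by_contra hneg
  push Not at hneg
  have h1 : ∀ᶠ x in cocompact E3, S.FF c b y ≤ S.FF c b x := by
    have h2 : Set.Ioi (S.FF c b y) ∈ 𝓝 c := Ioi_mem_nhds (by linarith)
    filter_upwards [(S.FF_tendsto c b) h2] with x hx using le_of_lt hx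
  obtain ⟨z, hz⟩ := (S.FF_continuous hm c b).exists_forall_le' y h1
  have hzneg : S.FF c b z < 0 := lt_of_le_of_lt (hz y) hneg
  have h3 : c + -S.FF c b z = 0 := by
    refine S.smp hm (b := b) ht (c := c + -S.FF c b z) (fun w => ?_) (fun j => ?_) (y := z) ?_
    · rw [S.B4_shift]
      have := hz w
      linarith
    · rw [S.avj_FF hm]
      have h4 := hb j
      rw [S.avj_FF hm] at h4
      have h5 : 0 ≤ t j * -S.FF c b z := mul_nonneg (ht j).1 (by linarith)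
      nlinarith
    · rw [S.B4_shift]
      ring
  linarith

theorem FF_pos (hm : 1 ≤ m) {c : ℝ} (hc : 0 < c) {b t : ι → ℝ} (ht : S.Adm (ea m ^ 5) t)
    (hb : ∀ j, b j ≤ t j * S.avj j (S.FF c b)) (y : E3) : 0 < S.FF c b y := by
  have h1 := S.FF_nonneg hm hc.le ht hb
  rcases (h1 y).lt_or_eq with h | h
  · exact h
  · exact absurd (S.smp hm ht h1 hb h.symm) (ne_of_gt hc)

end Sys

end Ion
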