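import Pool.Agent.Lib.MP_69e010_mp.B4

/-!
# JOB B5: invertibility of `1 + K T` and algebra of the resolvent (Lemma 2.4 and part of 2.5)

* `isUnit_one_add`: a matrix over a field is invertible iff `mulVec` is injective. If `(1 + K T) f = 0` then `F = F_{0, T f}` has `F̄_i = -∑_j K_ij t_j f_j = f_i` (`avj_FF`), so `b_j = t_j F̄_j` and
  `FF_nonneg` (with `c = 0`) gives `F ≥ 0`; the same for `-f`. So `F = 0` and `f = F̄ = 0`.
* `GG_symm`: `(1 + K T)⁻¹ K = K (1 + T K)⁻¹` (because `K (1 + T K) = (1 + K T) K`), take transposes, `K` symmetric (`K_symm`), `T` diagonal.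
* `MM_eq`: `M (1 + K T) = 1` so `M = 1 - M K T`.
* `sum_GG`: row sums of `M K T = 1 - M` are `1 - v`, together with symmetry.
* `g_eq_MM`: `∑_a M_ia φ_a = φ_i - ∑_a GG_ia t_a φ_a`, symmetry of `GG`.
-/

open MeasureTheory Metric Finset Filter Topology

noncomputable section

namespace Ion

namespace Sys

variable {ι : Type} [Fintype ι] [DecidableEq ι] {m : ℕ} (S : Sys ι m)

theorem B5_mulVec (t f : ι → ℝ) (i : ι) :
    ((1 + S.K * Matrix.diagonal t).mulVec f) i = f i + ∑ j, S.K i j * (t j * f j) := by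
  rw [Matrix.add_mulVec, Matrix.one_mulVec, Pi.add_apply, ← Matrix.mulVec_mulVec]
  congr 1
  simp only [Matrix.mulVec, dotProduct, Matrix.diagonal_apply]
  refine Finset.sum_congr rfl fun j _ => ?_
  congr 1
  rw [Finset.sum_eq_single j]
  · simp
  · intro b _ hb
    simp [Ne.symm hb]
  · intro h
    exact absurd (Finset.mem_univ j) h

theorem B5_nonneg (hm : 1 ≤ m) {t : ι → ℝ} (ht : S.Adm (ea m ^ 5) t) {f : ι → ℝ}
    (hf : (1 + S.K * Matrix.diagonal t).mulVec f = 0) (i : ι) : 0 ≤ f i := by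
  have hav : ∀ i, S.avj i (S.FF 0 (fun j => t j * f j)) = f i := by
    intro i
    have h1 := congrFun hf i
    rw [B5_mulVec, Pi.zero_apply] at h1
    rw [S.avj_FF hm]
    have h2 : ∑ j, t j * f j * S.K i j = ∑ j, S.K i j * (t j * f j) :=
      Finset.sum_congr rfl fun j _ => by ring
    rw [h2]
    linarith
  rw [← hav i]
  refine av_nonneg fun w _ => ?_
  exact S.FF_nonneg hm le_rfl ht (fun j => by rw [hav j]) w

theorem isUnit_one_add (hm : 1 ≤ m) {t : ι → ℝ} (ht : S.Adm (ea m ^ 5) t) :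
    IsUnit (1 + S.K * Matrix.diagonal t) := by
  rw [← Matrix.mulVec_injective_iff_isUnit]
  intro f g hfg
  have h1 : (1 + S.K * Matrix.diagonal t).mulVec (f - g) = 0 := by
    rw [Matrix.mulVec_sub]
    exact sub_eq_zero.mpr hfg
  have h2 : (1 + S.K * Matrix.diagonal t).mulVec (g - f) = 0 := by
    rw [Matrix.mulVec_sub]
    exact sub_eq_zero.mpr hfg.symm
  funext i
  have h3 := S.B5_nonneg hm ht h1 i
  have h4 := S.B5_nonneg hm ht h2 i
  simp only [Pi.sub_apply] at h3 h4
  linarith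

theorem MM_mul (hm : 1 ≤ m) {t : ι → ℝ} (ht : S.Adm (ea m ^ 5) t) :
    S.MM t * (1 + S.K * Matrix.diagonal t) = 1 := by
  exact Matrix.nonsing_inv_mul _ ((Matrix.isUnit_iff_isUnit_det _).1 (S.isUnit_one_add hm ht))

theorem mul_MM (hm : 1 ≤ m) {t : ι → ℝ} (ht : S.Adm (ea m ^ 5) t) :
    (1 + S.K * Matrix.diagonal t) * S.MM t = 1 := by
  exact Matrix.mul_nonsing_inv _ ((Matrix.isUnit_iff_isUnit_det _).1 (S.isUnit_one_add hm ht))

theorem v_eq (hm : 1 ≤ m) {t : ι → ℝ} (ht : S.Adm (ea m ^ 5) t) (i : ι) :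
    S.v t i + ∑ j, S.K i j * (t j * S.v t j) = 1 := by
  have h1 : (1 + S.K * Matrix.diagonal t).mulVec (S.v t) = 1 := by
    have h2 : S.v t = (S.MM t).mulVec 1 := by
      funext i
      simp [v, Matrix.mulVec, dotProduct]
    rw [h2, Matrix.mulVec_mulVec, S.mul_MM hm ht, Matrix.one_mulVec]
  have h3 := congrFun h1 i
  rwa [B5_mulVec, Pi.one_apply] at h3

/-- uniqueness of the solution -/
theorem v_unique (hm : 1 ≤ m) {t : ι → ℝ} (ht : S.Adm (ea m ^ 5) t) {f : ι → ℝ}
    (hf : ∀ i, f i + ∑ j, S.K i j * (t j * f j) = 1) : f = S.v t := by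
  have h1 : (1 + S.K * Matrix.diagonal t).mulVec f = 1 := by
    funext i
    rw [B5_mulVec, Pi.one_apply]
    exact hf i
  have h2 : (S.MM t).mulVec ((1 + S.K * Matrix.diagonal t).mulVec f) = (S.MM t).mulVec 1 := by
    rw [h1]
  rw [Matrix.mulVec_mulVec, S.MM_mul hm ht, Matrix.one_mulVec] at h2
  rw [h2]
  funext i
  simp [v, Matrix.mulVec, dotProduct]

theorem GG_eq (hm : 1 ≤ m) {t : ι → ℝ} (ht : S.Adm (ea m ^ 5) t) (i l : ι) :
    S.GG t i l + ∑ j, S.K i j * (t j * S.GG t j l) = S.K i l := by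
  have h1 : (1 + S.K * Matrix.diagonal t).mulVec (fun j => S.GG t j l) = fun j => S.K j l := by
    have h2 : (fun j => S.GG t j l) = (S.MM t).mulVec (fun j => S.K j l) := by
      funext j
      simp [GG, Matrix.mul_apply, Matrix.mulVec, dotProduct]
    rw [h2, Matrix.mulVec_mulVec, S.mul_MM hm ht, Matrix.one_mulVec]
  have h3 := congrFun h1 i
  rwa [B5_mulVec] at h3

theorem GG_unique (hm : 1 ≤ m) {t : ι → ℝ} (ht : S.Adm (ea m ^ 5) t) {f : ι → ℝ} {l : ι}
    (hf : ∀ i, f i + ∑ j, S.K i j * (t j * f j) = S.K i l) (i : ι) : f i = S.GG t i l := by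
  have h1 : (1 + S.K * Matrix.diagonal t).mulVec f = fun j => S.K j l := by
    funext i
    rw [B5_mulVec]
    exact hf i
  have h2 : (S.MM t).mulVec ((1 + S.K * Matrix.diagonal t).mulVec f) =
      (S.MM t).mulVec (fun j => S.K j l) := by
    rw [h1]
  rw [Matrix.mulVec_mulVec, S.MM_mul hm ht, Matrix.one_mulVec] at h2
  rw [h2]
  simp [GG, Matrix.mul_apply, Matrix.mulVec, dotProduct]

theorem GG_symm (hm : 1 ≤ m) {t : ι → ℝ} (ht : S.Adm (ea m ^ 5) t) (i l : ι) :
    S.GG t i l = S.GG t l i := by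
  have hK : S.K.transpose = S.K := by
    ext i j
    rw [Matrix.transpose_apply]
    exact S.K_symm hm j i
  have h1 : (1 + Matrix.diagonal t * S.K) * (S.MM t).transpose = 1 := by
    have h := congrArg Matrix.transpose (S.MM_mul hm ht)
    rw [Matrix.transpose_mul, Matrix.transpose_add, Matrix.transpose_mul, Matrix.transpose_one,
      Matrix.diagonal_transpose, hK] at h
    exact h
  have h2 : S.GG t = S.K * (S.MM t).transpose := by
    calc S.GG t = S.MM t * S.K * ((1 + Matrix.diagonal t * S.K) * (S.MM t).transpose) := by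
          rw [h1, Matrix.mul_one]; rfl
      _ = S.MM t * (1 + S.K * Matrix.diagonal t) * (S.K * (S.MM t).transpose) := by
          noncomm_ring
      _ = S.K * (S.MM t).transpose := by
          rw [S.MM_mul hm ht, Matrix.one_mul]
  have h3 : (S.GG t).transpose = S.GG t := by
    conv_lhs => rw [h2]
    rw [Matrix.transpose_mul, Matrix.transpose_transpose, hK]
    rfl
  conv_rhs => rw [← h3]
  rfl

theorem MM_eq (hm : 1 ≤ m) {t : ι → ℝ} (ht : S.Adm (ea m ^ 5) t) (i a : ι) :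
    S.MM t i a = (if i = a then 1 else 0) - S.GG t i a * t a := by
  have h1 := S.MM_mul hm ht
  rw [Matrix.mul_add, Matrix.mul_one, ← Matrix.mul_assoc] at h1
  have h2 := congrFun (congrFun h1 i) a
  rw [Matrix.add_apply, Matrix.mul_diagonal, Matrix.one_apply] at h2
  have h3 : (S.MM t * S.K) i a = S.GG t i a := rfl
  rw [h3] at h2
  linarith

theorem avj_u (hm : 1 ≤ m) {t : ι → ℝ} (ht : S.Adm (ea m ^ 5) t) (i : ι) :
    S.avj i (S.u t) = S.v t i := by
  rw [show S.u t = S.FF 1 (fun j => t j * S.v t j) from rfl, S.avj_FF hm]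
  have h := S.v_eq hm ht i
  have h2 : ∑ j, t j * S.v t j * S.K i j = ∑ j, S.K i j * (t j * S.v t j) :=
    Finset.sum_congr rfl fun j _ => by ring
  rw [h2]
  linarith

theorem avj_g (hm : 1 ≤ m) {t : ι → ℝ} (ht : S.Adm (ea m ^ 5) t) (i l : ι) :
    S.avj i (S.g t l) = S.GG t i l := by
  rw [show S.g t l = S.FF 0 (fun j => t j * S.GG t j l - if j = l then 1 else 0) from rfl, S.avj_FF hm]
  have h := S.GG_eq hm ht i l
  have h2 : ∑ j, (t j * S.GG t j l - if j = l then 1 else 0) * S.K i j =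
      ∑ j, S.K i j * (t j * S.GG t j l) - S.K i l := by
    have h3 : S.K i l = ∑ j, if j = l then S.K i j else 0 := by simp
    conv_rhs => rw [h3]
    rw [← Finset.sum_sub_distrib]
    refine Finset.sum_congr rfl fun j _ => ?_
    split_ifs <;> ring
  rw [h2]
  linarith

theorem g_eq (t : ι → ℝ) (l : ι) (y : E3) :
    S.g t l y = S.phi l y - ∑ j, t j * S.GG t j l * S.phi j y := by
  rw [g, FF]
  have h2 : ∑ j, (t j * S.GG t j l - if j = l then 1 else 0) * S.phi j y =
      ∑ j, t j * S.GG t j l * S.phi j y - S.phi l y := by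
    have h3 : S.phi l y = ∑ j, if j = l then S.phi j y else 0 := by simp
    rw [h3, ← Finset.sum_sub_distrib]
    refine Finset.sum_congr rfl fun j _ => ?_
    split_ifs <;> ring
  rw [h2]
  ring

theorem g_eq_MM (hm : 1 ≤ m) {t : ι → ℝ} (ht : S.Adm (ea m ^ 5) t) (i : ι) (y : E3) :
    S.g t i y = ∑ a, S.MM t i a * S.phi a y := by
  rw [g_eq]
  have h3 : S.phi i y = ∑ j, if i = j then S.phi j y else 0 := by simp
  conv_lhs => rw [h3]
  rw [← Finset.sum_sub_distrib]
  refine Finset.sum_congr rfl fun a _ => ?_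
  rw [S.MM_eq hm ht i a, S.GG_symm hm ht a i]
  split_ifs <;> ring

theorem sum_GG (hm : 1 ≤ m) {t : ι → ℝ} (ht : S.Adm (ea m ^ 5) t) (l : ι) :
    ∑ i, t i * S.GG t i l = 1 - S.v t l := by
  have h1 : S.v t l = ∑ i, ((if l = i then (1 : ℝ) else 0) - t i * S.GG t i l) := by
    rw [v]
    refine Finset.sum_congr rfl fun i _ => ?_
    rw [S.MM_eq hm ht l i, S.GG_symm hm ht l i]
    ring
  rw [h1, Finset.sum_sub_distrib]
  simp

end Sys

end Ion
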