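import Pool.Agent.Lib.MP_69e010_mp.B5

/-!
# JOB B6: signs (Lemma 2.5)

* `u_pos`: `FF_pos` with `c = 1`, `b_j = t_j v_j = t_j ū_j` (`avj_u`). `v_pos`: average of `u` (`av_pos`).
* `g_nonneg`: `g_l = F_{0,b}` with `b_j = t_j GG_jl - 1_{j=l} ≤ t_j (g_l)¯_j` (`avj_g`): `FF_nonneg`. `GG_nonneg`: average.
* `v_le_one`, `u_le_one`: `v_eq`, definition of `u`, nonnegativity of all terms. `GG_le`: `GG_eq`. `g_le`: `g_eq`.
-/

open MeasureTheory Metric Finset Filter Topology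

noncomputable section

namespace Ion

namespace Sys

variable {ι : Type} [Fintype ι] [DecidableEq ι] {m : ℕ} (S : Sys ι m)

theorem u_continuous (hm : 1 ≤ m) (t : ι → ℝ) : Continuous (S.u t) := by
  exact S.FF_continuous hm 1 _

theorem g_continuous (hm : 1 ≤ m) (t : ι → ℝ) (l : ι) : Continuous (S.g t l) := by
  exact S.FF_continuous hm 0 _

theorem u_pos (hm : 1 ≤ m) {t : ι → ℝ} (ht : S.Adm (ea m ^ 5) t) (y : E3) : 0 < S.u t y := by
  refine S.FF_pos hm one_pos ht (fun j => ?_) y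
  have h : S.avj j (S.FF 1 (fun j => t j * S.v t j)) = S.v t j := S.avj_u hm ht j
  rw [h]

theorem v_pos (hm : 1 ≤ m) {t : ι → ℝ} (ht : S.Adm (ea m ^ 5) t) (i : ι) : 0 < S.v t i := by
  rw [← S.avj_u hm ht i]
  exact av_pos (S.u_continuous hm t) (S.del_pos hm i) (fun w _ => S.u_pos hm ht w)

theorem v_le_one (hm : 1 ≤ m) {t : ι → ℝ} (ht : S.Adm (ea m ^ 5) t) (i : ι) : S.v t i ≤ 1 := by
  have h := S.v_eq hm ht i
  have h2 : 0 ≤ ∑ j, S.K i j * (t j * S.v t j) := Finset.sum_nonneg fun j _ =>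
    mul_nonneg (S.K_pos hm i j).le (mul_nonneg (ht j).1 (S.v_pos hm ht j).le)
  linarith

theorem u_le_one (hm : 1 ≤ m) {t : ι → ℝ} (ht : S.Adm (ea m ^ 5) t) (y : E3) : S.u t y ≤ 1 := by
  have h2 : 0 ≤ ∑ j, t j * S.v t j * S.phi j y := Finset.sum_nonneg fun j _ =>
    mul_nonneg (mul_nonneg (ht j).1 (S.v_pos hm ht j).le) (S.phi_pos hm j y).le
  show 1 - ∑ j, t j * S.v t j * S.phi j y ≤ 1
  linarith

theorem g_nonneg (hm : 1 ≤ m) {t : ι → ℝ} (ht : S.Adm (ea m ^ 5) t) (l : ι) (y : E3) : 0 ≤ S.g t l y := by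
  refine S.FF_nonneg hm le_rfl ht (fun j => ?_) y
  have h : S.avj j (S.FF 0 (fun j => t j * S.GG t j l - if j = l then 1 else 0)) = S.GG t j l :=
    S.avj_g hm ht j l
  rw [h]
  split_ifs <;> linarith

theorem GG_nonneg (hm : 1 ≤ m) {t : ι → ℝ} (ht : S.Adm (ea m ^ 5) t) (i l : ι) : 0 ≤ S.GG t i l := by
  rw [← S.avj_g hm ht i l]
  exact av_nonneg (fun w _ => S.g_nonneg hm ht l w)

theorem g_le (hm : 1 ≤ m) {t : ι → ℝ} (ht : S.Adm (ea m ^ 5) t) (l : ι) (y : E3) :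
    S.g t l y ≤ S.phi l y := by
  rw [S.g_eq t l y]
  have h2 : 0 ≤ ∑ j, t j * S.GG t j l * S.phi j y := Finset.sum_nonneg fun j _ =>
    mul_nonneg (mul_nonneg (ht j).1 (S.GG_nonneg hm ht j l)) (S.phi_pos hm j y).le
  linarith

theorem GG_le (hm : 1 ≤ m) {t : ι → ℝ} (ht : S.Adm (ea m ^ 5) t) (i l : ι) : S.GG t i l ≤ S.K i l := by
  have h := S.GG_eq hm ht i l
  have h2 : 0 ≤ ∑ j, S.K i j * (t j * S.GG t j l) := Finset.sum_nonneg fun j _ =>
    mul_nonneg (S.K_pos hm i j).le (mul_nonneg (ht j).1 (S.GG_nonneg hm ht j l))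
  linarith

end Sys

end Ion
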