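import Pool.Agent.Lib.MP_69e010_mp.B6

/-!
# JOB B7: the estimate (F2) (Lemma 2.6)

Raise the strength of the single trap `l` from `t_l` to `t'_l = ea⁵ d_l` (still admissible). With `D = t'_l - t_l ≥ ea⁵ d_l / 2 > 0`:
`v'_i = v_i - GG_il D v'_l` (`v'` solves `v' + K T' v' = 1`, i.e. `(1 + K T) v' = 1 - K e_l D v'_l`, apply `M`), in particular `v'_l (1 + D GG_ll) = v_l`, and
`u' = u - g_l D v'_l` (insert into the definition; `g_eq`). Since `v'_i > 0`, `u' > 0` (B6 for `t'`): `GG_il D v_l/(1 + D GG_ll) ≤ v_i`, `g_l(y) D v_l/(1+D GG_ll) ≤ u(y)`.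
Finally `1/D + GG_ll ≤ 2/(ea⁵ d_l) + 3/(2 ea d_l) ≤ 4/(ea⁵ d_l)` (`GG_le`, `K_le_left`).
-/

open MeasureTheory Metric Finset Filter Topology

noncomputable section

namespace Ion

namespace Sys

variable {ι : Type} [Fintype ι] [DecidableEq ι] {m : ℕ} (S : Sys ι m)

omit [DecidableEq ι] in
theorem B7_adm (hm : 1 ≤ m) {t : ι → ℝ} (ht : S.Adm (ea m ^ 5 / 2) t) : S.Adm (ea m ^ 5) t := by
  intro j
  obtain ⟨h1, h2⟩ := ht j
  refine ⟨h1, h2.trans ?_⟩
  have h3 := S.dj_pos j
  have h4 : 0 < ea m ^ 5 := pow_pos (ea_pos hm) 5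
  nlinarith [mul_pos h4 h3]

theorem B7_adm' (hm : 1 ≤ m) {t : ι → ℝ} (ht : S.Adm (ea m ^ 5 / 2) t) (l : ι) :
    S.Adm (ea m ^ 5) (Function.update t l (ea m ^ 5 * S.dj l)) := by
  intro j
  by_cases h : j = l
  · subst h
    rw [Function.update_self]
    exact ⟨(mul_pos (pow_pos (ea_pos hm) 5) (S.dj_pos j)).le, le_rfl⟩
  · rw [Function.update_of_ne h]
    exact S.B7_adm hm ht j

/-- difference of the solutions -/
theorem B7_v (hm : 1 ≤ m) {t : ι → ℝ} (ht : S.Adm (ea m ^ 5) t) (l : ι) {s : ℝ}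
    (hs : S.Adm (ea m ^ 5) (Function.update t l s)) (i : ι) :
    S.v (Function.update t l s) i =
      S.v t i - S.GG t i l * ((s - t l) * S.v (Function.update t l s) l) := by
  set v' := S.v (Function.update t l s) with hv'
  set D := (s - t l) * v' l with hD
  have h1 : ∀ i, v' i + ∑ j, S.K i j * (t j * v' j) = 1 - S.K i l * D := by
    intro i
    have h2 := S.v_eq hm hs i
    rw [← hv'] at h2
    have h3 : ∑ j, S.K i j * (Function.update t l s j * v' j) =
        ∑ j, S.K i j * (t j * v' j) + S.K i l * D := by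
      have h4 : S.K i l * D = ∑ j, if j = l then S.K i j * ((s - t j) * v' j) else 0 := by simp [hD]
      rw [h4, ← Finset.sum_add_distrib]
      refine Finset.sum_congr rfl fun j _ => ?_
      by_cases h : j = l
      · subst h
        rw [Function.update_self, if_pos rfl]
        ring
      · rw [Function.update_of_ne h, if_neg h]
        ring
    rw [h3] at h2
    linarith
  have h5 : (fun i => v' i + S.GG t i l * D) = S.v t := by
    refine S.v_unique hm ht fun i => ?_
    have h6 := S.GG_eq hm ht i l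
    have h7 : ∑ j, S.K i j * (t j * (v' j + S.GG t j l * D)) =
        ∑ j, S.K i j * (t j * v' j) + (∑ j, S.K i j * (t j * S.GG t j l)) * D := by
      rw [Finset.sum_mul, ← Finset.sum_add_distrib]
      refine Finset.sum_congr rfl fun j _ => ?_
      ring
    rw [h7]
    have h8 := h1 i
    linear_combination h8 + D * h6
  have h9 : v' i + S.GG t i l * D = S.v t i := congrFun h5 i
  linarith

theorem B7_u (hm : 1 ≤ m) {t : ι → ℝ} (ht : S.Adm (ea m ^ 5) t) (l : ι) {s : ℝ}
    (hs : S.Adm (ea m ^ 5) (Function.update t l s)) (y : E3) :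
    S.u (Function.update t l s) y =
      S.u t y - S.g t l y * ((s - t l) * S.v (Function.update t l s) l) := by
  set v' := S.v (Function.update t l s) with hv'
  set D := (s - t l) * v' l with hD
  have h1 : S.u (Function.update t l s) y =
      1 - ∑ j, Function.update t l s j * v' j * S.phi j y := rfl
  have h2 : S.u t y = 1 - ∑ j, t j * S.v t j * S.phi j y := rfl
  rw [h1, h2, g_eq]
  have h3 : ∑ j, Function.update t l s j * v' j * S.phi j y =
      ∑ j, t j * v' j * S.phi j y + S.phi l y * D := by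
    have h4 : S.phi l y * D = ∑ j, if j = l then S.phi j y * ((s - t j) * v' j) else 0 := by simp [hD]
    rw [h4, ← Finset.sum_add_distrib]
    refine Finset.sum_congr rfl fun j _ => ?_
    by_cases h : j = l
    · subst h
      rw [Function.update_self, if_pos rfl]
      ring
    · rw [Function.update_of_ne h, if_neg h]
      ring
  have h5 : ∑ j, t j * v' j * S.phi j y =
      ∑ j, t j * S.v t j * S.phi j y - (∑ j, t j * S.GG t j l * S.phi j y) * D := by
    rw [Finset.sum_mul, ← Finset.sum_sub_distrib]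
    refine Finset.sum_congr rfl fun j _ => ?_
    have h6 := S.B7_v hm ht l hs j
    rw [← hv', ← hD] at h6
    rw [h6]
    ring
  rw [h3, h5]
  ring

/-- the scalar estimate -/
theorem B7_scalar {D G v v' gi w e d k : ℝ} (hD : e * d / 2 ≤ D) (he : 0 < e) (hd : 0 < d)
    (_hG0 : 0 ≤ G) (hG : G ≤ k) (hk : k ≤ 2 / (e * d)) (hv' : v' = v - G * (D * v')) (hv'0 : 0 < v')
    (hw : 0 < w - gi * (D * v')) (hg : 0 ≤ gi) : gi * v ≤ 4 / (e * d) * w := by
  have hed : 0 < e * d := mul_pos he hd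
  have hD0 : 0 < D := by linarith [half_pos hed]
  have hv : v = v' * (1 + G * D) := by linear_combination -hv'
  have h1 : gi * (D * v') < w := by linarith
  have h2 : 1 + G * D ≤ 4 / (e * d) * D := by
    have h3 : G * D ≤ 2 / (e * d) * D := mul_le_mul_of_nonneg_right (hG.trans hk) hD0.le
    have h4 : 1 ≤ 2 / (e * d) * D := by
      rw [div_mul_eq_mul_div, le_div_iff₀ hed]
      linarith
    have h5 : 4 / (e * d) * D = 2 / (e * d) * D + 2 / (e * d) * D := by ring
    linarith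
  have h6 : gi * v' * (1 + G * D) ≤ gi * v' * (4 / (e * d) * D) :=
    mul_le_mul_of_nonneg_left h2 (mul_nonneg hg hv'0.le)
  have h7 : 4 / (e * d) * (gi * (D * v')) ≤ 4 / (e * d) * w :=
    mul_le_mul_of_nonneg_left h1.le (by positivity)
  rw [hv]
  calc gi * (v' * (1 + G * D)) = gi * v' * (1 + G * D) := by ring
    _ ≤ gi * v' * (4 / (e * d) * D) := h6
    _ = 4 / (e * d) * (gi * (D * v')) := by ring
    _ ≤ 4 / (e * d) * w := h7

omit [DecidableEq ι] in
theorem B7_k (hm : 1 ≤ m) (l : ι) : 3 / (2 * S.del l) ≤ 2 / (ea m ^ 5 * S.dj l) := by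
  have h1 := ea_pos hm
  have h2 := ea_le hm
  have h3 := S.dj_pos l
  have h4 : S.del l = ea m * S.dj l := rfl
  rw [h4, div_le_div_iff₀ (by positivity) (by positivity)]
  have h5 : ea m ^ 5 ≤ ea m * (1 / 100) := by
    have h6 : ea m ^ 4 ≤ 1 / 100 := by
      calc ea m ^ 4 ≤ ea m ^ 1 := pow_le_pow_of_le_one h1.le (by linarith) (by norm_num)
        _ ≤ 1 / 100 := by simpa using h2
    calc ea m ^ 5 = ea m * ea m ^ 4 := by ring
      _ ≤ ea m * (1 / 100) := mul_le_mul_of_nonneg_left h6 h1.le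
  have h7 : ea m ^ 5 * S.dj l ≤ ea m * (1 / 100) * S.dj l := mul_le_mul_of_nonneg_right h5 h3.le
  have h8 : 0 < ea m * S.dj l := mul_pos h1 h3
  nlinarith

theorem F2_u (hm : 1 ≤ m) {t : ι → ℝ} (ht : S.Adm (ea m ^ 5 / 2) t) (l : ι) (y : E3) :
    S.g t l y * S.v t l ≤ 4 / (ea m ^ 5 * S.dj l) * S.u t y := by
  have ht' := S.B7_adm hm ht
  have hs := S.B7_adm' hm ht l
  have hD : ea m ^ 5 * S.dj l / 2 ≤ ea m ^ 5 * S.dj l - t l := by
    have := (ht l).2
    linarith
  refine B7_scalar (D := ea m ^ 5 * S.dj l - t l) (G := S.GG t l l) (k := 3 / (2 * S.del l))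
    (v' := S.v (Function.update t l (ea m ^ 5 * S.dj l)) l) hD (pow_pos (ea_pos hm) 5)
    (S.dj_pos l) (S.GG_nonneg hm ht' l l) ((S.GG_le hm ht' l l).trans (S.K_le_left hm l l))
    (S.B7_k hm l) (S.B7_v hm ht' l hs l) (S.v_pos hm hs l) ?_ (S.g_nonneg hm ht' l y)
  rw [← S.B7_u hm ht' l hs y]
  exact S.u_pos hm hs y

theorem F2_v (hm : 1 ≤ m) {t : ι → ℝ} (ht : S.Adm (ea m ^ 5 / 2) t) (i l : ι) :
    S.GG t i l * S.v t l ≤ 4 / (ea m ^ 5 * S.dj l) * S.v t i := by
  have ht' := S.B7_adm hm ht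
  have hs := S.B7_adm' hm ht l
  have hD : ea m ^ 5 * S.dj l / 2 ≤ ea m ^ 5 * S.dj l - t l := by
    have := (ht l).2
    linarith
  refine B7_scalar (D := ea m ^ 5 * S.dj l - t l) (G := S.GG t l l) (k := 3 / (2 * S.del l))
    (v' := S.v (Function.update t l (ea m ^ 5 * S.dj l)) l) hD (pow_pos (ea_pos hm) 5)
    (S.dj_pos l) (S.GG_nonneg hm ht' l l) ((S.GG_le hm ht' l l).trans (S.K_le_left hm l l))
    (S.B7_k hm l) (S.B7_v hm ht' l hs l) (S.v_pos hm hs l) ?_ (S.GG_nonneg hm ht' i l)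
  rw [← S.B7_v hm ht' l hs i]
  exact S.v_pos hm hs i

end Sys

end Ion
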