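import Pool.Agent.Lib.MP_69e010_mp.B6

/-!
# JOB B8: Harnack inequality for `u` (Lemma 2.7)

Let `t` be `Adm (ea m ^ 12)`, `y ≠ 0`, `ρ` a gap radius, `b_j = t_j v_j = t_j ū_j`, `H = HH 1 b t y ρ`: exactly averaged in `ball y ρ` (`HH_harm`), `H ≥ u > 0` (`HH_ge`), `H(y) ≤ (1 + ea⁶) u(y)` (`LL_one`).
For `‖x - y‖ ≤ θ < ρ`: `H(x) = av x (ρ-θ) H ≤ (ρ/(ρ-θ))³ av y ρ H = (ρ/(ρ-θ))³ H(y)` (`av_subset`): this is `H_move`.
`harnack`: with `θ = ‖x-y‖ ≤ d(y)/100 ≤ ρ/50`: `u(x) ≤ H(x) ≤ 0.98⁻³ H(y) ≤ 0.98⁻³ (1+ea⁶) u(y) ≤ 1.08 u(y)`. For the converse exchange the roles: `d(x) ≥ 0.99 d(y)`,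
`‖x-y‖ ≤ d(x)/99`, so the ratio is `(1-2/99)⁻³ (1+ea⁶) ≤ 1.08` (use a version of the first half with `‖x-y‖ ≤ d(y)/99`).
`v_le_u`, `u_le_v`: averages of `u` over `B_i`, all points of `B_i` have distance `≤ del i ≤ d_i/100` from `x_i`.
`near_v`: `LL_near` and `LL_one`: `27/ea³ (1+ea⁶) ≤ 28/ea³`.
-/

open MeasureTheory Metric Finset Filter Topology

noncomputable section

namespace Ion

namespace Sys

variable {ι : Type} [Fintype ι] [DecidableEq ι] {m : ℕ} (S : Sys ι m)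

omit [DecidableEq ι] in
theorem B8_adm (hm : 1 ≤ m) {t : ι → ℝ} (ht : S.Adm (ea m ^ 12) t) : S.Adm (ea m ^ 5) t := by
  intro j
  refine ⟨(ht j).1, (ht j).2.trans ?_⟩
  refine mul_le_mul_of_nonneg_right ?_ (S.dj_pos j).le
  exact pow_le_pow_of_le_one (ea_pos hm).le ((ea_le hm).trans (by norm_num)) (by norm_num)

theorem B8_b (hm : 1 ≤ m) {t : ι → ℝ} (ht : S.Adm (ea m ^ 12) t) (j : ι) :
    t j * S.v t j = t j * S.avj j (S.FF 1 (fun j => t j * S.v t j)) := by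
  have h := S.avj_u hm (S.B8_adm hm ht) j
  have e : S.FF 1 (fun j => t j * S.v t j) = S.u t := rfl
  rw [e, h]

theorem B8_nonneg (hm : 1 ≤ m) {t : ι → ℝ} (ht : S.Adm (ea m ^ 12) t) (w : E3) :
    0 ≤ S.FF 1 (fun j => t j * S.v t j) w :=
  (S.u_pos hm (S.B8_adm hm ht) w).le

theorem B8_H_ge (hm : 1 ≤ m) {t : ι → ℝ} (ht : S.Adm (ea m ^ 12) t) (y : E3) (ρ : ℝ) (w : E3) :
    S.u t w ≤ S.HH 1 (fun j => t j * S.v t j) t y ρ w :=
  S.HH_ge hm ht (S.B8_nonneg hm ht) y ρ w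

theorem B8_H_nonneg (hm : 1 ≤ m) {t : ι → ℝ} (ht : S.Adm (ea m ^ 12) t) (y : E3) (ρ : ℝ) (w : E3) :
    0 ≤ S.HH 1 (fun j => t j * S.v t j) t y ρ w :=
  (S.u_pos hm (S.B8_adm hm ht) w).le.trans (S.B8_H_ge hm ht y ρ w)

theorem B8_sub {x y : E3} {θ r : ℝ} (hx : ‖x - y‖ ≤ θ) : ball x (r - θ) ⊆ ball y r := by
  apply ball_subset_ball'
  rw [dist_eq_norm]
  linarith

/-- Harnack for the locally harmonic part `H` -/
theorem H_move (hm : 1 ≤ m) {t : ι → ℝ} (ht : S.Adm (ea m ^ 12) t) {y : E3} (hy : y ≠ 0) {ρ : ℝ}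
    (hρ : S.Gap y ρ) {x : E3} {θ : ℝ} (hx : ‖x - y‖ ≤ θ) (hθ : θ < ρ) :
    S.HH 1 (fun j => t j * S.v t j) t y ρ x
      ≤ (ρ / (ρ - θ)) ^ 3 * S.HH 1 (fun j => t j * S.v t j) t y ρ y := by
  have hr : 0 < ρ - θ := by linarith
  have hρ0 : 0 < ρ := S.gap_pos hm hy hρ
  have h1 := S.HH_harm hm (c := 1) (b := fun j => t j * S.v t j) (t := t) hρ
    (fun j _ => S.B8_b hm ht j) hr (B8_sub hx)
  have h2 := S.HH_harm hm (c := 1) (b := fun j => t j * S.v t j) (t := t) hρ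
    (fun j _ => S.B8_b hm ht j) hρ0 (subset_refl (ball y ρ))
  have h3 := av_subset (S.HH_continuous hm 1 (fun j => t j * S.v t j) t y ρ) hr (B8_sub hx)
    (fun w _ => S.B8_H_nonneg hm ht y ρ w)
  rw [h1, h2] at h3
  exact h3

/-- the same with center exchanged: `H(y) ≤ ((ρ-θ)/(ρ-2θ))³ H(x)` -/
theorem H_move' (hm : 1 ≤ m) {t : ι → ℝ} (ht : S.Adm (ea m ^ 12) t) {y : E3} (hy : y ≠ 0) {ρ : ℝ}
    (hρ : S.Gap y ρ) {x : E3} {θ : ℝ} (hx : ‖x - y‖ ≤ θ) (hθ : 2 * θ < ρ) :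
    S.HH 1 (fun j => t j * S.v t j) t y ρ y
      ≤ ((ρ - θ) / (ρ - 2 * θ)) ^ 3 * S.HH 1 (fun j => t j * S.v t j) t y ρ x := by
  have hθ0 : 0 ≤ θ := (norm_nonneg _).trans hx
  have hr : 0 < ρ - θ := by linarith
  have hr2 : 0 < ρ - 2 * θ := by linarith
  have hyx : ‖y - x‖ ≤ θ := by rw [norm_sub_rev]; exact hx
  have hs : ball y (ρ - 2 * θ) ⊆ ball x (ρ - θ) := by
    have h := B8_sub (r := ρ - θ) hyx
    have e : ρ - θ - θ = ρ - 2 * θ := by ring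
    rwa [e] at h
  have h1 := S.HH_harm hm (c := 1) (b := fun j => t j * S.v t j) (t := t) hρ
    (fun j _ => S.B8_b hm ht j) hr (B8_sub hx)
  have h2 := S.HH_harm hm (c := 1) (b := fun j => t j * S.v t j) (t := t) hρ
    (fun j _ => S.B8_b hm ht j) hr2 (hs.trans (B8_sub hx))
  have h3 := av_subset (S.HH_continuous hm 1 (fun j => t j * S.v t j) t y ρ) hr2 hs
    (fun w _ => S.B8_H_nonneg hm ht y ρ w)
  rw [h1, h2] at h3
  exact h3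

theorem B8_LL (hm : 1 ≤ m) {t : ι → ℝ} (ht : S.Adm (ea m ^ 12) t) {y : E3} (hy : y ≠ 0) {ρ : ℝ}
    (hρ : S.Gap y ρ) :
    S.HH 1 (fun j => t j * S.v t j) t y ρ y ≤ (1 + ea m ^ 6) * S.u t y :=
  S.LL_one hm ht (S.B8_nonneg hm ht) (fun j => (S.B8_b hm ht j).le) hy hρ

theorem B8_ea6 (hm : 1 ≤ m) : ea m ^ 6 ≤ 1 / 1000 := by
  have h1 := pow_le_pow_left₀ (ea_pos hm).le (ea_le hm) 6
  refine h1.trans ?_
  norm_num

theorem B8_half (hm : 1 ≤ m) {t : ι → ℝ} (ht : S.Adm (ea m ^ 12) t) {x y : E3} (hy : y ≠ 0)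
    (h : ‖x - y‖ ≤ S.d y / 99) : S.u t x ≤ 27 / 25 * S.u t y := by
  obtain ⟨ρ, hρ⟩ := S.exists_gap hm hy
  have hd : 0 < S.d y := S.pos y hy
  have hρ1 : S.d y / 2 ≤ ρ := hρ.1
  have hθ : S.d y / 99 < ρ := by linarith
  have h1 := S.H_move hm ht hy hρ h hθ
  have h2 := S.B8_H_ge hm ht y ρ x
  have h3 := S.B8_LL hm ht hy hρ
  have hu : 0 ≤ S.u t y := (S.u_pos hm (S.B8_adm hm ht) y).le
  have h4 : ρ / (ρ - S.d y / 99) ≤ 99 / 97 := by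
    rw [div_le_div_iff₀ (by linarith) (by norm_num)]
    linarith
  have h5 : (ρ / (ρ - S.d y / 99)) ^ 3 ≤ (99 / 97) ^ 3 :=
    pow_le_pow_left₀ (div_nonneg (by linarith) (by linarith)) h4 3
  have h6 : 0 ≤ (ρ / (ρ - S.d y / 99)) ^ 3 :=
    pow_nonneg (div_nonneg (by linarith) (by linarith)) 3
  have h7 := B8_ea6 (m := m) hm
  have h8 : (1 + ea m ^ 6) * S.u t y ≤ (1 + 1 / 1000) * S.u t y :=
    mul_le_mul_of_nonneg_right (by linarith) hu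
  calc S.u t x ≤ _ := h2
    _ ≤ _ := h1
    _ ≤ (ρ / (ρ - S.d y / 99)) ^ 3 * ((1 + 1 / 1000) * S.u t y) :=
        mul_le_mul_of_nonneg_left (h3.trans h8) h6
    _ ≤ (99 / 97) ^ 3 * ((1 + 1 / 1000) * S.u t y) :=
        mul_le_mul_of_nonneg_right h5 (mul_nonneg (by norm_num) hu)
    _ ≤ 27 / 25 * S.u t y := by
        rw [← mul_assoc]
        exact mul_le_mul_of_nonneg_right (by norm_num) hu

theorem harnack (hm : 1 ≤ m) {t : ι → ℝ} (ht : S.Adm (ea m ^ 12) t) {x y : E3} (hy : y ≠ 0)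
    (h : ‖x - y‖ ≤ S.d y / 100) :
    S.u t x ≤ 27 / 25 * S.u t y ∧ S.u t y ≤ 27 / 25 * S.u t x := by
  have hd : 0 < S.d y := S.pos y hy
  refine ⟨S.B8_half hm ht hy (by linarith), ?_⟩
  have h1 := S.lip x y
  have h2 : S.d y - ‖x - y‖ ≤ S.d x := by
    have := (abs_le.1 h1).1
    linarith
  have hdx : 0 < S.d x := by linarith
  have hx : x ≠ 0 := by
    rintro rfl
    have := S.le 0
    rw [norm_zero] at this
    linarith
  refine S.B8_half hm ht hx ?_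
  rw [norm_sub_rev]
  linarith

omit [DecidableEq ι] in
theorem B8_ball (hm : 1 ≤ m) (i : ι) {w : E3} (hw : w ∈ ball (S.x i) (S.del i)) :
    ‖w - S.x i‖ ≤ S.d (S.x i) / 100 := by
  rw [mem_ball, dist_eq_norm] at hw
  have h1 : S.del i ≤ 1 / 100 * S.dj i :=
    mul_le_mul_of_nonneg_right (ea_le hm) (S.dj_pos i).le
  have h2 : S.dj i = S.d (S.x i) := rfl
  rw [h2] at h1
  linarith

theorem v_le_u (hm : 1 ≤ m) {t : ι → ℝ} (ht : S.Adm (ea m ^ 12) t) (i : ι) :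
    S.v t i ≤ 27 / 25 * S.u t (S.x i) := by
  rw [← S.avj_u hm (S.B8_adm hm ht) i]
  exact av_le (S.u_continuous hm t) (S.del_pos hm i)
    (fun w hw => (S.harnack hm ht (S.ne i) (S.B8_ball hm i hw)).1)

theorem u_le_v (hm : 1 ≤ m) {t : ι → ℝ} (ht : S.Adm (ea m ^ 12) t) (i : ι) :
    S.u t (S.x i) ≤ 27 / 25 * S.v t i := by
  have h : 25 / 27 * S.u t (S.x i) ≤ S.avj i (S.u t) := by
    refine le_av (S.u_continuous hm t) (S.del_pos hm i) (fun w hw => ?_)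
    have := (S.harnack hm ht (S.ne i) (S.B8_ball hm i hw)).2
    linarith
  rw [S.avj_u hm (S.B8_adm hm ht) i] at h
  linarith

theorem near_v (hm : 1 ≤ m) {t : ι → ℝ} (ht : S.Adm (ea m ^ 12) t) {y : E3} (hy : y ≠ 0) {ρ : ℝ}
    (hρ : S.Gap y ρ) {j : ι} (hj : j ∈ S.near y ρ) :
    S.v t j ≤ 28 / ea m ^ 3 * S.u t y := by
  have h1 := S.LL_near hm (c := 1) (b := fun j => t j * S.v t j) ht (S.B8_nonneg hm ht)
    (fun j => (S.B8_b hm ht j).le) hy hρ hj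
  have e : S.FF 1 (fun j => t j * S.v t j) = S.u t := rfl
  rw [e, S.avj_u hm (S.B8_adm hm ht) j] at h1
  have h2 := S.B8_LL hm ht hy hρ
  have hea : 0 < ea m := ea_pos hm
  have hu : 0 ≤ S.u t y := (S.u_pos hm (S.B8_adm hm ht) y).le
  have h7 := B8_ea6 (m := m) hm
  have h8 : (1 + ea m ^ 6) * S.u t y ≤ (1 + 1 / 1000) * S.u t y :=
    mul_le_mul_of_nonneg_right (by linarith) hu
  have h9 : 0 ≤ 27 / ea m ^ 3 := by positivity
  have h10 : S.v t j ≤ 27 / ea m ^ 3 * ((1 + 1 / 1000) * S.u t y) :=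
    h1.trans (mul_le_mul_of_nonneg_left (h2.trans h8) h9)
  refine h10.trans ?_
  rw [← mul_assoc]
  refine mul_le_mul_of_nonneg_right ?_ hu
  rw [div_mul_eq_mul_div]
  exact div_le_div_of_nonneg_right (by norm_num) (by positivity)

end Sys

end Ion
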