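import Pool.Agent.Lib.MP_69e010_mp.CDefs

/-!
# JOB C1: the distance to the `m`-th nearest electron

`DD m X y = sInf {r ≥ 0 | #{j : ‖X j - y‖ ≤ r} ≥ m}`; the set is nonempty (`m ≤ N`, take `r` = sum of all distances), bounded below by `0`, upward closed.
* `DD_card`: the infimum is attained: the finitely many numbers `‖X j - y‖` which are `> DD` stay `> DD + δ` for some `δ > 0`, so the filter sets for `DD` and for `DD + δ'` agree.
* `DD_card_lt`: if `m` electrons had distance `< DD`, the largest of these distances would be a smaller element of the set.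
* `DD_le_of_card`, `lt_DD_of_card`: definition.
* `DD_lip`: if all `‖X j - y‖` change by at most `c`, then `DD` changes by at most `c`: `{‖X j - y‖ ≤ r} ⊆ {‖X' j - y'‖ ≤ r + c}`.
* `DD_pos`: if `DD m X y = 0` then by `DD_card` at least `m ≥ 1` electrons sit at `y`, one of them is `X j = y` and `DD m X (X j) = 0`, contradiction to `Good`.
-/

open MeasureTheory Metric Finset Filter Topology

noncomputable section

namespace Ion

variable {N : ℕ}

theorem DD_nonneg (m : ℕ) (X : Conf N) (y : E3) : 0 ≤ DD m X y := by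
  unfold DD
  exact Real.sInf_nonneg fun r hr => hr.1

theorem C1_card_mono (X : Conf N) (y : E3) {r r' : ℝ} (h : r ≤ r') :
    (univ.filter fun j => ‖X j - y‖ ≤ r).card ≤ (univ.filter fun j => ‖X j - y‖ ≤ r').card := by
  refine Finset.card_le_card ?_
  intro j hj
  rw [mem_filter] at hj ⊢
  exact ⟨hj.1, hj.2.trans h⟩

theorem C1_nonempty {m : ℕ} (hN : m ≤ N) (X : Conf N) (y : E3) :
    {r : ℝ | 0 ≤ r ∧ m ≤ (univ.filter fun j => ‖X j - y‖ ≤ r).card}.Nonempty := by
  refine ⟨∑ j, ‖X j - y‖, Finset.sum_nonneg fun j _ => norm_nonneg _, ?_⟩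
  have e : (univ.filter fun j => ‖X j - y‖ ≤ ∑ j, ‖X j - y‖) = univ := by
    rw [Finset.filter_eq_self]
    intro j _
    exact Finset.single_le_sum (f := fun j => ‖X j - y‖) (fun l _ => norm_nonneg _) (mem_univ j)
  rw [e, Finset.card_univ, Fintype.card_fin]
  exact hN

theorem DD_card {m : ℕ} (hN : m ≤ N) (X : Conf N) (y : E3) :
    m ≤ (univ.filter fun j => ‖X j - y‖ ≤ DD m X y).card := by
  have hne := C1_nonempty hN X y
  have h1 : ∀ r, DD m X y < r → m ≤ (univ.filter fun j => ‖X j - y‖ ≤ r).card := by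
    intro r hr
    obtain ⟨r', hr', hlt⟩ := exists_lt_of_csInf_lt hne hr
    exact hr'.2.trans (C1_card_mono X y hlt.le)
  have h2 : ∀ᶠ r in 𝓝[>] (DD m X y), ∀ j, DD m X y < ‖X j - y‖ → r < ‖X j - y‖ := by
    rw [eventually_all]
    intro j
    by_cases hj : DD m X y < ‖X j - y‖
    · have h3 : ∀ᶠ r in 𝓝 (DD m X y), r < ‖X j - y‖ := eventually_lt_nhds hj
      exact (h3.filter_mono nhdsWithin_le_nhds).mono fun r hr _ => hr
    · exact Eventually.of_forall fun r h => absurd h hj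
  obtain ⟨r, hr, hr2⟩ := (h2.and self_mem_nhdsWithin).exists
  refine (h1 r hr2).trans (Finset.card_le_card ?_)
  intro j hj
  rw [mem_filter] at hj ⊢
  refine ⟨hj.1, ?_⟩
  by_contra hcon
  push Not at hcon
  exact absurd hj.2 (not_le.2 (hr j hcon))

theorem DD_card_lt {m : ℕ} (hm : 1 ≤ m) (hN : m ≤ N) (X : Conf N) (y : E3) :
    (univ.filter fun j => ‖X j - y‖ < DD m X y).card < m := by
  by_contra hcon
  push Not at hcon
  have hne : (univ.filter fun j => ‖X j - y‖ < DD m X y).Nonempty := by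
    rw [← Finset.card_pos]
    omega
  obtain ⟨j, hj, hmax⟩ := Finset.exists_max_image _ (fun j => ‖X j - y‖) hne
  have h1 : ‖X j - y‖ < DD m X y := (mem_filter.1 hj).2
  have h2 : DD m X y ≤ ‖X j - y‖ := by
    refine csInf_le ⟨0, fun r hr => hr.1⟩ ⟨norm_nonneg _, hcon.trans (Finset.card_le_card ?_)⟩
    intro l hl
    rw [mem_filter]
    exact ⟨mem_univ _, hmax l hl⟩
  linarith

theorem DD_le_of_card {m : ℕ} (X : Conf N) (y : E3) {r : ℝ} (hr : 0 ≤ r)
    (h : m ≤ (univ.filter fun j => ‖X j - y‖ ≤ r).card) : DD m X y ≤ r := by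
  exact csInf_le ⟨0, fun r hr => hr.1⟩ ⟨hr, h⟩

theorem le_DD_of_card {m : ℕ} (hN : m ≤ N) (X : Conf N) (y : E3) {r : ℝ}
    (h : (univ.filter fun j => ‖X j - y‖ < r).card < m) : r ≤ DD m X y := by
  by_contra hcon
  push Not at hcon
  have h1 := DD_card hN X y
  have h2 : (univ.filter fun j => ‖X j - y‖ ≤ DD m X y).card
      ≤ (univ.filter fun j => ‖X j - y‖ < r).card := by
    refine Finset.card_le_card ?_
    intro j hj
    rw [mem_filter] at hj ⊢
    exact ⟨hj.1, lt_of_le_of_lt hj.2 hcon⟩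
  omega

theorem C1_lip_aux {m : ℕ} (hN : m ≤ N) {X X' : Conf N} {y y' : E3} {c : ℝ} (hc : 0 ≤ c)
    (h : ∀ j, ‖X' j - y'‖ ≤ ‖X j - y‖ + c) : DD m X' y' ≤ DD m X y + c := by
  refine DD_le_of_card X' y' (add_nonneg (DD_nonneg m X y) hc)
    ((DD_card hN X y).trans (Finset.card_le_card ?_))
  intro j hj
  rw [mem_filter] at hj ⊢
  refine ⟨hj.1, ?_⟩
  have h1 := h j
  have h2 := hj.2
  linarith

theorem DD_lip {m : ℕ} (hN : m ≤ N) {X X' : Conf N} {y y' : E3} {c : ℝ} (hc : 0 ≤ c)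
    (h : ∀ j, |‖X j - y‖ - ‖X' j - y'‖| ≤ c) : |DD m X y - DD m X' y'| ≤ c := by
  have h1 := C1_lip_aux hN hc (X := X) (X' := X') (y := y) (y' := y') fun j => by
    have := (abs_le.1 (h j)).1
    linarith
  have h2 := C1_lip_aux hN hc (X := X') (X' := X) (y := y') (y' := y) fun j => by
    have := (abs_le.1 (h j)).2
    linarith
  rw [abs_le]
  constructor <;> linarith

theorem DD_lip_y {m : ℕ} (hN : m ≤ N) (X : Conf N) (y y' : E3) :
    |DD m X y - DD m X y'| ≤ ‖y - y'‖ := by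
  refine DD_lip hN (norm_nonneg _) fun j => ?_
  refine (abs_norm_sub_norm_le _ _).trans (le_of_eq ?_)
  rw [norm_sub_rev y y']
  congr 1
  abel

theorem C1_DD_aux {m : ℕ} (hN : m ≤ N) {X X' : Conf N} (y y' : E3) {c : ℝ} (hc : 0 ≤ c)
    (h : ∀ j, ‖X j - X' j‖ ≤ c) : |DD m X y - DD m X' y'| ≤ c + ‖y - y'‖ := by
  refine DD_lip hN (add_nonneg hc (norm_nonneg _)) fun j => ?_
  refine (abs_norm_sub_norm_le _ _).trans ?_
  have e : X j - y - (X' j - y') = (X j - X' j) - (y - y') := by abel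
  rw [e]
  refine (norm_sub_le _ _).trans ?_
  have := h j
  linarith

theorem C1_dd_aux {m : ℕ} (hN : m ≤ N) {X X' : Conf N} (y y' : E3) {c : ℝ} (hc : 0 ≤ c)
    (h : ∀ j, ‖X j - X' j‖ ≤ c) : |dd m X y - dd m X' y'| ≤ c + ‖y - y'‖ := by
  unfold dd
  refine (abs_min_sub_min_le_max _ _ _ _).trans (max_le (C1_DD_aux hN y y' hc h) ?_)
  have h1 := abs_norm_sub_norm_le y y'
  have h2 : ‖y‖ / 4 - ‖y'‖ / 4 = (‖y‖ - ‖y'‖) / 4 := by ring
  rw [h2, abs_div, abs_of_pos (show (0 : ℝ) < 4 by norm_num)]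
  have h3 := norm_nonneg (y - y')
  linarith

theorem C1_continuous_DD {m : ℕ} (hN : m ≤ N) :
    Continuous (fun q : Conf N × E3 => DD m q.1 q.2) := by
  refine (LipschitzWith.of_dist_le_mul (K := 2) fun q q' => ?_).continuous
  rw [Real.dist_eq]
  have h1 : ∀ j, ‖q.1 j - q'.1 j‖ ≤ dist q q' := by
    intro j
    have h2 : ‖(q.1 - q'.1) j‖ ≤ ‖q.1 - q'.1‖ := norm_le_pi_norm (q.1 - q'.1) j
    have h3 : dist q.1 q'.1 ≤ dist q q' := by
      rw [Prod.dist_eq]
      exact le_max_left _ _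
    rw [dist_eq_norm] at h3
    exact h2.trans h3
  have h4 : ‖q.2 - q'.2‖ ≤ dist q q' := by
    rw [← dist_eq_norm, Prod.dist_eq]
    exact le_max_right _ _
  refine (C1_DD_aux hN q.2 q'.2 dist_nonneg h1).trans ?_
  have h5 : ((2 : NNReal) : ℝ) * dist q q' = dist q q' + dist q q' := by
    push_cast
    ring
  rw [h5]
  linarith

theorem dd_lip_y {m : ℕ} (hN : m ≤ N) (X : Conf N) (y y' : E3) :
    |dd m X y - dd m X y'| ≤ ‖y - y'‖ := by
  have h := C1_dd_aux (m := m) hN (X := X) (X' := X) y y' (c := 0) le_rfl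
    fun j => by rw [sub_self, norm_zero]
  rwa [zero_add] at h

theorem dd_lip {m : ℕ} (hN : m ≤ N) {X X' : Conf N} (y y' : E3) {c : ℝ} (hc : 0 ≤ c)
    (h : ∀ j, ‖X j - X' j‖ ≤ c) : |dd m X y - dd m X' y'| ≤ c + ‖y - y'‖ := by
  exact C1_dd_aux hN y y' hc h

theorem DD_pos {m : ℕ} (hm : 1 ≤ m) (hN : m ≤ N) {X : Conf N} (hX : Good m X) (y : E3) :
    0 < DD m X y := by
  rcases (DD_nonneg m X y).lt_or_eq with h | h
  · exact h
  · exfalso
    have h1 := DD_card hN X y
    have hne : (univ.filter fun j => ‖X j - y‖ ≤ DD m X y).Nonempty := by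
      rw [← Finset.card_pos]
      omega
    obtain ⟨j, hj⟩ := hne
    have h2 := (mem_filter.1 hj).2
    rw [← h] at h2
    have h3 : X j = y := by
      have h4 : ‖X j - y‖ = 0 := le_antisymm h2 (norm_nonneg _)
      exact sub_eq_zero.1 (norm_eq_zero.1 h4)
    have h5 := hX.2 j
    rw [h3, ← h] at h5
    exact lt_irrefl _ h5

theorem dd_pos {m : ℕ} (hm : 1 ≤ m) (hN : m ≤ N) {X : Conf N} (hX : Good m X) {y : E3} (hy : y ≠ 0) :
    0 < dd m X y := by
  unfold dd
  refine lt_min (DD_pos hm hN hX y) ?_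
  have := norm_pos_iff.2 hy
  linarith

theorem dd_le (m : ℕ) (X : Conf N) (y : E3) : dd m X y ≤ ‖y‖ / 4 := by
  exact min_le_right _ _

theorem dd_card {m : ℕ} (hm : 1 ≤ m) (hN : m ≤ N) (X : Conf N) (y : E3) :
    (univ.filter fun j => ‖X j - y‖ < dd m X y).card < m := by
  refine lt_of_le_of_lt (Finset.card_le_card ?_) (DD_card_lt hm hN X y)
  intro j hj
  rw [mem_filter] at hj ⊢
  exact ⟨hj.1, lt_of_lt_of_le hj.2 (min_le_left _ _)⟩

/-- for `m ≥ 2` and pairwise distinct nonzero electrons the configuration is good -/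
theorem good_of_distinct {m : ℕ} (hm : 2 ≤ m) (hN : m ≤ N) {X : Conf N} (h0 : ∀ j, X j ≠ 0)
    (h : ∀ j k, j ≠ k → X j ≠ X k) : Good m X := by
  refine ⟨h0, fun j => ?_⟩
  rcases (DD_nonneg m X (X j)).lt_or_eq with h1 | h1
  · exact h1
  · exfalso
    have h2 := DD_card hN X (X j)
    have h3 : (univ.filter fun l => ‖X l - X j‖ ≤ DD m X (X j)) ⊆ {j} := by
      intro l hl
      have h4 := (mem_filter.1 hl).2
      rw [← h1] at h4
      rw [mem_singleton]
      by_contra hne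
      have h5 : ‖X l - X j‖ = 0 := le_antisymm h4 (norm_nonneg _)
      exact h l j hne (sub_eq_zero.1 (norm_eq_zero.1 h5))
    have h6 := Finset.card_le_card h3
    rw [Finset.card_singleton] at h6
    omega

theorem continuous_dd {m : ℕ} (hN : m ≤ N) : Continuous (fun q : Conf N × E3 => dd m q.1 q.2) := by
  have h1 : Continuous (fun q : Conf N × E3 => DD m q.1 q.2) := C1_continuous_DD hN
  have h2 : Continuous (fun q : Conf N × E3 => ‖q.2‖ / 4) := by fun_prop
  exact h1.min h2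

theorem isOpen_good {m : ℕ} (hN : m ≤ N) : IsOpen {X : Conf N | Good m X} := by
  have e : {X : Conf N | Good m X} = (⋂ j, {X : Conf N | X j ≠ 0}) ∩
      ⋂ j, {X : Conf N | 0 < DD m X (X j)} := by
    ext X
    rw [Set.mem_inter_iff, Set.mem_iInter, Set.mem_iInter]
    exact Iff.rfl
  rw [e]
  refine IsOpen.inter (isOpen_iInter_of_finite fun j => ?_)
    (isOpen_iInter_of_finite fun j => ?_)
  · exact isOpen_ne.preimage (continuous_apply j)
  · have hpair : Continuous fun X : Conf N => ((X, X j) : Conf N × E3) := by fun_prop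
    have h1 : Continuous ((fun q : Conf N × E3 => DD m q.1 q.2) ∘
        fun X : Conf N => ((X, X j) : Conf N × E3)) :=
      Continuous.comp (C1_continuous_DD (m := m) hN) hpair
    exact isOpen_lt continuous_const h1

end Ion
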