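import Pool.Agent.Lib.MP_69e010_mp.C1

/-!
# JOB C2: locality of `DD`, and the cone argument

* `DD_update_lt`: electron `k` moves from `X k` to `x'`, both at distance `< DD m X y` from `y`: `DD` is unchanged. (`≥`: the number of electrons at distance `< DD m X y` is the same before and
  after, so `< m`: `le_DD_of_card`. `≤`: the set `{‖·-y‖ ≤ DD}` is the same: `DD_card`, `DD_le_of_card`.)
* `DD_update_gt`: both at distance `> DD m X y`: unchanged (the set `{≤ DD}` is the same; the set `{< DD}` is the same).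
* `DD_update_eventually`: if `‖X k - y‖ ≠ DD m X y` then `DD m (update X k x') y = DD m X y` for `x'` near `X k`.
* `cone_class`: for unit vectors `p, q` in the same class (`⌊2 p_c⌋ = ⌊2 q_c⌋` for the three coordinates `c`) `‖p - q‖² < 3/4`, hence for `u = s p`, `w = t q`, `0 < s ≤ t`: `‖u-w‖ < ‖w‖`:
  `‖u-w‖² = s²+t²-2st⟨p,q⟩`, `⟨p,q⟩ = 1 - ‖p-q‖²/2 > 5/8 > 1/2`, so `‖u - w‖² < s² + t² - s t ≤ t²`.
* `cone_card`: for fixed `k`, `#{l ≠ k : X l ≠ X k, ‖X k - X l‖ ≤ DD m X (X l)} ≤ 125 m`. The map `l ↦ (⌊2 (X l - X k)_c / ‖X l - X k‖⌋)_c` takes values in `{-2,...,2}³` (125 values). In one class take `l` with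
  the largest `‖X l - X k‖`: all `l'` of the class satisfy `‖X l' - X l‖ < ‖X l - X k‖ ≤ DD m X (X l)`, so the class has `< m` elements by `DD_card_lt` at `y = X l`.
-/

open MeasureTheory Metric Finset Filter Topology

noncomputable section

namespace Ion

variable {N : ℕ}

theorem C2_update {m : ℕ} (hm : 1 ≤ m) (hN : m ≤ N) (X : Conf N) (y : E3) (k : Fin N) (x' : E3)
    (h1 : ‖X k - y‖ < DD m X y ↔ ‖x' - y‖ < DD m X y)
    (h2 : ‖X k - y‖ ≤ DD m X y ↔ ‖x' - y‖ ≤ DD m X y) :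
    DD m (Function.update X k x') y = DD m X y := by
  refine le_antisymm ?_ ?_
  · refine DD_le_of_card _ y (DD_nonneg m X y) ?_
    refine (DD_card hN X y).trans (le_of_eq ?_)
    congr 1
    ext j
    rw [Finset.mem_filter, Finset.mem_filter]
    by_cases hj : j = k
    · subst hj
      rw [Function.update_self, h2]
    · rw [Function.update_of_ne hj]
  · refine le_DD_of_card hN _ y ?_
    refine lt_of_le_of_lt (le_of_eq ?_) (DD_card_lt hm hN X y)
    congr 1
    ext j
    rw [Finset.mem_filter, Finset.mem_filter]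
    by_cases hj : j = k
    · subst hj
      rw [Function.update_self, h1]
    · rw [Function.update_of_ne hj]

theorem DD_update_lt {m : ℕ} (hm : 1 ≤ m) (hN : m ≤ N) (X : Conf N) (y : E3) (k : Fin N) (x' : E3)
    (h1 : ‖X k - y‖ < DD m X y) (h2 : ‖x' - y‖ < DD m X y) :
    DD m (Function.update X k x') y = DD m X y :=
  C2_update hm hN X y k x' ⟨fun _ => h2, fun _ => h1⟩ ⟨fun _ => h2.le, fun _ => h1.le⟩

theorem DD_update_gt {m : ℕ} (hm : 1 ≤ m) (hN : m ≤ N) (X : Conf N) (y : E3) (k : Fin N) (x' : E3)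
    (h1 : DD m X y < ‖X k - y‖) (h2 : DD m X y < ‖x' - y‖) :
    DD m (Function.update X k x') y = DD m X y :=
  C2_update hm hN X y k x'
    ⟨fun h => absurd h (not_lt.mpr h1.le), fun h => absurd h (not_lt.mpr h2.le)⟩
    ⟨fun h => absurd h (not_le.mpr h1), fun h => absurd h (not_le.mpr h2)⟩

theorem DD_update_eventually {m : ℕ} (hm : 1 ≤ m) (hN : m ≤ N) (X : Conf N) (y : E3) (k : Fin N)
    (h : ‖X k - y‖ ≠ DD m X y) :
    ∀ᶠ x' in 𝓝 (X k), DD m (Function.update X k x') y = DD m X y := by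
  have hc : Continuous (fun x' : E3 => ‖x' - y‖) := (continuous_id.sub continuous_const).norm
  rcases lt_or_gt_of_ne h with h1 | h1
  · have h2 : ∀ᶠ x' in 𝓝 (X k), ‖x' - y‖ < DD m X y :=
      hc.continuousAt.eventually (eventually_lt_nhds h1)
    filter_upwards [h2] with x' hx'
    exact DD_update_lt hm hN X y k x' h1 hx'
  · have h2 : ∀ᶠ x' in 𝓝 (X k), DD m X y < ‖x' - y‖ :=
      hc.continuousAt.eventually (eventually_gt_nhds h1)
    filter_upwards [h2] with x' hx'
    exact DD_update_gt hm hN X y k x' h1 hx'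

theorem C2_coord_le (p : E3) (c : Fin 3) : |p c| ≤ ‖p‖ := by
  have h1 : (p c) ^ 2 ≤ ‖p‖ ^ 2 := by
    rw [EuclideanSpace.real_norm_sq_eq]
    exact Finset.single_le_sum (f := fun i => (p i) ^ 2) (fun i _ => sq_nonneg _) (Finset.mem_univ c)
  exact abs_le_of_sq_le_sq h1 (norm_nonneg _)

theorem C2_class {p q : E3} (h : ∀ c, ⌊2 * p c⌋ = ⌊2 * q c⌋) : ‖p - q‖ ^ 2 < 3 / 4 := by
  rw [EuclideanSpace.real_norm_sq_eq, Fin.sum_univ_three]
  have hh : ∀ c : Fin 3, ((p - q) c) ^ 2 < 1 / 4 := by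
    intro c
    have h1 := Int.abs_sub_lt_one_of_floor_eq_floor (h c)
    have h2 : (p - q) c = p c - q c := rfl
    rw [h2]
    have h3 : |p c - q c| < 1 / 2 := by
      rw [abs_lt] at h1 ⊢
      constructor <;> linarith [h1.1, h1.2]
    have h4 : |p c - q c| ^ 2 < (1 / 2 : ℝ) ^ 2 := by
      exact pow_lt_pow_left₀ h3 (abs_nonneg _) (by norm_num)
    rw [sq_abs] at h4
    linarith
  linarith [hh 0, hh 1, hh 2]

theorem C2_cone {u w : E3} (hu : u ≠ 0) (hw : w ≠ 0) (huw : ‖u‖ ≤ ‖w‖)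
    (h : ∀ c, ⌊2 * (u c / ‖u‖)⌋ = ⌊2 * (w c / ‖w‖)⌋) : ‖u - w‖ < ‖w‖ := by
  have hu' : 0 < ‖u‖ := norm_pos_iff.mpr hu
  have hw' : 0 < ‖w‖ := norm_pos_iff.mpr hw
  set p : E3 := ‖u‖⁻¹ • u with hp
  set q : E3 := ‖w‖⁻¹ • w with hq
  have hpc : ∀ c, p c = u c / ‖u‖ := by
    intro c
    rw [hp, PiLp.smul_apply, smul_eq_mul, div_eq_inv_mul]
  have hqc : ∀ c, q c = w c / ‖w‖ := by
    intro c
    rw [hq, PiLp.smul_apply, smul_eq_mul, div_eq_inv_mul]
  have h1 : ‖p - q‖ ^ 2 < 3 / 4 := by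
    refine C2_class ?_
    intro c
    rw [hpc, hqc]
    exact h c
  have hp1 : ‖p‖ = 1 := by
    rw [hp, norm_smul, norm_inv, norm_norm, inv_mul_cancel₀ hu'.ne']
  have hq1 : ‖q‖ = 1 := by
    rw [hq, norm_smul, norm_inv, norm_norm, inv_mul_cancel₀ hw'.ne']
  have h2 : ‖p - q‖ ^ 2 = ‖p‖ ^ 2 - 2 * inner ℝ p q + ‖q‖ ^ 2 := norm_sub_sq_real p q
  have h3 : ‖u - w‖ ^ 2 = ‖u‖ ^ 2 - 2 * inner ℝ u w + ‖w‖ ^ 2 := norm_sub_sq_real u w
  have hup : u = ‖u‖ • p := by
    rw [hp, smul_smul, mul_inv_cancel₀ hu'.ne', one_smul]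
  have hwq : w = ‖w‖ • q := by
    rw [hq, smul_smul, mul_inv_cancel₀ hw'.ne', one_smul]
  have h4 : inner ℝ u w = ‖u‖ * ‖w‖ * inner ℝ p q := by
    conv_lhs => rw [hup, hwq]
    rw [real_inner_smul_left, real_inner_smul_right]
    ring
  have h5 : inner ℝ p q > 5 / 8 := by
    rw [hp1, hq1] at h2
    linarith
  have h6 : ‖u - w‖ ^ 2 < ‖w‖ ^ 2 := by
    rw [h3, h4]
    have h7 : ‖u‖ * ‖w‖ * (1 / 2) < ‖u‖ * ‖w‖ * inner ℝ p q :=
      mul_lt_mul_of_pos_left (by linarith) (mul_pos hu' hw')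
    nlinarith [mul_le_mul_of_nonneg_left huw hu'.le]
  exact lt_of_pow_lt_pow_left₀ 2 (norm_nonneg _) h6

theorem cone_card {m : ℕ} (hm : 1 ≤ m) (hN : m ≤ N) (X : Conf N) (k : Fin N) :
    (univ.filter fun l => l ≠ k ∧ X l ≠ X k ∧ ‖X k - X l‖ ≤ DD m X (X l)).card ≤ 125 * m := by
  classical
  set s := univ.filter fun l => l ≠ k ∧ X l ≠ X k ∧ ‖X k - X l‖ ≤ DD m X (X l) with hs
  set f : Fin N → (Fin 3 → ℤ) := fun l c => ⌊2 * ((X l - X k) c / ‖X l - X k‖)⌋ with hf
  set t : Finset (Fin 3 → ℤ) := Fintype.piFinset (fun _ => Finset.Icc (-2 : ℤ) 2) with ht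
  have htc : t.card = 125 := by
    rw [ht, Fintype.card_piFinset]
    simp
  have hmaps : ∀ l ∈ s, f l ∈ t := by
    intro l hl
    rw [ht, Fintype.mem_piFinset]
    intro c
    rw [hs, Finset.mem_filter] at hl
    have hne : X l - X k ≠ 0 := sub_ne_zero.mpr hl.2.2.1
    have hpos : 0 < ‖X l - X k‖ := norm_pos_iff.mpr hne
    have habs : |(X l - X k) c / ‖X l - X k‖| ≤ 1 := by
      rw [abs_div, abs_of_pos hpos, div_le_one hpos]
      exact C2_coord_le _ c
    rw [abs_le] at habs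
    rw [Finset.mem_Icc, hf]
    constructor
    · rw [Int.le_floor]
      push_cast
      linarith [habs.1]
    · have h1 : (⌊2 * ((X l - X k) c / ‖X l - X k‖)⌋ : ℝ) ≤ 2 :=
        (Int.floor_le _).trans (by linarith [habs.2])
      exact_mod_cast h1
  have hfib : ∀ b ∈ t, (s.filter fun l => f l = b).card ≤ m := by
    intro b _
    rcases (s.filter fun l => f l = b).eq_empty_or_nonempty with he | hne
    · rw [he]; simp
    · obtain ⟨l, hl, hmax⟩ := Finset.exists_max_image _ (fun l => ‖X l - X k‖) hne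
      rw [Finset.mem_filter] at hl
      obtain ⟨hls, hlb⟩ := hl
      have hls' := hls
      rw [hs, Finset.mem_filter] at hls'
      refine le_trans (Finset.card_le_card ?_) (DD_card_lt hm hN X (X l)).le
      intro l' hl'
      have hmx := hmax l' hl'
      rw [Finset.mem_filter] at hl'
      obtain ⟨hls2, hlb2⟩ := hl'
      rw [hs, Finset.mem_filter] at hls2
      rw [Finset.mem_filter]
      refine ⟨Finset.mem_univ _, ?_⟩
      have h1 : ‖(X l' - X k) - (X l - X k)‖ < ‖X l - X k‖ := by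
        refine C2_cone (sub_ne_zero.mpr hls2.2.2.1) (sub_ne_zero.mpr hls'.2.2.1) hmx ?_
        intro c
        have h2 : f l' = f l := hlb2.trans hlb.symm
        exact congrFun h2 c
      rw [sub_sub_sub_cancel_right] at h1
      refine h1.trans_le ?_
      rw [norm_sub_rev]
      exact hls'.2.2.2
  have := Finset.card_le_mul_card_image_of_maps_to hmaps m hfib
  rw [htc] at this
  linarith

/-- the affected set is small -/
theorem aff_card {m : ℕ} (hm : 1 ≤ m) (hN : m ≤ N) {X : Conf N} (hX : Good m X) (k : Fin N) :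
    (aff m X k).card ≤ 125 * m + 1 := by
  classical
  have h : aff m X k ⊆ insert k
      (univ.filter fun l => l ≠ k ∧ X l ≠ X k ∧ ‖X k - X l‖ ≤ DD m X (X l)) := by
    intro l hl
    rw [aff, Finset.mem_filter] at hl
    rw [Finset.mem_insert, Finset.mem_filter]
    by_cases hlk : l = k
    · left; exact hlk
    · right
      rcases hl.2 with h1 | ⟨h1, -⟩
      · exact absurd h1 hlk
      · refine ⟨Finset.mem_univ _, hlk, ?_, h1.le⟩
        intro h2
        rw [h2, sub_self, norm_zero] at h1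
        have h3 := hX.2 l
        rw [h2, ← h1] at h3
        exact lt_irrefl _ h3
  refine (Finset.card_le_card h).trans ((Finset.card_insert_le _ _).trans ?_)
  have := cone_card hm hN X k
  omega

/-- for a generic configuration every electron is affected by at most two electrons (itself and its `m`-th neighbour) -/
theorem aff_dual_card {m : ℕ} (hm : 1 ≤ m) (hN : m ≤ N) {X : Conf N} (hX : Gen m X) (l : Fin N) :
    (univ.filter fun k => l ∈ aff m X k).card ≤ 2 := by
  classical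
  have h1 : ((univ.filter fun k => l ∈ aff m X k).erase l).card ≤ 1 := by
    rw [Finset.card_le_one]
    intro a ha b hb
    rw [Finset.mem_erase, Finset.mem_filter, aff, Finset.mem_filter] at ha hb
    by_contra hab
    have ha2 : ‖X a - X l‖ = DD m X (X l) := by
      rcases ha.2.2.2 with h | ⟨h, -⟩
      · exact absurd h.symm ha.1
      · exact h
    have hb2 : ‖X b - X l‖ = DD m X (X l) := by
      rcases hb.2.2.2 with h | ⟨h, -⟩
      · exact absurd h.symm hb.1
      · exact h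
    exact hX.2 l a b hab ha.1 hb.1 (ha2.trans hb2.symm)
  have h2 := Finset.pred_card_le_card_erase (s := univ.filter fun k => l ∈ aff m X k) (a := l)
  omega

end Ion
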