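import Pool.Agent.Lib.MP_69e010_mp.C1

/-!
# JOB C3: the trap system of a configuration, also with one virtual trap

The structure fields: `dd_lip_y`, `dd_pos`, `dd_le`, `dd_card`. For `vSys` the index type is `Option (Fin N)`; `#{o : ‖x o - y'‖ < d y'} ≤ #{j ...} + 1 ≤ m`.
-/

open MeasureTheory Metric Finset Filter Topology

noncomputable section

namespace Ion

variable {N : ℕ}

theorem C3_opt_card (p : Option (Fin N) → Prop) [DecidablePred p] :
    (univ.filter p).card ≤ (univ.filter fun j : Fin N => p (some j)).card + 1 := by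
  classical
  have h : (univ.filter p) ⊆ insert none ((univ.filter fun j : Fin N => p (some j)).map Function.Embedding.some) := by
    intro o ho
    rcases o with _ | j
    · exact Finset.mem_insert_self _ _
    · refine Finset.mem_insert_of_mem ?_
      rw [Finset.mem_map]
      refine ⟨j, ?_, rfl⟩
      rw [Finset.mem_filter] at ho ⊢
      exact ⟨Finset.mem_univ _, ho.2⟩
  refine (Finset.card_le_card h).trans ?_
  refine (Finset.card_insert_le _ _).trans ?_
  rw [Finset.card_map]

/-- the trap system of a good configuration -/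
def cSys {m : ℕ} (hm : 1 ≤ m) (hN : m ≤ N) (X : Conf N) (hX : Good m X) : Sys (Fin N) m where
  x := X
  d := dd m X
  lip := dd_lip_y hN X
  pos := fun _ hy => dd_pos hm hN hX hy
  le := dd_le m X
  card := fun y => (dd_card hm hN X y).le
  ne := hX.1

/-- the trap system with an additional virtual trap at `y` -/
def vSys {m : ℕ} (hm : 1 ≤ m) (hN : m ≤ N) (X : Conf N) (hX : Good m X) (y : E3) (hy : y ≠ 0) :
    Sys (Option (Fin N)) m where
  x := fun o => o.elim y X
  d := dd m X
  lip := dd_lip_y hN X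
  pos := fun _ hy => dd_pos hm hN hX hy
  le := dd_le m X
  card := fun y' => by
    have h1 := dd_card hm hN X y'
    have h2 := C3_opt_card (N := N) (fun o => ‖(o.elim y X : E3) - y'‖ < dd m X y')
    simp only [Option.elim_some] at h2
    exact h2.trans h1
  ne := fun o => by
    rcases o with _ | j
    · exact hy
    · exact hX.1 j

/-- strengths for `vSys`: the virtual trap has strength `0` -/
def vstr (m : ℕ) (X : Conf N) (o : Option (Fin N)) : ℝ := o.elim 0 (sc m X)

theorem C3_ea_nonneg (m : ℕ) : 0 ≤ ea m := by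
  unfold ea; positivity

theorem C3_sc {m : ℕ} (hm : 1 ≤ m) (hN : m ≤ N) (X : Conf N) (hX : Good m X) (j : Fin N) :
    0 ≤ sc m X j ∧ sc m X j ≤ ea m ^ 12 * dd m X (X j) := by
  have hd : 0 ≤ dd m X (X j) := (dd_pos hm hN hX (hX.1 j)).le
  have he : 0 ≤ eps m := pow_nonneg (C3_ea_nonneg m) 12
  have ht : 0 ≤ tau m (X j) := le_min he (norm_nonneg _)
  refine ⟨mul_nonneg ht hd, ?_⟩
  exact mul_le_mul_of_nonneg_right (min_le_left _ _) hd

theorem sc_adm {m : ℕ} (hm : 1 ≤ m) (hN : m ≤ N) (X : Conf N) (hX : Good m X) :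
    (cSys hm hN X hX).Adm (ea m ^ 12) (sc m X) :=
  fun j => C3_sc hm hN X hX j

theorem vstr_adm {m : ℕ} (hm : 1 ≤ m) (hN : m ≤ N) (X : Conf N) (hX : Good m X) (y : E3) (hy : y ≠ 0) :
    (vSys hm hN X hX y hy).Adm (ea m ^ 12) (vstr m X) := by
  intro o
  rcases o with _ | j
  · refine ⟨le_refl _, ?_⟩
    exact mul_nonneg (pow_nonneg (C3_ea_nonneg m) 12) (dd_pos hm hN hX hy).le
  · exact C3_sc hm hN X hX j

end Ion
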