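import Pool.Agent.Lib.MP_69e010_mp.C1

/-!
# JOB C4: almost every configuration is generic

Null sets: `{X | X j = 0}`, `{X | X j = X k}` (`j ≠ k`), `{X | ‖X k - X l‖ = ‖X k' - X l‖}` (`k, k', l` distinct). Each is a measurable (closed) set all of whose sections in the coordinate `k` (the other coordinates
fixed) are a point or a sphere, hence null (`Measure.addHaar_sphere`, in the sphere case the radius is `‖X k' - X l‖`, the center `X l`). Use Fubini for one coordinate: the measurable equivalence
`MeasurableEquiv.piFinSuccAbove`/`MeasureTheory.volume_preserving_piFinSuccAbove` or `MeasurableEquiv.piEquivPiSubtypeProd`, `measure_prod_null`. A convenient general lemma: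
if `S ⊆ Conf N` is measurable and for all `X` the set `{x | Function.update X k x ∈ S}` is null, then `S` is null.
Then `good_of_distinct` (C1).
-/

open MeasureTheory Metric Finset Filter Topology

noncomputable section

namespace Ion

variable {N : ℕ}

/-- Fubini for null sets in one coordinate -/
theorem null_of_slices {S : Set (Conf N)} (hS : MeasurableSet S) (k : Fin N)
    (h : ∀ X : Conf N, volume {x : E3 | Function.update X k x ∈ S} = 0) : volume S = 0 := by
  rcases N with _ | n
  · exact k.elim0
  · have hv := MeasureTheory.volume_preserving_piFinSuccAbove (fun _ : Fin (n + 1) => E3) k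
    set e := MeasurableEquiv.piFinSuccAbove (fun _ : Fin (n + 1) => E3) k with he
    have h1 : volume S = volume (e.symm ⁻¹' S) :=
      ((hv.symm e).measure_preimage hS.nullMeasurableSet).symm
    have hS' : MeasurableSet (e.symm ⁻¹' S) := e.symm.measurable hS
    rw [h1, Measure.volume_eq_prod, Measure.prod_apply_symm hS']
    have h2 : ∀ y : Fin n → E3,
        (volume : Measure E3) ((fun x => ((x, y) : E3 × (Fin n → E3))) ⁻¹' (e.symm ⁻¹' S)) = 0 := by
      intro y
      have h3 := h (Fin.insertNth k (0 : E3) y : Conf (n + 1))
      rw [← h3]
      congr 1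
      ext x
      have h4 : Function.update (Fin.insertNth k (0 : E3) y : Conf (n + 1)) k x
          = e.symm (x, y) := by
        rw [he]
        funext i
        by_cases hi : i = k
        · subst hi
          rw [Function.update_self]
          exact (Fin.insertNth_apply_same (α := fun _ => E3) i x y).symm
        · rw [Function.update_of_ne hi]
          obtain ⟨i', rfl⟩ := Fin.exists_succAbove_eq hi
          exact (Fin.insertNth_apply_succAbove (α := fun _ => E3) k (0 : E3) y i').trans
            (Fin.insertNth_apply_succAbove (α := fun _ => E3) k x y i').symm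
      change e.symm (x, y) ∈ S ↔ Function.update (Fin.insertNth k (0 : E3) y : Conf (n + 1)) k x ∈ S
      rw [h4]
    simp only [h2, lintegral_zero]

theorem C4_ae {S : Set (Conf N)} (hS : MeasurableSet S) (k : Fin N)
    (h : ∀ X : Conf N, volume {x : E3 | Function.update X k x ∈ S} = 0) : ∀ᵐ X : Conf N, X ∉ S := by
  have h1 := null_of_slices hS k h
  rw [ae_iff]
  simpa using h1

theorem ae_distinct : ∀ᵐ X : Conf N, (∀ j, X j ≠ 0) ∧ ∀ j k, j ≠ k → X j ≠ X k := by
  have h1 : ∀ᵐ X : Conf N, ∀ j, X j ≠ 0 := by
    rw [ae_all_iff]
    intro j
    have hm : MeasurableSet {X : Conf N | X j = 0} :=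
      measurableSet_eq_fun (measurable_pi_apply j) measurable_const
    have := C4_ae hm j (by
      intro X
      have : {x : E3 | Function.update X j x ∈ {X : Conf N | X j = 0}} = {0} := by
        ext x
        change Function.update X j x j = 0 ↔ x = 0
        rw [Function.update_self]
      rw [this]
      exact measure_singleton _)
    filter_upwards [this] with X hX
    exact hX
  have h2 : ∀ᵐ X : Conf N, ∀ j k, j ≠ k → X j ≠ X k := by
    rw [ae_all_iff]
    intro j
    rw [ae_all_iff]
    intro k
    by_cases hjk : j = k
    · exact Eventually.of_forall fun X hne => absurd hjk hne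
    · have hm : MeasurableSet {X : Conf N | X j = X k} :=
        measurableSet_eq_fun (measurable_pi_apply j) (measurable_pi_apply k)
      have := C4_ae hm j (by
        intro X
        have h3 : {x : E3 | Function.update X j x ∈ {X : Conf N | X j = X k}} = {X k} := by
          ext x
          change Function.update X j x j = Function.update X j x k ↔ x = X k
          rw [Function.update_self, Function.update_of_ne (Ne.symm hjk)]
        rw [h3]
        exact measure_singleton _)
      filter_upwards [this] with X hX _
      exact hX
  filter_upwards [h1, h2] with X a b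
  exact ⟨a, b⟩

theorem ae_gen {m : ℕ} (hm : 2 ≤ m) (hN : m ≤ N) : ∀ᵐ X : Conf N, Gen m X := by
  have h2 : ∀ᵐ X : Conf N, ∀ l k k', k ≠ k' → k ≠ l → k' ≠ l → ‖X k - X l‖ ≠ ‖X k' - X l‖ := by
    rw [ae_all_iff]
    intro l
    rw [ae_all_iff]
    intro k
    rw [ae_all_iff]
    intro k'
    by_cases hh : k ≠ k' ∧ k ≠ l ∧ k' ≠ l
    · obtain ⟨a, b, c⟩ := hh
      have hmm : MeasurableSet {X : Conf N | ‖X k - X l‖ = ‖X k' - X l‖} :=
        measurableSet_eq_fun ((measurable_pi_apply k).sub (measurable_pi_apply l)).norm
          ((measurable_pi_apply k').sub (measurable_pi_apply l)).norm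
      have := C4_ae hmm k (by
        intro X
        have h3 : {x : E3 | Function.update X k x ∈ {X : Conf N | ‖X k - X l‖ = ‖X k' - X l‖}}
            = sphere (X l) ‖X k' - X l‖ := by
          ext x
          change ‖Function.update X k x k - Function.update X k x l‖
            = ‖Function.update X k x k' - Function.update X k x l‖ ↔ _
          rw [Function.update_self, Function.update_of_ne (Ne.symm b),
            Function.update_of_ne (Ne.symm a), mem_sphere_iff_norm]
        rw [h3]
        exact Measure.addHaar_sphere _ _ _)
      filter_upwards [this] with X hX _ _ _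
      exact hX
    · exact Eventually.of_forall fun X a b c => absurd ⟨a, b, c⟩ hh
  filter_upwards [ae_distinct, h2] with X a b
  exact ⟨good_of_distinct hm hN a.1 a.2, b⟩

end Ion
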