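import Pool.Agent.Lib.MP_69e010_mp.C3
import Pool.Agent.Lib.MP_69e010_mp.B6

/-!
# JOB C5: bridges between configuration functions and trap systems

* `cSys_*`: definitional (`rfl`, or unfolding).
* `vSys_v_some`: the vector `f o = v` of the small system on `some i` and `f none = vy m X y` solves the equation of `vSys` (`v_unique`): for `some i` the virtual trap contributes nothing (strength `0`);
  for `none` it is the formula `vy = 1 - ∑ ν_j av(φ_j)` (`av_FF` of B1; `uc m X = (cSys ..).u (sc m X)` = `FF 1 _`).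
* `vSys_GG_some`: the same with `GG_unique`.
-/

open MeasureTheory Metric Finset Filter Topology

noncomputable section

namespace Ion

variable {N : ℕ}

theorem C5_adm5 {ι : Type} [Fintype ι] {m : ℕ} (hm : 1 ≤ m) {S : Sys ι m} {t : ι → ℝ} (h : S.Adm (ea m ^ 12) t) :
    S.Adm (ea m ^ 5) t := by
  intro j
  refine ⟨(h j).1, (h j).2.trans ?_⟩
  refine mul_le_mul_of_nonneg_right ?_ (S.dj_pos j).le
  exact pow_le_pow_of_le_one (ea_pos hm).le ((ea_le hm).trans (by norm_num)) (by norm_num)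

theorem cSys_v {m : ℕ} (hm : 1 ≤ m) (hN : m ≤ N) (X : Conf N) (hX : Good m X) (i : Fin N) :
    (cSys hm hN X hX).v (sc m X) i = vc m X i := by
  rfl

theorem cSys_GG {m : ℕ} (hm : 1 ≤ m) (hN : m ≤ N) (X : Conf N) (hX : Good m X) (i l : Fin N) :
    (cSys hm hN X hX).GG (sc m X) i l = Gc m X i l := by
  rfl

theorem cSys_u {m : ℕ} (hm : 1 ≤ m) (hN : m ≤ N) (X : Conf N) (hX : Good m X) (y : E3) :
    (cSys hm hN X hX).u (sc m X) y = uc m X y := by
  rfl

theorem C5_vy {m : ℕ} (hm : 1 ≤ m) (hN : m ≤ N) (X : Conf N) (hX : Good m X) (y : E3) (hy : y ≠ 0) :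
    vy m X y = 1 - ∑ j, sc m X j * vc m X j * av y (ea m * dd m X y) (ph (X j) (ea m * dc m X j)) := by
  have hr : 0 < ea m * dd m X y := mul_pos (ea_pos hm) (dd_pos hm hN hX hy)
  exact (cSys hm hN X hX).av_FF hm 1 (fun j => sc m X j * vc m X j) y hr

/-- the candidate solution of the extended system -/
def C5_f (m : ℕ) (X : Conf N) (y : E3) (o : Option (Fin N)) : ℝ := o.elim (vy m X y) (vc m X)

theorem C5_v_eq {m : ℕ} (hm : 1 ≤ m) (hN : m ≤ N) (X : Conf N) (hX : Good m X) (y : E3) (hy : y ≠ 0) :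
    C5_f m X y = (vSys hm hN X hX y hy).v (vstr m X) := by
  refine (vSys hm hN X hX y hy).v_unique hm (C5_adm5 hm (vstr_adm hm hN X hX y hy)) ?_
  intro o
  rw [Fintype.sum_option]
  have h0 : vstr m X none = 0 := rfl
  rw [h0, zero_mul, mul_zero, zero_add]
  rcases o with _ | i
  · show vy m X y + ∑ j, (vSys hm hN X hX y hy).K none (some j) * (sc m X j * vc m X j) = 1
    rw [C5_vy hm hN X hX y hy]
    have : ∀ j, (vSys hm hN X hX y hy).K none (some j) * (sc m X j * vc m X j)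
        = sc m X j * vc m X j * av y (ea m * dd m X y) (ph (X j) (ea m * dc m X j)) := by
      intro j
      rw [mul_comm]
      rfl
    rw [Finset.sum_congr rfl (fun j _ => this j)]
    ring
  · show vc m X i + ∑ j, (vSys hm hN X hX y hy).K (some i) (some j) * (sc m X j * vc m X j) = 1
    exact (cSys hm hN X hX).v_eq hm (C5_adm5 hm (sc_adm hm hN X hX)) i

theorem vSys_v_some {m : ℕ} (hm : 1 ≤ m) (hN : m ≤ N) (X : Conf N) (hX : Good m X) (y : E3) (hy : y ≠ 0)
    (i : Fin N) : (vSys hm hN X hX y hy).v (vstr m X) (some i) = vc m X i := by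
  rw [← C5_v_eq hm hN X hX y hy]
  rfl

theorem vSys_v_none {m : ℕ} (hm : 1 ≤ m) (hN : m ≤ N) (X : Conf N) (hX : Good m X) (y : E3) (hy : y ≠ 0) :
    (vSys hm hN X hX y hy).v (vstr m X) none = vy m X y := by
  rw [← C5_v_eq hm hN X hX y hy]
  rfl

theorem vSys_GG_some {m : ℕ} (hm : 1 ≤ m) (hN : m ≤ N) (X : Conf N) (hX : Good m X) (y : E3) (hy : y ≠ 0)
    (i l : Fin N) : (vSys hm hN X hX y hy).GG (vstr m X) (some i) (some l) = Gc m X i l := by
  have h := (cSys hm hN X hX).GG_unique hm (C5_adm5 hm (sc_adm hm hN X hX))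
    (f := fun i => (vSys hm hN X hX y hy).GG (vstr m X) (some i) (some l)) (l := l) ?_ i
  · exact h
  · intro i
    have h1 := (vSys hm hN X hX y hy).GG_eq hm (C5_adm5 hm (vstr_adm hm hN X hX y hy)) (some i) (some l)
    rw [Fintype.sum_option] at h1
    have h0 : vstr m X none = 0 := rfl
    rw [h0, zero_mul, mul_zero, zero_add] at h1
    exact h1

/-- summary of signs for configurations -/
theorem vc_pos {m : ℕ} (hm : 1 ≤ m) (hN : m ≤ N) {X : Conf N} (hX : Good m X) (i : Fin N) : 0 < vc m X i :=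
  (cSys hm hN X hX).v_pos hm (C5_adm5 hm (sc_adm hm hN X hX)) i

theorem vc_le_one {m : ℕ} (hm : 1 ≤ m) (hN : m ≤ N) {X : Conf N} (hX : Good m X) (i : Fin N) : vc m X i ≤ 1 :=
  (cSys hm hN X hX).v_le_one hm (C5_adm5 hm (sc_adm hm hN X hX)) i

theorem nuc_pos {m : ℕ} (hm : 1 ≤ m) (hN : m ≤ N) {X : Conf N} (hX : Good m X) (i : Fin N) : 0 < nuc m X i := by
  have h1 : 0 < tau m (X i) := lt_min (pow_pos (ea_pos hm) 12) (norm_pos_iff.2 (hX.1 i))
  have h2 : 0 < dc m X i := dd_pos hm hN hX (hX.1 i)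
  exact mul_pos (mul_pos h1 h2) (vc_pos hm hN hX i)

theorem Gc_nonneg {m : ℕ} (hm : 1 ≤ m) (hN : m ≤ N) {X : Conf N} (hX : Good m X) (i l : Fin N) : 0 ≤ Gc m X i l :=
  (cSys hm hN X hX).GG_nonneg hm (C5_adm5 hm (sc_adm hm hN X hX)) i l

theorem uc_pos {m : ℕ} (hm : 1 ≤ m) (hN : m ≤ N) {X : Conf N} (hX : Good m X) (y : E3) : 0 < uc m X y :=
  (cSys hm hN X hX).u_pos hm (C5_adm5 hm (sc_adm hm hN X hX)) y

theorem uc_continuous {m : ℕ} (hm : 1 ≤ m) (hN : m ≤ N) {X : Conf N} (hX : Good m X) : Continuous (uc m X) :=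
  (cSys hm hN X hX).u_continuous hm (sc m X)

/-- `∑ ν_i / |x_i| = 1 - u(0) ≤ 1` -/
theorem sum_nu_div {m : ℕ} (hm : 1 ≤ m) (hN : m ≤ N) {X : Conf N} (hX : Good m X) :
    ∑ i, nuc m X i / ‖X i‖ = 1 - uc m X 0 := by
  have h : uc m X 0 = 1 - ∑ i, nuc m X i / ‖X i‖ := by
    show 1 - ∑ j, sc m X j * vc m X j * (cSys hm hN X hX).phi j 0 = _
    congr 1
    refine Finset.sum_congr rfl fun j _ => ?_
    rw [(cSys hm hN X hX).phi_zero hm j, div_eq_mul_inv]
    rfl
  rw [h]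
  ring

end Ion
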