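import Pool.Agent.Lib.MP_69e010_mp.QDefs

/-!
# MP_69e010_mp: definitions for configurations
-/

open MeasureTheory Metric Finset Filter Topology

noncomputable section

namespace Ion

variable {N : ℕ}

/-- distance from `y` to the `m`-th nearest electron -/
def DD (m : ℕ) (X : Conf N) (y : E3) : ℝ :=
  sInf {r : ℝ | 0 ≤ r ∧ m ≤ (univ.filter fun j => ‖X j - y‖ ≤ r).card}

/-- scale function `d(y) = min (D(y), |y|/4)` -/
def dd (m : ℕ) (X : Conf N) (y : E3) : ℝ := min (DD m X y) (‖y‖ / 4)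

/-- good configurations -/
def Good (m : ℕ) (X : Conf N) : Prop := (∀ j, X j ≠ 0) ∧ ∀ j, 0 < DD m X (X j)

/-- `d_j` -/
def dc (m : ℕ) (X : Conf N) (j : Fin N) : ℝ := dd m X (X j)

/-- `ε = ea ^ 12` -/
def eps (m : ℕ) : ℝ := ea m ^ 12

/-- `min (ε, |y|)` -/
def tau (m : ℕ) (y : E3) : ℝ := min (eps m) ‖y‖

/-- strengths `s_j = d_j min (ε, |x_j|)` -/
def sc (m : ℕ) (X : Conf N) (j : Fin N) : ℝ := tau m (X j) * dc m X j

/-- matrix `k_ij` -/
def Kc (m : ℕ) (X : Conf N) : Matrix (Fin N) (Fin N) ℝ :=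
  fun i j => av (X i) (ea m * dc m X i) (ph (X j) (ea m * dc m X j))

/-- resolvent -/
def Mc (m : ℕ) (X : Conf N) : Matrix (Fin N) (Fin N) ℝ :=
  (1 + Kc m X * Matrix.diagonal (sc m X))⁻¹

/-- Green matrix -/
def Gc (m : ℕ) (X : Conf N) : Matrix (Fin N) (Fin N) ℝ := Mc m X * Kc m X

/-- `v_i` -/
def vc (m : ℕ) (X : Conf N) (i : Fin N) : ℝ := ∑ j, Mc m X i j

/-- weights `ν_i = s_i v_i` -/
def nuc (m : ℕ) (X : Conf N) (i : Fin N) : ℝ := sc m X i * vc m X i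

/-- `u(y) = 1 - ∑ ν_j φ_j(y)` -/
def uc (m : ℕ) (X : Conf N) (y : E3) : ℝ :=
  1 - ∑ j, sc m X j * vc m X j * ph (X j) (ea m * dc m X j) y

/-- `v(y)`: average of `u` over `B(y, ea d(y))` -/
def vy (m : ℕ) (X : Conf N) (y : E3) : ℝ := av y (ea m * dd m X y) (uc m X)

/-- `s(y) = d(y) min (ε, |y|)` -/
def sy (m : ℕ) (X : Conf N) (y : E3) : ℝ := tau m y * dd m X y

/-- electrons whose ball changes when electron `k` moves a little -/
def aff (m : ℕ) (X : Conf N) (k : Fin N) : Finset (Fin N) :=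
  univ.filter fun l => l = k ∨ (‖X k - X l‖ = DD m X (X l) ∧ DD m X (X l) ≤ ‖X l‖ / 4)

/-- generic configurations -/
def Gen (m : ℕ) (X : Conf N) : Prop :=
  Good m X ∧ ∀ l k k', k ≠ k' → k ≠ l → k' ≠ l → ‖X k - X l‖ ≠ ‖X k' - X l‖

/-- one-sided local Lipschitz bound in the position of electron `k` -/
def Slope (F : Conf N → ℝ) (X : Conf N) (k : Fin N) (L : ℝ) : Prop :=
  ∀ᶠ x' in 𝓝 (X k), |F (Function.update X k x') - F X| ≤ L * ‖x' - X k‖

end Ion
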