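import Mathlib

/-!
# MP_69e010_mp (maximal ionization): basic definitions of the deterministic part

Averages over balls of `ℝ³`, potentials of uniform balls, trap systems.
-/

open MeasureTheory Metric Finset

noncomputable section

namespace Ion

/-- three dimensional space -/
abbrev E3 := EuclideanSpace ℝ (Fin 3)

/-- average of `F` over the open ball `B(p, r)` -/
def av (p : E3) (r : ℝ) (F : E3 → ℝ) : ℝ :=
  (volume.real (ball p r))⁻¹ * ∫ w in ball p r, F w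

/-- potential of the uniform probability measure of the ball `B(p, r)` -/
def ph (p : E3) (r : ℝ) (y : E3) : ℝ :=
  if r ≤ ‖y - p‖ then ‖y - p‖⁻¹ else (3 * r ^ 2 - ‖y - p‖ ^ 2) / (2 * r ^ 3)

/-- the small constant `1 / (100 m)` -/
def ea (m : ℕ) : ℝ := 1 / (100 * (m : ℝ))

/-- A trap system: centers `x j`, and a scale function `d`. -/
structure Sys (ι : Type) [Fintype ι] (m : ℕ) where
  /-- centers -/
  x : ι → E3
  /-- scale function -/
  d : E3 → ℝ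
  lip : ∀ y y', |d y - d y'| ≤ ‖y - y'‖
  pos : ∀ y, y ≠ 0 → 0 < d y
  le : ∀ y, d y ≤ ‖y‖ / 4
  card : ∀ y, (univ.filter fun j => ‖x j - y‖ < d y).card ≤ m
  ne : ∀ j, x j ≠ 0

namespace Sys

variable {ι : Type} [Fintype ι] {m : ℕ} (S : Sys ι m)

/-- `d_j` -/
def dj (j : ι) : ℝ := S.d (S.x j)

/-- radius `δ_j = d_j / (100 m)` -/
def del (j : ι) : ℝ := ea m * S.dj j

/-- `φ_j` -/
def phi (j : ι) (y : E3) : ℝ := ph (S.x j) (S.del j) y

/-- average over the ball `B_j` -/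
def avj (j : ι) (F : E3 → ℝ) : ℝ := av (S.x j) (S.del j) F

/-- `F_{c,b} = c - ∑ b_j φ_j` -/
def FF (c : ℝ) (b : ι → ℝ) (y : E3) : ℝ := c - ∑ j, b j * S.phi j y

/-- the matrix `k_ij` -/
def K : Matrix ι ι ℝ := fun i j => S.avj i (S.phi j)

/-- `ρ` is a gap radius at `y`. -/
def Gap (y : E3) (ρ : ℝ) : Prop :=
  S.d y / 2 ≤ ρ ∧ ρ ≤ 3 / 4 * S.d y ∧
    ∀ j, ‖S.x j - y‖ + S.del j ≤ ρ ∨ ρ ≤ ‖S.x j - y‖ - S.del j

/-- the near traps -/
def near (y : E3) (ρ : ℝ) : Finset ι := univ.filter fun j => ‖S.x j - y‖ + S.del j ≤ ρ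

/-- admissible strengths: `0 ≤ t_j ≤ τ d_j` -/
def Adm (τ : ℝ) (t : ι → ℝ) : Prop := ∀ j, 0 ≤ t j ∧ t j ≤ τ * S.dj j

/-- `H = F + ∑_near t_j F̄_j φ_j` -/
def HH (c : ℝ) (b t : ι → ℝ) (y : E3) (ρ : ℝ) (w : E3) : ℝ :=
  S.FF c b w + ∑ j ∈ S.near y ρ, t j * S.avj j (S.FF c b) * S.phi j w

variable [DecidableEq ι]

/-- the resolvent `(1 + K T)⁻¹` -/
def MM (t : ι → ℝ) : Matrix ι ι ℝ := (1 + S.K * Matrix.diagonal t)⁻¹

/-- `v = (1 + K T)⁻¹ 1` -/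
def v (t : ι → ℝ) (i : ι) : ℝ := ∑ j, S.MM t i j

/-- Green matrix `(1 + K T)⁻¹ K` -/
def GG (t : ι → ℝ) : Matrix ι ι ℝ := S.MM t * S.K

/-- `u = 1 - ∑ t_j v_j φ_j` -/
def u (t : ι → ℝ) (y : E3) : ℝ := S.FF 1 (fun j => t j * S.v t j) y

/-- Green function with pole at the trap `l` -/
def g (t : ι → ℝ) (l : ι) (y : E3) : ℝ := S.FF 0 (fun j => t j * S.GG t j l - if j = l then 1 else 0) y

end Sys

end Ion
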