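import Pool.Agent.Lib.MP_69e010_mp.CDefs

/-!
# JOB I0: slopes

`Slope F X k L`: for `x'` near `X k`: `|F (update X k x') - F X| ≤ L ‖x' - X k‖`.
* `fderiv_le_of_slope`: along `t ↦ update X k (X k + t e) = X + t • Pi.single k e` the difference quotient is bounded by `L ‖e‖` for small `t`, so `|fderiv ℝ F X (Pi.single k e)| ≤ L ‖e‖`.
* `gsq_le_of_slope`: `gsq k F X = ∑_c (ℓ e_c)²` with `ℓ e = fderiv ℝ F X (Pi.single k e)` linear; take `e = ∑ (ℓ e_c) e_c`: `∑ (ℓ e_c)² = ℓ e ≤ L ‖e‖ = L √(∑ (ℓ e_c)²)`.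
* `lip_of_slope`: changing one electron from `x` to `x'`: the function `t ↦ F (update X k (x + t (x'-x)))` on `[0,1]` has at every point `t` a neighbourhood where `|f(t') - f(t)| ≤ L ‖x'-x‖ |t'-t|`; such a function is
  Lipschitz with the same constant (e.g. the supremum of all `t` for which `|f t - f 0| ≤ L‖x'-x‖ t`, or `image_norm_le_of_norm_deriv_right_le...`-type lemmas, or compactness). Then change the electrons one after
  the other (`N` steps, induction over a `Finset`, `Function.update`/`Finset.piecewise`), `‖X k - Y k‖ ≤ dist X Y`.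
* `slope_mul`: `|F'G' - FG| ≤ |F'-F| |G'| + |F| |G'-G|`, and `|G'| ≤ |G| + δ` near `X k` (from the slope bound for `G`).
-/

open MeasureTheory Metric Finset Filter Topology

noncomputable section

namespace Ion

variable {N : ℕ}

/-- the gradient of `F` in the electron `k` -/
theorem I0_hasFDerivAt {F : Conf N → ℝ} {X : Conf N} (k : Fin N) (hF : DifferentiableAt ℝ F X) :
    HasFDerivAt (fun x' : E3 => F (Function.update X k x'))
      ((fderiv ℝ F X).comp (ContinuousLinearMap.pi (Pi.single k (ContinuousLinearMap.id ℝ E3)))) (X k) := by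
  have h1 : HasFDerivAt F (fderiv ℝ F X) (Function.update X k (X k)) := by
    rw [Function.update_eq_self]; exact hF.hasFDerivAt
  exact h1.comp (X k) (hasFDerivAt_update X (X k))

theorem I0_single (k : Fin N) (e : E3) :
    (ContinuousLinearMap.pi (Pi.single k (ContinuousLinearMap.id ℝ E3)) : E3 →L[ℝ] Conf N) e = Pi.single k e := by
  funext j
  by_cases h : j = k
  · subst h; simp
  · simp [Pi.single_eq_of_ne h]

theorem I0_nonneg {F : Conf N → ℝ} {X : Conf N} {k : Fin N} {L : ℝ} (hS : Slope F X k L) : 0 ≤ L := by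
  by_contra hL
  push Not at hL
  have h2 : ∀ᶠ x' in 𝓝[≠] (X k), |F (Function.update X k x') - F X| ≤ L * ‖x' - X k‖ :=
    hS.filter_mono nhdsWithin_le_nhds
  have h3 : ∀ᶠ x' in 𝓝[≠] (X k), x' ≠ X k := self_mem_nhdsWithin
  obtain ⟨x', h4, h5⟩ := (h2.and h3).exists
  have h6 : 0 < ‖x' - X k‖ := norm_pos_iff.mpr (sub_ne_zero.mpr h5)
  have h7 := abs_nonneg (F (Function.update X k x') - F X)
  nlinarith

theorem fderiv_le_of_slope {F : Conf N → ℝ} {X : Conf N} {k : Fin N} {L : ℝ} (hF : DifferentiableAt ℝ F X)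
    (hS : Slope F X k L) (e : E3) : |fderiv ℝ F X (Pi.single k e)| ≤ L * ‖e‖ := by
  have hL := I0_nonneg hS
  have h1 := (I0_hasFDerivAt k hF).le_of_lip' hL (by
    filter_upwards [hS] with x' hx'
    rw [Function.update_eq_self]
    simpa [Real.norm_eq_abs] using hx')
  have h2 := ContinuousLinearMap.le_of_opNorm_le _ h1 e
  rw [ContinuousLinearMap.comp_apply, I0_single, Real.norm_eq_abs] at h2
  exact h2

/-- the gradient vector -/
def I0_grad (F : Conf N → ℝ) (X : Conf N) (k : Fin N) : E3 :=
  ∑ c : Fin 3, pd k c F X • EuclideanSpace.single c (1 : ℝ)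

theorem I0_grad_apply (F : Conf N → ℝ) (X : Conf N) (k : Fin N) (c : Fin 3) :
    I0_grad F X k c = pd k c F X := by
  unfold I0_grad
  simp [Fin.sum_univ_three]
  fin_cases c <;> simp

theorem I0_norm_grad (F : Conf N → ℝ) (X : Conf N) (k : Fin N) :
    ‖I0_grad F X k‖ ^ 2 = gsq k F X := by
  rw [EuclideanSpace.norm_sq_eq]
  unfold gsq
  refine Finset.sum_congr rfl fun c _ => ?_
  rw [I0_grad_apply, Real.norm_eq_abs, sq_abs]

theorem I0_fderiv_grad (F : Conf N → ℝ) (X : Conf N) (k : Fin N) :
    fderiv ℝ F X (Pi.single k (I0_grad F X k)) = gsq k F X := by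
  have h1 : (Pi.single k (I0_grad F X k) : Conf N)
      = ∑ c : Fin 3, pd k c F X • (Pi.single k (EuclideanSpace.single c (1 : ℝ)) : Conf N) := by
    unfold I0_grad
    funext j
    by_cases h : j = k
    · subst h; simp
    · simp [Pi.single_eq_of_ne h]
  rw [h1, map_sum]
  unfold gsq
  refine Finset.sum_congr rfl fun c _ => ?_
  rw [map_smul, smul_eq_mul]
  unfold pd
  ring

theorem gsq_le_of_slope {F : Conf N → ℝ} {X : Conf N} {k : Fin N} {L : ℝ} (hL : 0 ≤ L) (hF : DifferentiableAt ℝ F X)
    (hS : Slope F X k L) : gsq k F X ≤ L ^ 2 := by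
  have h1 := fderiv_le_of_slope hF hS (I0_grad F X k)
  rw [I0_fderiv_grad, ← I0_norm_grad, abs_of_nonneg (by positivity)] at h1
  rw [← I0_norm_grad]
  have h2 := norm_nonneg (I0_grad F X k)
  by_cases h3 : ‖I0_grad F X k‖ = 0
  · rw [h3]; nlinarith [sq_nonneg L]
  · have h4 : 0 < ‖I0_grad F X k‖ := lt_of_le_of_ne h2 (Ne.symm h3)
    have h5 : ‖I0_grad F X k‖ ≤ L := by
      by_contra h6
      push Not at h6
      nlinarith
    exact pow_le_pow_left₀ h2 h5 2

/-- local to global on an interval -/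
theorem I0_interval {f : ℝ → ℝ} {M : ℝ}
    (hf : ∀ t, ∀ᶠ s in 𝓝 t, |f s - f t| ≤ M * |s - t|) : |f 1 - f 0| ≤ M := by
  have hc : Continuous f := by
    rw [continuous_iff_continuousAt]
    intro t
    rw [ContinuousAt, tendsto_iff_norm_sub_tendsto_zero]
    refine squeeze_zero' (Eventually.of_forall fun s => norm_nonneg _) (hf t) ?_
    have h1 : Continuous fun s : ℝ => M * |s - t| := by fun_prop
    have h2 := h1.tendsto t
    simpa using h2
  have hs : IsClosed {t : ℝ | |f t - f 0| ≤ M * t} := isClosed_le (by fun_prop) (by fun_prop)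
  have h := IsClosed.Icc_subset_of_forall_exists_gt (a := (0 : ℝ)) (b := 1)
    (s := {t : ℝ | |f t - f 0| ≤ M * t}) (hs.inter isClosed_Icc) (by simp) (by
      rintro x ⟨hx1, hx2⟩ y hy
      have h1 : ∀ᶠ s in 𝓝[>] x, |f s - f x| ≤ M * |s - x| := (hf x).filter_mono nhdsWithin_le_nhds
      have h2 : ∀ᶠ s in 𝓝[>] x, s ∈ Set.Ioc x y := Ioc_mem_nhdsGT hy
      obtain ⟨s, h3, h4⟩ := (h1.and h2).exists
      refine ⟨s, ?_, h4⟩
      simp only [Set.mem_ofPred_eq] at hx1 ⊢
      rw [abs_of_pos (sub_pos.mpr h4.1)] at h3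
      calc |f s - f 0| = |(f s - f x) + (f x - f 0)| := by ring_nf
        _ ≤ |f s - f x| + |f x - f 0| := abs_add_le _ _
        _ ≤ M * (s - x) + M * x := add_le_add h3 hx1
        _ = M * s := by ring)
  have h1 := h (Set.right_mem_Icc.mpr zero_le_one)
  simpa using h1

theorem I0_update {F : Conf N → ℝ} {L : ℝ} (hL : 0 ≤ L) (hF : ∀ X k, Slope F X k L) (X : Conf N) (k : Fin N)
    (y : E3) : |F (Function.update X k y) - F X| ≤ L * ‖y - X k‖ := by
  have h := I0_interval (f := fun t : ℝ => F (Function.update X k (X k + t • (y - X k))))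
    (M := L * ‖y - X k‖) (by
      intro t
      have h1 := hF (Function.update X k (X k + t • (y - X k))) k
      unfold Slope at h1
      rw [Function.update_self] at h1
      have h2 : Tendsto (fun s : ℝ => X k + s • (y - X k)) (𝓝 t) (𝓝 (X k + t • (y - X k))) := by
        have : Continuous fun s : ℝ => X k + s • (y - X k) := by fun_prop
        exact this.tendsto t
      filter_upwards [h2.eventually h1] with s hs
      rw [Function.update_idem] at hs
      refine hs.trans (le_of_eq ?_)
      have h3 : X k + s • (y - X k) - (X k + t • (y - X k)) = (s - t) • (y - X k) := by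
        rw [sub_smul]; abel
      rw [h3, norm_smul, Real.norm_eq_abs]
      ring)
  simpa using h

theorem lip_of_slope {F : Conf N → ℝ} {L : ℝ} (hL : 0 ≤ L) (hF : ∀ X k, Slope F X k L) (X Y : Conf N) :
    |F X - F Y| ≤ N * L * dist X Y := by
  have h : ∀ s : Finset (Fin N), |F (s.piecewise Y X) - F X| ≤ s.card * (L * dist X Y) := by
    intro s
    induction s using Finset.induction_on with
    | empty => simp
    | insert k s hk ih =>
      rw [Finset.piecewise_insert, Finset.card_insert_of_notMem hk]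
      have h1 := I0_update hL hF (s.piecewise Y X) k (Y k)
      rw [Finset.piecewise_eq_of_notMem s _ _ hk] at h1
      have h2 : ‖Y k - X k‖ ≤ dist X Y := by
        rw [← dist_eq_norm, dist_comm]
        exact dist_le_pi_dist X Y k
      have h3 : L * ‖Y k - X k‖ ≤ L * dist X Y := mul_le_mul_of_nonneg_left h2 hL
      calc |F (Function.update (s.piecewise Y X) k (Y k)) - F X|
          = |(F (Function.update (s.piecewise Y X) k (Y k)) - F (s.piecewise Y X))
              + (F (s.piecewise Y X) - F X)| := by ring_nf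
        _ ≤ _ + _ := abs_add_le _ _
        _ ≤ L * dist X Y + s.card * (L * dist X Y) := add_le_add (h1.trans h3) ih
        _ = _ := by push_cast; ring
  have h1 := h Finset.univ
  rw [Finset.piecewise_univ, Finset.card_univ, Fintype.card_fin] at h1
  rw [abs_sub_comm, mul_assoc]
  exact h1

theorem slope_mul {F G : Conf N → ℝ} {X : Conf N} {k : Fin N} {a b c : ℝ} (ha : 0 ≤ a) (hb : 0 ≤ b)
    (hF : Slope F X k a) (hG : Slope G X k b) (hc : a * |G X| + |F X| * b < c) :
    Slope (fun Y => F Y * G Y) X k c := by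
  have h0 : Tendsto (fun x' : E3 => a * b * ‖x' - X k‖) (𝓝 (X k)) (𝓝 0) := by
    have : Continuous fun x' : E3 => a * b * ‖x' - X k‖ := by fun_prop
    have h1 := this.tendsto (X k)
    simpa using h1
  have h1 : ∀ᶠ x' in 𝓝 (X k), a * b * ‖x' - X k‖ < c - (a * |G X| + |F X| * b) :=
    h0.eventually (gt_mem_nhds (by linarith))
  unfold Slope at *
  filter_upwards [hF, hG, h1] with x' h2 h3 h4
  have h5 := norm_nonneg (x' - X k)
  have h6 : |G (Function.update X k x')| ≤ |G X| + b * ‖x' - X k‖ := by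
    have := abs_add_le (G (Function.update X k x') - G X) (G X)
    rw [sub_add_cancel] at this
    linarith
  have h7 : F (Function.update X k x') * G (Function.update X k x') - F X * G X
      = (F (Function.update X k x') - F X) * G (Function.update X k x')
        + F X * (G (Function.update X k x') - G X) := by ring
  rw [h7]
  refine (abs_add_le _ _).trans ?_
  rw [abs_mul, abs_mul]
  have h8 : |F (Function.update X k x') - F X| * |G (Function.update X k x')|
      ≤ (a * ‖x' - X k‖) * (|G X| + b * ‖x' - X k‖) :=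
    mul_le_mul h2 h6 (abs_nonneg _) (by positivity)
  have h9 : |F X| * |G (Function.update X k x') - G X| ≤ |F X| * (b * ‖x' - X k‖) :=
    mul_le_mul_of_nonneg_left h3 (abs_nonneg _)
  nlinarith

/-- a function which is Lipschitz has slopes -/
theorem slope_of_lip {F : Conf N → ℝ} {K : NNReal} (hF : LipschitzWith K F) (X : Conf N) (k : Fin N) :
    Slope F X k K := by
  unfold Slope
  refine Eventually.of_forall fun x' => ?_
  have h1 := hF.dist_le_mul (Function.update X k x') X
  rw [Real.dist_eq] at h1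
  refine h1.trans (mul_le_mul_of_nonneg_left ?_ K.2)
  rw [dist_pi_le_iff (norm_nonneg _)]
  intro j
  by_cases h : j = k
  · subst h; rw [Function.update_self, dist_eq_norm]
  · rw [Function.update_of_ne h, dist_self]; exact norm_nonneg _

/-- total gradient bound for functions of a sup-norm Lipschitz quantity: `∑_k |∇_k F| ≤ K` -/
theorem sum_gsq_le_of_lip {F : Conf N → ℝ} {K : NNReal} (hF : LipschitzWith K F) {X : Conf N}
    (hX : DifferentiableAt ℝ F X) : ∑ k, gsq k F X ≤ (K : ℝ) ^ 2 := by
  have h1 : ‖fderiv ℝ F X‖ ≤ K := norm_fderiv_le_of_lipschitz ℝ hF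
  set w : Conf N := fun k => ‖I0_grad F X k‖⁻¹ • I0_grad F X k with hw
  have h2 : ‖w‖ ≤ 1 := by
    rw [pi_norm_le_iff_of_nonneg zero_le_one]
    intro k
    rw [hw, norm_smul, norm_inv, norm_norm]
    exact inv_mul_le_one
  have h3 : fderiv ℝ F X w = ∑ k, ‖I0_grad F X k‖ := by
    have h4 : w = ∑ k, (‖I0_grad F X k‖⁻¹ • (Pi.single k (I0_grad F X k) : Conf N)) := by
      funext j
      rw [Finset.sum_apply, Finset.sum_eq_single j]
      · simp [hw]
      · intro b _ hb
        simp [Pi.single_eq_of_ne hb.symm]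
      · intro h; exact absurd (Finset.mem_univ j) h
    rw [h4, map_sum]
    refine Finset.sum_congr rfl fun k _ => ?_
    rw [map_smul, I0_fderiv_grad, ← I0_norm_grad, smul_eq_mul]
    by_cases h5 : ‖I0_grad F X k‖ = 0
    · simp [h5]
    · field_simp
  have h4 : ∑ k, ‖I0_grad F X k‖ ≤ K := by
    rw [← h3]
    calc fderiv ℝ F X w ≤ ‖fderiv ℝ F X w‖ := le_abs_self _
      _ ≤ ‖fderiv ℝ F X‖ * ‖w‖ := ContinuousLinearMap.le_opNorm _ _
      _ ≤ K * 1 := mul_le_mul h1 h2 (norm_nonneg _) K.2
      _ = K := mul_one _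
  calc ∑ k, gsq k F X = ∑ k, ‖I0_grad F X k‖ ^ 2 := by
        refine Finset.sum_congr rfl fun k _ => (I0_norm_grad F X k).symm
    _ ≤ (∑ k, ‖I0_grad F X k‖) ^ 2 := by
        rw [sq (∑ k, ‖I0_grad F X k‖), Finset.sum_mul]
        refine Finset.sum_le_sum fun k _ => ?_
        rw [sq]
        exact mul_le_mul_of_nonneg_left
          (Finset.single_le_sum (f := fun k => ‖I0_grad F X k‖) (fun i _ => norm_nonneg _) (Finset.mem_univ k))
          (norm_nonneg _)
    _ ≤ (K : ℝ) ^ 2 := pow_le_pow_left₀ (Finset.sum_nonneg fun _ _ => norm_nonneg _) h4 2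

end Ion
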