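import Pool.Agent.Lib.MP_69e010_mp.IDefs
import Pool.Agent.Lib.MP_69e010_mp.I0

/-!
# JOB I1: the cut off weights `g_i = √ν_i ζ` are Lipschitz with compact support

Let `hζ : Cut m h Ri ζ`, `0 < h`, `2 ≤ m ≤ N`. Let `K` be a Lipschitz constant of `ζ`.
* bound: `0 ≤ gw ≤ √Ri ζ ≤ √Ri` (`nuc_le`: `ν_i ≤ ‖X i‖ ≤ Ri` where `ζ ≠ 0`).
* slope at `X` with `ζ X ≠ 0`: `slope_sqrt_nu` with `Lc_crude` (`L₁ = 3/5 (17+12000 N)/h √Ri`) and `slope_of_lip` for `ζ`, `slope_mul` with `c = L₁ + √Ri K + 1`.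
* slope at `X` with `ζ X = 0`: `gw X = 0`, and `|gw X'| ≤ √Ri ζ X' = √Ri (ζ X' - ζ X) ≤ √Ri K ‖X' - X‖`.
* `lip_of_slope`. Compact support: `gw X ≠ 0` implies `‖X j‖ ≤ Ri` for all `j`, a bounded set of `Conf N`; closed bounded sets are compact.
-/

open MeasureTheory Metric Finset Filter Topology

noncomputable section

namespace Ion

variable {N : ℕ}

theorem gw_nonneg {m : ℕ} {h Ri : ℝ} {ζ : Conf N → ℝ} (hζ : Cut m h Ri ζ) (i : Fin N) (X : Conf N) :
    0 ≤ gw m ζ i X := by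
  exact mul_nonneg (Real.sqrt_nonneg _) (hζ.nonneg X)

theorem gw_le {m : ℕ} (hm : 2 ≤ m) (hN : m ≤ N) {h Ri : ℝ} {ζ : Conf N → ℝ} (hζ : Cut m h Ri ζ)
    (i : Fin N) (X : Conf N) : gw m ζ i X ≤ √Ri * ζ X := by
  unfold gw
  by_cases h0 : ζ X = 0
  · rw [h0, mul_zero, mul_zero]
  · obtain ⟨hg, -, hR⟩ := hζ.supp X h0
    exact mul_le_mul_of_nonneg_right
      (Real.sqrt_le_sqrt ((nuc_le hm hN hg i).2.trans (hR i))) (hζ.nonneg X)

theorem I1_compact {m : ℕ} {h Ri : ℝ} {ζ F : Conf N → ℝ} (hζ : Cut m h Ri ζ) (hF : ∀ X, ζ X = 0 → F X = 0) :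
    HasCompactSupport F := by
  refine HasCompactSupport.intro (K := closedBall (0 : Conf N) (max Ri 0)) (isCompact_closedBall _ _) ?_
  intro X hX
  apply hF
  by_contra h0
  apply hX
  rw [mem_closedBall, dist_zero_right, pi_norm_le_iff_of_nonneg (le_max_right _ _)]
  exact fun j => ((hζ.supp X h0).2.2 j).trans (le_max_left _ _)

theorem gw_lipC {m : ℕ} (hm : 2 ≤ m) (hN : m ≤ N) {h Ri : ℝ} (hh : 0 < h) {ζ : Conf N → ℝ}
    (hζ : Cut m h Ri ζ) (i : Fin N) : LipC (gw m ζ i) := by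
  obtain ⟨K, hK⟩ := hζ.lip
  have hN0 : (0 : ℝ) ≤ N := Nat.cast_nonneg N
  set L₁ : ℝ := 3 / 5 * ((17 + 12000 * N) / h) * √Ri with hL₁
  have hL₁0 : 0 ≤ L₁ := by positivity
  set c : ℝ := L₁ + √Ri * K + 1 with hc
  have hc0 : 0 ≤ c := by positivity
  have hslope : ∀ X k, Slope (gw m ζ i) X k c := by
    intro X k
    by_cases h0 : ζ X = 0
    · have h1 := slope_of_lip hK X k
      unfold Slope at h1 ⊢
      filter_upwards [h1] with x' hx'
      have hX : gw m ζ i X = 0 := by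
        have h2 := gw_le hm hN hζ i X
        have h3 := gw_nonneg hζ i X
        rw [h0, mul_zero] at h2
        linarith
      rw [hX, sub_zero, abs_of_nonneg (gw_nonneg hζ i _)]
      rw [h0, sub_zero, abs_of_nonneg (hζ.nonneg _)] at hx'
      have h4 := gw_le hm hN hζ i (Function.update X k x')
      have h5 : √Ri * ζ (Function.update X k x') ≤ √Ri * (K * ‖x' - X k‖) :=
        mul_le_mul_of_nonneg_left hx' (Real.sqrt_nonneg _)
      have h6 : 0 ≤ ‖x' - X k‖ := norm_nonneg _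
      nlinarith [mul_nonneg hL₁0 h6]
    · obtain ⟨hg, hd, hR⟩ := hζ.supp X h0
      have h1 := slope_sqrt_nu hm hN hg i k
      have h2 := slope_of_lip hK X k
      obtain ⟨hL0, hL1⟩ := Lc_crude hm hN hg hh hd i k
      have h3 : √(nuc m X i) ≤ √Ri := Real.sqrt_le_sqrt ((nuc_le hm hN hg i).2.trans (hR i))
      have h4 : 0 ≤ √(nuc m X i) := Real.sqrt_nonneg _
      have h5 : 3 / 5 * Lc m X k i * √(nuc m X i) ≤ L₁ := by
        rw [hL₁]
        refine mul_le_mul (by linarith) h3 h4 (by positivity)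
      have h6 : 0 ≤ 3 / 5 * Lc m X k i * √(nuc m X i) := by positivity
      refine slope_mul (F := fun X => √(nuc m X i)) (G := ζ) h6 K.coe_nonneg h1 h2 ?_
      have h7 : |ζ X| ≤ 1 := by
        rw [abs_of_nonneg (hζ.nonneg X)]
        exact hζ.le_one X
      have h8 : |√(nuc m X i)| ≤ √Ri := by rwa [abs_of_nonneg h4]
      have h9 : 3 / 5 * Lc m X k i * √(nuc m X i) * |ζ X| ≤ L₁ * 1 :=
        mul_le_mul h5 h7 (abs_nonneg _) hL₁0
      have h10 : |√(nuc m X i)| * (K : ℝ) ≤ √Ri * K := mul_le_mul_of_nonneg_right h8 K.coe_nonneg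
      linarith
  refine ⟨⟨Real.toNNReal (N * c), LipschitzWith.of_dist_le_mul fun X Y => ?_⟩, ?_⟩
  · rw [Real.coe_toNNReal _ (by positivity), Real.dist_eq]
    exact lip_of_slope hc0 hslope X Y
  · refine I1_compact hζ (fun X hX => ?_)
    unfold gw
    rw [hX, mul_zero]

theorem cut_lipC {m : ℕ} {h Ri : ℝ} {ζ : Conf N → ℝ} (hζ : Cut m h Ri ζ) : LipC ζ := by
  exact ⟨hζ.lip, I1_compact hζ fun X hX => hX⟩

theorem Gt_lipC {m : ℕ} (hm : 2 ≤ m) (hN : m ≤ N) {h Ri : ℝ} (hh : 0 < h) {ζ : Conf N → ℝ}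
    (hζ : Cut m h Ri ζ) : LipC (Gt m ζ) := by
  have hch : ∀ i, ∃ K, LipschitzWith K (gw m ζ i) := fun i => (gw_lipC hm hN hh hζ i).1
  choose K hK using hch
  have hB : ∀ i X, |gw m ζ i X| ≤ √Ri := by
    intro i X
    rw [abs_of_nonneg (gw_nonneg hζ i X)]
    have h1 := gw_le hm hN hζ i X
    have h2 := hζ.le_one X
    have h3 := Real.sqrt_nonneg Ri
    nlinarith
  have hs : 0 ≤ √Ri := Real.sqrt_nonneg Ri
  refine ⟨⟨Real.toNNReal (∑ i, 2 * √Ri * K i), LipschitzWith.of_dist_le_mul fun X Y => ?_⟩, ?_⟩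
  · rw [Real.coe_toNNReal _ (Finset.sum_nonneg fun i _ => by positivity), Real.dist_eq]
    unfold Gt
    rw [← Finset.sum_sub_distrib, Finset.sum_mul]
    refine (Finset.abs_sum_le_sum_abs _ _).trans (Finset.sum_le_sum fun i _ => ?_)
    have h1 : |gw m ζ i X - gw m ζ i Y| ≤ K i * dist X Y := by
      rw [← Real.dist_eq]
      exact (hK i).dist_le_mul X Y
    have h2 : |gw m ζ i X + gw m ζ i Y| ≤ 2 * √Ri := by
      refine (abs_add_le _ _).trans ?_
      linarith [hB i X, hB i Y]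
    have h3 : gw m ζ i X ^ 2 - gw m ζ i Y ^ 2 = (gw m ζ i X + gw m ζ i Y) * (gw m ζ i X - gw m ζ i Y) := by ring
    rw [h3, abs_mul, mul_assoc]
    exact mul_le_mul h2 h1 (abs_nonneg _) (by positivity)
  · refine I1_compact hζ (fun X hX => ?_)
    unfold Gt
    refine Finset.sum_eq_zero fun i _ => ?_
    unfold gw
    rw [hX, mul_zero]
    norm_num

/-- continuity times cutoff is measurable -/
theorem measurable_mul_cut {m : ℕ} (hN : m ≤ N) {h Ri : ℝ} {ζ : Conf N → ℝ} (hζ : Cut m h Ri ζ) {F : Conf N → ℝ}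
    (hF : ContinuousOn F {X | Good m X}) : Measurable fun X => F X * ζ X := by
  classical
  obtain ⟨K, hK⟩ := hζ.lip
  have hop : IsOpen {X : Conf N | ζ X ≠ 0} := isOpen_ne_fun hK.continuous continuous_const
  have h1 : ContinuousOn (fun X => F X * ζ X) {X : Conf N | ζ X ≠ 0} :=
    (hF.mono fun X hX => (hζ.supp X hX).1).mul hK.continuous.continuousOn
  have h2 := h1.measurable_piecewise (g := fun _ => (0 : ℝ)) continuousOn_const hop.measurableSet
  have h3 : (fun X => F X * ζ X) = {X : Conf N | ζ X ≠ 0}.piecewise (fun X => F X * ζ X) fun _ => (0 : ℝ) := by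
    funext X
    by_cases h0 : ζ X = 0
    · rw [Set.piecewise_eq_of_notMem _ _ _ (by simpa using h0), h0, mul_zero]
    · rw [Set.piecewise_eq_of_mem _ _ _ (by simpa using h0)]
  rw [h3]
  exact h2

end Ion
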