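import Pool.Agent.Lib.MP_69e010_mp.QDefs

/-!
# JOB I4: algebra of Lipschitz compactly supported functions

* products and linear combinations of `LipC` functions are `LipC` (a Lipschitz function with compact support is bounded).
* Rademacher: `LipschitzWith.ae_differentiableAt` (`Conf N` is a finite dimensional real normed space, `volume` is an additive Haar measure).
* product rule: `pd k c (F G) = pd k c F · G + F · pd k c G` at points of differentiability (`fderiv_mul`).
* `gin_sq_mul`: with `a = pd F`, `b = pd g`: `a (2 g b F + g² a) = (g a + F b)² - b² F²`.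
* `gsq_mul_le`: `(g a + F b)² ≤ 2 g² a² + 2 F² b²`.
* `abs_pd_le`: `|fderiv F X v| ≤ K ‖v‖`, `‖Pi.single k e_c‖ = 1`.
-/

open MeasureTheory Metric Finset Filter Topology

noncomputable section

namespace Ion

variable {N : ℕ}

theorem LipC.continuous {F : Conf N → ℝ} (hF : LipC F) : Continuous F := by
  obtain ⟨⟨K, hK⟩, _⟩ := hF
  exact hK.continuous

theorem LipC.bddC {F : Conf N → ℝ} (hF : LipC F) : ∃ C, 0 ≤ C ∧ ∀ X, |F X| ≤ C := by
  obtain ⟨C, hC⟩ := hF.2.exists_bound_of_continuous hF.continuous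
  refine ⟨max C 0, le_max_right _ _, fun X => ?_⟩
  exact le_trans (by simpa [Real.norm_eq_abs] using hC X) (le_max_left _ _)

theorem LipC.mulC {F G : Conf N → ℝ} (hF : LipC F) (hG : LipC G) : LipC (fun X => F X * G X) := by
  obtain ⟨CF, hCF0, hCF⟩ := hF.bddC
  obtain ⟨CG, hCG0, hCG⟩ := hG.bddC
  obtain ⟨KF, hKF⟩ := hF.1
  obtain ⟨KG, hKG⟩ := hG.1
  refine ⟨⟨Real.toNNReal CF * KG + Real.toNNReal CG * KF, ?_⟩, ?_⟩
  · refine LipschitzWith.of_dist_le_mul fun X Y => ?_
    have h1 := hKF.dist_le_mul X Y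
    have h2 := hKG.dist_le_mul X Y
    rw [Real.dist_eq] at h1 h2 ⊢
    have e1 : F X * G X - F Y * G Y = F X * (G X - G Y) + G Y * (F X - F Y) := by ring
    rw [e1]
    have h3 : |F X * (G X - G Y) + G Y * (F X - F Y)| ≤ |F X| * |G X - G Y| + |G Y| * |F X - F Y| := by
      refine (abs_add_le _ _).trans ?_
      rw [abs_mul, abs_mul]
    refine h3.trans ?_
    have h4 : |F X| * |G X - G Y| ≤ CF * (KG * dist X Y) :=
      mul_le_mul (hCF X) h2 (abs_nonneg _) hCF0
    have h5 : |G Y| * |F X - F Y| ≤ CG * (KF * dist X Y) :=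
      mul_le_mul (hCG Y) h1 (abs_nonneg _) hCG0
    have e2 : ((Real.toNNReal CF * KG + Real.toNNReal CG * KF : NNReal) : ℝ)
        = CF * KG + CG * KF := by
      rw [NNReal.coe_add, NNReal.coe_mul, NNReal.coe_mul, Real.coe_toNNReal _ hCF0,
        Real.coe_toNNReal _ hCG0]
    rw [e2]
    nlinarith [h4, h5]
  · exact hF.2.mul_right

theorem LipC.addC {F G : Conf N → ℝ} (hF : LipC F) (hG : LipC G) : LipC (fun X => F X + G X) := by
  obtain ⟨KF, hKF⟩ := hF.1
  obtain ⟨KG, hKG⟩ := hG.1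
  exact ⟨⟨KF + KG, hKF.add hKG⟩, hF.2.add hG.2⟩

theorem LipC.cmulC {F : Conf N → ℝ} (hF : LipC F) (c : ℝ) : LipC (fun X => c * F X) := by
  obtain ⟨KF, hKF⟩ := hF.1
  refine ⟨⟨Real.toNNReal |c| * KF, ?_⟩, ?_⟩
  · refine LipschitzWith.of_dist_le_mul fun X Y => ?_
    have h1 := hKF.dist_le_mul X Y
    rw [Real.dist_eq] at h1 ⊢
    have e1 : c * F X - c * F Y = c * (F X - F Y) := by ring
    rw [e1, abs_mul]
    have e2 : ((Real.toNNReal |c| * KF : NNReal) : ℝ) = |c| * KF := by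
      rw [NNReal.coe_mul, Real.coe_toNNReal _ (abs_nonneg c)]
    rw [e2, mul_assoc]
    exact mul_le_mul_of_nonneg_left h1 (abs_nonneg c)
  · exact hF.2.mul_left

theorem LipC.sub {F G : Conf N → ℝ} (hF : LipC F) (hG : LipC G) : LipC (fun X => F X - G X) := by
  have h := hF.addC (hG.cmulC (-1))
  have e : (fun X => F X - G X) = fun X => F X + (-1) * G X := by
    funext X
    ring
  rw [e]
  exact h

theorem I4_zero : LipC (fun _ : Conf N => (0 : ℝ)) :=
  ⟨⟨0, LipschitzWith.const 0⟩, HasCompactSupport.zero⟩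

theorem LipC.sum {κ : Type*} (s : Finset κ) {F : κ → Conf N → ℝ} (hF : ∀ k ∈ s, LipC (F k)) :
    LipC (fun X => ∑ k ∈ s, F k X) := by
  classical
  induction s using Finset.induction_on with
  | empty => simpa using I4_zero
  | insert a s ha ih =>
    have h1 : LipC (F a) := hF a (Finset.mem_insert_self a s)
    have h2 := ih fun k hk => hF k (Finset.mem_insert_of_mem hk)
    have e : (fun X => ∑ k ∈ insert a s, F k X) = fun X => F a X + ∑ k ∈ s, F k X := by
      funext X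
      rw [Finset.sum_insert ha]
    rw [e]
    exact h1.addC h2

theorem LipC.ae_diffC {F : Conf N → ℝ} (hF : LipC F) : ∀ᵐ X : Conf N, DifferentiableAt ℝ F X := by
  obtain ⟨K, hK⟩ := hF.1
  exact hK.ae_differentiableAt

theorem I4_norm_single (k : Fin N) (c : Fin 3) :
    ‖(Pi.single k (EuclideanSpace.single c (1 : ℝ)) : Conf N)‖ = 1 := by
  rw [Pi.norm_single]
  simp

theorem I4_abs_pd_le {F : Conf N → ℝ} {K : NNReal} (hK : LipschitzWith K F) (k : Fin N) (c : Fin 3)
    (X : Conf N) : |pd k c F X| ≤ K := by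
  unfold pd
  have h1 : ‖fderiv ℝ F X‖ ≤ K := norm_fderiv_le_of_lipschitz ℝ hK
  have h2 := (fderiv ℝ F X).le_opNorm (Pi.single k (EuclideanSpace.single c (1 : ℝ)))
  rw [I4_norm_single, mul_one, Real.norm_eq_abs] at h2
  exact h2.trans h1

theorem LipC.pd_bdd {F : Conf N → ℝ} (hF : LipC F) : ∃ C, 0 ≤ C ∧ ∀ k c X, |pd k c F X| ≤ C := by
  obtain ⟨K, hK⟩ := hF.1
  exact ⟨K, K.2, fun k c X => I4_abs_pd_le hK k c X⟩

theorem LipC.gsq_bdd {F : Conf N → ℝ} (hF : LipC F) : ∃ C, 0 ≤ C ∧ ∀ k X, gsq k F X ≤ C := by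
  obtain ⟨C, hC0, hC⟩ := hF.pd_bdd
  refine ⟨3 * C ^ 2, by positivity, fun k X => ?_⟩
  unfold gsq
  have h : ∀ c ∈ (univ : Finset (Fin 3)), (pd k c F X) ^ 2 ≤ C ^ 2 := fun c _ => by
    rw [← sq_abs]
    exact pow_le_pow_left₀ (abs_nonneg _) (hC k c X) 2
  have h2 := Finset.sum_le_sum h
  simpa using h2

theorem pd_mulC {F G : Conf N → ℝ} {X : Conf N} (hF : DifferentiableAt ℝ F X) (hG : DifferentiableAt ℝ G X)
    (k : Fin N) (c : Fin 3) : pd k c (fun X => F X * G X) X = pd k c F X * G X + F X * pd k c G X := by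
  unfold pd
  have h := (hF.hasFDerivAt.mul hG.hasFDerivAt).fderiv
  have h' : fderiv ℝ (fun X => F X * G X) X = F X • fderiv ℝ G X + G X • fderiv ℝ F X := h
  rw [h']
  simp only [_root_.add_apply, _root_.smul_apply, smul_eq_mul]
  ring

theorem I4_pd_sq {g : Conf N → ℝ} {X : Conf N} (hg : DifferentiableAt ℝ g X)
    (k : Fin N) (c : Fin 3) : pd k c (fun X => g X ^ 2) X = 2 * g X * pd k c g X := by
  have e : (fun X => g X ^ 2) = fun X => g X * g X := by
    funext X
    ring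
  rw [e, pd_mulC hg hg]
  ring

theorem gin_sq_mul {F g : Conf N → ℝ} {X : Conf N} (hF : DifferentiableAt ℝ F X) (hg : DifferentiableAt ℝ g X)
    (k : Fin N) :
    gin k F (fun X => g X ^ 2 * F X) X = gsq k (fun X => g X * F X) X - gsq k g X * F X ^ 2 := by
  unfold gin gsq
  rw [Finset.sum_mul, ← Finset.sum_sub_distrib]
  refine Finset.sum_congr rfl fun c _ => ?_
  have hg2 : DifferentiableAt ℝ (fun X => g X ^ 2) X := hg.pow 2
  rw [pd_mulC hg2 hF, I4_pd_sq hg, pd_mulC hg hF]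
  ring

theorem gsq_mul_le {F g : Conf N → ℝ} {X : Conf N} (hF : DifferentiableAt ℝ F X) (hg : DifferentiableAt ℝ g X)
    (k : Fin N) :
    gsq k (fun X => g X * F X) X ≤ 2 * g X ^ 2 * gsq k F X + 2 * F X ^ 2 * gsq k g X := by
  unfold gsq
  rw [Finset.mul_sum, Finset.mul_sum, ← Finset.sum_add_distrib]
  refine Finset.sum_le_sum fun c _ => ?_
  rw [pd_mulC hg hF]
  nlinarith [sq_nonneg (g X * pd k c F X - F X * pd k c g X)]

/-- the gradient vanishes (a.e.) where a function dominated by a vanishing nonnegative function vanishes -/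
theorem gsq_zero_of_dom {F ζ : Conf N → ℝ} {X : Conf N} {C : ℝ} (hF : DifferentiableAt ℝ F X)
    (hζ : DifferentiableAt ℝ ζ X) (h0 : ∀ Y, 0 ≤ ζ Y) (hdom : ∀ Y, |F Y| ≤ C * ζ Y) (hX : ζ X = 0) (k : Fin N) :
    gsq k F X = 0 := by
  have hFX : F X = 0 := by
    have h := hdom X
    rw [hX, mul_zero] at h
    exact abs_eq_zero.mp (le_antisymm h (abs_nonneg _))
  have h1 : fderiv ℝ ζ X = 0 := by
    have hm : IsLocalMin ζ X := by
      refine Filter.Eventually.of_forall fun Y => ?_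
      rw [hX]
      exact h0 Y
    exact hm.fderiv_eq_zero
  have h2 : fderiv ℝ (fun Y => C * ζ Y - F Y) X = 0 := by
    have hm : IsLocalMin (fun Y => C * ζ Y - F Y) X := by
      refine Filter.Eventually.of_forall fun Y => ?_
      simp only [hX, hFX, mul_zero, sub_zero]
      have h := (le_abs_self (F Y)).trans (hdom Y)
      linarith
    exact hm.fderiv_eq_zero
  have h3 : fderiv ℝ (fun Y => C * ζ Y - F Y) X = C • fderiv ℝ ζ X - fderiv ℝ F X :=
    ((hζ.hasFDerivAt.const_mul C).sub hF.hasFDerivAt).fderiv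
  have h4 : fderiv ℝ F X = 0 := by
    rw [h3, h1, smul_zero, zero_sub, neg_eq_zero] at h2
    exact h2
  unfold gsq pd
  rw [h4]
  simp

end Ion
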