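import Pool.Agent.Lib.MP_69e010_mp.IDef2
import Pool.Agent.Lib.MP_69e010_mp.I4
import Pool.Agent.Lib.MP_69e010_mp.QTools

/-!
# JOB I7: algebra of the energy form

Integrability: `LipC.integrable_mul`, `LipC.integrable_gin`, `LipC.integrable_gsq`, `LipC.integrable_V` (QTools, = H/HA1, H/HC2). `gsq k F = gin k F F`, and `gin` is symmetric and bilinear a.e. (`fderiv_add`, `fderiv_const_smul`
at points of differentiability of all functions: `LipC.ae_diffC`), everywhere for constant factors.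
* `int_V_mul`: polarization `F G = ((F+G)² - (F-G)²)/4`, `LipC.addC`, `LipC.sub`, `LipC.integrable_V`.
* `bil_self`: `gin k F F = gsq k F`, integral of the sum = sum of integrals (all integrable); `V * (F * F) = V * F ^ 2`.
* `QQ_subw`: `gsq k (ψ - s φ) = gsq k ψ - 2 s gin k ψ φ + s² gsq k φ` a.e.; integrate.
* `subw_adms`, `mulw_adms`: antisymmetry is linear, and `G (X ∘ π) = G X`.
* `bil_le`: `0 ≤ QQ z (subw s ψ φ)` by `EN_le` (QApi) and `QQ_subw`.
-/

open MeasureTheory Metric Finset Filter Topology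

noncomputable section

namespace Ion

variable {N : ℕ}

theorem int_V_mul {F G : Conf N → ℝ} (hF : LipC F) (hG : LipC G) (z : ℝ) :
    Integrable (fun X => V z X * (F X * G X)) := by
  have h1 := (hF.addC hG).integrable_V z
  have h2 := (hF.sub hG).integrable_V z
  have h3 := (h1.sub h2).const_mul (1 / 4)
  refine h3.congr (ae_of_all _ (fun X => ?_))
  simp only [Pi.sub_apply]
  ring

theorem I7_lin {A B C : Conf N → ℝ} (hA : Integrable A) (hB : Integrable B) (hC : Integrable C)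
    (t u : ℝ) :
    ∫ X, (A X - t * B X + u * C X) = (∫ X, A X) - t * (∫ X, B X) + u * ∫ X, C X := by
  have hAB : Integrable (fun X => A X - t * B X) := hA.sub (hB.const_mul t)
  have e1 : ∫ X, (A X - t * B X + u * C X) = (∫ X, (A X - t * B X)) + ∫ X, u * C X :=
    integral_add hAB (hC.const_mul u)
  have e2 : ∫ X, (A X - t * B X) = (∫ X, A X) - ∫ X, t * B X :=
    integral_sub hA (hB.const_mul t)
  rw [e1, e2, integral_const_mul, integral_const_mul]

theorem I7_gin_self (k : Fin N) (F : Conf N → ℝ) (X : Conf N) : gin k F F X = gsq k F X := by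
  unfold gin gsq
  exact Finset.sum_congr rfl (fun c _ => (pow_two _).symm)

theorem I7_pd_sub {F G : Conf N → ℝ} {X : Conf N} (hF : DifferentiableAt ℝ F X)
    (hG : DifferentiableAt ℝ G X) (s : ℝ) (k : Fin N) (c : Fin 3) :
    pd k c (fun X => F X - s * G X) X = pd k c F X - s * pd k c G X := by
  unfold pd
  have h : HasFDerivAt (fun X => F X - s * G X) (fderiv ℝ F X - s • fderiv ℝ G X) X :=
    hF.hasFDerivAt.sub (hG.hasFDerivAt.const_mul s)
  rw [h.fderiv]
  simp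

theorem I7_gsq_sub {F G : Conf N → ℝ} {X : Conf N} (hF : DifferentiableAt ℝ F X)
    (hG : DifferentiableAt ℝ G X) (s : ℝ) (k : Fin N) :
    gsq k (fun X => F X - s * G X) X = gsq k F X - 2 * s * gin k F G X + s ^ 2 * gsq k G X := by
  unfold gsq gin
  rw [Finset.mul_sum, Finset.mul_sum, ← Finset.sum_sub_distrib, ← Finset.sum_add_distrib]
  refine Finset.sum_congr rfl (fun c _ => ?_)
  rw [I7_pd_sub hF hG]
  ring

/-- the expansion for one spin configuration, kinetic part -/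
theorem I7_kin {F G : Conf N → ℝ} (hF : LipC F) (hG : LipC G) (s : ℝ) :
    ∫ X, ∑ k, gsq k (fun X => F X - s * G X) X
      = (∫ X, ∑ k, gsq k F X) - 2 * s * (∫ X, ∑ k, gin k F G X) + s ^ 2 * ∫ X, ∑ k, gsq k G X := by
  have i1 : Integrable (fun X => ∑ k, gsq k F X) :=
    integrable_finsetSum _ (fun k _ => hF.integrable_gsq k)
  have i2 : Integrable (fun X => ∑ k, gin k F G X) :=
    integrable_finsetSum _ (fun k _ => hF.integrable_gin hG k)
  have i3 : Integrable (fun X => ∑ k, gsq k G X) :=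
    integrable_finsetSum _ (fun k _ => hG.integrable_gsq k)
  have h : (fun X => ∑ k, gsq k (fun X => F X - s * G X) X) =ᵐ[volume]
      fun X => ((∑ k, gsq k F X) - 2 * s * (∑ k, gin k F G X)) + s ^ 2 * ∑ k, gsq k G X := by
    filter_upwards [hF.ae_diffC, hG.ae_diffC] with X h1 h2
    rw [Finset.mul_sum, Finset.mul_sum, ← Finset.sum_sub_distrib, ← Finset.sum_add_distrib]
    exact Finset.sum_congr rfl (fun k _ => I7_gsq_sub h1 h2 s k)
  rw [integral_congr_ae h]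
  exact I7_lin i1 i2 i3 (2 * s) (s ^ 2)

/-- the expansion for one spin configuration, potential part -/
theorem I7_pot {F G : Conf N → ℝ} (hF : LipC F) (hG : LipC G) (z s : ℝ) :
    ∫ X, V z X * (F X - s * G X) ^ 2
      = (∫ X, V z X * (F X) ^ 2) - 2 * s * (∫ X, V z X * (F X * G X))
        + s ^ 2 * ∫ X, V z X * (G X) ^ 2 := by
  have i1 := hF.integrable_V z
  have i2 := int_V_mul hF hG z
  have i3 := hG.integrable_V z
  have h : (fun X => V z X * (F X - s * G X) ^ 2) =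
      fun X => (V z X * (F X) ^ 2 - 2 * s * (V z X * (F X * G X))) + s ^ 2 * (V z X * (G X) ^ 2) := by
    funext X
    ring
  rw [h]
  exact I7_lin i1 i2 i3 (2 * s) (s ^ 2)

/-- the expansion for one spin configuration, norm -/
theorem I7_nrm {F G : Conf N → ℝ} (hF : LipC F) (hG : LipC G) (s : ℝ) :
    ∫ X, (F X - s * G X) ^ 2
      = (∫ X, (F X) ^ 2) - 2 * s * (∫ X, F X * G X) + s ^ 2 * ∫ X, (G X) ^ 2 := by
  have i1 := hF.integrable_sq
  have i2 := hF.integrable_mul hG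
  have i3 := hG.integrable_sq
  have h : (fun X => (F X - s * G X) ^ 2) =
      fun X => ((F X) ^ 2 - 2 * s * (F X * G X)) + s ^ 2 * (G X) ^ 2 := by
    funext X
    ring
  rw [h]
  exact I7_lin i1 i2 i3 (2 * s) (s ^ 2)

theorem bil_self {z : ℝ} {ψ : RW N} (hψ : ∀ σ, LipC (ψ σ)) : bil z ψ ψ = QQ z ψ := by
  have _h := hψ
  unfold bil QQ qf TT nrm2
  simp only [I7_gin_self, ← pow_two]

theorem QQ_subw {z : ℝ} {ψ φ : RW N} (hψ : ∀ σ, LipC (ψ σ)) (hφ : ∀ σ, LipC (φ σ)) (s : ℝ) :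
    QQ z (subw s ψ φ) = QQ z ψ - 2 * s * bil z ψ φ + s ^ 2 * QQ z φ := by
  have h1 : TT (subw s ψ φ) = TT ψ - 2 * s * (∑ σ, ∫ X, ∑ k, gin k (ψ σ) (φ σ) X)
      + s ^ 2 * TT φ := by
    unfold TT
    rw [Finset.mul_sum, Finset.mul_sum, ← Finset.sum_sub_distrib, ← Finset.sum_add_distrib]
    exact Finset.sum_congr rfl (fun σ _ => I7_kin (hψ σ) (hφ σ) s)
  have h2 : (∑ σ, ∫ X, V z X * (subw s ψ φ σ X) ^ 2) = (∑ σ, ∫ X, V z X * (ψ σ X) ^ 2)
      - 2 * s * (∑ σ, ∫ X, V z X * (ψ σ X * φ σ X)) + s ^ 2 * ∑ σ, ∫ X, V z X * (φ σ X) ^ 2 := by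
    rw [Finset.mul_sum, Finset.mul_sum, ← Finset.sum_sub_distrib, ← Finset.sum_add_distrib]
    exact Finset.sum_congr rfl (fun σ _ => I7_pot (hψ σ) (hφ σ) z s)
  have h3 : nrm2 (subw s ψ φ) = nrm2 ψ - 2 * s * (∑ σ, ∫ X, ψ σ X * φ σ X) + s ^ 2 * nrm2 φ := by
    unfold nrm2
    rw [Finset.mul_sum, Finset.mul_sum, ← Finset.sum_sub_distrib, ← Finset.sum_add_distrib]
    exact Finset.sum_congr rfl (fun σ _ => I7_nrm (hψ σ) (hφ σ) s)
  unfold QQ qf bil
  rw [h1, h2, h3]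
  ring

theorem subw_adms {ψ φ : RW N} (hψ : Adms ψ) (hφ : Adms φ) (s : ℝ) : Adms (subw s ψ φ) := by
  refine ⟨fun σ => (hψ.1 σ).sub ((hφ.1 σ).cmulC s), ?_⟩
  intro π σ X
  unfold subw
  rw [hψ.2 π σ X, hφ.2 π σ X]
  ring

theorem mulw_adms {G : Conf N → ℝ} (hG : LipC G) (hs : ∀ (π : Equiv.Perm (Fin N)) X, G (X ∘ π) = G X)
    {ψ : RW N} (hψ : Adms ψ) : Adms (mulw G ψ) := by
  refine ⟨fun σ => hG.mulC (hψ.1 σ), ?_⟩
  intro π σ X
  unfold mulw
  rw [hψ.2 π σ X, hs π X]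
  ring

theorem QQ_nonneg {z : ℝ} (hz : 0 < z) {ψ : RW N} (hψ : Adms ψ) : 0 ≤ QQ z ψ := by
  have h := EN_le hz hψ
  unfold QQ
  linarith

theorem bil_le {z : ℝ} (hz : 0 < z) {ψ φ : RW N} (hψ : Adms ψ) (hφ : Adms φ) (s : ℝ) :
    2 * s * bil z ψ φ ≤ QQ z ψ + s ^ 2 * QQ z φ := by
  have h := QQ_nonneg hz (subw_adms hψ hφ s)
  rw [QQ_subw hψ.1 hφ.1 s] at h
  linarith

end Ion
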