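import Pool.Agent.Lib.MP_69e010_mp.I6
import Pool.Agent.Lib.MP_69e010_mp.I7
import Pool.Agent.Lib.MP_69e010_mp.C4

/-!
# JOB I10: error integrals (Hardy), electrons close to the nucleus

* `int_mu`: for a.e. `X` (`ae_gen` in C4) `X` is good, and `muX_inv_sq_le` (I5). Multiply by `F²` and integrate: `hardy_nuc` gives `16 * 4 ∫ gsq j F`, `hardy_pair` (with `i := j`) gives `4 ∫ gsq j F` for each of the at most `N` indices `k`.
  Integrability: measurable (`continuous_muX`; `fun x => x⁻¹` is measurable), dominated by an integrable function (`Integrable.mono'`).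
* `near_count`: `1_{‖X j‖ < a} ≤ a² (‖X j‖⁻¹)²` if `X j ≠ 0` (a.e.), sum over `j`, `hardy_nuc`. The card is `∑_j (if ‖X j‖ < a then 1 else 0)`.
-/

open MeasureTheory Metric Finset Filter Topology

noncomputable section

namespace Ion

variable {N : ℕ}

theorem I10_integral_gsq {F : Conf N → ℝ} (hF : LipC F) :
    ∫ X, ∑ j, gsq j F X = ∑ j, ∫ X, gsq j F X :=
  integral_finsetSum _ (fun j _ => hF.integrable_gsq j)

theorem I10_gsq_int_nonneg (F : Conf N → ℝ) (j : Fin N) : 0 ≤ ∫ X, gsq j F X :=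
  integral_nonneg (fun X => gsq_nonneg j F X)

/-- the dominating function for `int_mu` -/
theorem I10_dom {F : Conf N → ℝ} (hF : LipC F) :
    Integrable (fun X : Conf N => ∑ j, (16 * ((‖X j‖⁻¹) ^ 2 * F X ^ 2) +
        ∑ k ∈ univ.erase j, (‖X j - X k‖⁻¹) ^ 2 * F X ^ 2)) ∧
      ∫ X : Conf N, ∑ j, (16 * ((‖X j‖⁻¹) ^ 2 * F X ^ 2) +
        ∑ k ∈ univ.erase j, (‖X j - X k‖⁻¹) ^ 2 * F X ^ 2)
        ≤ (64 + 4 * N) * ∫ X, ∑ j, gsq j F X := by
  have h1 : ∀ j : Fin N, Integrable (fun X : Conf N => 16 * ((‖X j‖⁻¹) ^ 2 * F X ^ 2)) :=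
    fun j => (hardy_nuc hF j).1.const_mul 16
  have h2 : ∀ j : Fin N, ∀ k ∈ (univ.erase j : Finset (Fin N)),
      Integrable (fun X : Conf N => (‖X j - X k‖⁻¹) ^ 2 * F X ^ 2) := by
    intro j k hk
    exact (hardy_pair hF (Ne.symm (Finset.ne_of_mem_erase hk))).1
  have h3 : ∀ j : Fin N, Integrable (fun X : Conf N =>
      ∑ k ∈ univ.erase j, (‖X j - X k‖⁻¹) ^ 2 * F X ^ 2) :=
    fun j => integrable_finsetSum _ (h2 j)
  have h4 : ∀ j : Fin N, Integrable (fun X : Conf N => 16 * ((‖X j‖⁻¹) ^ 2 * F X ^ 2) +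
      ∑ k ∈ univ.erase j, (‖X j - X k‖⁻¹) ^ 2 * F X ^ 2) := fun j => (h1 j).add (h3 j)
  refine ⟨integrable_finsetSum _ (fun j _ => h4 j), ?_⟩
  rw [integral_finsetSum _ (fun j _ => h4 j), I10_integral_gsq hF, Finset.mul_sum]
  refine Finset.sum_le_sum (fun j _ => ?_)
  rw [integral_add (h1 j) (h3 j), integral_const_mul, integral_finsetSum _ (h2 j)]
  have h5 := (hardy_nuc hF j).2
  have h6 : ∑ k ∈ univ.erase j, ∫ X : Conf N, (‖X j - X k‖⁻¹) ^ 2 * F X ^ 2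
      ≤ ∑ _k ∈ (univ.erase j : Finset (Fin N)), 4 * ∫ X, gsq j F X :=
    Finset.sum_le_sum (fun k hk => (hardy_pair hF (Ne.symm (Finset.ne_of_mem_erase hk))).2)
  rw [Finset.sum_const, nsmul_eq_mul] at h6
  have h7 : (((univ.erase j : Finset (Fin N)).card : ℕ) : ℝ) ≤ N := by
    have h8 : (univ.erase j : Finset (Fin N)).card ≤ (univ : Finset (Fin N)).card :=
      Finset.card_le_card (Finset.erase_subset _ _)
    rw [Finset.card_univ, Fintype.card_fin] at h8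
    exact_mod_cast h8
  have h9 := I10_gsq_int_nonneg F j
  nlinarith [mul_le_mul_of_nonneg_right h7 h9]

theorem int_mu {m : ℕ} (hm : 2 ≤ m) (hN : m ≤ N) {F : Conf N → ℝ} (hF : LipC F) :
    Integrable (fun X => ((muX m X)⁻¹) ^ 2 * F X ^ 2) ∧
      ∫ X, ((muX m X)⁻¹) ^ 2 * F X ^ 2 ≤ (64 + 4 * N) * ∫ X, ∑ j, gsq j F X := by
  obtain ⟨hi, hb⟩ := I10_dom hF
  have hpt : ∀ᵐ X : Conf N, ((muX m X)⁻¹) ^ 2 * F X ^ 2 ≤
      ∑ j, (16 * ((‖X j‖⁻¹) ^ 2 * F X ^ 2) +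
        ∑ k ∈ univ.erase j, (‖X j - X k‖⁻¹) ^ 2 * F X ^ 2) := by
    filter_upwards [ae_gen hm hN] with X hX
    have h1 := mul_le_mul_of_nonneg_right (muX_inv_sq_le hm hN hX.1) (sq_nonneg (F X))
    refine h1.trans (le_of_eq ?_)
    rw [Finset.sum_mul]
    refine Finset.sum_congr rfl (fun j _ => ?_)
    rw [add_mul, Finset.sum_mul, mul_assoc]
  have hmeas : Measurable (fun X : Conf N => ((muX m X)⁻¹) ^ 2 * F X ^ 2) :=
    ((continuous_muX (by omega) hN).measurable.inv.pow_const 2).mul (hF.cont.measurable.pow_const 2)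
  have hnn : ∀ X : Conf N, 0 ≤ ((muX m X)⁻¹) ^ 2 * F X ^ 2 := fun X => by positivity
  refine ⟨?_, ?_⟩
  · refine Integrable.mono' hi hmeas.aestronglyMeasurable ?_
    filter_upwards [hpt] with X hX
    rw [Real.norm_eq_abs, abs_of_nonneg (hnn X)]
    exact hX
  · exact (integral_mono_of_nonneg (ae_of_all _ hnn) hi hpt).trans hb

theorem near_count {F : Conf N → ℝ} (hF : LipC F) {a : ℝ} (ha : 0 < a) :
    Integrable (fun X : Conf N => ((univ.filter fun j => ‖X j‖ < a).card : ℝ) * F X ^ 2) ∧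
      ∫ X : Conf N, ((univ.filter fun j => ‖X j‖ < a).card : ℝ) * F X ^ 2
        ≤ 4 * a ^ 2 * ∫ X, ∑ j, gsq j F X := by
  have hcard : ∀ X : Conf N, ((univ.filter fun j => ‖X j‖ < a).card : ℝ) * F X ^ 2
      = ∑ j, (if ‖X j‖ < a then (1 : ℝ) else 0) * F X ^ 2 := by
    intro X
    rw [Finset.card_filter, Nat.cast_sum, Finset.sum_mul]
    refine Finset.sum_congr rfl (fun j _ => ?_)
    split_ifs <;> simp
  have h1 : ∀ j : Fin N, Integrable (fun X : Conf N => a ^ 2 * ((‖X j‖⁻¹) ^ 2 * F X ^ 2)) :=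
    fun j => (hardy_nuc hF j).1.const_mul (a ^ 2)
  have hi : Integrable (fun X : Conf N => ∑ j, a ^ 2 * ((‖X j‖⁻¹) ^ 2 * F X ^ 2)) :=
    integrable_finsetSum _ (fun j _ => h1 j)
  have hb : ∫ X : Conf N, ∑ j, a ^ 2 * ((‖X j‖⁻¹) ^ 2 * F X ^ 2)
      ≤ 4 * a ^ 2 * ∫ X, ∑ j, gsq j F X := by
    rw [integral_finsetSum _ (fun j _ => h1 j), I10_integral_gsq hF, Finset.mul_sum]
    refine Finset.sum_le_sum (fun j _ => ?_)
    rw [integral_const_mul]
    have h5 := mul_le_mul_of_nonneg_left (hardy_nuc hF j).2 (sq_nonneg a)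
    linarith
  have hpt : ∀ᵐ X : Conf N, ((univ.filter fun j => ‖X j‖ < a).card : ℝ) * F X ^ 2 ≤
      ∑ j, a ^ 2 * ((‖X j‖⁻¹) ^ 2 * F X ^ 2) := by
    filter_upwards [ae_distinct (N := N)] with X hX
    rw [hcard X]
    refine Finset.sum_le_sum (fun j _ => ?_)
    rw [← mul_assoc]
    refine mul_le_mul_of_nonneg_right ?_ (sq_nonneg _)
    split_ifs with h
    · have hpos : 0 < ‖X j‖ := norm_pos_iff.mpr (hX.1 j)
      have h2 : 1 ≤ a * ‖X j‖⁻¹ := by
        rw [← div_eq_mul_inv, le_div_iff₀ hpos]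
        linarith
      nlinarith
    · positivity
  have hmeas : Measurable (fun X : Conf N => ((univ.filter fun j => ‖X j‖ < a).card : ℝ) * F X ^ 2) := by
    have he : (fun X : Conf N => ((univ.filter fun j => ‖X j‖ < a).card : ℝ) * F X ^ 2)
        = fun X => ∑ j, (if ‖X j‖ < a then (1 : ℝ) else 0) * F X ^ 2 := funext hcard
    rw [he]
    refine Finset.measurable_fun_sum _ (fun j _ => ?_)
    refine Measurable.mul ?_ (hF.cont.measurable.pow_const 2)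
    refine Measurable.ite ?_ measurable_const measurable_const
    exact measurableSet_lt (measurable_pi_apply j).norm measurable_const
  have hnn : ∀ X : Conf N, 0 ≤ ((univ.filter fun j => ‖X j‖ < a).card : ℝ) * F X ^ 2 :=
    fun X => by positivity
  refine ⟨?_, ?_⟩
  · refine Integrable.mono' hi hmeas.aestronglyMeasurable ?_
    filter_upwards [hpt] with X hX
    rw [Real.norm_eq_abs, abs_of_nonneg (hnn X)]
    exact hX
  · exact (integral_mono_of_nonneg (ae_of_all _ hnn) hi hpt).trans hb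

/-- error term of the explicit cutoff -/
theorem cutoff_err {m : ℕ} (hm : 2 ≤ m) (hN : m ≤ N) {h R : ℝ} (hh : 0 < h) (hh1 : h < 1) (hR : 0 < R)
    {ψ : RW N} (hψ : ∀ σ, LipC (ψ σ)) :
    ∑ σ, ∫ X, (∑ k, gsq k (zt m h R) X) * ψ σ X ^ 2
      ≤ 2 / R ^ 2 * nrm2 ψ + 8 * (64 + 4 * N) / Real.log (1 / h) ^ 2 * TT ψ := by
  unfold nrm2 TT
  rw [Finset.mul_sum, Finset.mul_sum, ← Finset.sum_add_distrib]
  refine Finset.sum_le_sum (fun σ _ => ?_)
  obtain ⟨h1, h2⟩ := int_mu hm hN (hψ σ)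
  have h3 := (hψ σ).integrable_sq
  have h4 : Integrable (fun X : Conf N => 2 / R ^ 2 * ψ σ X ^ 2 +
      8 / Real.log (1 / h) ^ 2 * (((muX m X)⁻¹) ^ 2 * ψ σ X ^ 2)) :=
    (h3.const_mul _).add (h1.const_mul _)
  have h5 : ∫ X, (∑ k, gsq k (zt m h R) X) * ψ σ X ^ 2 ≤ ∫ X : Conf N, (2 / R ^ 2 * ψ σ X ^ 2 +
      8 / Real.log (1 / h) ^ 2 * (((muX m X)⁻¹) ^ 2 * ψ σ X ^ 2)) := by
    refine integral_mono_of_nonneg (ae_of_all _ (fun X => ?_)) h4 (ae_of_all _ (fun X => ?_))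
    · exact mul_nonneg (Finset.sum_nonneg (fun k _ => gsq_nonneg k _ X)) (sq_nonneg _)
    · have h6 := mul_le_mul_of_nonneg_right (zt_gsq (by omega) hN hh hh1 hR X) (sq_nonneg (ψ σ X))
      refine h6.trans (le_of_eq ?_)
      ring
  refine h5.trans ?_
  rw [integral_add (h3.const_mul _) (h1.const_mul _), integral_const_mul, integral_const_mul]
  have h7 : 0 ≤ 8 / Real.log (1 / h) ^ 2 := by positivity
  have h8 := mul_le_mul_of_nonneg_left h2 h7
  have h9 : 8 / Real.log (1 / h) ^ 2 * ((64 + 4 * (N : ℝ)) * ∫ X, ∑ j, gsq j (ψ σ) X)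
      = 8 * (64 + 4 * N) / Real.log (1 / h) ^ 2 * ∫ X, ∑ j, gsq j (ψ σ) X := by ring
  linarith

end Ion
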