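import Pool.Agent.Lib.MP_69e010_mp.C1

/-!
# JOB I3: symmetry under permutations

`(X ∘ π) j = X (π j)`. The set of electrons is the same, so `DD`, `dd` do not change (`card` of the filter set is invariant under the bijection `π`), `Good` is invariant, `dc m (X ∘ π) j = dc m X (π j)`, `sc` likewise,
`Kc m (X ∘ π) i j = Kc m X (π i) (π j)`, i.e. `Kc m (X ∘ π) = (Kc m X).submatrix π π`, the same for `1 + K diag s`, and `Matrix.inv_submatrix_equiv`. So `Mc m (X ∘ π) i j = Mc m X (π i) (π j)`, `vc m (X ∘ π) i = vc m X (π i)`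
(reindex the row sum), `nuc` likewise, and `uc m (X ∘ π) y = uc m X y`, `vy m (X ∘ π) y = vy m X y`. Everything holds for all `X` (no goodness needed).
-/

open MeasureTheory Metric Finset Filter Topology

noncomputable section

namespace Ion

variable {N : ℕ}

theorem DD_perm (m : ℕ) (X : Conf N) (π : Equiv.Perm (Fin N)) (y : E3) : DD m (X ∘ π) y = DD m X y := by
  unfold DD
  congr 1
  ext r
  simp only [Set.mem_ofPred_eq]
  rw [Finset.card_equiv π (s := univ.filter fun j => ‖(X ∘ π) j - y‖ ≤ r)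
    (t := univ.filter fun j => ‖X j - y‖ ≤ r) (fun i => by simp)]

theorem dd_perm (m : ℕ) (X : Conf N) (π : Equiv.Perm (Fin N)) (y : E3) : dd m (X ∘ π) y = dd m X y := by
  unfold dd
  rw [DD_perm]

theorem good_perm (m : ℕ) (X : Conf N) (π : Equiv.Perm (Fin N)) : Good m (X ∘ π) ↔ Good m X := by
  unfold Good
  constructor
  · rintro ⟨h1, h2⟩
    refine ⟨fun j => ?_, fun j => ?_⟩
    · have := h1 (π.symm j)
      simpa using this
    · have := h2 (π.symm j)
      rw [DD_perm] at this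
      simpa using this
  · rintro ⟨h1, h2⟩
    refine ⟨fun j => h1 (π j), fun j => ?_⟩
    rw [DD_perm]
    exact h2 (π j)

theorem dc_perm (m : ℕ) (X : Conf N) (π : Equiv.Perm (Fin N)) (j : Fin N) : dc m (X ∘ π) j = dc m X (π j) := by
  unfold dc
  rw [dd_perm]
  rfl

theorem sc_perm (m : ℕ) (X : Conf N) (π : Equiv.Perm (Fin N)) (j : Fin N) : sc m (X ∘ π) j = sc m X (π j) := by
  unfold sc
  rw [dc_perm]
  rfl

theorem Kc_perm (m : ℕ) (X : Conf N) (π : Equiv.Perm (Fin N)) (i j : Fin N) :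
    Kc m (X ∘ π) i j = Kc m X (π i) (π j) := by
  unfold Kc
  rw [dc_perm, dc_perm]
  rfl

theorem Mc_perm (m : ℕ) (X : Conf N) (π : Equiv.Perm (Fin N)) (i j : Fin N) :
    Mc m (X ∘ π) i j = Mc m X (π i) (π j) := by
  have hK : Kc m (X ∘ π) = (Kc m X).submatrix π π := by
    ext a b
    exact Kc_perm m X π a b
  have hs : Matrix.diagonal (sc m (X ∘ π)) = (Matrix.diagonal (sc m X)).submatrix π π := by
    rw [Matrix.submatrix_diagonal_equiv]
    congr 1
    funext a
    exact sc_perm m X π a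
  have h1 : (1 : Matrix (Fin N) (Fin N) ℝ) = (1 : Matrix (Fin N) (Fin N) ℝ).submatrix π π :=
    (Matrix.submatrix_one_equiv π).symm
  have h2 : 1 + Kc m (X ∘ π) * Matrix.diagonal (sc m (X ∘ π)) =
      (1 + Kc m X * Matrix.diagonal (sc m X)).submatrix π π := by
    rw [hK, hs, Matrix.submatrix_mul_equiv]
    conv_lhs => rw [h1]
    rfl
  unfold Mc
  rw [h2, Matrix.inv_submatrix_equiv]
  rfl

theorem vc_perm (m : ℕ) (X : Conf N) (π : Equiv.Perm (Fin N)) (j : Fin N) : vc m (X ∘ π) j = vc m X (π j) := by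
  unfold vc
  rw [← Equiv.sum_comp π (fun i => Mc m X (π j) i)]
  exact Finset.sum_congr rfl (fun i _ => Mc_perm m X π j i)

theorem nuc_perm (m : ℕ) (X : Conf N) (π : Equiv.Perm (Fin N)) (j : Fin N) : nuc m (X ∘ π) j = nuc m X (π j) := by
  unfold nuc
  rw [sc_perm, vc_perm]

theorem uc_perm (m : ℕ) (X : Conf N) (π : Equiv.Perm (Fin N)) (y : E3) : uc m (X ∘ π) y = uc m X y := by
  unfold uc
  rw [← Equiv.sum_comp π (fun j => sc m X j * vc m X j * ph (X j) (ea m * dc m X j) y)]
  congr 1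
  refine Finset.sum_congr rfl (fun i _ => ?_)
  rw [sc_perm, vc_perm, dc_perm]
  rfl

theorem vy_perm (m : ℕ) (X : Conf N) (π : Equiv.Perm (Fin N)) (y : E3) : vy m (X ∘ π) y = vy m X y := by
  unfold vy
  rw [dd_perm, show uc m (X ∘ π) = uc m X from funext (uc_perm m X π)]

theorem sy_perm (m : ℕ) (X : Conf N) (π : Equiv.Perm (Fin N)) (y : E3) : sy m (X ∘ π) y = sy m X y := by
  unfold sy
  rw [dd_perm]

end Ion
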