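import Pool.Agent.Lib.MP_69e010_mp.IDef2
import Pool.Agent.Lib.MP_69e010_mp.C1
import Pool.Agent.Lib.MP_69e010_mp.I3

/-!
# JOB I5: the function `muX m X = min_j d_j`

`N ≥ m ≥ 1`, so `Fin N` is nonempty and the infimum is a minimum (`Finite.exists_min`, `ciInf_le (Set.finite_range _).bddBelow`, `le_ciInf`).
* `dc_lip`: `dd_lip` (C1) with `c = ‖X - X'‖` (`‖X j - X' j‖ ≤ ‖X - X'‖` is `norm_le_pi_norm` for `X - X'`).
* `muX_lip`: minimum of `2`-Lipschitz functions.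
* `muX_perm`: `dc_perm` (I3) and reindexing by `π` (`Equiv.iInf_congr` or `Function.Surjective.iInf_comp`).
* `good_of_muX_pos`: `0 < dc m X j = min (DD m X (X j)) (‖X j‖ / 4)` gives `X j ≠ 0` and `0 < DD m X (X j)`.
* `muX_inv_sq_le`: let `j` be a minimizer. If `dc m X j = ‖X j‖ / 4` then `(muX)⁻¹ ^ 2 = 16 (‖X j‖⁻¹) ^ 2`. Otherwise `muX = DD m X (X j) =: D`. By `DD_card` at least `m` electrons `k` have `‖X k - X j‖ ≤ D` and by `DD_card_lt` fewer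
  than `m` have `‖X k - X j‖ < D`. So some `k` has `‖X k - X j‖ = D > 0`, so `k ≠ j` and `(muX)⁻¹ ^ 2 = (‖X j - X k‖⁻¹) ^ 2` (`norm_sub_rev`). All terms of the double sum are nonnegative.
-/

open MeasureTheory Metric Finset Filter Topology

noncomputable section

namespace Ion

variable {N : ℕ}

theorem dc_nonneg (m : ℕ) (X : Conf N) (j : Fin N) : 0 ≤ dc m X j := by
  unfold dc dd
  exact le_min (DD_nonneg m X (X j)) (by positivity)

theorem dc_lip {m : ℕ} (hN : m ≤ N) (X X' : Conf N) (j : Fin N) :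
    |dc m X j - dc m X' j| ≤ 2 * ‖X - X'‖ := by
  have h1 : ∀ i, ‖X i - X' i‖ ≤ ‖X - X'‖ := fun i => norm_le_pi_norm (X - X') i
  have h2 := dd_lip hN (X j) (X' j) (norm_nonneg (X - X')) h1
  have h3 := h1 j
  unfold dc
  linarith

theorem continuous_dc {m : ℕ} (hN : m ≤ N) (j : Fin N) : Continuous fun X : Conf N => dc m X j := by
  refine (LipschitzWith.of_dist_le_mul (K := 2) fun X X' => ?_).continuous
  rw [Real.dist_eq, dist_eq_norm]
  exact dc_lip hN X X' j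

theorem muX_le {m : ℕ} (X : Conf N) (j : Fin N) : muX m X ≤ dc m X j :=
  ciInf_le (Set.finite_range _).bddBelow j

theorem muX_nonneg (m : ℕ) (X : Conf N) : 0 ≤ muX m X :=
  Real.iInf_nonneg fun j => dc_nonneg m X j

theorem I5_exists_min {m : ℕ} (hm : 1 ≤ m) (hN : m ≤ N) (X : Conf N) : ∃ j, muX m X = dc m X j := by
  have : Nonempty (Fin N) := ⟨⟨0, by omega⟩⟩
  obtain ⟨j, hj⟩ := Finite.exists_min fun j => dc m X j
  exact ⟨j, le_antisymm (muX_le X j) (le_ciInf hj)⟩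

theorem I5_lip_aux {m : ℕ} (hm : 1 ≤ m) (hN : m ≤ N) (X X' : Conf N) :
    muX m X ≤ muX m X' + 2 * ‖X - X'‖ := by
  obtain ⟨j, hj⟩ := I5_exists_min hm hN X'
  have h1 := (abs_le.1 (dc_lip hN X X' j)).2
  have h2 := muX_le (m := m) X j
  linarith

theorem muX_lip {m : ℕ} (hm : 1 ≤ m) (hN : m ≤ N) (X X' : Conf N) :
    |muX m X - muX m X'| ≤ 2 * ‖X - X'‖ := by
  have h1 := I5_lip_aux hm hN X X'
  have h2 := I5_lip_aux hm hN X' X
  rw [norm_sub_rev] at h2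
  rw [abs_le]
  constructor <;> linarith

theorem continuous_muX {m : ℕ} (hm : 1 ≤ m) (hN : m ≤ N) : Continuous fun X : Conf N => muX m X := by
  refine (LipschitzWith.of_dist_le_mul (K := 2) fun X X' => ?_).continuous
  rw [Real.dist_eq, dist_eq_norm]
  exact muX_lip hm hN X X'

theorem muX_perm (m : ℕ) (X : Conf N) (π : Equiv.Perm (Fin N)) : muX m (X ∘ π) = muX m X := by
  unfold muX
  rw [iInf_congr fun j => dc_perm m X π j]
  exact π.surjective.iInf_comp fun j => dc m X j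

theorem muX_pos {m : ℕ} (hm : 1 ≤ m) (hN : m ≤ N) {X : Conf N} (hX : Good m X) : 0 < muX m X := by
  obtain ⟨j, hj⟩ := I5_exists_min hm hN X
  rw [hj]
  unfold dc dd
  exact lt_min (hX.2 j) (div_pos (norm_pos_iff.2 (hX.1 j)) (by norm_num))

theorem good_of_muX_pos {m : ℕ} {X : Conf N} (h : 0 < muX m X) : Good m X := by
  have h1 : ∀ j, 0 < min (DD m X (X j)) (‖X j‖ / 4) := fun j => lt_of_lt_of_le h (muX_le X j)
  refine ⟨fun j => ?_, fun j => (lt_min_iff.1 (h1 j)).1⟩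
  have h2 := (lt_min_iff.1 (h1 j)).2
  rw [← norm_pos_iff]
  linarith

theorem I5_exists_eq {m : ℕ} (hm : 1 ≤ m) (hN : m ≤ N) (X : Conf N) (y : E3) :
    ∃ k, ‖X k - y‖ = DD m X y := by
  by_contra hcon
  push Not at hcon
  have h1 := DD_card hN X y
  have h2 := DD_card_lt hm hN X y
  have h3 : (univ.filter fun j => ‖X j - y‖ ≤ DD m X y) = univ.filter fun j => ‖X j - y‖ < DD m X y := by
    ext j
    rw [mem_filter, mem_filter]
    refine ⟨fun h => ⟨h.1, lt_of_le_of_ne h.2 (hcon j)⟩, fun h => ⟨h.1, h.2.le⟩⟩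
  rw [h3] at h1
  omega

theorem I5_le_sum (X : Conf N) (j : Fin N) :
    16 * (‖X j‖⁻¹) ^ 2 + ∑ k ∈ univ.erase j, (‖X j - X k‖⁻¹) ^ 2 ≤
      ∑ j, (16 * (‖X j‖⁻¹) ^ 2 + ∑ k ∈ univ.erase j, (‖X j - X k‖⁻¹) ^ 2) := by
  refine Finset.single_le_sum (f := fun j => 16 * (‖X j‖⁻¹) ^ 2 + ∑ k ∈ univ.erase j, (‖X j - X k‖⁻¹) ^ 2)
    (fun i _ => ?_) (mem_univ j)
  have h1 : 0 ≤ ∑ k ∈ univ.erase i, (‖X i - X k‖⁻¹) ^ 2 := Finset.sum_nonneg fun k _ => by positivity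
  positivity

theorem muX_inv_sq_le {m : ℕ} (hm : 2 ≤ m) (hN : m ≤ N) {X : Conf N} (hX : Good m X) :
    ((muX m X)⁻¹) ^ 2 ≤
      ∑ j, (16 * (‖X j‖⁻¹) ^ 2 + ∑ k ∈ univ.erase j, (‖X j - X k‖⁻¹) ^ 2) := by
  obtain ⟨j, hj⟩ := I5_exists_min (by omega : 1 ≤ m) hN X
  refine le_trans ?_ (I5_le_sum X j)
  have hs : 0 ≤ ∑ k ∈ univ.erase j, (‖X j - X k‖⁻¹) ^ 2 := Finset.sum_nonneg fun k _ => by positivity
  rw [hj]
  unfold dc dd
  rcases le_total (‖X j‖ / 4) (DD m X (X j)) with h | h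
  · rw [min_eq_right h]
    have h1 : (‖X j‖ / 4)⁻¹ ^ 2 = 16 * (‖X j‖⁻¹) ^ 2 := by
      rw [inv_div, div_pow, inv_pow]
      ring
    rw [h1]
    linarith
  · rw [min_eq_left h]
    obtain ⟨k, hk⟩ := I5_exists_eq (by omega : 1 ≤ m) hN X (X j)
    have h0 : 0 < DD m X (X j) := hX.2 j
    have hkj : k ≠ j := by
      rintro rfl
      rw [sub_self, norm_zero] at hk
      linarith
    have h2 : (DD m X (X j))⁻¹ ^ 2 = (‖X j - X k‖⁻¹) ^ 2 := by
      rw [← hk, norm_sub_rev]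
    have h3 : (‖X j - X k‖⁻¹) ^ 2 ≤ ∑ k ∈ univ.erase j, (‖X j - X k‖⁻¹) ^ 2 :=
      Finset.single_le_sum (f := fun k => (‖X j - X k‖⁻¹) ^ 2) (fun i _ => by positivity)
        (Finset.mem_erase.2 ⟨hkj, mem_univ k⟩)
    rw [h2]
    have h4 : 0 ≤ 16 * (‖X j‖⁻¹) ^ 2 := by positivity
    linarith

end Ion
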