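import Pool.Agent.Lib.MP_69e010_mp.I1
import Pool.Agent.Lib.MP_69e010_mp.I4
import Pool.Agent.Lib.MP_69e010_mp.I5
import Pool.Agent.Lib.MP_69e010_mp.C4

/-!
# JOB I11: (P3) with the cutoff, and measurability/integrability of weights times cutoff

* `P3_point`: at a generic `X` where all `√ν_i` are differentiable: `slope_sqrt_nu` and `gsq_le_of_slope` (I0) with `L = 3/5 Lc √ν_i` (`Lc ≥ 0` by `Lc_crude` with `h = muX m X`), so
  `gsq k √ν_i ≤ 9/25 Lc² ν_i`, sum: `sum_Lc` gives `9/25 * 1200 = 432`.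
* `cut_grad`: take `X` generic (`ae_gen`), `ζ` and all `gw m ζ i` differentiable at `X` (`LipC.ae_diffC`, `gw_lipC`, `cut_lipC`).
  If `ζ X = 0`: `gsq k (gw i) X = 0` and `gsq k ζ X = 0` by `gsq_zero_of_dom` (with `gw_le`: `|gw| ≤ √Ri ζ`), both sides are `0`.
  If `ζ X ≠ 0`: near `X` `√ν_i = gw_i / ζ`, so `√ν_i` is differentiable at `X` (`DifferentiableAt.div`, `DifferentiableAt.congr_of_eventuallyEq`), and `gsq_mul_le` with `g = √ν_i`, `F = ζ` (mind `√ν_i ^ 2 = ν_i`):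
  `gsq k (√ν_i ζ) ≤ 2 ν_i gsq k ζ + 2 ζ² gsq k √ν_i`. Sum: `ν_i ≤ ‖X i‖ ≤ Ri` (`nuc_le`, `Cut.supp`) and `P3_point`.
* `cut_int`: `W * ζ` is measurable for `W` continuous on the good set (`measurable_mul_cut`, I1). `W` bounded by `B` on the support of `ζ`: `|W ζ² F²| ≤ B F²`. `b` bounded measurable factor.
* `nu_dc_bound`: on the support of `ζ`: `0 ≤ ν_j / d_j² ≤ Ri / h²`; `continuousOn_nuc` and `continuous_dc`.
-/

open MeasureTheory Metric Finset Filter Topology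

noncomputable section

namespace Ion

variable {N : ℕ}

theorem I11_gsq_nonneg (k : Fin N) (F : Conf N → ℝ) (X : Conf N) : 0 ≤ gsq k F X := by
  unfold gsq
  exact Finset.sum_nonneg (fun c _ => sq_nonneg _)

theorem I11_dc_pos {m : ℕ} (hm : 1 ≤ m) (hN : m ≤ N) {X : Conf N} (hX : Good m X) (j : Fin N) :
    0 < dc m X j := dd_pos hm hN hX (hX.1 j)

theorem P3_point {m : ℕ} (hm : 10 ^ 4 ≤ m) (hN : m ≤ N) {X : Conf N} (hX : Gen m X)
    (hd : ∀ i, DifferentiableAt ℝ (fun Y => √(nuc m Y i)) X) :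
    ∑ i, ∑ k, gsq k (fun Y => √(nuc m Y i)) X ≤ 432 * ∑ i, nuc m X i / dc m X i ^ 2 := by
  have hm2 : 2 ≤ m := le_trans (by norm_num) hm
  have hG : Good m X := hX.1
  have hmu : 0 < muX m X := muX_pos (le_trans (by norm_num) hm2) hN hG
  have hpt : ∀ i k, gsq k (fun Y => √(nuc m Y i)) X ≤ 9 / 25 * (nuc m X i * Lc m X k i ^ 2) := by
    intro i k
    have hLc := (Lc_crude hm2 hN hG hmu (fun j => muX_le X j) i k).1
    have hs := Real.sqrt_nonneg (nuc m X i)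
    have h1 := gsq_le_of_slope (by positivity : 0 ≤ 3 / 5 * Lc m X k i * √(nuc m X i)) (hd i)
      (slope_sqrt_nu hm2 hN hG i k)
    have h2 : (3 / 5 * Lc m X k i * √(nuc m X i)) ^ 2
        = 9 / 25 * (nuc m X i * Lc m X k i ^ 2) := by
      rw [mul_pow, Real.sq_sqrt (nuc_le hm2 hN hG i).1.le]
      ring
    linarith
  have hs := sum_Lc hm hN hX
  calc ∑ i, ∑ k, gsq k (fun Y => √(nuc m Y i)) X
      ≤ ∑ i, ∑ k, 9 / 25 * (nuc m X i * Lc m X k i ^ 2) :=
        Finset.sum_le_sum fun i _ => Finset.sum_le_sum fun k _ => hpt i k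
    _ = 9 / 25 * ∑ i, ∑ k, nuc m X i * Lc m X k i ^ 2 := by simp only [Finset.mul_sum]
    _ ≤ 9 / 25 * (1200 * ∑ i, nuc m X i / dc m X i ^ 2) := by linarith
    _ = 432 * ∑ i, nuc m X i / dc m X i ^ 2 := by ring

theorem cut_grad {m : ℕ} (hm : 10 ^ 4 ≤ m) (hN : m ≤ N) {h Ri : ℝ} (hh : 0 < h) {ζ : Conf N → ℝ}
    (hζ : Cut m h Ri ζ) :
    ∀ᵐ X : Conf N, ∑ i, ∑ k, gsq k (gw m ζ i) X
      ≤ 864 * (∑ i, nuc m X i / dc m X i ^ 2) * ζ X ^ 2 + 2 * N * Ri * ∑ k, gsq k ζ X := by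
  have hm2 : 2 ≤ m := le_trans (by norm_num) hm
  have hgd : ∀ᵐ X : Conf N, ∀ i, DifferentiableAt ℝ (gw m ζ i) X := by
    rw [ae_all_iff]
    intro i
    exact (gw_lipC hm2 hN hh hζ i).ae_diffC
  filter_upwards [ae_gen hm2 hN, (cut_lipC hζ).ae_diffC, hgd] with X hX hζd hgX
  by_cases h0 : ζ X = 0
  · have hz : ∀ k, gsq k ζ X = 0 := fun k =>
      gsq_zero_of_dom (C := 1) hζd hζd hζ.nonneg
        (fun Y => by rw [abs_of_nonneg (hζ.nonneg Y), one_mul]) h0 k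
    have hg : ∀ i k, gsq k (gw m ζ i) X = 0 := fun i k =>
      gsq_zero_of_dom (C := √Ri) (hgX i) hζd hζ.nonneg
        (fun Y => by rw [abs_of_nonneg (gw_nonneg hζ i Y)]; exact gw_le hm2 hN hζ i Y) h0 k
    simp only [hz, hg, h0]
    simp
  · obtain ⟨hG, hdj, hRi⟩ := hζ.supp X h0
    have hev : ∀ᶠ Y in 𝓝 X, ζ Y ≠ 0 := hζd.continuousAt.eventually_ne h0
    have hd : ∀ i, DifferentiableAt ℝ (fun Y => √(nuc m Y i)) X := by
      intro i
      have h1 : DifferentiableAt ℝ (fun Y => gw m ζ i Y * (ζ Y)⁻¹) X :=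
        (hgX i).mul (hζd.inv h0)
      refine h1.congr_of_eventuallyEq ?_
      filter_upwards [hev] with Y hY
      unfold gw
      field_simp
    have hP3 := P3_point hm hN hX hd
    have hRi0 : ∀ i, nuc m X i ≤ Ri := fun i => (nuc_le hm2 hN hG i).2.trans (hRi i)
    have hpt : ∀ i k, gsq k (gw m ζ i) X ≤
        2 * Ri * gsq k ζ X + 2 * ζ X ^ 2 * gsq k (fun Y => √(nuc m Y i)) X := by
      intro i k
      have h1 : gsq k (gw m ζ i) X ≤ 2 * (√(nuc m X i)) ^ 2 * gsq k ζ X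
          + 2 * ζ X ^ 2 * gsq k (fun Y => √(nuc m Y i)) X :=
        gsq_mul_le (F := ζ) (g := fun Y => √(nuc m Y i)) hζd (hd i) k
      rw [Real.sq_sqrt (nuc_le hm2 hN hG i).1.le] at h1
      have h2 : nuc m X i * gsq k ζ X ≤ Ri * gsq k ζ X :=
        mul_le_mul_of_nonneg_right (hRi0 i) (I11_gsq_nonneg k ζ X)
      linarith
    have hsum : ∑ i, ∑ k, gsq k (gw m ζ i) X ≤
        ∑ i : Fin N, ∑ k, (2 * Ri * gsq k ζ X + 2 * ζ X ^ 2 * gsq k (fun Y => √(nuc m Y i)) X) :=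
      Finset.sum_le_sum fun i _ => Finset.sum_le_sum fun k _ => hpt i k
    have heq : ∑ i : Fin N, ∑ k,
        (2 * Ri * gsq k ζ X + 2 * ζ X ^ 2 * gsq k (fun Y => √(nuc m Y i)) X)
        = 2 * N * Ri * ∑ k, gsq k ζ X
          + 2 * ζ X ^ 2 * ∑ i, ∑ k, gsq k (fun Y => √(nuc m Y i)) X := by
      simp only [Finset.sum_add_distrib, ← Finset.mul_sum, Finset.sum_const, Finset.card_univ,
        Fintype.card_fin, nsmul_eq_mul]
      ring
    rw [heq] at hsum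
    have h3 : 2 * ζ X ^ 2 * ∑ i, ∑ k, gsq k (fun Y => √(nuc m Y i)) X
        ≤ 2 * ζ X ^ 2 * (432 * ∑ i, nuc m X i / dc m X i ^ 2) :=
      mul_le_mul_of_nonneg_left hP3 (by positivity)
    calc ∑ i, ∑ k, gsq k (gw m ζ i) X
        ≤ 2 * N * Ri * ∑ k, gsq k ζ X
          + 2 * ζ X ^ 2 * ∑ i, ∑ k, gsq k (fun Y => √(nuc m Y i)) X := hsum
      _ ≤ 2 * N * Ri * ∑ k, gsq k ζ X
          + 2 * ζ X ^ 2 * (432 * ∑ i, nuc m X i / dc m X i ^ 2) := by linarith
      _ = 864 * (∑ i, nuc m X i / dc m X i ^ 2) * ζ X ^ 2 + 2 * N * Ri * ∑ k, gsq k ζ X := by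
          ring

theorem cut_int {m : ℕ} (hN : m ≤ N) {h Ri : ℝ} {ζ : Conf N → ℝ} (hζ : Cut m h Ri ζ) {W b F : Conf N → ℝ}
    (hW : ContinuousOn W {X | Good m X}) {B C : ℝ} (hB : ∀ X, ζ X ≠ 0 → |W X| ≤ B)
    (hb : Measurable b) (hbC : ∀ X, |b X| ≤ C) (hF : LipC F) :
    Integrable (fun X => b X * W X * (ζ X ^ 2 * F X ^ 2)) := by
  have hFF := hF.mulC hF
  have hFi : Integrable (fun X => F X * F X) :=
    hFF.continuous.integrable_of_hasCompactSupport hFF.2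
  have hWm := measurable_mul_cut hN hζ hW
  have hζm : Measurable ζ := (cut_lipC hζ).continuous.measurable
  have hFm : Measurable F := hF.continuous.measurable
  have hmeas : Measurable (fun X => b X * W X * (ζ X ^ 2 * F X ^ 2)) := by
    have h1 : (fun X => b X * W X * (ζ X ^ 2 * F X ^ 2))
        = fun X => b X * (W X * ζ X) * (ζ X * F X ^ 2) := by
      funext X
      ring
    rw [h1]
    exact (hb.mul hWm).mul (hζm.mul (hFm.pow_const 2))
  refine Integrable.mono' (hFi.const_mul (|C| * |B|)) hmeas.aestronglyMeasurable ?_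
  refine ae_of_all _ (fun X => ?_)
  by_cases h0 : ζ X = 0
  · rw [h0]
    have h1 : 0 ≤ |C| * |B| * (F X * F X) :=
      mul_nonneg (mul_nonneg (abs_nonneg _) (abs_nonneg _)) (mul_self_nonneg _)
    simpa using h1
  · rw [Real.norm_eq_abs, abs_mul, abs_mul]
    have h1 : |b X| ≤ |C| := (hbC X).trans (le_abs_self C)
    have h2 : |W X| ≤ |B| := (hB X h0).trans (le_abs_self B)
    have h3 : |ζ X ^ 2 * F X ^ 2| ≤ F X * F X := by
      rw [abs_of_nonneg (by positivity)]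
      have h4 : ζ X ^ 2 ≤ 1 := pow_le_one₀ (hζ.nonneg X) (hζ.le_one X)
      nlinarith [sq_nonneg (F X)]
    exact mul_le_mul (mul_le_mul h1 h2 (abs_nonneg _) (abs_nonneg _)) h3 (abs_nonneg _)
      (mul_nonneg (abs_nonneg _) (abs_nonneg _))

theorem nu_dc_cont {m : ℕ} (hm : 2 ≤ m) (hN : m ≤ N) (j : Fin N) :
    ContinuousOn (fun X : Conf N => nuc m X j / dc m X j ^ 2) {X | Good m X} := by
  have hm1 : 1 ≤ m := le_trans (by norm_num) hm
  refine (continuousOn_nuc hm hN j).div ((continuous_dc hN j).pow 2).continuousOn ?_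
  intro X hX
  exact pow_ne_zero 2 (I11_dc_pos hm1 hN hX j).ne'

theorem nu_dc_bound {m : ℕ} (hm : 2 ≤ m) (hN : m ≤ N) {h Ri : ℝ} (hh : 0 < h) {ζ : Conf N → ℝ}
    (hζ : Cut m h Ri ζ) (j : Fin N) (X : Conf N) (hX : ζ X ≠ 0) : |nuc m X j / dc m X j ^ 2| ≤ Ri / h ^ 2 := by
  obtain ⟨hG, hdj, hRi⟩ := hζ.supp X hX
  have h1 := nuc_le hm hN hG j
  have hd : 0 < dc m X j := lt_of_lt_of_le hh (hdj j)
  rw [abs_of_nonneg (div_nonneg h1.1.le (by positivity))]
  exact div_le_div₀ (h1.1.le.trans (h1.2.trans (hRi j))) (h1.2.trans (hRi j)) (by positivity)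
    (pow_le_pow_left₀ hh.le (hdj j) 2)

/-- `∑_j ν_j / d_j²` against `ζ² F²` -/
theorem int_nu_dc {m : ℕ} (hm : 2 ≤ m) (hN : m ≤ N) {h Ri : ℝ} (hh : 0 < h) {ζ : Conf N → ℝ}
    (hζ : Cut m h Ri ζ) {F : Conf N → ℝ} (hF : LipC F) :
    Integrable (fun X => (∑ j, nuc m X j / dc m X j ^ 2) * (ζ X ^ 2 * F X ^ 2)) := by
  have h1 : ∀ j ∈ (univ : Finset (Fin N)), Integrable
      (fun X => (fun _ => (1 : ℝ)) X * (nuc m X j / dc m X j ^ 2) * (ζ X ^ 2 * F X ^ 2)) :=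
    fun j _ => cut_int hN hζ (b := fun _ => (1 : ℝ)) (C := 1) (nu_dc_cont hm hN j)
      (fun X hX => nu_dc_bound hm hN hh hζ j X hX) measurable_const (fun X => by simp) hF
  refine (integrable_finsetSum _ h1).congr (ae_of_all _ (fun X => ?_))
  simp only [one_mul, Finset.sum_mul]

/-- crowd part -/
theorem int_crowd {m : ℕ} (hm : 2 ≤ m) (hN : m ≤ N) {h Ri : ℝ} (hh : 0 < h) {ζ : Conf N → ℝ}
    (hζ : Cut m h Ri ζ) {F : Conf N → ℝ} (hF : LipC F) :
    Integrable (fun X => (∑ j ∈ crowd m X, nuc m X j / dc m X j ^ 2) * (ζ X ^ 2 * F X ^ 2)) := by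
  have hbm : ∀ j : Fin N, Measurable
      (fun X : Conf N => if dc m X j ≤ ‖X j‖ / 200 then (1 : ℝ) else 0) := by
    intro j
    refine Measurable.ite (measurableSet_le (continuous_dc hN j).measurable ?_) measurable_const
      measurable_const
    exact ((measurable_pi_apply j).norm).div_const 200
  have h1 : ∀ j ∈ (univ : Finset (Fin N)), Integrable
      (fun X => (if dc m X j ≤ ‖X j‖ / 200 then (1 : ℝ) else 0) * (nuc m X j / dc m X j ^ 2)
        * (ζ X ^ 2 * F X ^ 2)) :=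
    fun j _ => cut_int hN hζ (b := fun X => if dc m X j ≤ ‖X j‖ / 200 then (1 : ℝ) else 0)
      (C := 1) (nu_dc_cont hm hN j)
      (fun X hX => nu_dc_bound hm hN hh hζ j X hX) (hbm j)
      (fun X => by split_ifs <;> simp) hF
  refine (integrable_finsetSum _ h1).congr (ae_of_all _ (fun X => ?_))
  simp only [crowd, Finset.sum_filter, Finset.sum_mul]
  refine Finset.sum_congr rfl (fun j _ => ?_)
  split_ifs <;> simp

/-- gain part: `p` bounded measurable -/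
theorem int_gain {m : ℕ} (hm : 2 ≤ m) (hN : m ≤ N) {h Ri : ℝ} (hh : 0 < h) {ζ : Conf N → ℝ}
    (hζ : Cut m h Ri ζ) {F : Conf N → ℝ} (hF : LipC F) {p : Conf N → ℝ} (hp : Measurable p)
    (hp1 : ∀ X, 0 ≤ p X ∧ p X ≤ 1) (a b : ℝ) (i : Fin N) :
    Integrable (fun X => (p X * a - b / dc m X i) * (gw m ζ i X * F X) ^ 2) := by
  have hm1 : 1 ≤ m := le_trans (by norm_num) hm
  have hA : Integrable (fun X => (p X * a) * nuc m X i * (ζ X ^ 2 * F X ^ 2)) := by
    refine cut_int hN hζ (b := fun X => p X * a) (C := |a|) (B := Ri) (continuousOn_nuc hm hN i)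
      ?_ (hp.mul_const a) ?_ hF
    · intro X hX
      obtain ⟨hG, hdj, hRi⟩ := hζ.supp X hX
      have h1 := nuc_le hm hN hG i
      rw [abs_of_nonneg h1.1.le]
      exact h1.2.trans (hRi i)
    · intro X
      rw [abs_mul, abs_of_nonneg (hp1 X).1]
      nlinarith [(hp1 X).2, abs_nonneg a]
  have hBc : ContinuousOn (fun X : Conf N => nuc m X i / dc m X i) {X | Good m X} := by
    refine (continuousOn_nuc hm hN i).div (continuous_dc hN i).continuousOn ?_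
    intro X hX
    exact (I11_dc_pos hm1 hN hX i).ne'
  have hB : Integrable (fun X => b * (nuc m X i / dc m X i) * (ζ X ^ 2 * F X ^ 2)) := by
    refine cut_int hN hζ (b := fun _ => b) (C := |b|) (B := Ri / h) hBc ?_ measurable_const
      (fun X => le_rfl) hF
    intro X hX
    obtain ⟨hG, hdj, hRi⟩ := hζ.supp X hX
    have h1 := nuc_le hm hN hG i
    have hd : 0 < dc m X i := lt_of_lt_of_le hh (hdj i)
    rw [abs_of_nonneg (div_nonneg h1.1.le hd.le)]
    exact div_le_div₀ (h1.1.le.trans (h1.2.trans (hRi i))) (h1.2.trans (hRi i)) hh (hdj i)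
  refine (hA.sub hB).congr (ae_of_all _ (fun X => ?_))
  simp only [Pi.sub_apply]
  by_cases h0 : ζ X = 0
  · simp [gw, h0]
  · obtain ⟨hG, hdj, hRi⟩ := hζ.supp X h0
    have h1 := nuc_le hm hN hG i
    have h2 : (gw m ζ i X * F X) ^ 2 = nuc m X i * (ζ X ^ 2 * F X ^ 2) := by
      unfold gw
      rw [mul_pow, mul_pow, Real.sq_sqrt h1.1.le]
      ring
    rw [h2]
    ring

end Ion
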