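import Pool.Agent.Lib.MP_69e010_mp.I7

/-!
# JOB I8: the basic identity, and splitting off one electron

* `gin_sum_sq`: at a point where `F` and all `g i` are differentiable: `gin k F (∑ g_i² F) = ∑ gin k F (g_i² F)` (`pd` of a finite sum) and `gin_sq_mul` (I4).
* `bil_identity`: a.e. `∑_k gin k F ((∑ g_i²) F) = ∑_i ∑_k gsq k (g_i F) - (∑_i ∑_k gsq k g_i) F²`, the potential and the norm terms are algebra: `F ((∑ g_i²) F) = ∑_i (g_i F)²`. All pieces are integrable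
  (`LipC.mulC`, `LipC.sum`, `LipC.integrable_gsq`, ...); `(∑ gsq g_i) F²` is bounded (`LipC.gsq_bdd`), measurable, with compact support (`integrable_of_bdd_supp` or as a difference of integrable functions a.e.).
* `V_split`: `Vee X = ∑_{i<j} 1/|x_i-x_j|`; so `V z X - (Uo X i - z/|x_i|)` is the potential of the other electrons; here only the trivial algebra `V = (Uo - z/|x_i|) + (V - (Uo - z/|x_i|))` is needed, plus
  the integrability of `Uo X i F²` and `‖X i‖⁻¹ F²` (`integrable_inv_mul`, `integrable_inv_mul_pair`).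
-/

open MeasureTheory Metric Finset Filter Topology

noncomputable section

namespace Ion

variable {N : ℕ}

theorem int_gsq_mul_sq {F g : Conf N → ℝ} (hF : LipC F) (hg : LipC g) (k : Fin N) :
    Integrable (fun X => gsq k g X * F X ^ 2) := by
  obtain ⟨hm, ⟨C, hC⟩, hz⟩ := aux_HC2_sq hF
  obtain ⟨K, hK⟩ := hg.1
  have hC0 : 0 ≤ C := (abs_nonneg _).trans (hC 0)
  refine integrable_of_bdd_supp ((measurable_gsq k g).mul hm) (C := 3 * (K : ℝ) ^ 2 * C) ?_ hF.2 ?_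
  · intro X
    rw [abs_mul, abs_of_nonneg (gsq_nonneg k g X)]
    exact mul_le_mul (gsq_le hK k X) (hC X) (abs_nonneg _) (by positivity)
  · intro X hX
    rw [hz X hX, mul_zero]

theorem int_Uo {F : Conf N → ℝ} (hF : LipC F) (z : ℝ) (i : Fin N) :
    Integrable (fun X => (Uo X i - z / ‖X i‖) * F X ^ 2) := by
  obtain ⟨hm, ⟨C, hC⟩, hz⟩ := aux_HC2_sq hF
  have h1 : Integrable (fun X : Conf N => ∑ j ∈ univ.erase i, ‖X i - X j‖⁻¹ * F X ^ 2) := by
    refine integrable_finsetSum _ (fun j hj => ?_)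
    exact integrable_inv_mul_pair hm hC hF.2 hz (Finset.ne_of_mem_erase hj).symm
  have h2 := (integrable_inv_mul hm hC hF.2 hz i).const_mul z
  refine (h1.sub h2).congr (ae_of_all _ (fun X => ?_))
  simp only [Pi.sub_apply]
  rw [← Finset.sum_mul]
  unfold Uo
  rw [div_eq_mul_inv]
  ring

theorem I8_gin {F : Conf N → ℝ} {g : Fin N → Conf N → ℝ} {X : Conf N} (hF : DifferentiableAt ℝ F X)
    (hg : ∀ i, DifferentiableAt ℝ (g i) X) (k : Fin N) :
    gin k F (fun X => (∑ i, g i X ^ 2) * F X) X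
      = ∑ i, gsq k (fun X => g i X * F X) X - (∑ i, gsq k (g i) X) * F X ^ 2 := by
  have h1 : ∀ c, pd k c (fun X => (∑ i, g i X ^ 2) * F X) X
      = ∑ i, pd k c (fun X => g i X ^ 2 * F X) X := by
    intro c
    unfold pd
    have h2 : (fun X => (∑ i, g i X ^ 2) * F X) = fun X => ∑ i, g i X ^ 2 * F X := by
      funext Y
      rw [Finset.sum_mul]
    have h4 : ∀ i ∈ (univ : Finset (Fin N)), DifferentiableAt ℝ (fun X => g i X ^ 2 * F X) X :=
      fun i _ => ((hg i).pow 2).mul hF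
    rw [h2, fderiv_fun_sum h4]
    simp
  have h3 : gin k F (fun X => (∑ i, g i X ^ 2) * F X) X
      = ∑ i, gin k F (fun X => g i X ^ 2 * F X) X := by
    unfold gin
    simp only [h1, Finset.mul_sum]
    rw [Finset.sum_comm]
  rw [h3, Finset.sum_mul, ← Finset.sum_sub_distrib]
  exact Finset.sum_congr rfl (fun i _ => gin_sq_mul hF (hg i) k)

theorem I8_kin {F : Conf N → ℝ} (hF : LipC F) {g : Fin N → Conf N → ℝ} (hg : ∀ i, LipC (g i)) :
    ∫ X, ∑ k, gin k F (fun X => (∑ i, g i X ^ 2) * F X) X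
      = ∑ i, (∫ X, ∑ k, gsq k (fun X => g i X * F X) X)
        - ∫ X, (∑ i, ∑ k, gsq k (g i) X) * F X ^ 2 := by
  have hgd : ∀ᵐ X : Conf N, ∀ i, DifferentiableAt ℝ (g i) X := ae_all_iff.2 (fun i => (hg i).ae_diffC)
  have h1 : ∀ᵐ X : Conf N, ∑ k, gin k F (fun X => (∑ i, g i X ^ 2) * F X) X
      = (∑ i, ∑ k, gsq k (fun X => g i X * F X) X) - (∑ i, ∑ k, gsq k (g i) X) * F X ^ 2 := by
    filter_upwards [hF.ae_diffC, hgd] with X hX hgX
    have h2 : ∀ k, gin k F (fun X => (∑ i, g i X ^ 2) * F X) X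
      = ∑ i, gsq k (fun X => g i X * F X) X - (∑ i, gsq k (g i) X) * F X ^ 2 := fun k => I8_gin hX hgX k
    rw [Finset.sum_congr rfl (fun k _ => h2 k), Finset.sum_sub_distrib, ← Finset.sum_mul]
    rw [Finset.sum_comm]
    congr 2
    rw [Finset.sum_comm]
  have hi1 : ∀ i, Integrable (fun X => ∑ k, gsq k (fun X => g i X * F X) X) := fun i =>
    integrable_finsetSum _ (fun k _ => ((hg i).mulC hF).integrable_gsq k)
  have hi2 : Integrable (fun X => (∑ i, ∑ k, gsq k (g i) X) * F X ^ 2) := by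
    have : (fun X => (∑ i, ∑ k, gsq k (g i) X) * F X ^ 2)
        = fun X => ∑ i, ∑ k, gsq k (g i) X * F X ^ 2 := by
      funext X
      rw [Finset.sum_mul]
      refine Finset.sum_congr rfl (fun i _ => ?_)
      rw [Finset.sum_mul]
    rw [this]
    exact integrable_finsetSum _ (fun i _ => integrable_finsetSum _ (fun k _ => int_gsq_mul_sq hF (hg i) k))
  rw [integral_congr_ae h1, integral_sub (integrable_finsetSum _ (fun i _ => hi1 i)) hi2,
    integral_finsetSum _ (fun i _ => hi1 i)]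

theorem I8_pot {F : Conf N → ℝ} (hF : LipC F) {g : Fin N → Conf N → ℝ} (hg : ∀ i, LipC (g i)) (z : ℝ) :
    ∫ X, V z X * (F X * ((∑ i, g i X ^ 2) * F X)) = ∑ i, ∫ X, V z X * (g i X * F X) ^ 2 := by
  rw [← integral_finsetSum _ (fun i _ => ((hg i).mulC hF).integrable_V z)]
  refine integral_congr_ae (ae_of_all _ (fun X => ?_))
  simp only
  rw [← Finset.mul_sum]
  congr 1
  rw [Finset.sum_mul, Finset.mul_sum]
  refine Finset.sum_congr rfl (fun i _ => ?_)
  ring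

theorem I8_nrm {F : Conf N → ℝ} (hF : LipC F) {g : Fin N → Conf N → ℝ} (hg : ∀ i, LipC (g i)) :
    ∫ X, F X * ((∑ i, g i X ^ 2) * F X) = ∑ i, ∫ X, (g i X * F X) ^ 2 := by
  rw [← integral_finsetSum _ (fun i _ => ((hg i).mulC hF).integrable_sq)]
  refine integral_congr_ae (ae_of_all _ (fun X => ?_))
  simp only
  rw [Finset.sum_mul, Finset.mul_sum]
  refine Finset.sum_congr rfl (fun i _ => ?_)
  ring

theorem bil_identity {z : ℝ} {ψ : RW N} (hψ : ∀ σ, LipC (ψ σ)) {g : Fin N → Conf N → ℝ} (hg : ∀ i, LipC (g i)) :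
    bil z ψ (mulw (fun X => ∑ i, g i X ^ 2) ψ)
      = ∑ i, QQ z (mulw (g i) ψ) - ∑ σ, ∫ X, (∑ i, ∑ k, gsq k (g i) X) * ψ σ X ^ 2 := by
  unfold bil QQ qf TT nrm2 mulw
  have h1 : (∑ σ, ∫ X, ∑ k, gin k (ψ σ) (fun X => (∑ i, g i X ^ 2) * ψ σ X) X)
      = ∑ σ, ∑ i, (∫ X, ∑ k, gsq k (fun X => g i X * ψ σ X) X)
        - ∑ σ, ∫ X, (∑ i, ∑ k, gsq k (g i) X) * ψ σ X ^ 2 := by
    rw [← Finset.sum_sub_distrib]
    exact Finset.sum_congr rfl (fun σ _ => I8_kin (hψ σ) hg)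
  have h2 : (∑ σ, ∫ X, V z X * (ψ σ X * ((∑ i, g i X ^ 2) * ψ σ X)))
      = ∑ σ, ∑ i, ∫ X, V z X * (g i X * ψ σ X) ^ 2 :=
    Finset.sum_congr rfl (fun σ _ => I8_pot (hψ σ) hg z)
  have h3 : (∑ σ, ∫ X, ψ σ X * ((∑ i, g i X ^ 2) * ψ σ X))
      = ∑ σ, ∑ i, ∫ X, (g i X * ψ σ X) ^ 2 :=
    Finset.sum_congr rfl (fun σ _ => I8_nrm (hψ σ) hg)
  rw [h1, h2, h3, Finset.sum_comm (γ := Spin N) (f := fun σ i => ∫ X, ∑ k, gsq k (fun X => g i X * ψ σ X) X),
    Finset.sum_comm (γ := Spin N) (f := fun σ i => ∫ X, V z X * (g i X * ψ σ X) ^ 2),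
    Finset.sum_comm (γ := Spin N) (f := fun σ i => ∫ X, (g i X * ψ σ X) ^ 2)]
  rw [Finset.sum_sub_distrib, Finset.sum_add_distrib, Finset.mul_sum]
  ring

theorem QQ_split {z : ℝ} {F : RW N} (hF : ∀ σ, LipC (F σ)) (i : Fin N) :
    QQ z F = (∑ σ, ∫ X, gsq i (F σ) X) + (∑ σ, ∫ X, (Uo X i - z / ‖X i‖) * F σ X ^ 2)
      + ∑ σ, ∫ X, ((∑ k ∈ univ.erase i, gsq k (F σ) X)
          + (V z X - (Uo X i - z / ‖X i‖) - EN z N) * F σ X ^ 2) := by
  unfold QQ qf TT nrm2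
  rw [Finset.mul_sum, ← Finset.sum_add_distrib, ← Finset.sum_sub_distrib, ← Finset.sum_add_distrib,
    ← Finset.sum_add_distrib]
  refine Finset.sum_congr rfl (fun σ _ => ?_)
  have i1 := (hF σ).integrable_gsq i
  have i2 := int_Uo (hF σ) z i
  have i3 : Integrable (fun X => ∑ k ∈ univ.erase i, gsq k (F σ) X) :=
    integrable_finsetSum _ (fun k _ => (hF σ).integrable_gsq k)
  have i4 := (hF σ).integrable_V z
  have i5 := ((hF σ).integrable_sq).const_mul (EN z N)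
  have i6 : Integrable (fun X => V z X * F σ X ^ 2 - (Uo X i - z / ‖X i‖) * F σ X ^ 2) := i4.sub i2
  have i7 : Integrable (fun X => V z X * F σ X ^ 2 - (Uo X i - z / ‖X i‖) * F σ X ^ 2 - EN z N * F σ X ^ 2) :=
    i6.sub i5
  have e1 : ∫ X, ∑ k, gsq k (F σ) X = (∫ X, gsq i (F σ) X) + ∫ X, ∑ k ∈ univ.erase i, gsq k (F σ) X := by
    rw [← integral_add i1 i3]
    refine integral_congr_ae (ae_of_all _ (fun X => ?_))
    exact (Finset.add_sum_erase _ _ (Finset.mem_univ i)).symm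
  have e2 : ∫ X, ((∑ k ∈ univ.erase i, gsq k (F σ) X)
          + (V z X - (Uo X i - z / ‖X i‖) - EN z N) * F σ X ^ 2)
      = (∫ X, ∑ k ∈ univ.erase i, gsq k (F σ) X) + ((∫ X, V z X * F σ X ^ 2)
        - (∫ X, (Uo X i - z / ‖X i‖) * F σ X ^ 2) - ∫ X, EN z N * F σ X ^ 2) := by
    rw [← integral_sub i4 i2, ← integral_sub i6 i5, ← integral_add i3 i7]
    refine integral_congr_ae (ae_of_all _ (fun X => ?_))
    simp only
    ring
  rw [e1, e2, integral_const_mul]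
  ring

end Ion
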