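import Pool.Agent.Lib.MP_69e010_mp.KLApi
import Pool.Agent.Lib.MP_69e010_mp.I8
import Pool.Agent.Lib.MP_69e010_mp.I11

/-!
# JOB I12: the combination (sections 6, 8, 9, 10 together)

`pointwise hm` (SApi) gives `R0, z1, C3`; `rest_lower hm` (KLApi) gives `R1`. Put `R = max R0 R1`. Then `pointwise` gives `Q0, Cs` for this `R`, `rest_lower` gives `Q1`; the theorem holds with `max Q0 Q1`.
Fix `z, N, h, Ri, ζ, ψ` and `p` from `rest_lower`. Write `g i = gw m ζ i`, `Q = N - z`. By `bil_identity` (with `Gt m ζ = fun X => ∑ i, g i X ^ 2` definitionally) and `QQ_split` for each `i`: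
 `bil z ψ (mulw (Gt m ζ) ψ) = ∑_i ∑_σ ∫ gsq i (g_i ψ_σ) + ∑_i ∑_σ ∫ (Uo X i - z/|X i|) (g_i ψ_σ)² + ∑_i (rest_i) - ∑_σ ∫ (∑_i ∑_k gsq k g_i) ψ_σ²`
* first term: `kinetic` (KLApi) (sum over `i` inside the integral, `integral_finsetSum`, integrable by `LipC.integrable_gsq`),
* rest_i: `rest_lower`,
* last term: `cut_grad` (I11), integrable (`int_gsq_mul_sq`).
 So `bil + 2 N Ri ∑_σ ∫ (∑_k gsq k ζ) ψ_σ² ≥ ∑_σ ∫ T(X) ζ² ψ_σ²` with
 `T = 10^4 ∑_crowd ν/d² - (801 + 864) ∑ ν/d² + ∑ ν_i (Uo_i - z/|x_i|) + ∑ ν_i (p_i c1/16 Q/(4R) - (c1/64)/(eps d_i))`,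
 using `(g_i ψ)² = ν_i ζ² ψ²` on the support of `ζ` (`√ν ^ 2 = ν`, `nuc_le`). For a.e. `X` (`ae_gen`, `ae_distinct`) with `ζ X ≠ 0`, `pointwise` gives `T ≥ c1/4 Q - Cs - C3 #{...}` (`801 + 864 ≤ 2000`, `ν/d² ≥ 0`). Integrate
 (`integral_mono_ae`; integrability: `int_nu_dc`, `int_crowd`, `int_gain`, `int_Uo` for `F = g_i ψ_σ` (`LipC.mulC`), and for the lower bound: bounded measurable function times `ζ² ψ²`, the card is
 `∑_j (if ‖X j‖ < a then 1 else 0)`, see `near_int` below).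
-/

open MeasureTheory Metric Finset Filter Topology

noncomputable section

namespace Ion

variable {N : ℕ}

theorem near_int {m : ℕ} (hN : m ≤ N) {h Ri : ℝ} {ζ : Conf N → ℝ} (hζ : Cut m h Ri ζ) {F : Conf N → ℝ} (hF : LipC F)
    (a b c : ℝ) :
    Integrable (fun X : Conf N => (b - c * (univ.filter fun j => ‖X j‖ < a).card) * (ζ X ^ 2 * F X ^ 2)) := by
  have hcard : ∀ X : Conf N, ((univ.filter fun j => ‖X j‖ < a).card : ℝ) = ∑ j, if ‖X j‖ < a then (1 : ℝ) else 0 :=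
    fun X => (Finset.sum_boole (fun j => ‖X j‖ < a) univ).symm
  have hmeas : Measurable (fun X : Conf N => b - c * ((univ.filter fun j => ‖X j‖ < a).card : ℝ)) := by
    simp_rw [hcard]
    refine measurable_const.sub (Measurable.const_mul (Finset.measurable_fun_sum _ (fun j _ => ?_)) c)
    exact Measurable.ite (measurableSet_lt (measurable_pi_apply j).norm measurable_const)
      measurable_const measurable_const
  have hbd : ∀ X : Conf N, |b - c * ((univ.filter fun j => ‖X j‖ < a).card : ℝ)| ≤ |b| + |c| * N := by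
    intro X
    refine (abs_sub _ _).trans ?_
    rw [abs_mul, Nat.abs_cast]
    have h1 : ((univ.filter fun j => ‖X j‖ < a).card : ℝ) ≤ N := by
      have h2 := Finset.card_filter_le (univ : Finset (Fin N)) (fun j => ‖X j‖ < a)
      rw [Finset.card_univ, Fintype.card_fin] at h2
      exact_mod_cast h2
    exact add_le_add le_rfl (mul_le_mul_of_nonneg_left h1 (abs_nonneg c))
  have h3 := cut_int hN hζ (W := fun _ => (1 : ℝ)) (B := 1) continuousOn_const (fun X _ => by simp) hmeas hbd hF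
  simpa using h3

/-- the pointwise bound multiplied with the wave function -/
theorem I12_point {m : ℕ} (hm : 2 ≤ m) (hN : m ≤ N) {h Ri : ℝ} {ζ : Conf N → ℝ}
    (hζ : Cut m h Ri ζ) {X : Conf N} {u g : Fin N → ℝ} {T f : ℝ}
    (hT : ζ X ≠ 0 → T ≤ ∑ i, nuc m X i * u i + ∑ i, nuc m X i * g i
      + 10 ^ 4 * ∑ j ∈ crowd m X, nuc m X j / dc m X j ^ 2 - 2000 * ∑ j, nuc m X j / dc m X j ^ 2) :
    T * (ζ X ^ 2 * f ^ 2) ≤ (10 ^ 4 * ∑ j ∈ crowd m X, nuc m X j / dc m X j ^ 2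
        - 801 * ∑ j, nuc m X j / dc m X j ^ 2) * (ζ X ^ 2 * f ^ 2)
      + ∑ i, u i * (gw m ζ i X * f) ^ 2 + ∑ i, g i * (gw m ζ i X * f) ^ 2
      - 864 * ((∑ j, nuc m X j / dc m X j ^ 2) * (ζ X ^ 2 * f ^ 2)) := by
  by_cases h0 : ζ X = 0
  · simp [gw, h0]
  · have hG : Good m X := (hζ.supp X h0).1
    have hsq : ∀ i, (gw m ζ i X * f) ^ 2 = nuc m X i * (ζ X ^ 2 * f ^ 2) := by
      intro i
      unfold gw
      rw [mul_pow, mul_pow, Real.sq_sqrt (nuc_le hm hN hG i).1.le]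
      ring
    have hS : 0 ≤ ∑ j, nuc m X j / dc m X j ^ 2 :=
      Finset.sum_nonneg (fun j _ => div_nonneg (nuc_le hm hN hG j).1.le (sq_nonneg _))
    have hw : 0 ≤ ζ X ^ 2 * f ^ 2 := by positivity
    have e1 : ∑ i, u i * (gw m ζ i X * f) ^ 2 = (∑ i, nuc m X i * u i) * (ζ X ^ 2 * f ^ 2) := by
      rw [Finset.sum_mul]
      exact Finset.sum_congr rfl (fun i _ => by rw [hsq i]; ring)
    have e2 : ∑ i, g i * (gw m ζ i X * f) ^ 2 = (∑ i, nuc m X i * g i) * (ζ X ^ 2 * f ^ 2) := by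
      rw [Finset.sum_mul]
      exact Finset.sum_congr rfl (fun i _ => by rw [hsq i]; ring)
    have h1 := mul_le_mul_of_nonneg_right (hT h0) hw
    have h2 := mul_nonneg hS hw
    rw [e1, e2]
    nlinarith

theorem basic_lower {m : ℕ} (hm : 10 ^ 30 ≤ m) :
    ∃ z1 C3 Cs Q0 : ℝ, 1 ≤ z1 ∧ 0 < C3 ∧ 512 * C3 ≤ z1 ^ 2 * c1 m ∧
      ∀ z : ℝ, 0 < z → ∀ N : ℕ, m ≤ N → Q0 ≤ (N : ℝ) - z → ∀ (h Ri : ℝ) (ζ : Conf N → ℝ) (ψ : RW N),
        0 < h → Cut m h Ri ζ → Adms ψ →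
        ∑ σ, ∫ X, (c1 m / 4 * ((N : ℝ) - z) - Cs
              - C3 * (univ.filter fun j => ‖X j‖ < ((z + z1) ^ 2)⁻¹).card) * (ζ X ^ 2 * ψ σ X ^ 2)
          ≤ bil z ψ (mulw (Gt m ζ) ψ) + 2 * N * Ri * ∑ σ, ∫ X, (∑ k, gsq k ζ X) * ψ σ X ^ 2 := by
  obtain ⟨R0, z1, C3, hR0, hz1, hC3, h512, hpt⟩ := pointwise hm
  obtain ⟨R1, hR1, hrest⟩ := rest_lower hm
  obtain ⟨Q0, Cs, hpt⟩ := hpt (max R0 R1) (le_max_left _ _)
  obtain ⟨Q1, hrest⟩ := hrest (max R0 R1) (le_max_right _ _)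
  generalize max R0 R1 = R at hpt hrest
  refine ⟨z1, C3, Cs, max Q0 Q1, hz1, hC3, h512, ?_⟩
  intro z hz N hN hQ h Ri ζ ψ hh hζ hψ
  obtain ⟨p, hpm, hp01, hph, hrest⟩ := hrest z hz N hN ((le_max_right _ _).trans hQ)
  have hQ0 : Q0 ≤ (N : ℝ) - z := (le_max_left _ _).trans hQ
  have hm4 : 10 ^ 4 ≤ m := le_trans (by norm_num) hm
  have hm2 : 2 ≤ m := le_trans (by norm_num) hm
  have hg : ∀ i, LipC (gw m ζ i) := fun i => gw_lipC hm2 hN hh hζ i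
  have hF : ∀ i σ, LipC (fun X => gw m ζ i X * ψ σ X) := fun i σ => (hg i).mulC (hψ.1 σ)
  have hζL : LipC ζ := cut_lipC hζ
  -- the gain term
  have iG : ∀ i σ, Integrable (fun X => (p X i * (c1 m / 16) * ((N : ℝ) - z) / (4 * R)
      - (c1 m / 64) / (eps m * dc m X i)) * (gw m ζ i X * ψ σ X) ^ 2) := by
    intro i σ
    have h1 := int_gain hm2 hN hh hζ (hψ.1 σ) (hpm i) (fun X => hp01 X i)
      ((c1 m / 16) * ((N : ℝ) - z) / (4 * R)) ((c1 m / 64) / eps m) i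
    refine h1.congr (Eventually.of_forall (fun X => ?_))
    simp only
    rw [div_div]
    ring
  have iB : ∀ i σ, Integrable (fun X => (Uo X i - z / ‖X i‖) * (gw m ζ i X * ψ σ X) ^ 2) :=
    fun i σ => int_Uo (hF i σ) z i
  have iL : ∀ σ, Integrable (fun X => (∑ j, nuc m X j / dc m X j ^ 2) * (ζ X ^ 2 * ψ σ X ^ 2)) :=
    fun σ => int_nu_dc hm2 hN hh hζ (hψ.1 σ)
  have iC : ∀ σ, Integrable (fun X => (∑ j ∈ crowd m X, nuc m X j / dc m X j ^ 2) * (ζ X ^ 2 * ψ σ X ^ 2)) :=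
    fun σ => int_crowd hm2 hN hh hζ (hψ.1 σ)
  have iK : ∀ σ, Integrable (fun X => (10 ^ 4 * ∑ j ∈ crowd m X, nuc m X j / dc m X j ^ 2
      - 801 * ∑ j, nuc m X j / dc m X j ^ 2) * (ζ X ^ 2 * ψ σ X ^ 2)) := by
    intro σ
    refine (((iC σ).const_mul (10 ^ 4)).sub ((iL σ).const_mul 801)).congr (Eventually.of_forall (fun X => ?_))
    simp only [Pi.sub_apply]
    ring
  have iT : ∀ σ, Integrable (fun X : Conf N => (c1 m / 4 * ((N : ℝ) - z) - Cs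
      - C3 * (univ.filter fun j => ‖X j‖ < ((z + z1) ^ 2)⁻¹).card) * (ζ X ^ 2 * ψ σ X ^ 2)) :=
    fun σ => near_int hN hζ (hψ.1 σ) _ _ _
  have iZ : ∀ σ k, Integrable (fun X => gsq k ζ X * ψ σ X ^ 2) := fun σ k => int_gsq_mul_sq (hψ.1 σ) hζL k
  have iZ' : ∀ σ, Integrable (fun X => (∑ k, gsq k ζ X) * ψ σ X ^ 2) := by
    intro σ
    simp_rw [Finset.sum_mul]
    exact integrable_finsetSum _ (fun k _ => iZ σ k)
  have iE : ∀ σ, Integrable (fun X => (∑ i, ∑ k, gsq k (gw m ζ i) X) * ψ σ X ^ 2) := by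
    intro σ
    simp_rw [Finset.sum_mul]
    exact integrable_finsetSum _ (fun i _ => integrable_finsetSum _ (fun k _ => int_gsq_mul_sq (hψ.1 σ) (hg i) k))
  -- F1
  have F1 := kinetic hm hN hh hζ hψ
  have F1' : ∑ σ, ∫ X, ∑ i, gsq i (fun Y => gw m ζ i Y * ψ σ Y) X
      = ∑ i, ∑ σ, ∫ X, gsq i (fun Y => gw m ζ i Y * ψ σ Y) X := by
    rw [Finset.sum_comm]
    refine Finset.sum_congr rfl (fun σ _ => ?_)
    exact integral_finsetSum _ (fun i _ => (hF i σ).integrable_gsq i)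
  -- F2
  have F2 : ∀ i, _ := fun i => hrest h Ri ζ ψ hh hζ hψ i
  -- F3
  have F3 : ∀ σ, ∫ X, (∑ i, ∑ k, gsq k (gw m ζ i) X) * ψ σ X ^ 2
      ≤ 864 * (∫ X, (∑ j, nuc m X j / dc m X j ^ 2) * (ζ X ^ 2 * ψ σ X ^ 2))
        + 2 * N * Ri * ∫ X, (∑ k, gsq k ζ X) * ψ σ X ^ 2 := by
    intro σ
    rw [← integral_const_mul, ← integral_const_mul,
      ← integral_add ((iL σ).const_mul 864) ((iZ' σ).const_mul (2 * N * Ri))]
    refine integral_mono_ae (iE σ) (((iL σ).const_mul 864).add ((iZ' σ).const_mul (2 * N * Ri))) ?_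
    filter_upwards [cut_grad hm4 hN hh hζ] with X hX
    calc (∑ i, ∑ k, gsq k (gw m ζ i) X) * ψ σ X ^ 2
        ≤ (864 * (∑ i, nuc m X i / dc m X i ^ 2) * ζ X ^ 2 + 2 * N * Ri * ∑ k, gsq k ζ X) * ψ σ X ^ 2 :=
          mul_le_mul_of_nonneg_right hX (sq_nonneg _)
      _ = _ := by ring
  -- F4
  have F4 : bil z ψ (mulw (Gt m ζ) ψ)
      = ∑ i, QQ z (mulw (gw m ζ i) ψ) - ∑ σ, ∫ X, (∑ i, ∑ k, gsq k (gw m ζ i) X) * ψ σ X ^ 2 :=
    bil_identity (z := z) hψ.1 hg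
  have F4' : ∀ i, QQ z (mulw (gw m ζ i) ψ) =
      (∑ σ, ∫ X, gsq i (fun Y => gw m ζ i Y * ψ σ Y) X)
        + (∑ σ, ∫ X, (Uo X i - z / ‖X i‖) * (gw m ζ i X * ψ σ X) ^ 2)
        + ∑ σ, ∫ X, ((∑ k ∈ univ.erase i, gsq k (fun Y => gw m ζ i Y * ψ σ Y) X)
          + (V z X - (Uo X i - z / ‖X i‖) - EN z N) * (gw m ζ i X * ψ σ X) ^ 2) :=
    fun i => QQ_split (z := z) (F := mulw (gw m ζ i) ψ) (fun σ => hF i σ) i
  -- F5
  have F5 : ∀ σ, ∫ X, (c1 m / 4 * ((N : ℝ) - z) - Cs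
        - C3 * (univ.filter fun j => ‖X j‖ < ((z + z1) ^ 2)⁻¹).card) * (ζ X ^ 2 * ψ σ X ^ 2)
      ≤ (∫ X, (10 ^ 4 * ∑ j ∈ crowd m X, nuc m X j / dc m X j ^ 2
          - 801 * ∑ j, nuc m X j / dc m X j ^ 2) * (ζ X ^ 2 * ψ σ X ^ 2))
        + (∑ i, ∫ X, (Uo X i - z / ‖X i‖) * (gw m ζ i X * ψ σ X) ^ 2)
        + (∑ i, ∫ X, (p X i * (c1 m / 16) * ((N : ℝ) - z) / (4 * R)
          - (c1 m / 64) / (eps m * dc m X i)) * (gw m ζ i X * ψ σ X) ^ 2)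
        - 864 * ∫ X, (∑ j, nuc m X j / dc m X j ^ 2) * (ζ X ^ 2 * ψ σ X ^ 2) := by
    intro σ
    have iB' := integrable_finsetSum univ (fun i _ => iB i σ)
    have iG' := integrable_finsetSum univ (fun i _ => iG i σ)
    have i1 : Integrable (fun X => (10 ^ 4 * ∑ j ∈ crowd m X, nuc m X j / dc m X j ^ 2
          - 801 * ∑ j, nuc m X j / dc m X j ^ 2) * (ζ X ^ 2 * ψ σ X ^ 2)
        + ∑ i, (Uo X i - z / ‖X i‖) * (gw m ζ i X * ψ σ X) ^ 2) := (iK σ).add iB'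
    have i2 : Integrable (fun X => (10 ^ 4 * ∑ j ∈ crowd m X, nuc m X j / dc m X j ^ 2
          - 801 * ∑ j, nuc m X j / dc m X j ^ 2) * (ζ X ^ 2 * ψ σ X ^ 2)
        + ∑ i, (Uo X i - z / ‖X i‖) * (gw m ζ i X * ψ σ X) ^ 2
        + ∑ i, (p X i * (c1 m / 16) * ((N : ℝ) - z) / (4 * R)
          - (c1 m / 64) / (eps m * dc m X i)) * (gw m ζ i X * ψ σ X) ^ 2) := i1.add iG'
    have i3 : Integrable (fun X => (10 ^ 4 * ∑ j ∈ crowd m X, nuc m X j / dc m X j ^ 2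
          - 801 * ∑ j, nuc m X j / dc m X j ^ 2) * (ζ X ^ 2 * ψ σ X ^ 2)
        + ∑ i, (Uo X i - z / ‖X i‖) * (gw m ζ i X * ψ σ X) ^ 2
        + ∑ i, (p X i * (c1 m / 16) * ((N : ℝ) - z) / (4 * R)
          - (c1 m / 64) / (eps m * dc m X i)) * (gw m ζ i X * ψ σ X) ^ 2
        - 864 * ((∑ j, nuc m X j / dc m X j ^ 2) * (ζ X ^ 2 * ψ σ X ^ 2))) := i2.sub ((iL σ).const_mul 864)
    rw [← integral_finsetSum _ (fun i _ => iB i σ), ← integral_finsetSum _ (fun i _ => iG i σ),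
      ← integral_const_mul, ← integral_add (iK σ) iB', ← integral_add i1 iG',
      ← integral_sub i2 ((iL σ).const_mul 864)]
    refine integral_mono_ae (iT σ) i3 ?_
    filter_upwards [ae_gen hm2 hN, ae_distinct] with X hX hX'
    refine I12_point hm2 hN hζ (u := fun i => Uo X i - z / ‖X i‖)
      (g := fun i => p X i * (c1 m / 16) * ((N : ℝ) - z) / (4 * R) - (c1 m / 64) / (eps m * dc m X i))
      (fun _ => ?_)
    exact hpt z hz N hN X hX.1 hX'.2 (fun j => p X j) (fun j => (hp01 X j).1) (fun j => hph X j) hQ0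
  -- conclusion
  have G1 := Finset.sum_le_sum (fun σ (_ : σ ∈ (univ : Finset (Spin N))) => F5 σ)
  have G3 := Finset.sum_le_sum (fun σ (_ : σ ∈ (univ : Finset (Spin N))) => F3 σ)
  have G2 := Finset.sum_le_sum (fun i (_ : i ∈ (univ : Finset (Fin N))) => F2 i)
  rw [Finset.sum_sub_distrib, Finset.sum_add_distrib, Finset.sum_add_distrib, ← Finset.mul_sum] at G1
  rw [Finset.sum_add_distrib, ← Finset.mul_sum, ← Finset.mul_sum] at G3
  rw [Finset.sum_comm] at G2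
  rw [F4, Finset.sum_congr rfl (fun i _ => F4' i), Finset.sum_add_distrib, Finset.sum_add_distrib, ← F1',
    Finset.sum_comm (f := fun i σ => ∫ X, (Uo X i - z / ‖X i‖) * (gw m ζ i X * ψ σ X) ^ 2)]
  linarith

end Ion
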