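import Pool.Agent.Lib.MP_69e010_mp.I5
import Pool.Agent.Lib.MP_69e010_mp.I0

/-!
# JOB I6: the explicit cutoffs are cutoffs; gradient bound

Write `ℓ = log (1/h) > 0` (`0 < h < 1`).
* `cl_lip`: `|cl s - cl t| ≤ |s - t|`; `0 ≤ cl t ≤ 1`; `cl t = 1` for `t ≥ 1`, `cl t = 0` for `t ≤ 0`.
* `zinf_lip`: `|zinf R X - zinf R X'| ≤ |‖X‖ - ‖X'‖| / R`.
* `zcc_lip_loc`: for `a, b ≥ c > 0`: `|log a - log b| ≤ |a - b| / c` (`Real.log_le_sub_one_of_pos` applied to `a / b`). For all `X, X'`: with `a = max μ h²`, `b = max μ' h²`: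
  `|zcc X - zcc X'| ≤ |log a - log b| / ℓ ≤ |a - b| / (ℓ h²) ≤ 2 ‖X - X'‖ / (ℓ h²)`; and if `0 < c ≤ μ(X), μ(X')`, then `a, b ≥ c` and the bound is `2 ‖X - X'‖ / (ℓ c)`.
* `zt_cut`: product of bounded Lipschitz functions; permutations: `‖X ∘ π‖ = ‖X‖`, `muX_perm`. Support: `zt X ≠ 0` gives `zinf ≠ 0`, so `‖X‖ < 2 R`, and `zcc ≠ 0`, so `max μ h² > h²`, so `μ > h²`; `good_of_muX_pos`,
  `muX_le`.
* `zt_grad`: `norm_fderiv_le_of_lip'`. If `muX m X = 0`: near `X` `muX < h²` (continuity), so `zcc = 0`, `zt = 0` near `X` and the derivative is `0`. (In Lean `2 / (0 * ℓ) = 0`.)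
  If `μ = muX m X > 0`: let `0 < c < μ`; near `X` `muX ≥ c`, so `|zt X' - zt X| ≤ |zinf X' - zinf X| + |zcc X' - zcc X| ≤ (1/R + 2/(c ℓ)) ‖X' - X‖`, so the norm of the derivative is `≤ 1/R + 2/(c ℓ)`;
  let `c → μ`.
* `sum_gsq_le_fderiv`: `gsq k F X = |w_k|²` with `w_k = ∑_c (pd k c F X) e_c ∈ E3`. Take `v = (w_k/|w_k|)_k` (`0` if `w_k = 0`), `‖v‖ ≤ 1` (max norm), `fderiv F X v = ∑_k |w_k|`. So `∑_k |w_k|² ≤ (∑_k |w_k|)² ≤ ‖fderiv‖²`.
* `zt_gsq`: `(a + b)² ≤ 2a² + 2b²`.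
-/

open MeasureTheory Metric Finset Filter Topology

noncomputable section

namespace Ion

variable {N : ℕ}

theorem cl_nonneg (t : ℝ) : 0 ≤ cl t := le_max_left _ _

theorem cl_le_one (t : ℝ) : cl t ≤ 1 := max_le zero_le_one (min_le_left _ _)

theorem cl_lip (s t : ℝ) : |cl s - cl t| ≤ |s - t| := by
  unfold cl
  rw [max_comm 0, max_comm 0, min_comm 1, min_comm 1]
  refine (abs_max_sub_max_le_abs _ _ _).trans ?_
  refine (abs_min_sub_min_le_max _ _ _ _).trans ?_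
  rw [sub_self, abs_zero]
  exact max_le le_rfl (abs_nonneg _)

theorem I6_cl_one {t : ℝ} (h : 1 ≤ t) : cl t = 1 := by
  unfold cl
  rw [min_eq_left h, max_eq_right zero_le_one]

theorem I6_cl_zero {t : ℝ} (h : t ≤ 0) : cl t = 0 := by
  unfold cl
  rw [min_eq_right (h.trans zero_le_one), max_eq_left h]

theorem I6_ell {h : ℝ} (hh : 0 < h) (hh1 : h < 1) : 0 < Real.log (1 / h) :=
  Real.log_pos ((one_lt_div hh).2 hh1)

theorem I6_log {a b c : ℝ} (hc : 0 < c) (ha : c ≤ a) (hb : c ≤ b) :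
    |Real.log a - Real.log b| ≤ |a - b| / c := by
  have key : ∀ x y : ℝ, c ≤ x → c ≤ y → Real.log x - Real.log y ≤ |x - y| / c := by
    intro x y hx hy
    have hx0 : 0 < x := lt_of_lt_of_le hc hx
    have hy0 : 0 < y := lt_of_lt_of_le hc hy
    rw [← Real.log_div hx0.ne' hy0.ne']
    refine (Real.log_le_sub_one_of_pos (div_pos hx0 hy0)).trans ?_
    have h1 : x / y - 1 = (x - y) / y := by
      field_simp
    rw [h1]
    exact (div_le_div_of_nonneg_right (le_abs_self _) hy0.le).trans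
      (div_le_div_of_nonneg_left (abs_nonneg _) hc hy)
  rw [abs_le]
  have h1 := key a b ha hb
  have h2 := key b a hb ha
  rw [abs_sub_comm] at h2
  constructor <;> linarith

theorem I6_zinf_lip {R : ℝ} (hR : 0 < R) (X X' : Conf N) :
    |zinf R X - zinf R X'| ≤ 1 / R * ‖X - X'‖ := by
  unfold zinf
  refine (cl_lip _ _).trans ?_
  have h1 : 2 - ‖X‖ / R - (2 - ‖X'‖ / R) = -((‖X‖ - ‖X'‖) / R) := by ring
  rw [h1, abs_neg, abs_div, abs_of_pos hR, div_eq_inv_mul, one_div]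
  exact mul_le_mul_of_nonneg_left (abs_norm_sub_norm_le _ _) (inv_nonneg.2 hR.le)

theorem I6_zcc_lip {m : ℕ} (hm : 1 ≤ m) (hN : m ≤ N) {h c : ℝ} (hh : 0 < h) (hh1 : h < 1) (hc : 0 < c)
    {X X' : Conf N} (h1 : c ≤ max (muX m X) (h ^ 2)) (h2 : c ≤ max (muX m X') (h ^ 2)) :
    |zcc m h X - zcc m h X'| ≤ 2 / (c * Real.log (1 / h)) * ‖X - X'‖ := by
  have hl := I6_ell hh hh1
  have hh2 : 0 < h ^ 2 := by positivity
  unfold zcc
  refine (cl_lip _ _).trans ?_
  have ha : 0 < max (muX m X) (h ^ 2) := lt_of_lt_of_le hc h1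
  have hb : 0 < max (muX m X') (h ^ 2) := lt_of_lt_of_le hc h2
  rw [Real.log_div ha.ne' hh2.ne', Real.log_div hb.ne' hh2.ne', ← sub_div, sub_sub_sub_cancel_right,
    abs_div, abs_of_pos hl]
  have h3 := I6_log hc h1 h2
  have h4 : |max (muX m X) (h ^ 2) - max (muX m X') (h ^ 2)| ≤ 2 * ‖X - X'‖ :=
    (abs_max_sub_max_le_abs _ _ _).trans (muX_lip hm hN X X')
  have h5 : 2 / (c * Real.log (1 / h)) * ‖X - X'‖ = 2 * ‖X - X'‖ / c / Real.log (1 / h) := by
    field_simp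
  rw [h5]
  refine div_le_div_of_nonneg_right ?_ hl.le
  exact h3.trans (div_le_div_of_nonneg_right h4 hc.le)

theorem I6_zt_diff {m : ℕ} {h R A B : ℝ} {X X' : Conf N} (h1 : |zinf R X - zinf R X'| ≤ A)
    (h2 : |zcc m h X - zcc m h X'| ≤ B) : |zt m h R X - zt m h R X'| ≤ A + B := by
  unfold zt
  have e : zinf R X * zcc m h X - zinf R X' * zcc m h X' =
      (zinf R X - zinf R X') * zcc m h X + zinf R X' * (zcc m h X - zcc m h X') := by ring
  rw [e]
  refine (abs_add_le _ _).trans (add_le_add ?_ ?_)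
  · rw [abs_mul, abs_of_nonneg (show 0 ≤ zcc m h X from cl_nonneg _)]
    exact (mul_le_of_le_one_right (abs_nonneg _) (cl_le_one _)).trans h1
  · rw [abs_mul, abs_of_nonneg (show 0 ≤ zinf R X' from cl_nonneg _)]
    exact (mul_le_of_le_one_left (abs_nonneg _) (cl_le_one _)).trans h2

theorem I6_zt_lip {m : ℕ} (hm : 1 ≤ m) (hN : m ≤ N) {h R : ℝ} (hh : 0 < h) (hh1 : h < 1) (hR : 0 < R)
    (X X' : Conf N) :
    |zt m h R X - zt m h R X'| ≤ (1 / R + 2 / (h ^ 2 * Real.log (1 / h))) * ‖X - X'‖ := by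
  rw [add_mul]
  exact I6_zt_diff (I6_zinf_lip hR X X')
    (I6_zcc_lip hm hN hh hh1 (by positivity) (le_max_right _ _) (le_max_right _ _))

theorem I6_norm_comp (X : Conf N) (π : Equiv.Perm (Fin N)) : ‖X ∘ π‖ = ‖X‖ := by
  refine le_antisymm ?_ ?_
  · exact (pi_norm_le_iff_of_nonneg (norm_nonneg _)).2 fun i => norm_le_pi_norm X (π i)
  · refine (pi_norm_le_iff_of_nonneg (norm_nonneg _)).2 fun i => ?_
    have h1 := norm_le_pi_norm (X ∘ π) (π.symm i)
    simpa using h1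

theorem I6_zcc_zero {m : ℕ} {h : ℝ} (hh : 0 < h) (hh1 : h < 1) {X : Conf N} (h1 : muX m X ≤ h ^ 2) :
    zcc m h X = 0 := by
  unfold zcc
  have hh2 : 0 < h ^ 2 := by positivity
  rw [max_eq_right h1, div_self hh2.ne', Real.log_one, zero_div]
  exact I6_cl_zero le_rfl

theorem zt_nonneg (m : ℕ) (h R : ℝ) (X : Conf N) : 0 ≤ zt m h R X :=
  mul_nonneg (cl_nonneg _) (cl_nonneg _)

theorem zt_le_one (m : ℕ) (h R : ℝ) (X : Conf N) : zt m h R X ≤ 1 :=
  mul_le_one₀ (cl_le_one _) (cl_nonneg _) (cl_le_one _)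

theorem zt_cut {m : ℕ} (hm : 1 ≤ m) (hN : m ≤ N) {h R : ℝ} (hh : 0 < h) (hh1 : h < 1) (hR : 0 < R) :
    Cut m (h ^ 2) (2 * R) (zt m h R : Conf N → ℝ) where
  lip := by
    have hl := I6_ell hh hh1
    have hK : 0 ≤ 1 / R + 2 / (h ^ 2 * Real.log (1 / h)) := by positivity
    refine ⟨⟨_, hK⟩, LipschitzWith.of_dist_le_mul fun X X' => ?_⟩
    rw [Real.dist_eq, dist_eq_norm]
    exact I6_zt_lip hm hN hh hh1 hR X X'
  nonneg := zt_nonneg m h R
  le_one := zt_le_one m h R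
  symm π X := by
    unfold zt zinf zcc
    rw [I6_norm_comp, muX_perm]
  supp X hX := by
    have h1 : zinf R X ≠ 0 := fun h0 => hX (by unfold zt; rw [h0, zero_mul])
    have h2 : zcc m h X ≠ 0 := fun h0 => hX (by unfold zt; rw [h0, mul_zero])
    have h3 : ‖X‖ < 2 * R := by
      by_contra hcon
      push Not at hcon
      refine h1 (I6_cl_zero ?_)
      have : 2 ≤ ‖X‖ / R := (le_div_iff₀ hR).2 hcon
      linarith
    have h4 : h ^ 2 < muX m X := by
      by_contra hcon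
      push Not at hcon
      exact h2 (I6_zcc_zero hh hh1 hcon)
    have hh2 : 0 < h ^ 2 := by positivity
    exact ⟨good_of_muX_pos (hh2.trans h4), fun j => h4.le.trans (muX_le X j),
      fun j => (norm_le_pi_norm X j).trans h3.le⟩

theorem zt_grad {m : ℕ} (hm : 1 ≤ m) (hN : m ≤ N) {h R : ℝ} (hh : 0 < h) (hh1 : h < 1) (hR : 0 < R)
    (X : Conf N) : ‖fderiv ℝ (zt m h R) X‖ ≤ 1 / R + 2 / (muX m X * Real.log (1 / h)) := by
  have hl := I6_ell hh hh1
  have hh2 : 0 < h ^ 2 := by positivity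
  have hcont : ContinuousAt (fun X : Conf N => muX m X) X := (continuous_muX hm hN).continuousAt
  rcases (muX_nonneg m X).eq_or_lt with h0 | h0
  · rw [← h0, zero_mul, div_zero, add_zero]
    refine norm_fderiv_le_of_lip' ℝ (by positivity) ?_
    have hmx : muX m X < h ^ 2 := by rw [← h0]; exact hh2
    have h1 : ∀ᶠ X' in 𝓝 X, muX m X' < h ^ 2 := hcont.eventually_lt_const hmx
    filter_upwards [h1] with X' hX'
    have h2 : zt m h R X' = 0 := by
      unfold zt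
      rw [I6_zcc_zero hh hh1 hX'.le, mul_zero]
    have h3 : zt m h R X = 0 := by
      unfold zt
      rw [I6_zcc_zero hh hh1 (by rw [← h0]; exact hh2.le), mul_zero]
    rw [h2, h3, sub_zero, norm_zero]
    positivity
  · have key : ∀ c, 0 < c → c < muX m X → ‖fderiv ℝ (zt m h R) X‖ ≤ 1 / R + 2 / (c * Real.log (1 / h)) := by
      intro c hc hcm
      refine norm_fderiv_le_of_lip' ℝ (by positivity) ?_
      have h1 : ∀ᶠ X' in 𝓝 X, c < muX m X' := hcont.eventually_const_lt hcm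
      filter_upwards [h1] with X' hX'
      rw [Real.norm_eq_abs, add_mul]
      exact I6_zt_diff (I6_zinf_lip hR X' X)
        (I6_zcc_lip hm hN hh hh1 hc (hX'.le.trans (le_max_left _ _)) (hcm.le.trans (le_max_left _ _)))
    have hlim : Tendsto (fun c : ℝ => 1 / R + 2 / (c * Real.log (1 / h))) (𝓝[<] (muX m X))
        (𝓝 (1 / R + 2 / (muX m X * Real.log (1 / h)))) := by
      have hne : muX m X * Real.log (1 / h) ≠ 0 := by positivity
      have hc : ContinuousAt (fun c : ℝ => 1 / R + 2 / (c * Real.log (1 / h))) (muX m X) :=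
        continuousAt_const.add (continuousAt_const.div (continuousAt_id.mul continuousAt_const) hne)
      exact hc.tendsto.mono_left nhdsWithin_le_nhds
    refine ge_of_tendsto hlim ?_
    filter_upwards [Ioo_mem_nhdsLT h0] with c hc
    exact key c hc.1 hc.2

/-- the gradient in the position of electron `k` -/
def I6_w (F : Conf N → ℝ) (X : Conf N) (k : Fin N) : E3 := WithLp.toLp 2 fun c => pd k c F X

theorem I6_w_sq (F : Conf N → ℝ) (X : Conf N) (k : Fin N) : gsq k F X = ‖I6_w F X k‖ ^ 2 := by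
  rw [EuclideanSpace.norm_sq_eq]
  unfold gsq I6_w
  refine Finset.sum_congr rfl fun c _ => ?_
  rw [Real.norm_eq_abs, sq_abs]

theorem I6_fderiv_single (F : Conf N → ℝ) (X : Conf N) (k : Fin N) (w : E3) :
    fderiv ℝ F X (Pi.single k w) = ∑ c, w c * pd k c F X := by
  have h1 : w = ∑ c, w c • (EuclideanSpace.single c (1 : ℝ) : E3) := by
    ext i
    simp only [WithLp.ofLp_sum, Finset.sum_apply, PiLp.smul_apply, PiLp.single_apply, smul_eq_mul, mul_ite,
      mul_one, mul_zero, Finset.sum_ite_eq, Finset.mem_univ, if_true]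
  have h2 : ∀ L : Conf N →L[ℝ] ℝ, L (Pi.single k w) =
      ∑ c, w c * L (Pi.single k (EuclideanSpace.single c (1 : ℝ))) := by
    intro L
    have h3 : (Pi.single k w : Conf N) =
        ∑ c, w c • (Pi.single k (EuclideanSpace.single c (1 : ℝ)) : Conf N) := by
      conv_lhs => rw [h1]
      funext i
      rw [Finset.sum_apply]
      by_cases hi : i = k
      · subst hi
        simp only [Pi.single_eq_same, Pi.smul_apply]
      · simp only [Pi.single_eq_of_ne hi, Pi.smul_apply, smul_zero, Finset.sum_const_zero]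
    rw [h3, map_sum]
    refine Finset.sum_congr rfl fun c _ => ?_
    rw [map_smul, smul_eq_mul]
  exact h2 _

theorem sum_gsq_le_fderiv (F : Conf N → ℝ) (X : Conf N) : ∑ k, gsq k F X ≤ ‖fderiv ℝ F X‖ ^ 2 := by
  set v : Conf N := fun k => ‖I6_w F X k‖⁻¹ • I6_w F X k with hv
  have hv1 : ‖v‖ ≤ 1 := by
    refine (pi_norm_le_iff_of_nonneg zero_le_one).2 fun k => ?_
    rw [hv, norm_smul, norm_inv, norm_norm]
    exact inv_mul_le_one
  have hLv : fderiv ℝ F X v = ∑ k, ‖I6_w F X k‖ := by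
    have h1 : v = ∑ k, (Pi.single k (v k) : Conf N) := by rw [Finset.univ_sum_single]
    rw [h1, map_sum]
    refine Finset.sum_congr rfl fun k _ => ?_
    rw [I6_fderiv_single]
    have h2 : ∀ c, v k c * pd k c F X = ‖I6_w F X k‖⁻¹ * (pd k c F X) ^ 2 := by
      intro c
      change (‖I6_w F X k‖⁻¹ * pd k c F X) * pd k c F X = _
      ring
    simp_rw [h2]
    rw [← Finset.mul_sum]
    have h3 : ∑ c, (pd k c F X) ^ 2 = ‖I6_w F X k‖ ^ 2 := I6_w_sq F X k
    rw [h3]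
    rcases eq_or_ne ‖I6_w F X k‖ 0 with h0 | h0
    · rw [h0]; ring
    · field_simp
  have hS : ∑ k, ‖I6_w F X k‖ ≤ ‖fderiv ℝ F X‖ := by
    rw [← hLv]
    refine (le_abs_self _).trans ?_
    rw [← Real.norm_eq_abs]
    refine ((fderiv ℝ F X).le_opNorm v).trans ?_
    exact mul_le_of_le_one_right (norm_nonneg _) hv1
  have hS0 : 0 ≤ ∑ k, ‖I6_w F X k‖ := Finset.sum_nonneg fun k _ => norm_nonneg _
  calc ∑ k, gsq k F X = ∑ k, ‖I6_w F X k‖ * ‖I6_w F X k‖ := by
        refine Finset.sum_congr rfl fun k _ => ?_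
        rw [I6_w_sq, sq]
    _ ≤ ∑ k, ‖I6_w F X k‖ * ∑ l, ‖I6_w F X l‖ := by
        refine Finset.sum_le_sum fun k _ => mul_le_mul_of_nonneg_left ?_ (norm_nonneg _)
        exact Finset.single_le_sum (f := fun k => ‖I6_w F X k‖) (fun l _ => norm_nonneg _) (mem_univ k)
    _ = (∑ k, ‖I6_w F X k‖) ^ 2 := by rw [← Finset.sum_mul, sq]
    _ ≤ ‖fderiv ℝ F X‖ ^ 2 := pow_le_pow_left₀ hS0 hS 2

theorem zt_gsq {m : ℕ} (hm : 1 ≤ m) (hN : m ≤ N) {h R : ℝ} (hh : 0 < h) (hh1 : h < 1) (hR : 0 < R)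
    (X : Conf N) :
    ∑ k, gsq k (zt m h R) X ≤ 2 / R ^ 2 + 8 / Real.log (1 / h) ^ 2 * ((muX m X)⁻¹) ^ 2 := by
  have hl := I6_ell hh hh1
  have h1 := sum_gsq_le_fderiv (zt m h R) X
  have h2 := zt_grad hm hN hh hh1 hR X
  have h3 := pow_le_pow_left₀ (norm_nonneg _) h2 2
  have h4 : (1 / R + 2 / (muX m X * Real.log (1 / h))) ^ 2 ≤
      2 * (1 / R) ^ 2 + 2 * (2 / (muX m X * Real.log (1 / h))) ^ 2 := by
    nlinarith [sq_nonneg (1 / R - 2 / (muX m X * Real.log (1 / h)))]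
  have h5 : 2 * (1 / R) ^ 2 = 2 / R ^ 2 := by
    rw [div_pow]; ring
  have h6 : 2 * (2 / (muX m X * Real.log (1 / h))) ^ 2 =
      8 / Real.log (1 / h) ^ 2 * ((muX m X)⁻¹) ^ 2 := by
    rw [div_pow, mul_pow, inv_pow]
    rcases eq_or_ne (muX m X) 0 with h0 | h0
    · rw [h0]; simp
    · field_simp
      norm_num
  rw [h5, h6] at h4
  exact h1.trans (h3.trans h4)

theorem zt_eq_one {m : ℕ} {h R : ℝ} (hh : 0 < h) (hh1 : h < 1) (hR : 0 < R) {X : Conf N} (h1 : ‖X‖ ≤ R)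
    (h2 : h ≤ muX m X) : zt m h R X = 1 := by
  have hl := I6_ell hh hh1
  have hh2 : 0 < h ^ 2 := by positivity
  have h3 : zinf R X = 1 := by
    refine I6_cl_one ?_
    have : ‖X‖ / R ≤ 1 := (div_le_one hR).2 h1
    linarith
  have h4 : zcc m h X = 1 := by
    refine I6_cl_one ?_
    rw [one_le_div hl]
    refine Real.log_le_log (by positivity) ?_
    rw [le_div_iff₀ hh2]
    have h5 : 1 / h * h ^ 2 = h := by field_simp
    rw [h5]
    exact h2.trans (le_max_left _ _)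
  unfold zt
  rw [h3, h4, one_mul]

theorem continuous_zt {m : ℕ} (hm : 1 ≤ m) (hN : m ≤ N) {h R : ℝ} (hh : 0 < h) (hh1 : h < 1) (hR : 0 < R) :
    Continuous fun X : Conf N => zt m h R X := by
  obtain ⟨K, hK⟩ := (zt_cut hm hN hh hh1 hR).lip
  exact hK.continuous

end Ion
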