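import Pool.Agent.Lib.MP_69e010_mp.IDefs

/-!
# The explicit cutoff functions (section 8)
-/

open MeasureTheory Metric Finset Filter Topology

noncomputable section

namespace Ion

variable {N : ℕ}

/-- smallest `d_j` -/
def muX (m : ℕ) (X : Conf N) : ℝ := ⨅ j, dc m X j

/-- clamp to `[0,1]` -/
def cl (t : ℝ) : ℝ := max 0 (min 1 t)

/-- `ζ_∞ = clamp (2 - max |x_j| / R)`; the norm of `Conf N` is the maximum norm -/
def zinf (R : ℝ) (X : Conf N) : ℝ := cl (2 - ‖X‖ / R)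

/-- `ζ_c = clamp (log (μ / h²) / log (1 / h))` -/
def zcc (m : ℕ) (h : ℝ) (X : Conf N) : ℝ :=
  cl (Real.log (max (muX m X) (h ^ 2) / h ^ 2) / Real.log (1 / h))

/-- the cutoff -/
def zt (m : ℕ) (h R : ℝ) (X : Conf N) : ℝ := zinf R X * zcc m h X

end Ion
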