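import Pool.Agent.Lib.MP_69e010_mp.R8

/-!
# JOB R10: pointwise part of the X-lemma (5.2)

`y ≠ 0`, `d := dd m X y ≤ ‖y‖/50` (so `d = DD m X y`, because `dd = min (DD) (‖y‖/4)` and `‖y‖/4 > ‖y‖/50`). `P1 := {k : ‖X k - y‖ ≤ d}` has at least `m` elements (`DD_card`). `P5 := {l : ‖X l - y‖ ≤ 5 d}`.
Write `φ_l = ph (X l) (ea dc l)`, `ν_l = nuc m X l`, `H(w) := 1 - ∑_{l ∉ P5} ν_l φ_l(w) = uc m X w + ∑_{l ∈ P5} ν_l φ_l(w)`, so `H ≥ uc > 0` (`uc_pos`), `H` continuous.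
* `xH_harm`: for `l ∉ P5`: `dc l ≤ d + ‖X l - y‖ ≤ 6/5 ‖X l - y‖` (`dd_lip_y`), `ea dc l ≤ 0.012 ‖X l - y‖`, so the ball `B_l` does not meet `ball y (4d)`. Hence `av p r H = H p` whenever `ball p r ⊆ ball y (4d)` (in the form `‖p-y‖ + r ≤ 4d`, `av_ph_eq`).
* `xH_le`: for `k ∈ P1`: `H(y) = av y (2d) H ≤ (3/2)³ av (X k) (3d) H = 27/8 H(X k)` (`av_subset`: `ball y (2d) ⊆ ball (X k) (3d) ⊆ ball y (4d)`), and `H(X k) = av (X k) (ea dc k) H = vc k + ∑_{l∈P5} ν_l Kc k l`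
  (`vc k` is the average of `uc`, cf. `avj_u` + `cSys_u`, `cSys_v`; `ea dc k ≤ 0.02 d`).
* `xpoint`: for every `k ∈ P1`: `tau y * vy ≤ tau y 27/25 uc(y) ≤ tau y 27/25 H(y) ≤ (27/25)(27/8) tau y (vc k + ∑_{l∈P5} ν_l Kc k l)`. Here `‖X k - y‖ ≤ ‖y‖/50` gives `tau y ≤ 50/49 tau (X k)`, `tau y ≤ eps`,
  `Kc k l ≤ 3/(2 ea dc l)` (`K_le_right`/`kk_le_right`). `(27/25)(27/8)(50/49) ≤ 19/5`. Sum over a subset of `P1` with exactly `m` elements (`Finset.exists_subset_card_eq`), all terms are `≥ 0`.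
-/

open MeasureTheory Metric Finset Filter Topology

noncomputable section

namespace Ion

variable {N : ℕ}

/-- the far part of `uc` -/
def R10_H (m : ℕ) (X : Conf N) (y : E3) (w : E3) : ℝ :=
  1 - ∑ l ∈ univ.filter (fun l => ¬ ‖X l - y‖ ≤ 5 * dd m X y), nuc m X l * ph (X l) (ea m * dc m X l) w

theorem R10_del_pos {m : ℕ} (hm : 1 ≤ m) (hN : m ≤ N) {X : Conf N} (hX : Good m X) (l : Fin N) :
    0 < ea m * dc m X l := mul_pos (ea_pos hm) (dc_pos hm hN hX l)

theorem R10_H_eq {m : ℕ} (X : Conf N) (y w : E3) :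
    R10_H m X y w = uc m X w
      + ∑ l ∈ univ.filter (fun l => ‖X l - y‖ ≤ 5 * dd m X y), nuc m X l * ph (X l) (ea m * dc m X l) w := by
  have h := Finset.sum_filter_add_sum_filter_not (univ : Finset (Fin N))
    (fun l => ‖X l - y‖ ≤ 5 * dd m X y) (fun l => nuc m X l * ph (X l) (ea m * dc m X l) w)
  have h2 : uc m X w = 1 - ∑ l, nuc m X l * ph (X l) (ea m * dc m X l) w := rfl
  unfold R10_H
  rw [h2, ← h]
  ring

theorem R10_uc_le {m : ℕ} (hm : 1 ≤ m) (hN : m ≤ N) {X : Conf N} (hX : Good m X) (y w : E3) :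
    uc m X w ≤ R10_H m X y w := by
  rw [R10_H_eq]
  have : 0 ≤ ∑ l ∈ univ.filter (fun l => ‖X l - y‖ ≤ 5 * dd m X y),
      nuc m X l * ph (X l) (ea m * dc m X l) w :=
    Finset.sum_nonneg fun l _ =>
      mul_nonneg (nuc_pos hm hN hX l).le (ph_pos (R10_del_pos hm hN hX l)).le
  linarith

theorem R10_H_cont {m : ℕ} (hm : 1 ≤ m) (hN : m ≤ N) {X : Conf N} (hX : Good m X) (y : E3) :
    Continuous (R10_H m X y) := by
  unfold R10_H
  refine continuous_const.sub (continuous_finsetSum _ fun l _ => ?_)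
  exact continuous_const.mul (ph_continuous (R10_del_pos hm hN hX l))

theorem R10_av_H {m : ℕ} (hm : 1 ≤ m) (hN : m ≤ N) {X : Conf N} (hX : Good m X) (y : E3)
    {p : E3} {r : ℝ} (hr : 0 < r) :
    av p r (R10_H m X y) = 1 - ∑ l ∈ univ.filter (fun l => ¬ ‖X l - y‖ ≤ 5 * dd m X y),
      nuc m X l * av p r (ph (X l) (ea m * dc m X l)) := by
  unfold R10_H
  have hc : ∀ l ∈ univ.filter (fun l => ¬ ‖X l - y‖ ≤ 5 * dd m X y),
      Continuous (fun w => nuc m X l * ph (X l) (ea m * dc m X l) w) := fun l _ =>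
    continuous_const.mul (ph_continuous (R10_del_pos hm hN hX l))
  rw [av_sub continuous_const (continuous_finsetSum _ hc), av_const hr, av_sum _ hc]
  congr 1
  refine Finset.sum_congr rfl fun l _ => ?_
  exact av_mul _ _ _ _

theorem R10_harm {m : ℕ} (hm : 1 ≤ m) (hN : m ≤ N) {X : Conf N} (hX : Good m X) {y : E3} (hy : y ≠ 0)
    {p : E3} {r : ℝ} (hr : 0 < r) (h : ‖p - y‖ + r ≤ 4 * dd m X y) :
    av p r (R10_H m X y) = R10_H m X y p := by
  rw [R10_av_H hm hN hX y hr]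
  unfold R10_H
  congr 1
  refine Finset.sum_congr rfl fun l hl => ?_
  congr 1
  have hl' : 5 * dd m X y < ‖X l - y‖ := by
    simpa using hl
  have hd := dd_pos hm hN hX hy
  have h1 : dc m X l ≤ dd m X y + ‖X l - y‖ := by
    have := (abs_le.mp (dd_lip_y hN X (X l) y)).2
    unfold dc; linarith
  have h2 : ea m * dc m X l ≤ 1 / 100 * (dd m X y + ‖X l - y‖) := by
    have h3 := dc_pos hm hN hX l
    exact mul_le_mul (ea_le hm) h1 h3.le (by norm_num)
  have h4 : ‖X l - y‖ ≤ ‖p - X l‖ + ‖p - y‖ := by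
    calc ‖X l - y‖ = ‖-(p - X l) + (p - y)‖ := by congr 1; abel
      _ ≤ ‖-(p - X l)‖ + ‖p - y‖ := norm_add_le _ _
      _ = _ := by rw [norm_neg]
  refine av_ph_eq (R10_del_pos hm hN hX l) hr ?_
  linarith

theorem R10_H_le {m : ℕ} (hm : 1 ≤ m) (hN : m ≤ N) {X : Conf N} (hX : Good m X) {y : E3} (hy : y ≠ 0)
    {k : Fin N} (hk : ‖X k - y‖ ≤ dd m X y) :
    R10_H m X y y ≤ 27 / 8 * R10_H m X y (X k) := by
  have hd := dd_pos hm hN hX hy
  have h1 := R10_harm hm hN hX hy (p := y) (r := 2 * dd m X y) (by linarith)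
    (by rw [sub_self, norm_zero]; linarith)
  have h2 := R10_harm hm hN hX hy (p := X k) (r := 3 * dd m X y) (by linarith) (by linarith)
  rw [← h1, ← h2]
  have h3 := av_subset (F := R10_H m X y) (R10_H_cont hm hN hX y) (p := y) (q := X k)
    (r := 2 * dd m X y) (ρ := 3 * dd m X y) (by linarith)
    (by
      intro w hw
      rw [mem_ball, dist_eq_norm] at hw ⊢
      have : ‖w - X k‖ ≤ ‖w - y‖ + ‖X k - y‖ := by
        calc ‖w - X k‖ = ‖(w - y) - (X k - y)‖ := by congr 1; abel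
          _ ≤ _ := norm_sub_le _ _
      linarith)
    (fun w _ => ((uc_pos hm hN hX w).trans_le (R10_uc_le hm hN hX y w)).le)
  have h4 : 3 * dd m X y / (2 * dd m X y) = 3 / 2 := by field_simp
  rw [h4] at h3
  norm_num at h3 ⊢
  exact h3

theorem R10_vc_eq {m : ℕ} (hm : 1 ≤ m) (hN : m ≤ N) {X : Conf N} (hX : Good m X) (k : Fin N) :
    vc m X k + ∑ l, nuc m X l * Kc m X k l = 1 := by
  have hadm : (cSys hm hN X hX).Adm (ea m ^ 5) (sc m X) := by
    intro j
    have h1 := sc_adm hm hN X hX j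
    refine ⟨h1.1, h1.2.trans ?_⟩
    have h2 : 0 < (cSys hm hN X hX).dj j := Sys.dj_pos _ j
    have h3 : ea m ^ 12 ≤ ea m ^ 5 :=
      pow_le_pow_of_le_one (ea_pos hm).le ((ea_le hm).trans (by norm_num)) (by norm_num)
    gcongr
  have h := (cSys hm hN X hX).v_eq hm hadm k
  simp only [cSys_v] at h
  rw [← h]
  congr 1
  refine Finset.sum_congr rfl fun l _ => ?_
  have hK : (cSys hm hN X hX).K k l = Kc m X k l := rfl
  rw [hK]
  unfold nuc
  ring

theorem R10_H_Xk {m : ℕ} (hm : 1 ≤ m) (hN : m ≤ N) {X : Conf N} (hX : Good m X) {y : E3} (hy : y ≠ 0)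
    {k : Fin N} (hk : ‖X k - y‖ ≤ dd m X y) :
    R10_H m X y (X k) = vc m X k
      + ∑ l ∈ univ.filter (fun l => ‖X l - y‖ ≤ 5 * dd m X y), nuc m X l * Kc m X k l := by
  have hd := dd_pos hm hN hX hy
  have h1 : dc m X k ≤ dd m X y + ‖X k - y‖ := by
    have := (abs_le.mp (dd_lip_y hN X (X k) y)).2
    unfold dc; linarith
  have h2 : ea m * dc m X k ≤ 1 / 100 * (dd m X y + ‖X k - y‖) := by
    have h3 := dc_pos hm hN hX k
    exact mul_le_mul (ea_le hm) h1 h3.le (by norm_num)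
  have h3 := R10_harm hm hN hX hy (p := X k) (r := ea m * dc m X k) (R10_del_pos hm hN hX k)
    (by linarith)
  rw [← h3, R10_av_H hm hN hX y (R10_del_pos hm hN hX k)]
  have h4 := R10_vc_eq hm hN hX k
  have h5 := Finset.sum_filter_add_sum_filter_not (univ : Finset (Fin N))
    (fun l => ‖X l - y‖ ≤ 5 * dd m X y) (fun l => nuc m X l * Kc m X k l)
  have h6 : ∑ l ∈ univ.filter (fun l => ¬ ‖X l - y‖ ≤ 5 * dd m X y),
      nuc m X l * av (X k) (ea m * dc m X k) (ph (X l) (ea m * dc m X l))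
      = ∑ l ∈ univ.filter (fun l => ¬ ‖X l - y‖ ≤ 5 * dd m X y), nuc m X l * Kc m X k l := rfl
  rw [h6]
  linarith

theorem R10_one {m : ℕ} (hm : 1 ≤ m) (hN : m ≤ N) {X : Conf N} (hX : Good m X) {y : E3} (hy : y ≠ 0)
    (h : dd m X y ≤ ‖y‖ / 50) {k : Fin N} (hk : ‖X k - y‖ ≤ dd m X y) :
    tau m y * vy m X y ≤ 19 / 5 * (tau m (X k) * vc m X k
      + ∑ l ∈ univ.filter (fun l => ‖X l - y‖ ≤ 5 * dd m X y), 3 / 2 * eps m * nuc m X l / (ea m * dc m X l)) := by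
  have hd := dd_pos hm hN hX hy
  have hτ := tau_pos hm hy
  have hτe : tau m y ≤ eps m := min_le_left _ _
  have hτk : tau m y ≤ 50 / 49 * tau m (X k) := by
    have h1 : ‖y‖ ≤ ‖X k‖ + ‖X k - y‖ := by
      calc ‖y‖ = ‖X k - (X k - y)‖ := by congr 1; abel
        _ ≤ _ := norm_sub_le _ _
    have h2 : ‖y‖ ≤ 50 / 49 * ‖X k‖ := by linarith
    have h0 := (eps_pos hm)
    unfold tau
    rw [mul_min_of_nonneg _ _ (by norm_num : (0:ℝ) ≤ 50 / 49)]
    refine min_le_min ?_ h2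
    linarith
  have hv := vc_pos hm hN hX k
  set S : ℝ := ∑ l ∈ univ.filter (fun l => ‖X l - y‖ ≤ 5 * dd m X y), nuc m X l * Kc m X k l with hS
  set T : ℝ := ∑ l ∈ univ.filter (fun l => ‖X l - y‖ ≤ 5 * dd m X y),
    3 / 2 * eps m * nuc m X l / (ea m * dc m X l) with hT
  have hST : eps m * S ≤ T := by
    rw [hS, hT, Finset.mul_sum]
    refine Finset.sum_le_sum fun l _ => ?_
    have h1 : Kc m X k l ≤ 3 / (2 * (ea m * dc m X l)) :=
      kk_le_right (R10_del_pos hm hN hX k) (R10_del_pos hm hN hX l)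
    have h2 := nuc_pos hm hN hX l
    have h3 := eps_pos hm
    have h4 := R10_del_pos hm hN hX l
    calc eps m * (nuc m X l * Kc m X k l) ≤ eps m * (nuc m X l * (3 / (2 * (ea m * dc m X l)))) := by
          gcongr
      _ = _ := by field_simp
  have hS0 : 0 ≤ S := by
    rw [hS]
    refine Finset.sum_nonneg fun l _ => mul_nonneg (nuc_pos hm hN hX l).le ?_
    exact (kk_pos (R10_del_pos hm hN hX k) (R10_del_pos hm hN hX l)).le
  have hτS : tau m y * S ≤ T := (mul_le_mul_of_nonneg_right hτe hS0).trans hST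
  have hT0 : 0 ≤ T := (mul_nonneg hτ.le hS0).trans hτS
  have hchain : vy m X y ≤ 27 / 25 * (27 / 8 * (vc m X k + S)) := by
    calc vy m X y ≤ 27 / 25 * uc m X y := vy_le_uc hm hN hX hy
      _ ≤ 27 / 25 * R10_H m X y y := by
          have := R10_uc_le hm hN hX y y
          gcongr
      _ ≤ 27 / 25 * (27 / 8 * R10_H m X y (X k)) := by
          have := R10_H_le hm hN hX hy hk
          gcongr
      _ = _ := by rw [R10_H_Xk hm hN hX hy hk]
  calc tau m y * vy m X y ≤ tau m y * (27 / 25 * (27 / 8 * (vc m X k + S))) := by gcongr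
    _ = 729 / 200 * (tau m y * vc m X k) + 729 / 200 * (tau m y * S) := by ring
    _ ≤ 729 / 200 * (50 / 49 * tau m (X k) * vc m X k) + 729 / 200 * T := by gcongr
    _ ≤ 19 / 5 * (tau m (X k) * vc m X k + T) := by
        have h5 : 0 ≤ tau m (X k) * vc m X k := by
          have : 0 < tau m (X k) := by
            have := hτ.trans_le hτk
            linarith
          positivity
        linarith

theorem xpoint {m : ℕ} (hm : 2 ≤ m) (hN : m ≤ N) {X : Conf N} (hX : Good m X) {y : E3} (hy : y ≠ 0)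
    (h : dd m X y ≤ ‖y‖ / 50) :
    (m : ℝ) * (tau m y * vy m X y) ≤
      19 / 5 * ((∑ k ∈ univ.filter (fun k => ‖X k - y‖ ≤ dd m X y), tau m (X k) * vc m X k)
        + m * ∑ l ∈ univ.filter (fun l => ‖X l - y‖ ≤ 5 * dd m X y), 3 / 2 * eps m * nuc m X l / (ea m * dc m X l)) := by
  have hm1 : 1 ≤ m := by omega
  have hy0 : 0 < ‖y‖ := norm_pos_iff.mpr hy
  have hDD : dd m X y = DD m X y := by
    unfold dd at h ⊢
    rcases min_choice (DD m X y) (‖y‖ / 4) with h1 | h1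
    · exact h1
    · rw [h1] at h
      linarith
  have hcard : m ≤ (univ.filter (fun k => ‖X k - y‖ ≤ dd m X y)).card := by
    rw [hDD]
    exact DD_card hN X y
  obtain ⟨T, hTs, hTc⟩ := Finset.exists_subset_card_eq hcard
  have h1 : ∑ _k ∈ T, tau m y * vy m X y ≤ ∑ k ∈ T, 19 / 5 * (tau m (X k) * vc m X k
      + ∑ l ∈ univ.filter (fun l => ‖X l - y‖ ≤ 5 * dd m X y), 3 / 2 * eps m * nuc m X l / (ea m * dc m X l)) := by
    refine Finset.sum_le_sum fun k hk => ?_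
    have hk' := hTs hk
    simp only [Finset.mem_filter, Finset.mem_univ, true_and] at hk'
    exact R10_one hm1 hN hX hy h hk'
  rw [Finset.sum_const, hTc, nsmul_eq_mul, ← Finset.mul_sum, Finset.sum_add_distrib,
    Finset.sum_const, hTc, nsmul_eq_mul] at h1
  refine h1.trans ?_
  have h2 : ∑ k ∈ T, tau m (X k) * vc m X k
      ≤ ∑ k ∈ univ.filter (fun k => ‖X k - y‖ ≤ dd m X y), tau m (X k) * vc m X k := by
    refine Finset.sum_le_sum_of_subset_of_nonneg hTs fun k _ _ => ?_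
    exact mul_nonneg (tau_pos hm1 (hX.1 k)).le (vc_pos hm1 hN hX k).le
  gcongr

end Ion
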