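import Pool.Agent.Lib.MP_69e010_mp.RDefs

/-!
# JOB R11: a radial integral

`∫_{ℝ³} max(‖y-p‖/c, r)⁻⁴ dy = 16π/3 c³/r ≤ 17 c³/r` (`c, r > 0`).
Proof: translate to `p = 0`, polar coordinates (`integral_fun_norm_addHaar`, `finrank = 3`, `volume (ball 0 1) = 4π/3`): `4π ∫_0^∞ ρ² max(ρ/c, r)⁻⁴ dρ = 4π ( (cr)³/(3 r⁴) + c⁴ ∫_{cr}^∞ ρ⁻² dρ ) = 4π (c³/(3r) + c³/r)`.
Integrability: `MeasureTheory.integrable_fun_norm_addHaar` or comparison with a multiple of `(1 + ‖y‖)⁻⁴` (`integrable_one_add_norm`).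
-/

open MeasureTheory Metric Finset Filter Topology

noncomputable section

namespace Ion

private theorem R11_near {c r : ℝ} (hc : 0 < c) {ρ : ℝ} (hρ : ρ ∈ Set.Ioc 0 (c * r)) :
    ρ ^ 2 * ((max (ρ / c) r) ^ 4)⁻¹ = (r ^ 4)⁻¹ * ρ ^ 2 := by
  have h : ρ / c ≤ r := by
    rw [div_le_iff₀ hc, mul_comm]
    exact hρ.2
  rw [max_eq_right h, mul_comm]

private theorem R11_far {c r : ℝ} (hc : 0 < c) (hr : 0 < r) {ρ : ℝ} (hρ : ρ ∈ Set.Ioi (c * r)) :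
    ρ ^ 2 * ((max (ρ / c) r) ^ 4)⁻¹ = c ^ 4 * ρ ^ (-2 : ℝ) := by
  have h0 : 0 < ρ := lt_trans (mul_pos hc hr) hρ
  have h : r ≤ ρ / c := by
    rw [le_div_iff₀ hc, mul_comm]
    exact le_of_lt hρ
  rw [max_eq_left h, Real.rpow_neg h0.le]
  have h2 : ρ ^ (2 : ℝ) = ρ ^ 2 := by
    rw [← Real.rpow_natCast]
    norm_num
  rw [h2]
  field_simp

private theorem R11_int_near {c r : ℝ} (hc : 0 < c) (hr : 0 < r) :
    IntegrableOn (fun ρ : ℝ => ρ ^ 2 * ((max (ρ / c) r) ^ 4)⁻¹) (Set.Ioc 0 (c * r)) ∧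
    ∫ ρ in Set.Ioc 0 (c * r), ρ ^ 2 * ((max (ρ / c) r) ^ 4)⁻¹ = c ^ 3 / (3 * r) := by
  have hcr : 0 ≤ c * r := (mul_pos hc hr).le
  constructor
  · rw [integrableOn_congr_fun (fun ρ hρ => R11_near hc hρ) measurableSet_Ioc]
    have h1 : Continuous fun ρ : ℝ => (r ^ 4)⁻¹ * ρ ^ 2 := by fun_prop
    exact (h1.integrableOn_Icc (a := 0) (b := c * r)).mono_set Set.Ioc_subset_Icc_self
  · rw [setIntegral_congr_fun measurableSet_Ioc (fun ρ hρ => R11_near hc hρ),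
      ← intervalIntegral.integral_of_le hcr, intervalIntegral.integral_const_mul, integral_pow]
    field_simp
    ring

private theorem R11_int_far {c r : ℝ} (hc : 0 < c) (hr : 0 < r) :
    IntegrableOn (fun ρ : ℝ => ρ ^ 2 * ((max (ρ / c) r) ^ 4)⁻¹) (Set.Ioi (c * r)) ∧
    ∫ ρ in Set.Ioi (c * r), ρ ^ 2 * ((max (ρ / c) r) ^ 4)⁻¹ = c ^ 3 / r := by
  have hcr : 0 < c * r := mul_pos hc hr
  constructor
  · rw [integrableOn_congr_fun (fun ρ hρ => R11_far hc hr hρ) measurableSet_Ioi]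
    exact (integrableOn_Ioi_rpow_of_lt (by norm_num) hcr).const_mul _
  · rw [setIntegral_congr_fun measurableSet_Ioi (fun ρ hρ => R11_far hc hr hρ),
      integral_const_mul, integral_Ioi_rpow_of_lt (by norm_num) hcr]
    have h1 : (-2 : ℝ) + 1 = -1 := by norm_num
    rw [h1, Real.rpow_neg_one]
    field_simp

private theorem R11_radial {c r : ℝ} (hc : 0 < c) (hr : 0 < r) :
    IntegrableOn (fun ρ : ℝ => ρ ^ 2 * ((max (ρ / c) r) ^ 4)⁻¹) (Set.Ioi 0) ∧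
    ∫ ρ in Set.Ioi 0, ρ ^ 2 * ((max (ρ / c) r) ^ 4)⁻¹ = 4 * c ^ 3 / (3 * r) := by
  have hcr : 0 ≤ c * r := (mul_pos hc hr).le
  have hU : Set.Ioc 0 (c * r) ∪ Set.Ioi (c * r) = Set.Ioi 0 := Set.Ioc_union_Ioi_eq_Ioi hcr
  have hD : Disjoint (Set.Ioc 0 (c * r)) (Set.Ioi (c * r)) := by
    rw [Set.disjoint_left]
    intro x hx hx2
    exact absurd hx.2 (not_le.2 hx2)
  obtain ⟨h1, h2⟩ := R11_int_near hc hr
  obtain ⟨h3, h4⟩ := R11_int_far hc hr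
  constructor
  · rw [← hU]
    exact h1.union h3
  · rw [← hU, setIntegral_union hD measurableSet_Ioi h1 h3, h2, h4]
    field_simp
    ring

theorem radial_integrable (p : E3) {c r : ℝ} (hc : 0 < c) (hr : 0 < r) :
    Integrable (fun y : E3 => ((max (‖y - p‖ / c) r) ^ 4)⁻¹) volume := by
  have h1 : Integrable (fun y : E3 => ((max (‖y‖ / c) r) ^ 4)⁻¹) volume := by
    have h2 := (integrable_fun_norm_addHaar (E := E3) (volume : Measure E3)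
      (f := fun ρ : ℝ => ((max (ρ / c) r) ^ 4)⁻¹))
    rw [h2]
    have h3 : Module.finrank ℝ E3 - 1 = 2 := by simp
    rw [h3]
    exact (R11_radial hc hr).1
  exact h1.comp_sub_right p

theorem radial_integral_le (p : E3) {c r : ℝ} (hc : 0 < c) (hr : 0 < r) :
    ∫ y : E3, ((max (‖y - p‖ / c) r) ^ 4)⁻¹ ≤ 17 * c ^ 3 / r := by
  have h0 : ∫ y : E3, ((max (‖y - p‖ / c) r) ^ 4)⁻¹ = ∫ y : E3, ((max (‖y‖ / c) r) ^ 4)⁻¹ :=
    integral_sub_right_eq_self (fun y : E3 => ((max (‖y‖ / c) r) ^ 4)⁻¹) p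
  have h1 := integral_fun_norm_addHaar (E := E3) (volume : Measure E3)
      (fun ρ : ℝ => ((max (ρ / c) r) ^ 4)⁻¹)
  have h3 : Module.finrank ℝ E3 = 3 := by simp
  have h4 : (volume : Measure E3).real (ball 0 1) = Real.pi * 4 / 3 := by
    rw [Measure.real, EuclideanSpace.volume_ball_fin_three]
    rw [ENNReal.ofReal_one, one_pow, one_mul, ENNReal.toReal_ofReal (by positivity)]
  rw [h0, h1, h3, h4]
  have h5 : ∫ y in Set.Ioi (0 : ℝ), y ^ (3 - 1) • ((max (y / c) r) ^ 4)⁻¹ = 4 * c ^ 3 / (3 * r) :=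
    (R11_radial hc hr).2
  rw [h5, nsmul_eq_mul, smul_eq_mul]
  have h6 := Real.pi_lt_d2
  have h7 : 0 < c ^ 3 / r := by positivity
  have h8 : ((3 : ℕ) : ℝ) * (Real.pi * 4 / 3 * (4 * c ^ 3 / (3 * r))) = (16 * Real.pi / 3) * (c ^ 3 / r) := by
    field_simp
    push_cast
    ring
  have h9 : 17 * c ^ 3 / r = 17 * (c ^ 3 / r) := by ring
  rw [h8, h9]
  apply mul_le_mul_of_nonneg_right _ h7.le
  linarith

end Ion
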