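import Pool.Agent.Lib.MP_69e010_mp.B8
import Pool.Agent.Lib.MP_69e010_mp.A5

/-!
# JOB P2: direct estimate (DE) of section 4

`S` a trap system, `t` `Adm (ea m ^ 12)`, trap `a`, ball `B(p, r)` close to `B_a`: `‖p - x_a‖ ≤ η`, `|r - del a| ≤ η`, `η ≤ ea³ d_a`. Claim: `|avj a u - av p r u| ≤ 9 (η/d_a) v_a`.

Proof. `y := x_a ≠ 0`, `ρ` a gap radius at `y` (`ρ ≥ d_a/2`, `d y = d_a`), `b_j = t_j v_j`, `H = HH 1 b t y ρ` (exactly averaged in `ball y ρ` (`HH_harm`), `H ≥ u`, `H(y) ≤ (1+ea⁶) u(y) ≤ (1+ea⁶)(27/25) v_a` by `LL_one`, `u_le_v`).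
`u = H - ∑_near t_j v_j φ_j`. So `avj a u = H(y) - ∑_near t_j v_j avj a φ_j` and `av p r u = H(p) - ∑_near t_j v_j av p r φ_j` (`ball p r ⊆ ball y ρ`, `del a + 2η < ρ`).
 - `|H(p) - H(y)| ≤ 3.3 (η/ρ) H(y)`: `H(p) ≤ (ρ/(ρ-η))³ H(y)` (`H_move`), `H(y) ≤ ((ρ-η)/(ρ-2η))³ H(p)` (`H_move'`), with `s = η/ρ ≤ 2 ea³ ≤ 10⁻⁵`.
 - near traps: `φ_j` is `1/(del j)²`-Lipschitz (`ph_lip`), so by `av_move_lip` `|avj a φ_j - av p r φ_j| ≤ 2η/(del j)²`; `t_j v_j ≤ ea¹² d_j (28/ea³) u(y)` (`near_v`), `del j = ea d_j`, `d_j ≥ d_a/4` (`near_ge`), at most `m = 1/(100 ea)` near traps: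
   sum `≤ m ea¹² (28/ea³) 2η/(ea² d_j) u(y) ≤ (1/(100 ea)) 56 ea⁷ 4 (η/d_a) (27/25) v_a ≤ 3 ea⁶ (η/d_a) v_a`.
Total: `3.3·2·(1+ea⁶)·(27/25) + 3 ea⁶ ≤ 7.2 ≤ 9`.
-/

open MeasureTheory Metric Finset Filter Topology

noncomputable section

namespace Ion

namespace Sys

variable {ι : Type} [Fintype ι] [DecidableEq ι] {m : ℕ} (S : Sys ι m)

theorem P2_adm (hm : 1 ≤ m) {t : ι → ℝ} (ht : S.Adm (ea m ^ 12) t) : S.Adm (ea m ^ 5) t := by
  intro j
  refine ⟨(ht j).1, (ht j).2.trans ?_⟩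
  have h1 := ea_pos hm
  have h2 := ea_le hm
  apply mul_le_mul_of_nonneg_right _ (S.dj_pos j).le
  exact pow_le_pow_of_le_one h1.le (by linarith) (by norm_num)

theorem P2_av_u (hm : 1 ≤ m) {t : ι → ℝ} (ht : S.Adm (ea m ^ 12) t) {y : E3} {ρ : ℝ} (hρ : S.Gap y ρ)
    {p : E3} {r : ℝ} (hr : 0 < r) (hp : ball p r ⊆ ball y ρ) :
    av p r (S.u t) = S.HH 1 (fun j => t j * S.v t j) t y ρ p -
      ∑ j ∈ S.near y ρ, t j * S.v t j * av p r (S.phi j) := by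
  have h5 := S.P2_adm hm ht
  have hv : ∀ j, S.avj j (S.FF 1 (fun j => t j * S.v t j)) = S.v t j := fun j => S.avj_u hm h5 j
  have h1 := S.HH_harm hm (c := 1) (b := fun j => t j * S.v t j) (t := t) hρ (fun j _ => by rw [hv]) hr hp
  have h2 : S.HH 1 (fun j => t j * S.v t j) t y ρ =
      fun w => S.u t w + ∑ j ∈ S.near y ρ, t j * S.v t j * S.phi j w := by
    funext w
    unfold HH
    simp only [hv]
    rfl
  have h3 : av p r (S.HH 1 (fun j => t j * S.v t j) t y ρ) =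
      av p r (S.u t) + ∑ j ∈ S.near y ρ, t j * S.v t j * av p r (S.phi j) := by
    have hc : ∀ j, Continuous fun w => t j * S.v t j * S.phi j w :=
      fun j => continuous_const.mul (S.phi_continuous hm j)
    rw [h2, av_add (G := fun w => ∑ j ∈ S.near y ρ, t j * S.v t j * S.phi j w)
      (S.u_continuous hm t) (continuous_finsetSum _ fun j _ => hc j),
      av_sum (S.near y ρ) (F := fun j w => t j * S.v t j * S.phi j w) (fun j _ => hc j)]
    congr 1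
    refine Finset.sum_congr rfl fun j _ => ?_
    exact av_mul _ _ _ _
  rw [← h1, h3]
  ring

theorem P2_near (hm : 1 ≤ m) {t : ι → ℝ} (ht : S.Adm (ea m ^ 12) t) (a : ι) {p : E3} {r η ρ : ℝ}
    (hη0 : 0 ≤ η) (hr0 : 0 < r) (hp : ‖p - S.x a‖ ≤ η) (hr : |r - S.del a| ≤ η)
    (hρ : S.Gap (S.x a) ρ) {j : ι} (hj : j ∈ S.near (S.x a) ρ) :
    |t j * S.v t j * av (S.x a) (S.del a) (S.phi j) - t j * S.v t j * av p r (S.phi j)| ≤
      224 * ea m ^ 7 * (η / S.dj a) * S.u t (S.x a) := by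
  have he := ea_pos hm
  have hD := S.dj_pos a
  have hd := S.dj_pos j
  have hdj : S.dj a / 4 ≤ S.dj j := S.near_ge hm hρ hj
  have hδj : 0 < S.del j := S.del_pos hm j
  have hv0 : 0 < S.v t j := S.v_pos hm (S.P2_adm hm ht) j
  have hu0 : 0 < S.u t (S.x a) := S.u_pos hm (S.P2_adm hm ht) _
  have h1 : |av (S.x a) (S.del a) (S.phi j) - av p r (S.phi j)| ≤ 1 / S.del j ^ 2 * (η + η) := by
    have h := av_move_lip (F := S.phi j) (L := 1 / S.del j ^ 2) (fun w w' => by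
      have h := ph_lip (p := S.x j) (y := w) (y' := w') hδj
      rw [one_div_mul_eq_div]
      exact h) (p := S.x a) (p' := p) (r := S.del a) (r' := r) (S.del_pos hm a) hr0
    rw [abs_sub_comm] at h
    refine h.trans ?_
    apply mul_le_mul_of_nonneg_left _ (by positivity)
    exact add_le_add hp hr
  rw [← mul_sub, abs_mul, abs_of_nonneg (mul_nonneg (ht j).1 hv0.le)]
  have h2 : t j * S.v t j ≤ ea m ^ 12 * S.dj j * (28 / ea m ^ 3 * S.u t (S.x a)) :=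
    mul_le_mul (ht j).2 (S.near_v hm ht (S.ne a) hρ hj) hv0.le (by positivity)
  have h3 : t j * S.v t j * |av (S.x a) (S.del a) (S.phi j) - av p r (S.phi j)| ≤
      ea m ^ 12 * S.dj j * (28 / ea m ^ 3 * S.u t (S.x a)) * (1 / S.del j ^ 2 * (η + η)) :=
    mul_le_mul h2 h1 (abs_nonneg _) (by positivity)
  refine h3.trans ?_
  have h4 : S.del j = ea m * S.dj j := rfl
  rw [h4]
  have h5 : ea m ^ 12 * S.dj j * (28 / ea m ^ 3 * S.u t (S.x a)) * (1 / (ea m * S.dj j) ^ 2 * (η + η)) =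
      56 * ea m ^ 7 * η * S.u t (S.x a) * (1 / S.dj j) := by
    field_simp
    ring
  have h6 : 1 / S.dj j ≤ 4 / S.dj a := by
    rw [div_le_div_iff₀ hd hD]
    linarith
  rw [h5]
  calc 56 * ea m ^ 7 * η * S.u t (S.x a) * (1 / S.dj j)
      ≤ 56 * ea m ^ 7 * η * S.u t (S.x a) * (4 / S.dj a) :=
        mul_le_mul_of_nonneg_left h6 (by positivity)
    _ = 224 * ea m ^ 7 * (η / S.dj a) * S.u t (S.x a) := by ring

theorem P2_move (hm : 1 ≤ m) {t : ι → ℝ} (ht : S.Adm (ea m ^ 12) t) (a : ι) {p : E3} {η ρ : ℝ}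
    (hη0 : 0 ≤ η) (hη : η ≤ ea m ^ 3 * S.dj a) (hp : ‖p - S.x a‖ ≤ η) (hρ : S.Gap (S.x a) ρ) :
    |S.HH 1 (fun j => t j * S.v t j) t (S.x a) ρ (S.x a) -
      S.HH 1 (fun j => t j * S.v t j) t (S.x a) ρ p| ≤
      33 / 10 * (η / ρ) * S.HH 1 (fun j => t j * S.v t j) t (S.x a) ρ (S.x a) := by
  have he := ea_pos hm
  have he1 := ea_le hm
  have hD := S.dj_pos a
  have hρD : S.dj a / 2 ≤ ρ := hρ.1
  have hρ0 : 0 < ρ := by linarith
  have he3 : ea m ^ 3 ≤ 1 / 1000000 := by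
    calc ea m ^ 3 ≤ (1 / 100) ^ 3 := pow_le_pow_left₀ he.le he1 3
      _ = 1 / 1000000 := by norm_num
  have hηρ : η ≤ ρ / 500000 := by
    have : ea m ^ 3 * S.dj a ≤ 1 / 1000000 * S.dj a := mul_le_mul_of_nonneg_right he3 hD.le
    linarith
  have h5 := S.P2_adm hm ht
  have hFn : ∀ w, 0 ≤ S.FF 1 (fun j => t j * S.v t j) w := fun w => (S.u_pos hm h5 w).le
  set H := S.HH 1 (fun j => t j * S.v t j) t (S.x a) ρ with hH
  have hHy : 0 ≤ H (S.x a) := (hFn _).trans (S.HH_ge hm ht hFn _ _ _)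
  have hHp : 0 ≤ H p := (hFn _).trans (S.HH_ge hm ht hFn _ _ _)
  have m1 : H p ≤ (ρ / (ρ - η)) ^ 3 * H (S.x a) := S.H_move hm ht (S.ne a) hρ hp (by linarith)
  have m2 : H (S.x a) ≤ ((ρ - η) / (ρ - 2 * η)) ^ 3 * H p := S.H_move' hm ht (S.ne a) hρ hp (by linarith)
  set s := η / ρ with hs
  have hs0 : 0 ≤ s := div_nonneg hη0 hρ0.le
  have hs1 : s ≤ 1 / 500000 := by
    rw [hs, div_le_iff₀ hρ0]
    linarith
  have hηs : η = s * ρ := by
    rw [hs]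
    field_simp
  have r1 : ρ / (ρ - η) = 1 / (1 - s) := by
    have : 0 < 1 - s := by linarith
    rw [hηs, div_eq_div_iff (by nlinarith) this.ne']
    ring
  have r2 : (ρ - η) / (ρ - 2 * η) = (1 - s) / (1 - 2 * s) := by
    have h1 : 0 < 1 - 2 * s := by linarith
    rw [hηs, div_eq_div_iff (by nlinarith) h1.ne']
    ring
  have q1 : (1 / (1 - s)) ^ 3 ≤ 1 + 33 / 10 * s := by
    have h1 : 0 < 1 - s := by linarith
    rw [div_pow, one_pow, div_le_iff₀ (by positivity)]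
    have h2 : 0 ≤ s * (3 / 10 - 99 / 10 * s + 3 * s + 99 / 10 * s ^ 2 - s ^ 2 - 33 / 10 * s ^ 3) := by
      apply mul_nonneg hs0
      nlinarith [pow_nonneg hs0 2, pow_nonneg hs0 3]
    nlinarith
  have q2 : ((1 - s) / (1 - 2 * s)) ^ 3 * (1 - 33 / 10 * s) ≤ 1 := by
    have h1 : 0 < 1 - 2 * s := by linarith
    rw [div_pow, div_mul_eq_mul_div, div_le_one (by positivity)]
    nlinarith [mul_nonneg hs0 hs0, mul_nonneg (mul_nonneg hs0 hs0) hs0,
      mul_nonneg (mul_nonneg (mul_nonneg hs0 hs0) hs0) hs0]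
  rw [r1] at m1
  rw [r2] at m2
  rw [abs_le]
  constructor
  · have : H p ≤ (1 + 33 / 10 * s) * H (S.x a) := m1.trans (mul_le_mul_of_nonneg_right q1 hHy)
    linarith
  · have h1 : 0 ≤ 1 - 33 / 10 * s := by linarith
    have h2 : (1 - 33 / 10 * s) * H (S.x a) ≤ H p := by
      calc (1 - 33 / 10 * s) * H (S.x a) ≤ (1 - 33 / 10 * s) * (((1 - s) / (1 - 2 * s)) ^ 3 * H p) :=
            mul_le_mul_of_nonneg_left m2 h1
        _ = (((1 - s) / (1 - 2 * s)) ^ 3 * (1 - 33 / 10 * s)) * H p := by ring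
        _ ≤ 1 * H p := mul_le_mul_of_nonneg_right q2 hHp
        _ = H p := one_mul _
    linarith

theorem DE (hm : 1 ≤ m) {t : ι → ℝ} (ht : S.Adm (ea m ^ 12) t) (a : ι) {p : E3} {r η : ℝ}
    (hη0 : 0 ≤ η) (hη : η ≤ ea m ^ 3 * S.dj a) (hr0 : 0 < r) (hp : ‖p - S.x a‖ ≤ η) (hr : |r - S.del a| ≤ η) :
    |S.avj a (S.u t) - av p r (S.u t)| ≤ 9 * (η / S.dj a) * S.v t a := by
  obtain ⟨ρ, hρ⟩ := S.exists_gap hm (S.ne a)
  have he := ea_pos hm
  have he1 := ea_le hm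
  have hD := S.dj_pos a
  have hρD : S.dj a / 2 ≤ ρ := hρ.1
  have hρ0 : 0 < ρ := by linarith
  have he3 : ea m ^ 3 ≤ 1 / 1000000 := by
    calc ea m ^ 3 ≤ (1 / 100) ^ 3 := pow_le_pow_left₀ he.le he1 3
      _ = 1 / 1000000 := by norm_num
  have he6 : ea m ^ 6 ≤ 1 / 1000000000000 := by
    calc ea m ^ 6 ≤ (1 / 100) ^ 6 := pow_le_pow_left₀ he.le he1 6
      _ = 1 / 1000000000000 := by norm_num
  have he6' : 0 ≤ ea m ^ 6 := by positivity
  have hη1 : η ≤ S.dj a / 1000000 := by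
    have : ea m ^ 3 * S.dj a ≤ 1 / 1000000 * S.dj a := mul_le_mul_of_nonneg_right he3 hD.le
    linarith
  have hδ0 : 0 < S.del a := S.del_pos hm a
  have hδ : S.del a ≤ S.dj a / 100 := by
    have h : S.del a = ea m * S.dj a := rfl
    rw [h]
    nlinarith
  have h5 := S.P2_adm hm ht
  have hFn : ∀ w, 0 ≤ S.FF 1 (fun j => t j * S.v t j) w := fun w => (S.u_pos hm h5 w).le
  have hv : ∀ j, S.avj j (S.FF 1 (fun j => t j * S.v t j)) = S.v t j := fun j => S.avj_u hm h5 j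
  have b1 : ball (S.x a) (S.del a) ⊆ ball (S.x a) ρ := ball_subset_ball (by linarith)
  have b2 : ball p r ⊆ ball (S.x a) ρ := by
    apply ball_subset_ball'
    rw [dist_eq_norm]
    have := (abs_le.1 hr).2
    linarith
  have e1 : S.avj a (S.u t) = S.HH 1 (fun j => t j * S.v t j) t (S.x a) ρ (S.x a) -
      ∑ j ∈ S.near (S.x a) ρ, t j * S.v t j * av (S.x a) (S.del a) (S.phi j) :=
    S.P2_av_u hm ht hρ hδ0 b1
  have e2 := S.P2_av_u hm ht hρ hr0 b2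
  have k1 := S.P2_move hm ht a hη0 hη hp hρ
  have hHy : 0 ≤ S.HH 1 (fun j => t j * S.v t j) t (S.x a) ρ (S.x a) :=
    (hFn _).trans (S.HH_ge hm ht hFn _ _ _)
  have k2 : S.HH 1 (fun j => t j * S.v t j) t (S.x a) ρ (S.x a) ≤ (1 + ea m ^ 6) * S.u t (S.x a) :=
    S.LL_one hm ht hFn (fun j => by rw [hv]) (S.ne a) hρ
  have k3 := S.u_le_v hm ht a
  have hva : 0 < S.v t a := S.v_pos hm h5 a
  have hua : 0 < S.u t (S.x a) := S.u_pos hm h5 _
  have k4 : |∑ j ∈ S.near (S.x a) ρ, t j * S.v t j * av (S.x a) (S.del a) (S.phi j) -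
      ∑ j ∈ S.near (S.x a) ρ, t j * S.v t j * av p r (S.phi j)| ≤
      m * (224 * ea m ^ 7 * (η / S.dj a) * S.u t (S.x a)) := by
    rw [← Finset.sum_sub_distrib]
    refine (Finset.abs_sum_le_sum_abs _ _).trans ?_
    refine (Finset.sum_le_sum fun j hj => S.P2_near hm ht a hη0 hr0 hp hr hρ hj).trans ?_
    rw [Finset.sum_const, nsmul_eq_mul]
    apply mul_le_mul_of_nonneg_right _ (by positivity)
    exact_mod_cast S.near_card hm (S.ne a) hρ
  have hq0 : 0 ≤ η / S.dj a := by positivity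
  have k5 : (m : ℝ) * (224 * ea m ^ 7 * (η / S.dj a) * S.u t (S.x a)) ≤
      1 / 1000 * (η / S.dj a) * S.v t a := by
    have h1 : (m : ℝ) * (224 * ea m ^ 7 * (η / S.dj a) * S.u t (S.x a)) =
        (m * ea m) * 224 * ea m ^ 6 * (η / S.dj a) * S.u t (S.x a) := by ring
    rw [h1, mul_ea hm]
    have h2 : 1 / 100 * 224 * ea m ^ 6 ≤ 1 / 2000 := by linarith
    calc 1 / 100 * 224 * ea m ^ 6 * (η / S.dj a) * S.u t (S.x a)
        ≤ 1 / 2000 * (η / S.dj a) * (27 / 25 * S.v t a) := by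
          apply mul_le_mul _ k3 hua.le (by positivity)
          exact mul_le_mul_of_nonneg_right h2 hq0
      _ ≤ 1 / 1000 * (η / S.dj a) * S.v t a := by
          have := mul_nonneg hq0 hva.le
          nlinarith
  have k6 : η / ρ ≤ 2 * (η / S.dj a) := by
    rw [← mul_div_assoc, div_le_div_iff₀ hρ0 hD]
    nlinarith
  have k7 : 33 / 10 * (η / ρ) * S.HH 1 (fun j => t j * S.v t j) t (S.x a) ρ (S.x a) ≤
      8 * (η / S.dj a) * S.v t a := by
    have h1 : S.HH 1 (fun j => t j * S.v t j) t (S.x a) ρ (S.x a) ≤ 11 / 10 * S.v t a := by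
      refine k2.trans ?_
      calc (1 + ea m ^ 6) * S.u t (S.x a) ≤ (1 + ea m ^ 6) * (27 / 25 * S.v t a) :=
            mul_le_mul_of_nonneg_left k3 (by linarith)
        _ ≤ 11 / 10 * S.v t a := by nlinarith
    calc 33 / 10 * (η / ρ) * S.HH 1 (fun j => t j * S.v t j) t (S.x a) ρ (S.x a)
        ≤ 33 / 10 * (2 * (η / S.dj a)) * (11 / 10 * S.v t a) := by
          apply mul_le_mul _ h1 hHy (by positivity)
          exact mul_le_mul_of_nonneg_left k6 (by norm_num)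
      _ ≤ 8 * (η / S.dj a) * S.v t a := by
          have := mul_nonneg hq0 hva.le
          nlinarith
  have k8 : 0 ≤ (η / S.dj a) * S.v t a := mul_nonneg hq0 hva.le
  rw [e1, e2]
  rw [abs_le] at k1 k4 ⊢
  constructor <;> linarith [k1.1, k1.2, k4.1, k4.2]

end Sys

end Ion
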