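import Pool.Agent.Lib.MP_69e010_mp.B8
import Pool.Agent.Lib.MP_69e010_mp.A5

/-!
# JOB P3: movement of averages of Green functions (GE) of section 4

`S`, `t` `Adm (ea m ^ 12)`, traps `i ≠ b`, ball `B(p, r)` with `‖p - x_b‖ ≤ η`, `|r - del b| ≤ η`, `η ≤ del b / 20`. Claim: `|av p r g_i - avj b g_i| ≤ (1000/ea²)(η/d_b) GG_ib`.

By `av_move_sup` (`g_i ≥ 0` continuous): `|...| ≤ 32 (η/del b) sup_{B(x_b, 2 del b)} g_i`, `del b = ea d_b`. So it suffices to show `sup ≤ (30/ea) GG_ib` (`sup_g`):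
Let `y = x_b`, `ρ` a gap radius at `y`. `g_i = F_{0,b'}` with `b'_j = t_j GG_ji - 1_{j=i}`, `avj j g_i = GG_ji` (`avj_g`, symmetric), `b'_j ≤ t_j avj j g_i`. `H = HH 0 b' t y ρ = g_i + ∑_near t_j GG_ji φ_j`.
Case `i` far (not near): `b'_j = t_j avj_j g_i` for near `j`, so `H` is exactly averaged (`HH_harm`). For `w ∈ ball y (2 del b)`: `g_i(w) ≤ H(w) = av w (ρ/2) H ≤ 8 av y ρ H = 8 H(y)` (`ball w (ρ/2) ⊆ ball y ρ` as `2 del b ≤ ρ/2`).
 And `GG_bi = avj b g_i = H(y) - ∑_near t_j GG_ji avj b φ_j ≥ H(y) - ∑_near t_j GG_ji φ_j(y) ≥ H(y) - 0.405 H(y)` (`av_phi_le`, `LL_sum` with `τ = ea⁵` or even `ea¹²`; `81/2 m ea = 0.405`). So `sup ≤ 14 GG_ib`.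
Case `i` near: `sup g_i ≤ sup φ_i ≤ 3/(2 del i) ≤ 6/(ea d_b)` (`near_ge`: `d_i ≥ d_b/4`). Lower bound `GG_ib ≥ 1/(5 d_b)`: `GG_ib = K_ib - ∑_j K_bj t_j GG_ji` (`GG_eq`, symmetry), `K_ib ≥ 1/(‖x_i - x_b‖ + del i + del b) ≥ 1/(0.8 d_b)`
 (`‖x_i-x_b‖ + del i ≤ ρ ≤ 3/4 d_b`, `del b ≤ d_b/100`). Split the sum: the `j` with `‖x_j - x_b‖ < d_b` (at most `m`, `card`): `t_j K_bj ≤ ea¹² d_j · 3/(2 ea d_j) = 1.5 ea¹¹`, `GG_ji ≤ K_ji ≤ 3/(2 del i) ≤ 6/(ea d_b)`: total `≤ m·9 ea¹⁰/d_b ≤ 0.01/d_b`.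
 The `j` with `‖x_j - x_b‖ ≥ d_b > 0`: `K_bj ≤ 1/‖x_j - x_b‖ ≤ 1/d_b`, `∑ t_j GG_ji ≤ 1 - v_i ≤ 1` (`sum_GG`): total `≤ 1/d_b`. So `GG_ib ≥ (1.25 - 0.01 - 1)/d_b`.
`GE_self`: `g_b ≤ φ_b ≤ 3/(2 del b)`, `av_move_sup` with `C = 3/(2 del b)`: `32 (η/del b) 3/(2 del b) = 48 η/(del b)²`.
-/

open MeasureTheory Metric Finset Filter Topology

noncomputable section

namespace Ion

namespace Sys

variable {ι : Type} [Fintype ι] [DecidableEq ι] {m : ℕ} (S : Sys ι m)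

omit [DecidableEq ι] in
theorem P3_adm (hm : 1 ≤ m) {t : ι → ℝ} (ht : S.Adm (ea m ^ 12) t) : S.Adm (ea m ^ 5) t := by
  intro j
  refine ⟨(ht j).1, (ht j).2.trans ?_⟩
  have h0 := ea_pos hm
  have h1 := ea_le hm
  have h2 : ea m ^ 12 ≤ ea m ^ 5 := pow_le_pow_of_le_one h0.le (by linarith) (by norm_num)
  exact mul_le_mul_of_nonneg_right h2 (S.dj_pos j).le

/-- the case of a far pole -/
theorem P3_far (hm : 1 ≤ m) {t : ι → ℝ} (ht : S.Adm (ea m ^ 12) t) {i b : ι} {ρ : ℝ}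
    (hρ : S.Gap (S.x b) ρ) (hi : i ∉ S.near (S.x b) ρ) {w : E3}
    (hw : w ∈ ball (S.x b) (2 * S.del b)) : S.g t i w ≤ 14 * S.GG t i b := by
  have ht5 := S.P3_adm hm ht
  have he0 := ea_pos hm
  have he1 := ea_le hm
  have hme := mul_ea hm
  have hy := S.ne b
  have hρ0 := S.gap_pos hm hy hρ
  have hd : 0 < S.dj b := S.dj_pos b
  have hdy : S.d (S.x b) = S.dj b := rfl
  have hδ : S.del b = ea m * S.dj b := rfl
  have hδ0 := S.del_pos hm b
  set b' : ι → ℝ := fun j => t j * S.GG t j i - if j = i then 1 else 0 with hb'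
  have hg : S.g t i = S.FF 0 b' := rfl
  have hF : ∀ w, 0 ≤ S.FF 0 b' w := fun w => by rw [← hg]; exact S.g_nonneg hm ht5 i w
  have hav : ∀ j, S.avj j (S.FF 0 b') = S.GG t j i := fun j => by
    rw [← hg]; exact S.avj_g hm ht5 j i
  have hble : ∀ j, b' j ≤ t j * S.avj j (S.FF 0 b') := by
    intro j
    rw [hav, hb']
    show t j * S.GG t j i - (if j = i then (1:ℝ) else 0) ≤ t j * S.GG t j i
    split_ifs <;> linarith
  have hbeq : ∀ j ∈ S.near (S.x b) ρ, b' j = t j * S.avj j (S.FF 0 b') := by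
    intro j hj
    rw [hav, hb']
    show t j * S.GG t j i - (if j = i then (1:ℝ) else 0) = t j * S.GG t j i
    have : j ≠ i := fun h => hi (h ▸ hj)
    rw [if_neg this, sub_zero]
  set H := S.HH 0 b' t (S.x b) ρ with hH
  have hHc : Continuous H := S.HH_continuous hm 0 b' t (S.x b) ρ
  have hHge : ∀ w, S.FF 0 b' w ≤ H w := fun w => S.HH_ge hm ht5 hF (S.x b) ρ w
  have hH0 : ∀ w, 0 ≤ H w := fun w => (hF w).trans (hHge w)
  have hharm : ∀ {p : E3} {r : ℝ}, 0 < r → ball p r ⊆ ball (S.x b) ρ → av p r H = H p :=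
    fun hr hp => S.HH_harm hm hρ hbeq hr hp
  -- upper bound
  have h1 : ‖w - S.x b‖ < 2 * S.del b := by rw [mem_ball, dist_eq_norm] at hw; exact hw
  have hδρ : S.del b ≤ ρ / 50 := by
    have := hρ.1
    rw [hdy] at this
    rw [hδ]
    nlinarith
  have hsub : ball w (ρ / 2) ⊆ ball (S.x b) ρ := by
    intro z hz
    rw [mem_ball, dist_eq_norm] at hz ⊢
    have : ‖z - S.x b‖ ≤ ‖z - w‖ + ‖w - S.x b‖ := norm_sub_le_norm_sub_add_norm_sub _ _ _
    linarith
  have h2 : H w ≤ 8 * H (S.x b) := by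
    have e1 := hharm (p := w) (r := ρ / 2) (by linarith) hsub
    have e2 := hharm (p := S.x b) (r := ρ) hρ0 subset_rfl
    have e3 := av_subset hHc (p := w) (q := S.x b) (r := ρ / 2) (ρ := ρ) (by linarith) hsub
      (fun w _ => hH0 w)
    rw [e1, e2] at e3
    have e4 : (ρ / (ρ / 2)) ^ 3 = 8 := by
      have : ρ / (ρ / 2) = 2 := by field_simp
      rw [this]; norm_num
    rwa [e4] at e3
  -- lower bound for the average
  have hsub2 : ball (S.x b) (S.del b) ⊆ ball (S.x b) ρ := ball_subset_ball (by linarith)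
  have h3 : S.GG t b i = H (S.x b) - ∑ j ∈ S.near (S.x b) ρ,
      t j * S.avj j (S.FF 0 b') * av (S.x b) (S.del b) (S.phi j) := by
    have e1 : ∀ w, H w = S.FF 0 b' w +
        ∑ j ∈ S.near (S.x b) ρ, t j * S.avj j (S.FF 0 b') * S.phi j w := fun w => rfl
    have e2 : av (S.x b) (S.del b) H = av (S.x b) (S.del b) (S.FF 0 b') +
        ∑ j ∈ S.near (S.x b) ρ, t j * S.avj j (S.FF 0 b') * av (S.x b) (S.del b) (S.phi j) := by
      rw [show H = fun w => S.FF 0 b' w +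
        ∑ j ∈ S.near (S.x b) ρ, t j * S.avj j (S.FF 0 b') * S.phi j w from funext e1]
      rw [av_add (S.FF_continuous hm 0 b') (by
        refine continuous_finsetSum _ fun j _ => ?_
        exact continuous_const.mul (S.phi_continuous hm j))]
      rw [av_sum (S.near (S.x b) ρ)
        (F := fun j w => t j * S.avj j (S.FF 0 b') * S.phi j w)
        (fun j _ => continuous_const.mul (S.phi_continuous hm j))]
      congr 1
      exact Finset.sum_congr rfl fun j _ => av_mul _ _ _ _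
    have e3 := hharm (p := S.x b) (r := S.del b) hδ0 hsub2
    have e4 : av (S.x b) (S.del b) (S.FF 0 b') = S.GG t b i := hav b
    rw [e3, e4] at e2
    linarith
  have h4 : ∑ j ∈ S.near (S.x b) ρ,
      t j * S.avj j (S.FF 0 b') * av (S.x b) (S.del b) (S.phi j) ≤
      ∑ j ∈ S.near (S.x b) ρ, t j * S.avj j (S.FF 0 b') * S.phi j (S.x b) := by
    refine Finset.sum_le_sum fun j _ => ?_
    refine mul_le_mul_of_nonneg_left (S.av_phi_le hm j (S.x b) hδ0) ?_
    rw [hav]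
    exact mul_nonneg (ht j).1 (S.GG_nonneg hm ht5 j i)
  have h5 := S.LL_sum hm (pow_nonneg he0.le 5) ht5 hF hble hy hρ
  have h6 : 81 / 2 * (m : ℝ) / ea m ^ 4 * ea m ^ 5 = 81 / 200 := by
    have : 81 / 2 * (m : ℝ) / ea m ^ 4 * ea m ^ 5 = 81 / 2 * (m * ea m) := by
      field_simp
    rw [this, hme]; norm_num
  rw [h6] at h5
  have h7 : S.GG t i b = S.GG t b i := S.GG_symm hm ht5 i b
  have h8 : S.g t i w ≤ H w := by rw [hg]; exact hHge w
  have h9 := hH0 (S.x b)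
  rw [h7]
  linarith

/-- the case of a near pole -/
theorem P3_near (hm : 1 ≤ m) {t : ι → ℝ} (ht : S.Adm (ea m ^ 12) t) {i b : ι} {ρ : ℝ}
    (hρ : S.Gap (S.x b) ρ) (hi : i ∈ S.near (S.x b) ρ) :
    3 / (2 * S.del i) ≤ 6 / (ea m * S.dj b) ∧ 1 / (5 * S.dj b) ≤ S.GG t i b := by
  have ht5 := S.P3_adm hm ht
  have he0 := ea_pos hm
  have he1 := ea_le hm
  have hme := mul_ea hm
  have hy := S.ne b
  have hd : 0 < S.dj b := S.dj_pos b
  have hdy : S.d (S.x b) = S.dj b := rfl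
  have hδ : S.del b = ea m * S.dj b := rfl
  have hδ0 := S.del_pos hm b
  have hδi : S.del i = ea m * S.dj i := rfl
  have hδi0 := S.del_pos hm i
  have hdi : S.dj b / 4 ≤ S.dj i := S.near_ge hm hρ hi
  have h1 : 3 / (2 * S.del i) ≤ 6 / (ea m * S.dj b) := by
    rw [div_le_div_iff₀ (by positivity) (by positivity), hδi]
    have := mul_le_mul_of_nonneg_left hdi he0.le
    nlinarith
  refine ⟨h1, ?_⟩
  -- the diagonal term
  have h2 : 5 / (4 * S.dj b) ≤ S.K b i := by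
    refine le_trans ?_ (S.K_ge hm b i)
    have e1 : ‖S.x i - S.x b‖ + S.del i ≤ ρ := S.mem_near.1 hi
    have e2 : ρ ≤ 3 / 4 * S.dj b := hρ.2.1
    have e3 : S.del b ≤ S.dj b / 100 := by
      rw [hδ]
      nlinarith
    have e4 : ‖S.x b - S.x i‖ + S.del b + S.del i ≤ 4 / 5 * S.dj b := by
      rw [norm_sub_rev]
      linarith
    have e5 : 0 < ‖S.x b - S.x i‖ + S.del b + S.del i := by positivity
    have e6 : 5 / (4 * S.dj b) = (4 / 5 * S.dj b)⁻¹ := by
      rw [inv_eq_one_div, div_eq_div_iff (by positivity) (by positivity)]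
      ring
    rw [e6]
    exact inv_anti₀ e5 e4
  have h3 := S.GG_eq hm ht5 b i
  set J := univ.filter fun j => ‖S.x j - S.x b‖ < S.d (S.x b) with hJ
  have hJm : (J.card : ℝ) ≤ m := by exact_mod_cast S.card (S.x b)
  have hsplit : ∑ j, S.K b j * (t j * S.GG t j i) =
      ∑ j ∈ J, S.K b j * (t j * S.GG t j i) +
        ∑ j ∈ univ.filter (fun j => ¬ ‖S.x j - S.x b‖ < S.d (S.x b)),
          S.K b j * (t j * S.GG t j i) :=
    (Finset.sum_filter_add_sum_filter_not _ _ _).symm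
  have hGG0 : ∀ j, 0 ≤ t j * S.GG t j i := fun j => mul_nonneg (ht j).1 (S.GG_nonneg hm ht5 j i)
  have h4 : ∑ j ∈ J, S.K b j * (t j * S.GG t j i) ≤ 1 / (100 * S.dj b) := by
    have e1 : ∀ j ∈ J, S.K b j * (t j * S.GG t j i) ≤ 9 * ea m ^ 10 / S.dj b := by
      intro j _
      have f1 : S.K b j ≤ 3 / (2 * S.del j) := S.K_le_right hm b j
      have f2 : t j ≤ ea m ^ 12 * S.dj j := (ht j).2
      have f3 : S.GG t j i ≤ 6 / (ea m * S.dj b) :=
        ((S.GG_le hm ht5 j i).trans (S.K_le_right hm j i)).trans h1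
      have hdj := S.dj_pos j
      have hδj : S.del j = ea m * S.dj j := rfl
      have f4 : S.K b j * t j ≤ 3 / (2 * S.del j) * (ea m ^ 12 * S.dj j) :=
        mul_le_mul f1 f2 (ht j).1 (by rw [hδj]; positivity)
      have f5 : 3 / (2 * S.del j) * (ea m ^ 12 * S.dj j) = 3 / 2 * ea m ^ 11 := by
        rw [hδj]
        field_simp
      have f6 : 0 ≤ S.K b j * t j := mul_nonneg (S.K_pos hm b j).le (ht j).1
      calc S.K b j * (t j * S.GG t j i) = (S.K b j * t j) * S.GG t j i := by ring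
        _ ≤ (3 / 2 * ea m ^ 11) * (6 / (ea m * S.dj b)) := by
            refine mul_le_mul (by rw [← f5]; exact f4) f3 (S.GG_nonneg hm ht5 j i) (by positivity)
        _ = 9 * ea m ^ 10 / S.dj b := by field_simp; norm_num
    have e2 := Finset.sum_le_sum e1
    rw [Finset.sum_const, nsmul_eq_mul] at e2
    refine e2.trans ?_
    have e3 : (J.card : ℝ) * (9 * ea m ^ 10 / S.dj b) ≤ m * (9 * ea m ^ 10 / S.dj b) :=
      mul_le_mul_of_nonneg_right hJm (by positivity)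
    refine e3.trans ?_
    have e4 : (m : ℝ) * (9 * ea m ^ 10 / S.dj b) = (m * ea m) * (9 * ea m ^ 9) / S.dj b := by
      ring
    rw [e4, hme, div_le_div_iff₀ hd (by positivity)]
    have e5 : ea m ^ 9 ≤ ea m ^ 1 := pow_le_pow_of_le_one he0.le (by linarith) (by norm_num)
    rw [pow_one] at e5
    nlinarith
  have h5 : ∑ j ∈ univ.filter (fun j => ¬ ‖S.x j - S.x b‖ < S.d (S.x b)),
      S.K b j * (t j * S.GG t j i) ≤ 1 / S.dj b := by
    have e1 : ∀ j ∈ univ.filter (fun j => ¬ ‖S.x j - S.x b‖ < S.d (S.x b)),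
        S.K b j * (t j * S.GG t j i) ≤ 1 / S.dj b * (t j * S.GG t j i) := by
      intro j hj
      have f1 : S.dj b ≤ ‖S.x j - S.x b‖ := not_lt.1 (Finset.mem_filter.1 hj).2
      have f2 : S.x b ≠ S.x j := by
        intro h
        rw [h, sub_self, norm_zero] at f1
        linarith
      have f3 : S.K b j ≤ 1 / S.dj b := by
        refine (S.K_le_inv hm f2).trans ?_
        rw [norm_sub_rev, one_div]
        exact inv_anti₀ hd f1
      exact mul_le_mul_of_nonneg_right f3 (hGG0 j)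
    have e2 : ∑ j ∈ univ.filter (fun j => ¬ ‖S.x j - S.x b‖ < S.d (S.x b)),
        1 / S.dj b * (t j * S.GG t j i) ≤ ∑ j, 1 / S.dj b * (t j * S.GG t j i) :=
      Finset.sum_le_sum_of_subset_of_nonneg (Finset.filter_subset _ _)
        (fun j _ _ => mul_nonneg (by positivity) (hGG0 j))
    have e3 : ∑ j, 1 / S.dj b * (t j * S.GG t j i) = 1 / S.dj b * (1 - S.v t i) := by
      rw [← Finset.mul_sum, S.sum_GG hm ht5 i]
    have e4 : 1 / S.dj b * (1 - S.v t i) ≤ 1 / S.dj b * 1 :=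
      mul_le_mul_of_nonneg_left (by linarith [S.v_pos hm ht5 i]) (by positivity)
    calc _ ≤ _ := Finset.sum_le_sum e1
      _ ≤ _ := e2
      _ = _ := e3
      _ ≤ _ := e4
      _ = 1 / S.dj b := mul_one _
  have h6 : S.GG t i b = S.GG t b i := S.GG_symm hm ht5 i b
  rw [h6]
  have h7 : 5 / (4 * S.dj b) - 1 / (100 * S.dj b) - 1 / S.dj b = 6 / 25 * (1 / S.dj b) := by
    field_simp
    norm_num
  have h8 : 1 / (5 * S.dj b) = 1 / 5 * (1 / S.dj b) := by
    field_simp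
  have h9 : 0 < 1 / S.dj b := by positivity
  rw [h8]
  linarith

theorem sup_g (hm : 1 ≤ m) {t : ι → ℝ} (ht : S.Adm (ea m ^ 12) t) {i b : ι} (hib : i ≠ b) {w : E3}
    (hw : w ∈ ball (S.x b) (2 * S.del b)) : S.g t i w ≤ 30 / ea m * S.GG t i b := by
  have ht5 := S.P3_adm hm ht
  have he0 := ea_pos hm
  have he1 := ea_le hm
  obtain ⟨ρ, hρ⟩ := S.exists_gap hm (S.ne b)
  by_cases hi : i ∈ S.near (S.x b) ρ
  · obtain ⟨h1, h2⟩ := S.P3_near hm ht hρ hi
    have h3 : S.g t i w ≤ 6 / (ea m * S.dj b) :=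
      ((S.g_le hm ht5 i w).trans (S.phi_le hm i w)).trans h1
    have hd : 0 < S.dj b := S.dj_pos b
    have h4 : 6 / (ea m * S.dj b) = 30 / ea m * (1 / (5 * S.dj b)) := by
      field_simp
      norm_num
    rw [h4] at h3
    exact h3.trans (mul_le_mul_of_nonneg_left h2 (by positivity))
  · have h1 := S.P3_far hm ht hρ hi hw
    refine h1.trans (mul_le_mul_of_nonneg_right ?_ (S.GG_nonneg hm ht5 i b))
    rw [le_div_iff₀ he0]
    linarith

theorem GE (hm : 1 ≤ m) {t : ι → ℝ} (ht : S.Adm (ea m ^ 12) t) {i b : ι} (hib : i ≠ b) {p : E3} {r η : ℝ}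
    (hη0 : 0 ≤ η) (hη : η ≤ S.del b / 20) (hp : ‖p - S.x b‖ ≤ η) (hr : |r - S.del b| ≤ η) :
    |av p r (S.g t i) - S.avj b (S.g t i)| ≤ 1000 / ea m ^ 2 * (η / S.dj b) * S.GG t i b := by
  have ht5 := S.P3_adm hm ht
  have he0 := ea_pos hm
  have hd : 0 < S.dj b := S.dj_pos b
  have h1 := av_move_sup (S.g_continuous hm t i) (p := S.x b) (p' := p) (r := S.del b) (r' := r)
    (t := η) (C := 30 / ea m * S.GG t i b) (S.del_pos hm b) hη0 hη hp hr
    (fun w _ => S.g_nonneg hm ht5 i w) (fun w hw => S.sup_g hm ht hib hw)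
  refine h1.trans ?_
  have hδ : S.del b = ea m * S.dj b := rfl
  have h2 : 32 * (η / S.del b) * (30 / ea m * S.GG t i b) =
      960 / ea m ^ 2 * (η / S.dj b) * S.GG t i b := by
    rw [hδ]
    field_simp
    ring
  rw [h2]
  refine mul_le_mul_of_nonneg_right ?_ (S.GG_nonneg hm ht5 i b)
  refine mul_le_mul_of_nonneg_right ?_ (by positivity)
  exact div_le_div_of_nonneg_right (by norm_num) (by positivity)

theorem GE_self (hm : 1 ≤ m) {t : ι → ℝ} (ht : S.Adm (ea m ^ 12) t) (b : ι) {p : E3} {r η : ℝ}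
    (hη0 : 0 ≤ η) (hη : η ≤ S.del b / 20) (hp : ‖p - S.x b‖ ≤ η) (hr : |r - S.del b| ≤ η) :
    |av p r (S.g t b) - S.avj b (S.g t b)| ≤ 48 * η / S.del b ^ 2 := by
  have ht5 := S.P3_adm hm ht
  have hδ0 := S.del_pos hm b
  have h1 := av_move_sup (S.g_continuous hm t b) (p := S.x b) (p' := p) (r := S.del b) (r' := r)
    (t := η) (C := 3 / (2 * S.del b)) hδ0 hη0 hη hp hr
    (fun w _ => S.g_nonneg hm ht5 b w)
    (fun w _ => (S.g_le hm ht5 b w).trans (S.phi_le hm b w))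
  refine h1.trans (le_of_eq ?_)
  field_simp
  ring

end Sys

end Ion
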