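import Pool.Agent.Lib.MP_69e010_mp.P1
import Pool.Agent.Lib.MP_69e010_mp.P2
import Pool.Agent.Lib.MP_69e010_mp.P3
import Pool.Agent.Lib.MP_69e010_mp.B7

/-!
# JOB P4: quantitative perturbation bound

Data: systems `S, S'`, strengths `t, t'` (both `Adm (ea m ^ 12)`), `A` a finite set outside of which everything agrees, a step `η ≥ 0` with `η (|A| + 1) ≤ ea³ d_j` for `j ∈ A`, and for `j ∈ A`:
`‖x'_j - x_j‖ ≤ η`, `|d'_j - d_j| ≤ 2η`, `|t'_j - t_j| ≤ 4 (η/d_j) t_j`. Claim: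
`|v'_i - v_i| ≤ η ( [i ∈ A] 12/d_i v_i + (3000/ea²) ∑_{b∈A} GG_ib t_b v_b/d_b )`.

Proof. `|del'_j - del_j| ≤ 2 ea η ≤ η`, `d'_j ≥ d_j/2·..`: precisely `0.99 d_j ≤ d'_j ≤ 1.01 d_j`; `η ≤ ea³ d_j ≤ del_j/20`.
In the identity `pert_identity` estimate for every `i` (write `v' = S'.v t'`):
 (1) first sum: by `DE` for the system `S'` (ball `B(x_a, del_a)` of `S` close to the ball of `S'`; `η ≤ ea³ d_a`, needs `η ≤ ea³ d'_a`: use `η (|A|+1) ≤ ea³ d_a`, `|A| ≥ 1`, so `2η ≤ ea³ d_a`) `|S'.avj a u' - S.avj a u'| ≤ 9 (η/d'_a) v'_a ≤ 9.1 (η/d_a) v'_a`;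
     `MM_ia = 1_{i=a} - GG_ia t_a` (`MM_eq`), and `0 ≤ GG_ii t_i ≤ 1` so `|MM_ii| ≤ 1` (`GG_ii ≤ K_ii ≤ 3/(2 del i)`, `t_i ≤ ea¹² d_i`); all terms: `≤ [i∈A] 9.1 (η/d_i) v'_i + ∑_{a∈A, a≠i} GG_ia t_a 9.1 (η/d_a) v'_a`.
 (2) second sum: `b ≠ i`: `GE`: `≤ t'_b v'_b (1000/ea²)(η/d_b) GG_ib`, `t'_b ≤ 1.01 t_b`; `b = i`: `GE_self`: `≤ t'_i v'_i 48 η/(ea d_i)² ≤ 1.01 ea¹² d_i v'_i 48 η/(ea² d_i²) ≤ 49 ea¹⁰ (η/d_i) v'_i`.
 (3) third sum: `≤ ∑_{b∈A} GG_ib 4 (η/d_b) t_b v'_b` (for `b = i`: `GG_ii t_i ≤ 1.5 ea¹¹`).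
So `|v'_i - v_i| ≤ [i∈A] 9.3 (η/d_i) v'_i + (1040/ea²) ∑_{b∈A} GG_ib t_b (η/d_b) v'_b`. (**)
Let `r := max_{b∈A} v'_b/v_b` (`A` nonempty, otherwise the claim is trivial as (**) gives `v' = v`). For `i ∈ A`: by `F2_v` `GG_ib v_b ≤ 4/(ea⁵ d_b) v_i`, `t_b ≤ ea¹² d_b`, so `GG_ib t_b v'_b ≤ r 4 ea⁷ v_i`; hence
`v'_i/v_i ≤ 1 + 9.3 (η/d_i) r + 1040·4 ea⁵ r ∑_{b∈A} η/d_b ≤ 1 + r (9.3 ea³ + 4160 ea⁵·ea³)` (`η/d_b ≤ ea³/(|A|+1)`), so `r ≤ 1 + r/1000`, `r ≤ 1.01`.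
Insert `v'_b ≤ 1.01 v_b` for `b ∈ A` in (**): `9.3·1.01 ≤ 12`, `1040·1.01 ≤ 3000`.
-/

open MeasureTheory Metric Finset Filter Topology

noncomputable section

namespace Ion

namespace Sys

variable {ι : Type} [Fintype ι] [DecidableEq ι] {m : ℕ}

omit [DecidableEq ι] in
theorem P4_adm (S : Sys ι m) {t : ι → ℝ} {τ τ' : ℝ} (ht : S.Adm τ t) (h : τ ≤ τ') :
    S.Adm τ' t := fun j =>
  ⟨(ht j).1, (ht j).2.trans (mul_le_mul_of_nonneg_right h (S.dj_pos j).le)⟩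

theorem P4_pow (hm : 1 ≤ m) : ea m ^ 12 ≤ ea m ^ 5 / 2 := by
  have h0 := ea_pos hm
  have h1 := ea_le hm
  have h2 : ea m ^ 7 ≤ (1 / 100) ^ 7 := pow_le_pow_left₀ h0.le h1 7
  have h3 : ea m ^ 12 = ea m ^ 5 * ea m ^ 7 := by ring
  rw [h3]
  have h4 : 0 < ea m ^ 5 := by positivity
  nlinarith

theorem P4_pow' (hm : 1 ≤ m) : ea m ^ 12 ≤ ea m ^ 5 := by
  have h0 := ea_pos hm
  have h4 : 0 < ea m ^ 5 := by positivity
  linarith [P4_pow hm]

theorem P4_cube (hm : 1 ≤ m) : ea m ^ 3 ≤ (1 / 100) ^ 3 :=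
  pow_le_pow_left₀ (ea_pos hm).le (ea_le hm) 3

/-- `GG_ii t_i ≤ 1` is not needed, only the triangle inequality. -/
theorem P4_MM (hm : 1 ≤ m) (S : Sys ι m) {t : ι → ℝ} (ht : S.Adm (ea m ^ 5) t) (i a : ι) :
    |S.MM t i a| ≤ (if i = a then 1 else 0) + S.GG t i a * t a := by
  rw [S.MM_eq hm ht]
  have h1 : 0 ≤ S.GG t i a * t a := mul_nonneg (S.GG_nonneg hm ht i a) (ht a).1
  split_ifs with h
  · rw [abs_le]
    constructor <;> linarith
  · rw [abs_le]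
    constructor <;> linarith

theorem P4_a (hm : 1 ≤ m) (S S' : Sys ι m) {t t' : ι → ℝ} (ht : S.Adm (ea m ^ 12) t)
    (ht' : S'.Adm (ea m ^ 12) t') {η : ℝ} (hη0 : 0 ≤ η) (i a : ι)
    (hη : 2 * η ≤ ea m ^ 3 * S.dj a)
    (hx : ‖S'.x a - S.x a‖ ≤ η) (hd : |S'.dj a - S.dj a| ≤ 2 * η) :
    |S.MM t i a * (S'.avj a (S'.u t') - S.avj a (S'.u t'))| ≤
      (if i = a then 91 / 10 * (η / S.dj a) * S'.v t' a else 0)
        + 91 / 10 * (S.GG t i a * t a * (η / S.dj a) * S'.v t' a) := by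
  have he0 := ea_pos hm
  have he1 := ea_le hm
  have he3 := P4_cube hm
  have hda := S.dj_pos a
  have hd1 := abs_le.1 hd
  have h5 := P4_adm S ht (P4_pow' hm)
  have h5' := P4_adm S' ht' (P4_pow' hm)
  have hv' := S'.v_pos hm h5' a
  have hsmall : 2 * η ≤ 1 / 1000000 * S.dj a := by
    refine hη.trans (mul_le_mul_of_nonneg_right ?_ hda.le)
    linarith
  have hd' : 99 / 100 * S.dj a ≤ S'.dj a := by linarith [hd1.1]
  have hDE := S'.DE hm ht' a (p := S.x a) (r := S.del a) (η := η) hη0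
    (by
      have : ea m ^ 3 * (99 / 100 * S.dj a) ≤ ea m ^ 3 * S'.dj a :=
        mul_le_mul_of_nonneg_left hd' (by positivity)
      linarith)
    (S.del_pos hm a) (by rw [norm_sub_rev]; exact hx)
    (by
      have h1 : S.del a - S'.del a = ea m * (S.dj a - S'.dj a) := by
        unfold Sys.del
        ring
      rw [h1, abs_mul, abs_of_pos he0, abs_sub_comm]
      calc ea m * |S'.dj a - S.dj a| ≤ 1 / 100 * (2 * η) :=
            mul_le_mul he1 hd (abs_nonneg _) (by norm_num)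
        _ ≤ η := by linarith)
  have hX : |S'.avj a (S'.u t') - S.avj a (S'.u t')| ≤ 91 / 10 * (η / S.dj a) * S'.v t' a := by
    refine hDE.trans ?_
    refine mul_le_mul_of_nonneg_right ?_ hv'.le
    have h1 : η / S'.dj a ≤ η / (99 / 100 * S.dj a) :=
      div_le_div_of_nonneg_left hη0 (by positivity) hd'
    have h2 : η / (99 / 100 * S.dj a) = 100 / 99 * (η / S.dj a) := by
      field_simp
    have h3 : 0 ≤ η / S.dj a := by positivity
    rw [h2] at h1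
    linarith
  have hM := P4_MM hm S h5 i a
  rw [abs_mul]
  calc |S.MM t i a| * |S'.avj a (S'.u t') - S.avj a (S'.u t')|
      ≤ ((if i = a then 1 else 0) + S.GG t i a * t a) *
        (91 / 10 * (η / S.dj a) * S'.v t' a) :=
        mul_le_mul hM hX (abs_nonneg _) (le_trans (abs_nonneg _) hM)
    _ = _ := by
        split_ifs with h
        · ring
        · ring

theorem P4_b (hm : 1 ≤ m) (S S' : Sys ι m) {t t' : ι → ℝ} (ht : S.Adm (ea m ^ 12) t)
    (ht' : S'.Adm (ea m ^ 12) t') {η : ℝ} (hη0 : 0 ≤ η) (i b : ι)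
    (hη : 2 * η ≤ ea m ^ 3 * S.dj b)
    (hx : ‖S'.x b - S.x b‖ ≤ η) (hd : |S'.dj b - S.dj b| ≤ 2 * η)
    (hs : |t' b - t b| ≤ 4 * (η / S.dj b) * t b) :
    |t' b * S'.v t' b * (S'.avj b (S.g t i) - S.avj b (S.g t i))| ≤
      (if i = b then 1 / 10 * (η / S.dj b) * S'.v t' b else 0)
        + 1010 / ea m ^ 2 * (S.GG t i b * t b * (η / S.dj b) * S'.v t' b) := by
  have he0 := ea_pos hm
  have he1 := ea_le hm
  have he3 := P4_cube hm
  have hdb := S.dj_pos b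
  have h5 := P4_adm S ht (P4_pow' hm)
  have h5' := P4_adm S' ht' (P4_pow' hm)
  have hv' := S'.v_pos hm h5' b
  have htb := ht b
  have htb' := ht' b
  have hG := S.GG_nonneg hm h5 i b
  have hsmall : 2 * η ≤ 1 / 1000000 * S.dj b := by
    refine hη.trans (mul_le_mul_of_nonneg_right ?_ hdb.le)
    linarith
  have hηd : η / S.dj b ≤ 1 / 1000000 := by
    rw [div_le_iff₀ hdb]
    linarith
  have hηd0 : 0 ≤ η / S.dj b := by positivity
  have ht1 : t' b ≤ 101 / 100 * t b := by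
    have h1 := (abs_le.1 hs).2
    have h2 : 4 * (η / S.dj b) * t b ≤ 1 / 100 * t b :=
      mul_le_mul_of_nonneg_right (by linarith) htb.1
    linarith
  have hr : |S'.del b - S.del b| ≤ η := by
    have h1 : S'.del b - S.del b = ea m * (S'.dj b - S.dj b) := by
      unfold Sys.del
      ring
    rw [h1, abs_mul, abs_of_pos he0]
    calc ea m * |S'.dj b - S.dj b| ≤ 1 / 100 * (2 * η) :=
          mul_le_mul he1 hd (abs_nonneg _) (by norm_num)
      _ ≤ η := by linarith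
  have hη20 : η ≤ S.del b / 20 := by
    have h1 : S.del b = ea m * S.dj b := rfl
    rw [h1]
    have h2 : ea m ^ 3 * S.dj b ≤ 1 / 10 * (ea m * S.dj b) := by
      have h3 : ea m ^ 3 ≤ 1 / 10 * ea m := by
        have h4 : ea m ^ 2 ≤ 1 / 10 := by nlinarith
        have h5 : ea m ^ 3 = ea m ^ 2 * ea m := by ring
        rw [h5]
        exact mul_le_mul_of_nonneg_right h4 he0.le
      calc ea m ^ 3 * S.dj b ≤ (1 / 10 * ea m) * S.dj b := mul_le_mul_of_nonneg_right h3 hdb.le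
        _ = 1 / 10 * (ea m * S.dj b) := by ring
    linarith
  rw [abs_mul, abs_of_nonneg (mul_nonneg htb'.1 hv'.le)]
  by_cases hib : i = b
  · subst hib
    rw [if_pos rfl]
    have hself := S.GE_self hm ht i (p := S'.x i) (r := S'.del i) (η := η) hη0 hη20 hx hr
    have hY : |S'.avj i (S.g t i) - S.avj i (S.g t i)| ≤ 48 * η / S.del i ^ 2 := hself
    have hdel := S.del_pos hm i
    have h1 : t' i * S'.v t' i * |S'.avj i (S.g t i) - S.avj i (S.g t i)| ≤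
        (101 / 100 * (ea m ^ 12 * S.dj i)) * S'.v t' i * (48 * η / S.del i ^ 2) := by
      refine mul_le_mul ?_ hY (abs_nonneg _) (by positivity)
      refine mul_le_mul_of_nonneg_right ?_ hv'.le
      linarith [htb.2]
    have h2 : (101 / 100 * (ea m ^ 12 * S.dj i)) * S'.v t' i * (48 * η / S.del i ^ 2) =
        (101 / 100 * 48 * ea m ^ 10) * (η / S.dj i) * S'.v t' i := by
      have h3 : S.del i = ea m * S.dj i := rfl
      rw [h3]
      field_simp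
    have h3 : 101 / 100 * 48 * ea m ^ 10 ≤ 1 / 10 := by
      have h4 : ea m ^ 10 ≤ (1 / 100) ^ 10 := pow_le_pow_left₀ he0.le he1 10
      linarith
    have h4 : (101 / 100 * 48 * ea m ^ 10) * (η / S.dj i) * S'.v t' i ≤
        1 / 10 * (η / S.dj i) * S'.v t' i :=
      mul_le_mul_of_nonneg_right (mul_le_mul_of_nonneg_right h3 hηd0) hv'.le
    have h5 : 0 ≤ 1010 / ea m ^ 2 * (S.GG t i i * t i * (η / S.dj i) * S'.v t' i) := by
      have := htb.1
      positivity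
    linarith
  · rw [if_neg hib, zero_add]
    have hGE := S.GE hm ht hib (p := S'.x b) (r := S'.del b) (η := η) hη0 hη20 hx hr
    have hY : |S'.avj b (S.g t i) - S.avj b (S.g t i)| ≤
        1000 / ea m ^ 2 * (η / S.dj b) * S.GG t i b := hGE
    have h1 : t' b * S'.v t' b * |S'.avj b (S.g t i) - S.avj b (S.g t i)| ≤
        (101 / 100 * t b) * S'.v t' b * (1000 / ea m ^ 2 * (η / S.dj b) * S.GG t i b) := by
      refine mul_le_mul ?_ hY (abs_nonneg _) (by have := htb.1; positivity)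
      exact mul_le_mul_of_nonneg_right ht1 hv'.le
    refine h1.trans (le_of_eq ?_)
    ring

theorem P4_c (hm : 1 ≤ m) (S S' : Sys ι m) {t t' : ι → ℝ} (ht : S.Adm (ea m ^ 12) t)
    (ht' : S'.Adm (ea m ^ 12) t') {η : ℝ} (i b : ι)
    (hs : |t' b - t b| ≤ 4 * (η / S.dj b) * t b) :
    |S.GG t i b * (t' b - t b) * S'.v t' b| ≤
      4 * (S.GG t i b * t b * (η / S.dj b) * S'.v t' b) := by
  have h5 := P4_adm S ht (P4_pow' hm)
  have h5' := P4_adm S' ht' (P4_pow' hm)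
  have hv' := S'.v_pos hm h5' b
  have hG := S.GG_nonneg hm h5 i b
  rw [abs_mul, abs_mul, abs_of_nonneg hG, abs_of_pos hv']
  calc S.GG t i b * |t' b - t b| * S'.v t' b ≤
        S.GG t i b * (4 * (η / S.dj b) * t b) * S'.v t' b :=
        mul_le_mul_of_nonneg_right (mul_le_mul_of_nonneg_left hs hG) hv'.le
    _ = _ := by ring

theorem P4_step (hm : 1 ≤ m) (S S' : Sys ι m) {t t' : ι → ℝ} (ht : S.Adm (ea m ^ 12) t)
    (ht' : S'.Adm (ea m ^ 12) t') (A : Finset ι)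
    (hA : ∀ j, j ∉ A → S'.x j = S.x j ∧ S'.dj j = S.dj j ∧ t' j = t j)
    {η : ℝ} (hη0 : 0 ≤ η) (hη : ∀ j ∈ A, 2 * η ≤ ea m ^ 3 * S.dj j)
    (hx : ∀ j ∈ A, ‖S'.x j - S.x j‖ ≤ η) (hd : ∀ j ∈ A, |S'.dj j - S.dj j| ≤ 2 * η)
    (hs : ∀ j ∈ A, |t' j - t j| ≤ 4 * (η / S.dj j) * t j) (i : ι) :
    |S'.v t' i - S.v t i| ≤ (if i ∈ A then 92 / 10 * (η / S.dj i) * S'.v t' i else 0)
      + 1040 / ea m ^ 2 * ∑ b ∈ A, S.GG t i b * t b * (η / S.dj b) * S'.v t' b := by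
  have he0 := ea_pos hm
  have he1 := ea_le hm
  have h5 := P4_adm S ht (P4_pow' hm)
  have h5' := P4_adm S' ht' (P4_pow' hm)
  rw [pert_identity hm S S' h5 h5' A hA i]
  set W : ι → ℝ := fun b => S.GG t i b * t b * (η / S.dj b) * S'.v t' b with hW
  have hW0 : ∀ b, 0 ≤ W b := by
    intro b
    have h1 := S.GG_nonneg hm h5 i b
    have h2 := (ht b).1
    have h3 := (S.dj_pos b).le
    have h4 := (S'.v_pos hm h5' b).le
    exact mul_nonneg (mul_nonneg (mul_nonneg h1 h2) (div_nonneg hη0 h3)) h4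
  have ha : |∑ a ∈ A, S.MM t i a * (S'.avj a (S'.u t') - S.avj a (S'.u t'))| ≤
      (if i ∈ A then 91 / 10 * (η / S.dj i) * S'.v t' i else 0) + 91 / 10 * ∑ b ∈ A, W b := by
    refine (Finset.abs_sum_le_sum_abs _ _).trans ?_
    refine (Finset.sum_le_sum fun a ha => P4_a hm S S' ht ht' hη0 i a (hη a ha) (hx a ha)
      (hd a ha)).trans (le_of_eq ?_)
    rw [Finset.sum_add_distrib, Finset.sum_ite_eq, Finset.mul_sum]
  have hb : |∑ b ∈ A, t' b * S'.v t' b * (S'.avj b (S.g t i) - S.avj b (S.g t i))| ≤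
      (if i ∈ A then 1 / 10 * (η / S.dj i) * S'.v t' i else 0)
        + 1010 / ea m ^ 2 * ∑ b ∈ A, W b := by
    refine (Finset.abs_sum_le_sum_abs _ _).trans ?_
    refine (Finset.sum_le_sum fun a ha => P4_b hm S S' ht ht' hη0 i a (hη a ha) (hx a ha)
      (hd a ha) (hs a ha)).trans (le_of_eq ?_)
    rw [Finset.sum_add_distrib, Finset.sum_ite_eq, Finset.mul_sum]
  have hc : |∑ b ∈ A, S.GG t i b * (t' b - t b) * S'.v t' b| ≤ 4 * ∑ b ∈ A, W b := by
    refine (Finset.abs_sum_le_sum_abs _ _).trans ?_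
    refine (Finset.sum_le_sum fun a ha => P4_c hm S S' ht ht' i a (hs a ha)).trans (le_of_eq ?_)
    rw [Finset.mul_sum]
  have hWs : 0 ≤ ∑ b ∈ A, W b := Finset.sum_nonneg fun b _ => hW0 b
  have hcoef : 91 / 10 + 1010 / ea m ^ 2 + 4 ≤ 1040 / ea m ^ 2 := by
    have h1 : (1 : ℝ) ≤ 1 / ea m ^ 2 := by
      rw [le_div_iff₀ (by positivity)]
      nlinarith
    have h2 : (1010 : ℝ) / ea m ^ 2 = 1010 * (1 / ea m ^ 2) := by ring
    have h3 : (1040 : ℝ) / ea m ^ 2 = 1040 * (1 / ea m ^ 2) := by ring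
    rw [h2, h3]
    linarith
  have hfin : (91 / 10 + 1010 / ea m ^ 2 + 4) * ∑ b ∈ A, W b ≤
      1040 / ea m ^ 2 * ∑ b ∈ A, W b := mul_le_mul_of_nonneg_right hcoef hWs
  have hif : (if i ∈ A then 91 / 10 * (η / S.dj i) * S'.v t' i else 0) +
      (if i ∈ A then 1 / 10 * (η / S.dj i) * S'.v t' i else 0) =
      (if i ∈ A then 92 / 10 * (η / S.dj i) * S'.v t' i else 0) := by
    split_ifs with h
    · ring
    · ring
  have h3 := abs_sub (∑ a ∈ A, S.MM t i a * (S'.avj a (S'.u t') - S.avj a (S'.u t'))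
      - ∑ b ∈ A, t' b * S'.v t' b * (S'.avj b (S.g t i) - S.avj b (S.g t i)))
      (∑ b ∈ A, S.GG t i b * (t' b - t b) * S'.v t' b)
  have h4 := abs_sub (∑ a ∈ A, S.MM t i a * (S'.avj a (S'.u t') - S.avj a (S'.u t')))
      (∑ b ∈ A, t' b * S'.v t' b * (S'.avj b (S.g t i) - S.avj b (S.g t i)))
  have h6 : (91 / 10 + 1010 / ea m ^ 2 + 4) * ∑ b ∈ A, W b =
      91 / 10 * ∑ b ∈ A, W b + 1010 / ea m ^ 2 * ∑ b ∈ A, W b + 4 * ∑ b ∈ A, W b := by ring
  linarith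

theorem P4_ratio (hm : 1 ≤ m) (S S' : Sys ι m) {t t' : ι → ℝ} (ht : S.Adm (ea m ^ 12) t)
    (ht' : S'.Adm (ea m ^ 12) t') (A : Finset ι)
    (hA : ∀ j, j ∉ A → S'.x j = S.x j ∧ S'.dj j = S.dj j ∧ t' j = t j)
    {η : ℝ} (hη0 : 0 ≤ η) (hη : ∀ j ∈ A, η * ((A.card : ℝ) + 1) ≤ ea m ^ 3 * S.dj j)
    (hx : ∀ j ∈ A, ‖S'.x j - S.x j‖ ≤ η) (hd : ∀ j ∈ A, |S'.dj j - S.dj j| ≤ 2 * η)
    (hs : ∀ j ∈ A, |t' j - t j| ≤ 4 * (η / S.dj j) * t j) {i : ι} (hi : i ∈ A) :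
    S'.v t' i ≤ 101 / 100 * S.v t i := by
  have he0 := ea_pos hm
  have he1 := ea_le hm
  have he3 := P4_cube hm
  have h5 := P4_adm S ht (P4_pow' hm)
  have h5' := P4_adm S' ht' (P4_pow' hm)
  have h52 := P4_adm S ht (P4_pow hm)
  have hvpos := S.v_pos hm h5
  have hvpos' := S'.v_pos hm h5'
  have hcard1 : (1 : ℝ) ≤ (A.card : ℝ) := by
    exact_mod_cast Finset.card_pos.2 ⟨i, hi⟩
  have hη2 : ∀ j ∈ A, 2 * η ≤ ea m ^ 3 * S.dj j := by
    intro j hj
    have := hη j hj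
    nlinarith
  -- the maximal ratio
  obtain ⟨k, hk, hmax⟩ := Finset.exists_max_image A (fun b => S'.v t' b / S.v t b) ⟨i, hi⟩
  set r : ℝ := S'.v t' k / S.v t k with hr
  have hr0 : 0 < r := div_pos (hvpos' k) (hvpos k)
  have hrb : ∀ b ∈ A, S'.v t' b ≤ r * S.v t b := by
    intro b hb
    have h1 : S'.v t' b / S.v t b ≤ r := hmax b hb
    rwa [div_le_iff₀ (hvpos b)] at h1
  have hrk : S'.v t' k = r * S.v t k := by
    rw [hr]
    field_simp [(hvpos k).ne']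
  have hηd : ∀ b ∈ A, η / S.dj b ≤ ea m ^ 3 / ((A.card : ℝ) + 1) := by
    intro b hb
    rw [div_le_div_iff₀ (S.dj_pos b) (by linarith)]
    exact hη b hb
  have hstep := P4_step hm S S' ht ht' A hA hη0 hη2 hx hd hs k
  rw [if_pos hk] at hstep
  have hterm : ∀ b ∈ A, S.GG t k b * t b * (η / S.dj b) * S'.v t' b ≤
      4 * r * ea m ^ 7 * S.v t k * (ea m ^ 3 / ((A.card : ℝ) + 1)) := by
    intro b hb
    have h1 := S.F2_v hm h52 k b
    have hG := S.GG_nonneg hm h5 k b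
    have htb := ht b
    have hdb := S.dj_pos b
    have hηd0 : 0 ≤ η / S.dj b := div_nonneg hη0 hdb.le
    have h2 : S.GG t k b * t b * S'.v t' b ≤ 4 * r * ea m ^ 7 * S.v t k := by
      calc S.GG t k b * t b * S'.v t' b
          ≤ S.GG t k b * t b * (r * S.v t b) :=
            mul_le_mul_of_nonneg_left (hrb b hb) (mul_nonneg hG htb.1)
        _ = (S.GG t k b * S.v t b) * t b * r := by ring
        _ ≤ (4 / (ea m ^ 5 * S.dj b) * S.v t k) * (ea m ^ 12 * S.dj b) * r := by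
            refine mul_le_mul_of_nonneg_right ?_ hr0.le
            refine mul_le_mul h1 htb.2 htb.1 ?_
            have := (hvpos k).le
            positivity
        _ = 4 * r * ea m ^ 7 * S.v t k := by
            field_simp
    calc S.GG t k b * t b * (η / S.dj b) * S'.v t' b
        = (S.GG t k b * t b * S'.v t' b) * (η / S.dj b) := by ring
      _ ≤ (4 * r * ea m ^ 7 * S.v t k) * (ea m ^ 3 / ((A.card : ℝ) + 1)) := by
          refine mul_le_mul h2 (hηd b hb) hηd0 ?_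
          have := (hvpos k).le
          positivity
  have hsum : ∑ b ∈ A, S.GG t k b * t b * (η / S.dj b) * S'.v t' b ≤
      4 * r * ea m ^ 10 * S.v t k := by
    refine (Finset.sum_le_sum hterm).trans ?_
    rw [Finset.sum_const, nsmul_eq_mul]
    have h1 : (A.card : ℝ) * (4 * r * ea m ^ 7 * S.v t k * (ea m ^ 3 / ((A.card : ℝ) + 1))) =
        (4 * r * ea m ^ 10 * S.v t k) * ((A.card : ℝ) / ((A.card : ℝ) + 1)) := by ring
    rw [h1]
    have h2 : (A.card : ℝ) / ((A.card : ℝ) + 1) ≤ 1 := by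
      rw [div_le_one (by linarith)]
      linarith
    have h3 : 0 ≤ 4 * r * ea m ^ 10 * S.v t k := by
      have := (hvpos k).le
      positivity
    nlinarith
  have hfirst : 92 / 10 * (η / S.dj k) * S'.v t' k ≤ 1 / 10000 * (r * S.v t k) := by
    rw [hrk]
    have h1 := hηd k hk
    have h2 : ea m ^ 3 / ((A.card : ℝ) + 1) ≤ ea m ^ 3 :=
      div_le_self (by positivity) (by linarith)
    have h3 : 0 ≤ r * S.v t k := mul_nonneg hr0.le (hvpos k).le
    refine mul_le_mul_of_nonneg_right ?_ h3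
    linarith
  have hsecond : 1040 / ea m ^ 2 * ∑ b ∈ A, S.GG t k b * t b * (η / S.dj b) * S'.v t' b ≤
      1 / 10000 * (r * S.v t k) := by
    have h3 : 0 ≤ r * S.v t k := mul_nonneg hr0.le (hvpos k).le
    calc 1040 / ea m ^ 2 * ∑ b ∈ A, S.GG t k b * t b * (η / S.dj b) * S'.v t' b
        ≤ 1040 / ea m ^ 2 * (4 * r * ea m ^ 10 * S.v t k) :=
          mul_le_mul_of_nonneg_left hsum (by positivity)
      _ = (4160 * ea m ^ 8) * (r * S.v t k) := by
          field_simp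
          ring
      _ ≤ 1 / 10000 * (r * S.v t k) := by
          refine mul_le_mul_of_nonneg_right ?_ h3
          have h4 : ea m ^ 8 ≤ (1 / 100) ^ 8 := pow_le_pow_left₀ he0.le he1 8
          linarith
  have hk1 : r * S.v t k - S.v t k ≤ 2 / 10000 * (r * S.v t k) := by
    have h1 := (abs_le.1 hstep).2
    rw [hrk] at h1
    rw [hrk] at hfirst
    linarith
  have hr1 : r ≤ 101 / 100 := by
    have hv := hvpos k
    by_contra hcon
    push Not at hcon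
    nlinarith
  calc S'.v t' i ≤ r * S.v t i := hrb i hi
    _ ≤ 101 / 100 * S.v t i := mul_le_mul_of_nonneg_right hr1 (hvpos i).le

theorem pert_bound (hm : 1 ≤ m) (S S' : Sys ι m) {t t' : ι → ℝ} (ht : S.Adm (ea m ^ 12) t)
    (ht' : S'.Adm (ea m ^ 12) t') (A : Finset ι)
    (hA : ∀ j, j ∉ A → S'.x j = S.x j ∧ S'.dj j = S.dj j ∧ t' j = t j)
    {η : ℝ} (hη0 : 0 ≤ η) (hη : ∀ j ∈ A, η * ((A.card : ℝ) + 1) ≤ ea m ^ 3 * S.dj j)
    (hx : ∀ j ∈ A, ‖S'.x j - S.x j‖ ≤ η) (hd : ∀ j ∈ A, |S'.dj j - S.dj j| ≤ 2 * η)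
    (hs : ∀ j ∈ A, |t' j - t j| ≤ 4 * (η / S.dj j) * t j) (i : ι) :
    |S'.v t' i - S.v t i| ≤ η * ((if i ∈ A then 12 / S.dj i * S.v t i else 0)
      + 3000 / ea m ^ 2 * ∑ b ∈ A, S.GG t i b * t b * S.v t b / S.dj b) := by
  have he0 := ea_pos hm
  have h5 := P4_adm S ht (P4_pow' hm)
  have hvpos := S.v_pos hm h5
  have hη2 : ∀ j ∈ A, 2 * η ≤ ea m ^ 3 * S.dj j := by
    intro j hj
    have h1 := hη j hj
    have h2 : (1 : ℝ) ≤ (A.card : ℝ) := by
      exact_mod_cast Finset.card_pos.2 ⟨j, hj⟩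
    nlinarith
  have hratio : ∀ b ∈ A, S'.v t' b ≤ 101 / 100 * S.v t b := fun b hb =>
    P4_ratio hm S S' ht ht' A hA hη0 hη hx hd hs hb
  refine (P4_step hm S S' ht ht' A hA hη0 hη2 hx hd hs i).trans ?_
  rw [mul_add]
  refine add_le_add ?_ ?_
  · split_ifs with hi
    · have h1 : 0 ≤ η / S.dj i := div_nonneg hη0 (S.dj_pos i).le
      calc 92 / 10 * (η / S.dj i) * S'.v t' i ≤
            92 / 10 * (η / S.dj i) * (101 / 100 * S.v t i) :=
            mul_le_mul_of_nonneg_left (hratio i hi) (by positivity)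
        _ = (92 / 10 * (101 / 100)) * ((η / S.dj i) * S.v t i) := by ring
        _ ≤ 12 * ((η / S.dj i) * S.v t i) := by
            refine mul_le_mul_of_nonneg_right (by norm_num) ?_
            exact mul_nonneg h1 (hvpos i).le
        _ = η * (12 / S.dj i * S.v t i) := by ring
    · rw [mul_zero]
  · have h1 : ∑ b ∈ A, S.GG t i b * t b * (η / S.dj b) * S'.v t' b ≤
        ∑ b ∈ A, 101 / 100 * (η * (S.GG t i b * t b * S.v t b / S.dj b)) := by
      refine Finset.sum_le_sum fun b hb => ?_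
      have hG := S.GG_nonneg hm h5 i b
      have h2 : 0 ≤ S.GG t i b * t b * (η / S.dj b) :=
        mul_nonneg (mul_nonneg hG (ht b).1) (div_nonneg hη0 (S.dj_pos b).le)
      calc S.GG t i b * t b * (η / S.dj b) * S'.v t' b ≤
            S.GG t i b * t b * (η / S.dj b) * (101 / 100 * S.v t b) :=
            mul_le_mul_of_nonneg_left (hratio b hb) h2
        _ = _ := by ring
    have hs0 : 0 ≤ η * ∑ b ∈ A, S.GG t i b * t b * S.v t b / S.dj b := by
      refine mul_nonneg hη0 (Finset.sum_nonneg fun b _ => ?_)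
      have hG := S.GG_nonneg hm h5 i b
      exact div_nonneg (mul_nonneg (mul_nonneg hG (ht b).1) (hvpos b).le) (S.dj_pos b).le
    rw [← Finset.mul_sum, ← Finset.mul_sum] at h1
    calc 1040 / ea m ^ 2 * ∑ b ∈ A, S.GG t i b * t b * (η / S.dj b) * S'.v t' b
        ≤ 1040 / ea m ^ 2 *
          (101 / 100 * (η * ∑ b ∈ A, S.GG t i b * t b * S.v t b / S.dj b)) :=
          mul_le_mul_of_nonneg_left h1 (by positivity)
      _ = (1040 * (101 / 100)) / ea m ^ 2 *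
          (η * ∑ b ∈ A, S.GG t i b * t b * S.v t b / S.dj b) := by ring
      _ ≤ 3000 / ea m ^ 2 * (η * ∑ b ∈ A, S.GG t i b * t b * S.v t b / S.dj b) := by
          refine mul_le_mul_of_nonneg_right ?_ hs0
          exact div_le_div_of_nonneg_right (by norm_num) (by positivity)
      _ = _ := by ring

end Sys

end Ion
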