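import Pool.Agent.Lib.MP_69e010_mp.R2
import Pool.Agent.Lib.MP_69e010_mp.C5
import Pool.Agent.Lib.MP_69e010_mp.P4

/-!
# JOB R7: continuity of `ν_i` and of `(X, y) ↦ v(y)`

Use `Sys.pert_bound` (P4) with `A = univ` (everything moves a little).
* `vc_near`: `S = cSys .. X`, `S' = cSys .. X'`, `t = sc m X`, `t' = sc m X'`, `A = univ`, `|A| = N`. Let `δ := min_j dc m X j > 0`. For `η (N+1) ≤ ea³ δ` all hypotheses of `pert_bound` hold (`dc_move`, `sc_move`), so
  `|v'_i - v_i| ≤ η C` with `C` depending on `X` only.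
* `continuousOn_nuc`: `nuc = sc * vc`; `vc` is continuous on `Good` by `vc_near` (take `η = ‖X' - X‖`, the sup norm of `Conf N`; `Good` is open), `sc` is continuous (`continuous_dd`).
* `vy_near`: the same with `S = vSys .. X y`, `S' = vSys .. X' y'`, `t = vstr m X`, `t' = vstr m X'`, index set `Option (Fin N)`, `A = univ`, `|A| = N + 1`; `δ = min (min_j dc m X j) (dd m X y) > 0`; for the index `none`: `x = y`, `x' = y'`,
  `|dd m X' y' - dd m X y| ≤ η + η` (`dd_lip`), strengths `0`. The value at `none` is `vy` (`vSys_v_none`).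
* `vy_pos`, `vy_le_one`: `v_pos`, `v_le_one` (B6) for `vSys` (`Adm (ea^12)` implies `Adm (ea^5)`).
-/

open MeasureTheory Metric Finset Filter Topology

noncomputable section

namespace Ion

variable {N : ℕ}

theorem R7_min {ι : Type*} [Finite ι] (f : ι → ℝ) (h : ∀ j, 0 < f j) : ∃ δ : ℝ, 0 < δ ∧ ∀ j, δ ≤ f j := by
  rcases isEmpty_or_nonempty ι with h0 | h0
  · exact ⟨1, one_pos, fun j => (h0.false j).elim⟩
  · obtain ⟨j0, hj0⟩ := Finite.exists_min f
    exact ⟨f j0, h j0, hj0⟩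

/-- `pert_bound` with `A = univ`, as a local Lipschitz bound -/
theorem R7_near {ι : Type} [Fintype ι] [DecidableEq ι] {m : ℕ} (hm : 1 ≤ m) (S : Sys ι m) {t : ι → ℝ}
    (ht : S.Adm (ea m ^ 12) t) (i : ι) :
    ∃ C r : ℝ, 0 < C ∧ 0 < r ∧ ∀ (S' : Sys ι m) (t' : ι → ℝ), S'.Adm (ea m ^ 12) t' → ∀ η : ℝ, 0 ≤ η → η ≤ r →
      (∀ j, ‖S'.x j - S.x j‖ ≤ η) → (∀ j, |S'.dj j - S.dj j| ≤ 2 * η) →
      (∀ j, η ≤ S.dj j / 100 → |t' j - t j| ≤ 4 * (η / S.dj j) * t j) →
      |S'.v t' i - S.v t i| ≤ C * η := by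
  obtain ⟨δ, hδ, hδj⟩ := R7_min S.dj S.dj_pos
  have he := ea_pos hm
  have he' := ea_le hm
  have hn : (0 : ℝ) < (univ : Finset ι).card + 1 := by positivity
  refine ⟨|12 / S.dj i * S.v t i + 3000 / ea m ^ 2 * ∑ b ∈ univ, S.GG t i b * t b * S.v t b / S.dj b| + 1,
    ea m ^ 3 * δ / ((univ : Finset ι).card + 1), by positivity, by positivity, ?_⟩
  intro S' t' ht' η hη0 hη hx hd hs
  have hη1 : η * (((univ : Finset ι).card : ℝ) + 1) ≤ ea m ^ 3 * δ := by
    rwa [le_div_iff₀ hn] at hη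
  have hη2 : η ≤ ea m ^ 3 * δ := by
    refine le_trans ?_ hη1
    have : (0 : ℝ) ≤ (univ : Finset ι).card := Nat.cast_nonneg _
    nlinarith
  have he3 : ea m ^ 3 ≤ 1 / 100 := by
    have h2 : ea m ^ 2 ≤ 1 := pow_le_one₀ he.le (he'.trans (by norm_num))
    calc ea m ^ 3 = ea m ^ 2 * ea m := by ring
      _ ≤ 1 * (1 / 100) := mul_le_mul h2 he' he.le zero_le_one
      _ = 1 / 100 := by ring
  have key := Sys.pert_bound hm S S' ht ht' univ (fun j hj => absurd (mem_univ j) hj) hη0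
    (fun j _ => hη1.trans (mul_le_mul_of_nonneg_left (hδj j) (by positivity)))
    (fun j _ => hx j) (fun j _ => hd j)
    (fun j _ => hs j (by
      have h1 := hδj j
      have h2 : ea m ^ 3 * δ ≤ 1 / 100 * δ := mul_le_mul_of_nonneg_right he3 hδ.le
      linarith)) i
  rw [if_pos (mem_univ i)] at key
  refine key.trans ?_
  rw [mul_comm]
  refine mul_le_mul_of_nonneg_right ?_ hη0
  exact (le_abs_self _).trans (by linarith)

theorem vc_near {m : ℕ} (hm : 1 ≤ m) (hN : m ≤ N) {X : Conf N} (hX : Good m X) (i : Fin N) :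
    ∃ C r : ℝ, 0 < C ∧ 0 < r ∧ ∀ X' : Conf N, Good m X' → ∀ η : ℝ, 0 ≤ η → η ≤ r → (∀ j, ‖X' j - X j‖ ≤ η) →
      |vc m X' i - vc m X i| ≤ C * η := by
  obtain ⟨C, r, hC, hr, h⟩ := R7_near hm (cSys hm hN X hX) (sc_adm hm hN X hX) i
  refine ⟨C, r, hC, hr, fun X' hX' η hη0 hη hx => ?_⟩
  have h1 := h (cSys hm hN X' hX') (sc m X') (sc_adm hm hN X' hX') η hη0 hη (fun j => hx j)
    (fun j => dc_move hN hη0 hx j)
    (fun j hj => sc_move hm hN hX hj (hx j) (dc_move hN hη0 hx j))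
  rwa [cSys_v, cSys_v] at h1

theorem R7_dj_some {m : ℕ} (hm : 1 ≤ m) (hN : m ≤ N) {X : Conf N} (hX : Good m X) {y : E3} (hy : y ≠ 0) (j : Fin N) :
    (vSys hm hN X hX y hy).dj (some j) = dc m X j := rfl

theorem R7_dj_none {m : ℕ} (hm : 1 ≤ m) (hN : m ≤ N) {X : Conf N} (hX : Good m X) {y : E3} (hy : y ≠ 0) :
    (vSys hm hN X hX y hy).dj none = dd m X y := rfl

theorem R7_x_some {m : ℕ} (hm : 1 ≤ m) (hN : m ≤ N) {X : Conf N} (hX : Good m X) {y : E3} (hy : y ≠ 0) (j : Fin N) :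
    (vSys hm hN X hX y hy).x (some j) = X j := rfl

theorem R7_x_none {m : ℕ} (hm : 1 ≤ m) (hN : m ≤ N) {X : Conf N} (hX : Good m X) {y : E3} (hy : y ≠ 0) :
    (vSys hm hN X hX y hy).x none = y := rfl

theorem R7_str_some {m : ℕ} (X : Conf N) (j : Fin N) : vstr m X (some j) = sc m X j := rfl

theorem R7_str_none {m : ℕ} (X : Conf N) : vstr m X none = 0 := rfl

theorem vy_near {m : ℕ} (hm : 1 ≤ m) (hN : m ≤ N) {X : Conf N} (hX : Good m X) {y : E3} (hy : y ≠ 0) :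
    ∃ C r : ℝ, 0 < C ∧ 0 < r ∧ ∀ X' : Conf N, Good m X' → ∀ y' : E3, y' ≠ 0 → ∀ η : ℝ, 0 ≤ η → η ≤ r →
      (∀ j, ‖X' j - X j‖ ≤ η) → ‖y' - y‖ ≤ η → |vy m X' y' - vy m X y| ≤ C * η := by
  obtain ⟨C, r, hC, hr, h⟩ := R7_near hm (vSys hm hN X hX y hy) (vstr_adm hm hN X hX y hy) none
  refine ⟨C, r, hC, hr, fun X' hX' y' hy' η hη0 hη hx hyy => ?_⟩
  have e1 : ∀ j, ‖(vSys hm hN X' hX' y' hy').x j - (vSys hm hN X hX y hy).x j‖ ≤ η := by
    intro j
    cases j with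
    | none => rw [R7_x_none, R7_x_none]; exact hyy
    | some j => rw [R7_x_some, R7_x_some]; exact hx j
  have e2 : ∀ j, |(vSys hm hN X' hX' y' hy').dj j - (vSys hm hN X hX y hy).dj j| ≤ 2 * η := by
    intro j
    cases j with
    | none =>
      rw [R7_dj_none, R7_dj_none]
      have h2 := dd_lip (m := m) hN y' y hη0 hx
      linarith
    | some j => rw [R7_dj_some, R7_dj_some]; exact dc_move hN hη0 hx j
  have e3 : ∀ j, η ≤ (vSys hm hN X hX y hy).dj j / 100 →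
      |vstr m X' j - vstr m X j| ≤ 4 * (η / (vSys hm hN X hX y hy).dj j) * vstr m X j := by
    intro j
    cases j with
    | none => rw [R7_str_none, R7_str_none]; intro _; simp
    | some j =>
      rw [R7_str_some, R7_str_some, R7_dj_some]
      intro hj
      exact sc_move hm hN hX hj (hx j) (dc_move hN hη0 hx j)
  have h1 := h (vSys hm hN X' hX' y' hy') (vstr m X') (vstr_adm hm hN X' hX' y' hy') η hη0 hη e1 e2 e3
  rwa [vSys_v_none, vSys_v_none] at h1

theorem continuousOn_nuc {m : ℕ} (hm : 2 ≤ m) (hN : m ≤ N) (i : Fin N) :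
    ContinuousOn (fun X : Conf N => nuc m X i) {X | Good m X} := by
  have h1 : Continuous (fun X : Conf N => sc m X i) := by
    have h0 : Continuous (fun X : Conf N => (X, X i)) :=
      Continuous.prodMk continuous_id (continuous_apply i)
    have h2 := Continuous.comp (continuous_dd (N := N) (m := m) hN) h0
    have h3 : Continuous (fun X : Conf N => min (eps m) ‖X i‖) :=
      Continuous.min continuous_const (Continuous.norm (continuous_apply i))
    exact Continuous.mul h3 h2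
  refine ContinuousOn.mul h1.continuousOn ?_
  intro X hX
  have hX' : Good m X := hX
  obtain ⟨C, r, hC, hr, h⟩ := vc_near (by omega) hN hX' i
  rw [Metric.continuousWithinAt_iff]
  intro ε hε
  refine ⟨min r (ε / (2 * C)), by positivity, fun {X'} hG hd => ?_⟩
  have hG' : Good m X' := hG
  have h4 := h X' hG' (dist X' X) dist_nonneg ((hd.trans_le (min_le_left _ _)).le)
    (fun j => by rw [← dist_eq_norm]; exact dist_le_pi_dist X' X j)
  rw [Real.dist_eq]
  refine h4.trans_lt ?_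
  have h5 : dist X' X < ε / (2 * C) := hd.trans_le (min_le_right _ _)
  calc C * dist X' X ≤ C * (ε / (2 * C)) := mul_le_mul_of_nonneg_left h5.le hC.le
    _ = ε / 2 := by field_simp
    _ < ε := by linarith

theorem continuousOn_vy {m : ℕ} (hm : 2 ≤ m) (hN : m ≤ N) :
    ContinuousOn (fun q : Conf N × E3 => vy m q.1 q.2) {q | Good m q.1 ∧ q.2 ≠ 0} := by
  intro q hq
  obtain ⟨hX', hy'⟩ : Good m q.1 ∧ q.2 ≠ 0 := hq
  obtain ⟨C, r, hC, hr, h⟩ := vy_near (by omega) hN hX' hy'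
  rw [Metric.continuousWithinAt_iff]
  intro ε hε
  refine ⟨min r (ε / (2 * C)), by positivity, fun {q'} hG hd => ?_⟩
  obtain ⟨hG1, hG2⟩ : Good m q'.1 ∧ q'.2 ≠ 0 := hG
  have hd1 : dist q'.1 q.1 ≤ dist q' q := le_max_left _ _
  have hd2 : dist q'.2 q.2 ≤ dist q' q := le_max_right _ _
  have h4 := h q'.1 hG1 q'.2 hG2 (dist q' q) dist_nonneg ((hd.trans_le (min_le_left _ _)).le)
    (fun j => by rw [← dist_eq_norm]; exact (dist_le_pi_dist q'.1 q.1 j).trans hd1)
    (by rw [← dist_eq_norm]; exact hd2)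
  rw [Real.dist_eq]
  refine h4.trans_lt ?_
  have h5 : dist q' q < ε / (2 * C) := hd.trans_le (min_le_right _ _)
  calc C * dist q' q ≤ C * (ε / (2 * C)) := mul_le_mul_of_nonneg_left h5.le hC.le
    _ = ε / 2 := by field_simp
    _ < ε := by linarith

theorem R7_adm {ι : Type} [Fintype ι] {m : ℕ} (hm : 1 ≤ m) (S : Sys ι m) {t : ι → ℝ}
    (ht : S.Adm (ea m ^ 12) t) : S.Adm (ea m ^ 5) t := by
  intro j
  refine ⟨(ht j).1, (ht j).2.trans (mul_le_mul_of_nonneg_right ?_ (S.dj_pos j).le)⟩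
  exact pow_le_pow_of_le_one (ea_pos hm).le ((ea_le hm).trans (by norm_num)) (by norm_num)

theorem vy_pos {m : ℕ} (hm : 1 ≤ m) (hN : m ≤ N) {X : Conf N} (hX : Good m X) {y : E3} (hy : y ≠ 0) :
    0 < vy m X y := by
  rw [← vSys_v_none hm hN X hX y hy]
  exact (vSys hm hN X hX y hy).v_pos hm (R7_adm hm _ (vstr_adm hm hN X hX y hy)) none

theorem vy_le_one {m : ℕ} (hm : 1 ≤ m) (hN : m ≤ N) {X : Conf N} (hX : Good m X) {y : E3} (hy : y ≠ 0) :
    vy m X y ≤ 1 := by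
  rw [← vSys_v_none hm hN X hX y hy]
  exact (vSys hm hN X hX y hy).v_le_one hm (R7_adm hm _ (vstr_adm hm hN X hX y hy)) none

end Ion
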