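import Pool.Agent.Lib.MP_69e010_mp.R5
import Pool.Agent.Lib.MP_69e010_mp.R7
import Pool.Agent.Lib.MP_69e010_mp.R10
import Pool.Agent.Lib.MP_69e010_mp.R11

/-!
# JOB R12: the X-lemma (5.2)

`Y := {y ≠ 0, dd m X y ≤ ‖y‖/50}` is measurable (`continuous_dd`). For `y ∈ Y`, `d = dd m X y > 0`:
 - if `‖X k - y‖ ≤ d` then `dc k ≤ d + ‖X k - y‖ ≤ 2d` (`dd_lip_y`), so `d ≥ max(‖y - X k‖/1, dc k/2)` and `d⁻⁴ ≤ (max ..)⁻⁴`;
 - if `‖X l - y‖ ≤ 5d` then `dc l ≤ 6d`, `d ≥ max(‖y - X l‖/5, dc l/6)`.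
With `xpoint` (R10): `m tau y vy / d⁴ ≤ Φ(y) := 19/5 ( ∑_k tau(X k) vc k ((max (‖y-X k‖/1) (dc k/2))^4)⁻¹ + m ∑_l 3/2 eps nuc l/(ea dc l) ((max (‖y-X l‖/5) (dc l/6))^4)⁻¹ )`. `Φ` is integrable (R11) and
`∫ Φ ≤ 19/5 ( ∑_k tau_k vc_k 34/dc k + m ∑_l 3/2 eps nuc l/(ea dc l)·12750/dc l )`. Since `tau_k vc_k/dc k = nuc k/(dc k)²` (`nuc = tau * dc * vc`) and `m eps/ea = ea^10/100` (`mul_ea`), this is
`≤ (129.2 + 0.01) ∑ nuc/dc²`. Integrability of the left side: nonnegative (`vy_pos`, `tau_pos`), `≤ Φ/m`, measurable on `Y` because `y ↦ vy m X y` is continuous on `{y ≠ 0}` (`continuousOn_vy`), `tau`, `dd` continuous.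
-/

open MeasureTheory Metric Finset Filter Topology

noncomputable section

namespace Ion

variable {N : ℕ}

/-- the majorant -/
def R12_Phi (m : ℕ) (X : Conf N) (y : E3) : ℝ :=
  19 / 5 * ((∑ k, tau m (X k) * vc m X k * ((max (‖y - X k‖ / 1) (dc m X k / 2)) ^ 4)⁻¹)
    + m * ∑ l, 3 / 2 * eps m * nuc m X l / (ea m * dc m X l) *
        ((max (‖y - X l‖ / 5) (dc m X l / 6)) ^ 4)⁻¹)

theorem R12_Phi_int {m : ℕ} (hm : 1 ≤ m) (hN : m ≤ N) {X : Conf N} (hX : Good m X) :
    Integrable (R12_Phi m X) volume := by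
  unfold R12_Phi
  refine Integrable.const_mul (Integrable.add (integrable_finsetSum _ fun k _ => ?_)
    (Integrable.const_mul (integrable_finsetSum _ fun l _ => ?_) _)) _
  · have hd := dc_pos hm hN hX k
    exact (radial_integrable (X k) one_pos (by positivity)).const_mul _
  · have hd := dc_pos hm hN hX l
    exact (radial_integrable (X l) (by norm_num) (by positivity)).const_mul _

theorem R12_Phi_le {m : ℕ} (hm : 1 ≤ m) (hN : m ≤ N) {X : Conf N} (hX : Good m X) :
    ∫ y, R12_Phi m X y ≤ 130 * ∑ k, nuc m X k / dc m X k ^ 2 := by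
  have hea := ea_pos hm
  have hea1 := ea_le hm
  have I1 : ∀ k, Integrable (fun y : E3 => tau m (X k) * vc m X k *
      ((max (‖y - X k‖ / 1) (dc m X k / 2)) ^ 4)⁻¹) volume := fun k => by
    have hd := dc_pos hm hN hX k
    exact (radial_integrable (X k) one_pos (by positivity)).const_mul _
  have I2 : ∀ l, Integrable (fun y : E3 => 3 / 2 * eps m * nuc m X l / (ea m * dc m X l) *
        ((max (‖y - X l‖ / 5) (dc m X l / 6)) ^ 4)⁻¹) volume := fun l => by
    have hd := dc_pos hm hN hX l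
    exact (radial_integrable (X l) (by norm_num) (by positivity)).const_mul _
  have e1 : ∫ y, R12_Phi m X y = 19 / 5 * ((∑ k, tau m (X k) * vc m X k *
      ∫ y : E3, ((max (‖y - X k‖ / 1) (dc m X k / 2)) ^ 4)⁻¹)
    + m * ∑ l, 3 / 2 * eps m * nuc m X l / (ea m * dc m X l) *
        ∫ y : E3, ((max (‖y - X l‖ / 5) (dc m X l / 6)) ^ 4)⁻¹) := by
    unfold R12_Phi
    rw [integral_const_mul, integral_add (integrable_finsetSum _ fun k _ => I1 k)
      ((integrable_finsetSum _ fun l _ => I2 l).const_mul _), integral_const_mul,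
      integral_finsetSum _ (fun k _ => I1 k), integral_finsetSum _ (fun l _ => I2 l)]
    simp only [integral_const_mul]
  rw [e1]
  have h1 : ∀ k, tau m (X k) * vc m X k *
      ∫ y : E3, ((max (‖y - X k‖ / 1) (dc m X k / 2)) ^ 4)⁻¹ ≤ 34 * (nuc m X k / dc m X k ^ 2) := by
    intro k
    have hd := dc_pos hm hN hX k
    have hv := vc_pos hm hN hX k
    have hτ := tau_pos hm (hX.1 k)
    have h2 := radial_integral_le (X k) one_pos (show 0 < dc m X k / 2 by positivity)
    calc _ ≤ tau m (X k) * vc m X k * (17 * 1 ^ 3 / (dc m X k / 2)) := by gcongr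
      _ = _ := by
        unfold nuc sc
        field_simp
        norm_num
  have h2 : ∀ l, 3 / 2 * eps m * nuc m X l / (ea m * dc m X l) *
        ∫ y : E3, ((max (‖y - X l‖ / 5) (dc m X l / 6)) ^ 4)⁻¹
      ≤ 19125 * ea m ^ 11 * (nuc m X l / dc m X l ^ 2) := by
    intro l
    have hd := dc_pos hm hN hX l
    have hn := nuc_pos hm hN hX l
    have he := eps_pos hm
    have h3 := radial_integral_le (X l) (show (0:ℝ) < 5 by norm_num) (show 0 < dc m X l / 6 by positivity)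
    calc _ ≤ 3 / 2 * eps m * nuc m X l / (ea m * dc m X l) * (17 * 5 ^ 3 / (dc m X l / 6)) := by gcongr
      _ = _ := by
        unfold eps
        field_simp
        norm_num
  have hS : 0 ≤ ∑ k, nuc m X k / dc m X k ^ 2 := Finset.sum_nonneg fun k _ => by
    have hd := dc_pos hm hN hX k
    have hn := nuc_pos hm hN hX k
    positivity
  calc _ ≤ 19 / 5 * ((∑ k, 34 * (nuc m X k / dc m X k ^ 2))
        + (m : ℝ) * ∑ l, 19125 * ea m ^ 11 * (nuc m X l / dc m X l ^ 2)) := by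
        have h3 := Finset.sum_le_sum fun k (_ : k ∈ (univ : Finset (Fin N))) => h1 k
        have h4 := Finset.sum_le_sum fun k (_ : k ∈ (univ : Finset (Fin N))) => h2 k
        gcongr
    _ = (19 / 5 * (34 + 19125 * (((m : ℝ) * ea m) * ea m ^ 10))) * ∑ k, nuc m X k / dc m X k ^ 2 := by
        rw [← Finset.mul_sum, ← Finset.mul_sum]; ring
    _ ≤ 130 * ∑ k, nuc m X k / dc m X k ^ 2 := by
        refine mul_le_mul_of_nonneg_right ?_ hS
        rw [mul_ea hm]
        have h5 : ea m ^ 10 ≤ (1 / 100) ^ 10 := by gcongr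
        norm_num at h5
        linarith

theorem R12_point {m : ℕ} (hm : 2 ≤ m) (hN : m ≤ N) {X : Conf N} (hX : Good m X) {y : E3} (hy : y ≠ 0)
    (h : dd m X y ≤ ‖y‖ / 50) :
    (m : ℝ) * (tau m y * vy m X y / dd m X y ^ 4) ≤ R12_Phi m X y := by
  have hm1 : 1 ≤ m := by omega
  have hd := dd_pos hm1 hN hX hy
  have hea := ea_pos hm1
  have he := eps_pos hm1
  have hx := xpoint hm hN hX hy h
  have hdc : ∀ k, dc m X k ≤ dd m X y + ‖X k - y‖ := fun k => by
    have := (abs_le.mp (dd_lip_y hN X (X k) y)).2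
    unfold dc; linarith
  have A1 : (∑ k ∈ univ.filter (fun k => ‖X k - y‖ ≤ dd m X y), tau m (X k) * vc m X k) * (dd m X y ^ 4)⁻¹
      ≤ ∑ k, tau m (X k) * vc m X k * ((max (‖y - X k‖ / 1) (dc m X k / 2)) ^ 4)⁻¹ := by
    rw [Finset.sum_mul]
    refine (Finset.sum_le_sum fun k hk => ?_).trans
      (Finset.sum_le_sum_of_subset_of_nonneg (Finset.filter_subset _ _) fun k _ _ => ?_)
    · simp only [Finset.mem_filter, Finset.mem_univ, true_and] at hk
      have hdk := dc_pos hm1 hN hX k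
      have hv := vc_pos hm1 hN hX k
      have hτ := tau_pos hm1 (hX.1 k)
      have h1 : max (‖y - X k‖ / 1) (dc m X k / 2) ≤ dd m X y := by
        refine max_le ?_ ?_
        · rw [div_one, norm_sub_rev]; exact hk
        · have := hdc k; linarith
      have h0 : 0 < max (‖y - X k‖ / 1) (dc m X k / 2) :=
        lt_of_lt_of_le (by positivity) (le_max_right _ _)
      gcongr
    · have hv := vc_pos hm1 hN hX k
      have hτ := tau_pos hm1 (hX.1 k)
      positivity
  have A2 : (∑ l ∈ univ.filter (fun l => ‖X l - y‖ ≤ 5 * dd m X y), 3 / 2 * eps m * nuc m X l / (ea m * dc m X l))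
        * (dd m X y ^ 4)⁻¹
      ≤ ∑ l, 3 / 2 * eps m * nuc m X l / (ea m * dc m X l) *
        ((max (‖y - X l‖ / 5) (dc m X l / 6)) ^ 4)⁻¹ := by
    rw [Finset.sum_mul]
    refine (Finset.sum_le_sum fun k hk => ?_).trans
      (Finset.sum_le_sum_of_subset_of_nonneg (Finset.filter_subset _ _) fun k _ _ => ?_)
    · simp only [Finset.mem_filter, Finset.mem_univ, true_and] at hk
      have hdk := dc_pos hm1 hN hX k
      have hn := nuc_pos hm1 hN hX k
      have h1 : max (‖y - X k‖ / 5) (dc m X k / 6) ≤ dd m X y := by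
        refine max_le ?_ ?_
        · rw [norm_sub_rev, div_le_iff₀ (by norm_num)]; linarith
        · have := hdc k; linarith
      have h0 : 0 < max (‖y - X k‖ / 5) (dc m X k / 6) :=
        lt_of_lt_of_le (by positivity) (le_max_right _ _)
      gcongr
    · have hdk := dc_pos hm1 hN hX k
      have hn := nuc_pos hm1 hN hX k
      positivity
  calc (m : ℝ) * (tau m y * vy m X y / dd m X y ^ 4)
      = (m : ℝ) * (tau m y * vy m X y) * (dd m X y ^ 4)⁻¹ := by ring
    _ ≤ 19 / 5 * ((∑ k ∈ univ.filter (fun k => ‖X k - y‖ ≤ dd m X y), tau m (X k) * vc m X k)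
        + m * ∑ l ∈ univ.filter (fun l => ‖X l - y‖ ≤ 5 * dd m X y), 3 / 2 * eps m * nuc m X l / (ea m * dc m X l))
          * (dd m X y ^ 4)⁻¹ := by gcongr
    _ = 19 / 5 * ((∑ k ∈ univ.filter (fun k => ‖X k - y‖ ≤ dd m X y), tau m (X k) * vc m X k) * (dd m X y ^ 4)⁻¹
        + m * ((∑ l ∈ univ.filter (fun l => ‖X l - y‖ ≤ 5 * dd m X y), 3 / 2 * eps m * nuc m X l / (ea m * dc m X l))
          * (dd m X y ^ 4)⁻¹)) := by ring
    _ ≤ _ := by
        unfold R12_Phi
        gcongr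

theorem R12_ddc {m : ℕ} (hN : m ≤ N) (X : Conf N) : Continuous (fun y : E3 => dd m X y) := by
  refine Metric.continuous_iff.mpr fun y e he => ⟨e, he, fun z hz => ?_⟩
  rw [dist_eq_norm, Real.norm_eq_abs] at *
  exact (dd_lip_y hN X z y).trans_lt hz

/-- X-lemma 5.2 -/
theorem xlemma {m : ℕ} (hm : 10 ^ 4 ≤ m) (hN : m ≤ N) {X : Conf N} (hX : Good m X) :
    IntegrableOn (fun y => tau m y * vy m X y / dd m X y ^ 4) {y : E3 | y ≠ 0 ∧ dd m X y ≤ ‖y‖ / 50} volume ∧
    (m : ℝ) * ∫ y in {y : E3 | y ≠ 0 ∧ dd m X y ≤ ‖y‖ / 50}, tau m y * vy m X y / dd m X y ^ 4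
      ≤ 130 * ∑ k, nuc m X k / dc m X k ^ 2 := by
  have hm1 : 1 ≤ m := le_trans (by norm_num) hm
  have hm2 : 2 ≤ m := le_trans (by norm_num) hm
  have hm0 : (0:ℝ) < m := Nat.cast_pos.mpr hm1
  have hprod : Continuous (fun y : E3 => ((X, y) : Conf N × E3)) :=
    continuous_const.prodMk continuous_id
  have hddc : Continuous (fun y : E3 => dd m X y) := R12_ddc hN X
  have hY : MeasurableSet {y : E3 | y ≠ 0 ∧ dd m X y ≤ ‖y‖ / 50} := by
    refine MeasurableSet.inter ?_ ?_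
    · exact (isOpen_ne).measurableSet
    · exact (isClosed_le hddc (continuous_norm.div_const _)).measurableSet
  have hcont : ContinuousOn (fun y => tau m y * vy m X y / dd m X y ^ 4)
      {y : E3 | y ≠ 0 ∧ dd m X y ≤ ‖y‖ / 50} := by
    have h1 : ContinuousOn (fun y : E3 => vy m X y) {y : E3 | y ≠ 0 ∧ dd m X y ≤ ‖y‖ / 50} := by
      have := (continuousOn_vy hm2 hN (N := N)).comp (f := fun y : E3 => (X, y))
        (s := {y : E3 | y ≠ 0 ∧ dd m X y ≤ ‖y‖ / 50})
        hprod.continuousOn (fun y hy => ⟨hX, hy.1⟩)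
      exact this
    have h2 : Continuous (fun y : E3 => tau m y) := continuous_const.min continuous_norm
    refine (h2.continuousOn.mul h1).div (hddc.continuousOn.pow 4) fun y hy => ?_
    have := dd_pos hm1 hN hX hy.1
    positivity
  have hnn : ∀ y ∈ {y : E3 | y ≠ 0 ∧ dd m X y ≤ ‖y‖ / 50}, 0 ≤ tau m y * vy m X y / dd m X y ^ 4 := by
    intro y hy
    have h1 := dd_pos hm1 hN hX hy.1
    have h2 := vy_pos hm1 hN hX hy.1
    have h3 := tau_pos hm1 hy.1
    positivity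
  have hle : ∀ y ∈ {y : E3 | y ≠ 0 ∧ dd m X y ≤ ‖y‖ / 50},
      (m : ℝ) * (tau m y * vy m X y / dd m X y ^ 4) ≤ R12_Phi m X y :=
    fun y hy => R12_point hm2 hN hX hy.1 hy.2
  have hPhi := R12_Phi_int hm1 hN hX
  have hint : IntegrableOn (fun y => tau m y * vy m X y / dd m X y ^ 4)
      {y : E3 | y ≠ 0 ∧ dd m X y ≤ ‖y‖ / 50} volume := by
    refine Integrable.mono' ((hPhi.const_mul (m : ℝ)⁻¹).integrableOn)
      (hcont.aestronglyMeasurable hY) ?_
    refine (ae_restrict_iff' hY).mpr (Eventually.of_forall fun y hy => ?_)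
    rw [Real.norm_of_nonneg (hnn y hy), ← div_eq_inv_mul, le_div_iff₀ hm0, mul_comm]
    exact hle y hy
  refine ⟨hint, ?_⟩
  rw [← integral_const_mul]
  have hPhi0 : ∀ y, 0 ≤ R12_Phi m X y := by
    intro y
    unfold R12_Phi
    have hea := ea_pos hm1
    have he := eps_pos hm1
    refine mul_nonneg (by norm_num) (add_nonneg (Finset.sum_nonneg fun k _ => ?_)
      (mul_nonneg hm0.le (Finset.sum_nonneg fun k _ => ?_)))
    · have hv := vc_pos hm1 hN hX k
      have hτ := tau_pos hm1 (hX.1 k)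
      positivity
    · have hdk := dc_pos hm1 hN hX k
      have hn := nuc_pos hm1 hN hX k
      positivity
  calc ∫ y in {y : E3 | y ≠ 0 ∧ dd m X y ≤ ‖y‖ / 50}, (m : ℝ) * (tau m y * vy m X y / dd m X y ^ 4)
      ≤ ∫ y in {y : E3 | y ≠ 0 ∧ dd m X y ≤ ‖y‖ / 50}, R12_Phi m X y :=
        setIntegral_mono_on (hint.const_mul _) hPhi.integrableOn hY hle
    _ ≤ ∫ y, R12_Phi m X y :=
        setIntegral_le_integral hPhi (Eventually.of_forall hPhi0)
    _ ≤ _ := R12_Phi_le hm1 hN hX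

end Ion
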