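import Pool.Agent.Lib.MP_69e010_mp.R2
import Pool.Agent.Lib.MP_69e010_mp.C5
import Pool.Agent.Lib.MP_69e010_mp.B7

/-!
# JOB R5: bounds for the Green matrix of a configuration

* `Gc_F2`: `F2_v` (B7) for `cSys` with `t = sc m X` (`sc_adm` is `Adm (ea ^ 12)`, which implies `Adm (ea ^ 5 / 2)` because `ea ≤ 1/100`), `cSys_GG`, `cSys_v`.
* `sum_sc_Gc`: `sum_GG` (B5): `∑ i, t_i GG_il = 1 - v_l ≤ 1`.
* `aa_le`: `sc b ≤ ea¹² dc b`, so `Gc i b * sc b * vc b / (vc i * dc b) ≤ ea¹² * 4/(ea⁵ dc b) = 4 ea⁷ / dc b`.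
* `Lc_crude`: at most `N` terms, each `≤ 4 ea⁷/h`: `3000/ea² * N * 4 ea⁷/h ≤ 12000 N/h`.
* `Lc_self_le`: `dc i ≤ 2 dc b` for `b ∈ aff m X i` (`aff_dc`), `|aff| ≤ 125 m + 1 ≤ 126 m = 1.26/ea` (`aff_card`): `3000/ea² * 1.26/ea * 4 ea⁷ * 2/dc i ≤ 30240 ea⁴/dc i ≤ 1/dc i`.
* `nuc_le`: `nuc = sc * vc ≤ sc ≤ tau * ‖X i‖/4`, `tau ≤ eps ≤ 1`.
-/

open MeasureTheory Metric Finset Filter Topology

noncomputable section

namespace Ion

variable {N : ℕ}

private theorem R5_ea_pos {m : ℕ} (hm : 1 ≤ m) : 0 < ea m := by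
  have : (0 : ℝ) < m := by exact_mod_cast hm
  unfold ea
  positivity

private theorem R5_ea_le {m : ℕ} (hm : 1 ≤ m) : ea m ≤ 1 / 100 := by
  have h1 : (1 : ℝ) ≤ m := by exact_mod_cast hm
  unfold ea
  apply one_div_le_one_div_of_le (by norm_num)
  linarith

private theorem R5_adm {m : ℕ} (hm : 1 ≤ m) (hN : m ≤ N) {X : Conf N} (hX : Good m X) {τ : ℝ}
    (hτ : ea m ^ 12 ≤ τ) : (cSys hm hN X hX).Adm τ (sc m X) := by
  intro j
  obtain ⟨h1, h2⟩ := sc_adm hm hN X hX j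
  refine ⟨h1, h2.trans ?_⟩
  apply mul_le_mul_of_nonneg_right hτ
  exact (dc_pos hm hN hX j).le

private theorem R5_pow {m : ℕ} (hm : 1 ≤ m) : ea m ^ 12 ≤ ea m ^ 5 / 2 := by
  have h0 := R5_ea_pos hm
  have h1 := R5_ea_le hm
  have h2 : ea m ^ 7 ≤ (1 / 100 : ℝ) ^ 7 := pow_le_pow_left₀ h0.le h1 7
  have h3 : ea m ^ 12 = ea m ^ 5 * ea m ^ 7 := by ring
  have h4 : 0 < ea m ^ 5 := by positivity
  rw [h3]
  nlinarith

theorem Gc_F2 {m : ℕ} (hm : 1 ≤ m) (hN : m ≤ N) {X : Conf N} (hX : Good m X) (i b : Fin N) :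
    Gc m X i b * vc m X b ≤ 4 / (ea m ^ 5 * dc m X b) * vc m X i := by
  have h := (cSys hm hN X hX).F2_v hm (R5_adm hm hN hX (R5_pow hm)) i b
  rw [cSys_GG, cSys_v, cSys_v] at h
  exact h

theorem sum_sc_Gc {m : ℕ} (hm : 1 ≤ m) (hN : m ≤ N) {X : Conf N} (hX : Good m X) (b : Fin N) :
    ∑ i, sc m X i * Gc m X i b ≤ 1 := by
  have h1 : ea m ^ 12 ≤ ea m ^ 5 := by
    have h2 := R5_pow hm
    have h3 : 0 < ea m ^ 5 := pow_pos (R5_ea_pos hm) 5
    linarith
  have h := (cSys hm hN X hX).sum_GG hm (R5_adm hm hN hX h1) b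
  rw [cSys_v] at h
  have h4 : ∑ i, sc m X i * (cSys hm hN X hX).GG (sc m X) i b = ∑ i, sc m X i * Gc m X i b :=
    Finset.sum_congr rfl fun i _ => by rw [cSys_GG]
  rw [← h4, h]
  have := vc_pos hm hN hX b
  linarith

theorem sc_le {m : ℕ} (hm : 1 ≤ m) (hN : m ≤ N) {X : Conf N} (hX : Good m X) (b : Fin N) :
    sc m X b ≤ ea m ^ 12 * dc m X b :=
  (sc_adm hm hN X hX b).2

theorem aa_nonneg {m : ℕ} (hm : 1 ≤ m) (hN : m ≤ N) {X : Conf N} (hX : Good m X) (i b : Fin N) :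
    0 ≤ Gc m X i b * sc m X b * vc m X b / (vc m X i * dc m X b) := by
  have h1 := Gc_nonneg hm hN hX i b
  have h2 := sc_pos hm hN hX b
  have h3 := vc_pos hm hN hX b
  have h4 := vc_pos hm hN hX i
  have h5 := dc_pos hm hN hX b
  positivity

theorem aa_le {m : ℕ} (hm : 1 ≤ m) (hN : m ≤ N) {X : Conf N} (hX : Good m X) (i b : Fin N) :
    Gc m X i b * sc m X b * vc m X b / (vc m X i * dc m X b) ≤ 4 * ea m ^ 7 / dc m X b := by
  have h0 := R5_ea_pos hm
  have h1 := Gc_F2 hm hN hX i b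
  have h2 := sc_pos hm hN hX b
  have h4 := vc_pos hm hN hX i
  have h5 := dc_pos hm hN hX b
  have h6 := sc_le hm hN hX b
  have h7 : 0 ≤ 4 / (ea m ^ 5 * dc m X b) * vc m X i := by positivity
  have h8 : Gc m X i b * sc m X b * vc m X b ≤ 4 * ea m ^ 7 * vc m X i := by
    calc Gc m X i b * sc m X b * vc m X b = (Gc m X i b * vc m X b) * sc m X b := by ring
      _ ≤ (4 / (ea m ^ 5 * dc m X b) * vc m X i) * sc m X b := mul_le_mul_of_nonneg_right h1 h2.le
      _ ≤ (4 / (ea m ^ 5 * dc m X b) * vc m X i) * (ea m ^ 12 * dc m X b) :=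
          mul_le_mul_of_nonneg_left h6 h7
      _ = 4 * ea m ^ 7 * vc m X i := by
          field_simp
  rw [div_le_div_iff₀ (mul_pos h4 h5) h5]
  calc Gc m X i b * sc m X b * vc m X b * dc m X b ≤ 4 * ea m ^ 7 * vc m X i * dc m X b :=
        mul_le_mul_of_nonneg_right h8 h5.le
    _ = 4 * ea m ^ 7 * (vc m X i * dc m X b) := by ring

/-- crude bound, used only for the Lipschitz property of the cut off weights -/
theorem Lc_crude {m : ℕ} (hm : 2 ≤ m) (hN : m ≤ N) {X : Conf N} (hX : Good m X) {h : ℝ} (hh : 0 < h)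
    (hd : ∀ j, h ≤ dc m X j) (i k : Fin N) : 0 ≤ Lc m X k i ∧ Lc m X k i ≤ (17 + 12000 * N) / h := by
  have hm1 : 1 ≤ m := by omega
  have h0 := R5_ea_pos hm1
  have h1 := R5_ea_le hm1
  have hnn : 0 ≤ ∑ b ∈ aff m X k, Gc m X i b * sc m X b * vc m X b / (vc m X i * dc m X b) :=
    Finset.sum_nonneg fun b _ => aa_nonneg hm1 hN hX i b
  have hle : ∑ b ∈ aff m X k, Gc m X i b * sc m X b * vc m X b / (vc m X i * dc m X b) ≤
      N * (4 * ea m ^ 7 / h) := by
    have h2 : ∀ b ∈ aff m X k, Gc m X i b * sc m X b * vc m X b / (vc m X i * dc m X b) ≤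
        4 * ea m ^ 7 / h := by
      intro b _
      refine (aa_le hm1 hN hX i b).trans ?_
      exact div_le_div_of_nonneg_left (by positivity) hh (hd b)
    have h3 := Finset.sum_le_card_nsmul _ _ _ h2
    rw [nsmul_eq_mul] at h3
    refine h3.trans ?_
    apply mul_le_mul_of_nonneg_right _ (by positivity)
    have h4 : (aff m X k).card ≤ N := by
      have := Finset.card_le_univ (aff m X k)
      rwa [Fintype.card_fin] at this
    exact_mod_cast h4
  have hif0 : (0 : ℝ) ≤ if i ∈ aff m X k then 17 / dc m X i else 0 := by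
    split_ifs
    · have := dc_pos hm1 hN hX i
      positivity
    · exact le_refl _
  have hif1 : (if i ∈ aff m X k then 17 / dc m X i else 0 : ℝ) ≤ 17 / h := by
    split_ifs
    · exact div_le_div_of_nonneg_left (by norm_num) hh (hd i)
    · positivity
  unfold Lc
  constructor
  · positivity
  · have h5 : 3000 / ea m ^ 2 * ∑ b ∈ aff m X k, Gc m X i b * sc m X b * vc m X b / (vc m X i * dc m X b)
        ≤ 3000 / ea m ^ 2 * (N * (4 * ea m ^ 7 / h)) := mul_le_mul_of_nonneg_left hle (by positivity)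
    have h6 : 3000 / ea m ^ 2 * (N * (4 * ea m ^ 7 / h)) = 12000 * N / h * ea m ^ 5 := by
      field_simp
      ring
    have h7 : ea m ^ 5 ≤ 1 := pow_le_one₀ h0.le (by linarith)
    have h8 : 12000 * (N : ℝ) / h * ea m ^ 5 ≤ 12000 * N / h * 1 :=
      mul_le_mul_of_nonneg_left h7 (by positivity)
    have h9 : (17 + 12000 * (N : ℝ)) / h = 17 / h + 12000 * N / h := by ring
    rw [h9]
    linarith

theorem Lc_self_le {m : ℕ} (hm : 2 ≤ m) (hN : m ≤ N) {X : Conf N} (hX : Good m X) (i : Fin N) :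
    Lc m X i i ≤ 18 / dc m X i := by
  have hm1 : 1 ≤ m := by omega
  have h0 := R5_ea_pos hm1
  have h1 := R5_ea_le hm1
  have hdi := dc_pos hm1 hN hX i
  have hle : ∑ b ∈ aff m X i, Gc m X i b * sc m X b * vc m X b / (vc m X i * dc m X b) ≤
      (126 * m) * (8 * ea m ^ 7 / dc m X i) := by
    have h2 : ∀ b ∈ aff m X i, Gc m X i b * sc m X b * vc m X b / (vc m X i * dc m X b) ≤
        8 * ea m ^ 7 / dc m X i := by
      intro b hb
      refine (aa_le hm1 hN hX i b).trans ?_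
      have h3 := aff_dc hm1 hN hX hb
      have h4 := dc_pos hm1 hN hX b
      rw [div_le_div_iff₀ h4 hdi]
      have h5 : 0 < ea m ^ 7 := by positivity
      nlinarith
    have h3 := Finset.sum_le_card_nsmul _ _ _ h2
    rw [nsmul_eq_mul] at h3
    refine h3.trans ?_
    apply mul_le_mul_of_nonneg_right _ (by positivity)
    have h4 := aff_card hm1 hN hX i
    have h5 : (aff m X i).card ≤ 126 * m := by omega
    exact_mod_cast h5
  have hmR : (m : ℝ) * ea m = 1 / 100 := by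
    have : (0 : ℝ) < m := by exact_mod_cast hm1
    unfold ea
    field_simp
  have h5 : 3000 / ea m ^ 2 * ∑ b ∈ aff m X i, Gc m X i b * sc m X b * vc m X b / (vc m X i * dc m X b)
      ≤ 3000 / ea m ^ 2 * ((126 * m) * (8 * ea m ^ 7 / dc m X i)) :=
    mul_le_mul_of_nonneg_left hle (by positivity)
  have h6 : 3000 / ea m ^ 2 * ((126 * m) * (8 * ea m ^ 7 / dc m X i)) =
      3024000 * (m * ea m) * ea m ^ 4 / dc m X i := by
    field_simp
    ring
  rw [h6, hmR] at h5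
  have h7 : ea m ^ 4 ≤ (1 / 100 : ℝ) ^ 4 := pow_le_pow_left₀ h0.le h1 4
  have h8 : 3024000 * (1 / 100) * ea m ^ 4 / dc m X i ≤ 1 / dc m X i := by
    apply div_le_div_of_nonneg_right _ hdi.le
    norm_num at h7 ⊢
    linarith
  have hif1 : (if i ∈ aff m X i then 17 / dc m X i else 0 : ℝ) ≤ 17 / dc m X i := by
    split_ifs
    · exact le_refl _
    · positivity
  unfold Lc
  have h9 : 18 / dc m X i = 17 / dc m X i + 1 / dc m X i := by ring
  rw [h9]
  linarith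

theorem nuc_le {m : ℕ} (hm : 2 ≤ m) (hN : m ≤ N) {X : Conf N} (hX : Good m X) (i : Fin N) :
    0 < nuc m X i ∧ nuc m X i ≤ ‖X i‖ := by
  have hm1 : 1 ≤ m := by omega
  refine ⟨nuc_pos hm1 hN hX i, ?_⟩
  have h0 := R5_ea_pos hm1
  have h1 := R5_ea_le hm1
  have h2 := sc_pos hm1 hN hX i
  have h3 := vc_le_one hm1 hN hX i
  have h4 : nuc m X i ≤ sc m X i := by
    unfold nuc
    exact mul_le_of_le_one_right h2.le h3
  have h5 := sc_le hm1 hN hX i
  have h6 : dc m X i ≤ ‖X i‖ / 4 := dd_le m X (X i)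
  have h7 : ea m ^ 12 ≤ 1 := pow_le_one₀ h0.le (by linarith)
  have h8 := dc_pos hm1 hN hX i
  have h9 : ea m ^ 12 * dc m X i ≤ 1 * dc m X i := mul_le_mul_of_nonneg_right h7 h8.le
  have h10 := norm_nonneg (X i)
  linarith

end Ion
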