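import Pool.Agent.Lib.MP_69e010_mp.R1
import Pool.Agent.Lib.MP_69e010_mp.R5
import Pool.Agent.Lib.MP_69e010_mp.R7

/-!
# JOB R14: crude slope of `√(s(y) v(y))` in every electron

`y ≠ 0` fixed, `X' = update X k x'`, `η = ‖x' - X k‖`, `x'` near `X k`. Apply `Sys.pert_bound` (P4) with `S = vSys .. X y`, `S' = vSys .. X' y`, `t = vstr m X`, `t' = vstr m X'` (`vstr_adm`),
`A = insert none ((aff m X k).map ⟨some, Option.some_injective _⟩)` (everything outside `A` is unchanged by `eventually_update`, R2; `none` may be included always).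
Hypotheses on `A`: `η (|A|+1) ≤ ea³ d_j` for small `η` (all `d_j > 0`, also `dd m X y > 0`), `hx`: `none`: `0 ≤ η`; `hd`: `dd_lip` (`|dd m X' y - dd m X y| ≤ η`), `dc_move`; `hs`: `none`: strengths `0`; `sc_move` (as in R3).
Result at `i = none` (`vSys_v_none`, `vSys_v_some`): `|vy' - vy| ≤ η (12/dd m X y * vy + 3000/ea² ∑_{b∈aff} GG_{none,some b} sc b vc b/dc b)` (the term `b = none` has strength `0`), and by `F2_v` (B7) for `vSys`
`GG_{none,some b} vc b ≤ 4/(ea⁵ dc b) vy`, `sc b ≤ ea¹² dc b` (`sc_le`): each term `≤ 4 ea⁷/dc b vy ≤ 4 ea⁷/h vy`, at most `N` terms: `|vy' - vy| ≤ η (12 + 12000 N)/h vy`  (`slope_vy_crude`).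
`sy m X y = tau m y * dd m X y`, `|dd m X' y - dd m X y| ≤ η ≤ η/h dd m X y`. So for the product `F = sy * vy`: `|F' - F| ≤ |sy' - sy| vy' + sy |vy' - vy| ≤ η (14 + 12000 N)/h F` for small `η` (`vy' ≤ 2 vy`). Then `slope_sqrt` (R1):
`3/5 (14 + 12000 N)/h ≤ (100 + 20000 N)/h`.
-/

open MeasureTheory Metric Finset Filter Topology

noncomputable section

namespace Ion

variable {N : ℕ}

theorem R14_ea {m : ℕ} (hm : 2 ≤ m) : 0 < ea m ∧ ea m ≤ 1 / 200 := by
  have hm' : (2 : ℝ) ≤ m := by exact_mod_cast hm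
  refine ⟨by unfold ea; positivity, ?_⟩
  unfold ea
  exact one_div_le_one_div_of_le (by norm_num) (by linarith)

/-- a positive bound is satisfied near the point -/
theorem R14_small (p : E3) {c r : ℝ} (hr : 0 < r) : ∀ᶠ x' in 𝓝 p, ‖x' - p‖ * c ≤ r := by
  have h1 : Tendsto (fun x' : E3 => ‖x' - p‖ * c) (𝓝 p) (𝓝 0) := by
    have h2 : Continuous fun x' : E3 => ‖x' - p‖ * c := by fun_prop
    have h3 := h2.tendsto p
    simpa using h3
  exact (h1.eventually_lt_const hr).mono fun _ h => h.le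

theorem R14_x_none {m : ℕ} (hm : 1 ≤ m) (hN : m ≤ N) (X : Conf N) (hX : Good m X) (y : E3) (hy : y ≠ 0) :
    (vSys hm hN X hX y hy).x none = y := rfl

theorem R14_x_some {m : ℕ} (hm : 1 ≤ m) (hN : m ≤ N) (X : Conf N) (hX : Good m X) (y : E3) (hy : y ≠ 0) (l : Fin N) :
    (vSys hm hN X hX y hy).x (some l) = X l := rfl

theorem R14_d {m : ℕ} (hm : 1 ≤ m) (hN : m ≤ N) (X : Conf N) (hX : Good m X) (y : E3) (hy : y ≠ 0) :
    (vSys hm hN X hX y hy).d = dd m X := rfl

theorem R14_dj_none {m : ℕ} (hm : 1 ≤ m) (hN : m ≤ N) (X : Conf N) (hX : Good m X) (y : E3) (hy : y ≠ 0) :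
    (vSys hm hN X hX y hy).dj none = dd m X y := by
  unfold Sys.dj
  rw [R14_x_none, R14_d]

theorem R14_dj_some {m : ℕ} (hm : 1 ≤ m) (hN : m ≤ N) (X : Conf N) (hX : Good m X) (y : E3) (hy : y ≠ 0) (l : Fin N) :
    (vSys hm hN X hX y hy).dj (some l) = dc m X l := by
  unfold Sys.dj dc
  rw [R14_x_some, R14_d]

theorem R14_vstr_none (m : ℕ) (X : Conf N) : vstr m X none = 0 := rfl

theorem R14_vstr_some (m : ℕ) (X : Conf N) (l : Fin N) : vstr m X (some l) = sc m X l := rfl

/-- the sum over the affected electrons at the virtual trap -/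
theorem R14_sum {m : ℕ} (hm : 2 ≤ m) (hN : m ≤ N) {X : Conf N} (hX : Good m X) {y : E3} (hy : y ≠ 0)
    {h : ℝ} (hh : 0 < h) (hd : ∀ j, h ≤ dc m X j) (A : Finset (Fin N)) :
    3000 / ea m ^ 2 * ∑ b ∈ A,
      (vSys (by omega : 1 ≤ m) hN X hX y hy).GG (vstr m X) none (some b) * sc m X b * vc m X b / dc m X b ≤
      12000 * N / h * vy m X y := by
  have hm1 : 1 ≤ m := by omega
  obtain ⟨he0, he1⟩ := R14_ea hm
  set S := vSys hm1 hN X hX y hy with hS
  have hvy := vy_pos hm1 hN hX hy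
  have hadm : S.Adm (ea m ^ 5 / 2) (vstr m X) := by
    intro j
    have h1 := vstr_adm hm1 hN X hX y hy j
    refine ⟨h1.1, h1.2.trans ?_⟩
    have hd : 0 ≤ S.dj j := (S.pos _ (S.ne j)).le
    refine mul_le_mul_of_nonneg_right ?_ hd
    have h7 : ea m ^ 7 ≤ 1 / 2 := by
      calc ea m ^ 7 ≤ (1 / 200) ^ 7 := pow_le_pow_left₀ he0.le he1 7
        _ ≤ 1 / 2 := by norm_num
    have h5 : 0 ≤ ea m ^ 5 := by positivity
    nlinarith
  have hterm : ∀ b ∈ A, S.GG (vstr m X) none (some b) * sc m X b * vc m X b / dc m X b ≤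
      4 * ea m ^ 7 * vy m X y / h := by
    intro b _
    have hdb := dc_pos hm1 hN hX b
    have h1 := S.F2_v hm1 hadm none (some b)
    rw [hS, vSys_v_some, vSys_v_none, R14_dj_some, ← hS] at h1
    have h2 := sc_le hm1 hN hX b
    have hsc := sc_pos hm1 hN hX b
    have h4 : S.GG (vstr m X) none (some b) * vc m X b * sc m X b ≤
        4 / (ea m ^ 5 * dc m X b) * vy m X y * (ea m ^ 12 * dc m X b) := by
      refine mul_le_mul h1 h2 hsc.le ?_
      positivity
    have h5 : 4 / (ea m ^ 5 * dc m X b) * vy m X y * (ea m ^ 12 * dc m X b) = 4 * ea m ^ 7 * vy m X y := by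
      field_simp
    rw [h5] at h4
    rw [div_le_div_iff₀ hdb hh]
    have h6 : S.GG (vstr m X) none (some b) * sc m X b * vc m X b ≤ 4 * ea m ^ 7 * vy m X y := by
      linarith [h4]
    have h7 : 0 ≤ 4 * ea m ^ 7 * vy m X y := by positivity
    exact mul_le_mul h6 (hd b) hh.le h7
  have hcard : (A.card : ℝ) ≤ N := by
    have h1 := Finset.card_le_univ A
    rw [Fintype.card_fin] at h1
    exact_mod_cast h1
  have hsum := Finset.sum_le_sum hterm
  rw [Finset.sum_const, nsmul_eq_mul] at hsum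
  have hq : 0 ≤ 4 * ea m ^ 7 * vy m X y / h := by positivity
  calc 3000 / ea m ^ 2 * ∑ b ∈ A, S.GG (vstr m X) none (some b) * sc m X b * vc m X b / dc m X b
      ≤ 3000 / ea m ^ 2 * (N * (4 * ea m ^ 7 * vy m X y / h)) := by
        refine mul_le_mul_of_nonneg_left (hsum.trans ?_) (by positivity)
        exact mul_le_mul_of_nonneg_right hcard hq
    _ = ea m ^ 5 * (12000 * N / h * vy m X y) := by
        field_simp
        ring
    _ ≤ 1 * (12000 * N / h * vy m X y) := by
        refine mul_le_mul_of_nonneg_right ?_ (by positivity)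
        exact pow_le_one₀ he0.le (by linarith)
    _ = 12000 * N / h * vy m X y := one_mul _

/-- the perturbation bound for the value at `y` -/
theorem R14_pert {m : ℕ} (hm : 1 ≤ m) (hN : m ≤ N) {X X' : Conf N} (hX : Good m X) (hX' : Good m X') {y : E3}
    (hy : y ≠ 0) (A : Finset (Fin N)) {η : ℝ} (hη0 : 0 ≤ η)
    (h5 : ∀ l, l ∉ A → X' l = X l ∧ dc m X' l = dc m X l ∧ sc m X' l = sc m X l)
    (h2 : |dd m X' y - dd m X y| ≤ 2 * η) (h2' : η * ((A.card : ℝ) + 2) ≤ ea m ^ 3 * dd m X y)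
    (h3 : ∀ l : Fin N, η * ((A.card : ℝ) + 2) ≤ ea m ^ 3 * dc m X l)
    (hmove : ∀ j, ‖X' j - X j‖ ≤ η) (hdm : ∀ j, |dc m X' j - dc m X j| ≤ 2 * η)
    (hsm : ∀ j, |sc m X' j - sc m X j| ≤ 4 * (η / dc m X j) * sc m X j) :
    |vy m X' y - vy m X y| ≤ η * (12 / dd m X y * vy m X y + 3000 / ea m ^ 2 * ∑ b ∈ A,
      (vSys hm hN X hX y hy).GG (vstr m X) none (some b) * sc m X b * vc m X b / dc m X b) := by
  have hnone : (none : Option (Fin N)) ∉ A.map Function.Embedding.some := by
    intro hc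
    obtain ⟨l, -, hl⟩ := Finset.mem_map.1 hc
    exact Option.some_ne_none l hl
  set A' : Finset (Option (Fin N)) := insert none (A.map Function.Embedding.some) with hA'
  have hcard : (A'.card : ℝ) = (A.card : ℝ) + 1 := by
    rw [hA', Finset.card_insert_of_notMem hnone, Finset.card_map]
    push_cast
    ring
  have hA : ∀ j, j ∉ A' → (vSys hm hN X' hX' y hy).x j = (vSys hm hN X hX y hy).x j ∧
      (vSys hm hN X' hX' y hy).dj j = (vSys hm hN X hX y hy).dj j ∧ vstr m X' j = vstr m X j := by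
    intro j hj
    cases j with
    | none => exact absurd (Finset.mem_insert_self _ _) hj
    | some l =>
      rw [R14_x_some, R14_x_some, R14_dj_some, R14_dj_some, R14_vstr_some, R14_vstr_some]
      exact h5 l fun hc => hj (Finset.mem_insert_of_mem (Finset.mem_map.2 ⟨l, hc, rfl⟩))
  have hc : ∀ j ∈ A', η * ((A'.card : ℝ) + 1) ≤ ea m ^ 3 * (vSys hm hN X hX y hy).dj j := by
    intro j _
    rw [hcard, add_assoc, one_add_one_eq_two]
    cases j with
    | none => rw [R14_dj_none]; exact h2'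
    | some l => rw [R14_dj_some]; exact h3 l
  have hx : ∀ j ∈ A', ‖(vSys hm hN X' hX' y hy).x j - (vSys hm hN X hX y hy).x j‖ ≤ η := by
    intro j _
    cases j with
    | none => rw [R14_x_none, R14_x_none, sub_self, norm_zero]; exact hη0
    | some l => rw [R14_x_some, R14_x_some]; exact hmove l
  have hd : ∀ j ∈ A', |(vSys hm hN X' hX' y hy).dj j - (vSys hm hN X hX y hy).dj j| ≤ 2 * η := by
    intro j _
    cases j with
    | none => rw [R14_dj_none, R14_dj_none]; exact h2
    | some l => rw [R14_dj_some, R14_dj_some]; exact hdm l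
  have hs : ∀ j ∈ A', |vstr m X' j - vstr m X j| ≤ 4 * (η / (vSys hm hN X hX y hy).dj j) * vstr m X j := by
    intro j _
    cases j with
    | none => rw [R14_vstr_none, R14_vstr_none, sub_self, abs_zero, mul_zero]
    | some l => rw [R14_dj_some, R14_vstr_some, R14_vstr_some]; exact hsm l
  have hpb := Sys.pert_bound hm (vSys hm hN X hX y hy) (vSys hm hN X' hX' y hy) (vstr_adm hm hN X hX y hy)
    (vstr_adm hm hN X' hX' y hy) A' hA hη0 hc hx hd hs none
  rw [vSys_v_none, vSys_v_none, if_pos (Finset.mem_insert_self _ _), R14_dj_none, hA',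
    Finset.sum_insert hnone, R14_vstr_none, mul_zero, zero_mul, zero_div, zero_add, Finset.sum_map] at hpb
  refine hpb.trans (le_of_eq ?_)
  congr 3
  refine Finset.sum_congr rfl fun b _ => ?_
  rw [Function.Embedding.some_apply, vSys_v_some, R14_dj_some, R14_vstr_some]

theorem R14_move (X : Conf N) (k : Fin N) (x' : E3) (j : Fin N) :
    ‖Function.update X k x' j - X j‖ ≤ ‖x' - X k‖ := by
  by_cases hj : j = k
  · subst hj
    rw [Function.update_self]
  · rw [Function.update_of_ne hj, sub_self, norm_zero]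
    exact norm_nonneg _

theorem R14_dd {m : ℕ} (hN : m ≤ N) (X : Conf N) (k : Fin N) (x' y : E3) :
    |dd m (Function.update X k x') y - dd m X y| ≤ ‖x' - X k‖ := by
  have h1 := dd_lip hN (X := Function.update X k x') (X' := X) y y (norm_nonneg (x' - X k)) (R14_move X k x')
  simpa using h1

theorem slope_vy_crude {m : ℕ} (hm : 2 ≤ m) (hN : m ≤ N) {X : Conf N} (hX : Good m X) {y : E3} (hy : y ≠ 0)
    {h : ℝ} (hh : 0 < h) (hd : ∀ j, h ≤ dc m X j) (hdy : h ≤ dd m X y) (k : Fin N) :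
    Slope (fun X => vy m X y) X k ((12 + 12000 * N) / h * vy m X y) := by
  have hm1 : 1 ≤ m := by omega
  obtain ⟨he0, -⟩ := R14_ea hm
  have hddy := dd_pos hm1 hN hX hy
  have hdc := fun l => dc_pos hm1 hN hX l
  have hvy := vy_pos hm1 hN hX hy
  have e1 := eventually_update hm1 hN hX k
  have e2 : ∀ᶠ x' in 𝓝 (X k), ‖x' - X k‖ * (((aff m X k).card : ℝ) + 2) ≤ ea m ^ 3 * dd m X y :=
    R14_small (X k) (by positivity)
  have e3 : ∀ᶠ x' in 𝓝 (X k), ∀ l : Fin N, ‖x' - X k‖ * (((aff m X k).card : ℝ) + 2) ≤ ea m ^ 3 * dc m X l :=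
    Filter.eventually_all.2 fun l => R14_small (X k) (by have := hdc l; positivity)
  have e4 : ∀ᶠ x' in 𝓝 (X k), ∀ l : Fin N, ‖x' - X k‖ * 1 ≤ dc m X l / 100 :=
    Filter.eventually_all.2 fun l => R14_small (X k) (by have := hdc l; positivity)
  show ∀ᶠ x' in 𝓝 (X k), |vy m (Function.update X k x') y - vy m X y| ≤
    (12 + 12000 * N) / h * vy m X y * ‖x' - X k‖
  filter_upwards [e1, e2, e3, e4] with x' h1 h2 h3 h4
  obtain ⟨hX', h5⟩ := h1
  have hmove := R14_move X k x'
  have hη := norm_nonneg (x' - X k)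
  have hdm := dc_move hN hη hmove
  have hpb := R14_pert hm1 hN hX hX' hy (aff m X k) hη h5
    ((R14_dd hN X k x' y).trans (by linarith)) h2 h3 hmove hdm
    (fun l => sc_move hm1 hN hX (by have := h4 l; linarith) (hmove l) (hdm l))
  refine hpb.trans ?_
  rw [mul_comm]
  refine mul_le_mul_of_nonneg_right ?_ hη
  have h6 := R14_sum hm hN hX hy hh hd (aff m X k)
  have h7 : 12 / dd m X y * vy m X y ≤ 12 / h * vy m X y := by
    refine mul_le_mul_of_nonneg_right ?_ hvy.le
    exact div_le_div_of_nonneg_left (by norm_num) hh hdy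
  calc 12 / dd m X y * vy m X y + 3000 / ea m ^ 2 * ∑ b ∈ aff m X k,
        (vSys hm1 hN X hX y hy).GG (vstr m X) none (some b) * sc m X b * vc m X b / dc m X b
      ≤ 12 / h * vy m X y + 12000 * N / h * vy m X y := add_le_add h7 h6
    _ = (12 + 12000 * N) / h * vy m X y := by ring

theorem slope_sqrt_svy {m : ℕ} (hm : 2 ≤ m) (hN : m ≤ N) {X : Conf N} (hX : Good m X) {y : E3} (hy : y ≠ 0)
    {h : ℝ} (hh : 0 < h) (hd : ∀ j, h ≤ dc m X j) (hdy : h ≤ dd m X y) (k : Fin N) :
    Slope (fun X => √(sy m X y * vy m X y)) X k ((100 + 20000 * N) / h * √(sy m X y * vy m X y)) := by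
  have hm1 : 1 ≤ m := by omega
  have hddy := dd_pos hm1 hN hX hy
  have hvy := vy_pos hm1 hN hX hy
  have htau := tau_pos hm1 hy
  have hsy : 0 < sy m X y := mul_pos htau hddy
  set L : ℝ := (12 + 12000 * N) / h with hL
  have hL0 : 0 ≤ L := by positivity
  have e1 := slope_vy_crude hm hN hX hy hh hd hdy k
  have e2 : ∀ᶠ x' in 𝓝 (X k), ‖x' - X k‖ * L ≤ 1 := R14_small (X k) one_pos
  have hF : Slope (fun X => sy m X y * vy m X y) X k ((14 + 12000 * N) / h * (sy m X y * vy m X y)) := by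
    show ∀ᶠ x' in 𝓝 (X k), |sy m (Function.update X k x') y * vy m (Function.update X k x') y -
      sy m X y * vy m X y| ≤ (14 + 12000 * N) / h * (sy m X y * vy m X y) * ‖x' - X k‖
    have e1' : ∀ᶠ x' in 𝓝 (X k), |vy m (Function.update X k x') y - vy m X y| ≤
        L * vy m X y * ‖x' - X k‖ := e1
    filter_upwards [e1', e2] with x' h1 h2
    have hη := norm_nonneg (x' - X k)
    set η := ‖x' - X k‖ with hηd
    have h3 : |sy m (Function.update X k x') y - sy m X y| ≤ η / h * sy m X y := by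
      unfold sy
      rw [← mul_sub, abs_mul, abs_of_pos htau]
      have h4 := R14_dd hN X k x' y
      have h5 : η ≤ η / h * dd m X y := by
        rw [div_mul_eq_mul_div, le_div_iff₀ hh]
        exact mul_le_mul_of_nonneg_left hdy hη
      have h6 := mul_le_mul_of_nonneg_left (h4.trans h5) htau.le
      linarith
    have h4 : vy m (Function.update X k x') y ≤ 2 * vy m X y := by
      have h5 := (abs_le.1 h1).2
      have h6 : L * vy m X y * η ≤ 1 * vy m X y := by
        have := mul_le_mul_of_nonneg_right h2 hvy.le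
        linarith
      linarith
    have h4' : 0 ≤ 2 * vy m X y := by linarith
    have h5 : |vy m (Function.update X k x') y| ≤ 2 * vy m X y := by
      rw [abs_le]
      refine ⟨?_, h4⟩
      have h5 := (abs_le.1 h1).1
      have h6 : L * vy m X y * η ≤ 1 * vy m X y := by
        have := mul_le_mul_of_nonneg_right h2 hvy.le
        linarith
      linarith
    have h7 : sy m (Function.update X k x') y * vy m (Function.update X k x') y - sy m X y * vy m X y =
        (sy m (Function.update X k x') y - sy m X y) * vy m (Function.update X k x') y +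
          sy m X y * (vy m (Function.update X k x') y - vy m X y) := by ring
    rw [h7]
    refine (abs_add_le _ _).trans ?_
    rw [abs_mul, abs_mul, abs_of_pos hsy]
    have h8 := mul_le_mul h3 h5 (abs_nonneg _) (by positivity)
    have h9 := mul_le_mul_of_nonneg_left h1 hsy.le
    refine (add_le_add h8 h9).trans (le_of_eq ?_)
    rw [hL]
    ring
  have hS := slope_sqrt (F := fun X => sy m X y * vy m X y) (mul_pos hsy hvy)
    (L := (14 + 12000 * N) / h) (by positivity) hF
  refine slope_mono hS ?_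
  refine mul_le_mul_of_nonneg_right ?_ (Real.sqrt_nonneg _)
  rw [← mul_div_assoc]
  refine div_le_div_of_nonneg_right ?_ hh.le
  have hN0 : (0 : ℝ) ≤ N := Nat.cast_nonneg N
  linarith

theorem vy_pos_le {m : ℕ} (hm : 2 ≤ m) (hN : m ≤ N) {X : Conf N} (hX : Good m X) {y : E3} (hy : y ≠ 0) :
    0 < vy m X y ∧ vy m X y ≤ 1 :=
  ⟨vy_pos (by omega) hN hX hy, vy_le_one (by omega) hN hX hy⟩

end Ion
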