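import Pool.Agent.Lib.MP_69e010_mp.R2
import Pool.Agent.Lib.MP_69e010_mp.C5
import Pool.Agent.Lib.MP_69e010_mp.P4

/-!
# JOB R3: one electron moves: slope of `v_i`

Apply `Sys.pert_bound` (P4) with `S = cSys .. X`, `S' = cSys .. X'`, `X' = update X k x'`, `t = sc m X`, `t' = sc m X'` (`sc_adm`), `A = aff m X k`, `η = ‖x' - X k‖`, for `x'` near `X k`:
`eventually_update` (R2) gives `hA` (note `(cSys ..).x = X`, `(cSys ..).dj j = dc m X j` by definition), `η (|A|+1) ≤ ea³ d_j` holds for `x'` close to `X k` because all `d_j > 0`; `hx`: `X' j - X j` is `0` or `x' - X k`;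
`hd`: `dc_move`; `hs`: `sc_move` (`η ≤ ea³ d_j ≤ d_j/100`). Finally `cSys_v`, `cSys_GG`.
-/

open MeasureTheory Metric Finset Filter Topology

noncomputable section

namespace Ion

variable {N : ℕ}

theorem R3_ea_pos {m : ℕ} (hm : 1 ≤ m) : 0 < ea m := by
  unfold ea
  have h : (0 : ℝ) < m := by exact_mod_cast hm
  positivity

theorem R3_ea_le {m : ℕ} (hm : 1 ≤ m) : ea m ≤ 1 / 100 := by
  unfold ea
  have h : (1 : ℝ) ≤ m := by exact_mod_cast hm
  rw [div_le_div_iff₀ (by positivity) (by norm_num)]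
  nlinarith

theorem R3_ea_cube_le {m : ℕ} (hm : 1 ≤ m) : ea m ^ 3 ≤ 1 / 100 := by
  have h0 := R3_ea_pos hm
  have h1 := R3_ea_le hm
  have h2 : ea m ^ 3 ≤ (1 / 100 : ℝ) ^ 3 := pow_le_pow_left₀ h0.le h1 3
  calc ea m ^ 3 ≤ (1 / 100 : ℝ) ^ 3 := h2
    _ ≤ 1 / 100 := by norm_num

theorem slope_v {m : ℕ} (hm : 1 ≤ m) (hN : m ≤ N) {X : Conf N} (hX : Good m X) (i k : Fin N) :
    Slope (fun X => vc m X i) X k
      ((if i ∈ aff m X k then 12 / dc m X i * vc m X i else 0)
        + 3000 / ea m ^ 2 * ∑ b ∈ aff m X k, Gc m X i b * sc m X b * vc m X b / dc m X b) := by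
  unfold Slope
  have hea := R3_ea_pos hm
  have hea3 := R3_ea_cube_le hm
  have hcard : (0 : ℝ) ≤ ((aff m X k).card : ℝ) := by positivity
  have hev2 : ∀ᶠ x' in 𝓝 (X k), ∀ j : Fin N,
      ‖x' - X k‖ * (((aff m X k).card : ℝ) + 1) ≤ ea m ^ 3 * dc m X j := by
    rw [Filter.eventually_all]
    intro j
    have hcont : Continuous (fun x' : E3 => ‖x' - X k‖ * (((aff m X k).card : ℝ) + 1)) := by
      fun_prop
    have hpos : 0 < ea m ^ 3 * dc m X j := mul_pos (pow_pos hea 3) (dc_pos hm hN hX j)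
    have h0 : ‖X k - X k‖ * (((aff m X k).card : ℝ) + 1) < ea m ^ 3 * dc m X j := by
      simpa using hpos
    exact (hcont.continuousAt.eventually_lt continuousAt_const h0).mono (fun _ h => h.le)
  filter_upwards [eventually_update hm hN hX k, hev2] with x' h1 h2
  obtain ⟨hG, hl⟩ := h1
  have hη0 : 0 ≤ ‖x' - X k‖ := norm_nonneg _
  have hxm : ∀ j, ‖Function.update X k x' j - X j‖ ≤ ‖x' - X k‖ := by
    intro j
    by_cases hj : j = k
    · subst hj
      rw [Function.update_self]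
    · rw [Function.update_of_ne hj, sub_self, norm_zero]
      exact hη0
  have hηd : ∀ j, ‖x' - X k‖ ≤ dc m X j / 100 := by
    intro j
    have hd0 := dc_pos hm hN hX j
    have h3 : ‖x' - X k‖ ≤ ‖x' - X k‖ * (((aff m X k).card : ℝ) + 1) := by
      nlinarith [mul_nonneg hη0 hcard]
    have h4 : ea m ^ 3 * dc m X j ≤ 1 / 100 * dc m X j :=
      mul_le_mul_of_nonneg_right hea3 hd0.le
    linarith [h2 j]
  have hdm : ∀ j, |dc m (Function.update X k x') j - dc m X j| ≤ 2 * ‖x' - X k‖ :=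
    fun j => dc_move hN hη0 hxm j
  have hsm : ∀ j, |sc m (Function.update X k x') j - sc m X j|
      ≤ 4 * (‖x' - X k‖ / dc m X j) * sc m X j :=
    fun j => sc_move hm hN hX (hηd j) (hxm j) (hdm j)
  have key := Sys.pert_bound hm (cSys hm hN X hX) (cSys hm hN (Function.update X k x') hG)
    (sc_adm hm hN X hX) (sc_adm hm hN (Function.update X k x') hG) (aff m X k)
    (fun j hj => hl j hj) hη0 (fun j _ => h2 j) (fun j _ => hxm j) (fun j _ => hdm j)
    (fun j _ => hsm j) i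
  rw [cSys_v, cSys_v] at key
  simp only [cSys_v, cSys_GG] at key
  rw [mul_comm]
  exact key

end Ion
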