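import Pool.Agent.Lib.MP_69e010_mp.R1
import Pool.Agent.Lib.MP_69e010_mp.R3

/-!
# JOB R4: slope of `ν_i = s_i v_i` and of `√ν_i`

Write `X' = update X k x'`, `η = ‖x' - X k‖`, `Lv := (if i ∈ aff then 12/d_i v_i else 0) + Σ`, `Σ = 3000/ea² ∑ ... ≥ 0` (`slope_v`: `|v'_i - v_i| ≤ Lv η`), and note `Lc m X k i * nuc m X i = s_i ((if i ∈ aff then 17/d_i v_i else 0) + Σ)`.
* `i ∉ aff m X k`: `s'_i = s_i` (`eventually_update`), so `|ν'_i - ν_i| = s_i |v'_i - v_i| ≤ s_i Σ η`.
* `i ∈ aff m X k`: `|ν'-ν| ≤ s' |v'-v| + |s'-s| v ≤ (1 + 4η/d_i) s Lv η + 4 (η/d_i) s v` (`sc_move`, `dc_move`; valid for `η ≤ d_i/100`). Since `(4η/d_i) Lv ≤ v_i/d_i` for small `η` (`v_i > 0`), the total is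
  `≤ s η (12/d_i v + Σ + v/d_i + 4 v/d_i) = s η (17/d_i v + Σ)`.
`slope_sqrt_nu` is then `slope_sqrt` (R1) (`Lc ≥ 0`: `Gc_nonneg` etc.).
-/

open MeasureTheory Metric Finset Filter Topology

noncomputable section

namespace Ion

variable {N : ℕ}

theorem R4_sum_nonneg {m : ℕ} (hm : 1 ≤ m) (hN : m ≤ N) {X : Conf N} (hX : Good m X) (i k : Fin N) :
    0 ≤ 3000 / ea m ^ 2 * ∑ b ∈ aff m X k, Gc m X i b * sc m X b * vc m X b / dc m X b := by
  have h1 : 0 ≤ 3000 / ea m ^ 2 := by positivity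
  refine mul_nonneg h1 (Finset.sum_nonneg fun b _ => ?_)
  have hd := dc_pos hm hN hX b
  have hs := sc_pos hm hN hX b
  have hv := vc_pos hm hN hX b
  have hG := Gc_nonneg hm hN hX i b
  positivity

theorem Lc_nonneg {m : ℕ} (hm : 1 ≤ m) (hN : m ≤ N) {X : Conf N} (hX : Good m X) (i k : Fin N) :
    0 ≤ Lc m X k i := by
  unfold Lc
  have hdi := dc_pos hm hN hX i
  have hvi := vc_pos hm hN hX i
  have h0 : 0 ≤ (if i ∈ aff m X k then 17 / dc m X i else 0) := by
    split_ifs
    · positivity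
    · exact le_rfl
  have h1 : 0 ≤ 3000 / ea m ^ 2 := by positivity
  refine add_nonneg h0 (mul_nonneg h1 (Finset.sum_nonneg fun b _ => ?_))
  have hd := dc_pos hm hN hX b
  have hs := sc_pos hm hN hX b
  have hv := vc_pos hm hN hX b
  have hG := Gc_nonneg hm hN hX i b
  positivity

theorem R4_Lc_mul {m : ℕ} (hm : 1 ≤ m) (hN : m ≤ N) {X : Conf N} (hX : Good m X) (i k : Fin N) :
    Lc m X k i * nuc m X i = sc m X i * ((if i ∈ aff m X k then 17 / dc m X i * vc m X i else 0)
      + 3000 / ea m ^ 2 * ∑ b ∈ aff m X k, Gc m X i b * sc m X b * vc m X b / dc m X b) := by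
  have hvi := vc_pos hm hN hX i
  unfold Lc nuc
  have h2 : (∑ b ∈ aff m X k, Gc m X i b * sc m X b * vc m X b / dc m X b)
      = vc m X i * ∑ b ∈ aff m X k, Gc m X i b * sc m X b * vc m X b / (vc m X i * dc m X b) := by
    rw [Finset.mul_sum]
    refine Finset.sum_congr rfl fun b _ => ?_
    have hd := dc_pos hm hN hX b
    field_simp
  rw [h2]
  split_ifs <;> ring

theorem slope_nu {m : ℕ} (hm : 1 ≤ m) (hN : m ≤ N) {X : Conf N} (hX : Good m X) (i k : Fin N) :
    Slope (fun X => nuc m X i) X k (Lc m X k i * nuc m X i) := by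
  rw [R4_Lc_mul hm hN hX i k]
  have hSg0 := R4_sum_nonneg hm hN hX i k
  have h1 := slope_v hm hN hX i k
  generalize 3000 / ea m ^ 2 * ∑ b ∈ aff m X k, Gc m X i b * sc m X b * vc m X b / dc m X b = Sg at *
  have hd := dc_pos hm hN hX i
  have hs := sc_pos hm hN hX i
  have hv := vc_pos hm hN hX i
  have h2 := eventually_update hm hN hX k
  unfold Slope at h1 ⊢
  by_cases hi : i ∈ aff m X k
  · simp only [hi, if_true] at h1 ⊢
    set Lv : ℝ := 12 / dc m X i * vc m X i + Sg with hLv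
    have hLv0 : 0 ≤ Lv := by positivity
    have hr : 0 < min (dc m X i / 100) (vc m X i / (4 * (Lv + 1))) := by positivity
    have h3 : ∀ᶠ x' in 𝓝 (X k), ‖x' - X k‖ < min (dc m X i / 100) (vc m X i / (4 * (Lv + 1))) := by
      have := Metric.ball_mem_nhds (X k) hr
      filter_upwards [this] with x' hx'
      rwa [mem_ball, dist_eq_norm] at hx'
    filter_upwards [h1, h3] with x' e1 e3
    set η : ℝ := ‖x' - X k‖ with hη
    have hη0 : 0 ≤ η := norm_nonneg _
    have e3a : η ≤ dc m X i / 100 := (e3.le).trans (min_le_left _ _)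
    have e3b : η ≤ vc m X i / (4 * (Lv + 1)) := (e3.le).trans (min_le_right _ _)
    have hmove : ∀ j, ‖Function.update X k x' j - X j‖ ≤ η := by
      intro j
      by_cases hj : j = k
      · subst hj
        simp [hη]
      · simp [Function.update_of_ne hj, hη0]
    have hdm := dc_move hN hη0 hmove i
    have hsm := sc_move hm hN hX e3a (hmove i) hdm
    show |nuc m (Function.update X k x') i - nuc m X i| ≤ _
    unfold nuc
    generalize sc m (Function.update X k x') i = s' at *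
    generalize vc m (Function.update X k x') i = v' at *
    have hs'1 : |s'| ≤ sc m X i * (1 + 4 * (η / dc m X i)) := by
      calc |s'| = |(s' - sc m X i) + sc m X i| := by ring_nf
        _ ≤ |s' - sc m X i| + |sc m X i| := abs_add_le _ _
        _ ≤ 4 * (η / dc m X i) * sc m X i + sc m X i := by
            rw [abs_of_pos hs]; linarith
        _ = _ := by ring
    have key : 4 * η * Lv ≤ vc m X i := by
      have h4 : (0:ℝ) < 4 * (Lv + 1) := by positivity
      rw [le_div_iff₀ h4] at e3b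
      nlinarith
    have key2 : 4 * (η / dc m X i) * Lv ≤ vc m X i / dc m X i := by
      rw [show 4 * (η / dc m X i) * Lv = 4 * η * Lv / dc m X i by ring]
      gcongr
    calc |s' * v' - sc m X i * vc m X i|
        = |s' * (v' - vc m X i) + (s' - sc m X i) * vc m X i| := by ring_nf
      _ ≤ |s' * (v' - vc m X i)| + |(s' - sc m X i) * vc m X i| := abs_add_le _ _
      _ = |s'| * |v' - vc m X i| + |s' - sc m X i| * vc m X i := by
          rw [abs_mul, abs_mul, abs_of_pos hv]
      _ ≤ (sc m X i * (1 + 4 * (η / dc m X i))) * (Lv * η)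
            + (4 * (η / dc m X i) * sc m X i) * vc m X i := by
          gcongr
      _ = sc m X i * η * (Lv + 4 * (η / dc m X i) * Lv + 4 / dc m X i * vc m X i) := by ring
      _ ≤ sc m X i * η * (Lv + vc m X i / dc m X i + 4 / dc m X i * vc m X i) := by
          gcongr
      _ = sc m X i * (17 / dc m X i * vc m X i + Sg) * η := by
          rw [hLv]; ring
  · simp only [hi, if_false, zero_add] at h1 ⊢
    filter_upwards [h1, h2] with x' e1 e2
    obtain ⟨_, e3⟩ := e2
    obtain ⟨_, _, e4⟩ := e3 i hi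
    show |nuc m (Function.update X k x') i - nuc m X i| ≤ _
    unfold nuc
    rw [e4, ← mul_sub, abs_mul, abs_of_pos hs]
    calc _ ≤ sc m X i * (Sg * ‖x' - X k‖) := by gcongr
      _ = _ := by ring

theorem slope_sqrt_nu {m : ℕ} (hm : 2 ≤ m) (hN : m ≤ N) {X : Conf N} (hX : Good m X) (i k : Fin N) :
    Slope (fun X => √(nuc m X i)) X k (3 / 5 * Lc m X k i * √(nuc m X i)) := by
  have hm1 : 1 ≤ m := by omega
  exact slope_sqrt (F := fun X => nuc m X i) (nuc_pos hm1 hN hX i) (Lc_nonneg hm1 hN hX i k)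
    (slope_nu hm1 hN hX i k)

end Ion
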