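import Pool.Agent.Lib.MP_69e010_mp.R4
import Pool.Agent.Lib.MP_69e010_mp.R5
import Pool.Agent.Lib.MP_69e010_mp.C4

/-!
# JOB R6: Proposition 4.2 (P3)

Write `a_ib := Gc i b * sc b * vc b / (vc i * dc b)` (so `0 ≤ a_ib ≤ 4 ea⁷/dc b`, `aa_nonneg`, `aa_le`), `A_k := aff m X k`, `n_i := nuc m X i`.
`Lc m X k i = 1_{i ∈ A_k} 17/dc i + 3000/ea² ∑_{b∈A_k} a_ib`.
1. `Lc² ≤ 2·289·1_{i∈A_k}/(dc i)² + 2·(9·10⁶/ea⁴) |A_k| ∑_{b∈A_k} a_ib²` (`(x+y)² ≤ 2x²+2y²`, Cauchy `sq_sum_le_card_mul_sum_sq`), `|A_k| ≤ 126 m = 1.26/ea` (`aff_card`).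
2. Sum over `k`: every `l` is in at most two of the sets `A_k` (`aff_dual_card`), so `∑_k 1_{i∈A_k} ≤ 2` and `∑_k ∑_{b∈A_k} a_ib² ≤ 2 ∑_b a_ib²` (exchange the sums):
   `∑_k Lc² ≤ 1156/(dc i)² + 4.54·10⁷/ea⁵ ∑_b a_ib²`.
3. `a_ib² ≤ (4 ea⁷/dc b) a_ib`, and `∑_i n_i a_ib = (n_b/dc b) ∑_i sc i Gc i b ≤ n_b/dc b` (`sum_sc_Gc`; `n_i = sc i vc i`).
   So `∑_i n_i (4.54·10⁷/ea⁵) ∑_b a_ib² ≤ 1.82·10⁸ ea² ∑_b n_b/(dc b)² ≤ 44 ∑_b n_b/(dc b)²` since `ea ≤ 10⁻⁶` for `m ≥ 10⁴`.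
`P3_gen`: `gsq_le_slope` (R1) with `slope_sqrt_nu` (R4): `gsq k √ν_i ≤ (9/25) Lc² ν_i`, and `9/25·1200 = 432`. `P3_ae`: `ae_gen` (C4).
-/

open MeasureTheory Metric Finset Filter Topology

noncomputable section

namespace Ion

variable {N : ℕ}

/-- the numbers `a_ib` -/
def R6_a (m : ℕ) (X : Conf N) (i b : Fin N) : ℝ :=
  Gc m X i b * sc m X b * vc m X b / (vc m X i * dc m X b)

theorem R6_step1 {m : ℕ} (hm1 : 1 ≤ m) (hN : m ≤ N) {X : Conf N} (hG : Good m X) (i k : Fin N) :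
    Lc m X k i ^ 2 ≤ 578 / dc m X i ^ 2 * (if i ∈ aff m X k then 1 else 0)
      + 22680000 / ea m ^ 5 * ∑ b ∈ aff m X k, R6_a m X i b ^ 2 := by
  have hea := ea_pos hm1
  have hd := dc_pos hm1 hN hG i
  have h1 : Lc m X k i = (if i ∈ aff m X k then 17 / dc m X i else 0)
      + 3000 / ea m ^ 2 * ∑ b ∈ aff m X k, R6_a m X i b := rfl
  have h2 : (∑ b ∈ aff m X k, R6_a m X i b) ^ 2
      ≤ (aff m X k).card * ∑ b ∈ aff m X k, R6_a m X i b ^ 2 := sq_sum_le_card_mul_sum_sq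
  have hm0 : (1:ℝ) ≤ m := by exact_mod_cast hm1
  have h3 : ((aff m X k).card : ℝ) ≤ 126 / 100 / ea m := by
    have h4 : ((aff m X k).card : ℝ) ≤ 125 * m + 1 := by exact_mod_cast aff_card hm1 hN hG k
    have h5 : 126 / 100 / ea m = 126 * m := by
      unfold ea
      field_simp
    rw [h5]; linarith
  have hS : 0 ≤ ∑ b ∈ aff m X k, R6_a m X i b ^ 2 := Finset.sum_nonneg fun b _ => sq_nonneg _
  have h6 : (∑ b ∈ aff m X k, R6_a m X i b) ^ 2
      ≤ 126 / 100 / ea m * ∑ b ∈ aff m X k, R6_a m X i b ^ 2 := by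
    refine h2.trans ?_
    gcongr
  rw [h1]
  calc ((if i ∈ aff m X k then 17 / dc m X i else 0)
          + 3000 / ea m ^ 2 * ∑ b ∈ aff m X k, R6_a m X i b) ^ 2
      ≤ 2 * (if i ∈ aff m X k then 17 / dc m X i else 0) ^ 2
          + 2 * (3000 / ea m ^ 2 * ∑ b ∈ aff m X k, R6_a m X i b) ^ 2 := by
        nlinarith [sq_nonneg ((if i ∈ aff m X k then 17 / dc m X i else 0)
          - 3000 / ea m ^ 2 * ∑ b ∈ aff m X k, R6_a m X i b)]
    _ = 578 / dc m X i ^ 2 * (if i ∈ aff m X k then 1 else 0)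
          + 2 * (9000000 / ea m ^ 4) * (∑ b ∈ aff m X k, R6_a m X i b) ^ 2 := by
        split_ifs
        · field_simp; ring
        · field_simp; ring
    _ ≤ 578 / dc m X i ^ 2 * (if i ∈ aff m X k then 1 else 0)
          + 2 * (9000000 / ea m ^ 4) * (126 / 100 / ea m * ∑ b ∈ aff m X k, R6_a m X i b ^ 2) := by
        gcongr
    _ = _ := by
        field_simp; ring

theorem R6_step2 {m : ℕ} (hm1 : 1 ≤ m) (hN : m ≤ N) {X : Conf N} (hX : Gen m X) (i : Fin N) :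
    ∑ k, Lc m X k i ^ 2 ≤ 1156 / dc m X i ^ 2 + 45360000 / ea m ^ 5 * ∑ b, R6_a m X i b ^ 2 := by
  have hG := hX.1
  have hea := ea_pos hm1
  have hd := dc_pos hm1 hN hG i
  have hcard : ∀ l, ((univ.filter fun k => l ∈ aff m X k).card : ℝ) ≤ 2 := fun l => by
    exact_mod_cast aff_dual_card hm1 hN hX l
  calc ∑ k, Lc m X k i ^ 2 ≤ ∑ k, (578 / dc m X i ^ 2 * (if i ∈ aff m X k then 1 else 0)
      + 22680000 / ea m ^ 5 * ∑ b ∈ aff m X k, R6_a m X i b ^ 2) :=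
        Finset.sum_le_sum fun k _ => R6_step1 hm1 hN hG i k
    _ = 578 / dc m X i ^ 2 * ((univ.filter fun k => i ∈ aff m X k).card : ℝ)
        + 22680000 / ea m ^ 5 * ∑ k, ∑ b ∈ aff m X k, R6_a m X i b ^ 2 := by
        rw [Finset.sum_add_distrib, ← Finset.mul_sum, ← Finset.mul_sum, Finset.sum_boole]
    _ = 578 / dc m X i ^ 2 * ((univ.filter fun k => i ∈ aff m X k).card : ℝ)
        + 22680000 / ea m ^ 5 * ∑ b, ((univ.filter fun k => b ∈ aff m X k).card : ℝ) * R6_a m X i b ^ 2 := by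
        congr 2
        rw [Finset.sum_comm' (s' := fun b => univ.filter fun k => b ∈ aff m X k) (t' := univ)]
        · refine Finset.sum_congr rfl fun b _ => ?_
          rw [Finset.sum_const, nsmul_eq_mul]
        · intro x y
          simp
    _ ≤ 578 / dc m X i ^ 2 * 2
        + 22680000 / ea m ^ 5 * ∑ b, 2 * R6_a m X i b ^ 2 := by
        have h1 := hcard i
        have h2 : ∑ b, ((univ.filter fun k => b ∈ aff m X k).card : ℝ) * R6_a m X i b ^ 2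
            ≤ ∑ b, 2 * R6_a m X i b ^ 2 :=
          Finset.sum_le_sum fun b _ => mul_le_mul_of_nonneg_right (hcard b) (sq_nonneg _)
        gcongr
    _ = _ := by
        rw [← Finset.mul_sum]; ring

theorem R6_step3 {m : ℕ} (hm1 : 1 ≤ m) (hN : m ≤ N) {X : Conf N} (hG : Good m X) :
    ∑ i, nuc m X i * ∑ b, R6_a m X i b ^ 2 ≤ 4 * ea m ^ 7 * ∑ b, nuc m X b / dc m X b ^ 2 := by
  have hea := ea_pos hm1
  have e1 : ∀ i b, nuc m X i * R6_a m X i b ^ 2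
      ≤ 4 * ea m ^ 7 / dc m X b * ((nuc m X b / dc m X b) * (sc m X i * Gc m X i b)) := by
    intro i b
    have hn := nuc_pos hm1 hN hG i
    have hv := vc_pos hm1 hN hG i
    have hdb := dc_pos hm1 hN hG b
    have h0 : 0 ≤ R6_a m X i b := aa_nonneg hm1 hN hG i b
    have h1 : R6_a m X i b ≤ 4 * ea m ^ 7 / dc m X b := aa_le hm1 hN hG i b
    have h2 : nuc m X i * R6_a m X i b = (nuc m X b / dc m X b) * (sc m X i * Gc m X i b) := by
      unfold nuc R6_a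
      field_simp
    calc nuc m X i * R6_a m X i b ^ 2 = R6_a m X i b * (nuc m X i * R6_a m X i b) := by ring
      _ ≤ 4 * ea m ^ 7 / dc m X b * (nuc m X i * R6_a m X i b) := by gcongr
      _ = _ := by rw [h2]
  calc ∑ i, nuc m X i * ∑ b, R6_a m X i b ^ 2 = ∑ i, ∑ b, nuc m X i * R6_a m X i b ^ 2 := by
        simp only [Finset.mul_sum]
    _ ≤ ∑ i, ∑ b, 4 * ea m ^ 7 / dc m X b * ((nuc m X b / dc m X b) * (sc m X i * Gc m X i b)) :=
        Finset.sum_le_sum fun i _ => Finset.sum_le_sum fun b _ => e1 i b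
    _ = ∑ b, 4 * ea m ^ 7 / dc m X b * ((nuc m X b / dc m X b) * ∑ i, sc m X i * Gc m X i b) := by
        rw [Finset.sum_comm]
        simp only [Finset.mul_sum]
    _ ≤ ∑ b, 4 * ea m ^ 7 / dc m X b * ((nuc m X b / dc m X b) * 1) := by
        refine Finset.sum_le_sum fun b _ => ?_
        have hn := nuc_pos hm1 hN hG b
        have hdb := dc_pos hm1 hN hG b
        have h1 := sum_sc_Gc hm1 hN hG b
        gcongr
    _ = _ := by
        rw [Finset.mul_sum]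
        refine Finset.sum_congr rfl fun b _ => ?_
        have hdb := dc_pos hm1 hN hG b
        field_simp

theorem sum_Lc {m : ℕ} (hm : 10 ^ 4 ≤ m) (hN : m ≤ N) {X : Conf N} (hX : Gen m X) :
    ∑ i, ∑ k, nuc m X i * Lc m X k i ^ 2 ≤ 1200 * ∑ i, nuc m X i / dc m X i ^ 2 := by
  have hm1 : 1 ≤ m := le_trans (by norm_num) hm
  have hG := hX.1
  have hea := ea_pos hm1
  have hea2 : ea m ≤ 1 / 10 ^ 6 := by
    unfold ea
    have h1 : (10:ℝ) ^ 4 ≤ m := by exact_mod_cast hm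
    have h2 : (0:ℝ) < m := by linarith [show (0:ℝ) < 10 ^ 4 by norm_num]
    rw [div_le_div_iff₀ (by positivity) (by positivity)]
    nlinarith
  have hS : 0 ≤ ∑ i, nuc m X i / dc m X i ^ 2 := Finset.sum_nonneg fun i _ => by
    have hn := nuc_pos hm1 hN hG i
    have hdb := dc_pos hm1 hN hG i
    positivity
  calc ∑ i, ∑ k, nuc m X i * Lc m X k i ^ 2
      = ∑ i, nuc m X i * ∑ k, Lc m X k i ^ 2 := by simp only [Finset.mul_sum]
    _ ≤ ∑ i, nuc m X i * (1156 / dc m X i ^ 2 + 45360000 / ea m ^ 5 * ∑ b, R6_a m X i b ^ 2) := by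
        refine Finset.sum_le_sum fun i _ => ?_
        have hn := nuc_pos hm1 hN hG i
        have h1 := R6_step2 hm1 hN hX i
        gcongr
    _ = 1156 * ∑ i, nuc m X i / dc m X i ^ 2
          + 45360000 / ea m ^ 5 * ∑ i, nuc m X i * ∑ b, R6_a m X i b ^ 2 := by
        rw [Finset.mul_sum, Finset.mul_sum, ← Finset.sum_add_distrib]
        refine Finset.sum_congr rfl fun i _ => ?_
        ring
    _ ≤ 1156 * ∑ i, nuc m X i / dc m X i ^ 2
          + 45360000 / ea m ^ 5 * (4 * ea m ^ 7 * ∑ b, nuc m X b / dc m X b ^ 2) := by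
        have h1 := R6_step3 hm1 hN hG
        gcongr
    _ = (1156 + 181440000 * ea m ^ 2) * ∑ i, nuc m X i / dc m X i ^ 2 := by
        field_simp; ring
    _ ≤ 1200 * ∑ i, nuc m X i / dc m X i ^ 2 := by
        have h2 : ea m ^ 2 ≤ (1 / 10 ^ 6) ^ 2 := by gcongr
        have h3 : 1156 + 181440000 * ea m ^ 2 ≤ 1200 := by
          have : (181440000:ℝ) * (1 / 10 ^ 6) ^ 2 ≤ 44 := by norm_num
          nlinarith
        exact mul_le_mul_of_nonneg_right h3 hS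

theorem P3_gen {m : ℕ} (hm : 10 ^ 4 ≤ m) (hN : m ≤ N) {X : Conf N} (hX : Gen m X) :
    ∑ i, ∑ k, gsq k (fun X => √(nuc m X i)) X ≤ 432 * ∑ i, nuc m X i / dc m X i ^ 2 := by
  have hm1 : 1 ≤ m := le_trans (by norm_num) hm
  have hm2 : 2 ≤ m := le_trans (by norm_num) hm
  have hG := hX.1
  have h1 := sum_Lc hm hN hX
  calc ∑ i, ∑ k, gsq k (fun X => √(nuc m X i)) X
      ≤ ∑ i, ∑ k, 9 / 25 * (nuc m X i * Lc m X k i ^ 2) := by
        refine Finset.sum_le_sum fun i _ => Finset.sum_le_sum fun k _ => ?_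
        have hn := nuc_pos hm1 hN hG i
        have hL := Lc_nonneg hm1 hN hG i k
        have h2 := gsq_le_slope (by positivity) (slope_sqrt_nu hm2 hN hG i k)
        refine h2.trans (le_of_eq ?_)
        rw [mul_pow, Real.sq_sqrt hn.le]
        ring
    _ = 9 / 25 * ∑ i, ∑ k, nuc m X i * Lc m X k i ^ 2 := by
        simp only [Finset.mul_sum]
    _ ≤ 9 / 25 * (1200 * ∑ i, nuc m X i / dc m X i ^ 2) := by gcongr
    _ = _ := by ring

theorem P3_ae {m : ℕ} (hm : 10 ^ 4 ≤ m) (hN : m ≤ N) :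
    ∀ᵐ X : Conf N, ∑ i, ∑ k, gsq k (fun X => √(nuc m X i)) X ≤ 432 * ∑ i, nuc m X i / dc m X i ^ 2 := by
  have hm2 : 2 ≤ m := le_trans (by norm_num) hm
  filter_upwards [ae_gen hm2 hN] with X hX
  exact P3_gen hm hN hX

end Ion
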