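import Pool.Agent.Lib.MP_69e010_mp.R2
import Pool.Agent.Lib.MP_69e010_mp.C5
import Pool.Agent.Lib.MP_69e010_mp.B8

/-!
# JOB R8: values near an electron (5.1, first part)
-/

open MeasureTheory Metric Finset Filter Topology

noncomputable section

namespace Ion

variable {N : ℕ}

theorem vSys_u {m : ℕ} (hm : 1 ≤ m) (hN : m ≤ N) (X : Conf N) (hX : Good m X) (y : E3) (hy : y ≠ 0) (w : E3) :
    (vSys hm hN X hX y hy).u (vstr m X) w = uc m X w := by
  unfold Sys.u Sys.FF uc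
  rw [Fintype.sum_option]
  have h0 : vstr m X none = 0 := rfl
  simp only [h0, zero_mul, zero_add]
  refine congrArg (fun t : ℝ => 1 - t) ?_
  refine Finset.sum_congr rfl fun j _ => ?_
  rw [vSys_v_some hm hN X hX y hy j]
  rfl

theorem vy_le_uc {m : ℕ} (hm : 1 ≤ m) (hN : m ≤ N) {X : Conf N} (hX : Good m X) {y : E3} (hy : y ≠ 0) :
    vy m X y ≤ 27 / 25 * uc m X y := by
  have h := (vSys hm hN X hX y hy).v_le_u hm (vstr_adm hm hN X hX y hy) none
  rw [vSys_v_none, vSys_u] at h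
  exact h

theorem uc_le_vy {m : ℕ} (hm : 1 ≤ m) (hN : m ≤ N) {X : Conf N} (hX : Good m X) {y : E3} (hy : y ≠ 0) :
    uc m X y ≤ 27 / 25 * vy m X y := by
  have h := (vSys hm hN X hX y hy).u_le_v hm (vstr_adm hm hN X hX y hy) none
  rw [vSys_v_none, vSys_u] at h
  exact h

theorem vc_le_uc {m : ℕ} (hm : 1 ≤ m) (hN : m ≤ N) {X : Conf N} (hX : Good m X) (i : Fin N) :
    vc m X i ≤ 27 / 25 * uc m X (X i) := by
  have h := (cSys hm hN X hX).v_le_u hm (sc_adm hm hN X hX) i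
  rw [cSys_v, cSys_u] at h
  exact h

theorem uc_le_vc {m : ℕ} (hm : 1 ≤ m) (hN : m ≤ N) {X : Conf N} (hX : Good m X) (i : Fin N) :
    uc m X (X i) ≤ 27 / 25 * vc m X i := by
  have h := (cSys hm hN X hX).u_le_v hm (sc_adm hm hN X hX) i
  rw [cSys_v, cSys_u] at h
  exact h

theorem uc_harnack {m : ℕ} (hm : 1 ≤ m) (hN : m ≤ N) {X : Conf N} (hX : Good m X) {x y : E3} (hy : y ≠ 0)
    (h : ‖x - y‖ ≤ dd m X y / 100) :
    uc m X x ≤ 27 / 25 * uc m X y ∧ uc m X y ≤ 27 / 25 * uc m X x := by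
  have h1 := (cSys hm hN X hX).harnack hm (sc_adm hm hN X hX) hy (x := x) h
  rw [cSys_u, cSys_u] at h1
  exact h1

theorem R8_eps_pos {m : ℕ} (hm : 1 ≤ m) : 0 < eps m := by
  unfold eps
  have := ea_pos hm
  positivity

theorem ratio_nu {m : ℕ} (hm : 2 ≤ m) (hN : m ≤ N) {X : Conf N} (hX : Good m X) {y : E3} (hy : y ≠ 0)
    {i : Fin N} (h : ‖X i - y‖ ≤ dd m X y / 100) :
    3 / 4 * nuc m X i ≤ sy m X y * vy m X y ∧ sy m X y * vy m X y ≤ 4 / 3 * nuc m X i ∧
      99 / 100 * dd m X y ≤ dc m X i ∧ dc m X i ≤ 101 / 100 * dd m X y := by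
  have hm1 : 1 ≤ m := by omega
  have hε := R8_eps_pos hm1
  have hd : 0 < dd m X y := dd_pos hm1 hN hX hy
  have hlip := dd_lip_y hN X (X i) y
  rw [abs_le] at hlip
  have hdle : dd m X y ≤ ‖y‖ / 4 := dd_le m X y
  have hc1 : 99 / 100 * dd m X y ≤ dc m X i := by
    unfold dc; linarith [hlip.1]
  have hc2 : dc m X i ≤ 101 / 100 * dd m X y := by
    unfold dc; linarith [hlip.2]
  have hdi : 0 < dc m X i := by linarith
  have hyn : 0 < ‖y‖ := norm_pos_iff.mpr hy
  have hn1 : ‖X i‖ ≤ ‖y‖ + ‖X i - y‖ := by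
    have := norm_add_le y (X i - y)
    rwa [add_sub_cancel] at this
  have hn2 : ‖y‖ ≤ ‖X i‖ + ‖X i - y‖ := by
    have := norm_sub_le (X i) (X i - y)
    rwa [sub_sub_cancel] at this
  have ht1 : tau m y ≤ 400 / 399 * tau m (X i) := by
    unfold tau
    rw [mul_min_of_nonneg _ _ (by norm_num : (0:ℝ) ≤ 400 / 399)]
    refine min_le_min ?_ ?_
    · linarith
    · linarith
  have ht2 : tau m (X i) ≤ 401 / 400 * tau m y := by
    unfold tau
    rw [mul_min_of_nonneg _ _ (by norm_num : (0:ℝ) ≤ 401 / 400)]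
    refine min_le_min ?_ ?_
    · linarith
    · linarith
  have htp : 0 < tau m y := lt_min hε hyn
  have htpi : 0 < tau m (X i) := lt_min hε (norm_pos_iff.mpr (hX.1 i))
  have hv := vc_pos hm1 hN hX i
  have hu := uc_pos hm1 hN hX y
  have hui := uc_pos hm1 hN hX (X i)
  have h1 := vy_le_uc hm1 hN hX hy
  have h2 := uc_le_vy hm1 hN hX hy
  have h3 := vc_le_uc hm1 hN hX i
  have h4 := uc_le_vc hm1 hN hX i
  obtain ⟨h5, h6⟩ := uc_harnack hm1 hN hX hy h
  have hvy : vy m X y ≤ 27 / 25 * (27 / 25 * (27 / 25 * vc m X i)) := by linarith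
  have hvc : vc m X i ≤ 27 / 25 * (27 / 25 * (27 / 25 * vy m X y)) := by linarith
  have hvyp : 0 < vy m X y := by linarith
  have hs1 : sy m X y ≤ 400 / 399 * (100 / 99) * sc m X i := by
    unfold sy sc
    have : tau m y * dd m X y ≤ (400 / 399 * tau m (X i)) * (100 / 99 * dc m X i) :=
      mul_le_mul ht1 (by linarith) hd.le (by positivity)
    linarith
  have hs2 : sc m X i ≤ 401 / 400 * (101 / 100) * sy m X y := by
    unfold sy sc
    have : tau m (X i) * dc m X i ≤ (401 / 400 * tau m y) * (101 / 100 * dd m X y) :=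
      mul_le_mul ht2 (by linarith) hdi.le (by positivity)
    linarith
  have hscp : 0 < sc m X i := mul_pos htpi hdi
  have hsyp : 0 < sy m X y := mul_pos htp hd
  have hnu : 0 < nuc m X i := nuc_pos hm1 hN hX i
  have hsv : 0 < sy m X y * vy m X y := mul_pos hsyp hvyp
  refine ⟨?_, ?_, hc1, hc2⟩
  · have h7 : nuc m X i ≤ (401 / 400 * (101 / 100) * sy m X y) * (27 / 25 * (27 / 25 * (27 / 25 * vy m X y))) :=
      mul_le_mul hs2 hvc hv.le (by positivity)
    have h8 : (401 / 400 * (101 / 100) * sy m X y) * (27 / 25 * (27 / 25 * (27 / 25 * vy m X y)))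
        = (401 / 400 * (101 / 100) * (27 / 25) ^ 3) * (sy m X y * vy m X y) := by ring
    rw [h8] at h7
    have h9 : (401 / 400 * (101 / 100) * (27 / 25) ^ 3 : ℝ) ≤ 4 / 3 := by norm_num
    have h10 := mul_le_mul_of_nonneg_right h9 hsv.le
    linarith
  · have h7 : sy m X y * vy m X y ≤ (400 / 399 * (100 / 99) * sc m X i) * (27 / 25 * (27 / 25 * (27 / 25 * vc m X i))) :=
      mul_le_mul hs1 hvy hvyp.le (by positivity)
    have h8 : (400 / 399 * (100 / 99) * sc m X i) * (27 / 25 * (27 / 25 * (27 / 25 * vc m X i)))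
        = (400 / 399 * (100 / 99) * (27 / 25) ^ 3) * nuc m X i := by
      unfold nuc; ring
    rw [h8] at h7
    have h9 : (400 / 399 * (100 / 99) * (27 / 25) ^ 3 : ℝ) ≤ 4 / 3 := by norm_num
    have h10 := mul_le_mul_of_nonneg_right h9 hnu.le
    linarith

/-- moving an electron strictly inside the `D(y)` ball does not change `d(y)` -/
theorem dd_const_near {m : ℕ} (hm : 2 ≤ m) (hN : m ≤ N) {X : Conf N} (hX : Good m X) {y : E3} (hy : y ≠ 0)
    {i : Fin N} (h : ‖X i - y‖ < dd m X y) :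
    ∀ᶠ x' in 𝓝 (X i), dd m (Function.update X i x') y = dd m X y := by
  have h1 : ‖X i - y‖ < DD m X y := lt_of_lt_of_le h (min_le_left _ _)
  have hcont : Continuous fun x' : E3 => ‖x' - y‖ := by fun_prop
  have h2 : ∀ᶠ x' in 𝓝 (X i), ‖x' - y‖ < DD m X y := hcont.continuousAt.eventually_lt continuousAt_const h1
  filter_upwards [h2] with x' hx'
  unfold dd
  rw [DD_update_lt (by omega) hN X y i x' h1 hx']

end Ion
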