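import Pool.Agent.Lib.MP_69e010_mp.R4
import Pool.Agent.Lib.MP_69e010_mp.R5
import Pool.Agent.Lib.MP_69e010_mp.R7
import Pool.Agent.Lib.MP_69e010_mp.R8

/-!
# JOB R9: gradient estimates near an electron (5.1, second part)

* `slope_vy`: electron `i` moves, `‖X i - y‖ ≤ dd m X y / 100`. Apply `Sys.pert_bound` with `S = vSys .. X y`, `S' = vSys .. X' y` (`X' = update X i x'`), `t = vstr m X`, `t' = vstr m X'`, `A = (aff m X i).map ⟨some, _⟩` (or `image some`),
  `η = ‖x' - X i‖`: the index `none` is not in `A` (center `y` fixed, `dd m X' y = dd m X y` by `dd_const_near`, strength `0`), `some l` for `l ∉ aff m X i` is unchanged by `eventually_update` (R2).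
  So for `x'` near `X i`: `|vy' - vy| ≤ η 3000/ea² ∑_{b∈aff} GG_{none,some b} sc b vc b/dc b` (`vSys_v_some`: `v (some b) = vc b`). By `F2_v` (B7) for `vSys`: `GG_{none,some b} vc b ≤ 4/(ea⁵ dc b) vy`, `sc b ≤ ea¹² dc b` (`sc_le`),
  `1/dc b ≤ 2/dc i` (`aff_dc`), `|aff| ≤ 125 m + 1 ≤ 126 m = 1.26/ea` (`aff_card`): total `≤ η 3000·1.26·4·2 ea⁴/dc i vy ≤ η (1/10)/dc i vy`.
* `slope_ratio`: near `X i` the factor `sy m X' y = tau y * dd m X' y` is constant (`dd_const_near`; use `slope_congr`). `F = sy m X y * vy` (`slope_const_mul`), `G = nuc i` with slope `Lc m X i i * nuc ≤ 18/dc i * nuc` (`slope_nu`, `Lc_self_le`).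
  `slope_div`: `F/G` has slope `11/10 (1/10 + 18)/dc i (F/G) ≤ 20/dc i (F/G)`; `slope_sqrt`: `√(F/G)` has slope `3/5·20/dc i·√(F/G)`, and `F/G ≤ 4/3` (`ratio_nu`), `√(4/3) ≤ 1.16`: `12·1.16 ≤ 20`.
* `ratio_gsq_sqrt`: `gsq_le_slope`.
-/

open MeasureTheory Metric Finset Filter Topology

noncomputable section

namespace Ion

variable {N : ℕ}

theorem R9_ea {m : ℕ} (hm : 2 ≤ m) : 0 < ea m ∧ ea m ≤ 1 / 200 ∧ (m : ℝ) * ea m = 1 / 100 := by
  have hm' : (2 : ℝ) ≤ m := by exact_mod_cast hm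
  have h0 : (0 : ℝ) < 100 * (m : ℝ) := by positivity
  refine ⟨by unfold ea; positivity, ?_, ?_⟩
  · unfold ea
    exact one_div_le_one_div_of_le (by norm_num) (by linarith)
  · unfold ea
    field_simp

/-- a positive bound is satisfied near the point -/
theorem R9_small (p : E3) {c r : ℝ} (hr : 0 < r) : ∀ᶠ x' in 𝓝 p, ‖x' - p‖ * c ≤ r := by
  have h1 : Tendsto (fun x' : E3 => ‖x' - p‖ * c) (𝓝 p) (𝓝 0) := by
    have h2 : Continuous fun x' : E3 => ‖x' - p‖ * c := by fun_prop
    have h3 := h2.tendsto p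
    simpa using h3
  exact (h1.eventually_lt_const hr).mono fun _ h => h.le

/-- the sum over the affected electrons at the virtual trap -/
theorem R9_sum {m : ℕ} (hm : 2 ≤ m) (hN : m ≤ N) {X : Conf N} (hX : Good m X) {y : E3} (hy : y ≠ 0) (i : Fin N) :
    3000 / ea m ^ 2 * ∑ b ∈ aff m X i,
      (vSys (by omega : 1 ≤ m) hN X hX y hy).GG (vstr m X) none (some b) * sc m X b * vc m X b / dc m X b ≤
      1 / 10 / dc m X i * vy m X y := by
  have hm1 : 1 ≤ m := by omega
  obtain ⟨he0, he1, he2⟩ := R9_ea hm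
  set S := vSys hm1 hN X hX y hy with hS
  have hdi := dc_pos hm1 hN hX i
  have hvy := vy_pos hm1 hN hX hy
  have hadm : S.Adm (ea m ^ 5 / 2) (vstr m X) := by
    intro j
    have h1 := vstr_adm hm1 hN X hX y hy j
    refine ⟨h1.1, h1.2.trans ?_⟩
    have hd : 0 ≤ S.dj j := (S.pos _ (S.ne j)).le
    refine mul_le_mul_of_nonneg_right ?_ hd
    have h7 : ea m ^ 7 ≤ 1 / 2 := by
      calc ea m ^ 7 ≤ (1 / 200) ^ 7 := pow_le_pow_left₀ he0.le he1 7
        _ ≤ 1 / 2 := by norm_num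
    have h5 : 0 ≤ ea m ^ 5 := by positivity
    nlinarith
  have hterm : ∀ b ∈ aff m X i, S.GG (vstr m X) none (some b) * sc m X b * vc m X b / dc m X b ≤
      8 * ea m ^ 7 * vy m X y / dc m X i := by
    intro b hb
    have hdb := dc_pos hm1 hN hX b
    have h1 := S.F2_v hm1 hadm none (some b)
    rw [hS, vSys_v_some, vSys_v_none, ← hS] at h1
    have hdj : S.dj (some b) = dc m X b := rfl
    rw [hdj] at h1
    have h2 := sc_le hm1 hN hX b
    have h3 := aff_dc hm1 hN hX hb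
    have hsc := sc_pos hm1 hN hX b
    have h4 : S.GG (vstr m X) none (some b) * vc m X b * sc m X b ≤
        4 / (ea m ^ 5 * dc m X b) * vy m X y * (ea m ^ 12 * dc m X b) := by
      refine mul_le_mul h1 h2 hsc.le ?_
      positivity
    have h5 : 4 / (ea m ^ 5 * dc m X b) * vy m X y * (ea m ^ 12 * dc m X b) = 4 * ea m ^ 7 * vy m X y := by
      field_simp
    rw [h5] at h4
    rw [div_le_div_iff₀ hdb hdi]
    have h6 : S.GG (vstr m X) none (some b) * sc m X b * vc m X b ≤ 4 * ea m ^ 7 * vy m X y := by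
      linarith [h4]
    have h7 : 0 ≤ 4 * ea m ^ 7 * vy m X y := by positivity
    nlinarith
  have hcard := aff_card hm1 hN hX i
  have hcard' : ((aff m X i).card : ℝ) ≤ 126 * m := by
    have h1 : ((aff m X i).card : ℝ) ≤ 125 * m + 1 := by exact_mod_cast hcard
    have h2 : (2 : ℝ) ≤ m := by exact_mod_cast hm
    linarith
  have hsum := Finset.sum_le_sum hterm
  rw [Finset.sum_const, nsmul_eq_mul] at hsum
  have hq : 0 ≤ 8 * ea m ^ 7 * vy m X y / dc m X i := by positivity
  calc 3000 / ea m ^ 2 * ∑ b ∈ aff m X i, S.GG (vstr m X) none (some b) * sc m X b * vc m X b / dc m X b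
      ≤ 3000 / ea m ^ 2 * (126 * m * (8 * ea m ^ 7 * vy m X y / dc m X i)) := by
        refine mul_le_mul_of_nonneg_left (hsum.trans ?_) (by positivity)
        exact mul_le_mul_of_nonneg_right hcard' hq
    _ = 3024000 * (m * ea m) * ea m ^ 4 * vy m X y / dc m X i := by
        field_simp
        ring
    _ ≤ 1 / 10 / dc m X i * vy m X y := by
        rw [he2]
        have h8 : ea m ^ 4 ≤ (1 / 200) ^ 4 := pow_le_pow_left₀ he0.le he1 4
        have h9 : 3024000 * (1 / 100) * ea m ^ 4 ≤ 1 / 10 := by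
          calc 3024000 * (1 / 100) * ea m ^ 4 ≤ 3024000 * (1 / 100) * (1 / 200) ^ 4 := by
                exact mul_le_mul_of_nonneg_left h8 (by norm_num)
            _ ≤ 1 / 10 := by norm_num
        have h10 : 3024000 * (1 / 100) * ea m ^ 4 * vy m X y / dc m X i =
            (3024000 * (1 / 100) * ea m ^ 4) * (vy m X y / dc m X i) := by ring
        have h11 : 1 / 10 / dc m X i * vy m X y = 1 / 10 * (vy m X y / dc m X i) := by ring
        rw [h10, h11]
        exact mul_le_mul_of_nonneg_right h9 (by positivity)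

theorem R9_x_none {m : ℕ} (hm : 1 ≤ m) (hN : m ≤ N) (X : Conf N) (hX : Good m X) (y : E3) (hy : y ≠ 0) :
    (vSys hm hN X hX y hy).x none = y := rfl

theorem R9_x_some {m : ℕ} (hm : 1 ≤ m) (hN : m ≤ N) (X : Conf N) (hX : Good m X) (y : E3) (hy : y ≠ 0) (l : Fin N) :
    (vSys hm hN X hX y hy).x (some l) = X l := rfl

theorem R9_d {m : ℕ} (hm : 1 ≤ m) (hN : m ≤ N) (X : Conf N) (hX : Good m X) (y : E3) (hy : y ≠ 0) :
    (vSys hm hN X hX y hy).d = dd m X := rfl

theorem R9_dj_none {m : ℕ} (hm : 1 ≤ m) (hN : m ≤ N) (X : Conf N) (hX : Good m X) (y : E3) (hy : y ≠ 0) :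
    (vSys hm hN X hX y hy).dj none = dd m X y := by
  unfold Sys.dj
  rw [R9_x_none, R9_d]

theorem R9_dj_some {m : ℕ} (hm : 1 ≤ m) (hN : m ≤ N) (X : Conf N) (hX : Good m X) (y : E3) (hy : y ≠ 0) (l : Fin N) :
    (vSys hm hN X hX y hy).dj (some l) = dc m X l := by
  unfold Sys.dj dc
  rw [R9_x_some, R9_d]

theorem R9_vstr_none (m : ℕ) (X : Conf N) : vstr m X none = 0 := rfl

theorem R9_vstr_some (m : ℕ) (X : Conf N) (l : Fin N) : vstr m X (some l) = sc m X l := rfl

/-- the perturbation bound for the value at `y` -/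
theorem R9_pert {m : ℕ} (hm : 1 ≤ m) (hN : m ≤ N) {X X' : Conf N} (hX : Good m X) (hX' : Good m X') {y : E3}
    (hy : y ≠ 0) (A : Finset (Fin N)) {η : ℝ} (hη0 : 0 ≤ η)
    (h5 : ∀ l, l ∉ A → X' l = X l ∧ dc m X' l = dc m X l ∧ sc m X' l = sc m X l)
    (h2 : dd m X' y = dd m X y)
    (h3 : ∀ l : Fin N, η * ((A.card : ℝ) + 1) ≤ ea m ^ 3 * dc m X l)
    (hmove : ∀ j, ‖X' j - X j‖ ≤ η) (hdm : ∀ j, |dc m X' j - dc m X j| ≤ 2 * η)
    (hsm : ∀ j, |sc m X' j - sc m X j| ≤ 4 * (η / dc m X j) * sc m X j) :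
    |vy m X' y - vy m X y| ≤ η * (3000 / ea m ^ 2 * ∑ b ∈ A,
      (vSys hm hN X hX y hy).GG (vstr m X) none (some b) * sc m X b * vc m X b / dc m X b) := by
  have hA : ∀ j, j ∉ A.map Function.Embedding.some → (vSys hm hN X' hX' y hy).x j = (vSys hm hN X hX y hy).x j ∧
      (vSys hm hN X' hX' y hy).dj j = (vSys hm hN X hX y hy).dj j ∧ vstr m X' j = vstr m X j := by
    intro j hj
    cases j with
    | none =>
      rw [R9_x_none, R9_x_none, R9_dj_none, R9_dj_none, R9_vstr_none, R9_vstr_none]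
      exact ⟨rfl, h2, rfl⟩
    | some l =>
      rw [R9_x_some, R9_x_some, R9_dj_some, R9_dj_some, R9_vstr_some, R9_vstr_some]
      exact h5 l fun hc => hj (Finset.mem_map.2 ⟨l, hc, rfl⟩)
  have hc : ∀ j ∈ A.map Function.Embedding.some, η * (((A.map Function.Embedding.some).card : ℝ) + 1) ≤
      ea m ^ 3 * (vSys hm hN X hX y hy).dj j := by
    intro j hj
    obtain ⟨l, -, rfl⟩ := Finset.mem_map.1 hj
    rw [Finset.card_map, Function.Embedding.some_apply, R9_dj_some]
    exact h3 l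
  have hx : ∀ j ∈ A.map Function.Embedding.some,
      ‖(vSys hm hN X' hX' y hy).x j - (vSys hm hN X hX y hy).x j‖ ≤ η := by
    intro j hj
    obtain ⟨l, -, rfl⟩ := Finset.mem_map.1 hj
    rw [Function.Embedding.some_apply, R9_x_some, R9_x_some]
    exact hmove l
  have hd : ∀ j ∈ A.map Function.Embedding.some,
      |(vSys hm hN X' hX' y hy).dj j - (vSys hm hN X hX y hy).dj j| ≤ 2 * η := by
    intro j hj
    obtain ⟨l, -, rfl⟩ := Finset.mem_map.1 hj
    rw [Function.Embedding.some_apply, R9_dj_some, R9_dj_some]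
    exact hdm l
  have hs : ∀ j ∈ A.map Function.Embedding.some,
      |vstr m X' j - vstr m X j| ≤ 4 * (η / (vSys hm hN X hX y hy).dj j) * vstr m X j := by
    intro j hj
    obtain ⟨l, -, rfl⟩ := Finset.mem_map.1 hj
    rw [Function.Embedding.some_apply, R9_dj_some, R9_vstr_some, R9_vstr_some]
    exact hsm l
  have hpb := Sys.pert_bound hm (vSys hm hN X hX y hy) (vSys hm hN X' hX' y hy) (vstr_adm hm hN X hX y hy)
    (vstr_adm hm hN X' hX' y hy) (A.map Function.Embedding.some) hA hη0 hc hx hd hs none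
  have hnone : (none : Option (Fin N)) ∉ A.map Function.Embedding.some := by
    intro hc
    obtain ⟨l, -, hl⟩ := Finset.mem_map.1 hc
    exact Option.some_ne_none l hl
  rw [vSys_v_none, vSys_v_none, if_neg hnone, zero_add, Finset.sum_map] at hpb
  refine hpb.trans (le_of_eq ?_)
  congr 2
  refine Finset.sum_congr rfl fun b _ => ?_
  rw [Function.Embedding.some_apply, vSys_v_some, R9_dj_some, R9_vstr_some]

theorem slope_vy {m : ℕ} (hm : 2 ≤ m) (hN : m ≤ N) {X : Conf N} (hX : Good m X) {y : E3} (hy : y ≠ 0)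
    {i : Fin N} (h : ‖X i - y‖ ≤ dd m X y / 100) :
    Slope (fun X => vy m X y) X i (1 / 10 / dc m X i * vy m X y) := by
  have hm1 : 1 ≤ m := by omega
  obtain ⟨he0, -, -⟩ := R9_ea hm
  have hdy := dd_pos hm1 hN hX hy
  have hdc := fun l => dc_pos hm1 hN hX l
  have e1 := eventually_update hm1 hN hX i
  have e2 := dd_const_near hm hN hX hy (i := i) (by linarith)
  have e3 : ∀ᶠ x' in 𝓝 (X i), ∀ l : Fin N, ‖x' - X i‖ * (((aff m X i).card : ℝ) + 1) ≤ ea m ^ 3 * dc m X l :=
    Filter.eventually_all.2 fun l => R9_small (X i) (by have := hdc l; positivity)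
  have e4 : ∀ᶠ x' in 𝓝 (X i), ∀ l : Fin N, ‖x' - X i‖ * 1 ≤ dc m X l / 100 :=
    Filter.eventually_all.2 fun l => R9_small (X i) (by have := hdc l; positivity)
  show ∀ᶠ x' in 𝓝 (X i), |vy m (Function.update X i x') y - vy m X y| ≤
    1 / 10 / dc m X i * vy m X y * ‖x' - X i‖
  filter_upwards [e1, e2, e3, e4] with x' h1 h2 h3 h4
  obtain ⟨hX', h5⟩ := h1
  have hmove : ∀ j, ‖Function.update X i x' j - X j‖ ≤ ‖x' - X i‖ := by
    intro j
    by_cases hj : j = i
    · subst hj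
      rw [Function.update_self]
    · rw [Function.update_of_ne hj, sub_self, norm_zero]
      exact norm_nonneg _
  have hη := norm_nonneg (x' - X i)
  have hdm := dc_move hN hη hmove
  have hpb := R9_pert hm1 hN hX hX' hy (aff m X i) hη h5 h2 h3 hmove hdm
    (fun l => sc_move hm1 hN hX (by have := h4 l; linarith) (hmove l) (hdm l))
  refine hpb.trans ?_
  rw [mul_comm]
  exact mul_le_mul_of_nonneg_right (R9_sum hm hN hX hy i) hη

theorem slope_ratio {m : ℕ} (hm : 10 ^ 4 ≤ m) (hN : m ≤ N) {X : Conf N} (hX : Good m X) {y : E3} (hy : y ≠ 0)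
    {i : Fin N} (h : ‖X i - y‖ < dd m X y / 100) :
    Slope (fun X => √(sy m X y * vy m X y / nuc m X i)) X i (20 / dc m X i) := by
  have hm2 : 2 ≤ m := by omega
  have hm1 : 1 ≤ m := by omega
  have hdy := dd_pos hm1 hN hX hy
  have hdi := dc_pos hm1 hN hX i
  have hvy := vy_pos hm1 hN hX hy
  have hnu := nuc_pos hm1 hN hX i
  have htau := tau_pos hm1 hy
  have hsy : 0 < sy m X y := mul_pos htau hdy
  have h0 : ‖X i - y‖ ≤ dd m X y / 100 := h.le
  obtain ⟨-, hr, -, -⟩ := ratio_nu hm2 hN hX hy h0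
  have hF1 := slope_const_mul hsy.le (slope_vy hm2 hN hX hy h0)
  have hF2 : Slope (fun X => sy m X y * vy m X y) X i (1 / 10 / dc m X i * (sy m X y * vy m X y)) := by
    refine slope_congr (F := fun X' => sy m X y * vy m X' y) ?_ ?_
    · refine slope_mono hF1 (le_of_eq ?_)
      ring
    · filter_upwards [dd_const_near hm2 hN hX hy (i := i) (by linarith)] with x' hx'
      show sy m X y * _ = sy m (Function.update X i x') y * _
      unfold sy
      rw [hx']
  have hG : Slope (fun X => nuc m X i) X i (18 / dc m X i * nuc m X i) :=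
    slope_mono (slope_nu hm1 hN hX i i) (mul_le_mul_of_nonneg_right (Lc_self_le hm2 hN hX i) hnu.le)
  have hD := slope_div (F := fun X => sy m X y * vy m X y) (G := fun X => nuc m X i) (mul_pos hsy hvy) hnu
    (by positivity) (by positivity) hF2 hG
  have hq : 0 < sy m X y * vy m X y / nuc m X i := div_pos (mul_pos hsy hvy) hnu
  have hS := slope_sqrt (F := fun X => sy m X y * vy m X y / nuc m X i) hq
    (L := 11 / 10 * (1 / 10 / dc m X i + 18 / dc m X i)) (by positivity) hD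
  refine slope_mono hS ?_
  have hle : sy m X y * vy m X y / nuc m X i ≤ 4 / 3 := by
    rw [div_le_iff₀ hnu]
    exact hr
  have hsq : √(sy m X y * vy m X y / nuc m X i) ≤ 6 / 5 := by
    rw [show (6 / 5 : ℝ) = √((6 / 5) ^ 2) by rw [Real.sqrt_sq (by norm_num)]]
    exact Real.sqrt_le_sqrt (hle.trans (by norm_num))
  have h1 : 3 / 5 * (11 / 10 * (1 / 10 / dc m X i + 18 / dc m X i)) * √(sy m X y * vy m X y / nuc m X i) =
      (3 / 5 * (11 / 10) * (181 / 10) * √(sy m X y * vy m X y / nuc m X i)) / dc m X i := by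
    ring
  rw [h1]
  refine div_le_div_of_nonneg_right ?_ hdi.le
  nlinarith [Real.sqrt_nonneg (sy m X y * vy m X y / nuc m X i)]

theorem ratio_gsq_sqrt {m : ℕ} (hm : 10 ^ 4 ≤ m) (hN : m ≤ N) {X : Conf N} (hX : Good m X) {y : E3} (hy : y ≠ 0)
    {i : Fin N} (h : ‖X i - y‖ < dd m X y / 100) :
    gsq i (fun X => √(sy m X y * vy m X y / nuc m X i)) X ≤ (20 / dc m X i) ^ 2 := by
  have hdi := dc_pos (by omega : 1 ≤ m) hN hX i
  exact gsq_le_slope (by positivity) (slope_ratio hm hN hX hy h)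

end Ion
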