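import Pool.Agent.Lib.MP_69e010_mp.RDefs
import Pool.Agent.Lib.MP_69e010_mp.R4
import Pool.Agent.Lib.MP_69e010_mp.R5
import Pool.Agent.Lib.MP_69e010_mp.R6
import Pool.Agent.Lib.MP_69e010_mp.R7
import Pool.Agent.Lib.MP_69e010_mp.R8
import Pool.Agent.Lib.MP_69e010_mp.R9
import Pool.Agent.Lib.MP_69e010_mp.R12
import Pool.Agent.Lib.MP_69e010_mp.R14

/-!
# Interface of sections 4 and 5 (stream R): all theorems are proved in the files R1..R14
-/
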