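import Pool.Agent.Lib.MP_69e010_mp.TDefs

/-!
# JOB T10: the number of electrons in `CD0`, and the final arithmetic

* `chi_nonneg`, `chi_le_one`, `chi_mono`, `chi_ge`: `chi τ = τ⁴/5` for `τ ≤ 1`, `1 - 4/(5τ)` for `τ ≥ 1` (used for `τ ≥ 0`); for `τ ≥ L ≥ 1`: `chi τ ≥ 1 - 4/(5L) ≥ 1 - 1/L`.
* `pj_nonneg`, `pj_le_one`: `sin²`. `pj_half`: if `h_j ≥ (1 + 3c/2) Q` then the clamp is `≥ 1/2`, the angle is in `[π/4, π/2]`, `sin² ≥ 1/2`.
* `cl0_card`: if `cl0` is empty, trivial. Otherwise let `j ∈ cl0` with minimal `Rt R j` (`Finset.exists_min_image`). For `i ∈ cl0`, `i ≠ j`: `‖x_i‖ ≥ L Rt_i ≥ L Rt_j`, `L = 1600/ε ≥ 1`, so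
  `chi (‖x_i‖/Rt_j) ≥ 1 - 1/L = 1 - ε/1600` (`Rt_j ≥ R > 0`), hence `h_j ≥ (#cl0 - 1)(1 - ε/1600)` (all other terms `≥ 0`), and `p_j < 1/2` gives `h_j < (1 + 3/2 · ε/400) Q` (`pj_half`).
* `arith61`: `(1 - ε/50 + ε/1600)(1 + 3ε/800) ≤ (1 - ε/100)(1 - ε/1600)` for `0 ≤ ε ≤ 1`:
  left `= 1 - 25ε/1600 - 93 ε²/1280000`, right `= 1 - 17ε/1600 + ε²/160000`.
-/

open MeasureTheory Metric Finset Filter Topology

noncomputable section

namespace Ion

theorem chi_nonneg {τ : ℝ} (h : 0 ≤ τ) : 0 ≤ chi τ := by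
  unfold chi
  split_ifs with h1
  · positivity
  · push Not at h1
    have h2 : 4 / (5 * τ) ≤ 1 := by
      rw [div_le_one (by linarith)]
      linarith
    linarith

theorem chi_le_one {τ : ℝ} (h : 0 ≤ τ) : chi τ ≤ 1 := by
  unfold chi
  split_ifs with h1
  · have h2 : τ ^ 4 ≤ 1 := pow_le_one₀ h h1
    linarith
  · push Not at h1
    have h2 : 0 ≤ 4 / (5 * τ) := by positivity
    linarith

theorem chi_mono {τ τ' : ℝ} (h : 0 ≤ τ) (h' : τ ≤ τ') : chi τ ≤ chi τ' := by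
  unfold chi
  split_ifs with h1 h2 h2
  · have h3 : τ ^ 4 ≤ τ' ^ 4 := pow_le_pow_left₀ h h' 4
    linarith
  · push Not at h2
    have h3 : τ ^ 4 ≤ 1 := pow_le_one₀ h h1
    have h4 : 4 / (5 * τ') ≤ 4 / 5 := by
      rw [div_le_div_iff₀ (by linarith) (by norm_num)]
      linarith
    linarith
  · linarith
  · push Not at h1 h2
    have h4 : 4 / (5 * τ') ≤ 4 / (5 * τ) :=
      div_le_div_of_nonneg_left (by norm_num) (by linarith) (by linarith)
    linarith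

theorem T10_chi_one : chi 1 = 1 - 4 / (5 * 1) := by
  unfold chi
  rw [if_pos le_rfl]
  norm_num

theorem chi_ge {L τ : ℝ} (hL : 1 ≤ L) (h : L ≤ τ) : 1 - 1 / L ≤ chi τ := by
  have h1 : chi L = 1 - 4 / (5 * L) := by
    rcases eq_or_lt_of_le hL with h2 | h2
    · rw [← h2]
      exact T10_chi_one
    · unfold chi
      rw [if_neg (not_le.mpr h2)]
  have h2 : chi L ≤ chi τ := chi_mono (by linarith) h
  have h3 : 4 / (5 * L) ≤ 1 / L := by
    rw [div_le_div_iff₀ (by linarith) (by linarith)]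
    linarith
  linarith

theorem arith61 {ε Q : ℝ} (hε : 0 < ε) (hε' : ε ≤ 1) (hQ : 0 ≤ Q) :
    (1 - ε / 50 + ε / 1600) * (1 + (1 + 3 / 2 * (ε / 400)) * Q / (1 - ε / 1600)) ≤ 1 + (1 - ε / 100) * Q := by
  have h0 : 0 < 1 - ε / 1600 := by linarith
  have h1 : 0 ≤ 1 - ε / 50 + ε / 1600 := by linarith
  have key : (1 - ε / 50 + ε / 1600) * (1 + 3 / 2 * (ε / 400)) ≤ (1 - ε / 100) * (1 - ε / 1600) := by
    nlinarith [mul_pos hε hε]
  have h2 : (1 - ε / 50 + ε / 1600) * ((1 + 3 / 2 * (ε / 400)) * Q / (1 - ε / 1600)) ≤ (1 - ε / 100) * Q := by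
    rw [← mul_div_assoc, div_le_iff₀ h0]
    nlinarith [mul_le_mul_of_nonneg_right key hQ]
  nlinarith

namespace Sys

variable {ι : Type} [Fintype ι] [DecidableEq ι] {m : ℕ} (S : Sys ι m)

theorem cl0_card {ε R Q : ℝ} (hε : 0 < ε) (hε' : ε ≤ 1) (hR : 0 < R) (hQ : 0 < Q) :
    ((S.cl0 ε R Q).card : ℝ) ≤ 1 + (1 + 3 / 2 * (ε / 400)) * Q / (1 - ε / 1600) := by
  have h0 : 0 < 1 - ε / 1600 := by linarith
  rcases (S.cl0 ε R Q).eq_empty_or_nonempty with he | hne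
  · rw [he, Finset.card_empty, Nat.cast_zero]
    positivity
  · obtain ⟨j, hj, hmin⟩ := Finset.exists_min_image (S.cl0 ε R Q) (S.Rt R) hne
    have hL : (1 : ℝ) ≤ 1600 / ε := by
      rw [le_div_iff₀ hε]
      linarith
    have hRj : 0 < S.Rt R j := lt_of_lt_of_le hR (le_max_left _ _)
    have hterm : ∀ i ∈ S.cl0 ε R Q, 1 - ε / 1600 ≤ chi (‖S.x i‖ / S.Rt R j) := by
      intro i hi
      have h1 : 1600 / ε * S.Rt R i ≤ ‖S.x i‖ := (Finset.mem_filter.mp hi).2.1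
      have h2 : 1600 / ε * S.Rt R j ≤ ‖S.x i‖ :=
        le_trans (mul_le_mul_of_nonneg_left (hmin i hi) (by positivity)) h1
      have h3 : 1600 / ε ≤ ‖S.x i‖ / S.Rt R j := by
        rw [le_div_iff₀ hRj]
        exact h2
      have h4 := chi_ge hL h3
      have h5 : 1 / (1600 / ε) = ε / 1600 := by rw [one_div_div]
      rw [h5] at h4
      exact h4
    have hsum : ((S.cl0 ε R Q).card - 1 : ℝ) * (1 - ε / 1600) ≤ S.hj R j := by
      unfold Sys.hj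
      have h1 : ∑ i ∈ (S.cl0 ε R Q).erase j, (1 - ε / 1600) ≤
          ∑ i ∈ (S.cl0 ε R Q).erase j, chi (‖S.x i‖ / S.Rt R j) :=
        Finset.sum_le_sum fun i hi => hterm i (Finset.mem_of_mem_erase hi)
      have h2 : ∑ i ∈ (S.cl0 ε R Q).erase j, chi (‖S.x i‖ / S.Rt R j) ≤
          ∑ i ∈ univ.erase j, chi (‖S.x i‖ / S.Rt R j) := by
        refine Finset.sum_le_sum_of_subset_of_nonneg
          (Finset.erase_subset_erase j (Finset.subset_univ _)) fun i _ _ => chi_nonneg (by positivity)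
      rw [Finset.sum_const, nsmul_eq_mul, Finset.card_erase_of_mem hj] at h1
      have h3 : (((S.cl0 ε R Q).card - 1 : ℕ) : ℝ) = (S.cl0 ε R Q).card - 1 := by
        rw [Nat.cast_sub (Finset.card_pos.mpr hne), Nat.cast_one]
      rw [h3] at h1
      linarith
    have hh : S.hj R j < (1 + 3 / 2 * (ε / 400)) * Q := (Finset.mem_filter.mp hj).2.2
    have h6 : ((S.cl0 ε R Q).card - 1 : ℝ) ≤ (1 + 3 / 2 * (ε / 400)) * Q / (1 - ε / 1600) := by
      rw [le_div_iff₀ h0]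
      linarith
    linarith

end Sys

end Ion
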