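import Pool.Agent.Lib.MP_69e010_mp.T7

/-!
# JOB T8: boost lemma, second part

`local_mass`: let `k ∈ clCD` be unboosted (`W_k < ε/25`) and let `l ≠ k` with `‖x_l - x_k‖ ≤ d_k`.
-/

open MeasureTheory Metric Finset Filter Topology

noncomputable section

namespace Ion

namespace Sys

variable {ι : Type} [Fintype ι] [DecidableEq ι] {m : ℕ} (S : Sys ι m)

/-- far indices -/
def T8_far (k : ι) : Finset ι := univ.filter fun i => 5 * S.dj k ≤ ‖S.x i - S.x k‖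

/-- potential of the far electrons -/
def T8_P (ε : ℝ) (k : ι) (w : E3) : ℝ := ∑ i ∈ S.T8_far k, S.nu ε i * S.phi i w

theorem T8_P_cont (hm : 1 ≤ m) (ε : ℝ) (k : ι) : Continuous (S.T8_P ε k) := by
  unfold T8_P
  exact continuous_finsetSum _ fun i _ => (S.phi_continuous hm i).const_mul _

theorem T8_P_nonneg (hm : 1 ≤ m) {ε : ℝ} (hε : 0 < ε) (hε' : ε ≤ ea m ^ 12) (k : ι) (w : E3) :
    0 ≤ S.T8_P ε k w :=
  Finset.sum_nonneg fun i _ => mul_nonneg (S.nu_pos hm hε hε' i).le (S.phi_pos hm i w).le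

theorem T8_del_far (hm : 1 ≤ m) {k i : ι} (hi : i ∈ S.T8_far k) :
    S.del i ≤ 3 / 250 * ‖S.x i - S.x k‖ := by
  have h1 : 5 * S.dj k ≤ ‖S.x i - S.x k‖ := (Finset.mem_filter.mp hi).2
  have h2 := S.lip (S.x i) (S.x k)
  rw [abs_le] at h2
  have h3 : S.dj i ≤ S.dj k + ‖S.x i - S.x k‖ := by
    unfold dj; linarith [h2.2]
  have h4 : S.dj i ≤ 6 / 5 * ‖S.x i - S.x k‖ := by linarith
  have h5 := ea_le hm
  have h6 := ea_pos hm
  have h7 := S.dj_pos i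
  unfold del
  calc ea m * S.dj i ≤ 1 / 100 * (6 / 5 * ‖S.x i - S.x k‖) :=
        mul_le_mul h5 h4 h7.le (by norm_num)
    _ = 3 / 250 * ‖S.x i - S.x k‖ := by ring

theorem T8_av (hm : 1 ≤ m) (ε : ℝ) {k : ι} {p : E3} {r : ℝ} (hr : 0 < r)
    (h : ‖p - S.x k‖ + r ≤ 4 * S.dj k) : av p r (S.T8_P ε k) = S.T8_P ε k p := by
  unfold T8_P
  have h1 : av p r (fun w => ∑ i ∈ S.T8_far k, S.nu ε i * S.phi i w)
      = ∑ i ∈ S.T8_far k, av p r (fun w => S.nu ε i * S.phi i w) :=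
    av_sum (S.T8_far k) (fun i _ => (S.phi_continuous hm i).const_mul _) p r
  rw [show (fun w => ∑ i ∈ S.T8_far k, S.nu ε i * S.phi i w)
      = (fun w => ∑ i ∈ S.T8_far k, S.nu ε i * S.phi i w) from rfl] at h1
  refine h1.trans (Finset.sum_congr rfl fun i hi => ?_)
  rw [av_mul]
  congr 1
  refine S.av_phi_eq hm i hr ?_
  have h2 := S.T8_del_far hm hi
  have hdk := S.dj_pos k
  have h3 : 5 * S.dj k ≤ ‖S.x i - S.x k‖ := (Finset.mem_filter.mp hi).2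
  have h4 : ‖S.x i - S.x k‖ ≤ ‖p - S.x k‖ + ‖p - S.x i‖ := by
    have h5 : S.x i - S.x k = (p - S.x k) - (p - S.x i) := by abel
    rw [h5]
    exact norm_sub_le _ _
  linarith

theorem T8_P_center (hm : 1 ≤ m) {ε : ℝ} (hε : 0 < ε) (hε' : ε ≤ ea m ^ 12) {k : ι}
    (hu : S.WW ε k < ε / 25) : S.T8_P ε k (S.x k) ≤ ε / 25 := by
  have hdk := S.dj_pos k
  have h1 : S.T8_P ε k (S.x k) = ∑ i ∈ S.T8_far k, S.nu ε i * S.K i k := by
    unfold T8_P
    refine Finset.sum_congr rfl fun i hi => ?_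
    congr 1
    rw [S.K_symm hm i k]
    have h2 := S.T8_del_far hm hi
    have h3 : 5 * S.dj k ≤ ‖S.x i - S.x k‖ := (Finset.mem_filter.mp hi).2
    have h4 : S.del k ≤ 1 / 100 * S.dj k := by
      unfold del
      exact mul_le_mul_of_nonneg_right (ea_le hm) hdk.le
    have h5 : av (S.x k) (S.del k) (S.phi i) = S.phi i (S.x k) :=
      S.av_phi_eq hm i (S.del_pos hm k) (by
        rw [norm_sub_rev (S.x k) (S.x i)]
        linarith)
    exact h5.symm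
  rw [h1]
  refine le_trans ?_ hu.le
  unfold WW
  refine Finset.sum_le_sum_of_subset_of_nonneg ?_ fun i _ _ =>
    mul_nonneg (S.nu_pos hm hε hε' i).le (S.K_pos hm i k).le
  intro i hi
  rw [Finset.mem_erase]
  refine ⟨?_, Finset.mem_univ _⟩
  rintro rfl
  have h3 : 5 * S.dj i ≤ ‖S.x i - S.x i‖ := (Finset.mem_filter.mp hi).2
  rw [sub_self, norm_zero] at h3
  linarith

theorem T8_avj (hm : 1 ≤ m) {ε : ℝ} (hε : 0 < ε) (hε' : ε ≤ ea m ^ 12) {k l : ι}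
    (hu : S.WW ε k < ε / 25) (h : ‖S.x l - S.x k‖ ≤ S.dj k) :
    ∑ i ∈ S.T8_far k, S.nu ε i * S.K l i ≤ 3 * ε / 25 := by
  have hdk := S.dj_pos k
  have hdl : S.dj l ≤ 2 * S.dj k := by
    have h2 := S.lip (S.x l) (S.x k)
    rw [abs_le] at h2
    unfold dj at *
    linarith [h2.2]
  have hdel : S.del l ≤ 1 / 50 * S.dj k := by
    unfold del
    calc ea m * S.dj l ≤ 1 / 100 * (2 * S.dj k) :=
          mul_le_mul (ea_le hm) hdl (S.dj_pos l).le (by norm_num)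
      _ = 1 / 50 * S.dj k := by ring
  have h1 : ∑ i ∈ S.T8_far k, S.nu ε i * S.K l i = S.avj l (S.T8_P ε k) := by
    unfold avj T8_P
    have h2 : av (S.x l) (S.del l) (fun w => ∑ i ∈ S.T8_far k, S.nu ε i * S.phi i w)
        = ∑ i ∈ S.T8_far k, av (S.x l) (S.del l) (fun w => S.nu ε i * S.phi i w) :=
      av_sum (S.T8_far k) (fun i _ => (S.phi_continuous hm i).const_mul _) _ _
    refine Eq.trans ?_ h2.symm
    refine Finset.sum_congr rfl fun i _ => ?_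
    rw [av_mul]
    rfl
  rw [h1]
  unfold avj
  have hc := S.T8_P_center hm hε hε' hu
  have hPc := S.T8_P_nonneg hm hε hε' k (S.x k)
  refine av_le (S.T8_P_cont hm ε k) (S.del_pos hm l) fun w hw => ?_
  rw [mem_ball, dist_eq_norm] at hw
  have hwk : ‖w - S.x k‖ ≤ 102 / 100 * S.dj k := by
    have h3 : ‖w - S.x k‖ ≤ ‖w - S.x l‖ + ‖S.x l - S.x k‖ := by
      have := norm_add_le (w - S.x l) (S.x l - S.x k)
      rwa [sub_add_sub_cancel] at this
    linarith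
  have hr : 0 < 29 / 10 * S.dj k := by positivity
  rw [← S.T8_av hm ε hr (by linarith : ‖w - S.x k‖ + 29 / 10 * S.dj k ≤ 4 * S.dj k)]
  have h4 : av w (29 / 10 * S.dj k) (S.T8_P ε k)
      ≤ (4 * S.dj k / (29 / 10 * S.dj k)) ^ 3 * av (S.x k) (4 * S.dj k) (S.T8_P ε k) :=
    av_subset (S.T8_P_cont hm ε k) hr
      (ball_subset_ball' (by rw [dist_eq_norm]; linarith))
      (fun y _ => S.T8_P_nonneg hm hε hε' k y)
  have h4' : av (S.x k) (4 * S.dj k) (S.T8_P ε k) = S.T8_P ε k (S.x k) :=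
    S.T8_av hm ε (by positivity) (by rw [sub_self, norm_zero, zero_add])
  rw [h4'] at h4
  have h5 : 4 * S.dj k / (29 / 10 * S.dj k) = 40 / 29 := by
    field_simp
    norm_num
  rw [h5] at h4
  have h6 : ((40 / 29 : ℝ)) ^ 3 ≤ 3 := by norm_num
  have h7 := mul_le_mul_of_nonneg_right h6 hPc
  linarith

theorem local_mass (hm : 1 ≤ m) {ε : ℝ} (hε : 0 < ε) (hε' : ε ≤ ea m ^ 12) {k l : ι}
    (hk : k ∈ S.clCD ε) (hu : S.WW ε k < ε / 25) (hlk : l ≠ k) (h : ‖S.x l - S.x k‖ ≤ S.dj k) :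
    7 / 10 ≤ ∑ i ∈ univ.filter (fun i => i ≠ k ∧ ‖S.x i - S.x k‖ < 5 * S.dj k), S.vs ε i := by
  have hdk := S.dj_pos k
  have hε1 : ε ≤ 1 / 100 := (eps_small hm hε').trans (by norm_num)
  have hv : ∀ i, 0 < S.vs ε i := fun i => S.vs_pos hm hε hε' i
  set N := univ.filter (fun i => i ≠ k ∧ ‖S.x i - S.x k‖ < 5 * S.dj k) with hN
  have heq := S.v_eq hm (S.st_adm hm hε hε') l
  have h0 : S.v (S.st ε) l = S.vs ε l := rfl
  have hsum : ∑ i, S.K l i * (S.st ε i * S.v (S.st ε) i)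
      = ∑ i ∈ S.T8_far k, S.nu ε i * S.K l i + ∑ i ∈ univ.filter (fun i => ¬ 5 * S.dj k ≤ ‖S.x i - S.x k‖),
          S.nu ε i * S.K l i := by
    unfold T8_far
    rw [Finset.sum_filter_add_sum_filter_not]
    refine Finset.sum_congr rfl fun i _ => ?_
    unfold nu
    ring
  have hfar := S.T8_avj hm hε hε' hu h
  have hnear : ∑ i ∈ univ.filter (fun i => ¬ 5 * S.dj k ≤ ‖S.x i - S.x k‖), S.nu ε i * S.K l i
      ≤ 1 / 100 * ∑ i ∈ N, S.vs ε i + 1 / 100 := by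
    have h1 : ∑ i ∈ univ.filter (fun i => ¬ 5 * S.dj k ≤ ‖S.x i - S.x k‖), S.nu ε i * S.K l i
        ≤ ∑ i ∈ univ.filter (fun i => ¬ 5 * S.dj k ≤ ‖S.x i - S.x k‖), 1 / 100 * S.vs ε i := by
      refine Finset.sum_le_sum fun i _ => ?_
      rw [S.K_symm hm l i]
      exact S.nu_K_le hm hε hε' i l
    refine h1.trans ?_
    rw [← Finset.mul_sum]
    have h2 : univ.filter (fun i => ¬ 5 * S.dj k ≤ ‖S.x i - S.x k‖) ⊆ insert k N := by
      intro i hi
      rw [Finset.mem_filter, not_le] at hi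
      by_cases hik : i = k
      · rw [hik]; exact Finset.mem_insert_self _ _
      · refine Finset.mem_insert_of_mem ?_
        rw [hN, Finset.mem_filter]
        exact ⟨Finset.mem_univ _, hik, hi.2⟩
    have h3 : ∑ i ∈ univ.filter (fun i => ¬ 5 * S.dj k ≤ ‖S.x i - S.x k‖), S.vs ε i
        ≤ ∑ i ∈ insert k N, S.vs ε i :=
      Finset.sum_le_sum_of_subset_of_nonneg h2 fun i _ _ => (hv i).le
    have hkN : k ∉ N := by
      rw [hN, Finset.mem_filter]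
      rintro ⟨-, h4, -⟩
      exact h4 rfl
    rw [Finset.sum_insert hkN] at h3
    have h5 := S.vs_le_one hm hε hε' k
    linarith
  have hl : S.vs ε l ≤ ∑ i ∈ N, S.vs ε i := by
    refine Finset.single_le_sum (f := fun i => S.vs ε i) (fun i _ => (hv i).le) ?_
    rw [hN, Finset.mem_filter]
    exact ⟨Finset.mem_univ _, hlk, by linarith⟩
  rw [h0, hsum] at heq
  linarith

theorem boost2 (hm : 1 ≤ m) {ε : ℝ} (hε : 0 < ε) (hε' : ε ≤ ea m ^ 12)
    (hD3 : ∀ k, S.dj k < ‖S.x k‖ / 4 → ∃ l, l ≠ k ∧ ‖S.x l - S.x k‖ ≤ S.dj k) {J : Finset ι}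
    (hJ : J ⊆ S.clCD ε) :
    7 / 10 * ((S.unb2 ε J).card : ℝ)
      ≤ ∑ i ∈ univ.filter (fun i => i ∉ J ∧ ε ≤ ‖S.x i‖), S.vs ε i := by
  have hv : ∀ i, 0 < S.vs ε i := fun i => S.vs_pos hm hε hε' i
  have hmem : ∀ k ∈ S.unb2 ε J, k ∈ S.unb ε J ∧ k ∈ J ∧ k ∈ S.clCD ε ∧ S.WW ε k < ε / 25 ∧
      ∀ j ∈ J, j ≠ k → 5 * S.dj k ≤ ‖S.x j - S.x k‖ := by
    intro k hk
    obtain ⟨h1, h2⟩ := Finset.mem_filter.mp hk
    obtain ⟨h3, h4⟩ := Finset.mem_filter.mp h1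
    exact ⟨h1, h3, hJ h3, h4, h2⟩
  have hlow : ∀ k ∈ S.unb2 ε J,
      7 / 10 ≤ ∑ i ∈ univ.filter (fun i => i ≠ k ∧ ‖S.x i - S.x k‖ < 5 * S.dj k), S.vs ε i := by
    intro k hk
    obtain ⟨-, -, h3, h4, -⟩ := hmem k hk
    obtain ⟨-, -, h5, h6⟩ := S.clCD_facts hε h3
    obtain ⟨l, hl, hl'⟩ := hD3 k (by
      have : 0 < ‖S.x k‖ := lt_trans (by positivity) h5
      linarith)
    exact S.local_mass hm hε hε' h3 h4 hl hl'
  have hdisj : Set.PairwiseDisjoint (S.unb2 ε J : Set ι)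
      (fun k => univ.filter (fun i => i ≠ k ∧ ‖S.x i - S.x k‖ < 5 * S.dj k)) := by
    intro k hk k' hk' hne
    rw [Function.onFun, Finset.disjoint_left]
    intro i hi hi'
    rw [Finset.mem_filter] at hi hi'
    obtain ⟨h1, -⟩ := hmem k hk
    obtain ⟨h1', -⟩ := hmem k' hk'
    have s1 := S.unb_sep hm hε hε' hJ h1 h1' hne
    have s2 := S.unb_sep hm hε hε' hJ h1' h1 hne.symm
    have h3 : ‖S.x k' - S.x k‖ ≤ ‖S.x i - S.x k'‖ + ‖S.x i - S.x k‖ := by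
      have h4 : S.x k' - S.x k = (S.x i - S.x k) - (S.x i - S.x k') := by abel
      rw [h4]
      have := norm_sub_le (S.x i - S.x k) (S.x i - S.x k')
      linarith
    have h5 : ‖S.x k - S.x k'‖ = ‖S.x k' - S.x k‖ := norm_sub_rev _ _
    have h6 := hi.2.2
    have h7 := hi'.2.2
    linarith
  calc 7 / 10 * ((S.unb2 ε J).card : ℝ) = ∑ k ∈ S.unb2 ε J, (7 / 10 : ℝ) := by
        rw [Finset.sum_const, nsmul_eq_mul]; ring
    _ ≤ ∑ k ∈ S.unb2 ε J, ∑ i ∈ univ.filter (fun i => i ≠ k ∧ ‖S.x i - S.x k‖ < 5 * S.dj k), S.vs ε i :=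
        Finset.sum_le_sum hlow
    _ = ∑ i ∈ (S.unb2 ε J).biUnion
          (fun k => univ.filter (fun i => i ≠ k ∧ ‖S.x i - S.x k‖ < 5 * S.dj k)), S.vs ε i :=
        (Finset.sum_biUnion hdisj).symm
    _ ≤ _ := by
        refine Finset.sum_le_sum_of_subset_of_nonneg ?_ fun i _ _ => (hv i).le
        intro i hi
        rw [Finset.mem_biUnion] at hi
        obtain ⟨k, hk, hik⟩ := hi
        rw [Finset.mem_filter] at hik ⊢
        obtain ⟨-, hkJ, hkC, -, hk5⟩ := hmem k hk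
        obtain ⟨-, -, h5, h6⟩ := S.clCD_facts hε hkC
        refine ⟨Finset.mem_univ _, fun hiJ => ?_, ?_⟩
        · have := hk5 i hiJ hik.2.1
          linarith [hik.2.2]
        · have h7 : ‖S.x k‖ ≤ ‖S.x i‖ + ‖S.x i - S.x k‖ := by
            have := norm_sub_le (S.x i) (S.x i - S.x k)
            rwa [sub_sub_cancel] at this
          have h8 := hik.2.2
          linarith

end Sys

end Ion
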