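import Pool.Agent.Lib.MP_69e010_mp.TDefs

/-!
# JOB T2: packing lemma

If the centers `x_j` (`j ∈ J`) lie in the closed ball of radius `r` about `0` and `d_j ≥ ρ`, `0 < ρ ≤ r`, then `#J ≤ m (3r/ρ)³`.

Proof. For every point `w` the set `{j ∈ J : ‖w - x_j‖ < ρ/2}` has at most `m` elements: if it is nonempty choose `j₀` in it; all its members satisfy `‖x_j - x_{j₀}‖ < ρ ≤ d(x_{j₀})`, so it is
contained in `{j : ‖x_j - y‖ < d y}` for `y = x_{j₀}` and `S.card` applies. Integrate `∑_{j∈J} 1_{ball (x_j) (ρ/2)}(w) ≤ m 1_{ball 0 (r+ρ/2)}(w)`... (all the balls are contained in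
`ball 0 (r + ρ)`; use closed/open balls as convenient, e.g. `ball 0 (3r/2)` if you argue with `‖w‖ < r + ρ/2 ≤ 3r/2`):
`#J · vol(ball 0 (ρ/2)) ≤ m · vol(ball 0 (3r/2))`, and `vol_ball` (A4): `vol = 4/3 π r³`. So `#J (ρ/2)³ ≤ m (3r/2)³`.
-/

open MeasureTheory Metric Finset Filter Topology

noncomputable section

namespace Ion

namespace Sys

variable {ι : Type} [Fintype ι] {m : ℕ} (S : Sys ι m)

open Classical in
theorem T2_point (hm : 1 ≤ m) {J : Finset ι} {ρ : ℝ}
    (h2 : ∀ j ∈ J, ρ ≤ S.dj j) (w : E3) :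
    (J.filter fun j => w ∈ ball (S.x j) (ρ / 2)).card ≤ m := by
  classical
  rcases (J.filter fun j => w ∈ ball (S.x j) (ρ / 2)).eq_empty_or_nonempty with h | ⟨j₀, h⟩
  · rw [h]; simp
  · rw [Finset.mem_filter, mem_ball, dist_eq_norm] at h
    refine le_trans (Finset.card_le_card ?_) (S.card (S.x j₀))
    intro j hj
    rw [Finset.mem_filter, mem_ball, dist_eq_norm] at hj
    rw [Finset.mem_filter]
    refine ⟨Finset.mem_univ _, ?_⟩
    have h3 : ‖S.x j - S.x j₀‖ ≤ ‖w - S.x j‖ + ‖w - S.x j₀‖ := by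
      have h4 : S.x j - S.x j₀ = (w - S.x j₀) - (w - S.x j) := by abel
      rw [h4]
      refine (norm_sub_le _ _).trans (le_of_eq (add_comm _ _))
    have h5 : ρ ≤ S.d (S.x j₀) := h2 j₀ h.1
    linarith [hj.2, h.2]

theorem T2_vol (hm : 1 ≤ m) {J : Finset ι} {r ρ : ℝ} (hρ : 0 < ρ) (hr : ρ ≤ r)
    (h1 : ∀ j ∈ J, ‖S.x j‖ ≤ r) (h2 : ∀ j ∈ J, ρ ≤ S.dj j) :
    ∑ j ∈ J, volume (ball (S.x j) (ρ / 2)) ≤ (m : ENNReal) * volume (ball (0 : E3) (3 * r / 2)) := by
  classical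
  have h3 : ∀ j : ι, volume (ball (S.x j) (ρ / 2))
      = ∫⁻ w : E3, (ball (S.x j) (ρ / 2)).indicator (fun _ => (1 : ENNReal)) w := by
    intro j
    rw [lintegral_indicator measurableSet_ball, setLIntegral_const, one_mul]
  have h4 : volume (ball (0 : E3) (3 * r / 2))
      = ∫⁻ w : E3, (ball (0 : E3) (3 * r / 2)).indicator (fun _ => (1 : ENNReal)) w := by
    rw [lintegral_indicator measurableSet_ball, setLIntegral_const, one_mul]
  rw [Finset.sum_congr rfl fun j _ => h3 j, h4]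
  rw [← lintegral_finsetSum, ← lintegral_const_mul]
  · refine lintegral_mono fun w => ?_
    have h5 : ∑ j ∈ J, (ball (S.x j) (ρ / 2)).indicator (fun _ => (1 : ENNReal)) w
        = ((J.filter fun j => w ∈ ball (S.x j) (ρ / 2)).card : ENNReal) := by
      rw [Finset.card_filter, Nat.cast_sum]
      refine Finset.sum_congr rfl fun j _ => ?_
      by_cases hw : w ∈ ball (S.x j) (ρ / 2)
      · rw [Set.indicator_of_mem hw, if_pos hw, Nat.cast_one]
      · rw [Set.indicator_of_notMem hw, if_neg hw, Nat.cast_zero]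
    change ∑ j ∈ J, (ball (S.x j) (ρ / 2)).indicator (fun _ => (1 : ENNReal)) w ≤ _
    rw [h5]
    by_cases hw : w ∈ ball (0 : E3) (3 * r / 2)
    · rw [Set.indicator_of_mem hw, mul_one]
      exact_mod_cast S.T2_point hm h2 w
    · rw [Set.indicator_of_notMem hw, mul_zero]
      have h6 : (J.filter fun j => w ∈ ball (S.x j) (ρ / 2)) = ∅ := by
        rw [Finset.filter_eq_empty_iff]
        intro j hj hwj
        apply hw
        rw [mem_ball, dist_eq_norm] at hwj ⊢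
        have h7 := h1 j hj
        have h8 : ‖w - 0‖ ≤ ‖w - S.x j‖ + ‖S.x j‖ := by
          rw [sub_zero]
          have h9 : w = (w - S.x j) + S.x j := by abel
          conv_lhs => rw [h9]
          exact norm_add_le _ _
        linarith
      rw [h6]
      simp
  · exact measurable_const.indicator measurableSet_ball
  · intro j _
    exact measurable_const.indicator measurableSet_ball

theorem packing (hm : 1 ≤ m) {J : Finset ι} {r ρ : ℝ} (hρ : 0 < ρ) (hr : ρ ≤ r)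
    (h1 : ∀ j ∈ J, ‖S.x j‖ ≤ r) (h2 : ∀ j ∈ J, ρ ≤ S.dj j) :
    (J.card : ℝ) ≤ m * (3 * r / ρ) ^ 3 := by
  have hr0 : 0 < r := lt_of_lt_of_le hρ hr
  have h3 := S.T2_vol hm hρ hr h1 h2
  have hfin : (m : ENNReal) * volume (ball (0 : E3) (3 * r / 2)) ≠ ⊤ :=
    ENNReal.mul_ne_top (ENNReal.natCast_ne_top m) measure_ball_lt_top.ne
  have h4 := ENNReal.toReal_mono hfin h3
  rw [ENNReal.toReal_sum (fun j _ => measure_ball_lt_top.ne), ENNReal.toReal_mul,
    ENNReal.toReal_natCast] at h4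
  have h5 : ∀ (p : E3) {a : ℝ}, 0 ≤ a → (volume (ball p a)).toReal = 4 / 3 * Real.pi * a ^ 3 :=
    fun p a ha => vol_ball p ha
  rw [Finset.sum_congr rfl fun j _ => h5 (S.x j) (by positivity : 0 ≤ ρ / 2),
    h5 0 (by positivity : 0 ≤ 3 * r / 2), Finset.sum_const, nsmul_eq_mul] at h4
  have hpi := Real.pi_pos
  have h6 : (J.card : ℝ) * (ρ / 2) ^ 3 ≤ m * (3 * r / 2) ^ 3 := by
    have h7 : (4 / 3 * Real.pi) * ((J.card : ℝ) * (ρ / 2) ^ 3)
        ≤ (4 / 3 * Real.pi) * (m * (3 * r / 2) ^ 3) := by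
      linarith
    exact le_of_mul_le_mul_left h7 (by positivity)
  have h8 : (m : ℝ) * (3 * r / ρ) ^ 3 = m * (3 * r / 2) ^ 3 / (ρ / 2) ^ 3 := by
    field_simp
  rw [h8, le_div_iff₀ (by positivity)]
  exact h6

end Sys

end Ion
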