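import Pool.Agent.Lib.MP_69e010_mp.T7
import Pool.Agent.Lib.MP_69e010_mp.T2

/-!
# JOB T9: pointwise estimates for the classes `D`, `CDin`, `CD+`

Write `q = ν_j/d_j² = τ_j v_j/d_j` (`nu_div_sq`), `c_j ≤ 1.01 v_j`, `c_j ≤ 1`, `ε ≤ 10⁻²⁴`.
-/

open MeasureTheory Metric Finset Filter Topology

noncomputable section

namespace Ion

namespace Sys

variable {ι : Type} [Fintype ι] [DecidableEq ι] {m : ℕ} (S : Sys ι m)

theorem T9_q_pos (hm : 1 ≤ m) {ε : ℝ} (hε : 0 < ε) (hε' : ε ≤ ea m ^ 12) (j : ι) :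
    0 < S.nu ε j / S.dj j ^ 2 :=
  div_pos (S.nu_pos hm hε hε' j) (pow_pos (S.dj_pos j) 2)

theorem T9_vs_le (hm : 1 ≤ m) {ε : ℝ} (hε : 0 < ε) (hε' : ε ≤ ea m ^ 12) {j : ι} (hj : j ∈ S.clD ε) :
    S.vs ε j ≤ 50 * (S.nu ε j / S.dj j ^ 2) := by
  have hj' : S.dj j ≤ 50 * S.tau ε j := by
    simp only [clD, Finset.mem_filter, Finset.mem_univ, true_and] at hj
    exact hj.2
  have hd := S.dj_pos j
  have hv := S.vs_pos hm hε hε' j
  rw [S.nu_div_sq hm, ← mul_div_assoc, le_div_iff₀ hd]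
  have := mul_le_mul_of_nonneg_left hj' hv.le
  linarith

theorem clD_vs (hm : 1 ≤ m) {ε : ℝ} (hε : 0 < ε) (hε' : ε ≤ ea m ^ 12) {j : ι} (hj : j ∈ S.clD ε) :
    S.vs ε j ≤ 1 / 10 * (5000 * (S.nu ε j / S.dj j ^ 2)) := by
  have h1 := S.T9_vs_le hm hε hε' hj
  have h2 := S.T9_q_pos hm hε hε' j
  linarith

theorem T9_eps (hm : 1 ≤ m) {ε : ℝ} (hε' : ε ≤ ea m ^ 12) : ε ≤ 1 :=
  (eps_small hm hε').trans (by norm_num)

theorem T9_small (hm : 1 ≤ m) {ε : ℝ} (hε : 0 < ε) (hε' : ε ≤ ea m ^ 12) (j : ι) :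
    ε / 1600 * S.vs ε j ≤ 1 / 1600 * S.vs ε j := by
  have hv := S.vs_pos hm hε hε' j
  have h1 := T9_eps hm hε'
  exact mul_le_mul_of_nonneg_right (by linarith) hv.le

theorem clD_est (hm : 1 ≤ m) {ε : ℝ} (hε : 0 < ε) (hε' : ε ≤ ea m ^ 12) {j : ι} (hj : j ∈ S.clD ε) :
    5000 * (S.nu ε j / S.dj j ^ 2)
      ≤ 10000 * (S.nu ε j / S.dj j ^ 2) - (S.cost ε j + ε / 1600 * S.vs ε j + 2000 * (S.nu ε j / S.dj j ^ 2)) := by
  have h1 := S.T9_vs_le hm hε hε' hj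
  have h2 := S.T9_q_pos hm hε hε' j
  have h3 := S.cost_le_vs hm hε hε' j
  have h4 := S.T9_small hm hε hε' j
  have hv := S.vs_pos hm hε hε' j
  linarith

theorem clCD_est (hm : 1 ≤ m) {ε : ℝ} (hε : 0 < ε) (hε' : ε ≤ ea m ^ 12) (j : ι) :
    -(S.cost ε j + ε / 1600)
      ≤ 10000 * (S.nu ε j / S.dj j ^ 2) - (S.cost ε j + ε / 1600 * S.vs ε j + 2000 * (S.nu ε j / S.dj j ^ 2)) := by
  have h2 := S.T9_q_pos hm hε hε' j
  have hv1 := S.vs_le_one hm hε hε' j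
  have h5 : ε / 1600 * S.vs ε j ≤ ε / 1600 * 1 := mul_le_mul_of_nonneg_left hv1 (by positivity)
  linarith

theorem clCD_est2 (hm : 1 ≤ m) {ε : ℝ} (hε : 0 < ε) (hε' : ε ≤ ea m ^ 12) (j : ι) :
    -2 ≤ 10000 * (S.nu ε j / S.dj j ^ 2) - (S.cost ε j + ε / 1600 * S.vs ε j + 2000 * (S.nu ε j / S.dj j ^ 2)) := by
  have h1 := S.clCD_est hm hε hε' j
  have h2 := S.cost_le_one hm hε hε' j
  have h3 := T9_eps hm hε'
  linarith

theorem clP_vs (hm : 1 ≤ m) {ε : ℝ} (hε : 0 < ε) (hε' : ε ≤ ea m ^ 12) {R Q : ℝ} (hR : 0 < R)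
    (hQ : 1280 * R / ε ^ 3 ≤ Q) {j : ι} (hj : j ∈ S.clP ε R Q) :
    S.vs ε j ≤ 1 / 10 * (S.nu ε j * (ε / 400 * Q) / (16 * R)) := by
  have hj' : j ∈ S.clCD ε := (Finset.mem_filter.mp hj).1
  obtain ⟨ht, hd, -, -⟩ := S.clCD_facts hε hj'
  have hv := S.vs_pos hm hε hε' j
  have hnu : 50 * ε ^ 2 * S.vs ε j ≤ S.nu ε j := by
    rw [S.nu_eq, ht]
    have h1 : ε * (50 * ε) * S.vs ε j ≤ ε * S.dj j * S.vs ε j :=
      mul_le_mul_of_nonneg_right (mul_le_mul_of_nonneg_left hd.le hε.le) hv.le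
    linarith
  have hQ' : 1280 * R ≤ Q * ε ^ 3 := by
    rwa [div_le_iff₀ (by positivity)] at hQ
  have hQ0 : 0 < Q := lt_of_lt_of_le (by positivity) hQ
  have h2 : 50 * ε ^ 2 * S.vs ε j * (ε / 400 * Q) ≤ S.nu ε j * (ε / 400 * Q) :=
    mul_le_mul_of_nonneg_right hnu (by positivity)
  have h3 : 160 * R * S.vs ε j ≤ 50 * ε ^ 2 * S.vs ε j * (ε / 400 * Q) := by
    have h4 := mul_le_mul_of_nonneg_right hQ' hv.le
    linarith
  have h5 : 160 * R * S.vs ε j ≤ S.nu ε j * (ε / 400 * Q) := h3.trans h2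
  have h6 : 10 * S.vs ε j ≤ S.nu ε j * (ε / 400 * Q) / (16 * R) := by
    rw [le_div_iff₀ (by positivity)]
    linarith
  linarith

theorem clP_est (hm : 1 ≤ m) {ε : ℝ} (hε : 0 < ε) (hε' : ε ≤ ea m ^ 12) {R Q : ℝ} (hR : 0 < R)
    (hQ : 1280 * R / ε ^ 3 ≤ Q) {j : ι} (hj : j ∈ S.clP ε R Q) {p : ℝ} (hp : 1 / 2 ≤ p) :
    S.nu ε j * (ε / 400 * Q) / (16 * R)
      ≤ S.nu ε j * (p * (ε / 400 * Q / (4 * R)))
        + (10000 * (S.nu ε j / S.dj j ^ 2) - (S.cost ε j + ε / 1600 * S.vs ε j + 2000 * (S.nu ε j / S.dj j ^ 2))) := by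
  have h1 := S.clP_vs hm hε hε' hR hQ hj
  have h2 := S.T9_q_pos hm hε hε' j
  have h3 := S.cost_le_vs hm hε hε' j
  have h4 := S.T9_small hm hε hε' j
  have hv := S.vs_pos hm hε hε' j
  have hnu := S.nu_pos hm hε hε' j
  have hQ0 : 0 < Q := lt_of_lt_of_le (by positivity) hQ
  have h5 : 2 * (S.nu ε j * (ε / 400 * Q) / (16 * R)) ≤ S.nu ε j * (p * (ε / 400 * Q / (4 * R))) := by
    have h6 : S.nu ε j * (1 / 2 * (ε / 400 * Q / (4 * R))) ≤ S.nu ε j * (p * (ε / 400 * Q / (4 * R))) :=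
      mul_le_mul_of_nonneg_left (mul_le_mul_of_nonneg_right hp (by positivity)) hnu.le
    have h7 : 2 * (S.nu ε j * (ε / 400 * Q) / (16 * R)) = S.nu ε j * (1 / 2 * (ε / 400 * Q / (4 * R))) := by
      field_simp
      ring
    rw [h7]
    exact h6
  linarith

theorem clIn_card (hm : 1 ≤ m) {ε : ℝ} (hε : 0 < ε) (hε' : ε ≤ ea m ^ 12) {R : ℝ} (hR : (1600 / ε) ^ 2 ≤ R) :
    ((S.clIn ε R).card : ℝ) ≤ m * (3 * (1600 / ε * R) / (50 * ε)) ^ 3 := by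
  have hε1 := T9_eps hm hε'
  have hL : 1600 ≤ 1600 / ε := by
    rw [le_div_iff₀ hε]
    nlinarith
  have hLR : 1600 / ε ≤ R := by nlinarith
  have hR1 : 1600 ≤ R := hL.trans hLR
  refine S.packing hm (by positivity) ?_ ?_ ?_
  · nlinarith
  · intro j hj
    obtain ⟨hj1, hj2⟩ := Finset.mem_filter.mp hj
    obtain ⟨-, -, -, hd⟩ := S.clCD_facts hε hj1
    have hdp := S.dj_pos j
    have hRt : S.Rt R j = R := by
      unfold Rt
      refine max_eq_left ?_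
      by_contra hc
      rw [not_le] at hc
      have h1 : S.Rt R j = √(S.dj j) := by
        unfold Rt
        exact max_eq_right hc.le
      rw [h1] at hj2
      have h2 : √(S.dj j) * √(S.dj j) = S.dj j := Real.mul_self_sqrt hdp.le
      have h3 : 0 < √(S.dj j) := Real.sqrt_pos.mpr hdp
      have h4 : R * √(S.dj j) ≤ √(S.dj j) * √(S.dj j) := mul_le_mul_of_nonneg_right hc.le h3.le
      have h5 : 1600 / ε * √(S.dj j) ≤ R * √(S.dj j) := mul_le_mul_of_nonneg_right hLR h3.le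
      have h6 : 0 < S.dj j := hdp
      linarith
    rw [hRt] at hj2
    exact hj2.le
  · intro j hj
    obtain ⟨hj1, -⟩ := Finset.mem_filter.mp hj
    obtain ⟨-, h, -, -⟩ := S.clCD_facts hε hj1
    exact h.le

end Sys

end Ion
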