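import Pool.Agent.Lib.MP_69e010_mp.T6
import Pool.Agent.Lib.MP_69e010_mp.T8
import Pool.Agent.Lib.MP_69e010_mp.T9
import Pool.Agent.Lib.MP_69e010_mp.T10

/-!
# Theorem 6.1 (assembly)
-/

open MeasureTheory Metric Finset Filter Topology

noncomputable section

namespace Ion

namespace Sys

variable {ι : Type} [Fintype ι] [DecidableEq ι] {m : ℕ} (S : Sys ι m)

theorem clCD_split (ε R Q : ℝ) (f : ι → ℝ) :
    ∑ j ∈ S.clCD ε, f j = ∑ j ∈ S.clIn ε R, f j + ∑ j ∈ S.clP ε R Q, f j + ∑ j ∈ S.cl0 ε R Q, f j := by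
  have h1 : ∑ j ∈ S.clCD ε, f j = ∑ j ∈ S.clIn ε R, f j
      + ∑ j ∈ (S.clCD ε).filter (fun j => ¬ ‖S.x j‖ < 1600 / ε * S.Rt R j), f j := by
    rw [clIn, Finset.sum_filter_add_sum_filter_not]
  have h2 : ∑ j ∈ (S.clCD ε).filter (fun j => ¬ ‖S.x j‖ < 1600 / ε * S.Rt R j), f j
      = ∑ j ∈ S.clP ε R Q, f j + ∑ j ∈ S.cl0 ε R Q, f j := by
    rw [← Finset.sum_filter_add_sum_filter_not _ (fun j => (1 + 3 / 2 * (ε / 400)) * Q ≤ S.hj R j)]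
    congr 1
    · refine Finset.sum_congr ?_ (fun _ _ => rfl)
      ext j
      simp only [clP, Finset.mem_filter, not_lt]
      tauto
    · refine Finset.sum_congr ?_ (fun _ _ => rfl)
      ext j
      simp only [cl0, Finset.mem_filter, not_lt, not_le]
      tauto
  rw [h1, h2]
  ring

theorem crowd61 (ε R Q : ℝ) (f : ι → ℝ) :
    ∑ j ∈ S.crowd, f j = ∑ j ∈ S.clD ε, f j + ∑ j ∈ S.clIn ε R, f j
      + ∑ j ∈ S.clP ε R Q, f j + ∑ j ∈ S.cl0 ε R Q, f j := by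
  have h1 : ∑ j ∈ S.crowd, f j = ∑ j ∈ S.clD ε, f j + ∑ j ∈ S.clCD ε, f j := by
    rw [← Finset.sum_filter_add_sum_filter_not S.crowd (fun j => S.dj j ≤ 50 * S.tau ε j)]
    congr 1
    · refine Finset.sum_congr ?_ (fun _ _ => rfl)
      ext j
      simp only [clD, crowd, Finset.mem_filter, Finset.mem_univ, true_and]
    · refine Finset.sum_congr ?_ (fun _ _ => rfl)
      ext j
      simp only [clCD, crowd, Finset.mem_filter, Finset.mem_univ, true_and, not_le]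
  rw [h1, S.clCD_split ε R Q f]
  ring

theorem partition61 (ε R Q : ℝ) (f : ι → ℝ) :
    ∑ j, f j = ∑ j ∈ S.iso, f j + ∑ j ∈ S.clD ε, f j + ∑ j ∈ S.clIn ε R, f j
      + ∑ j ∈ S.clP ε R Q, f j + ∑ j ∈ S.cl0 ε R Q, f j := by
  have h1 : ∑ j, f j = ∑ j ∈ S.iso, f j + ∑ j ∈ S.crowd, f j := by
    rw [← Finset.sum_filter_add_sum_filter_not univ (fun j => ‖S.x j‖ / 200 < S.dj j)]
    congr 1
    refine Finset.sum_congr ?_ (fun _ _ => rfl)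
    ext j
    simp only [crowd, Finset.mem_filter, Finset.mem_univ, true_and, not_lt]
  rw [h1, S.crowd61 ε R Q f]
  ring

/-- elementary lower bound for `TX` by classes -/
theorem TX_ge (hm : 1 ≤ m) {ε : ℝ} (hε : 0 < ε) (hε' : ε ≤ ea m ^ 12) {R : ℝ} (hR0 : 0 < R)
    (hinj : Function.Injective S.x) {z Q : ℝ} (hQ0 : 0 < Q) (hQ : Q = (Fintype.card ι : ℝ) - z)
    (hQ1 : 1280 * R / ε ^ 3 ≤ Q) {w : ι → ℝ} (hw0 : ∀ j, 0 ≤ w j)
    (hw : ∀ j, (1 + 3 / 2 * (ε / 400)) * Q ≤ S.hj R j → 1 / 2 ≤ w j) :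
    Q + z * S.u (S.st ε) 0 + ∑ j ∈ S.clD ε, 5000 * (S.nu ε j / S.dj j ^ 2) - 2 * ((S.clIn ε R).card : ℝ)
      + ∑ j ∈ S.clP ε R Q, S.nu ε j * (ε / 400 * Q) / (16 * R)
      - (∑ j ∈ S.cl0 ε R Q, S.cost ε j + ε / 1600 * ((S.cl0 ε R Q).card : ℝ))
      - ∑ j ∈ S.iso, (S.cost ε j + ε / 1600 * S.vs ε j + 2000 * (S.nu ε j / S.dj j ^ 2))
      ≤ S.TX ε z R Q w := by
  have hpot := S.pot_ineq hm hε hε' hinj z
  rw [← hQ] at hpot
  set e : ι → ℝ := fun j => S.cost ε j + ε / 1600 * S.vs ε j + 2000 * (S.nu ε j / S.dj j ^ 2) with he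
  set q : ι → ℝ := fun j => S.nu ε j / S.dj j ^ 2 with hq
  set p : ι → ℝ := fun j => S.nu ε j * (w j * (ε / 400 * Q / (4 * R))) with hp
  have hp0 : ∀ j, 0 ≤ p j := fun j =>
    mul_nonneg (S.nu_pos hm hε hε' j).le
      (mul_nonneg (hw0 j) (by positivity))
  -- step 1
  have h1 : Q + z * S.u (S.st ε) 0 - ∑ j, e j + ∑ j, p j + 10000 * ∑ j ∈ S.crowd, q j
      ≤ S.TX ε z R Q w := by
    have h2 : ∑ j, S.nu ε j * (w j * (ε / 400 * Q / (4 * R)) - ε / 1600 / (ε * S.dj j))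
        ≥ ∑ j, p j - ∑ j, ε / 1600 * S.vs ε j := by
      rw [← Finset.sum_sub_distrib]
      refine Finset.sum_le_sum fun j _ => ?_
      have hd := S.dj_pos j
      have hv := S.vs_pos hm hε hε' j
      have ht : S.tau ε j ≤ ε := S.tau_le j
      have h3 : S.nu ε j * (ε / 1600 / (ε * S.dj j)) ≤ ε / 1600 * S.vs ε j := by
        rw [S.nu_eq]
        have : S.tau ε j * S.dj j * S.vs ε j * (ε / 1600 / (ε * S.dj j))
            = S.tau ε j / 1600 * S.vs ε j := by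
          field_simp
        rw [this]
        exact mul_le_mul_of_nonneg_right (by linarith) hv.le
      simp only [hp]
      rw [mul_sub]
      linarith
    have h4 : ∑ j, e j = ∑ j, S.cost ε j + ∑ j, ε / 1600 * S.vs ε j + 2000 * ∑ j, q j := by
      simp only [he, hq]
      rw [Finset.sum_add_distrib, Finset.sum_add_distrib, Finset.mul_sum]
    unfold TX
    simp only [hq] at h4 ⊢
    linarith
  refine le_trans ?_ h1
  rw [S.partition61 ε R Q e, S.partition61 ε R Q p, S.crowd61 ε R Q q]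
  -- class D
  have hD : ∑ j ∈ S.clD ε, 5000 * q j ≤ 10000 * ∑ j ∈ S.clD ε, q j - ∑ j ∈ S.clD ε, e j := by
    rw [Finset.mul_sum, ← Finset.sum_sub_distrib]
    exact Finset.sum_le_sum fun j hj => S.clD_est hm hε hε' hj
  have hIn : -(2 * ((S.clIn ε R).card : ℝ)) ≤ 10000 * ∑ j ∈ S.clIn ε R, q j - ∑ j ∈ S.clIn ε R, e j := by
    rw [Finset.mul_sum, ← Finset.sum_sub_distrib]
    have : -(2 * ((S.clIn ε R).card : ℝ)) = ∑ j ∈ S.clIn ε R, (-2 : ℝ) := by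
      rw [Finset.sum_const, nsmul_eq_mul]; ring
    rw [this]
    exact Finset.sum_le_sum fun j _ => S.clCD_est2 hm hε hε' j
  have hP : ∑ j ∈ S.clP ε R Q, S.nu ε j * (ε / 400 * Q) / (16 * R)
      ≤ ∑ j ∈ S.clP ε R Q, p j + (10000 * ∑ j ∈ S.clP ε R Q, q j - ∑ j ∈ S.clP ε R Q, e j) := by
    rw [Finset.mul_sum, ← Finset.sum_sub_distrib, ← Finset.sum_add_distrib]
    exact Finset.sum_le_sum fun j hj => S.clP_est hm hε hε' hR0 hQ1 hj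
      (hw j (by simp only [clP, Finset.mem_filter] at hj; exact hj.2.2))
  have h0 : -(∑ j ∈ S.cl0 ε R Q, S.cost ε j + ε / 1600 * ((S.cl0 ε R Q).card : ℝ))
      ≤ 10000 * ∑ j ∈ S.cl0 ε R Q, q j - ∑ j ∈ S.cl0 ε R Q, e j := by
    rw [Finset.mul_sum, ← Finset.sum_sub_distrib]
    have : -(∑ j ∈ S.cl0 ε R Q, S.cost ε j + ε / 1600 * ((S.cl0 ε R Q).card : ℝ))
        = ∑ j ∈ S.cl0 ε R Q, (-(S.cost ε j + ε / 1600)) := by
      rw [Finset.sum_neg_distrib, Finset.sum_add_distrib, Finset.sum_const, nsmul_eq_mul]; ring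
    rw [this]
    exact Finset.sum_le_sum fun j _ => S.clCD_est hm hε hε' j
  have g1 : 0 ≤ ∑ j ∈ S.iso, p j := Finset.sum_nonneg fun j _ => hp0 j
  have g2 : 0 ≤ ∑ j ∈ S.clD ε, p j := Finset.sum_nonneg fun j _ => hp0 j
  have g3 : 0 ≤ ∑ j ∈ S.clIn ε R, p j := Finset.sum_nonneg fun j _ => hp0 j
  have g4 : 0 ≤ ∑ j ∈ S.cl0 ε R Q, p j := Finset.sum_nonneg fun j _ => hp0 j
  simp only [hq, he] at hD hIn hP h0 ⊢
  linarith

/-- the electrons which pay for `unb2` -/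
theorem outside_sum (hm : 1 ≤ m) {ε : ℝ} (hε : 0 < ε) (hε' : ε ≤ ea m ^ 12) {R Q : ℝ} (hR : 0 < R)
    (hQ1 : 1280 * R / ε ^ 3 ≤ Q) :
    ∑ i ∈ univ.filter (fun i => i ∉ S.cl0 ε R Q ∧ ε ≤ ‖S.x i‖), S.vs ε i
      ≤ 1 / 10 * ∑ j ∈ S.clD ε, 5000 * (S.nu ε j / S.dj j ^ 2)
        + 1 / 10 * ∑ j ∈ S.clP ε R Q, S.nu ε j * (ε / 400 * Q) / (16 * R)
        + (S.clIn ε R).card + 200 / ε := by
  have hv : ∀ j, 0 < S.vs ε j := fun j => S.vs_pos hm hε hε' j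
  have h1 : ∑ i ∈ univ.filter (fun i => i ∉ S.cl0 ε R Q ∧ ε ≤ ‖S.x i‖), S.vs ε i
      = ∑ i, (if i ∉ S.cl0 ε R Q ∧ ε ≤ ‖S.x i‖ then S.vs ε i else 0) := by
    rw [Finset.sum_filter]
  rw [h1, S.partition61 ε R Q]
  have hle : ∀ j, (if j ∉ S.cl0 ε R Q ∧ ε ≤ ‖S.x j‖ then S.vs ε j else 0) ≤ S.vs ε j := by
    intro j
    split_ifs
    · exact le_rfl
    · exact (hv j).le
  have e1 : ∑ j ∈ S.iso, (if j ∉ S.cl0 ε R Q ∧ ε ≤ ‖S.x j‖ then S.vs ε j else 0) ≤ 200 / ε := by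
    refine le_trans ?_ (S.iso_far_sum hm hε hε')
    rw [Finset.sum_filter]
    refine Finset.sum_le_sum fun j _ => ?_
    by_cases h : ε ≤ ‖S.x j‖
    · rw [if_pos h]; exact hle j
    · rw [if_neg h, if_neg (fun h' => h h'.2)]
  have e2 : ∑ j ∈ S.clD ε, (if j ∉ S.cl0 ε R Q ∧ ε ≤ ‖S.x j‖ then S.vs ε j else 0)
      ≤ 1 / 10 * ∑ j ∈ S.clD ε, 5000 * (S.nu ε j / S.dj j ^ 2) := by
    rw [Finset.mul_sum]
    exact Finset.sum_le_sum fun j hj => (hle j).trans (S.clD_vs hm hε hε' hj)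
  have e3 : ∑ j ∈ S.clIn ε R, (if j ∉ S.cl0 ε R Q ∧ ε ≤ ‖S.x j‖ then S.vs ε j else 0)
      ≤ (S.clIn ε R).card := by
    have : ((S.clIn ε R).card : ℝ) = ∑ j ∈ S.clIn ε R, (1 : ℝ) := by simp
    rw [this]
    exact Finset.sum_le_sum fun j _ => (hle j).trans (S.vs_le_one hm hε hε' j)
  have e4 : ∑ j ∈ S.clP ε R Q, (if j ∉ S.cl0 ε R Q ∧ ε ≤ ‖S.x j‖ then S.vs ε j else 0)
      ≤ 1 / 10 * ∑ j ∈ S.clP ε R Q, S.nu ε j * (ε / 400 * Q) / (16 * R) := by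
    rw [Finset.mul_sum]
    exact Finset.sum_le_sum fun j hj => (hle j).trans (S.clP_vs hm hε hε' hR hQ1 hj)
  have e5 : ∑ j ∈ S.cl0 ε R Q, (if j ∉ S.cl0 ε R Q ∧ ε ≤ ‖S.x j‖ then S.vs ε j else 0) ≤ 0 := by
    refine Finset.sum_nonpos fun j hj => ?_
    rw [if_neg (fun h => h.1 hj)]
  linarith

end Sys

/-- Theorem 6.1 -/
theorem thm61 {m : ℕ} (hm : 2 ≤ m) {ε : ℝ} (hε : 0 < ε) (hε' : ε ≤ ea m ^ 12) {R : ℝ}
    (hR : (1600 / ε) ^ 2 ≤ R) {z1 : ℝ} (hz1 : 1 ≤ z1) (hz1' : (z1 ^ 2)⁻¹ ≤ ε) :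
    ∃ Q0 : ℝ, 0 < Q0 ∧ ∃ Cs : ℝ, 0 < Cs ∧
      ∀ {ι : Type} [Fintype ι] [DecidableEq ι] (S : Sys ι m), Function.Injective S.x →
        (∀ k, S.dj k < ‖S.x k‖ / 4 → ∃ l, l ≠ k ∧ ‖S.x l - S.x k‖ ≤ S.dj k) →
        ∀ z Q : ℝ, 0 < z → Q = (Fintype.card ι : ℝ) - z → Q0 ≤ Q →
        ∀ w : ι → ℝ, (∀ j, 0 ≤ w j) → (∀ j, (1 + 3 / 2 * (ε / 400)) * Q ≤ S.hj R j → 1 / 2 ≤ w j) →
          ε / 100 * Q - Cs - 800004 * ((S.clA ((z + z1) ^ 2)⁻¹).card : ℝ) ≤ S.TX ε z R Q w := by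
  have hm1 : 1 ≤ m := by omega
  have hε24 : ε ≤ 1 / 10 ^ 24 := Sys.eps_small hm1 hε'
  have hε1 : ε ≤ 1 := hε24.trans (by norm_num)
  have hR0 : 0 < R := lt_of_lt_of_le (by positivity) hR
  obtain ⟨C, hC⟩ := log_absorb (c := 400002 * (42 / 5 * (3 * 10 ^ 9 * (m : ℝ)))) (z1 := z1) (by positivity) hz1
  refine ⟨max 1 (1280 * R / ε ^ 3), lt_of_lt_of_le one_pos (le_max_left _ _),
    1 + 3 * ((m : ℝ) * (3 * (1600 / ε * R) / (50 * ε)) ^ 3) + 200 / ε + 400002 * (200 / ε)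
      + 400002 * (54 * 10 ^ 9 * m) + |C|, by positivity, ?_⟩
  intro ι _ _ S hinj hD3 z Q hz hQ hQ0 w hw0 hw
  have hQ1 : 1280 * R / ε ^ 3 ≤ Q := (le_max_right _ _).trans hQ0
  have hQpos : 0 < Q := lt_of_lt_of_le one_pos ((le_max_left _ _).trans hQ0)
  have hTX := S.TX_ge hm1 hε hε' hR0 hinj hQpos hQ hQ1 hw0 hw
  set a : ℝ := ((z + z1) ^ 2)⁻¹ with ha
  have hzz : 0 < z + z1 := by linarith
  have ha0 : 0 < a := by positivity
  have hale : a ≤ ε := by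
    refine le_trans ?_ hz1'
    rw [ha]
    have : z1 ^ 2 ≤ (z + z1) ^ 2 := by nlinarith
    exact inv_anti₀ (by positivity) this
  have hiso := S.iso_total hm1 hε hε' ha0 hale
  have hlog : ε / a = ε * (z + z1) ^ 2 := by
    rw [ha, div_inv_eq_mul]
  rw [hlog] at hiso
  have hu0 : 0 < S.u (S.st ε) 0 := S.u_pos hm1 (S.st_adm hm1 hε hε') 0
  have hu1 : S.u (S.st ε) 0 ≤ 1 := S.u_le_one hm1 (S.st_adm hm1 hε hε') 0
  have hCz := hC z hz ε hε hε1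
  -- absorb the logarithm
  have habs : 400002 * (42 / 5 * (3 * 10 ^ 9 * m * (1 + Real.log (ε * (z + z1) ^ 2)))) * S.u (S.st ε) 0
      ≤ z * S.u (S.st ε) 0 + |C| := by
    have h1 : 400002 * (42 / 5 * (3 * 10 ^ 9 * (m : ℝ) * (1 + Real.log (ε * (z + z1) ^ 2))))
        = 400002 * (42 / 5 * (3 * 10 ^ 9 * (m : ℝ))) * (1 + Real.log (ε * (z + z1) ^ 2)) := by ring
    rw [h1]
    calc 400002 * (42 / 5 * (3 * 10 ^ 9 * (m : ℝ))) * (1 + Real.log (ε * (z + z1) ^ 2)) * S.u (S.st ε) 0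
        ≤ (z + C) * S.u (S.st ε) 0 := mul_le_mul_of_nonneg_right hCz hu0.le
      _ = z * S.u (S.st ε) 0 + C * S.u (S.st ε) 0 := by ring
      _ ≤ z * S.u (S.st ε) 0 + |C| := by
          have : C * S.u (S.st ε) 0 ≤ |C| := by
            calc C * S.u (S.st ε) 0 ≤ |C| * S.u (S.st ε) 0 :=
                  mul_le_mul_of_nonneg_right (le_abs_self C) hu0.le
              _ ≤ |C| * 1 := mul_le_mul_of_nonneg_left hu1 (abs_nonneg C)
              _ = |C| := mul_one _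
          linarith
  have hJ : S.cl0 ε R Q ⊆ S.clCD ε := Finset.filter_subset _ _
  have hb1 := S.boost1 hm1 hε hε' hJ
  have hb2 := S.boost2 hm1 hε hε' hD3 hJ
  have hout := S.outside_sum hm1 hε hε' hR0 hQ1
  have hin := S.clIn_card hm1 hε hε' hR
  have hc0 := S.cl0_card hε hε1 hR0 hQpos (R := R) (Q := Q)
  have har := arith61 hε hε1 hQpos.le
  set B := ∑ j ∈ S.clD ε, 5000 * (S.nu ε j / S.dj j ^ 2) with hB
  set B' := ∑ j ∈ S.clP ε R Q, S.nu ε j * (ε / 400 * Q) / (16 * R) with hB'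
  have hB0 : 0 ≤ B := Finset.sum_nonneg fun j _ => by
    have := S.nu_pos hm1 hε hε' j
    positivity
  have hB'0 : 0 ≤ B' := Finset.sum_nonneg fun j _ => by
    have := S.nu_pos hm1 hε hε' j
    positivity
  -- the count of CD0
  have hcc : (1 - ε / 50 + ε / 1600) * ((S.cl0 ε R Q).card : ℝ) ≤ 1 + (1 - ε / 100) * Q := by
    refine le_trans (mul_le_mul_of_nonneg_left hc0 ?_) har
    linarith
  set n0 : ℝ := ((S.cl0 ε R Q).card : ℝ) with hn0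
  set nI : ℝ := ((S.clIn ε R).card : ℝ) with hnI
  set n2 : ℝ := ((S.unb2 ε (S.cl0 ε R Q)).card : ℝ) with hn2
  have hn2' : ε / 50 * n2 ≤ ε / 50 * (10 / 7 * (1 / 10 * B + 1 / 10 * B' + nI + 200 / ε)) := by
    refine mul_le_mul_of_nonneg_left ?_ (by positivity)
    linarith
  have hsm : ε / 50 * (10 / 7 * (1 / 10 * B + 1 / 10 * B' + nI + 200 / ε))
      ≤ 1 / 10 * B + 1 / 10 * B' + nI + 200 / ε := by
    have h3 : 0 ≤ 1 / 10 * B + 1 / 10 * B' + nI + 200 / ε := by positivity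
    have h4 : ε / 50 * (10 / 7) ≤ 1 := by linarith
    calc ε / 50 * (10 / 7 * (1 / 10 * B + 1 / 10 * B' + nI + 200 / ε))
        = (ε / 50 * (10 / 7)) * (1 / 10 * B + 1 / 10 * B' + nI + 200 / ε) := by ring
      _ ≤ 1 * (1 / 10 * B + 1 / 10 * B' + nI + 200 / ε) := mul_le_mul_of_nonneg_right h4 h3
      _ = _ := one_mul _
  have hexp : (1 - ε / 50 + ε / 1600) * n0 = (1 - ε / 50) * n0 + ε / 1600 * n0 := by ring
  linarith

end Ion
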