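import Pool.Agent.Lib.MP_69e010_mp.C5
import Pool.Agent.Lib.MP_69e010_mp.T11

/-!
# Interface of section 6 (stream T, helper32): the pointwise inequality
-/

open MeasureTheory Metric Finset Filter Topology

noncomputable section

namespace Ion

variable {N : ℕ}

/-- `c₁ = ε/25` -/
def c1 (m : ℕ) : ℝ := eps m / 25

/-- `h_j = ∑_{i ≠ j} χ(|x_i|/R)` -/
def hj (X : Conf N) (j : Fin N) (R : ℝ) : ℝ := ∑ i ∈ univ.erase j, chi (‖X i‖ / R)

/-- `R̃_j = max (R, √d_j)` -/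
def Rt (m : ℕ) (R : ℝ) (X : Conf N) (j : Fin N) : ℝ := max R (√(dc m X j))

/-- potential of the other electrons at `x_i` -/
def Uo (X : Conf N) (i : Fin N) : ℝ := ∑ j ∈ univ.erase i, ‖X i - X j‖⁻¹

/-- a crowded electron has another electron within its `d` -/
theorem exists_neighbour {m : ℕ} (hm : 2 ≤ m) (hN : m ≤ N) (X : Conf N) (k : Fin N)
    (h : dd m X (X k) < ‖X k‖ / 4) : ∃ l, l ≠ k ∧ ‖X l - X k‖ ≤ dd m X (X k) := by
  have hDD : dd m X (X k) = DD m X (X k) := by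
    unfold dd at h ⊢
    exact min_eq_left (by
      by_contra hc
      rw [not_le] at hc
      rw [min_eq_right hc.le] at h
      exact lt_irrefl _ h)
  have hcard := DD_card hN X (X k)
  have h1 : 1 < (univ.filter fun j => ‖X j - X k‖ ≤ DD m X (X k)).card := by omega
  obtain ⟨l, hl, hlk⟩ := Finset.exists_mem_ne h1 k
  refine ⟨l, hlk, ?_⟩
  rw [hDD]
  exact (Finset.mem_filter.mp hl).2

/-- Theorem 6.1. `C_K = 10^4`, `C_0 = 2000`, `c' = c₁/16`, `η₂ = c₁/64`. -/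
theorem pointwise {m : ℕ} (hm : 10 ^ 30 ≤ m) :
    ∃ R0 z1 C3 : ℝ, 1 ≤ R0 ∧ 1 ≤ z1 ∧ 0 < C3 ∧ 512 * C3 ≤ z1 ^ 2 * c1 m ∧
      ∀ R : ℝ, R0 ≤ R → ∃ Q0 Cs : ℝ, ∀ z : ℝ, 0 < z → ∀ N : ℕ, m ≤ N → ∀ X : Conf N, Good m X →
        (∀ j k, j ≠ k → X j ≠ X k) →
        ∀ p : Fin N → ℝ, (∀ j, 0 ≤ p j) →
        (∀ j, (1 + 3 / 2 * (c1 m / 16)) * ((N : ℝ) - z) ≤ hj X j (Rt m R X j) → 1 / 2 ≤ p j) →
        Q0 ≤ (N : ℝ) - z →
        c1 m / 4 * ((N : ℝ) - z) - Cs - C3 * (univ.filter fun j => ‖X j‖ < ((z + z1) ^ 2)⁻¹).card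
          ≤ ∑ i, nuc m X i * (Uo X i - z / ‖X i‖)
            + ∑ j, nuc m X j * (p j * (c1 m / 16) * ((N : ℝ) - z) / (4 * R) - (c1 m / 64) / (eps m * dc m X j))
            + 10 ^ 4 * ∑ j ∈ univ.filter (fun j => dc m X j ≤ ‖X j‖ / 200), nuc m X j / dc m X j ^ 2
            - 2000 * ∑ j, nuc m X j / dc m X j ^ 2 := by
  have hm2 : 2 ≤ m := le_trans (by norm_num) hm
  have hm1 : 1 ≤ m := by omega
  have hea : 0 < ea m := ea_pos hm1
  have hε : 0 < eps m := by unfold eps; positivity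
  have hε' : eps m ≤ ea m ^ 12 := le_rfl
  have hε24 : eps m ≤ 1 / 10 ^ 24 := Sys.eps_small hm1 hε'
  have hε1 : eps m ≤ 1 := hε24.trans (by norm_num)
  have hL : 1 ≤ 1600 / eps m := by
    rw [le_div_iff₀ hε]; linarith
  have hc1 : 0 < c1 m := by unfold c1; positivity
  set z1 : ℝ := 1 + 512 * 800004 / c1 m with hz1
  have hq : 0 < 512 * 800004 / c1 m := by positivity
  have hz11 : 1 ≤ z1 := by rw [hz1]; linarith
  refine ⟨(1600 / eps m) ^ 2, z1, 800004, ?_, hz11, by norm_num, ?_, ?_⟩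
  · nlinarith
  · have h1 : 512 * 800004 / c1 m ≤ z1 ^ 2 := by
      rw [hz1]; nlinarith
    calc (512 : ℝ) * 800004 = 512 * 800004 / c1 m * c1 m := by field_simp
      _ ≤ z1 ^ 2 * c1 m := mul_le_mul_of_nonneg_right h1 hc1.le
  intro R hR
  have hz1' : (z1 ^ 2)⁻¹ ≤ eps m := by
    have h1 : (eps m)⁻¹ ≤ z1 ^ 2 := by
      have h2 : 1 / eps m ≤ 512 * 800004 / c1 m := by
        unfold c1
        rw [div_div_eq_mul_div]
        exact div_le_div_of_nonneg_right (by norm_num) hε.le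
      have h3 : 512 * 800004 / c1 m ≤ z1 ^ 2 := by
        rw [hz1]; nlinarith
      rw [← one_div]
      exact h2.trans h3
    have h4 := inv_anti₀ (inv_pos.mpr hε) h1
    rwa [inv_inv] at h4
  obtain ⟨Q0, hQ0, Cs, hCs, hmain⟩ := thm61 hm2 hε hε' hR hz11 hz1'
  refine ⟨Q0, Cs, ?_⟩
  intro z hz N hN X hX hinj p hp0 hp hQ
  have hst : (cSys hm1 hN X hX).st (eps m) = sc m X := rfl
  have hnu : ∀ j, (cSys hm1 hN X hX).nu (eps m) j = nuc m X j := by
    intro j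
    unfold Sys.nu nuc
    rw [hst, cSys_v hm1 hN X hX j]
  have hmain' := hmain (cSys hm1 hN X hX)
    (fun j k hjk => by
      by_contra hne
      exact hinj j k hne hjk)
    (fun k hk => exists_neighbour hm2 hN X k hk)
    z ((N : ℝ) - z) hz (by rw [Fintype.card_fin]) hQ p hp0
    (fun j hj' => hp j (by
      refine le_trans (le_of_eq ?_) (le_trans hj' (le_of_eq ?_))
      · unfold c1; ring
      · rfl))
  have e1 : eps m / 100 * ((N : ℝ) - z) = c1 m / 4 * ((N : ℝ) - z) := by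
    unfold c1; ring
  rw [e1] at hmain'
  refine hmain'.trans (le_of_eq ?_)
  unfold Sys.TX
  simp only [hnu]
  have e2 : ∀ i, ∑ j ∈ univ.erase i, ‖(cSys hm1 hN X hX).x i - (cSys hm1 hN X hX).x j‖⁻¹
      - z * ‖(cSys hm1 hN X hX).x i‖⁻¹ = Uo X i - z / ‖X i‖ := by
    intro i
    rw [div_eq_mul_inv]
    rfl
  have e3 : ∀ j, p j * (eps m / 400 * ((N : ℝ) - z) / (4 * R)) - eps m / 1600 / (eps m * (cSys hm1 hN X hX).dj j)
      = p j * (c1 m / 16) * ((N : ℝ) - z) / (4 * R) - (c1 m / 64) / (eps m * dc m X j) := by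
    intro j
    have : (cSys hm1 hN X hX).dj j = dc m X j := rfl
    rw [this]
    unfold c1
    ring
  simp only [e2, e3]
  have e4 : (cSys hm1 hN X hX).crowd = univ.filter (fun j => dc m X j ≤ ‖X j‖ / 200) := rfl
  rw [e4]
  have e5 : ∀ j, (cSys hm1 hN X hX).dj j = dc m X j := fun _ => rfl
  simp only [e5]
  norm_num

end Ion
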