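import Pool.Agent.Lib.MP_69e010_mp.QApi
import Pool.Agent.Lib.MP_69e010_mp.RApi
import Pool.Agent.Lib.MP_69e010_mp.SApi

/-!
# Definitions for sections 8 to 11: cutoffs and cut off weights
-/

open MeasureTheory Metric Finset Filter Topology

noncomputable section

namespace Ion

variable {N : ℕ}

/-- cutoff functions -/
structure Cut (m : ℕ) (h Ri : ℝ) (ζ : Conf N → ℝ) : Prop where
  lip : ∃ K, LipschitzWith K ζ
  nonneg : ∀ X, 0 ≤ ζ X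
  le_one : ∀ X, ζ X ≤ 1
  symm : ∀ (π : Equiv.Perm (Fin N)) (X : Conf N), ζ (X ∘ π) = ζ X
  supp : ∀ X, ζ X ≠ 0 → Good m X ∧ (∀ j, h ≤ dc m X j) ∧ (∀ j, ‖X j‖ ≤ Ri)

/-- `g_i = √ν_i ζ` -/
def gw (m : ℕ) (ζ : Conf N → ℝ) (i : Fin N) (X : Conf N) : ℝ := √(nuc m X i) * ζ X

/-- `G = ∑ g_i²` -/
def Gt (m : ℕ) (ζ : Conf N → ℝ) (X : Conf N) : ℝ := ∑ i, gw m ζ i X ^ 2

/-- crowd electrons -/
def crowd (m : ℕ) (X : Conf N) : Finset (Fin N) := univ.filter fun j => dc m X j ≤ ‖X j‖ / 200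

/-- bilinear form of `QQ` -/
def bil (z : ℝ) (ψ φ : RW N) : ℝ :=
  (∑ σ, ∫ X, ∑ k, gin k (ψ σ) (φ σ) X) + (∑ σ, ∫ X, V z X * (ψ σ X * φ σ X))
    - EN z N * ∑ σ, ∫ X, ψ σ X * φ σ X

/-- `ψ - s φ` -/
def subw (s : ℝ) (ψ φ : RW N) : RW N := fun σ X => ψ σ X - s * φ σ X

end Ion
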