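import Pool.Agent.Lib.MP_69e010_mp.KDefs

/-!
# JOB K1: the cutoff functions `th`, `tc`

`th t = 4 (t-1)₊ (2-t)₊`, `tc t = clamp (2 - 100 t)` (one-variable calculus).
* `th_nonneg`, `th_le_one`: `4 a b ≤ (a+b)²` with `a = t-1`, `b = 2-t`; `th_ne`: both factors positive.
* `th_lip`: on `[1,2]` `th t = 4(t-1)(2-t)`, `th s - th t = 4 (s-t)(3-s-t)` and `|3-s-t| ≤ 1`; in general replace `s, t` by their projections to `[1,2]`.
* `tc`: composition of `2 - 100 t` with the 1-Lipschitz clamp.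
* `lint_th`: substitution `l = a t`: `∫_{l>0} l⁻⁶ th(l/a)² dl = a⁻⁵ ∫_1^2 t⁻⁶ 16 (t-1)²(2-t)² dt = a⁻⁵/15`, because `(t-1)²(2-t)² = t⁴ - 6t³ + 13t² - 12t + 4` and
  `16 ∫_1^2 (t⁻² - 6t⁻³ + 13t⁻⁴ - 12t⁻⁵ + 4t⁻⁶) dt = 16 (1/2 - 9/4 + 91/24 - 45/16 + 31/40) = 16/240 = 1/15`.
  Without substitution: the integrand is zero outside `(a, 2a)` and an explicit antiderivative on `[a,2a]` is
  `G(l) = 16 ( - l⁻¹/a⁴ + 3 l⁻²/a³ - (13/3) l⁻³/a² + 3 l⁻⁴/a - (4/5) l⁻⁵ )`, since `th(l/a)² = 16 (l⁴/a⁴ - 6 l³/a³ + 13 l²/a² - 12 l/a + 4)`; `G(2a) - G(a) = 1/(15 a⁵)`.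
* `th_inv_lip`: `φ(d) = th (l/(kap d))` on `d ≥ 0`: zero for `d ≤ h2 := l/(2 kap)`; for `d, d' ≥ h2`: `|l/(kap d) - l/(kap d')| = l|d-d'|/(kap d d') ≤ (4 kap/l)|d-d'|`, times 4. (For `d < h2` replace `d` by `h2`, `φ(h2) = th 2 = 0`.)
-/

open MeasureTheory Metric Finset Filter Topology

noncomputable section

namespace Ion

variable {N : ℕ}

theorem th_nonneg (t : ℝ) : 0 ≤ th t := by
  unfold th
  positivity

theorem th_le_one (t : ℝ) : th t ≤ 1 := by
  unfold th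
  rcases le_total (t - 1) 0 with h | h
  · rw [max_eq_right h]; simp
  · rcases le_total (2 - t) 0 with h' | h'
    · rw [max_eq_right h']; simp
    · rw [max_eq_left h, max_eq_left h']
      nlinarith [sq_nonneg (2 * t - 3)]

theorem th_ne {t : ℝ} (h : th t ≠ 0) : 1 < t ∧ t < 2 := by
  constructor
  · by_contra hc
    push Not at hc
    exact h (by unfold th; rw [max_eq_right (by linarith : t - 1 ≤ 0)]; ring)
  · by_contra hc
    push Not at hc
    exact h (by unfold th; rw [max_eq_right (by linarith : 2 - t ≤ 0)]; ring)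

/-- projection to `[1,2]` -/
private def K1_pr (t : ℝ) : ℝ := max 1 (min 2 t)

private theorem K1_pr_mem (t : ℝ) : 1 ≤ K1_pr t ∧ K1_pr t ≤ 2 := by
  unfold K1_pr
  exact ⟨le_max_left _ _, max_le (by norm_num) (min_le_left _ _)⟩

private theorem K1_th_pr (t : ℝ) : th t = 4 * (K1_pr t - 1) * (2 - K1_pr t) := by
  unfold th K1_pr
  rcases le_total t 1 with h | h
  · rw [max_eq_right (by linarith : t - 1 ≤ 0), min_eq_right (by linarith : t ≤ 2), max_eq_left h]
    ring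
  · rcases le_total t 2 with h' | h'
    · rw [max_eq_left (by linarith : 0 ≤ t - 1), max_eq_left (by linarith : 0 ≤ 2 - t),
        min_eq_right h', max_eq_right h]
    · rw [max_eq_right (by linarith : 2 - t ≤ 0), min_eq_left h', max_eq_right (by norm_num : (1:ℝ) ≤ 2)]
      ring

private theorem K1_pr_lip (s t : ℝ) : |K1_pr s - K1_pr t| ≤ |s - t| := by
  unfold K1_pr
  calc |max 1 (min 2 s) - max 1 (min 2 t)| ≤ |min 2 s - min 2 t| := by
        have := abs_max_sub_max_le_abs (min 2 s) (min 2 t) 1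
        rwa [max_comm _ (1:ℝ), max_comm _ (1:ℝ)] at this
    _ ≤ |s - t| := by
        have := abs_min_sub_min_le_max 2 s 2 t
        simpa using this

theorem th_lip (s t : ℝ) : |th s - th t| ≤ 4 * |s - t| := by
  rw [K1_th_pr s, K1_th_pr t]
  have e : 4 * (K1_pr s - 1) * (2 - K1_pr s) - 4 * (K1_pr t - 1) * (2 - K1_pr t)
      = 4 * ((K1_pr s - K1_pr t) * (3 - K1_pr s - K1_pr t)) := by ring
  rw [e, abs_mul, abs_mul, abs_of_pos (by norm_num : (0:ℝ) < 4)]
  have h1 := K1_pr_mem s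
  have h2 := K1_pr_mem t
  have h3 : |3 - K1_pr s - K1_pr t| ≤ 1 := by
    rw [abs_le]; constructor <;> linarith [h1.1, h1.2, h2.1, h2.2]
  calc 4 * (|K1_pr s - K1_pr t| * |3 - K1_pr s - K1_pr t|) ≤ 4 * (|s - t| * 1) :=
        mul_le_mul_of_nonneg_left (mul_le_mul (K1_pr_lip s t) h3 (abs_nonneg _) (abs_nonneg _)) (by norm_num)
    _ = 4 * |s - t| := by ring

theorem continuous_th : Continuous th := by
  unfold th
  fun_prop

theorem tc_nonneg (t : ℝ) : 0 ≤ tc t := by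
  unfold tc
  exact le_max_left _ _

theorem tc_le_one (t : ℝ) : tc t ≤ 1 := by
  unfold tc
  exact max_le (by norm_num) (min_le_left _ _)

theorem tc_ne {t : ℝ} (h : tc t ≠ 0) : t < 1 / 50 := by
  by_contra hc
  push Not at hc
  refine h ?_
  unfold tc
  exact max_eq_left ((min_le_right _ _).trans (by linarith))

theorem tc_one {t : ℝ} (h : t ≤ 1 / 100) : tc t = 1 := by
  unfold tc
  rw [min_eq_left (by linarith), max_eq_right (by norm_num)]

theorem tc_lip (s t : ℝ) : |tc s - tc t| ≤ 100 * |s - t| := by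
  unfold tc
  calc |max 0 (min 1 (2 - 100 * s)) - max 0 (min 1 (2 - 100 * t))|
      ≤ |min 1 (2 - 100 * s) - min 1 (2 - 100 * t)| := by
        have := abs_max_sub_max_le_abs (min 1 (2 - 100 * s)) (min 1 (2 - 100 * t)) 0
        rwa [max_comm _ (0:ℝ), max_comm _ (0:ℝ)] at this
    _ ≤ |(2 - 100 * s) - (2 - 100 * t)| := by
        have := abs_min_sub_min_le_max 1 (2 - 100 * s) 1 (2 - 100 * t)
        simpa using this
    _ = 100 * |s - t| := by
        have : (2 - 100 * s) - (2 - 100 * t) = -(100 * (s - t)) := by ring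
        rw [this, abs_neg, abs_mul, abs_of_pos (by norm_num : (0:ℝ) < 100)]

theorem continuous_tc : Continuous tc := by
  unfold tc
  fun_prop

private theorem K1_kap_pos : 0 < kap := by unfold kap; norm_num

private theorem K1_inv_aux {l d d' h : ℝ} (hl : 0 < l) (hh : h = l / (2 * kap)) (hd : h ≤ d)
    (hd' : h ≤ d') :
    |th (l / (kap * d)) - th (l / (kap * d'))| ≤ 16 * kap / l * |d - d'| := by
  have hk := K1_kap_pos
  have hh0 : 0 < h := by rw [hh]; positivity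
  have hd0 : 0 < d := hh0.trans_le hd
  have hd0' : 0 < d' := hh0.trans_le hd'
  refine (th_lip _ _).trans ?_
  have e : l / (kap * d) - l / (kap * d') = l * (d' - d) / (kap * d * d') := by
    field_simp
  rw [e, abs_div, abs_mul, abs_of_pos hl, abs_of_pos (by positivity : 0 < kap * d * d'),
    abs_sub_comm d' d]
  have h1 : l / (kap * d * d') ≤ 4 * kap / l := by
    rw [div_le_div_iff₀ (by positivity) hl]
    have h2 : h * h ≤ d * d' := mul_le_mul hd hd' hh0.le hd0.le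
    have h3 : h * h = l * l / (4 * kap ^ 2) := by rw [hh]; field_simp; norm_num
    have h4 : l * l ≤ d * d' * (4 * kap ^ 2) := by
      rw [h3] at h2
      rwa [div_le_iff₀ (by positivity)] at h2
    calc l * l ≤ d * d' * (4 * kap ^ 2) := h4
      _ = 4 * kap * (kap * d * d') := by ring
  calc 4 * (l * |d - d'| / (kap * d * d')) = 4 * (l / (kap * d * d')) * |d - d'| := by ring
    _ ≤ 4 * (4 * kap / l) * |d - d'| := by gcongr
    _ = 16 * kap / l * |d - d'| := by ring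

private theorem K1_th_max {l d h : ℝ} (hl : 0 < l) (hh : h = l / (2 * kap)) (hd : 0 ≤ d) :
    th (l / (kap * d)) = th (l / (kap * max d h)) := by
  have hk := K1_kap_pos
  have hh0 : 0 < h := by rw [hh]; positivity
  rcases le_total h d with h' | h'
  · rw [max_eq_left h']
  · rw [max_eq_right h']
    have e1 : th (l / (kap * h)) = 0 := by
      have : l / (kap * h) = 2 := by rw [hh]; field_simp
      rw [this]; unfold th; norm_num
    rw [e1]
    rcases hd.eq_or_lt with h0 | h0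
    · rw [← h0]; unfold th; simp
    · have : 2 ≤ l / (kap * d) := by
        rw [le_div_iff₀ (by positivity)]
        have : kap * d ≤ kap * h := by gcongr
        have e2 : kap * h = l / 2 := by rw [hh]; field_simp
        linarith
      unfold th
      rw [max_eq_right (by linarith : 2 - l / (kap * d) ≤ 0)]
      ring

theorem th_inv_lip {l d d' : ℝ} (hl : 0 < l) (hd : 0 ≤ d) (hd' : 0 ≤ d') :
    |th (l / (kap * d)) - th (l / (kap * d'))| ≤ 16 * kap / l * |d - d'| := by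
  have hk := K1_kap_pos
  rw [K1_th_max hl rfl hd, K1_th_max hl rfl hd']
  refine (K1_inv_aux hl rfl (le_max_right _ _) (le_max_right _ _)).trans ?_
  have := abs_max_sub_max_le_abs d d' (l / (2 * kap))
  gcongr

private theorem K1_G_deriv {a l : ℝ} (ha : 0 < a) (hl : 0 < l) :
    HasDerivAt (fun l : ℝ => 16 * (-(l⁻¹) / a ^ 4 + 3 * l⁻¹ ^ 2 / a ^ 3 - 13 / 3 * l⁻¹ ^ 3 / a ^ 2
        + 3 * l⁻¹ ^ 4 / a - 4 / 5 * l⁻¹ ^ 5))
      (l⁻¹ ^ 6 * (4 * (l / a - 1) * (2 - l / a)) ^ 2) l := by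
  have hi : HasDerivAt (fun l : ℝ => l⁻¹) (-(l ^ 2)⁻¹) l := hasDerivAt_inv hl.ne'
  have h := ((((((hi.neg).div_const (a ^ 4)).add (((hi.pow 2).const_mul 3).div_const (a ^ 3))).sub
    (((hi.pow 3).const_mul (13 / 3)).div_const (a ^ 2))).add
    (((hi.pow 4).const_mul 3).div_const a)).sub ((hi.pow 5).const_mul (4 / 5))).const_mul 16
  refine h.congr_deriv ?_
  have hl' := hl.ne'
  have ha' := ha.ne'
  simp only [Nat.cast_ofNat, Nat.add_one_sub_one, show (3:ℕ) - 1 = 2 from rfl, show (4:ℕ) - 1 = 3 from rfl, show (5:ℕ) - 1 = 4 from rfl,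
    pow_one, inv_pow]
  field_simp
  ring

theorem lint_th {a : ℝ} (ha : 0 < a) :
    ∫⁻ l in Set.Ioi (0 : ℝ), ENNReal.ofReal (l⁻¹ ^ 6 * th (l / a) ^ 2) = ENNReal.ofReal (1 / (15 * a ^ 5)) := by
  have hsub : Set.Ioc a (2 * a) ⊆ Set.Ioi (0:ℝ) := fun x hx => ha.trans hx.1
  have hz : ∀ l ∈ Set.Ioi (0:ℝ), l ∉ Set.Ioc a (2 * a) →
      ENNReal.ofReal (l⁻¹ ^ 6 * th (l / a) ^ 2) = 0 := by
    intro l hl hn
    have : th (l / a) = 0 := by
      by_contra hc
      obtain ⟨h1, h2⟩ := th_ne hc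
      rw [lt_div_iff₀ ha, one_mul] at h1
      rw [div_lt_iff₀ ha] at h2
      exact hn ⟨h1, h2.le⟩
    rw [this]; simp
  have e1 : ∫⁻ l in Set.Ioi (0 : ℝ), ENNReal.ofReal (l⁻¹ ^ 6 * th (l / a) ^ 2)
      = ∫⁻ l in Set.Ioc a (2 * a), ENNReal.ofReal (l⁻¹ ^ 6 * th (l / a) ^ 2) := by
    rw [← lintegral_indicator measurableSet_Ioi, ← lintegral_indicator measurableSet_Ioc]
    refine lintegral_congr fun l => ?_
    by_cases hl : l ∈ Set.Ioc a (2 * a)
    · rw [Set.indicator_of_mem hl, Set.indicator_of_mem (hsub hl)]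
    · rw [Set.indicator_of_notMem hl]
      by_cases hl' : l ∈ Set.Ioi (0:ℝ)
      · rw [Set.indicator_of_mem hl', hz l hl' hl]
      · rw [Set.indicator_of_notMem hl']
  have hle : a ≤ 2 * a := by linarith
  have hcont : ContinuousOn (fun l : ℝ => l⁻¹ ^ 6 * (4 * (l / a - 1) * (2 - l / a)) ^ 2)
      (Set.uIcc a (2 * a)) := by
    rw [Set.uIcc_of_le hle]
    intro x hx
    have hx0 : x ≠ 0 := (ha.trans_le hx.1).ne'
    have : ContinuousAt (fun l : ℝ => l⁻¹ ^ 6 * (4 * (l / a - 1) * (2 - l / a)) ^ 2) x := by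
      fun_prop (disch := assumption)
    exact this.continuousWithinAt
  have hftc := intervalIntegral.integral_eq_sub_of_hasDerivAt (a := a) (b := 2 * a)
    (f := fun l : ℝ => 16 * (-(l⁻¹) / a ^ 4 + 3 * l⁻¹ ^ 2 / a ^ 3 - 13 / 3 * l⁻¹ ^ 3 / a ^ 2
        + 3 * l⁻¹ ^ 4 / a - 4 / 5 * l⁻¹ ^ 5))
    (f' := fun l : ℝ => l⁻¹ ^ 6 * (4 * (l / a - 1) * (2 - l / a)) ^ 2)
    (fun x hx => by
      rw [Set.uIcc_of_le hle] at hx
      exact K1_G_deriv ha (ha.trans_le hx.1))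
    (hcont.intervalIntegrable)
  have hval : (16 * (-((2 * a)⁻¹) / a ^ 4 + 3 * (2 * a)⁻¹ ^ 2 / a ^ 3 - 13 / 3 * (2 * a)⁻¹ ^ 3 / a ^ 2
        + 3 * (2 * a)⁻¹ ^ 4 / a - 4 / 5 * (2 * a)⁻¹ ^ 5))
      - 16 * (-(a⁻¹) / a ^ 4 + 3 * a⁻¹ ^ 2 / a ^ 3 - 13 / 3 * a⁻¹ ^ 3 / a ^ 2
        + 3 * a⁻¹ ^ 4 / a - 4 / 5 * a⁻¹ ^ 5) = 1 / (15 * a ^ 5) := by
    field_simp
    ring
  rw [hval, intervalIntegral.integral_of_le hle] at hftc
  have hcongr : ∀ l ∈ Set.Ioc a (2 * a), ENNReal.ofReal (l⁻¹ ^ 6 * th (l / a) ^ 2)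
      = ENNReal.ofReal (l⁻¹ ^ 6 * (4 * (l / a - 1) * (2 - l / a)) ^ 2) := by
    intro l hl
    have h1 : 1 ≤ l / a := by rw [le_div_iff₀ ha, one_mul]; exact hl.1.le
    have h2 : l / a ≤ 2 := by rw [div_le_iff₀ ha]; exact hl.2
    congr 3
    unfold th
    rw [max_eq_left (by linarith), max_eq_left (by linarith)]
  rw [e1, setLIntegral_congr_fun measurableSet_Ioc hcongr, ← hftc,
    ofReal_integral_eq_lintegral_ofReal]
  · have := hcont.intervalIntegrable (μ := volume)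
    rwa [intervalIntegrable_iff_integrableOn_Ioc_of_le hle] at this
  · refine (ae_restrict_mem measurableSet_Ioc).mono fun l hl => ?_
    have : 0 < l := ha.trans hl.1
    simp only [Pi.zero_apply]
    positivity

end Ion
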