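import Pool.Agent.Lib.MP_69e010_mp.K9

/-!
# JOB K10: the kinetic inequality 9.1

Let `E = ∑σ ∫ ∑_i gsq i (gw i ψσ)`, `Sa = ∑σ ∫ (∑_j ν_j/d_j²) ζ²ψσ²`, `Sc = ∑σ ∫ (∑_{crowd} ν_j/d_j²) ζ²ψσ²` (all integrands integrable and `≥ 0`: `LipC.integrable_gsq` with `gw_lipC`, `LipC.mulC`; `integrable_nud`, `integrable_nud_crowd` (sum over `crowd m X` =
sum over all `j` of `if`, `Finset.sum_filter`); `ν_j ≥ 0` where `ζ ≠ 0` by `nuc_le`).
Turn `K_total` into reals (`ofReal_integral_eq_lintegral_ofReal`, `ENNReal.ofReal_add`, `ENNReal.ofReal_mul`, `ENNReal.ofReal_le_ofReal_iff`): `(1/16)(10⁸/48) Sc ≤ 4 ((8/3) E + 800 Sa) + (1/8)(10²¹/m) Sa`.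
With `m ≥ 10³⁰`: `(1/8) 10²¹/m ≤ 1`. So `E ≥ (3/32)(130208 Sc - 3201 Sa) ≥ 12207 Sc - 301 Sa ≥ 10⁴ Sc - 801 Sa` (`Sc, Sa ≥ 0`). The left side of `kinetic` is `10⁴ Sc - 801 Sa` (linearity of the integral).
-/

open MeasureTheory Metric Finset Filter Topology

noncomputable section

namespace Ion

variable {N : ℕ}

theorem K10_crowd (m : ℕ) (X : Conf N) (a : ℝ) :
    (∑ j ∈ crowd m X, nuc m X j / dc m X j ^ 2) * a
      = ∑ j, (if dc m X j ≤ ‖X j‖ / 200 then nuc m X j / dc m X j ^ 2 else 0) * a := by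
  unfold crowd
  rw [Finset.sum_filter, Finset.sum_mul]

/-- integrability of the crowd term -/
theorem K10_intC {m : ℕ} (hm : 2 ≤ m) (hN : m ≤ N) {h Ri : ℝ} (hh : 0 < h) {ζ : Conf N → ℝ}
    (hζ : Cut m h Ri ζ) {f : Conf N → ℝ} (hf : LipC f) :
    Integrable (fun X => (∑ j ∈ crowd m X, nuc m X j / dc m X j ^ 2) * (ζ X ^ 2 * f X ^ 2)) := by
  have e : (fun X => (∑ j ∈ crowd m X, nuc m X j / dc m X j ^ 2) * (ζ X ^ 2 * f X ^ 2))
      = fun X => ∑ j, (if dc m X j ≤ ‖X j‖ / 200 then nuc m X j / dc m X j ^ 2 else 0)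
          * (ζ X ^ 2 * f X ^ 2) := by
    funext X
    exact K10_crowd m X _
  rw [e]
  exact integrable_finsetSum _ fun j _ => integrable_nud_crowd hm hN hh hζ hf j

/-- integrability of the full term -/
theorem K10_intA {m : ℕ} (hm : 2 ≤ m) (hN : m ≤ N) {h Ri : ℝ} (hh : 0 < h) {ζ : Conf N → ℝ}
    (hζ : Cut m h Ri ζ) {f : Conf N → ℝ} (hf : LipC f) :
    Integrable (fun X => (∑ j, nuc m X j / dc m X j ^ 2) * (ζ X ^ 2 * f X ^ 2)) := by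
  have e : (fun X => (∑ j, nuc m X j / dc m X j ^ 2) * (ζ X ^ 2 * f X ^ 2))
      = fun X => ∑ j, nuc m X j / dc m X j ^ 2 * (ζ X ^ 2 * f X ^ 2) := by
    funext X
    rw [Finset.sum_mul]
  rw [e]
  exact integrable_finsetSum _ fun j _ => integrable_nud hm hN hh hζ hf j

theorem K10_nonneg {m : ℕ} (hm : 2 ≤ m) (hN : m ≤ N) {h Ri : ℝ} {ζ : Conf N → ℝ}
    (hζ : Cut m h Ri ζ) (f : Conf N → ℝ) (s : Finset (Fin N)) (X : Conf N) :
    0 ≤ (∑ j ∈ s, nuc m X j / dc m X j ^ 2) * (ζ X ^ 2 * f X ^ 2) := by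
  by_cases h0 : ζ X = 0
  · simp [h0]
  · have hX : Good m X := (hζ.supp X h0).1
    refine mul_nonneg (Finset.sum_nonneg fun j _ => ?_) (by positivity)
    have := (nuc_le hm hN hX j).1
    positivity

theorem K10_nonneg1 {m : ℕ} (hm : 2 ≤ m) (hN : m ≤ N) {h Ri : ℝ} {ζ : Conf N → ℝ}
    (hζ : Cut m h Ri ζ) (f : Conf N → ℝ) (j : Fin N) (X : Conf N) :
    0 ≤ nuc m X j / dc m X j ^ 2 * (ζ X ^ 2 * f X ^ 2) := by
  have := K10_nonneg hm hN hζ f {j} X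
  rwa [Finset.sum_singleton] at this

/-- a sum of lower integrals is `ofReal` of a sum of integrals -/
theorem K10_sum {F : Spin N → Conf N → ℝ} (hF : ∀ σ, Integrable (F σ)) (h0 : ∀ σ X, 0 ≤ F σ X) :
    ∑ σ, ∫⁻ X, ENNReal.ofReal (F σ X) = ENNReal.ofReal (∑ σ, ∫ X, F σ X) := by
  rw [ENNReal.ofReal_sum_of_nonneg (fun σ _ => integral_nonneg (h0 σ))]
  refine Finset.sum_congr rfl fun σ _ => ?_
  rw [ofReal_integral_eq_lintegral_ofReal (hF σ) (Filter.Eventually.of_forall (h0 σ))]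

theorem kinetic {m : ℕ} (hm : 10 ^ 30 ≤ m) (hN : m ≤ N) {h Ri : ℝ} (hh : 0 < h) {ζ : Conf N → ℝ}
    (hζ : Cut m h Ri ζ) {ψ : RW N} (hψ : Adms ψ) :
    ∑ σ, ∫ X, (10 ^ 4 * ∑ j ∈ crowd m X, nuc m X j / dc m X j ^ 2
        - 801 * ∑ j, nuc m X j / dc m X j ^ 2) * (ζ X ^ 2 * ψ σ X ^ 2)
      ≤ ∑ σ, ∫ X, ∑ i, gsq i (fun Y => gw m ζ i Y * ψ σ Y) X := by
  have hm2 : 2 ≤ m := le_trans (by norm_num) hm
  have hm4 : 10 ^ 4 ≤ m := le_trans (by norm_num) hm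
  have hmr : (10 : ℝ) ^ 30 ≤ (m : ℝ) := by exact_mod_cast hm
  have hm0 : (0 : ℝ) < (m : ℝ) := lt_of_lt_of_le (by norm_num) hmr
  -- integrability
  have iA : ∀ σ, Integrable (fun X => (∑ j, nuc m X j / dc m X j ^ 2) * (ζ X ^ 2 * ψ σ X ^ 2)) :=
    fun σ => K10_intA hm2 hN hh hζ (hψ.1 σ)
  have iC : ∀ σ, Integrable (fun X => (∑ j ∈ crowd m X, nuc m X j / dc m X j ^ 2)
      * (ζ X ^ 2 * ψ σ X ^ 2)) := fun σ => K10_intC hm2 hN hh hζ (hψ.1 σ)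
  have iE : ∀ σ, Integrable (fun X => ∑ i, gsq i (fun Y => gw m ζ i Y * ψ σ Y) X) := fun σ =>
    integrable_finsetSum _ fun i _ => ((gw_lipC hm2 hN hh hζ i).mulC (hψ.1 σ)).integrable_gsq i
  -- names
  set E : ℝ := ∑ σ, ∫ X, ∑ i, gsq i (fun Y => gw m ζ i Y * ψ σ Y) X with hE
  set Sa : ℝ := ∑ σ, ∫ X, (∑ j, nuc m X j / dc m X j ^ 2) * (ζ X ^ 2 * ψ σ X ^ 2) with hSa
  set Sc : ℝ := ∑ σ, ∫ X, (∑ j ∈ crowd m X, nuc m X j / dc m X j ^ 2) * (ζ X ^ 2 * ψ σ X ^ 2)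
    with hSc
  have hE0 : 0 ≤ E := Finset.sum_nonneg fun σ _ => integral_nonneg fun X =>
    Finset.sum_nonneg fun i _ => gsq_nonneg i _ X
  have hSa0 : 0 ≤ Sa := Finset.sum_nonneg fun σ _ => integral_nonneg fun X =>
    K10_nonneg hm2 hN hζ (ψ σ) _ X
  have hSc0 : 0 ≤ Sc := Finset.sum_nonneg fun σ _ => integral_nonneg fun X =>
    K10_nonneg hm2 hN hζ (ψ σ) _ X
  -- the left side
  have eL : ∑ σ, ∫ X, (10 ^ 4 * ∑ j ∈ crowd m X, nuc m X j / dc m X j ^ 2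
        - 801 * ∑ j, nuc m X j / dc m X j ^ 2) * (ζ X ^ 2 * ψ σ X ^ 2) = 10 ^ 4 * Sc - 801 * Sa := by
    rw [hSc, hSa, Finset.mul_sum, Finset.mul_sum, ← Finset.sum_sub_distrib]
    refine Finset.sum_congr rfl fun σ _ => ?_
    rw [← integral_const_mul, ← integral_const_mul, ← integral_sub ((iC σ).const_mul _) ((iA σ).const_mul _)]
    refine integral_congr_ae (Filter.Eventually.of_forall fun X => ?_)
    simp only
    ring
  -- the three terms of `K_total`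
  have e1 : ∑ σ, ∫⁻ X, ENNReal.ofReal ((10 ^ 8 / 48 * ∑ j ∈ crowd m X, nuc m X j / dc m X j ^ 2)
      * (ζ X ^ 2 * ψ σ X ^ 2)) = ENNReal.ofReal (10 ^ 8 / 48 * Sc) := by
    have hr : ∀ (σ : Spin N) (X : Conf N), (10 ^ 8 / 48 * ∑ j ∈ crowd m X, nuc m X j / dc m X j ^ 2)
        * (ζ X ^ 2 * ψ σ X ^ 2) = 10 ^ 8 / 48 * ((∑ j ∈ crowd m X, nuc m X j / dc m X j ^ 2)
        * (ζ X ^ 2 * ψ σ X ^ 2)) := fun σ X => by ring
    simp only [hr]
    rw [K10_sum (F := fun σ X => 10 ^ 8 / 48 * ((∑ j ∈ crowd m X, nuc m X j / dc m X j ^ 2)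
        * (ζ X ^ 2 * ψ σ X ^ 2))) (fun σ => (iC σ).const_mul _) (fun σ X => mul_nonneg (by norm_num)
        (K10_nonneg hm2 hN hζ (ψ σ) _ X))]
    congr 1
    rw [hSc, Finset.mul_sum]
    refine Finset.sum_congr rfl fun σ _ => ?_
    rw [integral_const_mul]
  have e3 : ∑ σ, ∫⁻ X, ENNReal.ofReal ((10 ^ 21 / m * ∑ j, nuc m X j / dc m X j ^ 2)
      * (ζ X ^ 2 * ψ σ X ^ 2)) = ENNReal.ofReal (10 ^ 21 / m * Sa) := by
    have hr : ∀ (σ : Spin N) (X : Conf N), (10 ^ 21 / m * ∑ j, nuc m X j / dc m X j ^ 2)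
        * (ζ X ^ 2 * ψ σ X ^ 2) = 10 ^ 21 / m * ((∑ j, nuc m X j / dc m X j ^ 2)
        * (ζ X ^ 2 * ψ σ X ^ 2)) := fun σ X => by ring
    simp only [hr]
    rw [K10_sum (F := fun σ X => 10 ^ 21 / m * ((∑ j, nuc m X j / dc m X j ^ 2)
        * (ζ X ^ 2 * ψ σ X ^ 2))) (fun σ => (iA σ).const_mul _) (fun σ X => mul_nonneg (by positivity)
        (K10_nonneg hm2 hN hζ (ψ σ) _ X))]
    congr 1
    rw [hSa, Finset.mul_sum]
    refine Finset.sum_congr rfl fun σ _ => ?_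
    rw [integral_const_mul]
  have e2 : ∑ σ, ∫⁻ X, ∑ i, ENNReal.ofReal (8 / 3 * gsq i (fun Y => gw m ζ i Y * ψ σ Y) X
            + 800 * (nuc m X i / dc m X i ^ 2 * (ζ X ^ 2 * ψ σ X ^ 2)))
      = ENNReal.ofReal (8 / 3 * E + 800 * Sa) := by
    have hr : ∀ (σ : Spin N) (X : Conf N), ∑ i, ENNReal.ofReal (8 / 3 * gsq i (fun Y => gw m ζ i Y * ψ σ Y) X
            + 800 * (nuc m X i / dc m X i ^ 2 * (ζ X ^ 2 * ψ σ X ^ 2)))
        = ENNReal.ofReal (8 / 3 * (∑ i, gsq i (fun Y => gw m ζ i Y * ψ σ Y) X)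
            + 800 * ((∑ i, nuc m X i / dc m X i ^ 2) * (ζ X ^ 2 * ψ σ X ^ 2))) := by
      intro σ X
      rw [← ENNReal.ofReal_sum_of_nonneg]
      · congr 1
        rw [Finset.sum_add_distrib, Finset.mul_sum, Finset.sum_mul, Finset.mul_sum]
      · intro i _
        have h1 := gsq_nonneg i (fun Y => gw m ζ i Y * ψ σ Y) X
        have h2 := K10_nonneg1 hm2 hN hζ (ψ σ) i X
        positivity
    simp only [hr]
    rw [K10_sum (F := fun σ X => 8 / 3 * (∑ i, gsq i (fun Y => gw m ζ i Y * ψ σ Y) X)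
            + 800 * ((∑ i, nuc m X i / dc m X i ^ 2) * (ζ X ^ 2 * ψ σ X ^ 2)))
        (fun σ => ((iE σ).const_mul _).add ((iA σ).const_mul _)) (fun σ X => add_nonneg
          (mul_nonneg (by norm_num) (Finset.sum_nonneg fun i _ => gsq_nonneg i _ X))
          (mul_nonneg (by norm_num) (K10_nonneg hm2 hN hζ (ψ σ) _ X)))]
    congr 1
    rw [hE, hSa, Finset.mul_sum, Finset.mul_sum, ← Finset.sum_add_distrib]
    refine Finset.sum_congr rfl fun σ _ => ?_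
    rw [integral_add ((iE σ).const_mul _) ((iA σ).const_mul _), integral_const_mul, integral_const_mul]
  have hK := K_total hm4 hN hh hζ hψ
  rw [e1, e2, e3] at hK
  have h4 : (4 : ENNReal) = ENNReal.ofReal 4 := by
    rw [ENNReal.ofReal_ofNat]
  rw [h4, ← ENNReal.ofReal_mul (by norm_num), ← ENNReal.ofReal_mul (by norm_num),
    ← ENNReal.ofReal_mul (by norm_num), ← ENNReal.ofReal_add (by positivity) (by positivity),
    ENNReal.ofReal_le_ofReal_iff (by positivity)] at hK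
  rw [eL]
  have hq : 1 / 8 * (10 ^ 21 / (m : ℝ) * Sa) ≤ Sa := by
    have h5 : (10 : ℝ) ^ 21 / (m : ℝ) ≤ 1 := by
      rw [div_le_one hm0]
      exact le_trans (by norm_num) hmr
    nlinarith
  nlinarith

end Ion
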