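import Pool.Agent.Lib.MP_69e010_mp.K1
import Pool.Agent.Lib.MP_69e010_mp.KApi

/-!
# JOB K2: the test functions are admissible

Fix `y ≠ 0`, `l > 0`, `hζ : Cut m h Ri ζ`, `0 < h`. `Fw y l X = Aw X · S X · ζ X`, `Aw = th (l/(kap d)) tc (d/|y|)`, `S = √(s(y)v(y))`, `d = dd m X y`.
* `sy_vy_pos`: `sy = tau m y * dd m X y`, `tau m y = min (eps m) ‖y‖ > 0` (`eps m = ea m ^ 12 > 0`, `m ≥ 2`), `dd_pos`, `vy_pos_le`; and `sy ≤ ‖y‖·‖y‖/4`... so `√(sy vy) ≤ ‖y‖` (`tau ≤ ‖y‖`, `dd ≤ ‖y‖/4`, `vy ≤ 1`).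
* `Aw_lip`: `0 ≤ Aw ≤ 1` and `|Aw X - Aw X'| ≤ KA dist X X'`, `KA = 16 kap/l + 100/‖y‖`: `th_inv_lip`, `tc_lip`, `|dd m X y - dd m X' y| ≤ dist X X'` (`dd_lip` with `c = dist X X'`, `dist_le_pi_dist`), `dd ≥ 0`.
* `Fw_lipC`: put `P = Aw · ζ`: Lipschitz (product of functions with values in `[0,1]`), constant `KP`. `Fw = P · S`. Use `lip_of_slope` with `L = KP M + C M/h' + 1`, `M = ‖y‖`, `h' = min h (l/(2 kap))`, `C = 100 + 20000 N`.
  Slope at `X` with `P X = 0`: `|Fw X'| = P X' · S X' ≤ M |P X' - P X|` (if `P X' ≠ 0` then `X'` is good and `S X' ≤ M`). Slope at `X` with `P X ≠ 0`: then `th ≠ 0`, so `l/(kap d) < 2`, `d > l/(2 kap) ≥ h'`, `ζ X ≠ 0`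
  gives `Good` and `h ≤ dc m X j`; `slope_of_lip` for `P`, `slope_sqrt_svy` for `S` (slope `C/h' S X ≤ C M/h'`), `slope_mul`.
  Compact support: `Fw X ≠ 0` implies `ζ X ≠ 0` (`HasCompactSupport.mul_left`/`mul_right` with `(cut_lipC hζ).2`).
* `Fw_symm`: `dd_perm`, `sy_perm`, `vy_perm` (I3), `hζ.symm`.
* `Fw_adms`: `mulw`; the product of two `LipC` functions is `LipC` (`LipC.mulC`), antisymmetry from `Fw_symm`.
* `Fw_sq`: `√a² = a` for `a ≥ 0`; if `ζ X = 0` both sides vanish.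
-/

open MeasureTheory Metric Finset Filter Topology

noncomputable section

namespace Ion

variable {N : ℕ}

theorem K2_dd_nonneg (m : ℕ) (X : Conf N) (y : E3) : 0 ≤ dd m X y := by
  unfold dd
  exact le_min (DD_nonneg m X y) (by positivity)

theorem sy_vy_pos {m : ℕ} (hm : 2 ≤ m) (hN : m ≤ N) {X : Conf N} (hX : Good m X) {y : E3} (hy : y ≠ 0) :
    0 < sy m X y * vy m X y ∧ √(sy m X y * vy m X y) ≤ ‖y‖ := by
  obtain ⟨hv0, hv1⟩ := vy_pos_le hm hN hX hy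
  have hd : 0 < dd m X y := dd_pos (by omega) hN hX hy
  have hn : 0 < ‖y‖ := norm_pos_iff.mpr hy
  have hm0 : (0 : ℝ) < m := by
    have : 0 < m := by omega
    exact_mod_cast this
  have hea : 0 < ea m := by
    unfold ea
    positivity
  have heps : 0 < eps m := pow_pos hea 12
  have htau : 0 < tau m y := lt_min heps hn
  have htau2 : tau m y ≤ ‖y‖ := min_le_right _ _
  have hd2 : dd m X y ≤ ‖y‖ / 4 := min_le_right _ _
  have hsy : 0 < sy m X y := mul_pos htau hd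
  refine ⟨mul_pos hsy hv0, ?_⟩
  rw [Real.sqrt_le_left hn.le]
  have h1 : sy m X y * vy m X y ≤ sy m X y * 1 := mul_le_mul_of_nonneg_left hv1 hsy.le
  have h2 : sy m X y ≤ ‖y‖ * (‖y‖ / 4) := mul_le_mul htau2 hd2 hd.le hn.le
  nlinarith [sq_nonneg ‖y‖]

theorem Aw_nonneg (m : ℕ) (y : E3) (l : ℝ) (X : Conf N) : 0 ≤ Aw m y l X := by
  exact mul_nonneg (th_nonneg _) (tc_nonneg _)

theorem Aw_le_one (m : ℕ) (y : E3) (l : ℝ) (X : Conf N) : Aw m y l X ≤ 1 := by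
  exact mul_le_one₀ (th_le_one _) (tc_nonneg _) (tc_le_one _)

/-- product of two functions with values in `[0,1]` -/
theorem K2_prod {a b a' b' : ℝ} (hb0 : 0 ≤ b) (hb1 : b ≤ 1) (ha0 : 0 ≤ a') (ha1 : a' ≤ 1) :
    |a * b - a' * b'| ≤ |a - a'| + |b - b'| := by
  have e : a * b - a' * b' = (a - a') * b + a' * (b - b') := by ring
  rw [e]
  refine (abs_add_le _ _).trans ?_
  rw [abs_mul, abs_mul, abs_of_nonneg hb0, abs_of_nonneg ha0]
  have h1 := mul_le_mul_of_nonneg_left hb1 (abs_nonneg (a - a'))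
  have h2 := mul_le_mul_of_nonneg_right ha1 (abs_nonneg (b - b'))
  linarith

theorem Aw_lip {m : ℕ} (hN : m ≤ N) {y : E3} (hy : y ≠ 0) {l : ℝ} (hl : 0 < l) :
    ∃ K, LipschitzWith K (fun X : Conf N => Aw m y l X) := by
  have hn : 0 < ‖y‖ := norm_pos_iff.mpr hy
  have hk : 0 < kap := by
    unfold kap
    norm_num
  refine ⟨Real.toNNReal (16 * kap / l + 100 / ‖y‖), LipschitzWith.of_dist_le_mul fun X X' => ?_⟩
  rw [Real.coe_toNNReal _ (by positivity), Real.dist_eq]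
  have h0 : |dd m X y - dd m X' y| ≤ dist X X' := by
    have h1 := dd_lip (m := m) hN (X := X) (X' := X') y y (c := dist X X') dist_nonneg fun j => by
      rw [← dist_eq_norm]
      exact dist_le_pi_dist X X' j
    rwa [sub_self, norm_zero, add_zero] at h1
  have h1 : |th (l / (kap * dd m X y)) - th (l / (kap * dd m X' y))| ≤ 16 * kap / l * dist X X' :=
    (th_inv_lip hl (K2_dd_nonneg m X y) (K2_dd_nonneg m X' y)).trans
      (mul_le_mul_of_nonneg_left h0 (by positivity))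
  have h2 : |tc (dd m X y / ‖y‖) - tc (dd m X' y / ‖y‖)| ≤ 100 / ‖y‖ * dist X X' := by
    refine (tc_lip _ _).trans ?_
    rw [← sub_div, abs_div, abs_of_pos hn]
    have h3 : 100 * (|dd m X y - dd m X' y| / ‖y‖) = 100 / ‖y‖ * |dd m X y - dd m X' y| := by ring
    rw [h3]
    exact mul_le_mul_of_nonneg_left h0 (by positivity)
  unfold Aw
  refine (K2_prod (tc_nonneg _) (tc_le_one _) (th_nonneg _) (th_le_one _)).trans ?_
  rw [add_mul]
  exact add_le_add h1 h2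

theorem Fw_nonneg {m : ℕ} {h Ri : ℝ} {ζ : Conf N → ℝ} (hζ : Cut m h Ri ζ) (y : E3) (l : ℝ) (X : Conf N) :
    0 ≤ Fw m ζ y l X := by
  exact mul_nonneg (mul_nonneg (Aw_nonneg m y l X) (Real.sqrt_nonneg _)) (hζ.nonneg X)

theorem K2_Fw_eq (m : ℕ) (ζ : Conf N → ℝ) (y : E3) (l : ℝ) :
    Fw m ζ y l = fun X => (Aw m y l X * ζ X) * √(sy m X y * vy m X y) := by
  funext X
  unfold Fw
  ring

theorem K2_Fw_le {m : ℕ} (hm : 2 ≤ m) (hN : m ≤ N) {h Ri : ℝ} {ζ : Conf N → ℝ}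
    (hζ : Cut m h Ri ζ) {y : E3} (hy : y ≠ 0) (l : ℝ) (X : Conf N) :
    Fw m ζ y l X ≤ ‖y‖ * (Aw m y l X * ζ X) := by
  rw [K2_Fw_eq]
  by_cases h0 : ζ X = 0
  · simp only [h0, mul_zero, zero_mul]
    exact le_refl _
  · have hg := (hζ.supp X h0).1
    have h1 := (sy_vy_pos hm hN hg hy).2
    have h2 : 0 ≤ Aw m y l X * ζ X := mul_nonneg (Aw_nonneg m y l X) (hζ.nonneg X)
    have h3 := mul_le_mul_of_nonneg_left h1 h2
    simp only
    linarith

theorem Fw_lipC {m : ℕ} (hm : 2 ≤ m) (hN : m ≤ N) {h Ri : ℝ} (hh : 0 < h) {ζ : Conf N → ℝ}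
    (hζ : Cut m h Ri ζ) {y : E3} (hy : y ≠ 0) {l : ℝ} (hl : 0 < l) : LipC (Fw m ζ y l) := by
  have hn : 0 < ‖y‖ := norm_pos_iff.mpr hy
  have hk : 0 < kap := by
    unfold kap
    norm_num
  have hN0 : (0 : ℝ) ≤ N := Nat.cast_nonneg N
  obtain ⟨K1, hK1⟩ := Aw_lip (N := N) hN hy hl
  obtain ⟨K2, hK2⟩ := hζ.lip
  have hP : LipschitzWith (K1 + K2) (fun X : Conf N => Aw m y l X * ζ X) := by
    refine LipschitzWith.of_dist_le_mul fun X X' => ?_
    have h1 := hK1.dist_le_mul X X'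
    have h2 := hK2.dist_le_mul X X'
    rw [Real.dist_eq] at h1 h2 ⊢
    push_cast
    rw [add_mul]
    exact (K2_prod (hζ.nonneg X) (hζ.le_one X) (Aw_nonneg m y l X') (Aw_le_one m y l X')).trans
      (add_le_add h1 h2)
  set KP : NNReal := K1 + K2 with hKP
  set h' : ℝ := min h (l / (2 * kap)) with hh'
  have hh'0 : 0 < h' := lt_min hh (by positivity)
  set c : ℝ := KP * ‖y‖ + (100 + 20000 * N) / h' * ‖y‖ + 1 with hc
  have hc0 : 0 ≤ c := by
    have := KP.coe_nonneg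
    positivity
  have hslope : ∀ X k, Slope (Fw m ζ y l) X k c := by
    intro X k
    have hPX0 : 0 ≤ Aw m y l X * ζ X := mul_nonneg (Aw_nonneg m y l X) (hζ.nonneg X)
    by_cases h0 : Aw m y l X * ζ X = 0
    · have h1 := slope_of_lip hP X k
      unfold Slope at h1 ⊢
      filter_upwards [h1] with x' hx'
      have hX : Fw m ζ y l X = 0 := by
        rw [K2_Fw_eq]
        simp only [h0, zero_mul]
      rw [hX, sub_zero, abs_of_nonneg (Fw_nonneg hζ y l _)]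
      have hPX' : 0 ≤ Aw m y l (Function.update X k x') * ζ (Function.update X k x') :=
        mul_nonneg (Aw_nonneg m y l _) (hζ.nonneg _)
      rw [h0, sub_zero, abs_of_nonneg hPX'] at hx'
      have h4 := K2_Fw_le hm hN hζ hy l (Function.update X k x')
      have h5 := mul_le_mul_of_nonneg_left hx' hn.le
      have h6 : 0 ≤ ‖x' - X k‖ := norm_nonneg _
      have h7 : 0 ≤ (100 + 20000 * (N : ℝ)) / h' * ‖y‖ + 1 := by positivity
      have h8 := mul_nonneg h7 h6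
      rw [hc]
      linarith
    · have hA : Aw m y l X ≠ 0 := left_ne_zero_of_mul h0
      have hζX : ζ X ≠ 0 := right_ne_zero_of_mul h0
      obtain ⟨hg, hd, hR⟩ := hζ.supp X hζX
      have hth : th (l / (kap * dd m X y)) ≠ 0 := by
        intro h1
        apply hA
        unfold Aw
        rw [h1, zero_mul]
      have hdd : 0 < dd m X y := dd_pos (by omega) hN hg hy
      have h2 := (th_ne hth).2
      have h3 : l / (2 * kap) ≤ dd m X y := by
        rw [div_lt_iff₀ (by positivity)] at h2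
        rw [div_le_iff₀ (by positivity)]
        nlinarith
      have h4 : h' ≤ dd m X y := (min_le_right _ _).trans h3
      have h5 : ∀ j, h' ≤ dc m X j := fun j => (min_le_left _ _).trans (hd j)
      have h6 := slope_sqrt_svy hm hN hg hy hh'0 h5 h4 k
      obtain ⟨h7, h8⟩ := sy_vy_pos hm hN hg hy
      have h9 : 0 ≤ √(sy m X y * vy m X y) := Real.sqrt_nonneg _
      have h10 : Aw m y l X * ζ X ≤ 1 := mul_le_one₀ (Aw_le_one m y l X) (hζ.nonneg X) (hζ.le_one X)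
      have h11 := slope_of_lip hP X k
      rw [K2_Fw_eq]
      refine slope_mul (F := fun X => Aw m y l X * ζ X) (G := fun X => √(sy m X y * vy m X y))
        KP.coe_nonneg (by positivity) h11 h6 ?_
      rw [abs_of_nonneg h9, abs_of_nonneg hPX0, hc]
      have h12 : (KP : ℝ) * √(sy m X y * vy m X y) ≤ KP * ‖y‖ :=
        mul_le_mul_of_nonneg_left h8 KP.coe_nonneg
      have h13 : (100 + 20000 * (N : ℝ)) / h' * √(sy m X y * vy m X y)
          ≤ (100 + 20000 * (N : ℝ)) / h' * ‖y‖ := mul_le_mul_of_nonneg_left h8 (by positivity)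
      have h14 : Aw m y l X * ζ X * ((100 + 20000 * (N : ℝ)) / h' * √(sy m X y * vy m X y))
          ≤ 1 * ((100 + 20000 * (N : ℝ)) / h' * ‖y‖) :=
        mul_le_mul h10 h13 (by positivity) zero_le_one
      linarith
  refine ⟨⟨Real.toNNReal (N * c), LipschitzWith.of_dist_le_mul fun X Y => ?_⟩, ?_⟩
  · rw [Real.coe_toNNReal _ (by positivity), Real.dist_eq]
    exact lip_of_slope hc0 hslope X Y
  · refine I1_compact hζ (fun X hX => ?_)
    unfold Fw
    rw [hX, mul_zero]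

theorem Fw_symm {m : ℕ} {h Ri : ℝ} {ζ : Conf N → ℝ} (hζ : Cut m h Ri ζ) (y : E3) (l : ℝ)
    (π : Equiv.Perm (Fin N)) (X : Conf N) : Fw m ζ y l (X ∘ π) = Fw m ζ y l X := by
  unfold Fw Aw
  rw [dd_perm, sy_perm, vy_perm, hζ.symm]

theorem Fw_adms {m : ℕ} (hm : 2 ≤ m) (hN : m ≤ N) {h Ri : ℝ} (hh : 0 < h) {ζ : Conf N → ℝ}
    (hζ : Cut m h Ri ζ) {y : E3} (hy : y ≠ 0) {l : ℝ} (hl : 0 < l) {ψ : RW N} (hψ : Adms ψ) :
    Adms (mulw (Fw m ζ y l) ψ) := by
  refine ⟨fun σ => (Fw_lipC hm hN hh hζ hy hl).mulC (hψ.1 σ), fun π σ X => ?_⟩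
  unfold mulw
  rw [Fw_symm hζ, hψ.2 π σ X]
  ring

theorem Fw_sq {m : ℕ} (hm : 2 ≤ m) (hN : m ≤ N) {h Ri : ℝ} {ζ : Conf N → ℝ}
    (hζ : Cut m h Ri ζ) {y : E3} (hy : y ≠ 0) (l : ℝ) (X : Conf N) :
    Fw m ζ y l X ^ 2 = ww m X y l * ζ X ^ 2 := by
  unfold Fw ww
  by_cases h0 : ζ X = 0
  · rw [h0]
    ring
  · have h1 := (sy_vy_pos hm hN (hζ.supp X h0).1 hy).1
    rw [mul_pow, mul_pow, Real.sq_sqrt h1.le]

end Ion
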