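import Pool.Agent.Lib.MP_69e010_mp.K1
import Pool.Agent.Lib.MP_69e010_mp.KApi

/-!
# JOB K3: joint measurability

The set `U = {(X, y, l) : Good m X ∧ y ≠ 0 ∧ 0 < l}` is open (`isOpen_good`), `dd m X y` is jointly continuous (`continuous_dd`) and positive on `U` (`dd_pos`), `vy` is continuous on `{Good, y ≠ 0}` (`continuousOn_vy`),
`th`, `tc` are continuous. So on `U` the function `(X,y,l) ↦ l⁻¹^6 * ww m X y l` is continuous (`ContinuousOn`: `l / (kap * dd)` has nonzero denominator, `dd/‖y‖` too; `sy m X y = min (eps m) ‖y‖ * dd m X y`).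
* `measurable_kA` etc.: `kA` as a function on `Conf N × (E3 × ℝ)` is an indicator of a measurable set (finite intersection of the open set `U` with sets `{continuous < continuous}`) of a measurable function: `Measurable.ite` or `Measurable.indicator`;
  for `kJ`, `kB` combine `ContinuousOn.measurable_piecewise` (piecewise with `0` outside `U`).
* `measurable_dc`: `dc m X j = dd m X (X j)` is continuous.
* `measurable_nud`: `nuc` is continuous on the open set `{Good}` (`continuousOn_nuc`) and `ζ X = 0` outside; quotient by `dc ^ 2`, which is continuous and `≠ 0` on the good set. (`measurable_mul_cut` in I1.)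
* `integrable_nud`: the function is `≤ Ri/h² ζ² ψ² ≤ Ri/h² ψ²` in absolute value (`nuc_le`: `0 < nuc ≤ ‖X j‖ ≤ Ri` and `dc ≥ h` where `ζ ≠ 0`), `ψ²` integrable (`LipC.integrable_sq`).
-/

open MeasureTheory Metric Finset Filter Topology

noncomputable section

namespace Ion

variable {N : ℕ}

theorem K3_dd_cont {m : ℕ} (hN : m ≤ N) : Continuous (fun p : Conf N × (E3 × ℝ) => dd m p.1 p.2.1) := by
  have h1 := continuous_dd hN
  have h2 : Continuous (fun p : Conf N × (E3 × ℝ) => ((p.1, p.2.1) : Conf N × E3)) :=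
    continuous_fst.prodMk (continuous_fst.comp continuous_snd)
  have h3 := h1.comp h2
  exact h3

theorem K3_dc_cont {m : ℕ} (hN : m ≤ N) (j : Fin N) : Continuous (fun X : Conf N => dc m X j) := by
  have h1 := continuous_dd hN
  have h2 : Continuous (fun X : Conf N => ((X, X j) : Conf N × E3)) :=
    continuous_id.prodMk (continuous_apply j)
  have h3 := h1.comp h2
  exact h3

theorem measurable_dc {m : ℕ} (hN : m ≤ N) (j : Fin N) : Measurable (fun X : Conf N => dc m X j) :=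
  (K3_dc_cont hN j).measurable

/-- the domain `U` -/
def K3_U (N m : ℕ) : Set (Conf N × (E3 × ℝ)) := {p | 0 < p.2.2 ∧ p.2.1 ≠ 0 ∧ Good m p.1}

theorem K3_U_meas {m : ℕ} (hN : m ≤ N) : MeasurableSet (K3_U N m) := by
  have h1 : MeasurableSet {p : Conf N × (E3 × ℝ) | 0 < p.2.2} :=
    measurableSet_lt measurable_const (measurable_snd.comp measurable_snd)
  have h2 : MeasurableSet {p : Conf N × (E3 × ℝ) | p.2.1 ≠ 0} := by
    have : IsOpen {p : Conf N × (E3 × ℝ) | p.2.1 ≠ 0} :=
      isOpen_ne_fun (continuous_fst.comp continuous_snd) continuous_const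
    exact this.measurableSet
  have h3 : MeasurableSet {p : Conf N × (E3 × ℝ) | Good m p.1} := by
    have h4 := (isOpen_good hN).measurableSet
    exact measurable_fst h4
  exact h1.inter (h2.inter h3)

theorem K3_near_meas (i : Fin N) : MeasurableSet {p : Conf N × (E3 × ℝ) | ‖p.1 i - p.2.1‖ < p.2.2} := by
  have h1 : Continuous (fun p : Conf N × (E3 × ℝ) => ‖p.1 i - p.2.1‖) :=
    (((continuous_apply i).comp continuous_fst).sub (continuous_fst.comp continuous_snd)).norm
  exact measurableSet_lt h1.measurable (measurable_snd.comp measurable_snd)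

theorem K3_g_cont {m : ℕ} (hm : 2 ≤ m) (hN : m ≤ N) :
    ContinuousOn (fun p : Conf N × (E3 × ℝ) => p.2.2⁻¹ ^ 6 * ww m p.1 p.2.1 p.2.2) (K3_U N m) := by
  have hm1 : 1 ≤ m := by omega
  have hdd := (K3_dd_cont (m := m) hN).continuousOn (s := K3_U N m)
  have hl : ContinuousOn (fun p : Conf N × (E3 × ℝ) => p.2.2) (K3_U N m) :=
    (continuous_snd.comp continuous_snd).continuousOn
  have hy : ContinuousOn (fun p : Conf N × (E3 × ℝ) => ‖p.2.1‖) (K3_U N m) :=
    (continuous_fst.comp continuous_snd).norm.continuousOn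
  have hvy : ContinuousOn (fun p : Conf N × (E3 × ℝ) => vy m p.1 p.2.1) (K3_U N m) := by
    have h1 := continuousOn_vy hm hN
    have h2 : Continuous (fun p : Conf N × (E3 × ℝ) => ((p.1, p.2.1) : Conf N × E3)) :=
      continuous_fst.prodMk (continuous_fst.comp continuous_snd)
    have h3 := h1.comp (t := {q : Conf N × E3 | Good m q.1 ∧ q.2 ≠ 0}) (s := K3_U N m)
      h2.continuousOn (fun p hp => ⟨hp.2.2, hp.2.1⟩)
    exact h3
  have hkap : (0:ℝ) < kap := by unfold kap; norm_num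
  have hpos : ∀ p ∈ K3_U N m, 0 < dd m p.1 p.2.1 := fun p hp => dd_pos hm1 hN hp.2.2 hp.2.1
  have hA : ContinuousOn (fun p : Conf N × (E3 × ℝ) => Aw m p.2.1 p.2.2 p.1) (K3_U N m) := by
    unfold Aw
    refine ContinuousOn.mul ?_ ?_
    · refine continuous_th.comp_continuousOn (hl.div (continuousOn_const.mul hdd) fun p hp => ?_)
      exact (mul_pos hkap (hpos p hp)).ne'
    · refine continuous_tc.comp_continuousOn (hdd.div hy fun p hp => ?_)
      exact norm_ne_zero_iff.mpr hp.2.1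
  have hsy : ContinuousOn (fun p : Conf N × (E3 × ℝ) => sy m p.1 p.2.1) (K3_U N m) := by
    unfold sy tau
    exact (continuousOn_const.inf hy).mul hdd
  unfold ww
  refine ContinuousOn.mul ((hl.inv₀ fun p hp => hp.1.ne').pow 6) ((hA.pow 2).mul (hsy.mul hvy))

open Classical in
theorem K3_G_meas {m : ℕ} (hm : 2 ≤ m) (hN : m ≤ N) :
    Measurable ((K3_U N m).piecewise
      (fun p : Conf N × (E3 × ℝ) => p.2.2⁻¹ ^ 6 * ww m p.1 p.2.1 p.2.2) (fun _ => 0)) :=
  (K3_g_cont hm hN).measurable_piecewise continuousOn_const (K3_U_meas hN)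

theorem measurable_kA {m : ℕ} (hm : 2 ≤ m) (hN : m ≤ N) (i : Fin N) :
    Measurable (fun p : Conf N × (E3 × ℝ) => kA m p.1 i p.2) := by
  unfold kA
  have hdd := (K3_dd_cont (m := m) hN).measurable
  have hl : Measurable (fun p : Conf N × (E3 × ℝ) => p.2.2) := measurable_snd.comp measurable_snd
  have hS : MeasurableSet {p : Conf N × (E3 × ℝ) | SA m p.1 i p.2.1 p.2.2} := by
    have h1 : {p : Conf N × (E3 × ℝ) | SA m p.1 i p.2.1 p.2.2}
        = K3_U N m ∩ ({p : Conf N × (E3 × ℝ) | ‖p.1 i - p.2.1‖ < p.2.2} ∩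
          ({p : Conf N × (E3 × ℝ) | kap * dd m p.1 p.2.1 < p.2.2} ∩
           {p : Conf N × (E3 × ℝ) | p.2.2 < 2 * kap * dd m p.1 p.2.1})) := by
      ext p
      simp only [SA, K3_U, Set.mem_ofPred_eq, Set.mem_inter_iff]
      tauto
    rw [h1]
    exact (K3_U_meas hN).inter ((K3_near_meas i).inter
      ((measurableSet_lt (hdd.const_mul _) hl).inter (measurableSet_lt hl (hdd.const_mul _))))
  exact Measurable.ite hS (ENNReal.measurable_ofReal.comp (hl.inv.pow_const 4)) measurable_const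

theorem measurable_kJ {m : ℕ} (hm : 2 ≤ m) (hN : m ≤ N) (i : Fin N) :
    Measurable (fun p : Conf N × (E3 × ℝ) => kJ m p.1 i p.2) := by
  classical
  have h2 : (fun p : Conf N × (E3 × ℝ) => kJ m p.1 i p.2) = fun p =>
      if p ∈ K3_U N m ∩ {p : Conf N × (E3 × ℝ) | ‖p.1 i - p.2.1‖ < p.2.2} then
        (ENNReal.ofReal ∘ ((K3_U N m).piecewise
          (fun p : Conf N × (E3 × ℝ) => p.2.2⁻¹ ^ 6 * ww m p.1 p.2.1 p.2.2) (fun _ => 0))) p else 0 := by
    funext p
    unfold kJ
    by_cases hp : p ∈ K3_U N m ∩ {p : Conf N × (E3 × ℝ) | ‖p.1 i - p.2.1‖ < p.2.2}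
    · have hp' : 0 < p.2.2 ∧ p.2.1 ≠ 0 ∧ Good m p.1 ∧ ‖p.1 i - p.2.1‖ < p.2.2 :=
        ⟨hp.1.1, hp.1.2.1, hp.1.2.2, hp.2⟩
      rw [if_pos hp, if_pos hp', Function.comp_apply, Set.piecewise_eq_of_mem _ _ _ hp.1]
    · have hp' : ¬ (0 < p.2.2 ∧ p.2.1 ≠ 0 ∧ Good m p.1 ∧ ‖p.1 i - p.2.1‖ < p.2.2) :=
        fun h => hp ⟨⟨h.1, h.2.1, h.2.2.1⟩, h.2.2.2⟩
      rw [if_neg hp, if_neg hp']
  rw [h2]
  exact Measurable.ite ((K3_U_meas (m := m) hN).inter (K3_near_meas i))
    (ENNReal.measurable_ofReal.comp (K3_G_meas hm hN)) (measurable_const (a := (0 : ENNReal)))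

theorem measurable_kB {m : ℕ} (hm : 2 ≤ m) (hN : m ≤ N) :
    Measurable (fun p : Conf N × (E3 × ℝ) => kB m p.1 p.2) := by
  classical
  have h2 : (fun p : Conf N × (E3 × ℝ) => kB m p.1 p.2) = fun p =>
      if p ∈ K3_U N m then
        (ENNReal.ofReal ∘ ((K3_U N m).piecewise
          (fun p : Conf N × (E3 × ℝ) => p.2.2⁻¹ ^ 6 * ww m p.1 p.2.1 p.2.2) (fun _ => 0))) p else 0 := by
    funext p
    unfold kB
    by_cases hp : p ∈ K3_U N m
    · have hp' : 0 < p.2.2 ∧ p.2.1 ≠ 0 ∧ Good m p.1 := hp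
      rw [if_pos hp, if_pos hp', Function.comp_apply, Set.piecewise_eq_of_mem _ _ _ hp]
    · have hp' : ¬ (0 < p.2.2 ∧ p.2.1 ≠ 0 ∧ Good m p.1) := hp
      rw [if_neg hp, if_neg hp']
  rw [h2]
  exact Measurable.ite (K3_U_meas (m := m) hN)
    (ENNReal.measurable_ofReal.comp (K3_G_meas hm hN)) (measurable_const (a := (0 : ENNReal)))

theorem measurable_nud {m : ℕ} (hm : 2 ≤ m) (hN : m ≤ N) {h Ri : ℝ} (hh : 0 < h) {ζ : Conf N → ℝ}
    (hζ : Cut m h Ri ζ) (j : Fin N) : Measurable (fun X => nuc m X j / dc m X j ^ 2 * ζ X ^ 2) := by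
  have hm1 : 1 ≤ m := by omega
  obtain ⟨K, hK⟩ := hζ.lip
  have h1 : ContinuousOn (fun X : Conf N => nuc m X j / dc m X j ^ 2) {X | Good m X} := by
    refine (continuousOn_nuc hm hN j).div ((K3_dc_cont hN j).continuousOn.pow 2) fun X hX => ?_
    have : 0 < dc m X j := dd_pos hm1 hN hX (hX.1 j)
    positivity
  have h2 := (measurable_mul_cut hN hζ h1).mul hK.continuous.measurable
  have h3 : (fun X => nuc m X j / dc m X j ^ 2 * ζ X ^ 2)
      = (fun X => nuc m X j / dc m X j ^ 2 * ζ X) * ζ := by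
    funext X
    simp only [Pi.mul_apply]
    ring
  rw [h3]
  exact h2

/-- the terms of the kinetic inequality are integrable -/
theorem integrable_nud {m : ℕ} (hm : 2 ≤ m) (hN : m ≤ N) {h Ri : ℝ} (hh : 0 < h) {ζ : Conf N → ℝ}
    (hζ : Cut m h Ri ζ) {f : Conf N → ℝ} (hf : LipC f) (j : Fin N) :
    Integrable (fun X => nuc m X j / dc m X j ^ 2 * (ζ X ^ 2 * f X ^ 2)) := by
  have h1 : Integrable (fun X : Conf N => |Ri| / h ^ 2 * (f X) ^ 2) := hf.integrable_sq.const_mul _
  refine h1.mono' ?_ (Eventually.of_forall fun X => ?_)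
  · have h2 := (measurable_nud hm hN hh hζ j).mul (hf.continuous.measurable.pow_const 2)
    have h3 : (fun X => nuc m X j / dc m X j ^ 2 * (ζ X ^ 2 * f X ^ 2))
        = fun X => nuc m X j / dc m X j ^ 2 * ζ X ^ 2 * f X ^ 2 := by
      funext X; ring
    rw [h3]
    exact h2.aestronglyMeasurable
  · by_cases h0 : ζ X = 0
    · rw [h0]
      have : 0 ≤ |Ri| / h ^ 2 * f X ^ 2 := by positivity
      simpa using this
    · obtain ⟨hG, hd, hX⟩ := hζ.supp X h0
      obtain ⟨hn0, hn1⟩ := nuc_le hm hN hG j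
      have hd1 : 0 < dc m X j := hh.trans_le (hd j)
      have hζ0 := hζ.nonneg X
      have hζ1 := hζ.le_one X
      have hz2 : ζ X ^ 2 ≤ 1 := by nlinarith
      rw [Real.norm_of_nonneg (by positivity)]
      have hR : nuc m X j ≤ Ri := hn1.trans (hX j)
      have hR0 : nuc m X j ≤ |Ri| := hR.trans (le_abs_self _)
      calc nuc m X j / dc m X j ^ 2 * (ζ X ^ 2 * f X ^ 2)
          ≤ |Ri| / h ^ 2 * (1 * f X ^ 2) := by
            have := hd j
            gcongr
        _ = _ := by ring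

theorem integrable_nud_crowd {m : ℕ} (hm : 2 ≤ m) (hN : m ≤ N) {h Ri : ℝ} (hh : 0 < h) {ζ : Conf N → ℝ}
    (hζ : Cut m h Ri ζ) {f : Conf N → ℝ} (hf : LipC f) (j : Fin N) :
    Integrable (fun X => (if dc m X j ≤ ‖X j‖ / 200 then nuc m X j / dc m X j ^ 2 else 0) * (ζ X ^ 2 * f X ^ 2)) := by
  have h1 := integrable_nud hm hN hh hζ hf j
  have hn : Measurable (fun X : Conf N => ‖X j‖ / 200) :=
    ((continuous_apply j).norm.div_const 200).measurable
  have hS : MeasurableSet {X : Conf N | dc m X j ≤ ‖X j‖ / 200} := measurableSet_le (measurable_dc hN j) hn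
  refine (h1.indicator hS).congr (Eventually.of_forall fun X => ?_)
  by_cases h : dc m X j ≤ ‖X j‖ / 200
  · rw [Set.indicator_of_mem (show X ∈ {X : Conf N | dc m X j ≤ ‖X j‖ / 200} from h)]
    simp only [if_pos h]
  · rw [Set.indicator_of_notMem (show X ∉ {X : Conf N | dc m X j ≤ ‖X j‖ / 200} from h)]
    simp only [if_neg h, zero_mul]

end Ion
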