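import Pool.Agent.Lib.MP_69e010_mp.K2

/-!
# JOB K4: pointwise gradient bound for the test functions

Fix `y ≠ 0`, `l > 0`, `i`. Let `X` be a point where `Fw m ζ y l`, `gw m ζ i`, `f` are differentiable (a.e. `X`: `LipC.ae_diffC`, `Fw_lipC`, `gw_lipC`), `‖X i - y‖ < l`.
* Case `Fw X = 0`: `Fw ≥ 0` and `|Fw Y f Y| ≤ C Fw Y` (`|f| ≤ C`), so `gsq i (Fw f) X = 0` by `gsq_zero_of_dom`; the right side is `≥ 0`.
* Case `Fw X ≠ 0`: then `Aw X ≠ 0`, `ζ X ≠ 0`, so `Good m X`; `th ≠ 0` gives `1 < l/(kap d) < 2`, i.e. `kap d < l < 2 kap d` (`d = dd m X y > 0`), hence `‖X i - y‖ < l < 2 kap d ≤ d/100` and `SA m X i y l` holds.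
  Put `r Y = Fw Y / gw i Y`. `gw i X = √ν_i ζ ≠ 0` (`nuc_le`), so `r` is differentiable at `X` and `Fw Y f Y = r Y · (gw i Y f Y)` for `Y` near `X` (`gw i Y ≠ 0` near `X` by continuity): `gsq i (Fw f) X = gsq i (r · (gw i f)) X`
  (`Filter.EventuallyEq.fderiv_eq`) and `gsq_mul_le`: `≤ 2 r² gsq i (gw i f) X + 2 (gw i f X)² gsq i r X`.
  `r X² = Aw² (s v)/ν_i ≤ 4/3` (`ratio_nu`, needs `‖X i - y‖ ≤ d/100`).
  `gsq i r X ≤ (20/d_i)²` by `gsq_le_of_slope`: for `x'` near `X i`, with `X' = update X i x'`: `ζ X' ≠ 0` and `X'` good (continuity of `ζ`), `dd m X' y = d` (`dd_const_near`, `‖X i - y‖ < d`), so `Aw X' = Aw X =: a ≤ 1` and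
  `r X' = a √(s v(X')/ν_i(X'))` (`Real.sqrt_div`, `ζ` cancels), same at `X`; `slope_ratio` gives `|r X' - r X| ≤ a (20/d_i) ‖x' - X i‖ ≤ (20/d_i)‖x' - X i‖`.
  Finally `2·(4/3) = 8/3`, `2·400 = 800`.
-/

open MeasureTheory Metric Finset Filter Topology

noncomputable section

namespace Ion

variable {N : ℕ}

theorem K4_gsq_nonneg (k : Fin N) (F : Conf N → ℝ) (X : Conf N) : 0 ≤ gsq k F X :=
  Finset.sum_nonneg fun _ _ => sq_nonneg _

theorem K4_gsq_congr {F G : Conf N → ℝ} {X : Conf N} (k : Fin N) (h : F =ᶠ[𝓝 X] G) :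
    gsq k F X = gsq k G X := by
  unfold gsq pd
  rw [h.fderiv_eq]

theorem K4_ratio {m : ℕ} (hm : 2 ≤ m) (hN : m ≤ N) {h Ri : ℝ} {ζ : Conf N → ℝ} (hζ : Cut m h Ri ζ)
    {y : E3} (hy : y ≠ 0) (l : ℝ) (i : Fin N) {X : Conf N} (hX : ζ X ≠ 0) :
    Fw m ζ y l X / gw m ζ i X = Aw m y l X * √(sy m X y * vy m X y / nuc m X i) := by
  have hG : Good m X := (hζ.supp X hX).1
  have h1 := (sy_vy_pos hm hN hG hy).1
  have h2 := (nuc_le hm hN hG i).1
  have h3 : √(nuc m X i) ≠ 0 := (Real.sqrt_pos.2 h2).ne'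
  rw [Real.sqrt_div h1.le]
  unfold Fw gw
  field_simp

theorem K4_slope {m : ℕ} (hm : 10 ^ 4 ≤ m) (hN : m ≤ N) {h Ri : ℝ} {ζ : Conf N → ℝ}
    (hζ : Cut m h Ri ζ) {y : E3} (hy : y ≠ 0) (l : ℝ) (i : Fin N) {X : Conf N} (hX : ζ X ≠ 0)
    (hXy : ‖X i - y‖ < dd m X y / 100) :
    Slope (fun Y => Fw m ζ y l Y / gw m ζ i Y) X i (20 / dc m X i) := by
  have hm2 : 2 ≤ m := le_trans (by norm_num) hm
  have hG : Good m X := (hζ.supp X hX).1
  have h0 : 0 ≤ dd m X y := by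
    have := norm_nonneg (X i - y)
    linarith
  have s1 := slope_ratio hm hN hG hy hXy
  have s2 := dd_const_near hm2 hN hG hy (i := i) (by linarith [norm_nonneg (X i - y)])
  have s3 : ∀ᶠ x' in 𝓝 (X i), ζ (Function.update X i x') ≠ 0 := by
    obtain ⟨K, hK⟩ := hζ.lip
    have hc : Continuous fun x' : E3 => ζ (Function.update X i x') :=
      hK.continuous.comp (continuous_const.update i continuous_id)
    have h1 := hc.tendsto (X i)
    rw [Function.update_eq_self] at h1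
    exact h1.eventually_ne hX
  unfold Slope at s1 ⊢
  filter_upwards [s1, s2, s3] with x' h1 h2 h3
  rw [K4_ratio hm2 hN hζ hy l i hX, K4_ratio hm2 hN hζ hy l i h3]
  have h4 : Aw m y l (Function.update X i x') = Aw m y l X := by
    unfold Aw
    rw [h2]
  rw [h4, ← mul_sub, abs_mul, abs_of_nonneg (Aw_nonneg m y l X)]
  calc Aw m y l X * _ ≤ 1 * _ := mul_le_mul_of_nonneg_right (Aw_le_one m y l X) (abs_nonneg _)
    _ ≤ _ := by rw [one_mul]; exact h1

theorem gsq_Fw_le {m : ℕ} (hm : 10 ^ 4 ≤ m) (hN : m ≤ N) {h Ri : ℝ} (hh : 0 < h) {ζ : Conf N → ℝ}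
    (hζ : Cut m h Ri ζ) {y : E3} (hy : y ≠ 0) {l : ℝ} (hl : 0 < l) {f : Conf N → ℝ} (hf : LipC f) (i : Fin N) :
    ∀ᵐ X : Conf N, ‖X i - y‖ < l →
      (SA m X i y l → gsq i (fun Y => Fw m ζ y l Y * f Y) X
        ≤ 8 / 3 * gsq i (fun Y => gw m ζ i Y * f Y) X + 800 / dc m X i ^ 2 * (gw m ζ i X * f X) ^ 2) ∧
      (¬ SA m X i y l → gsq i (fun Y => Fw m ζ y l Y * f Y) X = 0) := by
  have hm2 : 2 ≤ m := le_trans (by norm_num) hm
  obtain ⟨C, hC0, hC⟩ := hf.bddC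
  have hFl := Fw_lipC hm2 hN hh hζ hy hl
  have hgl := gw_lipC hm2 hN hh hζ i
  filter_upwards [hFl.ae_diffC, hgl.ae_diffC, hf.ae_diffC] with X hF hg hf' hXy
  by_cases hF0 : Fw m ζ y l X = 0
  · have h1 : gsq i (fun Y => Fw m ζ y l Y * f Y) X = 0 := by
      refine gsq_zero_of_dom (C := C) (hF.mul hf') hF (Fw_nonneg hζ y l) (fun Y => ?_) hF0 i
      show |Fw m ζ y l Y * f Y| ≤ C * Fw m ζ y l Y
      rw [abs_mul, abs_of_nonneg (Fw_nonneg hζ y l Y), mul_comm]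
      exact mul_le_mul_of_nonneg_right (hC Y) (Fw_nonneg hζ y l Y)
    refine ⟨fun _ => ?_, fun _ => h1⟩
    rw [h1]
    have := K4_gsq_nonneg i (fun Y => gw m ζ i Y * f Y) X
    positivity
  · have hA : Aw m y l X ≠ 0 := by
      intro h
      apply hF0
      unfold Fw
      rw [h, zero_mul, zero_mul]
    have hz : ζ X ≠ 0 := by
      intro h
      apply hF0
      unfold Fw
      rw [h, mul_zero]
    have hG : Good m X := (hζ.supp X hz).1
    have ht : th (l / (kap * dd m X y)) ≠ 0 := by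
      intro h
      apply hA
      unfold Aw
      rw [h, zero_mul]
    obtain ⟨t1, t2⟩ := th_ne ht
    have hkd : 0 < kap * dd m X y := by
      by_contra hneg
      have := div_nonpos_of_nonneg_of_nonpos hl.le (not_lt.1 hneg)
      linarith
    rw [lt_div_iff₀ hkd, one_mul] at t1
    rw [div_lt_iff₀ hkd] at t2
    have hk : kap = 1 / 10000 := rfl
    have hXy2 : ‖X i - y‖ < dd m X y / 100 := by
      rw [hk] at t2 hkd
      linarith
    have hSA : SA m X i y l := ⟨hl, hy, hG, hXy, t1, by linarith⟩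
    refine ⟨fun _ => ?_, fun h => absurd hSA h⟩
    have hν := (nuc_le hm2 hN hG i).1
    have hgX : gw m ζ i X ≠ 0 := mul_ne_zero (Real.sqrt_pos.2 hν).ne' hz
    have hr : DifferentiableAt ℝ (fun Y => Fw m ζ y l Y / gw m ζ i Y) X := by
      simp only [div_eq_mul_inv]
      exact hF.mul (hg.inv hgX)
    have hev : (fun Y => Fw m ζ y l Y * f Y) =ᶠ[𝓝 X]
        fun Y => (Fw m ζ y l Y / gw m ζ i Y) * (gw m ζ i Y * f Y) := by
      have h1 : ∀ᶠ Y in 𝓝 X, gw m ζ i Y ≠ 0 := hgl.continuous.continuousAt.eventually_ne hgX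
      filter_upwards [h1] with Y hY
      field_simp
    rw [K4_gsq_congr i hev]
    have hsl := K4_slope hm hN hζ hy l i hz hXy2
    obtain ⟨-, q2, q3, -⟩ := ratio_nu hm2 hN hG hy hXy2.le
    have hd : 0 < dd m X y := by
      have := norm_nonneg (X i - y)
      linarith
    have hdc : 0 < dc m X i := by linarith
    have hL : 0 ≤ 20 / dc m X i := by positivity
    have g1 := gsq_le_of_slope hL hr hsl
    have g2 := gsq_mul_le (F := fun Y => gw m ζ i Y * f Y)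
      (g := fun Y => Fw m ζ y l Y / gw m ζ i Y) (hg.mul hf') hr i
    refine g2.trans ?_
    have hsv := (sy_vy_pos hm2 hN hG hy).1
    have hr2 : (Fw m ζ y l X / gw m ζ i X) ^ 2 ≤ 4 / 3 := by
      rw [K4_ratio hm2 hN hζ hy l i hz, mul_pow, Real.sq_sqrt (by positivity)]
      have h1 : sy m X y * vy m X y / nuc m X i ≤ 4 / 3 := by
        rw [div_le_iff₀ hν]
        exact q2
      have h2 : Aw m y l X ^ 2 ≤ 1 := pow_le_one₀ (Aw_nonneg m y l X) (Aw_le_one m y l X)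
      calc Aw m y l X ^ 2 * (sy m X y * vy m X y / nuc m X i)
          ≤ 1 * (sy m X y * vy m X y / nuc m X i) :=
            mul_le_mul_of_nonneg_right h2 (by positivity)
        _ ≤ 4 / 3 := by rw [one_mul]; exact h1
    have e1 : 2 * (Fw m ζ y l X / gw m ζ i X) ^ 2 * gsq i (fun Y => gw m ζ i Y * f Y) X
        ≤ 8 / 3 * gsq i (fun Y => gw m ζ i Y * f Y) X :=
      mul_le_mul_of_nonneg_right (by linarith) (K4_gsq_nonneg _ _ _)
    have e2 : 2 * (gw m ζ i X * f X) ^ 2 * gsq i (fun Y => Fw m ζ y l Y / gw m ζ i Y) X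
        ≤ 2 * (gw m ζ i X * f X) ^ 2 * (20 / dc m X i) ^ 2 :=
      mul_le_mul_of_nonneg_left g1 (by positivity)
    have e3 : 2 * (gw m ζ i X * f X) ^ 2 * (20 / dc m X i) ^ 2
        = 800 / dc m X i ^ 2 * (gw m ζ i X * f X) ^ 2 := by
      rw [div_pow]
      ring
    rw [e3] at e2
    exact add_le_add e1 e2

end Ion
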