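import Pool.Agent.Lib.MP_69e010_mp.K4
import Pool.Agent.Lib.MP_69e010_mp.K3

/-!
# JOB K5: the local exclusion principle for one test function, in `lintegral` form

Fix `y ≠ 0`, `l > 0`; `Φ σ X = Fw m ζ y l X * ψ σ X`, admissible (`Fw_adms`). `local_exclusion` for `Φ`, multiplied by `l⁻⁴`.
-/

open MeasureTheory Metric Finset Filter Topology

noncomputable section

namespace Ion

variable {N : ℕ}

theorem K5_nb_nonneg (y : E3) (l : ℝ) (X : Conf N) : 0 ≤ nb y l X := by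
  unfold nb
  exact Finset.sum_nonneg fun i _ => by split_ifs <;> norm_num

theorem K5_nb_le (y : E3) (l : ℝ) (X : Conf N) : nb y l X ≤ N := by
  unfold nb
  calc ∑ i : Fin N, (if ‖X i - y‖ < l then (1 : ℝ) else 0) ≤ ∑ _i : Fin N, (1 : ℝ) :=
        Finset.sum_le_sum fun i _ => by split_ifs <;> norm_num
    _ = N := by simp

theorem K5_meas_set (y : E3) (l : ℝ) (i : Fin N) : MeasurableSet {X : Conf N | ‖X i - y‖ < l} := by
  have h : Continuous fun X : Conf N => ‖X i - y‖ := by fun_prop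
  exact (isOpen_lt h continuous_const).measurableSet

theorem K5_meas_nb (y : E3) (l : ℝ) : Measurable (nb y l : Conf N → ℝ) := by
  unfold nb
  apply Finset.measurable_sum
  intro i _
  exact Measurable.ite (K5_meas_set y l i) measurable_const measurable_const

theorem K5_int_ite {G : Conf N → ℝ} (hG : Integrable G) (y : E3) (l : ℝ) (i : Fin N) :
    Integrable (fun X : Conf N => if ‖X i - y‖ < l then G X else 0) := by
  have h := hG.indicator (K5_meas_set y l i)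
  refine h.congr (Eventually.of_forall fun X => ?_)
  by_cases hX : ‖X i - y‖ < l
  · simp [Set.indicator, hX]
  · simp [Set.indicator, hX]

theorem K5_int_nb {G : Conf N → ℝ} (hG : Integrable G) (y : E3) (l : ℝ) :
    Integrable (fun X : Conf N => nb y l X * G X) := by
  have h : (fun X : Conf N => nb y l X * G X) = fun X => ∑ i, if ‖X i - y‖ < l then G X else 0 := by
    funext X
    unfold nb
    rw [Finset.sum_mul]
    refine Finset.sum_congr rfl fun i _ => ?_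
    split_ifs <;> simp
  rw [h]
  exact integrable_finsetSum _ fun i _ => K5_int_ite hG y l i

/-- the real inequality for one test function -/
theorem K5_real {ψ : RW N} (hψ : Adms ψ) (y : E3) {l : ℝ} (hl : 0 < l) :
    1 / 16 * ∑ σ, ∫ X, l⁻¹ ^ 6 * (nb y l X * (ψ σ X) ^ 2)
      ≤ (∑ σ, ∫ X, l⁻¹ ^ 4 * ∑ i, (if ‖X i - y‖ < l then gsq i (ψ σ) X else 0))
        + 1 / 8 * ∑ σ, ∫ X, l⁻¹ ^ 6 * (ψ σ X) ^ 2 := by
  have h := local_exclusion hψ y hl
  have hB : ∀ σ, Integrable (fun X => (ψ σ X) ^ 2) := fun σ => (hψ.1 σ).integrable_sq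
  have hA : ∀ σ, Integrable (fun X => nb y l X * (ψ σ X) ^ 2) := fun σ => K5_int_nb (hB σ) y l
  have e1 : ∀ σ, ∫ X, (nb y l X - 2) * (ψ σ X) ^ 2
      = (∫ X, nb y l X * (ψ σ X) ^ 2) - 2 * ∫ X, (ψ σ X) ^ 2 := by
    intro σ
    rw [← integral_const_mul, ← integral_sub (hA σ) ((hB σ).const_mul 2)]
    refine integral_congr_ae (Eventually.of_forall fun X => ?_)
    show (nb y l X - 2) * (ψ σ X) ^ 2 = nb y l X * (ψ σ X) ^ 2 - 2 * (ψ σ X) ^ 2
    ring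
  simp only [e1, Finset.sum_sub_distrib, ← Finset.mul_sum] at h
  simp only [integral_const_mul, ← Finset.mul_sum]
  have hl0 : l ≠ 0 := hl.ne'
  set SA' := ∑ σ, ∫ X, nb y l X * (ψ σ X) ^ 2 with hSA
  set SB' := ∑ σ, ∫ X, (ψ σ X) ^ 2 with hSB
  set SC' := ∑ σ, ∫ X, ∑ i, (if ‖X i - y‖ < l then gsq i (ψ σ) X else 0) with hSC
  have h2 := mul_le_mul_of_nonneg_left h (by positivity : 0 ≤ l⁻¹ ^ 4)
  have e2 : l⁻¹ ^ 4 * (1 / (16 * l ^ 2) * (SA' - 2 * SB'))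
      = 1 / 16 * (l⁻¹ ^ 6 * SA') - 1 / 8 * (l⁻¹ ^ 6 * SB') := by
    field_simp
    ring
  linarith [h2, e2]

theorem excl_fixed {m : ℕ} (hm : 10 ^ 4 ≤ m) (hN : m ≤ N) {h Ri : ℝ} (hh : 0 < h) {ζ : Conf N → ℝ}
    (hζ : Cut m h Ri ζ) {ψ : RW N} (hψ : Adms ψ) {y : E3} (hy : y ≠ 0) {l : ℝ} (hl : 0 < l) :
    ENNReal.ofReal (1 / 16) * ∑ σ, ∫⁻ X, (∑ i, kJ m X i (y, l)) * ENNReal.ofReal (ζ X ^ 2 * ψ σ X ^ 2)
      ≤ (∑ σ, ∫⁻ X, ∑ i, kA m X i (y, l)
          * ENNReal.ofReal (8 / 3 * gsq i (fun Y => gw m ζ i Y * ψ σ Y) X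
            + 800 / dc m X i ^ 2 * (gw m ζ i X * ψ σ X) ^ 2))
        + ENNReal.ofReal (1 / 8) * ∑ σ, ∫⁻ X, kB m X (y, l) * ENNReal.ofReal (ζ X ^ 2 * ψ σ X ^ 2) := by
  have hm2 : 2 ≤ m := le_trans (by norm_num) hm
  have hΦ : Adms (mulw (Fw m ζ y l) ψ) := Fw_adms hm2 hN hh hζ hy hl hψ
  have hreal := K5_real hΦ y hl
  have hB : ∀ σ, Integrable (fun X => (mulw (Fw m ζ y l) ψ σ X) ^ 2) := fun σ =>
    (hΦ.1 σ).integrable_sq
  have hA : ∀ σ, Integrable (fun X => nb y l X * (mulw (Fw m ζ y l) ψ σ X) ^ 2) := fun σ =>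
    K5_int_nb (hB σ) y l
  have hC : ∀ σ, Integrable (fun X => ∑ i, (if ‖X i - y‖ < l then gsq i (mulw (Fw m ζ y l) ψ σ) X else 0)) :=
    fun σ => integrable_finsetSum _ fun i _ => K5_int_ite ((hΦ.1 σ).integrable_gsq i) y l i
  have hC0 : ∀ σ (X : Conf N), 0 ≤ ∑ i, (if ‖X i - y‖ < l then gsq i (mulw (Fw m ζ y l) ψ σ) X else 0) :=
    fun σ X => Finset.sum_nonneg fun i _ => by
      split_ifs
      · exact gsq_nonneg _ _ _
      · exact le_rfl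
  have hl6 : 0 ≤ l⁻¹ ^ 6 := by positivity
  have hl4 : 0 ≤ l⁻¹ ^ 4 := by positivity
  -- the lintegral form
  have hlint : ENNReal.ofReal (1 / 16)
      * ∑ σ, ∫⁻ X, ENNReal.ofReal (l⁻¹ ^ 6 * (nb y l X * (mulw (Fw m ζ y l) ψ σ X) ^ 2))
      ≤ (∑ σ, ∫⁻ X, ENNReal.ofReal (l⁻¹ ^ 4
          * ∑ i, (if ‖X i - y‖ < l then gsq i (mulw (Fw m ζ y l) ψ σ) X else 0)))
        + ENNReal.ofReal (1 / 8) * ∑ σ, ∫⁻ X, ENNReal.ofReal (l⁻¹ ^ 6 * (mulw (Fw m ζ y l) ψ σ X) ^ 2) := by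
    have e1 : ∀ σ, ∫⁻ X, ENNReal.ofReal (l⁻¹ ^ 6 * (nb y l X * (mulw (Fw m ζ y l) ψ σ X) ^ 2))
        = ENNReal.ofReal (∫ X, l⁻¹ ^ 6 * (nb y l X * (mulw (Fw m ζ y l) ψ σ X) ^ 2)) := fun σ =>
      (ofReal_integral_eq_lintegral_ofReal ((hA σ).const_mul _) (Eventually.of_forall fun X =>
        mul_nonneg hl6 (mul_nonneg (K5_nb_nonneg y l X) (sq_nonneg _)))).symm
    have e2 : ∀ σ, ∫⁻ X, ENNReal.ofReal (l⁻¹ ^ 4
          * ∑ i, (if ‖X i - y‖ < l then gsq i (mulw (Fw m ζ y l) ψ σ) X else 0))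
        = ENNReal.ofReal (∫ X, l⁻¹ ^ 4
          * ∑ i, (if ‖X i - y‖ < l then gsq i (mulw (Fw m ζ y l) ψ σ) X else 0)) := fun σ =>
      (ofReal_integral_eq_lintegral_ofReal ((hC σ).const_mul _) (Eventually.of_forall fun X =>
        mul_nonneg hl4 (hC0 σ X))).symm
    have e3 : ∀ σ, ∫⁻ X, ENNReal.ofReal (l⁻¹ ^ 6 * (mulw (Fw m ζ y l) ψ σ X) ^ 2)
        = ENNReal.ofReal (∫ X, l⁻¹ ^ 6 * (mulw (Fw m ζ y l) ψ σ X) ^ 2) := fun σ =>
      (ofReal_integral_eq_lintegral_ofReal ((hB σ).const_mul _) (Eventually.of_forall fun X =>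
        mul_nonneg hl6 (sq_nonneg _))).symm
    have n1 : ∀ σ ∈ (univ : Finset (Spin N)), 0 ≤ ∫ X, l⁻¹ ^ 6 * (nb y l X * (mulw (Fw m ζ y l) ψ σ X) ^ 2) :=
      fun σ _ => integral_nonneg fun X => mul_nonneg hl6 (mul_nonneg (K5_nb_nonneg y l X) (sq_nonneg _))
    have n2 : ∀ σ ∈ (univ : Finset (Spin N)), 0 ≤ ∫ X, l⁻¹ ^ 4
          * ∑ i, (if ‖X i - y‖ < l then gsq i (mulw (Fw m ζ y l) ψ σ) X else 0) :=
      fun σ _ => integral_nonneg fun X => mul_nonneg hl4 (hC0 σ X)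
    have n3 : ∀ σ ∈ (univ : Finset (Spin N)), 0 ≤ ∫ X, l⁻¹ ^ 6 * (mulw (Fw m ζ y l) ψ σ X) ^ 2 :=
      fun σ _ => integral_nonneg fun X => mul_nonneg hl6 (sq_nonneg _)
    simp only [e1, e2, e3]
    rw [← ENNReal.ofReal_sum_of_nonneg n1, ← ENNReal.ofReal_sum_of_nonneg n2,
      ← ENNReal.ofReal_sum_of_nonneg n3, ← ENNReal.ofReal_mul (by norm_num),
      ← ENNReal.ofReal_mul (by norm_num), ← ENNReal.ofReal_add (Finset.sum_nonneg n2)
        (mul_nonneg (by norm_num) (Finset.sum_nonneg n3))]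
    exact ENNReal.ofReal_le_ofReal hreal
  -- pointwise: left side
  have p1 : ∀ σ (X : Conf N), (∑ i, kJ m X i (y, l)) * ENNReal.ofReal (ζ X ^ 2 * ψ σ X ^ 2)
      ≤ ENNReal.ofReal (l⁻¹ ^ 6 * (nb y l X * (mulw (Fw m ζ y l) ψ σ X) ^ 2)) := by
    intro σ X
    have q1 : l⁻¹ ^ 6 * (nb y l X * (mulw (Fw m ζ y l) ψ σ X) ^ 2)
        = ∑ i, (if ‖X i - y‖ < l then l⁻¹ ^ 6 * (mulw (Fw m ζ y l) ψ σ X) ^ 2 else 0) := by
      unfold nb
      rw [Finset.sum_mul, Finset.mul_sum]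
      refine Finset.sum_congr rfl fun i _ => ?_
      split_ifs <;> simp
    rw [q1, ENNReal.ofReal_sum_of_nonneg (fun i _ => by
      split_ifs
      · exact mul_nonneg hl6 (sq_nonneg _)
      · exact le_rfl), Finset.sum_mul]
    refine Finset.sum_le_sum fun i _ => ?_
    unfold kJ
    by_cases hc : ‖X i - y‖ < l
    · rw [if_pos hc]
      split_ifs with hg
      · rw [← ENNReal.ofReal_mul' (by positivity)]
        apply ENNReal.ofReal_le_ofReal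
        have q2 := Fw_sq hm2 hN hζ hy l X
        have q3 : (mulw (Fw m ζ y l) ψ σ X) ^ 2 = ww m X y l * ζ X ^ 2 * ψ σ X ^ 2 := by
          show (Fw m ζ y l X * ψ σ X) ^ 2 = _
          rw [mul_pow, q2]
        rw [q3]
        apply le_of_eq
        ring
      · simp
    · rw [if_neg hc, if_neg (fun hh => hc hh.2.2.2)]
      simp
  -- pointwise: error term
  have p3 : ∀ σ (X : Conf N), ENNReal.ofReal (l⁻¹ ^ 6 * (mulw (Fw m ζ y l) ψ σ X) ^ 2)
      ≤ kB m X (y, l) * ENNReal.ofReal (ζ X ^ 2 * ψ σ X ^ 2) := by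
    intro σ X
    have q2 := Fw_sq hm2 hN hζ hy l X
    have q3 : (mulw (Fw m ζ y l) ψ σ X) ^ 2 = ww m X y l * ζ X ^ 2 * ψ σ X ^ 2 := by
      show (Fw m ζ y l X * ψ σ X) ^ 2 = _
      rw [mul_pow, q2]
    by_cases hg : Good m X
    · unfold kB
      rw [if_pos ⟨hl, hy, hg⟩, ← ENNReal.ofReal_mul' (by positivity)]
      apply ENNReal.ofReal_le_ofReal
      rw [q3]
      apply le_of_eq
      ring
    · have hz : ζ X = 0 := by
        by_contra h0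
        exact hg (hζ.supp X h0).1
      rw [q3, hz]
      simp
  -- pointwise: kinetic terms
  have p2 : ∀ σ, ∀ᵐ X : Conf N, ENNReal.ofReal (l⁻¹ ^ 4
          * ∑ i, (if ‖X i - y‖ < l then gsq i (mulw (Fw m ζ y l) ψ σ) X else 0))
      ≤ ∑ i, kA m X i (y, l) * ENNReal.ofReal (8 / 3 * gsq i (fun Y => gw m ζ i Y * ψ σ Y) X
            + 800 / dc m X i ^ 2 * (gw m ζ i X * ψ σ X) ^ 2) := by
    intro σ
    have hae : ∀ᵐ X : Conf N, ∀ i : Fin N, ‖X i - y‖ < l →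
      (SA m X i y l → gsq i (fun Y => Fw m ζ y l Y * ψ σ Y) X
        ≤ 8 / 3 * gsq i (fun Y => gw m ζ i Y * ψ σ Y) X + 800 / dc m X i ^ 2 * (gw m ζ i X * ψ σ X) ^ 2) ∧
      (¬ SA m X i y l → gsq i (fun Y => Fw m ζ y l Y * ψ σ Y) X = 0) := by
      rw [ae_all_iff]
      intro i
      exact gsq_Fw_le hm hN hh hζ hy hl (hψ.1 σ) i
    filter_upwards [hae] with X hX
    rw [Finset.mul_sum, ENNReal.ofReal_sum_of_nonneg (fun i _ => mul_nonneg hl4 (by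
      split_ifs
      · exact gsq_nonneg _ _ _
      · exact le_rfl))]
    refine Finset.sum_le_sum fun i _ => ?_
    by_cases hc : ‖X i - y‖ < l
    · rw [if_pos hc]
      obtain ⟨ha, hb⟩ := hX i hc
      by_cases hs : SA m X i y l
      · unfold kA
        rw [if_pos hs, ← ENNReal.ofReal_mul hl4]
        exact ENNReal.ofReal_le_ofReal (mul_le_mul_of_nonneg_left (ha hs) hl4)
      · have hb' : gsq i (mulw (Fw m ζ y l) ψ σ) X = 0 := hb hs
        rw [hb']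
        simp
    · rw [if_neg hc]
      simp
  calc ENNReal.ofReal (1 / 16) * ∑ σ, ∫⁻ X, (∑ i, kJ m X i (y, l)) * ENNReal.ofReal (ζ X ^ 2 * ψ σ X ^ 2)
      ≤ ENNReal.ofReal (1 / 16)
      * ∑ σ, ∫⁻ X, ENNReal.ofReal (l⁻¹ ^ 6 * (nb y l X * (mulw (Fw m ζ y l) ψ σ X) ^ 2)) := by
        gcongr with σ _ X
        exact p1 σ X
    _ ≤ _ := hlint
    _ ≤ _ := by
        refine add_le_add (Finset.sum_le_sum fun σ _ => lintegral_mono_ae (p2 σ)) ?_
        gcongr with σ _ X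
        exact p3 σ X

end Ion
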