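import Pool.Agent.Lib.MP_69e010_mp.K3

/-!
# JOB K6: the volume integral `∫∫ l⁻⁴ 1_{SA} dy dl ≤ 4`

If `X` is not good the kernel is `0`. Let `X` be good, `a = dc m X i > 0` (`dd_pos`, `X i ≠ 0`). If `SA m X i y l` then `‖X i - y‖ < l < 2 kap d(y) ≤ d(y)/100`, so `ratio_nu` gives `99/100 d(y) ≤ a ≤ 101/100 d(y)`, hence
`A := kap a/1.01 ≤ kap d(y) < l < 2 kap d(y) ≤ 2 kap a/0.99 =: B`. So `kA m X i (y,l) ≤ 1_{(A,B)}(l) 1_{ball (X i) l}(y) ofReal (l⁻⁴)`.
Integrate first over `y` (`volume` on `E3 × ℝ` is the product measure, `lintegral_prod_symm` or `lintegral_prod` + `lintegral_lintegral_swap`): `volume (ball (X i) l) = ofReal l ^ 3 * ofReal (π * 4/3)` (`EuclideanSpace.volume_ball_fin_three`), so the total is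
`≤ ∫⁻_{l ∈ (A,B)} ofReal ((4π/3) l⁻¹) = ofReal ((4π/3) log (B/A))`, `B/A = 2·1.01/0.99 < 2.0405`, `log 2.0405 = log 2 + log 1.02025 ≤ 0.6932 + 0.0203`, `(4π/3)·0.7135 < 2.99 ≤ 4` (`Real.pi_lt_d2`, `Real.log_two_lt_d9`, `Real.log_le_sub_one_of_pos`).
-/

open MeasureTheory Metric Finset Filter Topology

noncomputable section

namespace Ion

variable {N : ℕ}

open Classical in
/-- the dominating kernel -/
def K6_ker (x : E3) (A B : ℝ) (q : E3 × ℝ) : ENNReal :=
  if A < q.2 ∧ q.2 < B ∧ dist q.1 x < q.2 then ENNReal.ofReal (q.2⁻¹ ^ 4) else 0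

theorem K6_measurable (x : E3) (A B : ℝ) : Measurable (K6_ker x A B) := by
  unfold K6_ker
  refine Measurable.ite ?_ ?_ measurable_const
  · have h1 : IsOpen {q : E3 × ℝ | A < q.2 ∧ q.2 < B ∧ dist q.1 x < q.2} := by
      refine IsOpen.and (isOpen_lt continuous_const continuous_snd) (IsOpen.and ?_ ?_)
      · exact isOpen_lt continuous_snd continuous_const
      · exact isOpen_lt (continuous_fst.dist continuous_const) continuous_snd
    exact h1.measurableSet
  · exact ENNReal.measurable_ofReal.comp ((measurable_snd.inv).pow_const 4)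

theorem K6_inner (x : E3) {A B l : ℝ} (hA : 0 < A) :
    ∫⁻ y : E3, K6_ker x A B (y, l) ≤ (Set.Ioc A B).indicator (fun l => ENNReal.ofReal (4 * Real.pi / 3 * l⁻¹)) l := by
  by_cases h : A < l ∧ l < B
  · have hl : 0 < l := hA.trans h.1
    have e : ∀ y : E3, K6_ker x A B (y, l) = (ball x l).indicator (fun _ => ENNReal.ofReal (l⁻¹ ^ 4)) y := by
      intro y
      unfold K6_ker
      by_cases hy : dist y x < l
      · rw [if_pos ⟨h.1, h.2, hy⟩, Set.indicator_of_mem (mem_ball.2 hy)]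
      · rw [if_neg (fun h' => hy h'.2.2), Set.indicator_of_notMem (fun h' => hy (mem_ball.1 h'))]
    rw [lintegral_congr e, lintegral_indicator isOpen_ball.measurableSet, setLIntegral_const,
      EuclideanSpace.volume_ball_fin_three, Set.indicator_of_mem (show l ∈ Set.Ioc A B from ⟨h.1, h.2.le⟩)]
    rw [← ENNReal.ofReal_pow hl.le, ← ENNReal.ofReal_mul (by positivity), ← ENNReal.ofReal_mul (by positivity)]
    refine ENNReal.ofReal_le_ofReal (le_of_eq ?_)
    field_simp
  · have e : ∀ y : E3, K6_ker x A B (y, l) = 0 := by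
      intro y
      unfold K6_ker
      rw [if_neg (fun h' => h ⟨h'.1, h'.2.1⟩)]
    rw [lintegral_congr e, lintegral_zero]
    exact zero_le

theorem K6_log : 4 * Real.pi / 3 * Real.log (202 / 99) ≤ 4 := by
  have h1 : Real.log (202 / 99) = Real.log 2 + Real.log (101 / 99) := by
    rw [← Real.log_mul (by norm_num) (by norm_num)]
    norm_num
  have h2 : Real.log (101 / 99) ≤ 101 / 99 - 1 := Real.log_le_sub_one_of_pos (by norm_num)
  have h3 := Real.log_two_lt_d9
  have h4 := Real.pi_lt_d2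
  have h5 := Real.pi_pos
  have h6 : Real.log (202 / 99) ≤ 0.72 := by
    rw [h1]; norm_num at h2 h3 ⊢; linarith
  have h7 : 0 ≤ Real.log (202 / 99) := Real.log_nonneg (by norm_num)
  have h8 : Real.pi * Real.log (202 / 99) ≤ 3.15 * 0.72 := mul_le_mul h4.le h6 h7 (by norm_num)
  norm_num at h8
  linarith

theorem K6_outer {A B : ℝ} (hA : 0 < A) (hB : B = 202 / 99 * A) :
    ∫⁻ l : ℝ, (Set.Ioc A B).indicator (fun l => ENNReal.ofReal (4 * Real.pi / 3 * l⁻¹)) l ≤ 4 := by
  have hAB : A ≤ B := by rw [hB]; linarith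
  have hBp : 0 < B := hA.trans_le hAB
  rw [lintegral_indicator measurableSet_Ioc]
  have hint : IntervalIntegrable (fun l : ℝ => 4 * Real.pi / 3 * l⁻¹) volume A B := by
    refine IntervalIntegrable.const_mul ?_ _
    refine intervalIntegrable_inv_iff.2 (Or.inr ?_)
    rw [Set.uIcc_of_le hAB]
    intro h
    exact absurd h.1 (not_le.2 hA)
  rw [← ofReal_integral_eq_lintegral_ofReal]
  · rw [← intervalIntegral.integral_of_le hAB, intervalIntegral.integral_const_mul, integral_inv_of_pos hA hBp]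
    have e : B / A = 202 / 99 := by rw [hB]; field_simp
    rw [e]
    calc ENNReal.ofReal (4 * Real.pi / 3 * Real.log (202 / 99)) ≤ ENNReal.ofReal 4 := ENNReal.ofReal_le_ofReal K6_log
      _ = 4 := by norm_num
  · exact (intervalIntegrable_iff_integrableOn_Ioc_of_le hAB).1 hint
  · refine (ae_restrict_iff' measurableSet_Ioc).2 (Eventually.of_forall ?_)
    intro l hl
    have : 0 < l := hA.trans hl.1
    show 0 ≤ 4 * Real.pi / 3 * l⁻¹
    positivity

theorem K6_dom {m : ℕ} (hm : 2 ≤ m) (hN : m ≤ N) {X : Conf N} (hX : Good m X) (i : Fin N) (q : E3 × ℝ) :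
    kA m X i q ≤ K6_ker (X i) (kap * dc m X i * (100 / 101)) (2 * kap * dc m X i * (100 / 99)) q := by
  have ha : 0 < dc m X i := dd_pos (by omega) hN hX (hX.1 i)
  unfold kA K6_ker
  by_cases h : SA m X i q.1 q.2
  · rw [if_pos h]
    obtain ⟨hl, hy, -, hd, h1, h2⟩ := h
    have h3 : |dd m X q.1 - dd m X (X i)| ≤ ‖q.1 - X i‖ := dd_lip_y hN X q.1 (X i)
    have h4 : dist q.1 (X i) < q.2 := by rw [dist_comm, dist_eq_norm]; exact hd
    have h5 : ‖q.1 - X i‖ < q.2 := by rw [← dist_eq_norm]; exact h4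
    have h6 : |dd m X q.1 - dc m X i| ≤ ‖q.1 - X i‖ := h3
    have h7 := abs_le.1 h6
    have hk : kap = 1 / 10000 := rfl
    rw [hk] at h1 h2
    rw [if_pos]
    refine ⟨?_, ?_, h4⟩
    · rw [hk]; linarith [h7.1, h7.2]
    · rw [hk]; linarith [h7.1, h7.2]
  · rw [if_neg h]
    exact zero_le

theorem lint_kA {m : ℕ} (hm : 2 ≤ m) (hN : m ≤ N) (X : Conf N) (i : Fin N) :
    ∫⁻ q : E3 × ℝ, kA m X i q ≤ 4 := by
  by_cases hX : Good m X
  · have ha : 0 < dc m X i := dd_pos (by omega) hN hX (hX.1 i)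
    have hk : 0 < kap := by unfold kap; norm_num
    set A : ℝ := kap * dc m X i * (100 / 101) with hA
    set B : ℝ := 2 * kap * dc m X i * (100 / 99) with hB
    have hA0 : 0 < A := by positivity
    have hBA : B = 202 / 99 * A := by rw [hA, hB]; ring
    calc ∫⁻ q : E3 × ℝ, kA m X i q ≤ ∫⁻ q : E3 × ℝ, K6_ker (X i) A B q :=
          lintegral_mono (fun q => K6_dom hm hN hX i q)
      _ = ∫⁻ l : ℝ, ∫⁻ y : E3, K6_ker (X i) A B (y, l) := by
          rw [Measure.volume_eq_prod]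
          exact lintegral_prod_symm' _ (K6_measurable _ _ _)
      _ ≤ ∫⁻ l : ℝ, (Set.Ioc A B).indicator (fun l => ENNReal.ofReal (4 * Real.pi / 3 * l⁻¹)) l :=
          lintegral_mono (fun l => K6_inner (X i) hA0)
      _ ≤ 4 := K6_outer hA0 hBA
  · have e : ∀ q : E3 × ℝ, kA m X i q = 0 := by
      intro q
      unfold kA
      rw [if_neg (fun h => hX h.2.2.1)]
    rw [lintegral_congr e, lintegral_zero]
    exact zero_le

end Ion
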