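import Pool.Agent.Lib.MP_69e010_mp.K3

/-!
# JOB K7: lower bound for `J_i` at crowd electrons

`X` good, `a = dc m X i > 0`, `a ≤ ‖X i‖/200`. Restrict the integral to `y ∈ ball (X i) (kap a/2)` and `l > 0`. For such `y`, with `d = dd m X y`:
* `|d - a| ≤ ‖X i - y‖ < kap a/2` (`dd_lip_y`, `dc m X i = dd m X (X i)`), so `d > 0`, `y ≠ 0` (`‖y‖ ≥ ‖X i‖ - kap a/2 > 0`), `‖X i - y‖ ≤ d/100` and `ratio_nu` gives `sy * vy ≥ (3/4) ν_i`;
* `d/‖y‖ ≤ 1/100` (`d ≤ 1.0001 ‖X i‖/200`, `‖y‖ ≥ 0.999 ‖X i‖`), so `tc = 1` (`tc_one`);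
* if `th (l/(kap d)) ≠ 0` then `l > kap d > kap a/2 > ‖X i - y‖` (`th_ne`). Hence for all `l > 0`: `kJ m X i (y,l) ≥ ofReal (l⁻⁶ th(l/(kap d))² · (3/4) ν_i)` (trivial if `th = 0`).
* `lint_th`: `∫⁻_{l>0} kJ ≥ ofReal ((3/4) ν_i/(15 (kap d)⁵)) ≥ ofReal ((3/4) ν_i/(15 (1.0001 kap a)⁵))`.
* volume of the ball: `(4π/3)(kap a/2)³` (`EuclideanSpace.volume_ball_fin_three`). Product: `(π/120) kap⁻² ν_i/a² / 1.0001⁵ ≥ 10⁸/48 ν_i/a²` (`kap⁻² = 10⁸`, `π > 3.14`, `3.14/120 = 0.02616 > 0.0209 > 1/48`).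
(`lintegral_prod`, `setLIntegral` monotonicity; `lintegral_mul_const'`/`ENNReal.ofReal_mul`.)
-/

open MeasureTheory Metric Finset Filter Topology

noncomputable section

namespace Ion

variable {N : ℕ}

/-- facts at a point `y` near a crowd electron -/
theorem K7_near {m : ℕ} (hm : 2 ≤ m) (hN : m ≤ N) {X : Conf N} (hX : Good m X) {i : Fin N}
    (hi : dc m X i ≤ ‖X i‖ / 200) {y : E3} (hy : ‖X i - y‖ < dc m X i / 20000) :
    y ≠ 0 ∧ 0 < dd m X y ∧ dd m X y ≤ 10001 / 10000 * dc m X i ∧ 9999 / 10000 * dc m X i ≤ dd m X y ∧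
      dd m X y / ‖y‖ ≤ 1 / 100 ∧ 3 / 4 * nuc m X i ≤ sy m X y * vy m X y := by
  have hxi : X i ≠ 0 := hX.1 i
  have ha : 0 < dc m X i := dd_pos (by omega) hN hX hxi
  have h1 : |dd m X y - dc m X i| ≤ ‖X i - y‖ := by
    have := dd_lip_y (m := m) hN X y (X i)
    rwa [norm_sub_rev] at this
  have h2 := abs_le.1 h1
  have h3 : ‖X i‖ - ‖X i - y‖ ≤ ‖y‖ := by
    have := norm_sub_norm_le (X i) (X i - y)
    have e : X i - (X i - y) = y := by abel
    rw [e] at this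
    linarith
  have hxp : 0 < ‖X i‖ := norm_pos_iff.2 hxi
  have hyp : 0 < ‖y‖ := by linarith
  have hy0 : y ≠ 0 := norm_pos_iff.1 hyp
  have hd : 0 < dd m X y := by linarith [h2.1]
  refine ⟨hy0, hd, by linarith [h2.2], by linarith [h2.1], ?_, ?_⟩
  · rw [div_le_iff₀ hyp]
    linarith [h2.2]
  · refine (ratio_nu hm hN hX hy0 ?_).1
    linarith [h2.1]

theorem K7_point {m : ℕ} (hm : 2 ≤ m) (hN : m ≤ N) {X : Conf N} (hX : Good m X) {i : Fin N}
    (hi : dc m X i ≤ ‖X i‖ / 200) {y : E3} (hy : ‖X i - y‖ < dc m X i / 20000) {l : ℝ} (hl : 0 < l) :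
    ENNReal.ofReal (l⁻¹ ^ 6 * th (l / (kap * dd m X y)) ^ 2) * ENNReal.ofReal (3 / 4 * nuc m X i)
      ≤ kJ m X i (y, l) := by
  obtain ⟨hy0, hd, hd1, hd2, hd3, hd4⟩ := K7_near hm hN hX hi hy
  have ha : 0 < dc m X i := dd_pos (by omega) hN hX (hX.1 i)
  rw [← ENNReal.ofReal_mul (mul_nonneg (pow_nonneg (inv_nonneg.2 hl.le) _) (sq_nonneg _))]
  by_cases hth : th (l / (kap * dd m X y)) = 0
  · rw [hth]
    simp
  · have h1 := (th_ne hth).1
    have hk : 0 < kap * dd m X y := by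
      unfold kap
      positivity
    rw [lt_div_iff₀ hk, one_mul] at h1
    have h2 : ‖X i - y‖ < l := by
      refine lt_of_lt_of_le ?_ h1.le
      unfold kap
      linarith
    unfold kJ
    rw [if_pos ⟨hl, hy0, hX, h2⟩]
    refine ENNReal.ofReal_le_ofReal ?_
    show _ ≤ l⁻¹ ^ 6 * ww m X y l
    unfold ww Aw
    rw [tc_one hd3, mul_one, mul_assoc]
    refine mul_le_mul_of_nonneg_left ?_ (pow_nonneg (inv_nonneg.2 hl.le) _)
    exact mul_le_mul_of_nonneg_left hd4 (sq_nonneg _)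

theorem K7_inner {m : ℕ} (hm : 2 ≤ m) (hN : m ≤ N) {X : Conf N} (hX : Good m X) {i : Fin N}
    (hi : dc m X i ≤ ‖X i‖ / 200) {y : E3} (hy : ‖X i - y‖ < dc m X i / 20000) :
    ENNReal.ofReal (1 / (15 * (kap * (10001 / 10000 * dc m X i)) ^ 5) * (3 / 4 * nuc m X i))
      ≤ ∫⁻ l : ℝ, kJ m X i (y, l) := by
  obtain ⟨hy0, hd, hd1, hd2, hd3, hd4⟩ := K7_near hm hN hX hi hy
  have ha : 0 < dc m X i := dd_pos (by omega) hN hX (hX.1 i)
  have hν := (nuc_le hm hN hX i).1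
  have hkp : (0 : ℝ) < kap := by unfold kap; norm_num
  have hk : 0 < kap * dd m X y := mul_pos hkp hd
  calc ENNReal.ofReal (1 / (15 * (kap * (10001 / 10000 * dc m X i)) ^ 5) * (3 / 4 * nuc m X i))
      ≤ ENNReal.ofReal (1 / (15 * (kap * dd m X y) ^ 5) * (3 / 4 * nuc m X i)) := by
        refine ENNReal.ofReal_le_ofReal (mul_le_mul_of_nonneg_right ?_ (by positivity))
        refine one_div_le_one_div_of_le (by positivity) ?_
        refine mul_le_mul_of_nonneg_left ?_ (by norm_num)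
        exact pow_le_pow_left₀ hk.le (mul_le_mul_of_nonneg_left hd1 hkp.le) 5
    _ = ∫⁻ l in Set.Ioi (0 : ℝ), ENNReal.ofReal (l⁻¹ ^ 6 * th (l / (kap * dd m X y)) ^ 2) *
          ENNReal.ofReal (3 / 4 * nuc m X i) := by
        rw [lintegral_mul_const' _ _ ENNReal.ofReal_ne_top, lint_th hk,
          ← ENNReal.ofReal_mul (by positivity)]
    _ ≤ ∫⁻ l in Set.Ioi (0 : ℝ), kJ m X i (y, l) := by
        refine setLIntegral_mono' measurableSet_Ioi fun l hl => ?_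
        exact K7_point hm hN hX hi hy hl
    _ ≤ ∫⁻ l : ℝ, kJ m X i (y, l) := setLIntegral_le_lintegral _ _

theorem K7_arith {a ν : ℝ} (ha : 0 < a) (hν : 0 < ν) :
    10 ^ 8 / 48 * (ν / a ^ 2) ≤
      1 / (15 * (kap * (10001 / 10000 * a)) ^ 5) * (3 / 4 * ν) * ((a / 20000) ^ 3 * (Real.pi * 4 / 3)) := by
  have hpi := Real.pi_gt_d2
  have e : 1 / (15 * (kap * (10001 / 10000 * a)) ^ 5) * (3 / 4 * ν) * ((a / 20000) ^ 3 * (Real.pi * 4 / 3))
      = (ν / a ^ 2) * (10 ^ 8 / 120 * (10000 / 10001) ^ 5 * Real.pi) := by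
    unfold kap
    field_simp
    ring
  rw [e, mul_comm]
  refine mul_le_mul_of_nonneg_left ?_ (by positivity)
  have h1 : (10 : ℝ) ^ 8 / 48 ≤ 10 ^ 8 / 120 * (10000 / 10001) ^ 5 * 3.14 := by norm_num
  refine h1.trans ?_
  refine mul_le_mul_of_nonneg_left hpi.le (by norm_num)

theorem lint_kJ {m : ℕ} (hm : 2 ≤ m) (hN : m ≤ N) {X : Conf N} (hX : Good m X) {i : Fin N}
    (hi : dc m X i ≤ ‖X i‖ / 200) :
    ENNReal.ofReal (10 ^ 8 / 48 * (nuc m X i / dc m X i ^ 2)) ≤ ∫⁻ q : E3 × ℝ, kJ m X i q := by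
  have ha : 0 < dc m X i := dd_pos (by omega) hN hX (hX.1 i)
  have hν := (nuc_le hm hN hX i).1
  have hkp : (0 : ℝ) < kap := by unfold kap; norm_num
  have hmeas : Measurable (fun q : E3 × ℝ => kJ m X i q) :=
    (measurable_kJ hm hN i).comp measurable_prodMk_left
  have hprod : ∫⁻ q : E3 × ℝ, kJ m X i q = ∫⁻ y : E3, ∫⁻ l : ℝ, kJ m X i (y, l) :=
    lintegral_prod _ hmeas.aemeasurable
  rw [hprod]
  set C : ℝ := 1 / (15 * (kap * (10001 / 10000 * dc m X i)) ^ 5) * (3 / 4 * nuc m X i) with hC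
  have hC0 : 0 ≤ C := by positivity
  calc ENNReal.ofReal (10 ^ 8 / 48 * (nuc m X i / dc m X i ^ 2))
      ≤ ENNReal.ofReal (C * ((dc m X i / 20000) ^ 3 * (Real.pi * 4 / 3))) :=
        ENNReal.ofReal_le_ofReal (K7_arith ha hν)
    _ = ENNReal.ofReal C * volume (ball (X i) (dc m X i / 20000)) := by
        have e1 : ENNReal.ofReal ((dc m X i / 20000) ^ 3 * (Real.pi * 4 / 3))
            = ENNReal.ofReal (dc m X i / 20000) ^ 3 * ENNReal.ofReal (Real.pi * 4 / 3) := by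
          rw [ENNReal.ofReal_mul (by positivity), ENNReal.ofReal_pow (by positivity)]
        rw [EuclideanSpace.volume_ball_fin_three, ENNReal.ofReal_mul hC0, e1]
    _ = ∫⁻ _ in ball (X i) (dc m X i / 20000), ENNReal.ofReal C := (setLIntegral_const _ _).symm
    _ ≤ ∫⁻ y in ball (X i) (dc m X i / 20000), ∫⁻ l : ℝ, kJ m X i (y, l) := by
        refine setLIntegral_mono' measurableSet_ball fun y hy => ?_
        refine K7_inner hm hN hX hi ?_
        rwa [mem_ball, dist_eq_norm, norm_sub_rev] at hy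
    _ ≤ ∫⁻ y : E3, ∫⁻ l : ℝ, kJ m X i (y, l) := setLIntegral_le_lintegral _ _

end Ion
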