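import Pool.Agent.Lib.MP_69e010_mp.K3

/-!
# JOB K8: upper bound for the error integral

`X` good (otherwise the kernel vanishes). For `y ≠ 0`, `d = dd m X y > 0`: `∫⁻_{l>0} kB m X (y,l) dl = ofReal (tc(d/‖y‖)² sy vy) ∫⁻_{l>0} ofReal (l⁻⁶ th(l/(kap d))²) = ofReal (tc² sy vy/(15 (kap d)⁵))` (`lint_th`), `sy = tau m y * d`.
It is `0` unless `d/‖y‖ < 1/50` (`tc_ne`) and `tc ≤ 1`, so it is `≤ 1_{y ≠ 0, d ≤ ‖y‖/50} ofReal (tau m y * vy m X y/d⁴) * ofReal (10²⁰/15)` (`kap⁻⁵ = 10²⁰`). For `l ≤ 0` the kernel is `0`; `y = 0` is a null set (or the kernel is `0` there).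
`xlemma`: the function `tau * vy/d⁴` is integrable and nonnegative on the set `{y ≠ 0, d ≤ ‖y‖/50}`, so its `lintegral` is `ofReal` of the integral (`ofReal_integral_eq_lintegral_ofReal`), `≤ ofReal (130/m ∑ ν/d²)`.
Total: `(10²⁰/15)(130/m) = (26/3) 10²⁰/m ≤ 10²¹/m`.
-/

open MeasureTheory Metric Finset Filter Topology

noncomputable section

namespace Ion

variable {N : ℕ}

theorem K8_tau_nonneg {m : ℕ} (y : E3) : 0 ≤ tau m y := by
  unfold tau eps ea
  positivity

theorem K8_slice {m : ℕ} (hm : 10 ^ 4 ≤ m) (hN : m ≤ N) {X : Conf N} (hX : Good m X) (y : E3) :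
    ∫⁻ l : ℝ, kB m X (y, l) ≤
      Set.indicator {y : E3 | y ≠ 0 ∧ dd m X y ≤ ‖y‖ / 50}
        (fun y => ENNReal.ofReal (10 ^ 20 / 15 * (tau m y * vy m X y / dd m X y ^ 4))) y := by
  classical
  have hm2 : 2 ≤ m := le_trans (by norm_num) hm
  by_cases hy : y = 0
  · have h0 : ∀ l : ℝ, kB m X (y, l) = 0 := by
      intro l
      unfold kB
      rw [if_neg]
      rintro ⟨-, h, -⟩
      exact h hy
    simp only [h0, lintegral_zero]
    exact zero_le
  · have hd : 0 < dd m X y := dd_pos (by omega) hN hX hy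
    obtain ⟨hv, -⟩ := vy_pos_le hm2 hN hX hy
    have ht := K8_tau_nonneg (m := m) y
    set d := dd m X y with hdd
    set A : ℝ := tc (d / ‖y‖) ^ 2 * (sy m X y * vy m X y) with hA
    have hs : 0 ≤ sy m X y := by
      unfold sy
      exact mul_nonneg ht hd.le
    have hA0 : 0 ≤ A := mul_nonneg (sq_nonneg _) (mul_nonneg hs hv.le)
    have hkap : 0 < kap * d := by
      unfold kap
      positivity
    have h1 : ∫⁻ l : ℝ, kB m X (y, l)
        = ∫⁻ l in Set.Ioi (0 : ℝ), ENNReal.ofReal A * ENNReal.ofReal (l⁻¹ ^ 6 * th (l / (kap * d)) ^ 2) := by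
      rw [← lintegral_indicator measurableSet_Ioi]
      refine lintegral_congr fun l => ?_
      by_cases hl : 0 < l
      · rw [Set.indicator_of_mem (Set.mem_Ioi.mpr hl)]
        unfold kB
        rw [if_pos ⟨hl, hy, hX⟩, ← ENNReal.ofReal_mul hA0]
        congr 1
        simp only [ww, Aw, ← hdd, hA]
        ring
      · rw [Set.indicator_of_notMem (fun h => hl (Set.mem_Ioi.mp h))]
        unfold kB
        rw [if_neg (fun h => hl h.1)]
    have hmeas : Measurable (fun l : ℝ => ENNReal.ofReal (l⁻¹ ^ 6 * th (l / (kap * d)) ^ 2)) := by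
      refine ENNReal.measurable_ofReal.comp ?_
      have h2 : Measurable (fun l : ℝ => th (l / (kap * d))) :=
        continuous_th.measurable.comp (measurable_id.div_const _)
      exact (measurable_inv.pow_const 6).mul (h2.pow_const 2)
    rw [h1, lintegral_const_mul _ hmeas, lint_th hkap, ← ENNReal.ofReal_mul hA0]
    by_cases htc : tc (d / ‖y‖) = 0
    · have : A = 0 := by rw [hA, htc]; ring
      rw [this, zero_mul, ENNReal.ofReal_zero]
      exact zero_le
    · have h3 := tc_ne htc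
      have hyn : 0 < ‖y‖ := norm_pos_iff.mpr hy
      have h4 : d ≤ ‖y‖ / 50 := by
        rw [div_lt_iff₀ hyn] at h3
        linarith
      rw [Set.indicator_of_mem (show y ∈ {y : E3 | y ≠ 0 ∧ dd m X y ≤ ‖y‖ / 50} from ⟨hy, h4⟩)]
      refine ENNReal.ofReal_le_ofReal ?_
      have h5 : tc (d / ‖y‖) ^ 2 ≤ 1 := by
        have h6 := tc_nonneg (d / ‖y‖)
        have h7 := tc_le_one (d / ‖y‖)
        nlinarith
      have h8 : A ≤ sy m X y * vy m X y := by
        have := mul_le_mul_of_nonneg_right h5 (mul_nonneg hs hv.le)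
        rw [hA]
        linarith
      have h9 : A * (1 / (15 * (kap * d) ^ 5)) ≤ sy m X y * vy m X y * (1 / (15 * (kap * d) ^ 5)) :=
        mul_le_mul_of_nonneg_right h8 (by positivity)
      refine h9.trans (le_of_eq ?_)
      have hsy : sy m X y = tau m y * d := rfl
      rw [hsy]
      unfold kap
      rw [← hdd]
      field_simp
      ring

theorem K8_meas {m : ℕ} (hN : m ≤ N) (X : Conf N) :
    MeasurableSet {y : E3 | y ≠ 0 ∧ dd m X y ≤ ‖y‖ / 50} := by
  have hlip : LipschitzWith 1 (fun y : E3 => dd m X y) := by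
    refine LipschitzWith.of_dist_le_mul fun y y' => ?_
    rw [Real.dist_eq, dist_eq_norm, NNReal.coe_one, one_mul]
    exact dd_lip_y hN X y y'
  have hcont : Continuous (fun y : E3 => dd m X y) := hlip.continuous
  have h1 : MeasurableSet {y : E3 | y ≠ 0} := (measurableSet_singleton (0 : E3)).compl
  have h2 : MeasurableSet {y : E3 | dd m X y ≤ ‖y‖ / 50} :=
    measurableSet_le hcont.measurable (measurable_norm.div_const _)
  exact h1.inter h2

theorem K8_arith {M I T : ℝ} (hM : 0 < M) (hT : 0 ≤ T) (h : M * I ≤ 130 * T) :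
    10 ^ 20 / 15 * I ≤ 10 ^ 21 / M * T := by
  have h2 : I ≤ 130 * T / M := by
    rw [le_div_iff₀ hM]
    linarith
  have h3 : 10 ^ 21 / M * T = 10 ^ 20 / 15 * (150 * T / M) := by ring
  rw [h3]
  have h5 : 130 * T / M ≤ 150 * T / M := by
    refine div_le_div_of_nonneg_right ?_ hM.le
    linarith
  exact mul_le_mul_of_nonneg_left (h2.trans h5) (by positivity)

theorem K8_set {m : ℕ} (hm : 10 ^ 4 ≤ m) (hN : m ≤ N) {X : Conf N} (hX : Good m X) :
    ∫⁻ y in {y : E3 | y ≠ 0 ∧ dd m X y ≤ ‖y‖ / 50},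
        ENNReal.ofReal (10 ^ 20 / 15 * (tau m y * vy m X y / dd m X y ^ 4))
      ≤ ENNReal.ofReal (10 ^ 21 / m * ∑ j, nuc m X j / dc m X j ^ 2) := by
  have hm2 : 2 ≤ m := le_trans (by norm_num) hm
  have hm1 : 1 ≤ m := le_trans (by norm_num) hm
  have hSm := K8_meas hN X
  obtain ⟨hint, hle⟩ := xlemma hm hN hX
  have hnn : ∀ᵐ y ∂(volume.restrict {y : E3 | y ≠ 0 ∧ dd m X y ≤ ‖y‖ / 50}),
      0 ≤ 10 ^ 20 / 15 * (tau m y * vy m X y / dd m X y ^ 4) := by
    refine (ae_restrict_iff' hSm).mpr (Eventually.of_forall fun y hy => ?_)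
    have hv := (vy_pos_le hm2 hN hX hy.1).1
    have hd : 0 < dd m X y := dd_pos hm1 hN hX hy.1
    have ht := K8_tau_nonneg (m := m) y
    exact mul_nonneg (by norm_num) (div_nonneg (mul_nonneg ht hv.le) (pow_nonneg hd.le 4))
  have he := ofReal_integral_eq_lintegral_ofReal (hint.const_mul (10 ^ 20 / 15)) hnn
  rw [← he]
  refine ENNReal.ofReal_le_ofReal ?_
  rw [integral_const_mul]
  have hm0 : (0 : ℝ) < m := Nat.cast_pos.mpr (lt_of_lt_of_le (by norm_num) hm2)
  refine K8_arith hm0 (Finset.sum_nonneg fun k _ => ?_) hle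
  exact div_nonneg (nuc_le hm2 hN hX k).1.le (sq_nonneg _)

theorem lint_kB {m : ℕ} (hm : 10 ^ 4 ≤ m) (hN : m ≤ N) {X : Conf N} (hX : Good m X) :
    ∫⁻ q : E3 × ℝ, kB m X q ≤ ENNReal.ofReal (10 ^ 21 / m * ∑ j, nuc m X j / dc m X j ^ 2) := by
  have hm2 : 2 ≤ m := le_trans (by norm_num) hm
  have hmeas : Measurable (fun q : E3 × ℝ => kB m X q) :=
    (measurable_kB hm2 hN).comp measurable_prodMk_left
  have h1 : ∫⁻ q : E3 × ℝ, kB m X q = ∫⁻ y : E3, ∫⁻ l : ℝ, kB m X (y, l) := by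
    rw [Measure.volume_eq_prod]
    exact lintegral_prod _ hmeas.aemeasurable
  rw [h1]
  refine (lintegral_mono fun y => K8_slice hm hN hX y).trans ?_
  rw [lintegral_indicator (K8_meas hN X)]
  exact K8_set hm hN hX

end Ion
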