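import Pool.Agent.Lib.MP_69e010_mp.K5
import Pool.Agent.Lib.MP_69e010_mp.K6
import Pool.Agent.Lib.MP_69e010_mp.K7
import Pool.Agent.Lib.MP_69e010_mp.K8

/-!
# JOB K9: integration over `(y,l)` (Tonelli)

Integrate `excl_fixed` over `q = (y,l) ∈ E3 × ℝ` with `y ≠ 0`, `l > 0` (restrict the measure to this set `W`, or note that all three kernels vanish when `l ≤ 0` or `y = 0`, so `excl_fixed` holds for all `(y,l)`: both sides `0`).
`lintegral_mono`, `lintegral_const_mul`, `lintegral_finsetSum`, `lintegral_add_left`, `lintegral_lintegral_swap` (joint measurability: `measurable_kA`, `measurable_kJ`, `measurable_kB`, `measurable_gsq`, `measurable_dc`,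
continuity of `gw m ζ i * ψ σ`, `ζ`, `ψ σ`), then `lintegral_mul_const` for the inner integral over `q`:
`ofReal(1/16) ∑σ ∫⁻_X (∑_i ∫⁻_q kJ) ofReal(ζ²ψ²) ≤ ∑σ ∫⁻_X ∑_i (∫⁻_q kA) ofReal(8/3 gsq + 800/dc² (gw ψ)²) + ofReal(1/8) ∑σ ∫⁻_X (∫⁻_q kB) ofReal(ζ²ψ²)`.
Now insert (for `ζ X ≠ 0`, so `X` good; otherwise the factor `ofReal (ζ²ψ²)` is `0`): `∫⁻ kJ ≥ ofReal (10⁸/48 ν_i/dc²)` for crowd electrons (`lint_kJ`; `≥ 0` for the others), `∫⁻ kA ≤ 4` (`lint_kA`), `∫⁻ kB ≤ ofReal (10²¹/m ∑ ν/dc²)` (`lint_kB`).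
Finally `(gw m ζ i X * ψ)² = ν_i ζ² ψ²` (`Real.sq_sqrt`, `nuc_le`; if `ζ X = 0` both sides are `0`).
-/

open MeasureTheory Metric Finset Filter Topology

noncomputable section

namespace Ion

variable {N : ℕ}

theorem K9_swap {F : Conf N × (E3 × ℝ) → ENNReal} (hF : Measurable F) {w : Conf N → ENNReal}
    (hw : Measurable w) :
    ∫⁻ q : E3 × ℝ, ∫⁻ X, F (X, q) * w X = ∫⁻ X, (∫⁻ q : E3 × ℝ, F (X, q)) * w X := by
  have h0 : Measurable (fun p : (E3 × ℝ) × Conf N => F (p.2, p.1) * w p.2) :=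
    (hF.comp measurable_swap).mul (hw.comp measurable_snd)
  rw [lintegral_lintegral_swap (f := fun (q : E3 × ℝ) (X : Conf N) => F (X, q) * w X) h0.aemeasurable]
  refine lintegral_congr fun X => ?_
  have h1 : Measurable (fun q : E3 × ℝ => F (X, q)) := hF.comp measurable_prodMk_left
  exact lintegral_mul_const _ h1

theorem K9_meas {F : Conf N × (E3 × ℝ) → ENNReal} (hF : Measurable F) {w : Conf N → ENNReal}
    (hw : Measurable w) : Measurable (fun q : E3 × ℝ => ∫⁻ X, F (X, q) * w X) := by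
  have h0 : Measurable (fun p : Conf N × (E3 × ℝ) => F p * w p.1) :=
    hF.mul (hw.comp measurable_fst)
  exact h0.lintegral_prod_left'

/-- the exclusion inequality for all `(y, l)` -/
theorem K9_excl {m : ℕ} (hm : 10 ^ 4 ≤ m) (hN : m ≤ N) {h Ri : ℝ} (hh : 0 < h) {ζ : Conf N → ℝ}
    (hζ : Cut m h Ri ζ) {ψ : RW N} (hψ : Adms ψ) (q : E3 × ℝ) :
    ENNReal.ofReal (1 / 16) * ∑ σ, ∫⁻ X, (∑ i, kJ m X i q) * ENNReal.ofReal (ζ X ^ 2 * ψ σ X ^ 2)
      ≤ (∑ σ, ∫⁻ X, ∑ i, kA m X i q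
          * ENNReal.ofReal (8 / 3 * gsq i (fun Y => gw m ζ i Y * ψ σ Y) X
            + 800 / dc m X i ^ 2 * (gw m ζ i X * ψ σ X) ^ 2))
        + ENNReal.ofReal (1 / 8) * ∑ σ, ∫⁻ X, kB m X q * ENNReal.ofReal (ζ X ^ 2 * ψ σ X ^ 2) := by
  by_cases hq : q.1 ≠ 0 ∧ 0 < q.2
  · exact excl_fixed hm hN hh hζ hψ hq.1 hq.2
  · have h0 : ∀ (X : Conf N) (i : Fin N), kJ m X i q = 0 := by
      intro X i
      unfold kJ
      rw [if_neg]
      rintro ⟨h1, h2, _⟩
      exact hq ⟨h2, h1⟩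
    have h1 : ∑ σ : Spin N, ∫⁻ X, (∑ i, kJ m X i q) * ENNReal.ofReal (ζ X ^ 2 * ψ σ X ^ 2) = 0 := by
      refine Finset.sum_eq_zero fun σ _ => ?_
      have h2 : ∀ X : Conf N, (∑ i, kJ m X i q) * ENNReal.ofReal (ζ X ^ 2 * ψ σ X ^ 2) = 0 := by
        intro X
        rw [Finset.sum_eq_zero (fun i _ => h0 X i), zero_mul]
      simp only [h2, lintegral_zero]
    rw [h1, mul_zero]
    exact bot_le

/-- integrated form -/
theorem K9_int {m : ℕ} (hm : 10 ^ 4 ≤ m) (hN : m ≤ N) {h Ri : ℝ} (hh : 0 < h) {ζ : Conf N → ℝ}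
    (hζ : Cut m h Ri ζ) {ψ : RW N} (hψ : Adms ψ) :
    ENNReal.ofReal (1 / 16) * ∑ σ, ∫⁻ X, (∑ i, ∫⁻ q : E3 × ℝ, kJ m X i q)
        * ENNReal.ofReal (ζ X ^ 2 * ψ σ X ^ 2)
      ≤ (∑ σ, ∫⁻ X, ∑ i, (∫⁻ q : E3 × ℝ, kA m X i q)
          * ENNReal.ofReal (8 / 3 * gsq i (fun Y => gw m ζ i Y * ψ σ Y) X
            + 800 / dc m X i ^ 2 * (gw m ζ i X * ψ σ X) ^ 2))
        + ENNReal.ofReal (1 / 8) * ∑ σ, ∫⁻ X, (∫⁻ q : E3 × ℝ, kB m X q)
            * ENNReal.ofReal (ζ X ^ 2 * ψ σ X ^ 2) := by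
  have hm2 : 2 ≤ m := le_trans (by norm_num) hm
  have hζc : Continuous ζ := by
    obtain ⟨K, hK⟩ := hζ.lip
    exact hK.continuous
  have hψc : ∀ σ, Continuous (ψ σ) := fun σ => (hψ.1 σ).continuous
  have hwm : ∀ σ : Spin N, Measurable (fun X => ENNReal.ofReal (ζ X ^ 2 * ψ σ X ^ 2)) := by
    intro σ
    exact (((hζc.pow 2).mul ((hψc σ).pow 2)).measurable).ennreal_ofReal
  have hgm : ∀ (σ : Spin N) (i : Fin N), Measurable (fun X =>
      ENNReal.ofReal (8 / 3 * gsq i (fun Y => gw m ζ i Y * ψ σ Y) X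
            + 800 / dc m X i ^ 2 * (gw m ζ i X * ψ σ X) ^ 2)) := by
    intro σ i
    refine Measurable.ennreal_ofReal ?_
    have h1 : Measurable (fun X : Conf N => 8 / 3 * gsq i (fun Y => gw m ζ i Y * ψ σ Y) X) :=
      (measurable_gsq i _).const_mul _
    have h2 : Measurable (fun X : Conf N => gw m ζ i X * ψ σ X) :=
      (((gw_lipC hm2 hN hh hζ i).continuous).mul (hψc σ)).measurable
    have h3 : Measurable (fun X : Conf N => 800 / dc m X i ^ 2) :=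
      measurable_const.div ((measurable_dc hN i).pow_const 2)
    exact h1.add (h3.mul (h2.pow_const 2))
  have hJm : Measurable (fun p : Conf N × (E3 × ℝ) => ∑ i, kJ m p.1 i p.2) :=
    Finset.measurable_fun_sum _ fun i _ => measurable_kJ hm2 hN i
  have hBm : Measurable (fun p : Conf N × (E3 × ℝ) => kB m p.1 p.2) := measurable_kB hm2 hN
  have hAm : ∀ i, Measurable (fun p : Conf N × (E3 × ℝ) => kA m p.1 i p.2) :=
    fun i => measurable_kA hm2 hN i
  have e1 : ∫⁻ q : E3 × ℝ, (ENNReal.ofReal (1 / 16) * ∑ σ, ∫⁻ X, (∑ i, kJ m X i q)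
        * ENNReal.ofReal (ζ X ^ 2 * ψ σ X ^ 2))
      = ENNReal.ofReal (1 / 16) * ∑ σ, ∫⁻ X, (∑ i, ∫⁻ q : E3 × ℝ, kJ m X i q)
        * ENNReal.ofReal (ζ X ^ 2 * ψ σ X ^ 2) := by
    rw [lintegral_const_mul]
    · rw [lintegral_finsetSum]
      · congr 1
        refine Finset.sum_congr rfl fun σ _ => ?_
        rw [K9_swap (F := fun p : Conf N × (E3 × ℝ) => ∑ i, kJ m p.1 i p.2) hJm (hwm σ)]
        refine lintegral_congr fun X => ?_
        rw [lintegral_finsetSum]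
        intro i _
        exact (measurable_kJ hm2 hN i).comp measurable_prodMk_left
      · intro σ _
        exact K9_meas (F := fun p : Conf N × (E3 × ℝ) => ∑ i, kJ m p.1 i p.2) hJm (hwm σ)
    · exact Finset.measurable_fun_sum _ fun σ _ =>
        K9_meas (F := fun p : Conf N × (E3 × ℝ) => ∑ i, kJ m p.1 i p.2) hJm (hwm σ)
  have eA : ∀ (σ : Spin N) (q : E3 × ℝ), ∫⁻ X, ∑ i, kA m X i q
          * ENNReal.ofReal (8 / 3 * gsq i (fun Y => gw m ζ i Y * ψ σ Y) X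
            + 800 / dc m X i ^ 2 * (gw m ζ i X * ψ σ X) ^ 2)
      = ∑ i, ∫⁻ X, kA m X i q
          * ENNReal.ofReal (8 / 3 * gsq i (fun Y => gw m ζ i Y * ψ σ Y) X
            + 800 / dc m X i ^ 2 * (gw m ζ i X * ψ σ X) ^ 2) := by
    intro σ q
    rw [lintegral_finsetSum]
    intro i _
    exact ((hAm i).comp measurable_prodMk_right).mul (hgm σ i)
  have mA : Measurable (fun q : E3 × ℝ => ∑ σ : Spin N, ∑ i, ∫⁻ X, kA m X i q
          * ENNReal.ofReal (8 / 3 * gsq i (fun Y => gw m ζ i Y * ψ σ Y) X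
            + 800 / dc m X i ^ 2 * (gw m ζ i X * ψ σ X) ^ 2)) :=
    Finset.measurable_fun_sum _ fun σ _ => Finset.measurable_fun_sum _ fun i _ =>
      K9_meas (F := fun p : Conf N × (E3 × ℝ) => kA m p.1 i p.2) (hAm i) (hgm σ i)
  have mB : ∀ σ : Spin N, Measurable (fun q : E3 × ℝ => ∫⁻ X, kB m X q
      * ENNReal.ofReal (ζ X ^ 2 * ψ σ X ^ 2)) := fun σ =>
      K9_meas (F := fun p : Conf N × (E3 × ℝ) => kB m p.1 p.2) hBm (hwm σ)
  have e2 : ∫⁻ q : E3 × ℝ, ((∑ σ, ∫⁻ X, ∑ i, kA m X i q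
          * ENNReal.ofReal (8 / 3 * gsq i (fun Y => gw m ζ i Y * ψ σ Y) X
            + 800 / dc m X i ^ 2 * (gw m ζ i X * ψ σ X) ^ 2))
        + ENNReal.ofReal (1 / 8) * ∑ σ, ∫⁻ X, kB m X q * ENNReal.ofReal (ζ X ^ 2 * ψ σ X ^ 2))
      = (∑ σ, ∫⁻ X, ∑ i, (∫⁻ q : E3 × ℝ, kA m X i q)
          * ENNReal.ofReal (8 / 3 * gsq i (fun Y => gw m ζ i Y * ψ σ Y) X
            + 800 / dc m X i ^ 2 * (gw m ζ i X * ψ σ X) ^ 2))
        + ENNReal.ofReal (1 / 8) * ∑ σ, ∫⁻ X, (∫⁻ q : E3 × ℝ, kB m X q)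
            * ENNReal.ofReal (ζ X ^ 2 * ψ σ X ^ 2) := by
    simp only [eA]
    rw [lintegral_add_left mA, lintegral_const_mul _ (Finset.measurable_fun_sum _ fun σ _ => mB σ)]
    congr 1
    · rw [lintegral_finsetSum _ (fun σ _ => Finset.measurable_fun_sum _ fun i _ =>
        K9_meas (F := fun p : Conf N × (E3 × ℝ) => kA m p.1 i p.2) (hAm i) (hgm σ i))]
      refine Finset.sum_congr rfl fun σ _ => ?_
      rw [lintegral_finsetSum _ (fun i _ =>
        K9_meas (F := fun p : Conf N × (E3 × ℝ) => kA m p.1 i p.2) (hAm i) (hgm σ i))]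
      rw [lintegral_finsetSum]
      · refine Finset.sum_congr rfl fun i _ => ?_
        exact K9_swap (F := fun p : Conf N × (E3 × ℝ) => kA m p.1 i p.2) (hAm i) (hgm σ i)
      · intro i _
        exact ((hAm i).lintegral_prod_right').mul (hgm σ i)
    · rw [lintegral_finsetSum _ (fun σ _ => mB σ)]
      congr 1
      refine Finset.sum_congr rfl fun σ _ => ?_
      exact K9_swap (F := fun p : Conf N × (E3 × ℝ) => kB m p.1 p.2) hBm (hwm σ)
  rw [← e1, ← e2]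
  exact lintegral_mono fun q => K9_excl hm hN hh hζ hψ q

theorem K_total {m : ℕ} (hm : 10 ^ 4 ≤ m) (hN : m ≤ N) {h Ri : ℝ} (hh : 0 < h) {ζ : Conf N → ℝ}
    (hζ : Cut m h Ri ζ) {ψ : RW N} (hψ : Adms ψ) :
    ENNReal.ofReal (1 / 16) * ∑ σ, ∫⁻ X,
        ENNReal.ofReal ((10 ^ 8 / 48 * ∑ j ∈ crowd m X, nuc m X j / dc m X j ^ 2) * (ζ X ^ 2 * ψ σ X ^ 2))
      ≤ (4 * ∑ σ, ∫⁻ X, ∑ i, ENNReal.ofReal (8 / 3 * gsq i (fun Y => gw m ζ i Y * ψ σ Y) X
            + 800 * (nuc m X i / dc m X i ^ 2 * (ζ X ^ 2 * ψ σ X ^ 2))))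
        + ENNReal.ofReal (1 / 8) * ∑ σ, ∫⁻ X,
            ENNReal.ofReal ((10 ^ 21 / m * ∑ j, nuc m X j / dc m X j ^ 2) * (ζ X ^ 2 * ψ σ X ^ 2)) := by
  have hm2 : 2 ≤ m := le_trans (by norm_num) hm
  refine le_trans ?_ (le_trans (K9_int hm hN hh hζ hψ) ?_)
  · gcongr with σ _ X
    by_cases h0 : ζ X = 0
    · simp [h0]
    · have hX : Good m X := (hζ.supp X h0).1
      have hB : 0 ≤ ζ X ^ 2 * ψ σ X ^ 2 := by positivity
      rw [ENNReal.ofReal_mul' hB]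
      gcongr
      have hnn : ∀ j, 0 ≤ 10 ^ 8 / 48 * (nuc m X j / dc m X j ^ 2) := by
        intro j
        have := (nuc_le hm2 hN hX j).1
        positivity
      rw [Finset.mul_sum, ENNReal.ofReal_sum_of_nonneg (fun j _ => hnn j)]
      refine le_trans (Finset.sum_le_sum (g := fun j => ∫⁻ q : E3 × ℝ, kJ m X j q) fun j hj => ?_) ?_
      · exact lint_kJ hm2 hN hX (by
          have := (Finset.mem_filter.mp hj).2
          exact this)
      · exact Finset.sum_le_sum_of_subset (Finset.subset_univ _)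
  · gcongr ?_ + ?_
    · rw [Finset.mul_sum]
      gcongr with σ _
      rw [← lintegral_const_mul' _ _ (by norm_num)]
      refine lintegral_mono fun X => ?_
      rw [Finset.mul_sum]
      refine Finset.sum_le_sum fun i _ => ?_
      have e : 8 / 3 * gsq i (fun Y => gw m ζ i Y * ψ σ Y) X
            + 800 / dc m X i ^ 2 * (gw m ζ i X * ψ σ X) ^ 2
          = 8 / 3 * gsq i (fun Y => gw m ζ i Y * ψ σ Y) X
            + 800 * (nuc m X i / dc m X i ^ 2 * (ζ X ^ 2 * ψ σ X ^ 2)) := by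
        by_cases h0 : ζ X = 0
        · simp [gw, h0]
        · have hX : Good m X := (hζ.supp X h0).1
          have h1 := (nuc_le hm2 hN hX i).1
          have h2 : (gw m ζ i X * ψ σ X) ^ 2 = nuc m X i * (ζ X ^ 2 * ψ σ X ^ 2) := by
            unfold gw
            rw [mul_pow, mul_pow, Real.sq_sqrt h1.le]
            ring
          rw [h2]
          ring
      rw [e]
      exact mul_le_mul' (lint_kA hm2 hN X i) le_rfl
    · gcongr with σ _ X
      by_cases h0 : ζ X = 0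
      · simp [h0]
      · have hX : Good m X := (hζ.supp X h0).1
        have hB : 0 ≤ ζ X ^ 2 * ψ σ X ^ 2 := by positivity
        rw [ENNReal.ofReal_mul' hB]
        gcongr
        exact lint_kB hm hN hX

end Ion
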