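import Pool.Agent.Lib.MP_69e010_mp.I0
import Pool.Agent.Lib.MP_69e010_mp.I1
import Pool.Agent.Lib.MP_69e010_mp.I3
import Pool.Agent.Lib.MP_69e010_mp.I4
import Pool.Agent.Lib.MP_69e010_mp.QTools

/-!
# MP_69e010_mp, stream K (kinetic inequality 9.1): definitions

`κ = 10⁻⁴`; `θ(t) = 4 (t-1)₊ (2-t)₊`; `tc(t) = clamp (2 - 100 t)`;
test functions `Fw y l X = θ(l/(κ d(X,y))) tc(d(X,y)/|y|) √(s(X,y) v(X,y)) ζ(X)`.
-/

open MeasureTheory Metric Finset Filter Topology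

noncomputable section

namespace Ion

variable {N : ℕ}

/-- `κ = 10⁻⁴` -/
def kap : ℝ := 1 / 10000

/-- `θ(t) = 4 (t-1)₊ (2-t)₊` -/
def th (t : ℝ) : ℝ := 4 * max (t - 1) 0 * max (2 - t) 0

/-- `clamp (2 - 100 t)` -/
def tc (t : ℝ) : ℝ := max 0 (min 1 (2 - 100 * t))

/-- product of the two cutoffs -/
def Aw (m : ℕ) (y : E3) (l : ℝ) (X : Conf N) : ℝ := th (l / (kap * dd m X y)) * tc (dd m X y / ‖y‖)

/-- the test functions for the local exclusion principle -/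
def Fw (m : ℕ) (ζ : Conf N → ℝ) (y : E3) (l : ℝ) (X : Conf N) : ℝ :=
  Aw m y l X * √(sy m X y * vy m X y) * ζ X

/-- `w(X,y,l) = (θ tc)² s v` -/
def ww (m : ℕ) (X : Conf N) (y : E3) (l : ℝ) : ℝ := Aw m y l X ^ 2 * (sy m X y * vy m X y)

/-- the set where the test function lives and electron `i` is in `B(y,l)` -/
def SA (m : ℕ) (X : Conf N) (i : Fin N) (y : E3) (l : ℝ) : Prop :=
  0 < l ∧ y ≠ 0 ∧ Good m X ∧ ‖X i - y‖ < l ∧ kap * dd m X y < l ∧ l < 2 * kap * dd m X y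

open Classical in
/-- kernel of the kinetic terms -/
def kA (m : ℕ) (X : Conf N) (i : Fin N) (q : E3 × ℝ) : ENNReal :=
  if SA m X i q.1 q.2 then ENNReal.ofReal (q.2⁻¹ ^ 4) else 0

open Classical in
/-- kernel of the local exclusion terms -/
def kJ (m : ℕ) (X : Conf N) (i : Fin N) (q : E3 × ℝ) : ENNReal :=
  if 0 < q.2 ∧ q.1 ≠ 0 ∧ Good m X ∧ ‖X i - q.1‖ < q.2 then ENNReal.ofReal (q.2⁻¹ ^ 6 * ww m X q.1 q.2) else 0

open Classical in
/-- kernel of the error term -/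
def kB (m : ℕ) (X : Conf N) (q : E3 × ℝ) : ENNReal :=
  if 0 < q.2 ∧ q.1 ≠ 0 ∧ Good m X then ENNReal.ofReal (q.2⁻¹ ^ 6 * ww m X q.1 q.2) else 0

end Ion
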