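import Pool.Agent.Lib.MP_69e010_mp.L10

/-!
# JOB L11: Proposition 10.2 in the form used in section 11

`c = c1 m/16 = eps m/400` (`eps m = ea m ^ 12 ∈ (0,1]`, so `0 < c ≤ 1/10`), `C` from `rest_fixed`; `R1 = max 1 (2000/c)`; for `R ≥ R1`: `Q1 = max 1 (max (2C/c) (204800/c²))`; `p X j = sin (vt m R c Q j X)²` with `Q = N - z ≥ Q1`.
* measurable: continuous (`sin_vt_lip`); `0 ≤ p ≤ 1`; `sin_vt_half` (`hR m R j X = hj X j (Rt m R X j)` by definition).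
* `(32/Q + 320/R²)/c² ≤ (c1 m/64)/(eps m) = 1/1600`: `320/R² ≤ 320 c²/4·10⁶ = 8·10⁻⁵ c²` and `32/Q ≤ 32 c²/204800 = 1.5625·10⁻⁴ c²`; sum `≤ 2.4·10⁻⁴ c² ≤ c²/1600 = 6.25·10⁻⁴ c²`.
* apply `rest_fixed` to `Φ σ X = gw m ζ i X * ψ σ X` (`N = n+1` since `N ≥ m ≥ 1`): `LipC`: `gw_lipC`, `LipC.mulC`; `AntiI`: `gw m ζ i (X∘π) = √(nuc m X (π i)) ζ X = gw m ζ i X` (`nuc_perm`, `hζ.symm`), `hψ.2`; support: `Φ ≠ 0 → ζ ≠ 0 → Good, h ≤ dc`.
* `RE z i Φ - EN z N nrm2 Φ = ∑σ ∫ (∑_{k≠i} gsq + (V - (Uo - z/‖X i‖) - EN) Φ²)` (`integral_sub`, `integrable_rest`, `LipC.integrable_gsq`, `LipC.integrable_sq`).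
* pointwise: `(p c Q/(4R) - (c1/64)/(eps dc)) Φ² ≤ (sin² · (cQ/(4R)) - (32/Q+320/R²)/c² (1/dc)) Φ²` (`dc ≥ 0`), `integral_mono` (integrable: `integrable_inv_dc`; `1/dc` form).
-/

open MeasureTheory Metric Finset Filter Topology

noncomputable section

namespace Ion

theorem L11_ea {m : ℕ} (hm : 1 ≤ m) : 0 < ea m ∧ ea m ≤ 1 := by
  have h1 : (1 : ℝ) ≤ m := by exact_mod_cast hm
  unfold ea
  constructor
  · positivity
  · rw [div_le_one (by positivity)]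
    linarith

theorem L11_eps {m : ℕ} (hm : 1 ≤ m) : 0 < eps m ∧ eps m ≤ 1 := by
  obtain ⟨h1, h2⟩ := L11_ea hm
  exact ⟨pow_pos h1 _, pow_le_one₀ h1.le h2⟩

theorem L11_B {c R Q : ℝ} (hc : 0 < c) (hR : 2000 / c ≤ R) (hQ : 204800 / c ^ 2 ≤ Q) :
    (32 / Q + 320 / R ^ 2) / c ^ 2 ≤ 1 / 1600 := by
  have hR0 : 0 < 2000 / c := by positivity
  have hQ0 : 0 < 204800 / c ^ 2 := by positivity
  have hRp : 0 < R := lt_of_lt_of_le hR0 hR
  have hQp : 0 < Q := lt_of_lt_of_le hQ0 hQ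
  have h1 : 32 / Q ≤ 32 * c ^ 2 / 204800 := by
    rw [div_le_iff₀ hQp]
    rw [div_le_iff₀ (by positivity)] at hQ
    nlinarith
  have h2 : 320 / R ^ 2 ≤ 320 * c ^ 2 / 4000000 := by
    rw [div_le_iff₀ (by positivity)]
    rw [div_le_iff₀ hc] at hR
    have h3 : 2000 ^ 2 ≤ (R * c) ^ 2 := pow_le_pow_left₀ (by norm_num) hR 2
    nlinarith
  rw [div_le_iff₀ (by positivity)]
  have h3 : 0 < c ^ 2 := by positivity
  nlinarith

theorem rest_lower {m : ℕ} (hm : 10 ^ 30 ≤ m) :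
    ∃ R1 : ℝ, 1 ≤ R1 ∧ ∀ R : ℝ, R1 ≤ R → ∃ Q1 : ℝ, ∀ z : ℝ, 0 < z → ∀ N : ℕ, m ≤ N → Q1 ≤ (N : ℝ) - z →
      ∃ p : Conf N → Fin N → ℝ, (∀ j, Measurable fun X => p X j) ∧ (∀ X j, 0 ≤ p X j ∧ p X j ≤ 1) ∧
        (∀ X j, (1 + 3 / 2 * (c1 m / 16)) * ((N : ℝ) - z) ≤ hj X j (Rt m R X j) → 1 / 2 ≤ p X j) ∧
        ∀ (h Ri : ℝ) (ζ : Conf N → ℝ) (ψ : RW N), 0 < h → Cut m h Ri ζ → Adms ψ → ∀ i : Fin N,
          ∑ σ, ∫ X, (p X i * (c1 m / 16) * ((N : ℝ) - z) / (4 * R) - (c1 m / 64) / (eps m * dc m X i))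
              * (gw m ζ i X * ψ σ X) ^ 2
            ≤ ∑ σ, ∫ X, ((∑ k ∈ univ.erase i, gsq k (fun Y => gw m ζ i Y * ψ σ Y) X)
                + (V z X - (Uo X i - z / ‖X i‖) - EN z N) * (gw m ζ i X * ψ σ X) ^ 2) := by
  have hm2 : 2 ≤ m := le_trans (by norm_num) hm
  have hm1 : 1 ≤ m := le_trans (by norm_num) hm
  obtain ⟨he0, he1⟩ := L11_eps hm1
  obtain ⟨c, hcd⟩ : ∃ c, c = c1 m / 16 := ⟨_, rfl⟩
  have hce : c = eps m / 400 := by
    rw [hcd]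
    unfold c1
    ring
  have hc : 0 < c := by
    rw [hce]
    positivity
  have hc1 : c ≤ 1 / 10 := by
    rw [hce]
    linarith
  rw [← hcd]
  obtain ⟨C, hC, hF⟩ := rest_fixed hc hc1
  refine ⟨max 1 (2000 / c), le_max_left _ _, fun R hR => ?_⟩
  have hR1 : 1 ≤ R := (le_max_left _ _).trans hR
  have hR2 : 2000 / c ≤ R := (le_max_right _ _).trans hR
  refine ⟨max 1 (max (2 * C / c) (204800 / c ^ 2)), fun z hz N hN hQ1 => ?_⟩
  obtain ⟨n, rfl⟩ : ∃ n, N = n + 1 := ⟨N - 1, by omega⟩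
  obtain ⟨Q, hQd⟩ : ∃ Q, Q = ((n + 1 : ℕ) : ℝ) - z := ⟨_, rfl⟩
  rw [← hQd] at hQ1
  rw [← hQd]
  have hQa : 1 ≤ Q := (le_max_left _ _).trans hQ1
  have hQb : 2 * C / c ≤ Q := ((le_max_left _ _).trans (le_max_right _ _)).trans hQ1
  have hQc : 204800 / c ^ 2 ≤ Q := ((le_max_right _ _).trans (le_max_right _ _)).trans hQ1
  have hQ0 : 0 < Q := by linarith
  have hCQ : 2 * C ≤ c * Q := by
    rw [div_le_iff₀ hc] at hQb
    linarith
  have hB := L11_B hc hR2 hQc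
  have hsc : ∀ j : Fin (n + 1), Continuous fun X : Conf (n + 1) => Real.sin (vt m R c Q j X) := by
    intro j
    obtain ⟨K, hK⟩ := sin_vt_lip hN hR1 hc hQ0 j
    exact hK.continuous
  refine ⟨fun X j => Real.sin (vt m R c Q j X) ^ 2, fun j => ((hsc j).pow 2).measurable,
    fun X j => ⟨sq_nonneg _, Real.sin_sq_le_one _⟩, fun X j hX => sin_vt_half hc hQ0 hX, ?_⟩
  intro h Ri ζ ψ hh hζ hψ i
  have hL : ∀ σ, LipC ((fun σ X => gw m ζ i X * ψ σ X : RW (n + 1)) σ) :=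
    fun σ => (gw_lipC hm2 hN hh hζ i).mulC (hψ.1 σ)
  have hA : AntiI i (fun σ X => gw m ζ i X * ψ σ X : RW (n + 1)) := by
    intro π hπ σ X
    show gw m ζ i (X ∘ π) * ψ (σ ∘ π) (X ∘ π) = ((Equiv.Perm.sign π : ℤ) : ℝ) * (gw m ζ i X * ψ σ X)
    rw [hψ.2 π σ X]
    have h1 : gw m ζ i (X ∘ π) = gw m ζ i X := by
      unfold gw
      rw [nuc_perm, hπ, hζ.symm]
    rw [h1]
    ring
  have hsupp : ∀ σ X, (fun σ X => gw m ζ i X * ψ σ X : RW (n + 1)) σ X ≠ 0 → Good m X ∧ h ≤ dc m X i := by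
    intro σ X hX
    have h0 : ζ X ≠ 0 := by
      intro h0
      apply hX
      show gw m ζ i X * ψ σ X = 0
      unfold gw
      rw [h0, mul_zero, zero_mul]
    obtain ⟨a, b, -⟩ := hζ.supp X h0
    exact ⟨a, b i⟩
  have hmain := hF z hz R hR1 m n hm1 hN Q hQd hQ0 hCQ _ i hL hA h hh hsupp
  have hinv : ∀ σ, Integrable (fun X => 1 / dc m X i * (gw m ζ i X * ψ σ X) ^ 2) :=
    fun σ => integrable_inv_dc hN hh (hL σ) (fun X hX => (hsupp σ X hX).2)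
  have hpint : ∀ (σ : Spin (n + 1)) (a : ℝ),
      Integrable (fun X => (Real.sin (vt m R c Q i X) ^ 2 * a) * (gw m ζ i X * ψ σ X) ^ 2) :=
    fun σ a => L10_int (hL σ) (((hsc i).pow 2).mul continuous_const)
  have hK : ∀ X : Conf (n + 1), (c1 m / 64) / (eps m * dc m X i) = 1 / 1600 * (1 / dc m X i) := by
    intro X
    have h1 : c1 m / 64 = eps m * (1 / 1600) := by
      unfold c1
      ring
    rw [h1, mul_div_mul_left _ _ he0.ne']
    ring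
  have hle : ∑ σ, ∫ X, (Real.sin (vt m R c Q i X) ^ 2 * c * Q / (4 * R) - (c1 m / 64) / (eps m * dc m X i))
              * (gw m ζ i X * ψ σ X) ^ 2 ≤
      ∑ σ, ∫ X, (Real.sin (vt m R c Q i X) ^ 2 * (c * Q / (4 * R))
          - (32 / Q + 320 / R ^ 2) / c ^ 2 * (1 / dc m X i)) * (gw m ζ i X * ψ σ X) ^ 2 := by
    refine Finset.sum_le_sum fun σ _ => ?_
    have j1 : Integrable (fun X => (Real.sin (vt m R c Q i X) ^ 2 * c * Q / (4 * R)
        - (c1 m / 64) / (eps m * dc m X i)) * (gw m ζ i X * ψ σ X) ^ 2) := by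
      have h1 := (hpint σ (c * Q / (4 * R))).sub ((hinv σ).const_mul (1 / 1600))
      refine h1.congr (Eventually.of_forall fun X => ?_)
      show (Real.sin (vt m R c Q i X) ^ 2 * (c * Q / (4 * R))) * (gw m ζ i X * ψ σ X) ^ 2 -
        1 / 1600 * (1 / dc m X i * (gw m ζ i X * ψ σ X) ^ 2) =
        (Real.sin (vt m R c Q i X) ^ 2 * c * Q / (4 * R)
        - (c1 m / 64) / (eps m * dc m X i)) * (gw m ζ i X * ψ σ X) ^ 2
      rw [hK]
      ring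
    have j2 : Integrable (fun X => (Real.sin (vt m R c Q i X) ^ 2 * (c * Q / (4 * R))
          - (32 / Q + 320 / R ^ 2) / c ^ 2 * (1 / dc m X i)) * (gw m ζ i X * ψ σ X) ^ 2) := by
      have h1 := (hpint σ (c * Q / (4 * R))).sub ((hinv σ).const_mul ((32 / Q + 320 / R ^ 2) / c ^ 2))
      refine h1.congr (Eventually.of_forall fun X => ?_)
      show (Real.sin (vt m R c Q i X) ^ 2 * (c * Q / (4 * R))) * (gw m ζ i X * ψ σ X) ^ 2 -
        (32 / Q + 320 / R ^ 2) / c ^ 2 * (1 / dc m X i * (gw m ζ i X * ψ σ X) ^ 2) =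
        (Real.sin (vt m R c Q i X) ^ 2 * (c * Q / (4 * R))
          - (32 / Q + 320 / R ^ 2) / c ^ 2 * (1 / dc m X i)) * (gw m ζ i X * ψ σ X) ^ 2
      ring
    refine integral_mono j1 j2 fun X => ?_
    show (Real.sin (vt m R c Q i X) ^ 2 * c * Q / (4 * R)
        - (c1 m / 64) / (eps m * dc m X i)) * (gw m ζ i X * ψ σ X) ^ 2 ≤
        (Real.sin (vt m R c Q i X) ^ 2 * (c * Q / (4 * R))
          - (32 / Q + 320 / R ^ 2) / c ^ 2 * (1 / dc m X i)) * (gw m ζ i X * ψ σ X) ^ 2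
    refine mul_le_mul_of_nonneg_right ?_ (sq_nonneg _)
    rw [hK]
    have h1 : (32 / Q + 320 / R ^ 2) / c ^ 2 * (1 / dc m X i) ≤ 1 / 1600 * (1 / dc m X i) :=
      mul_le_mul_of_nonneg_right hB (one_div_nonneg.2 (dc_nonnegL m X i))
    have h2 : Real.sin (vt m R c Q i X) ^ 2 * c * Q / (4 * R) =
        Real.sin (vt m R c Q i X) ^ 2 * (c * Q / (4 * R)) := by ring
    rw [h2]
    linarith
  refine hle.trans (hmain.trans (le_of_eq ?_))
  unfold RE nrm2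
  rw [Finset.mul_sum, ← Finset.sum_sub_distrib]
  refine Finset.sum_congr rfl fun σ _ => ?_
  have k1 : Integrable (fun X => (∑ k ∈ univ.erase i, gsq k (fun Y => gw m ζ i Y * ψ σ Y) X) +
      (V z X - (Uo X i - z / ‖X i‖)) * (gw m ζ i X * ψ σ X) ^ 2) :=
    (integrable_finsetSum _ fun k _ => (hL σ).integrable_gsq k).add (integrable_rest (hL σ) z i)
  have k2 : Integrable (fun X => (gw m ζ i X * ψ σ X) ^ 2) := (hL σ).integrable_sq
  rw [← integral_const_mul, ← integral_sub k1 (k2.const_mul _)]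
  refine integral_congr_ae (Eventually.of_forall fun X => ?_)
  show (∑ k ∈ univ.erase i, gsq k (fun Y => gw m ζ i Y * ψ σ Y) X) +
      (V z X - (Uo X i - z / ‖X i‖)) * (gw m ζ i X * ψ σ X) ^ 2 - EN z (n + 1) * (gw m ζ i X * ψ σ X) ^ 2 =
    (∑ k ∈ univ.erase i, gsq k (fun Y => gw m ζ i Y * ψ σ Y) X) +
      (V z X - (Uo X i - z / ‖X i‖) - EN z (n + 1)) * (gw m ζ i X * ψ σ X) ^ 2
  ring

end Ion
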