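import Pool.Agent.Lib.MP_69e010_mp.LDefs

/-!
# JOB L1: the function `χ`

`chi τ = τ⁴/5` for `τ ≤ 1`, `1 - 4/(5τ)` for `τ > 1`; `dchi τ = 4τ³/5`, resp. `4/(5τ²)`. Both pieces agree at `τ = 1` (values `1/5`, derivatives `4/5`).
* `hasDerivAt_chi`: for `t < 1` and `t > 1` the function agrees near `t` with a smooth formula; at `t = 1` glue the one-sided derivatives (`HasDerivWithinAt.union` / `hasDerivWithinAt_Iic`, `Ici`).
* `chi_monoL`: `dchi ≥ 0` on `[0,∞)` or directly. `chi_lip`: `|dchi| ≤ 4/5` on `[0,∞)` and mean value inequality (`Convex.norm_image_sub_le_of_norm_hasDerivWithin_le`).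
* `dchi_sq_le`: `16 t⁶/25 ≤ 16 t⁴/25`; for `t > 1`: `16/(25 t⁴) ≤ 16/25 ≤ (16/5)(1 - 4/(5t))`. `mul_dchi_le`: equality for `t ≤ 1`; `4/(5t) ≤ 4 - 16/(5t)` for `t > 1`.
* `chi_div_lip`: the derivative of `b ↦ chi (a/b)` is `-dchi(a/b) a/b² = -(τ dchi τ)/b` with `τ = a/b`, and `0 ≤ τ dchi τ ≤ 4/5`.
-/

open MeasureTheory Metric Finset Filter Topology

noncomputable section

namespace Ion

variable {N : ℕ}

theorem L1_chi_of_le {t : ℝ} (ht : t ≤ 1) : chi t = t ^ 4 / 5 := if_pos ht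

theorem L1_chi_of_ge {t : ℝ} (ht : 1 ≤ t) : chi t = 1 - 4 / (5 * t) := by
  rcases ht.eq_or_lt with h | h
  · rw [← h, L1_chi_of_le le_rfl]; norm_num
  · exact if_neg (not_le.2 h)

theorem L1_dchi_of_le {t : ℝ} (ht : t ≤ 1) : dchi t = 4 * t ^ 3 / 5 := if_pos ht

theorem L1_dchi_of_ge {t : ℝ} (ht : 1 ≤ t) : dchi t = 4 / (5 * t ^ 2) := by
  rcases ht.eq_or_lt with h | h
  · rw [← h, L1_dchi_of_le le_rfl]; norm_num
  · exact if_neg (not_le.2 h)

theorem chi_nonnegL (t : ℝ) : 0 ≤ chi t := by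
  rcases le_total t 1 with h | h
  · rw [L1_chi_of_le h]; positivity
  · rw [L1_chi_of_ge h]
    have h1 : 4 / (5 * t) ≤ 4 / 5 := by
      apply div_le_div_of_nonneg_left (by norm_num) (by norm_num)
      linarith
    linarith

theorem chi_le_oneL {t : ℝ} (ht : 0 ≤ t) : chi t ≤ 1 := by
  rcases le_total t 1 with h | h
  · rw [L1_chi_of_le h]
    have : t ^ 4 ≤ 1 := pow_le_one₀ ht h
    linarith
  · rw [L1_chi_of_ge h]
    have : 0 ≤ 4 / (5 * t) := by positivity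
    linarith

theorem chi_monoL {s t : ℝ} (hs : 0 ≤ s) (hst : s ≤ t) : chi s ≤ chi t := by
  have h1 : ∀ a b : ℝ, 0 ≤ a → a ≤ b → b ≤ 1 → chi a ≤ chi b := by
    intro a b ha hab hb
    rw [L1_chi_of_le (hab.trans hb), L1_chi_of_le hb]
    have := pow_le_pow_left₀ ha hab 4
    linarith
  have h2 : ∀ a b : ℝ, 1 ≤ a → a ≤ b → chi a ≤ chi b := by
    intro a b ha hab
    rw [L1_chi_of_ge ha, L1_chi_of_ge (ha.trans hab)]
    have h3 : 4 / (5 * b) ≤ 4 / (5 * a) := by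
      apply div_le_div_of_nonneg_left (by norm_num) (by linarith)
      linarith
    linarith
  rcases le_total t 1 with h | h
  · exact h1 s t hs hst h
  · rcases le_total s 1 with h' | h'
    · exact (h1 s 1 hs h' le_rfl).trans (h2 1 t le_rfl h)
    · exact h2 s t h' hst

theorem L1_der_le (t : ℝ) : HasDerivAt (fun x : ℝ => x ^ 4 / 5) (4 * t ^ 3 / 5) t := by
  have h := (hasDerivAt_pow 4 t).div_const 5
  have e : ((4 : ℕ) : ℝ) * t ^ (4 - 1) / 5 = 4 * t ^ 3 / 5 := by norm_num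
  rw [e] at h
  exact h

theorem L1_der_ge {t : ℝ} (ht : 0 < t) : HasDerivAt (fun x : ℝ => 1 - 4 / (5 * x)) (4 / (5 * t ^ 2)) t := by
  have h1 : HasDerivAt (fun x : ℝ => x⁻¹) (-(t ^ 2)⁻¹) t := hasDerivAt_inv ht.ne'
  have h2 := (h1.const_mul (4 / 5 : ℝ)).const_sub 1
  have e : -(4 / 5 * -(t ^ 2)⁻¹) = 4 / (5 * t ^ 2) := by field_simp
  rw [e] at h2
  refine h2.congr_of_eventuallyEq (Eventually.of_forall fun x => ?_)
  show 1 - 4 / (5 * x) = 1 - 4 / 5 * x⁻¹
  rw [div_mul_eq_div_div, div_eq_mul_inv (4 / 5) x]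

theorem hasDerivAt_chi (t : ℝ) : HasDerivAt chi (dchi t) t := by
  rcases lt_trichotomy t 1 with h | h | h
  · rw [L1_dchi_of_le h.le]
    refine (L1_der_le t).congr_of_eventuallyEq ?_
    filter_upwards [Iio_mem_nhds h] with x hx
    exact L1_chi_of_le (le_of_lt hx)
  · subst h
    have e1 : dchi 1 = 4 * (1 : ℝ) ^ 3 / 5 := L1_dchi_of_le le_rfl
    have e2 : dchi 1 = 4 / (5 * (1 : ℝ) ^ 2) := L1_dchi_of_ge le_rfl
    have h1 : HasDerivWithinAt chi (dchi 1) (Set.Iic 1) 1 := by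
      rw [e1]
      refine (L1_der_le 1).hasDerivWithinAt.congr (fun x hx => L1_chi_of_le hx) (L1_chi_of_le le_rfl)
    have h2 : HasDerivWithinAt chi (dchi 1) (Set.Ici 1) 1 := by
      rw [e2]
      refine (L1_der_ge one_pos).hasDerivWithinAt.congr (fun x hx => L1_chi_of_ge hx) (L1_chi_of_ge le_rfl)
    have h3 := h1.union h2
    rw [Set.Iic_union_Ici] at h3
    exact h3.hasDerivAt Filter.univ_mem
  · rw [L1_dchi_of_ge h.le]
    refine (L1_der_ge (by linarith)).congr_of_eventuallyEq ?_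
    filter_upwards [Ioi_mem_nhds h] with x hx
    exact L1_chi_of_ge (le_of_lt hx)

theorem dchi_nonneg {t : ℝ} (ht : 0 ≤ t) : 0 ≤ dchi t := by
  rcases le_total t 1 with h | h
  · rw [L1_dchi_of_le h]; positivity
  · rw [L1_dchi_of_ge h]; positivity

theorem dchi_le {t : ℝ} (ht : 0 ≤ t) : dchi t ≤ 4 / 5 := by
  rcases le_total t 1 with h | h
  · rw [L1_dchi_of_le h]
    have : t ^ 3 ≤ 1 := pow_le_one₀ ht h
    linarith
  · rw [L1_dchi_of_ge h]
    apply div_le_div_of_nonneg_left (by norm_num) (by norm_num)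
    have : 1 ≤ t ^ 2 := one_le_pow₀ h
    linarith

theorem mul_dchi_le {t : ℝ} (ht : 0 ≤ t) : t * dchi t ≤ 4 * chi t := by
  rcases le_total t 1 with h | h
  · rw [L1_dchi_of_le h, L1_chi_of_le h]
    have e : t * (4 * t ^ 3 / 5) = 4 * (t ^ 4 / 5) := by ring
    rw [e]
  · rw [L1_dchi_of_ge h, L1_chi_of_ge h]
    have ht0 : 0 < t := by linarith
    have e : t * (4 / (5 * t ^ 2)) = 4 / (5 * t) := by field_simp
    rw [e]
    have h1 : 4 / (5 * t) ≤ 4 / 5 := by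
      apply div_le_div_of_nonneg_left (by norm_num) (by norm_num)
      linarith
    linarith

theorem mul_dchi_le' {t : ℝ} (ht : 0 ≤ t) : t * dchi t ≤ 4 / 5 := by
  rcases le_total t 1 with h | h
  · rw [L1_dchi_of_le h]
    have : t ^ 4 ≤ 1 := pow_le_one₀ ht h
    have e : t * (4 * t ^ 3 / 5) = 4 * t ^ 4 / 5 := by ring
    rw [e]
    linarith
  · rw [L1_dchi_of_ge h]
    have ht0 : 0 < t := by linarith
    have e : t * (4 / (5 * t ^ 2)) = 4 / (5 * t) := by field_simp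
    rw [e]
    apply div_le_div_of_nonneg_left (by norm_num) (by norm_num)
    linarith

theorem dchi_sq_le {t : ℝ} (ht : 0 ≤ t) : dchi t ^ 2 ≤ 16 / 5 * chi t := by
  rcases le_total t 1 with h | h
  · rw [L1_dchi_of_le h, L1_chi_of_le h]
    have h1 : t ^ 2 ≤ 1 := pow_le_one₀ ht h
    have h2 : t ^ 4 * t ^ 2 ≤ t ^ 4 * 1 := mul_le_mul_of_nonneg_left h1 (by positivity)
    have e : (4 * t ^ 3 / 5) ^ 2 = 16 / 25 * (t ^ 4 * t ^ 2) := by ring
    rw [e]
    linarith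
  · have h1 := dchi_le ht
    have h2 := dchi_nonneg ht
    have h3 : dchi t ^ 2 ≤ (4 / 5) ^ 2 := pow_le_pow_left₀ h2 h1 2
    have h4 : chi 1 ≤ chi t := chi_monoL (by norm_num) h
    rw [L1_chi_of_le le_rfl] at h4
    linarith

theorem chi_lip {s t : ℝ} (hs : 0 ≤ s) (ht : 0 ≤ t) : |chi s - chi t| ≤ 4 / 5 * |s - t| := by
  have h := (convex_Ici (0 : ℝ)).norm_image_sub_le_of_norm_hasDerivWithin_le (f := chi) (f' := dchi)
    (C := 4 / 5) (x := t) (y := s) (fun x _ => (hasDerivAt_chi x).hasDerivWithinAt)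
    (fun x hx => by
      rw [Real.norm_eq_abs, abs_of_nonneg (dchi_nonneg hx)]
      exact dchi_le hx) ht hs
  rw [Real.norm_eq_abs, Real.norm_eq_abs] at h
  exact h

theorem chi_div_lip {a b b' : ℝ} (ha : 0 ≤ a) (hb : 1 ≤ b) (hb' : 1 ≤ b') :
    |chi (a / b) - chi (a / b')| ≤ 4 / 5 * |b - b'| := by
  have hder : ∀ x : ℝ, 1 ≤ x → HasDerivAt (fun b => chi (a / b)) (dchi (a / x) * (a * -(x ^ 2)⁻¹)) x := by
    intro x hx
    have hx0 : x ≠ 0 := by linarith
    have h1 : HasDerivAt (fun b : ℝ => a / b) (a * -(x ^ 2)⁻¹) x := (hasDerivAt_inv hx0).const_mul a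
    exact (hasDerivAt_chi (a / x)).comp x h1
  have h := (convex_Ici (1 : ℝ)).norm_image_sub_le_of_norm_hasDerivWithin_le (f := fun b => chi (a / b))
    (f' := fun x => dchi (a / x) * (a * -(x ^ 2)⁻¹))
    (C := 4 / 5) (x := b') (y := b) (fun x hx => (hder x hx).hasDerivWithinAt)
    (fun x hx => by
      have hx1 : 1 ≤ x := hx
      have hx0 : 0 < x := by linarith
      have h2 : 0 ≤ a / x := by positivity
      have h3 := mul_dchi_le' h2
      have h4 : 0 ≤ a / x * dchi (a / x) := mul_nonneg h2 (dchi_nonneg h2)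
      have e : dchi (a / x) * (a * -(x ^ 2)⁻¹) = -((a / x * dchi (a / x)) * x⁻¹) := by
        field_simp
      rw [e, norm_neg, Real.norm_eq_abs, abs_of_nonneg (by positivity)]
      have h5 : x⁻¹ ≤ 1 := inv_le_one_of_one_le₀ hx1
      calc a / x * dchi (a / x) * x⁻¹ ≤ a / x * dchi (a / x) * 1 := mul_le_mul_of_nonneg_left h5 h4
        _ ≤ 4 / 5 := by linarith) hb' hb
  rw [Real.norm_eq_abs, Real.norm_eq_abs] at h
  exact h

end Ion
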