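import Pool.Agent.Lib.MP_69e010_mp.L4

/-!
# JOB L9: IMS localisation

* `ims_gsq`: `pd k c (sin v · F) = cos v (pd v) F + sin v (pd F)`, `pd k c (cos v · F) = - sin v (pd v) F + cos v (pd F)` at points where `v`, `F` are differentiable (`pd_mul` + chain rule `HasFDerivAt.sin`, `.cos`); sum of squares `= (pd F)² + (pd v)² F²`.
* `lipC_sin`, `lipC_cos`: `LipC.mul` of QTools (Lipschitz times `LipC`; commute the factors).
* `anti_mul`: the factor is symmetric under permutations fixing `i`.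
* `ims_RE`: with `v = vt m R c Q i`, `Φs = sin v · Φ`, `Φc = cos v · Φ`: `Φs² + Φc² = Φ²` and `ims_gsq` (a.e. `X`) give `RE z i Φs + RE z i Φc = RE z i Φ + ∑σ ∫ (∑_{k ≠ i} gsq k v) Φσ²`
  (all integrable: `LipC.integrable_gsq` for `Φs σ, Φc σ, Φ σ`; the potential terms by hypothesis `hint`), and `∑_{k≠i} gsq k v ≤ B/dc m X i` a.e. on good `X` (`ae_sum_gsq_vt_le`, `B = (32/Q + 320/R²)/c²`); outside the good set `Φ = 0` (`hsupp`).
  The function `B/dc · Φσ²` is integrable: `dc ≥ h > 0` on the support of `Φ` (`hsupp`), continuous there.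
* `nrm2_split`: `nrm2 Φs + nrm2 Φc = nrm2 Φ`.
-/

open MeasureTheory Metric Finset Filter Topology

noncomputable section

namespace Ion

variable {N : ℕ}

theorem L9_pd_sin {v : Conf N → ℝ} {X : Conf N} (hv : DifferentiableAt ℝ v X) (k : Fin N) (c : Fin 3) :
    pd k c (fun Y => Real.sin (v Y)) X = Real.cos (v X) * pd k c v X := by
  unfold pd
  rw [(hv.hasFDerivAt.sin).fderiv]
  simp

theorem L9_pd_cos {v : Conf N → ℝ} {X : Conf N} (hv : DifferentiableAt ℝ v X) (k : Fin N) (c : Fin 3) :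
    pd k c (fun Y => Real.cos (v Y)) X = - Real.sin (v X) * pd k c v X := by
  unfold pd
  rw [(hv.hasFDerivAt.cos).fderiv]
  simp

theorem ims_gsq {v F : Conf N → ℝ} {X : Conf N} (hv : DifferentiableAt ℝ v X) (hF : DifferentiableAt ℝ F X) (k : Fin N) :
    gsq k (fun Y => Real.sin (v Y) * F Y) X + gsq k (fun Y => Real.cos (v Y) * F Y) X
      = gsq k F X + gsq k v X * F X ^ 2 := by
  unfold gsq
  rw [← Finset.sum_add_distrib, Finset.sum_mul, ← Finset.sum_add_distrib]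
  refine Finset.sum_congr rfl fun c _ => ?_
  rw [pd_mul hv.sin hF, pd_mul hv.cos hF, L9_pd_sin hv, L9_pd_cos hv]
  have h := Real.sin_sq_add_cos_sq (v X)
  linear_combination ((pd k c F X) ^ 2 + (pd k c v X) ^ 2 * F X ^ 2) * h

theorem L9_lip_sin {v : Conf N → ℝ} {K : NNReal} (hv : LipschitzWith K v) :
    LipschitzWith K (fun Y => Real.sin (v Y)) := by
  refine LipschitzWith.of_dist_le_mul fun X Y => ?_
  refine le_trans ?_ (hv.dist_le_mul X Y)
  rw [Real.dist_eq, Real.dist_eq]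
  exact Real.abs_sin_sub_sin_le (v X) (v Y)

theorem L9_lip_cos {v : Conf N → ℝ} {K : NNReal} (hv : LipschitzWith K v) :
    LipschitzWith K (fun Y => Real.cos (v Y)) := by
  refine LipschitzWith.of_dist_le_mul fun X Y => ?_
  refine le_trans ?_ (hv.dist_le_mul X Y)
  rw [Real.dist_eq, Real.dist_eq]
  exact Real.abs_cos_sub_cos_le (v X) (v Y)

theorem lipC_sin {v F : Conf N → ℝ} (hv : ∃ K, LipschitzWith K v) (hF : LipC F) :
    LipC (fun Y => Real.sin (v Y) * F Y) := by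
  obtain ⟨K, hK⟩ := hv
  have h := hF.mul (L9_lip_sin hK)
  simpa only [mul_comm] using h

theorem lipC_cos {v F : Conf N → ℝ} (hv : ∃ K, LipschitzWith K v) (hF : LipC F) :
    LipC (fun Y => Real.cos (v Y) * F Y) := by
  obtain ⟨K, hK⟩ := hv
  have h := hF.mul (L9_lip_cos hK)
  simpa only [mul_comm] using h

theorem anti_mul {i : Fin N} {Φ : RW N} (hA : AntiI i Φ) {g : Conf N → ℝ}
    (hg : ∀ π : Equiv.Perm (Fin N), π i = i → ∀ X, g (X ∘ π) = g X) : AntiI i (mulw g Φ) := by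
  intro π hπ σ X
  unfold mulw
  rw [hg π hπ X, hA π hπ σ X]
  ring

theorem nrm2_split {v : Conf N → ℝ} (hv : ∃ K, LipschitzWith K v) {Φ : RW N} (hL : ∀ σ, LipC (Φ σ)) :
    nrm2 (mulw (fun Y => Real.sin (v Y)) Φ) + nrm2 (mulw (fun Y => Real.cos (v Y)) Φ) = nrm2 Φ := by
  unfold nrm2 mulw
  rw [← Finset.sum_add_distrib]
  refine Finset.sum_congr rfl fun σ _ => ?_
  rw [← integral_add (lipC_sin hv (hL σ)).integrable_sq (lipC_cos hv (hL σ)).integrable_sq]
  refine integral_congr_ae (Eventually.of_forall fun X => ?_)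
  have h := Real.sin_sq_add_cos_sq (v X)
  show (Real.sin (v X) * Φ σ X) ^ 2 + (Real.cos (v X) * Φ σ X) ^ 2 = (Φ σ X) ^ 2
  linear_combination (Φ σ X) ^ 2 * h

theorem L9_continuous_dc {m : ℕ} (hN : m ≤ N) (i : Fin N) : Continuous (fun X : Conf N => dc m X i) := by
  have h : LipschitzWith 2 (fun X : Conf N => dc m X i) := by
    refine LipschitzWith.of_dist_le_mul fun X Y => ?_
    rw [Real.dist_eq]
    simpa using dc_lipL hN i X Y
  exact h.continuous

/-- functions supported where `dc ≥ h` can be multiplied by `1/dc` -/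
theorem integrable_inv_dc {m : ℕ} (hN : m ≤ N) {i : Fin N} {h : ℝ} (hh : 0 < h) {F : Conf N → ℝ} (hF : LipC F)
    (hs : ∀ X, F X ≠ 0 → h ≤ dc m X i) : Integrable (fun X => 1 / dc m X i * F X ^ 2) := by
  obtain ⟨C, hC0, hC⟩ := hF.bdd
  refine integrable_of_bdd_supp (C := 1 / h * C ^ 2) (S := tsupport F) ?_ ?_ hF.2 ?_
  · have h1 : Measurable (fun X : Conf N => dc m X i) := (L9_continuous_dc hN i).measurable
    have h2 : Measurable F := hF.cont.measurable
    exact (measurable_const.div h1).mul (h2.pow_const 2)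
  · intro X
    by_cases h0 : F X = 0
    · rw [h0]
      simp
      positivity
    · have h1 := hs X h0
      have h2 : 0 < dc m X i := lt_of_lt_of_le hh h1
      rw [abs_of_nonneg (by positivity)]
      have h3 : 1 / dc m X i ≤ 1 / h := one_div_le_one_div_of_le hh h1
      have h4 : F X ^ 2 ≤ C ^ 2 := by
        rw [← sq_abs]
        exact pow_le_pow_left₀ (abs_nonneg _) (hC X) 2
      exact mul_le_mul h3 h4 (sq_nonneg _) (by positivity)
  · intro X hX
    have h0 : F X = 0 := image_eq_zero_of_notMem_tsupport hX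
    rw [h0]
    simp

theorem ims_RE {m : ℕ} (hm : 1 ≤ m) (hN : m ≤ N) {R c Q : ℝ} (hR1 : 1 ≤ R) (hc : 0 < c) (hc2 : c ≤ 1 / 2)
    (hQ : 0 < Q) (z : ℝ) {i : Fin N} {Φ : RW N} (hL : ∀ σ, LipC (Φ σ))
    (hint : ∀ F : Conf N → ℝ, LipC F → Integrable (fun X => (V z X - (Uo X i - z / ‖X i‖)) * (F X) ^ 2))
    {h : ℝ} (hh : 0 < h) (hsupp : ∀ σ X, Φ σ X ≠ 0 → Good m X ∧ h ≤ dc m X i) :
    RE z i (mulw (fun Y => Real.sin (vt m R c Q i Y)) Φ) + RE z i (mulw (fun Y => Real.cos (vt m R c Q i Y)) Φ)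
      ≤ RE z i Φ + (32 / Q + 320 / R ^ 2) / c ^ 2 * ∑ σ, ∫ X, 1 / dc m X i * (Φ σ X) ^ 2 := by
  have hv : ∃ K, LipschitzWith K (vt m R c Q i : Conf N → ℝ) := vt_lip hN hR1 hc hQ i
  unfold RE
  rw [Finset.mul_sum, ← Finset.sum_add_distrib, ← Finset.sum_add_distrib]
  refine Finset.sum_le_sum fun σ _ => ?_
  have hs := lipC_sin hv (hL σ)
  have hcc := lipC_cos hv (hL σ)
  have e1 : (mulw (fun Y => Real.sin (vt m R c Q i Y)) Φ) σ = fun Y => Real.sin (vt m R c Q i Y) * Φ σ Y := rfl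
  have e2 : (mulw (fun Y => Real.cos (vt m R c Q i Y)) Φ) σ = fun Y => Real.cos (vt m R c Q i Y) * Φ σ Y := rfl
  rw [e1, e2]
  have hI : ∀ F : Conf N → ℝ, LipC F → Integrable (fun X => (∑ k ∈ univ.erase i, gsq k F X)
      + (V z X - (Uo X i - z / ‖X i‖)) * (F X) ^ 2) := fun F hF =>
    (integrable_finsetSum _ fun k _ => hF.integrable_gsq k).add (hint F hF)
  have hD := integrable_inv_dc hN hh (hL σ) (fun X hX => (hsupp σ X hX).2)
  rw [← integral_add (hI _ hs) (hI _ hcc), ← integral_const_mul, ← integral_add (hI _ (hL σ)) (hD.const_mul _)]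
  refine integral_mono_ae ((hI _ hs).add (hI _ hcc)) ((hI _ (hL σ)).add (hD.const_mul _)) ?_
  obtain ⟨K, hK⟩ := hv
  filter_upwards [(hL σ).ae_diff, lip_ae_diff hK, ae_sum_gsq_vt_le hm hN hR1 hc hc2 hQ i] with X h1 h2 h3
  show (∑ k ∈ univ.erase i, gsq k (fun Y => Real.sin (vt m R c Q i Y) * Φ σ Y) X)
      + (V z X - (Uo X i - z / ‖X i‖)) * (Real.sin (vt m R c Q i X) * Φ σ X) ^ 2
      + ((∑ k ∈ univ.erase i, gsq k (fun Y => Real.cos (vt m R c Q i Y) * Φ σ Y) X)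
      + (V z X - (Uo X i - z / ‖X i‖)) * (Real.cos (vt m R c Q i X) * Φ σ X) ^ 2)
      ≤ (∑ k ∈ univ.erase i, gsq k (Φ σ) X) + (V z X - (Uo X i - z / ‖X i‖)) * (Φ σ X) ^ 2
      + (32 / Q + 320 / R ^ 2) / c ^ 2 * (1 / dc m X i * (Φ σ X) ^ 2)
  have h4 : (∑ k ∈ univ.erase i, gsq k (fun Y => Real.sin (vt m R c Q i Y) * Φ σ Y) X)
      + (∑ k ∈ univ.erase i, gsq k (fun Y => Real.cos (vt m R c Q i Y) * Φ σ Y) X)
      = (∑ k ∈ univ.erase i, gsq k (Φ σ) X)
        + (∑ k ∈ univ.erase i, gsq k (vt m R c Q i) X) * (Φ σ X) ^ 2 := by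
    rw [← Finset.sum_add_distrib, Finset.sum_mul, ← Finset.sum_add_distrib]
    exact Finset.sum_congr rfl fun k _ => ims_gsq h2 h1 k
  have h5 : (∑ k ∈ univ.erase i, gsq k (vt m R c Q i) X) * (Φ σ X) ^ 2
      ≤ (32 / Q + 320 / R ^ 2) / c ^ 2 * (1 / dc m X i * (Φ σ X) ^ 2) := by
    by_cases h0 : Φ σ X = 0
    · rw [h0]
      simp
    · obtain ⟨hg, hd⟩ := hsupp σ X h0
      have hd0 : 0 < dc m X i := lt_of_lt_of_le hh hd
      have h6 := h3 hg
      calc (∑ k ∈ univ.erase i, gsq k (vt m R c Q i) X) * (Φ σ X) ^ 2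
          ≤ (32 / Q + 320 / R ^ 2) / (c ^ 2 * dc m X i) * (Φ σ X) ^ 2 :=
            mul_le_mul_of_nonneg_right h6 (sq_nonneg _)
        _ = (32 / Q + 320 / R ^ 2) / c ^ 2 * (1 / dc m X i * (Φ σ X) ^ 2) := by
            field_simp
  have h6 := Real.sin_sq_add_cos_sq (vt m R c Q i X)
  have h7 : (V z X - (Uo X i - z / ‖X i‖)) * (Real.sin (vt m R c Q i X) * Φ σ X) ^ 2
      + (V z X - (Uo X i - z / ‖X i‖)) * (Real.cos (vt m R c Q i X) * Φ σ X) ^ 2
      = (V z X - (Uo X i - z / ‖X i‖)) * (Φ σ X) ^ 2 := by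
    linear_combination (V z X - (Uo X i - z / ‖X i‖)) * (Φ σ X) ^ 2 * h6
  linarith

end Ion
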