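import Pool.Agent.Lib.MP_69e010_mp.L8
import Pool.Agent.Lib.MP_69e010_mp.L9

/-!
# JOB L10: combination

`gain_arith`: with `H ≥ (1+c) Q`: `R` times the right side is `(5/4)(1 - Q + H) - (c/4) H - C/R ≥ (5/4)(H - Q) - (c/4) H - C` and `H - Q ≥ (c/(1+c)) H ≥ (10/11) c H` for `c ≤ 1/10`, so it is `≥ c H (12.5/11 - 1/4) - C ≥ (88/100) c Q - C ≥ c Q/4` when `c Q ≥ 2 C`.
`rest_fixed`: `Φ = ` any admissible function (hypotheses of `ims_RE`), `v = vt m R c Q i`, `Φs = sin v Φ`, `Φc = cos v Φ` (`lipC_sin`, `lipC_cos`, `anti_mul` with `vt_symm`). `N = n+1`.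
* `RE_gamma` with `η = c/4`: `RE Φs - EN z (n+1) nrm2 Φs ≥ ∑σ ∫ (weight) sin² v Φσ² ≥ ∑σ ∫ c Q/(4R) sin² v Φσ²`: pointwise: if `sin v ≠ 0` then `hR > (1+c) Q` (`vt_zero`), `∑ χ(‖X k‖/R) ≥ hR` (`hR_le`) and `gain_arith` (`z - n = 1 - Q`).
* `RE_ge` for `Φc` and `EN_succ_le`: `RE Φc ≥ EN z n nrm2 Φc ≥ EN z (n+1) nrm2 Φc`.
* `ims_RE` (`hint` = `integrable_rest`), `nrm2_split`.
-/

open MeasureTheory Metric Finset Filter Topology

noncomputable section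

namespace Ion

variable {n : ℕ}

theorem gain_arith {c Q C R H : ℝ} (hc : 0 < c) (hc1 : c ≤ 1 / 10) (hC : 0 < C) (hR : 1 ≤ R) (hQ : 2 * C ≤ c * Q)
    (hH : (1 + c) * Q ≤ H) :
    c * Q / (4 * R) ≤ 5 / (4 * R) * (1 - Q + H) - c / 4 / R * H - C / R ^ 2 := by
  have hR0 : 0 < R := by linarith
  have hcQ : 0 < c * Q := by linarith
  have h1 : C / R ≤ C := div_le_self hC.le hR
  have h2 : (5 / 4 - c / 4) * ((1 + c) * Q) ≤ (5 / 4 - c / 4) * H :=
    mul_le_mul_of_nonneg_left hH (by linarith)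
  have h3 : c * Q / 4 ≤ 5 / 4 * (1 - Q + H) - c / 4 * H - C / R := by
    nlinarith
  have h4 : c * Q / (4 * R) = c * Q / 4 / R := by
    rw [div_div]
  have h5 : 5 / (4 * R) * (1 - Q + H) - c / 4 / R * H - C / R ^ 2 =
      (5 / 4 * (1 - Q + H) - c / 4 * H - C / R) / R := by
    field_simp
  rw [h4, h5]
  exact div_le_div_of_nonneg_right h3 hR0.le

theorem L10_chi_cont : Continuous chi :=
  continuous_iff_continuousAt.2 fun t => (hasDerivAt_chi t).continuousAt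

theorem L10_int {N : ℕ} {F G : Conf N → ℝ} (hF : LipC F) (hG : Continuous G) :
    Integrable (fun X => G X * F X ^ 2) := by
  have hc : Continuous (fun X => G X * F X ^ 2) := hG.mul (hF.cont.pow 2)
  refine hc.integrable_of_hasCompactSupport ?_
  refine hF.2.mono' ?_
  intro X hX
  refine subset_closure ?_
  rw [Function.mem_support] at hX ⊢
  intro h0
  apply hX
  rw [h0]
  ring

theorem L10_sum_cont (R : ℝ) (i : Fin (n + 1)) :
    Continuous fun X : Conf (n + 1) => ∑ k ∈ univ.erase i, chi (‖X k‖ / R) :=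
  continuous_finsetSum _ fun k _ => L10_chi_cont.comp ((continuous_apply k).norm.div_const R)

theorem rest_fixed {c : ℝ} (hc : 0 < c) (hc1 : c ≤ 1 / 10) :
    ∃ C : ℝ, 0 < C ∧ ∀ (z : ℝ), 0 < z → ∀ (R : ℝ), 1 ≤ R → ∀ (m n : ℕ), 1 ≤ m → m ≤ n + 1 →
      ∀ Q : ℝ, Q = ((n + 1 : ℕ) : ℝ) - z → 0 < Q → 2 * C ≤ c * Q →
      ∀ (Φ : RW (n + 1)) (i : Fin (n + 1)), (∀ σ, LipC (Φ σ)) → AntiI i Φ →
      ∀ h : ℝ, 0 < h → (∀ σ X, Φ σ X ≠ 0 → Good m X ∧ h ≤ dc m X i) →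
      ∑ σ, ∫ X, (Real.sin (vt m R c Q i X) ^ 2 * (c * Q / (4 * R))
          - (32 / Q + 320 / R ^ 2) / c ^ 2 * (1 / dc m X i)) * (Φ σ X) ^ 2
        ≤ RE z i Φ - EN z (n + 1) * nrm2 Φ := by
  obtain ⟨C, hC, hG⟩ := RE_gamma (η := c / 4) (by positivity) (by linarith)
  refine ⟨C, hC, ?_⟩
  intro z hz R hR1 m n hm hN Q hQd hQ hCQ Φ i hL hA h hh hsupp
  have hv : ∃ K, LipschitzWith K (vt m R c Q i) := vt_lip hN hR1 hc hQ i
  have hLs : ∀ σ, LipC (mulw (fun Y => Real.sin (vt m R c Q i Y)) Φ σ) := fun σ => lipC_sin hv (hL σ)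
  have hLc : ∀ σ, LipC (mulw (fun Y => Real.cos (vt m R c Q i Y)) Φ σ) := fun σ => lipC_cos hv (hL σ)
  have hAs : AntiI i (mulw (fun Y => Real.sin (vt m R c Q i Y)) Φ) :=
    anti_mul hA (fun π hπ X => by rw [vt_symm R c Q hπ X])
  have hAc : AntiI i (mulw (fun Y => Real.cos (vt m R c Q i Y)) Φ) :=
    anti_mul hA (fun π hπ X => by rw [vt_symm R c Q hπ X])
  have hg := hG z hz R hR1 n _ i hLs hAs
  have hge := RE_ge hz hLc hAc
  have hE := EN_succ_le hz n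
  have hnn : 0 ≤ nrm2 (mulw (fun Y => Real.cos (vt m R c Q i Y)) Φ) :=
    Finset.sum_nonneg fun σ _ => integral_nonneg fun X => sq_nonneg _
  have hEc := mul_le_mul_of_nonneg_right hE hnn
  have hims := ims_RE hm hN hR1 hc (by linarith) hQ z hL (fun F hF => integrable_rest hF z i) hh hsupp
  have hsp := nrm2_split hv hL
  have hWc : Continuous fun X : Conf (n + 1) =>
      5 / (4 * R) * (z - n + ∑ k ∈ univ.erase i, chi (‖X k‖ / R))
        - c / 4 / R * (∑ k ∈ univ.erase i, chi (‖X k‖ / R)) - C / R ^ 2 :=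
    ((continuous_const.mul (continuous_const.add (L10_sum_cont R i))).sub
      (continuous_const.mul (L10_sum_cont R i))).sub continuous_const
  have hzn : z - n = 1 - Q := by
    rw [hQd]
    push_cast
    ring
  have h1 : ∀ σ, ∫ X, (c * Q / (4 * R)) * (mulw (fun Y => Real.sin (vt m R c Q i Y)) Φ σ X) ^ 2 ≤
      ∫ X, (5 / (4 * R) * (z - n + ∑ k ∈ univ.erase i, chi (‖X k‖ / R))
        - c / 4 / R * (∑ k ∈ univ.erase i, chi (‖X k‖ / R)) - C / R ^ 2) *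
          (mulw (fun Y => Real.sin (vt m R c Q i Y)) Φ σ X) ^ 2 := by
    intro σ
    refine integral_mono ((hLs σ).integrable_sq.const_mul _) (L10_int (hLs σ) hWc) ?_
    intro X
    show (c * Q / (4 * R)) * (mulw (fun Y => Real.sin (vt m R c Q i Y)) Φ σ X) ^ 2 ≤
      (5 / (4 * R) * (z - n + ∑ k ∈ univ.erase i, chi (‖X k‖ / R))
        - c / 4 / R * (∑ k ∈ univ.erase i, chi (‖X k‖ / R)) - C / R ^ 2) *
          (mulw (fun Y => Real.sin (vt m R c Q i Y)) Φ σ X) ^ 2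
    by_cases h0 : hR m R i X ≤ (1 + c) * Q
    · have h2 : mulw (fun Y => Real.sin (vt m R c Q i Y)) Φ σ X = 0 := by
        show Real.sin (vt m R c Q i X) * Φ σ X = 0
        rw [vt_zero hc hQ h0, Real.sin_zero, zero_mul]
      rw [h2]
      simp
    · have h2 := hR_le (m := m) hR1 i X
      rw [hzn]
      exact mul_le_mul_of_nonneg_right
        (gain_arith hc hc1 hC hR1 hCQ ((le_of_lt (not_le.1 h0)).trans h2)) (sq_nonneg _)
  have h2 : ∀ σ, ∫ X, (Real.sin (vt m R c Q i X) ^ 2 * (c * Q / (4 * R))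
          - (32 / Q + 320 / R ^ 2) / c ^ 2 * (1 / dc m X i)) * (Φ σ X) ^ 2 =
      (∫ X, (c * Q / (4 * R)) * (mulw (fun Y => Real.sin (vt m R c Q i Y)) Φ σ X) ^ 2) -
        (32 / Q + 320 / R ^ 2) / c ^ 2 * ∫ X, 1 / dc m X i * (Φ σ X) ^ 2 := by
    intro σ
    have i2 := integrable_inv_dc hN (i := i) hh (hL σ) (fun X hX => (hsupp σ X hX).2)
    rw [← integral_const_mul, ← integral_sub ((hLs σ).integrable_sq.const_mul _) (i2.const_mul _)]
    refine integral_congr_ae (Eventually.of_forall fun X => ?_)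
    show (Real.sin (vt m R c Q i X) ^ 2 * (c * Q / (4 * R))
          - (32 / Q + 320 / R ^ 2) / c ^ 2 * (1 / dc m X i)) * (Φ σ X) ^ 2 =
      (c * Q / (4 * R)) * (Real.sin (vt m R c Q i X) * Φ σ X) ^ 2 -
        (32 / Q + 320 / R ^ 2) / c ^ 2 * (1 / dc m X i * (Φ σ X) ^ 2)
    ring
  have h3 : ∑ σ, ∫ X, (Real.sin (vt m R c Q i X) ^ 2 * (c * Q / (4 * R))
          - (32 / Q + 320 / R ^ 2) / c ^ 2 * (1 / dc m X i)) * (Φ σ X) ^ 2 =
      (∑ σ, ∫ X, (c * Q / (4 * R)) * (mulw (fun Y => Real.sin (vt m R c Q i Y)) Φ σ X) ^ 2) -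
        (32 / Q + 320 / R ^ 2) / c ^ 2 * ∑ σ, ∫ X, 1 / dc m X i * (Φ σ X) ^ 2 := by
    rw [Finset.mul_sum, ← Finset.sum_sub_distrib]
    exact Finset.sum_congr rfl fun σ _ => h2 σ
  have h4 := Finset.sum_le_sum fun σ (_ : σ ∈ (univ : Finset (Spin (n + 1)))) => h1 σ
  rw [h3]
  have h5 : EN z (n + 1) * nrm2 Φ = EN z (n + 1) * nrm2 (mulw (fun Y => Real.sin (vt m R c Q i Y)) Φ) +
      EN z (n + 1) * nrm2 (mulw (fun Y => Real.cos (vt m R c Q i Y)) Φ) := by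
    rw [← hsp]
    ring
  linarith

end Ion
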