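import Pool.Agent.Lib.MP_69e010_mp.L1

/-!
# JOB L2: the angle `vt` is Lipschitz, symmetric, and `p = sin² vt`

* `dc_lipL`: `dc m X i = dd m X (X i)`, `dd_lip` (C1) with `y = X i`, `y' = X' i`, `c = dist X X'` (`dist_le_pi_dist`).
* `Rt_lip`: `Rt m R X i = max R √(dc m X i)`, `R ≥ 1`: for `d, d' ≥ 0`: `|max R √d - max R √d'| ≤ |d - d'|/2` (if `d' ≤ d`: `max R √d' ≥ 1` and `a - b ≤ (a²-b²)/2` for `a ≥ b ≥ 1`; `max(R,√d)² = max(R²,d)` is 1-Lipschitz in `d`), and `|d - d'| ≤ 2 dist`.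
  (`dc ≥ 0` always: `DD_nonneg`.)
* `hR_lip`: for each `k`: `|χ(‖X k‖/r) - χ(‖X' k‖/r')| ≤ 4/5 |‖X k‖/r - ‖X' k‖/r| + 4/5 |r - r'| ≤ (8/5) dist X X'` (`chi_lip`, `chi_div_lip`, `r, r' ≥ 1`). Sum over at most `N` electrons.
* `vt_lip`: `cla` is 1-Lipschitz; `vt = (π/2) cla ((h/Q - 1 - c)/c)`.
* `vt_symm`: `π i = i`: `dc_perm` (`dc m (X∘π) i = dc m X (π i)`), and reindex the sum over `univ.erase i` by `π`.
* `sin_vt_half`: if `(1 + 3/2 c) Q ≤ h` then the argument of `cla` is `≥ 1/2`, `vt ∈ [π/4, π/2]`, `sin vt ≥ sin (π/4) = √2/2`.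
* `vt_zero`: if `h ≤ (1+c) Q` then `vt = 0`.
-/

open MeasureTheory Metric Finset Filter Topology

noncomputable section

namespace Ion

variable {N : ℕ}

theorem dc_nonnegL (m : ℕ) (X : Conf N) (i : Fin N) : 0 ≤ dc m X i := by
  unfold dc dd
  exact le_min (DD_nonneg m X _) (by positivity)

theorem L2_norm_sub_le (X X' : Conf N) (j : Fin N) : ‖X j - X' j‖ ≤ dist X X' := by
  rw [← dist_eq_norm]
  exact dist_le_pi_dist X X' j

theorem dc_lipL {m : ℕ} (hN : m ≤ N) (i : Fin N) (X X' : Conf N) : |dc m X i - dc m X' i| ≤ 2 * dist X X' := by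
  unfold dc
  have h := dd_lip (m := m) hN (X := X) (X' := X') (X i) (X' i) (c := dist X X') dist_nonneg
    (L2_norm_sub_le X X')
  have h1 := L2_norm_sub_le X X' i
  linarith

theorem dc_lip' {m : ℕ} (hN : m ≤ N) {i : Fin N} {X X' : Conf N} (h : X i = X' i) :
    |dc m X i - dc m X' i| ≤ dist X X' := by
  unfold dc
  have h2 := dd_lip (m := m) hN (X := X) (X' := X') (X i) (X' i) (c := dist X X') dist_nonneg
    (L2_norm_sub_le X X')
  have h1 : ‖X i - X' i‖ = 0 := by rw [h, sub_self, norm_zero]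
  linarith

theorem L2_max_sqrt {R d d' : ℝ} (hR : 1 ≤ R) (hd : 0 ≤ d) (hd' : 0 ≤ d') (h : d' ≤ d) :
    |max R √d - max R √d'| ≤ (d - d') / 2 := by
  have h1 : √d' ≤ √d := Real.sqrt_le_sqrt h
  have h2 : max R √d' ≤ max R √d := max_le_max le_rfl h1
  rw [abs_of_nonneg (sub_nonneg.2 h2)]
  have h3 : 1 ≤ max R √d' := hR.trans (le_max_left _ _)
  have h5 : √d' ≤ max R √d' := le_max_right _ _
  have h6 : R ≤ max R √d' := le_max_left _ _
  have h7 : √d ^ 2 = d := Real.sq_sqrt hd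
  have h8 : √d' ^ 2 = d' := Real.sq_sqrt hd'
  have h9 := Real.sqrt_nonneg d'
  rcases le_total R √d with h4 | h4
  · rw [max_eq_right h4] at h2 ⊢
    have h10 : max R √d' ^ 2 ≥ d' := by nlinarith
    nlinarith
  · rw [max_eq_left h4]
    have : max R √d' = R := le_antisymm (max_le le_rfl (h1.trans h4)) h6
    rw [this]
    linarith

theorem L2_max_sqrt' {R d d' : ℝ} (hR : 1 ≤ R) (hd : 0 ≤ d) (hd' : 0 ≤ d') :
    |max R √d - max R √d'| ≤ |d - d'| / 2 := by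
  rcases le_total d' d with h | h
  · rw [abs_of_nonneg (sub_nonneg.2 h)]
    exact L2_max_sqrt hR hd hd' h
  · rw [abs_sub_comm, abs_sub_comm d d', abs_of_nonneg (sub_nonneg.2 h)]
    exact L2_max_sqrt hR hd' hd h

theorem Rt_lip {m : ℕ} (hN : m ≤ N) {R : ℝ} (hR : 1 ≤ R) (i : Fin N) (X X' : Conf N) :
    |Rt m R X i - Rt m R X' i| ≤ dist X X' := by
  unfold Rt
  have h1 := L2_max_sqrt' hR (dc_nonnegL m X i) (dc_nonnegL m X' i)
  have h2 := dc_lipL hN i X X'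
  linarith

theorem L2_one_le_Rt (m : ℕ) {R : ℝ} (hR : 1 ≤ R) (i : Fin N) (X : Conf N) : 1 ≤ Rt m R X i :=
  hR.trans (le_max_left _ _)

theorem L2_term {a a' r r' D : ℝ} (ha : 0 ≤ a) (ha' : 0 ≤ a') (hr : 1 ≤ r) (hr' : 1 ≤ r')
    (h1 : |a - a'| ≤ D) (h2 : |r - r'| ≤ D) : |chi (a / r) - chi (a' / r')| ≤ 8 / 5 * D := by
  have h3 : |chi (a / r) - chi (a / r')| ≤ 4 / 5 * |r - r'| := chi_div_lip ha hr hr'
  have hr0 : 0 < r' := by linarith
  have h4 : |chi (a / r') - chi (a' / r')| ≤ 4 / 5 * |a / r' - a' / r'| :=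
    chi_lip (div_nonneg ha hr0.le) (div_nonneg ha' hr0.le)
  have h5 : |a / r' - a' / r'| ≤ |a - a'| := by
    rw [← sub_div, abs_div, abs_of_pos hr0]
    exact div_le_self (abs_nonneg _) hr'
  have h6 : |chi (a / r) - chi (a' / r')| ≤ |chi (a / r) - chi (a / r')| + |chi (a / r') - chi (a' / r')| :=
    abs_sub_le _ _ _
  linarith

theorem hR_lip {m : ℕ} (hN : m ≤ N) {R : ℝ} (hR1 : 1 ≤ R) (i : Fin N) (X X' : Conf N) :
    |hR m R i X - hR m R i X'| ≤ 8 / 5 * N * dist X X' := by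
  unfold hR hj
  rw [← Finset.sum_sub_distrib]
  refine (Finset.abs_sum_le_sum_abs _ _).trans ?_
  have h1 : ∀ k ∈ univ.erase i,
      |chi (‖X k‖ / Rt m R X i) - chi (‖X' k‖ / Rt m R X' i)| ≤ 8 / 5 * dist X X' := by
    intro k _
    refine L2_term (norm_nonneg _) (norm_nonneg _) (L2_one_le_Rt m hR1 i X) (L2_one_le_Rt m hR1 i X') ?_
      (Rt_lip hN hR1 i X X')
    exact (abs_norm_sub_norm_le _ _).trans (L2_norm_sub_le X X' k)
  refine (Finset.sum_le_card_nsmul _ _ _ h1).trans ?_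
  rw [nsmul_eq_mul]
  have h2 : (((univ : Finset (Fin N)).erase i).card : ℝ) ≤ N := by
    have := Finset.card_le_univ ((univ : Finset (Fin N)).erase i)
    rw [Fintype.card_fin] at this
    exact_mod_cast this
  have h3 : 0 ≤ 8 / 5 * dist X X' := by positivity
  calc _ ≤ (N : ℝ) * (8 / 5 * dist X X') := mul_le_mul_of_nonneg_right h2 h3
    _ = _ := by ring

theorem hR_nonneg (m : ℕ) (R : ℝ) (i : Fin N) (X : Conf N) : 0 ≤ hR m R i X := by
  unfold hR hj
  exact Finset.sum_nonneg fun k _ => chi_nonnegL _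

theorem L2_cla_mem (t : ℝ) : 0 ≤ cla t ∧ cla t ≤ 1 := by
  unfold cla
  exact ⟨le_max_left _ _, max_le zero_le_one (min_le_left _ _)⟩

theorem L2_cla_lip (s t : ℝ) : |cla s - cla t| ≤ |s - t| := by
  unfold cla
  refine (abs_max_sub_max_le_max _ _ _ _).trans (max_le (by simp) ?_)
  refine (abs_min_sub_min_le_max _ _ _ _).trans (max_le (by simp) le_rfl)

theorem vt_mem (m : ℕ) (R c Q : ℝ) (i : Fin N) (X : Conf N) :
    0 ≤ vt m R c Q i X ∧ vt m R c Q i X ≤ Real.pi / 2 := by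
  unfold vt
  obtain ⟨h1, h2⟩ := L2_cla_mem ((hR m R i X / Q - 1 - c) / c)
  have h3 := Real.pi_pos
  constructor
  · positivity
  · nlinarith

theorem L2_vt_lip {m : ℕ} (hN : m ≤ N) {R c Q : ℝ} (hR1 : 1 ≤ R) (hc : 0 < c) (hQ : 0 < Q) (i : Fin N)
    (X X' : Conf N) :
    |vt m R c Q i X - vt m R c Q i X'| ≤ Real.pi / 2 * (8 / 5 * N / (Q * c)) * dist X X' := by
  unfold vt
  rw [← mul_sub, abs_mul, abs_of_pos (by positivity : 0 < Real.pi / 2), mul_assoc]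
  refine mul_le_mul_of_nonneg_left ?_ (by positivity)
  refine (L2_cla_lip _ _).trans ?_
  have e : (hR m R i X / Q - 1 - c) / c - (hR m R i X' / Q - 1 - c) / c
      = (hR m R i X - hR m R i X') / (Q * c) := by
    field_simp
    ring
  rw [e, abs_div, abs_of_pos (by positivity : 0 < Q * c)]
  rw [div_le_iff₀ (by positivity : 0 < Q * c)]
  refine (hR_lip hN hR1 i X X').trans (le_of_eq ?_)
  field_simp

theorem L2_lip_of {f : Conf N → ℝ} {C : ℝ} (hC : 0 ≤ C) (h : ∀ X X', |f X - f X'| ≤ C * dist X X') :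
    ∃ K, LipschitzWith K f := by
  refine ⟨Real.toNNReal C, LipschitzWith.of_dist_le_mul fun X X' => ?_⟩
  rw [Real.dist_eq, Real.coe_toNNReal C hC]
  exact h X X'

theorem vt_lip {m : ℕ} (hN : m ≤ N) {R c Q : ℝ} (hR1 : 1 ≤ R) (hc : 0 < c) (hQ : 0 < Q) (i : Fin N) :
    ∃ K, LipschitzWith K (vt m R c Q i) :=
  L2_lip_of (by positivity) (L2_vt_lip hN hR1 hc hQ i)

theorem sin_vt_lip {m : ℕ} (hN : m ≤ N) {R c Q : ℝ} (hR1 : 1 ≤ R) (hc : 0 < c) (hQ : 0 < Q) (i : Fin N) :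
    ∃ K, LipschitzWith K (fun X => Real.sin (vt m R c Q i X)) := by
  refine L2_lip_of (C := Real.pi / 2 * (8 / 5 * N / (Q * c))) (by positivity) fun X X' => ?_
  have h1 := L2_vt_lip hN hR1 hc hQ i X X'
  have h2 : |Real.sin (vt m R c Q i X) - Real.sin (vt m R c Q i X')|
      ≤ |vt m R c Q i X - vt m R c Q i X'| := by
    rw [Real.sin_sub_sin, abs_mul, abs_mul, abs_of_pos (by norm_num : (0 : ℝ) < 2)]
    have h3 : |Real.sin ((vt m R c Q i X - vt m R c Q i X') / 2)|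
        ≤ |(vt m R c Q i X - vt m R c Q i X') / 2| := Real.abs_sin_le_abs
    have h4 := Real.abs_cos_le_one ((vt m R c Q i X + vt m R c Q i X') / 2)
    rw [abs_div, abs_of_pos (by norm_num : (0 : ℝ) < 2)] at h3
    have h5 := abs_nonneg (Real.sin ((vt m R c Q i X - vt m R c Q i X') / 2))
    have h6 := abs_nonneg (Real.cos ((vt m R c Q i X + vt m R c Q i X') / 2))
    nlinarith
  exact h2.trans h1

theorem cos_vt_lip {m : ℕ} (hN : m ≤ N) {R c Q : ℝ} (hR1 : 1 ≤ R) (hc : 0 < c) (hQ : 0 < Q) (i : Fin N) :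
    ∃ K, LipschitzWith K (fun X => Real.cos (vt m R c Q i X)) := by
  refine L2_lip_of (C := Real.pi / 2 * (8 / 5 * N / (Q * c))) (by positivity) fun X X' => ?_
  have h1 := L2_vt_lip hN hR1 hc hQ i X X'
  have h2 : |Real.cos (vt m R c Q i X) - Real.cos (vt m R c Q i X')|
      ≤ |vt m R c Q i X - vt m R c Q i X'| := by
    rw [Real.cos_sub_cos, abs_mul, abs_mul, abs_neg, abs_of_pos (by norm_num : (0 : ℝ) < 2)]
    have h3 : |Real.sin ((vt m R c Q i X - vt m R c Q i X') / 2)|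
        ≤ |(vt m R c Q i X - vt m R c Q i X') / 2| := Real.abs_sin_le_abs
    have h4 := Real.abs_sin_le_one ((vt m R c Q i X + vt m R c Q i X') / 2)
    rw [abs_div, abs_of_pos (by norm_num : (0 : ℝ) < 2)] at h3
    have h5 := abs_nonneg (Real.sin ((vt m R c Q i X - vt m R c Q i X') / 2))
    have h6 := abs_nonneg (Real.sin ((vt m R c Q i X + vt m R c Q i X') / 2))
    nlinarith
  exact h2.trans h1

theorem vt_symm {m : ℕ} (R c Q : ℝ) {i : Fin N} {π : Equiv.Perm (Fin N)} (hπ : π i = i) (X : Conf N) :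
    vt m R c Q i (X ∘ π) = vt m R c Q i X := by
  have h1 : Rt m R (X ∘ π) i = Rt m R X i := by
    unfold Rt
    rw [dc_perm, hπ]
  have h2 : hR m R i (X ∘ π) = hR m R i X := by
    unfold hR hj
    rw [h1]
    refine Finset.sum_bij (fun k _ => π k) ?_ ?_ ?_ ?_
    · intro k hk
      rw [Finset.mem_erase] at hk ⊢
      refine ⟨fun h => hk.1 ?_, mem_univ _⟩
      apply π.injective
      rw [h, hπ]
    · intro a _ b _ hab
      exact π.injective hab
    · intro b hb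
      rw [Finset.mem_erase] at hb
      refine ⟨π.symm b, ?_, by simp⟩
      rw [Finset.mem_erase]
      refine ⟨fun h => hb.1 ?_, mem_univ _⟩
      rw [← π.apply_symm_apply b, h, hπ]
    · intro k _
      rfl
  unfold vt
  rw [h2]

theorem sin_vt_half {m : ℕ} {R c Q : ℝ} (hc : 0 < c) (hQ : 0 < Q) {i : Fin N} {X : Conf N}
    (h : (1 + 3 / 2 * c) * Q ≤ hR m R i X) : 1 / 2 ≤ Real.sin (vt m R c Q i X) ^ 2 := by
  have h1 : 1 / 2 ≤ (hR m R i X / Q - 1 - c) / c := by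
    rw [le_div_iff₀ hc]
    have : 1 + 3 / 2 * c ≤ hR m R i X / Q := by rwa [le_div_iff₀ hQ]
    linarith
  have h2 : 1 / 2 ≤ cla ((hR m R i X / Q - 1 - c) / c) := by
    unfold cla
    exact le_max_of_le_right (le_min (by norm_num) h1)
  have h3 : Real.pi / 4 ≤ vt m R c Q i X := by
    unfold vt
    have := Real.pi_pos
    nlinarith
  obtain ⟨-, h4⟩ := vt_mem m R c Q i X
  have hpi := Real.pi_pos
  have h5 : Real.sin (Real.pi / 4) ≤ Real.sin (vt m R c Q i X) :=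
    Real.sin_le_sin_of_le_of_le_pi_div_two (by linarith) h4 h3
  rw [Real.sin_pi_div_four] at h5
  have h6 : (√2 / 2) ^ 2 = (1 / 2 : ℝ) := by
    rw [div_pow, Real.sq_sqrt (by norm_num : (0 : ℝ) ≤ 2)]
    norm_num
  rw [← h6]
  exact pow_le_pow_left₀ (by positivity) h5 2

theorem vt_zero {m : ℕ} {R c Q : ℝ} (hc : 0 < c) (hQ : 0 < Q) {i : Fin N} {X : Conf N}
    (h : hR m R i X ≤ (1 + c) * Q) : vt m R c Q i X = 0 := by
  have h1 : (hR m R i X / Q - 1 - c) / c ≤ 0 := by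
    apply div_nonpos_of_nonpos_of_nonneg _ hc.le
    have : hR m R i X / Q ≤ 1 + c := by rwa [div_le_iff₀ hQ]
    linarith
  unfold vt cla
  rw [max_eq_left ((min_le_right _ _).trans h1), mul_zero]

/-- `h_i(R̃) ≤ ∑_{k ≠ i} χ(|x_k|/R)` since `R ≤ R̃` -/
theorem hR_le {m : ℕ} {R : ℝ} (hR1 : 1 ≤ R) (i : Fin N) (X : Conf N) :
    hR m R i X ≤ ∑ k ∈ univ.erase i, chi (‖X k‖ / R) := by
  unfold hR hj
  refine Finset.sum_le_sum fun k _ => ?_
  have h0 : 0 < Rt m R X i := lt_of_lt_of_le one_pos (L2_one_le_Rt m hR1 i X)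
  refine chi_monoL (div_nonneg (norm_nonneg _) h0.le) ?_
  exact div_le_div_of_nonneg_left (norm_nonneg _) (by linarith) (le_max_left _ _)

end Ion
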