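import Pool.Agent.Lib.MP_69e010_mp.L2

/-!
# JOB L3: gradient tool and gradient of `R̃`

* `sum_gsq_erase_le`: let `ℓ = fderiv ℝ F X`, `g k c = pd k c F X` and `v = fun k => if k = i then 0 else (g k ·)` (as `E3`-valued function, `v k = ∑_c g k c • EuclideanSpace.single c 1`). `ℓ v = ∑_{k ≠ i} ∑_c (g k c)² =: G` (linearity: `v = ∑_{k≠i} ∑_c g k c • Pi.single k (single c 1)`).
  Along `X' = X + t v`, `t → 0+` (so `X' i = X i`): `|F X' - F X| ≤ L t ‖v‖`, hence `|ℓ v| ≤ L ‖v‖` and `‖v‖ ≤ √G` (sup norm: `‖v k‖² = ∑_c (g k c)² ≤ G`; `pi_norm_le_iff_of_nonneg`). So `G ≤ L √G`, `G ≤ L²`.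
* `sum_gsq_Rt_le`: `R̃ X = max R √(d X)`, `d X = dc m X i > 0` (`X` good: `dd_pos`). For `X'` with `X' i = X i`: `|R̃ X' - R̃ X| ≤ |√(d X') - √(d X)| = |d X' - d X|/(√(d X') + √(d X)) ≤ dist X' X/√(d X)` (`dc_lip'`). So `L = 1/√d`, `L² = 1/d`.
-/

open MeasureTheory Metric Finset Filter Topology

noncomputable section

namespace Ion

variable {N : ℕ}

theorem sum_gsq_erase_le {F : Conf N → ℝ} {X : Conf N} {i : Fin N} {L : ℝ} (hL : 0 ≤ L)
    (hF : DifferentiableAt ℝ F X) (h : ∀ X' : Conf N, X' i = X i → |F X' - F X| ≤ L * dist X' X) :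
    ∑ k ∈ univ.erase i, gsq k F X ≤ L ^ 2 := by
  set G : ℝ := ∑ k ∈ univ.erase i, gsq k F X with hG
  set v : Conf N := ∑ k ∈ univ.erase i, (Pi.single k (I0_grad F X k) : Conf N) with hv
  have hg0 : ∀ k, 0 ≤ gsq k F X := fun k => by
    rw [← I0_norm_grad]
    positivity
  have hG0 : 0 ≤ G := Finset.sum_nonneg fun k _ => hg0 k
  have hlv : fderiv ℝ F X v = G := by
    rw [hv, map_sum]
    exact Finset.sum_congr rfl fun k _ => I0_fderiv_grad F X k
  have hvk : ∀ k, v k = if k = i then 0 else I0_grad F X k := by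
    intro k
    rw [hv, Finset.sum_apply]
    by_cases hk : k = i
    · rw [if_pos hk]
      refine Finset.sum_eq_zero fun l hl => ?_
      rw [Pi.single_eq_of_ne]
      rw [hk]
      exact (Finset.ne_of_mem_erase hl).symm
    · rw [if_neg hk, Finset.sum_eq_single k]
      · rw [Pi.single_eq_same]
      · intro l _ hl
        rw [Pi.single_eq_of_ne]
        exact hl.symm
      · intro hk2
        exact absurd (Finset.mem_erase.mpr ⟨hk, Finset.mem_univ k⟩) hk2
  have hvi : v i = 0 := by rw [hvk, if_pos rfl]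
  have hvn : ‖v‖ ≤ √G := by
    rw [pi_norm_le_iff_of_nonneg (Real.sqrt_nonneg _)]
    intro k
    rw [hvk]
    by_cases hk : k = i
    · rw [if_pos hk, norm_zero]
      exact Real.sqrt_nonneg _
    · rw [if_neg hk]
      apply Real.le_sqrt_of_sq_le
      rw [I0_norm_grad]
      exact Finset.single_le_sum (f := fun k => gsq k F X) (fun l _ => hg0 l)
        (Finset.mem_erase.mpr ⟨hk, Finset.mem_univ k⟩)
  have hbound : |fderiv ℝ F X v| ≤ L * ‖v‖ := by
    have h0 : X + (0 : ℝ) • v = X := by rw [zero_smul, add_zero]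
    have h1 : HasFDerivAt F (fderiv ℝ F X) (X + (0 : ℝ) • v) := by
      rw [h0]
      exact hF.hasFDerivAt
    have h2 : HasDerivAt (fun t : ℝ => X + t • v) v 0 := by
      simpa using ((hasDerivAt_id (0 : ℝ)).smul_const v).const_add X
    have h3 := h1.comp_hasDerivAt (0 : ℝ) h2
    have h4 := h3.le_of_lip' (C := L * ‖v‖) (mul_nonneg hL (norm_nonneg _))
      (Eventually.of_forall fun t => by
        show ‖F (X + t • v) - F (X + (0 : ℝ) • v)‖ ≤ L * ‖v‖ * ‖t - 0‖
        rw [h0, sub_zero, Real.norm_eq_abs]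
        have h5 := h (X + t • v) (by
          rw [Pi.add_apply, Pi.smul_apply, hvi, smul_zero, add_zero])
        refine h5.trans (le_of_eq ?_)
        rw [dist_eq_norm, add_sub_cancel_left, norm_smul]
        ring)
    rwa [Real.norm_eq_abs] at h4
  rw [hlv, abs_of_nonneg hG0] at hbound
  have h6 : G ≤ L * √G := hbound.trans (mul_le_mul_of_nonneg_left hvn hL)
  have h7 : √G * √G = G := Real.mul_self_sqrt hG0
  have h8 := Real.sqrt_nonneg G
  by_cases h9 : √G = 0
  · have h10 : G = 0 := by rw [← h7, h9, mul_zero]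
    rw [h10]
    positivity
  · have h10 : 0 < √G := lt_of_le_of_ne h8 (Ne.symm h9)
    have h11 : √G ≤ L := by
      by_contra h12
      push Not at h12
      nlinarith
    calc G = √G ^ 2 := by rw [sq, h7]
      _ ≤ L ^ 2 := pow_le_pow_left₀ h8 h11 2

theorem sum_gsq_Rt_le {m : ℕ} (hm : 1 ≤ m) (hN : m ≤ N) {R : ℝ} {i : Fin N} {X : Conf N} (hX : Good m X)
    (hd : DifferentiableAt ℝ (fun Y => Rt m R Y i) X) :
    ∑ k ∈ univ.erase i, gsq k (fun Y => Rt m R Y i) X ≤ 1 / dc m X i := by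
  have hd0 : 0 < dc m X i := dd_pos hm hN hX (hX.1 i)
  have hs0 : 0 < √(dc m X i) := Real.sqrt_pos.mpr hd0
  have hL : (1 / √(dc m X i)) ^ 2 = 1 / dc m X i := by
    rw [div_pow, one_pow, Real.sq_sqrt hd0.le]
  rw [← hL]
  refine sum_gsq_erase_le (by positivity) hd (fun X' hX' => ?_)
  have h1 : |Rt m R X' i - Rt m R X i| ≤ |√(dc m X' i) - √(dc m X i)| := by
    unfold Rt
    rw [max_comm R, max_comm R]
    exact abs_max_sub_max_le_abs _ _ _
  have h2 : |√(dc m X' i) - √(dc m X i)| * (√(dc m X' i) + √(dc m X i))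
      = |dc m X' i - dc m X i| := by
    have h3 : 0 ≤ √(dc m X' i) + √(dc m X i) := by positivity
    rw [← abs_of_nonneg h3, ← abs_mul]
    have h4 := Real.mul_self_sqrt (dc_nonnegL m X' i)
    have h5 := Real.mul_self_sqrt (dc_nonnegL m X i)
    congr 1
    nlinarith
  have h6 := dc_lip' hN hX'
  have h7 : |√(dc m X' i) - √(dc m X i)| * √(dc m X i) ≤ dist X' X := by
    have h8 := Real.sqrt_nonneg (dc m X' i)
    have h9 := abs_nonneg (√(dc m X' i) - √(dc m X i))
    nlinarith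
  refine h1.trans ?_
  rw [one_div, inv_mul_eq_div, le_div_iff₀ hs0]
  exact h7

end Ion
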