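import Pool.Agent.Lib.MP_69e010_mp.L3

/-!
# JOB L4: gradient of `h_i` and of the angle

Let `X` be good, `R ≥ 1`, `R̃ Y = Rt m R Y i` differentiable at `X`, `r = R̃ X ≥ max(1,R)`, `r² ≥ d_i = dc m X i > 0` and `τ_k = ‖X k‖/r` (all `X k ≠ 0`).
* For `k ≠ i` the map `Y ↦ ‖Y k‖/R̃ Y` is differentiable at `X` (`‖·‖` is differentiable at `X k ≠ 0`), with derivative in the direction `Pi.single l e_c`: `[l = k] (X k)_c/(‖X k‖ r) - (‖X k‖/r²) pd l c R̃ X`.
  Chain rule with `hasDerivAt_chi`: for `k ≠ i`: `pd k c (hR m R i) X = dchi τ_k (X k)_c/(‖X k‖ r) - (S/r) pd k c R̃ X`, `S = ∑_{l ≠ i} τ_l dchi τ_l`, `0 ≤ S ≤ 4 h` (`mul_dchi_le`), `h = hR m R i X`.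
  `(a-b)² ≤ 2a²+2b²`, sum over `c` (`∑_c (X k)_c² = ‖X k‖²`): `gsq k h ≤ 2 (dchi τ_k)²/r² + 2 (S²/r²) gsq k R̃`; sum over `k ≠ i`: `≤ (32/5) h/r² + 32 h²/r² · (1/d_i)` (`dchi_sq_le`, `sum_gsq_Rt_le`) `≤ (32/5 h + 32 h²/R²)/d_i`.
* `sum_gsq_vt_le`: let also `vt`, `hR` be differentiable at `X`. If the argument `A = (h/Q - 1 - c)/c` of `cla` is `≤ 0` then `vt X = 0` is a global minimum of `vt` (`vt_mem`), so `fderiv = 0` (`IsLocalMin.fderiv_eq_zero`); if `A ≥ 1` then `vt X = π/2` is a maximum. If `0 < A < 1` then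
  near `X`: `vt = (π/2)(hR/Q - 1 - c)/c`, so `gsq k vt = (π/2)²/(cQ)² gsq k hR`, and `h < (1+2c)Q ≤ 2Q` (`c ≤ 1/2`): `∑ ≤ (π²/4)(64/5 Q + 128 Q²/R²)/((cQ)² d_i) ≤ (32/Q + 320/R²)/(c² d_i)` (`π² < 9.87`).
* `ae_sum_gsq_vt_le`: Rademacher (`lip_ae_diff` in QTools) for `R̃` (`Rt_lip`), `hR` (`hR_lip`), `vt` (`vt_lip`).
-/

open MeasureTheory Metric Finset Filter Topology

noncomputable section

namespace Ion

variable {N : ℕ}

theorem L4_norm (l : Fin N) {X : Conf N} (h : X l ≠ 0) :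
    ∃ n : Conf N →L[ℝ] ℝ, HasFDerivAt (fun Y : Conf N => ‖Y l‖) n X ∧
      ∀ (k : Fin N) (c : Fin 3), n (Pi.single k (EuclideanSpace.single c (1 : ℝ)))
        = if l = k then (X k) c / ‖X k‖ else 0 := by
  have h1 : HasFDerivAt (fun Y : Conf N => Y l) (ContinuousLinearMap.proj (R := ℝ) (φ := fun _ : Fin N => E3) l) X :=
    (ContinuousLinearMap.proj (R := ℝ) (φ := fun _ : Fin N => E3) l).hasFDerivAt
  have h2 := h1.norm_sq
  have h3 : ‖X l‖ ^ 2 ≠ 0 := by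
    have := norm_pos_iff.mpr h
    positivity
  have h4 := h2.sqrt h3
  have h5 : (fun Y : Conf N => √(‖Y l‖ ^ 2)) = fun Y : Conf N => ‖Y l‖ := by
    funext Y
    exact Real.sqrt_sq (norm_nonneg _)
  rw [h5] at h4
  refine ⟨_, h4, ?_⟩
  intro k c
  rw [Real.sqrt_sq (norm_nonneg _)]
  by_cases hk : l = k
  · subst hk
    rw [if_pos rfl]
    simp only [_root_.smul_apply, ContinuousLinearMap.comp_apply, ContinuousLinearMap.proj_apply,
      Pi.single_eq_same, innerSL_apply_apply, smul_eq_mul]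
    have h6 : inner ℝ (X l) (EuclideanSpace.single c (1 : ℝ)) = (X l) c := by
      rw [EuclideanSpace.inner_single_right]
      simp
    rw [h6]
    have h7 : ‖X l‖ ≠ 0 := norm_ne_zero_iff.mpr h
    field_simp
    norm_num
  · rw [if_neg hk]
    simp only [_root_.smul_apply, ContinuousLinearMap.comp_apply, ContinuousLinearMap.proj_apply,
      Pi.single_eq_of_ne hk, innerSL_apply_apply, smul_eq_mul, inner_zero_right, smul_zero, mul_zero]

theorem L4_pd {m : ℕ} {R : ℝ} (hR1 : 1 ≤ R) {i : Fin N} {X : Conf N}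
    (hX : Good m X) (hd : DifferentiableAt ℝ (fun Y => Rt m R Y i) X) :
    DifferentiableAt ℝ (hR m R i) X ∧
    ∀ k ∈ univ.erase i, ∀ c : Fin 3, pd k c (hR m R i) X =
      dchi (‖X k‖ / Rt m R X i) * ((X k) c / ‖X k‖) / Rt m R X i
        - (∑ l ∈ univ.erase i, ‖X l‖ / Rt m R X i * dchi (‖X l‖ / Rt m R X i)) / Rt m R X i
          * pd k c (fun Y => Rt m R Y i) X := by
  have hr : 1 ≤ Rt m R X i := le_trans hR1 (le_max_left _ _)
  have hr0 : Rt m R X i ≠ 0 := by linarith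
  choose n hn hn2 using fun l : Fin N => L4_norm l (hX.1 l)
  have h1 : ∀ l : Fin N, HasFDerivAt (fun Y : Conf N => chi (‖Y l‖ / Rt m R Y i))
      (dchi (‖X l‖ / Rt m R X i) • ((Rt m R X i)⁻¹ • n l
        - (‖X l‖ / Rt m R X i ^ 2) • fderiv ℝ (fun Y => Rt m R Y i) X)) X := by
    intro l
    have h2 : HasFDerivAt (fun Y : Conf N => ‖Y l‖ * (Rt m R Y i)⁻¹)
        ((Rt m R X i)⁻¹ • n l - (‖X l‖ / Rt m R X i ^ 2) • fderiv ℝ (fun Y => Rt m R Y i) X) X := by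
      have h3 := (hn l).mul ((hasDerivAt_inv hr0).comp_hasFDerivAt X hd.hasFDerivAt)
      refine h3.congr_fderiv ?_
      ext v
      simp only [_root_.add_apply, _root_.sub_apply, _root_.smul_apply,
        smul_eq_mul, Function.comp_apply]
      field_simp
      ring
    have h4 : HasDerivAt chi (dchi (‖X l‖ / Rt m R X i)) (‖X l‖ * (Rt m R X i)⁻¹) := by
      have := hasDerivAt_chi (‖X l‖ / Rt m R X i)
      rwa [div_eq_mul_inv] at this ⊢
    exact h4.comp_hasFDerivAt X h2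
  have h5 : HasFDerivAt (hR m R i) (∑ l ∈ univ.erase i, (dchi (‖X l‖ / Rt m R X i) • ((Rt m R X i)⁻¹ • n l
        - (‖X l‖ / Rt m R X i ^ 2) • fderiv ℝ (fun Y => Rt m R Y i) X))) X := by
    have := HasFDerivAt.fun_sum (u := univ.erase i) (fun l _ => h1 l)
    exact this
  refine ⟨h5.differentiableAt, ?_⟩
  intro k hk c
  unfold pd
  rw [h5.fderiv]
  simp only [_root_.sum_apply, _root_.smul_apply, _root_.sub_apply,
    smul_eq_mul, hn2]
  have h6 : ∀ l : Fin N, dchi (‖X l‖ / Rt m R X i) * ((Rt m R X i)⁻¹ * (if l = k then (X k) c / ‖X k‖ else 0)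
      - ‖X l‖ / Rt m R X i ^ 2 * fderiv ℝ (fun Y => Rt m R Y i) X (Pi.single k (EuclideanSpace.single c (1 : ℝ))))
      = (if l = k then dchi (‖X k‖ / Rt m R X i) * ((X k) c / ‖X k‖) / Rt m R X i else 0)
        - ‖X l‖ / Rt m R X i * dchi (‖X l‖ / Rt m R X i) / Rt m R X i
          * fderiv ℝ (fun Y => Rt m R Y i) X (Pi.single k (EuclideanSpace.single c (1 : ℝ))) := by
    intro l
    by_cases hl : l = k
    · subst hl
      rw [if_pos rfl, if_pos rfl]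
      field_simp
    · rw [if_neg hl, if_neg hl]
      field_simp
      ring
  rw [Finset.sum_congr rfl (fun l _ => h6 l), Finset.sum_sub_distrib, Finset.sum_ite_eq' (univ.erase i) k, if_pos hk,
    Finset.sum_div, Finset.sum_mul]

theorem L4_sum_sq (X : Conf N) (k : Fin N) : ∑ c : Fin 3, (X k) c ^ 2 = ‖X k‖ ^ 2 := by
  rw [EuclideanSpace.norm_eq, Real.sq_sqrt (Finset.sum_nonneg fun c _ => sq_nonneg _)]
  simp [Real.norm_eq_abs, sq_abs]

theorem L4_gsq {m : ℕ} {R : ℝ} (hR1 : 1 ≤ R) {i : Fin N} {X : Conf N}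
    (hX : Good m X) (hd : DifferentiableAt ℝ (fun Y => Rt m R Y i) X) {k : Fin N} (hk : k ∈ univ.erase i) :
    gsq k (hR m R i) X ≤ 2 * dchi (‖X k‖ / Rt m R X i) ^ 2 / Rt m R X i ^ 2
      + 2 * (∑ l ∈ univ.erase i, ‖X l‖ / Rt m R X i * dchi (‖X l‖ / Rt m R X i)) ^ 2 / Rt m R X i ^ 2
        * gsq k (fun Y => Rt m R Y i) X := by
  obtain ⟨-, h2⟩ := L4_pd hR1 hX hd
  have h3 := h2 k hk
  set S := ∑ l ∈ univ.erase i, ‖X l‖ / Rt m R X i * dchi (‖X l‖ / Rt m R X i) with hS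
  have hr : 1 ≤ Rt m R X i := le_trans hR1 (le_max_left _ _)
  have hr0 : Rt m R X i ≠ 0 := by linarith
  have hXk : ‖X k‖ ≠ 0 := norm_ne_zero_iff.mpr (hX.1 k)
  unfold gsq
  have h4 : ∀ c : Fin 3, (pd k c (hR m R i) X) ^ 2 ≤
      2 * dchi (‖X k‖ / Rt m R X i) ^ 2 / Rt m R X i ^ 2 / ‖X k‖ ^ 2 * (X k) c ^ 2
        + 2 * S ^ 2 / Rt m R X i ^ 2 * (pd k c (fun Y => Rt m R Y i) X) ^ 2 := by
    intro c
    rw [h3 c]
    have h5 : ∀ a b : ℝ, (a - b) ^ 2 ≤ 2 * a ^ 2 + 2 * b ^ 2 := by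
      intro a b
      nlinarith [sq_nonneg (a + b)]
    refine le_trans (h5 _ _) (le_of_eq ?_)
    field_simp
  refine le_trans (Finset.sum_le_sum fun c _ => h4 c) (le_of_eq ?_)
  rw [Finset.sum_add_distrib, ← Finset.mul_sum, ← Finset.mul_sum, L4_sum_sq]
  field_simp

theorem L4_dc_pos {m : ℕ} {X : Conf N} (hX : Good m X) (i : Fin N) : 0 < dc m X i := by
  unfold dc dd
  refine lt_min (hX.2 i) ?_
  have := norm_pos_iff.mpr (hX.1 i)
  positivity

theorem sum_gsq_hR_le {m : ℕ} (hm : 1 ≤ m) (hN : m ≤ N) {R : ℝ} (hR1 : 1 ≤ R) {i : Fin N} {X : Conf N}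
    (hX : Good m X) (hd : DifferentiableAt ℝ (fun Y => Rt m R Y i) X) :
    DifferentiableAt ℝ (hR m R i) X ∧
    ∑ k ∈ univ.erase i, gsq k (hR m R i) X
      ≤ (32 / 5 * hR m R i X + 32 * hR m R i X ^ 2 / R ^ 2) / dc m X i := by
  have hdc := L4_dc_pos hX i
  have hr : 1 ≤ Rt m R X i := le_trans hR1 (le_max_left _ _)
  have hrR : R ≤ Rt m R X i := le_max_left _ _
  have hrd : dc m X i ≤ Rt m R X i ^ 2 := by
    have h1 : √(dc m X i) ≤ Rt m R X i := le_max_right _ _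
    have h2 := Real.sq_sqrt hdc.le
    have h3 := Real.sqrt_nonneg (dc m X i)
    nlinarith
  have hr0 : 0 < Rt m R X i := by linarith
  refine ⟨(L4_pd hR1 hX hd).1, ?_⟩
  set r := Rt m R X i with hrdef
  set S := ∑ l ∈ univ.erase i, ‖X l‖ / r * dchi (‖X l‖ / r) with hS
  have hh : hR m R i X = ∑ l ∈ univ.erase i, chi (‖X l‖ / r) := rfl
  set h := hR m R i X with hhdef
  have hτ : ∀ l : Fin N, 0 ≤ ‖X l‖ / r := fun l => div_nonneg (norm_nonneg _) hr0.le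
  have hS0 : 0 ≤ S := Finset.sum_nonneg fun l _ => mul_nonneg (hτ l) (dchi_nonneg (hτ l))
  have hS4 : S ≤ 4 * h := by
    rw [hh, Finset.mul_sum]
    exact Finset.sum_le_sum fun l _ => mul_dchi_le (hτ l)
  have hh0 : 0 ≤ h := by
    rw [hh]
    exact Finset.sum_nonneg fun l _ => chi_nonnegL _
  have h1 : ∑ k ∈ univ.erase i, gsq k (hR m R i) X
      ≤ 2 * (16 / 5 * h) / r ^ 2 + 2 * S ^ 2 / r ^ 2 * (1 / dc m X i) := by
    have h2 : ∑ k ∈ univ.erase i, gsq k (hR m R i) X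
        ≤ ∑ k ∈ univ.erase i, (2 * dchi (‖X k‖ / r) ^ 2 / r ^ 2
          + 2 * S ^ 2 / r ^ 2 * gsq k (fun Y => Rt m R Y i) X) :=
      Finset.sum_le_sum fun k hk => L4_gsq hR1 hX hd hk
    refine le_trans h2 ?_
    rw [Finset.sum_add_distrib, ← Finset.mul_sum, ← Finset.sum_div, ← Finset.mul_sum]
    have h3 : ∑ k ∈ univ.erase i, dchi (‖X k‖ / r) ^ 2 ≤ 16 / 5 * h := by
      rw [hh, Finset.mul_sum]
      exact Finset.sum_le_sum fun l _ => dchi_sq_le (hτ l)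
    have h4 := sum_gsq_Rt_le hm hN (R := R) hX hd
    have h5 : 2 * ∑ k ∈ univ.erase i, dchi (‖X k‖ / r) ^ 2 / r ^ 2 ≤ 2 * (16 / 5 * h) / r ^ 2 := by
      rw [← Finset.sum_div, mul_div_assoc]
      gcongr
    have h6 : 2 * S ^ 2 / r ^ 2 * ∑ k ∈ univ.erase i, gsq k (fun Y => Rt m R Y i) X
        ≤ 2 * S ^ 2 / r ^ 2 * (1 / dc m X i) := mul_le_mul_of_nonneg_left h4 (by positivity)
    have h7 : (2 * ∑ k ∈ univ.erase i, dchi (‖X k‖ / r) ^ 2) / r ^ 2 ≤ 2 * (16 / 5 * h) / r ^ 2 := by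
      gcongr
    first
      | exact add_le_add h5 h6
      | exact add_le_add h7 h6
  refine le_trans h1 ?_
  have h8 : 2 * (16 / 5 * h) / r ^ 2 ≤ 32 / 5 * h / dc m X i := by
    have : 2 * (16 / 5 * h) = 32 / 5 * h := by ring
    rw [this]
    gcongr
  have h9 : 2 * S ^ 2 / r ^ 2 * (1 / dc m X i) ≤ 32 * h ^ 2 / R ^ 2 / dc m X i := by
    rw [← div_eq_mul_one_div]
    have h10 : 2 * S ^ 2 ≤ 32 * h ^ 2 := by nlinarith
    have hR0 : 0 < R := by linarith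
    gcongr
  rw [add_div]
  exact add_le_add h8 h9

theorem sum_gsq_vt_le {m : ℕ} (hm : 1 ≤ m) (hN : m ≤ N) {R c Q : ℝ} (hR1 : 1 ≤ R) (hc : 0 < c) (hc2 : c ≤ 1 / 2)
    (hQ : 0 < Q) {i : Fin N} {X : Conf N}
    (hX : Good m X) (hd : DifferentiableAt ℝ (fun Y => Rt m R Y i) X) (hv : DifferentiableAt ℝ (vt m R c Q i) X) :
    ∑ k ∈ univ.erase i, gsq k (vt m R c Q i) X ≤ (32 / Q + 320 / R ^ 2) / (c ^ 2 * dc m X i) := by
  have hdc := L4_dc_pos hX i
  obtain ⟨hdh, hb⟩ := sum_gsq_hR_le hm hN hR1 hX hd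
  have hR0 : 0 < R := by linarith
  have hrhs : 0 ≤ (32 / Q + 320 / R ^ 2) / (c ^ 2 * dc m X i) := by positivity
  have hzero : fderiv ℝ (vt m R c Q i) X = 0 →
      ∑ k ∈ univ.erase i, gsq k (vt m R c Q i) X ≤ (32 / Q + 320 / R ^ 2) / (c ^ 2 * dc m X i) := by
    intro h0
    have : ∑ k ∈ univ.erase i, gsq k (vt m R c Q i) X = 0 := by
      refine Finset.sum_eq_zero fun k _ => ?_
      unfold gsq pd
      rw [h0]
      simp
    rw [this]
    exact hrhs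
  set A := (hR m R i X / Q - 1 - c) / c with hA
  rcases le_or_gt A 0 with hA0 | hA0
  · apply hzero
    have h1 : vt m R c Q i X = 0 := by
      unfold vt cla
      rw [← hA, max_eq_left (le_trans (min_le_right _ _) hA0), mul_zero]
    have h2 : IsLocalMin (vt m R c Q i) X := by
      refine Filter.Eventually.of_forall fun Y => ?_
      rw [h1]
      exact (vt_mem m R c Q i Y).1
    exact h2.fderiv_eq_zero
  rcases le_or_gt 1 A with hA1 | hA1
  · apply hzero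
    have h1 : vt m R c Q i X = Real.pi / 2 := by
      unfold vt cla
      rw [← hA, min_eq_left hA1, max_eq_right zero_le_one, mul_one]
    have h2 : IsLocalMax (vt m R c Q i) X := by
      refine Filter.Eventually.of_forall fun Y => ?_
      rw [h1]
      exact (vt_mem m R c Q i Y).2
    exact h2.fderiv_eq_zero
  have hcont : ContinuousAt (fun Y => (hR m R i Y / Q - 1 - c) / c) X :=
    (((hdh.continuousAt.div_const Q).sub continuousAt_const).sub continuousAt_const).div_const c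
  have hev : ∀ᶠ Y in 𝓝 X, 0 < (hR m R i Y / Q - 1 - c) / c ∧ (hR m R i Y / Q - 1 - c) / c < 1 :=
    (hcont.eventually (lt_mem_nhds hA0)).and (hcont.eventually (gt_mem_nhds hA1))
  have heq : vt m R c Q i =ᶠ[𝓝 X] fun Y => Real.pi / 2 * ((hR m R i Y / Q - 1 - c) / c) := by
    filter_upwards [hev] with Y hY
    unfold vt cla
    rw [min_eq_right hY.2.le, max_eq_right hY.1.le]
  have hf : fderiv ℝ (vt m R c Q i) X = (Real.pi / (2 * (c * Q))) • fderiv ℝ (hR m R i) X := by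
    rw [heq.fderiv_eq]
    have h1 : HasFDerivAt (fun Y => Real.pi / 2 * ((hR m R i Y / Q - 1 - c) / c))
        ((Real.pi / (2 * (c * Q))) • fderiv ℝ (hR m R i) X) X := by
      have h2 := (((hdh.hasFDerivAt.const_mul (Real.pi / (2 * (c * Q)))).sub_const
        (Real.pi / 2 * ((1 + c) / c))))
      refine h2.congr_of_eventuallyEq (Filter.Eventually.of_forall fun Y => ?_)
      simp only
      field_simp
      ring
    exact h1.fderiv
  have hg : ∀ k : Fin N, gsq k (vt m R c Q i) X = (Real.pi / (2 * (c * Q))) ^ 2 * gsq k (hR m R i) X := by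
    intro k
    unfold gsq pd
    rw [hf, Finset.mul_sum]
    refine Finset.sum_congr rfl fun c _ => ?_
    rw [_root_.smul_apply, smul_eq_mul, mul_pow]
  rw [Finset.sum_congr rfl (fun k _ => hg k), ← Finset.mul_sum]
  have hh0 := hR_nonneg m R i X
  have hh2 : hR m R i X ≤ 2 * Q := by
    have h1 : hR m R i X / Q - 1 - c < 1 * c := (div_lt_iff₀ hc).1 hA1
    have h2 : hR m R i X / Q < 2 := by linarith
    exact ((div_lt_iff₀ hQ).1 h2).le
  set h := hR m R i X with hhdef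
  have h3 : (32 / 5 * h + 32 * h ^ 2 / R ^ 2) / dc m X i
      ≤ (64 / 5 * Q + 128 * Q ^ 2 / R ^ 2) / dc m X i := by
    have h4 : 32 / 5 * h ≤ 64 / 5 * Q := by linarith
    have h5 : 32 * h ^ 2 ≤ 128 * Q ^ 2 := by nlinarith
    gcongr
  have h6 : (Real.pi / (2 * (c * Q))) ^ 2 * ∑ k ∈ univ.erase i, gsq k (hR m R i) X
      ≤ (Real.pi / (2 * (c * Q))) ^ 2 * ((64 / 5 * Q + 128 * Q ^ 2 / R ^ 2) / dc m X i) :=
    mul_le_mul_of_nonneg_left (le_trans hb h3) (sq_nonneg _)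
  refine le_trans h6 ?_
  have h7 : (Real.pi / (2 * (c * Q))) ^ 2 * ((64 / 5 * Q + 128 * Q ^ 2 / R ^ 2) / dc m X i)
      = (16 / 5 * Real.pi ^ 2 / Q + 32 * Real.pi ^ 2 / R ^ 2) / (c ^ 2 * dc m X i) := by
    field_simp
    ring
  rw [h7]
  have hpi : Real.pi ^ 2 ≤ 10 := by
    have h8 := Real.pi_lt_d2
    have h9 := Real.pi_pos
    nlinarith
  have h10 : 16 / 5 * Real.pi ^ 2 ≤ 32 := by linarith
  have h11 : 32 * Real.pi ^ 2 ≤ 320 := by linarith
  gcongr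

theorem ae_sum_gsq_vt_le {m : ℕ} (hm : 1 ≤ m) (hN : m ≤ N) {R c Q : ℝ} (hR1 : 1 ≤ R) (hc : 0 < c) (hc2 : c ≤ 1 / 2)
    (hQ : 0 < Q) (i : Fin N) :
    ∀ᵐ X : Conf N, Good m X →
      ∑ k ∈ univ.erase i, gsq k (vt m R c Q i) X ≤ (32 / Q + 320 / R ^ 2) / (c ^ 2 * dc m X i) := by
  obtain ⟨K, hK⟩ := vt_lip hN (R := R) (c := c) (Q := Q) hR1 hc hQ i
  have h1 : LipschitzWith 1 (fun Y : Conf N => Rt m R Y i) := by
    refine LipschitzWith.of_dist_le_mul fun X Y => ?_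
    rw [Real.dist_eq, NNReal.coe_one, one_mul]
    exact Rt_lip hN hR1 i X Y
  filter_upwards [lip_ae_diff hK, lip_ae_diff h1] with X h2 h3 hX
  exact sum_gsq_vt_le hm hN hR1 hc hc2 hQ hX h3 h2

end Ion
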