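import Pool.Agent.Lib.MP_69e010_mp.LDefs

/-!
# JOB L5: Fubini for slices

`ins i x Y = Fin.insertNth i x Y`. `volume_preserving_piFinSuccAbove (fun _ => E3) i` (its inverse is `p ↦ ins i p.1 p.2`), as in QTools (`integral_insert`, `integrable_insert`), but with the order `∫ x, ∫ Y`
(`integral_prod`, `Integrable.integral_prod_left`, `Integrable.prod_right_ae`).
* `sum_spin`: `Fin.insertNthEquiv` / `Fin.consEquiv`-like bijection `Fin 2 × Spin n ≃ Spin (n+1)`, `Fintype.sum_equiv` + `Fintype.sum_prod_type`.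
* `ae_ins`: `Measure.ae_ae_of_ae_prod` after transporting the null set.
-/

open MeasureTheory Metric Finset Filter Topology

noncomputable section

namespace Ion

variable {n : ℕ}

theorem ins_same (i : Fin (n + 1)) (x : E3) (Y : Conf n) : ins i x Y i = x := by
  exact Fin.insertNth_apply_same (α := fun _ => E3) i x Y

theorem ins_succAbove (i : Fin (n + 1)) (x : E3) (Y : Conf n) (k : Fin n) : ins i x Y (i.succAbove k) = Y k := by
  exact Fin.insertNth_apply_succAbove (α := fun _ => E3) i x Y k

theorem insS_same (i : Fin (n + 1)) (s : Fin 2) (τ : Spin n) : insS i s τ i = s := by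
  exact Fin.insertNth_apply_same (α := fun _ => Fin 2) i s τ

theorem insS_succAbove (i : Fin (n + 1)) (s : Fin 2) (τ : Spin n) (k : Fin n) :
    insS i s τ (i.succAbove k) = τ k := by
  exact Fin.insertNth_apply_succAbove (α := fun _ => Fin 2) i s τ k

theorem sum_spin (i : Fin (n + 1)) (G : Spin (n + 1) → ℝ) : ∑ σ, G σ = ∑ s, ∑ τ, G (insS i s τ) := by
  rw [← Fintype.sum_prod_type' (fun (s : Fin 2) (τ : Spin n) => G (insS i s τ))]
  exact (Fintype.sum_equiv (Fin.insertNthEquiv (fun _ => Fin 2) i) (fun p : Fin 2 × Spin n => G (insS i p.1 p.2)) G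
    (fun p => rfl)).symm

theorem L5_mp (i : Fin (n + 1)) :
    MeasurePreserving (MeasurableEquiv.piFinSuccAbove (fun _ : Fin (n + 1) => E3) i) volume
      ((volume : Measure E3).prod (volume : Measure (Conf n))) :=
  volume_preserving_piFinSuccAbove (fun _ => E3) i

theorem L5_int (i : Fin (n + 1)) {G : Conf (n + 1) → ℝ} (hG : Integrable G) :
    Integrable (fun p : E3 × Conf n => G (ins i p.1 p.2))
      ((volume : Measure E3).prod (volume : Measure (Conf n))) :=
  ((L5_mp i).symm.integrable_comp_emb (MeasurableEquiv.measurableEmbedding _) (g := G)).2 hG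

theorem fubini_ins (i : Fin (n + 1)) {G : Conf (n + 1) → ℝ} (hG : Integrable G) :
    Integrable (fun x : E3 => ∫ Y : Conf n, G (ins i x Y)) ∧
    (∀ᵐ x : E3, Integrable (fun Y : Conf n => G (ins i x Y))) ∧
    ∫ X, G X = ∫ x : E3, ∫ Y : Conf n, G (ins i x Y) := by
  have h1 := L5_int i hG
  refine ⟨h1.integral_prod_left, h1.prod_right_ae, ?_⟩
  have h2 := (L5_mp i).symm.integral_comp' (g := G)
  rw [← h2]
  exact integral_prod _ h1

theorem ae_ins (i : Fin (n + 1)) {P : Conf (n + 1) → Prop} (h : ∀ᵐ X, P X) :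
    ∀ᵐ x : E3, ∀ᵐ Y : Conf n, P (ins i x Y) := by
  have h1 : ∀ᵐ p : E3 × Conf n ∂((volume : Measure E3).prod (volume : Measure (Conf n))),
      P (ins i p.1 p.2) := (L5_mp i).symm.quasiMeasurePreserving.ae h
  exact Measure.ae_ae_of_ae_prod h1

end Ion
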