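import Pool.Agent.Lib.MP_69e010_mp.L5

/-!
# JOB L6: slices are admissible

* Lipschitz: `dist (ins i x Y) (ins i x Y') ≤ dist Y Y'` (coordinate `i` agrees, coordinate `i.succAbove k` is `Y k`; every index is `i` or `i.succAbove k`: `Fin.eq_self_or_eq_succAbove`).
* compact support: if `F (ins i x Y) ≠ 0` then `ins i x Y ∈ tsupport F`, a bounded set (`IsCompact.isBounded`), so `Y` is bounded: `HasCompactSupport.intro` with a closed ball.
* antisymmetry: for `π` on `Fin n` let `π' : Perm (Fin (n+1))` be the extension fixing `i`: `π' i = i`, `π' (i.succAbove k) = i.succAbove (π k)`; e.g. `π' = ((finSuccEquiv' i).trans (Equiv.optionCongr π)).trans (finSuccEquiv' i).symm`, `sign π' = sign π`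
  (`Equiv.Perm.sign_symm_trans_trans`/`sign_permCongr`, `Equiv.optionCongr_sign`). Then `ins i x (Y ∘ π) = (ins i x Y) ∘ π'`, `insS i s (τ ∘ π) = (insS i s τ) ∘ π'`.
-/

open MeasureTheory Metric Finset Filter Topology

noncomputable section

namespace Ion

variable {n : ℕ}

theorem L6_dist (i : Fin (n + 1)) (x : E3) (Y Y' : Conf n) : dist Y Y' ≤ dist (ins i x Y) (ins i x Y') := by
  rw [dist_pi_le_iff dist_nonneg]
  intro k
  have h := dist_le_pi_dist (ins i x Y) (ins i x Y') (i.succAbove k)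
  rwa [ins_succAbove, ins_succAbove] at h

theorem lip_ins (i : Fin (n + 1)) (x : E3) (Y Y' : Conf n) : dist (ins i x Y) (ins i x Y') ≤ dist Y Y' := by
  rw [dist_pi_le_iff dist_nonneg]
  intro b
  rcases Fin.eq_self_or_eq_succAbove i b with rfl | ⟨k, rfl⟩
  · rw [ins_same, ins_same, dist_self]
    exact dist_nonneg
  · rw [ins_succAbove, ins_succAbove]
    exact dist_le_pi_dist Y Y' k

theorem exists_perm_ext (i : Fin (n + 1)) (π : Equiv.Perm (Fin n)) :
    ∃ π' : Equiv.Perm (Fin (n + 1)), π' i = i ∧ (∀ k, π' (i.succAbove k) = i.succAbove (π k)) ∧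
      Equiv.Perm.sign π' = Equiv.Perm.sign π := by
  refine ⟨(((finSuccEquiv' i).trans (Equiv.optionCongr π)).trans (finSuccEquiv' i).symm), ?_, ?_, ?_⟩
  · simp [finSuccEquiv'_at]
  · intro k
    simp [finSuccEquiv'_succAbove]
  · rw [Equiv.Perm.sign_trans_trans_symm, Equiv.optionCongr_sign]

theorem lipC_slice {F : Conf (n + 1) → ℝ} (hF : LipC F) (i : Fin (n + 1)) (x : E3) :
    LipC (fun Y : Conf n => F (ins i x Y)) := by
  obtain ⟨⟨K, hK⟩, hc⟩ := hF
  refine ⟨⟨K, ?_⟩, ?_⟩
  · refine LipschitzWith.of_dist_le_mul fun Y Y' => ?_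
    exact (hK.dist_le_mul _ _).trans (mul_le_mul_of_nonneg_left (lip_ins i x Y Y') K.coe_nonneg)
  · by_cases hne : ∃ Y₀, F (ins i x Y₀) ≠ 0
    · obtain ⟨Y₀, hY₀⟩ := hne
      obtain ⟨C, hC⟩ := (Metric.isBounded_iff).1 hc.isCompact.isBounded
      refine HasCompactSupport.intro (isCompact_closedBall Y₀ C) fun Y hY => ?_
      by_contra hYne
      apply hY
      rw [mem_closedBall]
      exact (L6_dist i x Y Y₀).trans (hC (subset_tsupport F hYne) (subset_tsupport F hY₀))
    · push Not at hne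
      refine HasCompactSupport.intro isCompact_empty fun Y _ => hne Y

theorem sli_adms {Φ : RW (n + 1)} (hL : ∀ σ, LipC (Φ σ)) {i : Fin (n + 1)} (hA : AntiI i Φ) (s : Fin 2) (x : E3) :
    Adms (sli i s x Φ) := by
  refine ⟨fun τ => lipC_slice (hL (insS i s τ)) i x, ?_⟩
  intro π τ Y
  obtain ⟨π', h1, h2, h3⟩ := exists_perm_ext i π
  have e1 : ins i x (Y ∘ π) = (ins i x Y) ∘ π' := by
    funext b
    rcases Fin.eq_self_or_eq_succAbove i b with rfl | ⟨k, rfl⟩
    · rw [Function.comp_apply, h1, ins_same, ins_same]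
    · rw [Function.comp_apply, h2, ins_succAbove, ins_succAbove]
      rfl
  have e2 : insS i s (τ ∘ π) = (insS i s τ) ∘ π' := by
    funext b
    rcases Fin.eq_self_or_eq_succAbove i b with rfl | ⟨k, rfl⟩
    · rw [Function.comp_apply, h1, insS_same, insS_same]
    · rw [Function.comp_apply, h2, insS_succAbove, insS_succAbove]
      rfl
  show Φ (insS i s (τ ∘ π)) (ins i x (Y ∘ π)) = ((Equiv.Perm.sign π : ℤ) : ℝ) * Φ (insS i s τ) (ins i x Y)
  rw [e1, e2, hA π' h1, h3]

end Ion
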