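import Pool.Agent.Lib.MP_69e010_mp.L5

/-!
# JOB L7: derivatives and potential of slices

* `pd_slice`: `Y ↦ ins i x Y` is affine with linear part `W ↦ ins i 0 W`, which maps `Pi.single k e` to `Pi.single (i.succAbove k) e`. Chain rule for `fderiv`.
* `sum_gsq_slice`: `univ.erase i = univ.image i.succAbove` (`Fin.image_succAbove_univ`, `{i}ᶜ`), `Finset.sum_image` or `Fin.sum_univ_succAbove`.
* `Vee_half`: `Vee X = (1/2) ∑_a ∑_b ‖X a - X b‖⁻¹`: the diagonal terms are `‖0‖⁻¹ = 0`, the pairs `a < b` and `b < a` give the same.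
* `V_ins`: `Vee (ins i x Y) = Vee Y + ∑_k ‖x - Y k‖⁻¹` (`Fin.sum_univ_succAbove` twice), `Ven (ins i x Y) = Ven Y + ‖x‖⁻¹`, `Uo (ins i x Y) i = ∑_k ‖x - Y k‖⁻¹`, `z/‖x‖ = z ‖x‖⁻¹`.
* `V_rest_le`: not needed pointwise; `V z X - (Uo X i - z/‖X i‖)` as a finite sum of `‖X a - X b‖⁻¹`, `‖X a‖⁻¹`: `integrable_rest`: `LipC.integrable_V` of QTools for `V`, `integrable_inv_mul`, `integrable_inv_mul_pair` for `Uo` and `z/‖X i‖`.
-/

open MeasureTheory Metric Finset Filter Topology

noncomputable section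

namespace Ion

variable {n : ℕ}

theorem L7_ins (i : Fin (n + 1)) (x : E3) (Y : Conf n) :
    ∃ L : Conf n →L[ℝ] Conf (n + 1), HasFDerivAt (fun Y : Conf n => ins i x Y) L Y ∧
      ∀ (k : Fin n) (e : E3), L (Pi.single k e) = Pi.single (i.succAbove k) e := by
  refine ⟨ContinuousLinearMap.pi
    (Fin.insertNth (α := fun _ => Conf n →L[ℝ] E3) i 0 (fun k => ContinuousLinearMap.proj k)), ?_, ?_⟩
  · have h : HasFDerivAt (fun (Y : Conf n) (j : Fin (n + 1)) => ins i x Y j)
        (ContinuousLinearMap.pi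
    (Fin.insertNth (α := fun _ => Conf n →L[ℝ] E3) i 0 (fun k => ContinuousLinearMap.proj k))) Y := by
      rw [hasFDerivAt_pi]
      intro j
      rcases Fin.eq_self_or_eq_succAbove i j with rfl | ⟨k, rfl⟩
      · simp only [ins_same, Fin.insertNth_apply_same]
        exact hasFDerivAt_const _ _
      · simp only [ins_succAbove, Fin.insertNth_apply_succAbove]
        exact hasFDerivAt_apply k Y
    exact h
  · intro k e
    funext j
    rcases Fin.eq_self_or_eq_succAbove i j with rfl | ⟨l, rfl⟩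
    · rw [ContinuousLinearMap.pi_apply, Fin.insertNth_apply_same,
        Pi.single_eq_of_ne (Fin.succAbove_ne _ _).symm]
      rfl
    · rw [ContinuousLinearMap.pi_apply, Fin.insertNth_apply_succAbove]
      by_cases hlk : l = k
      · subst hlk
        rw [Pi.single_eq_same]
        exact Pi.single_eq_same _ _
      · rw [Pi.single_eq_of_ne (fun h => hlk (Fin.succAbove_right_injective h))]
        exact Pi.single_eq_of_ne hlk _

theorem pd_slice {F : Conf (n + 1) → ℝ} {i : Fin (n + 1)} {x : E3} {Y : Conf n}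
    (hF : DifferentiableAt ℝ F (ins i x Y)) (k : Fin n) (c : Fin 3) :
    pd k c (fun Y : Conf n => F (ins i x Y)) Y = pd (i.succAbove k) c F (ins i x Y) := by
  obtain ⟨L, hL, hs⟩ := L7_ins i x Y
  have h := hF.hasFDerivAt.comp Y hL
  have h2 : HasFDerivAt (fun Y : Conf n => F (ins i x Y)) ((fderiv ℝ F (ins i x Y)).comp L) Y := h
  unfold pd
  rw [h2.fderiv, ContinuousLinearMap.comp_apply, hs]

theorem L7_sum_erase (i : Fin (n + 1)) (f : Fin (n + 1) → ℝ) :
    ∑ k ∈ univ.erase i, f k = ∑ k, f (i.succAbove k) := by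
  have h1 := Finset.add_sum_erase univ f (mem_univ i)
  have h2 := Fin.sum_univ_succAbove f i
  linarith

theorem sum_gsq_slice {F : Conf (n + 1) → ℝ} {i : Fin (n + 1)} {x : E3} {Y : Conf n}
    (hF : DifferentiableAt ℝ F (ins i x Y)) :
    ∑ k, gsq k (fun Y : Conf n => F (ins i x Y)) Y = ∑ k ∈ univ.erase i, gsq k F (ins i x Y) := by
  rw [L7_sum_erase]
  refine Finset.sum_congr rfl fun k _ => ?_
  unfold gsq
  exact Finset.sum_congr rfl fun c _ => by rw [pd_slice hF]

theorem Vee_half {N : ℕ} (X : Conf N) : Vee X = 1 / 2 * ∑ a, ∑ b, ‖X a - X b‖⁻¹ := by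
  have h1 : ∑ a, ∑ b, ‖X a - X b‖⁻¹
      = ∑ a, ∑ b, ((if a < b then ‖X a - X b‖⁻¹ else 0) + (if b < a then ‖X a - X b‖⁻¹ else 0)) := by
    refine Finset.sum_congr rfl fun a _ => Finset.sum_congr rfl fun b _ => ?_
    rcases lt_trichotomy a b with h | h | h
    · rw [if_pos h, if_neg (not_lt.mpr h.le), add_zero]
    · subst h
      simp
    · rw [if_pos h, if_neg (not_lt.mpr h.le), zero_add]
  have h2 : ∑ a, ∑ b, (if a < b then ‖X a - X b‖⁻¹ else 0) = Vee X := by
    unfold Vee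
    refine Finset.sum_congr rfl fun a _ => ?_
    rw [Finset.sum_filter]
  have h3 : ∑ a, ∑ b, (if b < a then ‖X a - X b‖⁻¹ else 0) = Vee X := by
    rw [Finset.sum_comm, ← h2]
    refine Finset.sum_congr rfl fun a _ => Finset.sum_congr rfl fun b _ => ?_
    rw [norm_sub_rev]
  rw [h1]
  simp only [Finset.sum_add_distrib]
  rw [h2, h3]
  ring

theorem V_ins (z : ℝ) (i : Fin (n + 1)) (x : E3) (Y : Conf n) :
    V z (ins i x Y) - (Uo (ins i x Y) i - z / ‖ins i x Y i‖) = V z Y := by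
  have h1 : Vee (ins i x Y) = Vee Y + ∑ k, ‖x - Y k‖⁻¹ := by
    rw [Vee_half, Vee_half, Fin.sum_univ_succAbove _ i]
    rw [Fin.sum_univ_succAbove _ i]
    have h2 : ∀ a : Fin n, ∑ b, ‖ins i x Y (i.succAbove a) - ins i x Y b‖⁻¹
        = ‖x - Y a‖⁻¹ + ∑ b, ‖Y a - Y b‖⁻¹ := by
      intro a
      rw [Fin.sum_univ_succAbove _ i]
      simp only [ins_same, ins_succAbove]
      rw [norm_sub_rev]
    rw [Finset.sum_congr rfl fun a _ => h2 a, Finset.sum_add_distrib]
    simp only [ins_same, ins_succAbove, sub_self, norm_zero, inv_zero, zero_add]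
    ring
  have h2 : Ven (ins i x Y) = Ven Y + ‖x‖⁻¹ := by
    unfold Ven
    rw [Fin.sum_univ_succAbove _ i]
    simp only [ins_same, ins_succAbove]
    ring
  have h3 : Uo (ins i x Y) i = ∑ k, ‖x - Y k‖⁻¹ := by
    unfold Uo
    rw [L7_sum_erase]
    simp only [ins_same, ins_succAbove]
  unfold V
  rw [h1, h2, h3, ins_same, div_eq_mul_inv]
  ring

theorem sum_chi_ins (R : ℝ) (i : Fin (n + 1)) (x : E3) (Y : Conf n) :
    ∑ k ∈ univ.erase i, chi (‖ins i x Y k‖ / R) = ∑ k, chi (‖Y k‖ / R) := by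
  rw [L7_sum_erase]
  simp only [ins_succAbove]

theorem integrable_rest {N : ℕ} {F : Conf N → ℝ} (hF : LipC F) (z : ℝ) (i : Fin N) :
    Integrable (fun X => (V z X - (Uo X i - z / ‖X i‖)) * (F X) ^ 2) := by
  obtain ⟨C, hC, hb⟩ := hF.bdd
  have hmeas : Measurable (fun X => (F X) ^ 2) := (hF.cont.pow 2).measurable
  have hbd : ∀ X, |(F X) ^ 2| ≤ C ^ 2 := by
    intro X
    rw [abs_pow]
    exact pow_le_pow_left₀ (abs_nonneg _) (hb X) 2
  have hS : IsCompact (tsupport F) := hF.2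
  have hs : ∀ X, X ∉ tsupport F → (F X) ^ 2 = 0 := by
    intro X hX
    rw [image_eq_zero_of_notMem_tsupport hX]
    ring
  have h1 := hF.integrable_V z
  have h2 : Integrable (fun X => ∑ j ∈ univ.erase i, ‖X i - X j‖⁻¹ * (F X) ^ 2) := by
    refine integrable_finsetSum _ fun j hj => ?_
    exact integrable_inv_mul_pair hmeas hbd hS hs (Finset.ne_of_mem_erase hj).symm
  have h3 : Integrable (fun X => z * (‖X i‖⁻¹ * (F X) ^ 2)) :=
    (integrable_inv_mul hmeas hbd hS hs i).const_mul z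
  refine ((h1.sub h2).add h3).congr ?_
  refine Filter.Eventually.of_forall fun X => ?_
  simp only [Pi.add_apply, Pi.sub_apply]
  unfold Uo
  rw [← Finset.sum_mul, div_eq_mul_inv]
  ring

end Ion
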