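import Pool.Agent.Lib.MP_69e010_mp.L6
import Pool.Agent.Lib.MP_69e010_mp.L7
import Pool.Agent.Lib.MP_69e010_mp.L1

/-!
# JOB L8: lower bounds for the energy of the other electrons

Let `Φ : RW (n+1)` with `LipC` components, antisymmetric under permutations fixing `i`. By `sum_spin`, `fubini_ins` (the integrand is integrable: `LipC.integrable_gsq`, `integrable_rest`), `sum_gsq_slice` (a.e.: `ae_ins` of `LipC.ae_diff`), `V_ins`:
* `RE_slices`: `x ↦ qf z (sli i s x Φ)` is integrable (a.e. equal to the sum over `τ` of the inner integrals; split `∫ Y (∑ gsq + V (..)²)` into the two integrals of `qf`, both integrable for a.e. `x`, `integral_add`) and `RE z i Φ = ∑_s ∫ x, qf z (sli i s x Φ)`.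
* `weight_slices`: for a bounded continuous weight `W`: `∑σ ∫ W (Φ σ)² = ∑_s ∫ x, ∑_τ ∫ Y, W (ins i x Y) (sli i s x Φ τ Y)²`, all integrable; with `W = 1`: `nrm2 Φ = ∑_s ∫ x, nrm2 (sli i s x Φ)`.
* `RE_ge`: `EN_le` for every slice (`sli_adms`), integrate over `x` (`integral_mono`), sum over `s`.
* `RE_gamma`: `gamma_prop hη hη1` gives `C`; apply to every slice (`z - n + ∑_k χ(‖Y k‖/R)`, `sum_chi_ins`), integrate. The weight `5/(4R) (z - n + ∑) - η/R ∑ - C/R²` is bounded and continuous (`0 ≤ χ ≤ 1`).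
-/

open MeasureTheory Metric Finset Filter Topology

noncomputable section

namespace Ion

variable {n : ℕ}

/-- Fubini for a family of integrable functions indexed by the spins -/
theorem L8_fubini (i : Fin (n + 1)) {G : Spin (n + 1) → Conf (n + 1) → ℝ} (hG : ∀ σ, Integrable (G σ)) :
    (∀ s, Integrable (fun x : E3 => ∑ τ, ∫ Y, G (insS i s τ) (ins i x Y))) ∧
    ∑ σ, ∫ X, G σ X = ∑ s, ∫ x : E3, ∑ τ, ∫ Y, G (insS i s τ) (ins i x Y) := by
  have h1 : ∀ s : Fin 2, ∀ τ : Spin n, Integrable (fun x : E3 => ∫ Y, G (insS i s τ) (ins i x Y)) :=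
    fun s τ => (fubini_ins i (hG (insS i s τ))).1
  refine ⟨fun s => integrable_finsetSum _ fun τ _ => h1 s τ, ?_⟩
  rw [sum_spin i]
  refine Finset.sum_congr rfl fun s _ => ?_
  rw [integral_finsetSum _ fun τ _ => h1 s τ]
  exact Finset.sum_congr rfl fun τ _ => (fubini_ins i (hG (insS i s τ))).2.2

theorem weight_slices {Φ : RW (n + 1)} (hL : ∀ σ, LipC (Φ σ)) (i : Fin (n + 1)) {W : Conf (n + 1) → ℝ}
    (hW : Continuous W) (hb : ∃ B, ∀ X, |W X| ≤ B) :
    (∀ s, Integrable (fun x : E3 => ∑ τ, ∫ Y, W (ins i x Y) * (sli i s x Φ τ Y) ^ 2)) ∧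
    ∑ σ, ∫ X, W X * (Φ σ X) ^ 2 = ∑ s, ∫ x : E3, ∑ τ, ∫ Y, W (ins i x Y) * (sli i s x Φ τ Y) ^ 2 := by
  obtain ⟨B, hB⟩ := hb
  have hG : ∀ σ, Integrable (fun X => W X * (Φ σ X) ^ 2) := fun σ =>
    (hL σ).integrable_sq.bdd_mul hW.aestronglyMeasurable
      (Eventually.of_forall fun X => by rw [Real.norm_eq_abs]; exact hB X)
  exact L8_fubini i hG

theorem L8_integrable (z : ℝ) {F : Conf (n + 1) → ℝ} (hF : LipC F) (i : Fin (n + 1)) :
    Integrable (fun X => (∑ k ∈ univ.erase i, gsq k F X)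
      + (V z X - (Uo X i - z / ‖X i‖)) * (F X) ^ 2) :=
  (integrable_finsetSum _ fun k _ => hF.integrable_gsq k).add (integrable_rest hF z i)

theorem L8_qf_eq (z : ℝ) {Φ : RW (n + 1)} (hL : ∀ σ, LipC (Φ σ)) (i : Fin (n + 1)) (s : Fin 2) :
    ∀ᵐ x : E3, ∑ τ, ∫ Y, ((∑ k ∈ univ.erase i, gsq k (Φ (insS i s τ)) (ins i x Y))
      + (V z (ins i x Y) - (Uo (ins i x Y) i - z / ‖ins i x Y i‖)) * (Φ (insS i s τ) (ins i x Y)) ^ 2)
      = qf z (sli i s x Φ) := by
  have h1 : ∀ τ : Spin n, ∀ᵐ x : E3, ∀ᵐ Y : Conf n, DifferentiableAt ℝ (Φ (insS i s τ)) (ins i x Y) :=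
    fun τ => ae_ins i (hL (insS i s τ)).ae_diff
  rw [← ae_all_iff] at h1
  filter_upwards [h1] with x hx
  unfold qf TT
  rw [← Finset.sum_add_distrib]
  refine Finset.sum_congr rfl fun τ _ => ?_
  have h2 : LipC (sli i s x Φ τ) := lipC_slice (hL (insS i s τ)) i x
  rw [← integral_add (integrable_finsetSum _ fun k _ => h2.integrable_gsq k) (h2.integrable_V z)]
  refine integral_congr_ae ?_
  filter_upwards [hx τ] with Y hY
  have h3 := sum_gsq_slice hY
  show (∑ k ∈ univ.erase i, gsq k (Φ (insS i s τ)) (ins i x Y))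
      + (V z (ins i x Y) - (Uo (ins i x Y) i - z / ‖ins i x Y i‖)) * (Φ (insS i s τ) (ins i x Y)) ^ 2
    = ∑ k, gsq k (fun Y : Conf n => Φ (insS i s τ) (ins i x Y)) Y
      + V z Y * (Φ (insS i s τ) (ins i x Y)) ^ 2
  rw [h3, V_ins]

theorem RE_slices (z : ℝ) {Φ : RW (n + 1)} (hL : ∀ σ, LipC (Φ σ)) (i : Fin (n + 1)) :
    (∀ s, Integrable (fun x : E3 => qf z (sli i s x Φ))) ∧
    RE z i Φ = ∑ s, ∫ x : E3, qf z (sli i s x Φ) := by
  have h1 := L8_fubini i (G := fun σ X => (∑ k ∈ univ.erase i, gsq k (Φ σ) X)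
      + (V z X - (Uo X i - z / ‖X i‖)) * (Φ σ X) ^ 2) (fun σ => L8_integrable z (hL σ) i)
  refine ⟨fun s => (h1.1 s).congr (L8_qf_eq z hL i s), ?_⟩
  unfold RE
  rw [h1.2]
  exact Finset.sum_congr rfl fun s _ => integral_congr_ae (L8_qf_eq z hL i s)

theorem L8_nrm2_slices {Φ : RW (n + 1)} (hL : ∀ σ, LipC (Φ σ)) (i : Fin (n + 1)) :
    (∀ s, Integrable (fun x : E3 => nrm2 (sli i s x Φ))) ∧
    nrm2 Φ = ∑ s, ∫ x : E3, nrm2 (sli i s x Φ) :=
  L8_fubini i (G := fun σ X => (Φ σ X) ^ 2) (fun σ => (hL σ).integrable_sq)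

theorem RE_ge {z : ℝ} (hz : 0 < z) {Φ : RW (n + 1)} (hL : ∀ σ, LipC (Φ σ)) {i : Fin (n + 1)} (hA : AntiI i Φ) :
    EN z n * nrm2 Φ ≤ RE z i Φ := by
  obtain ⟨h1, h2⟩ := RE_slices z hL i
  obtain ⟨h3, h4⟩ := L8_nrm2_slices hL i
  rw [h2, h4, Finset.mul_sum]
  refine Finset.sum_le_sum fun s _ => ?_
  rw [← integral_const_mul]
  exact integral_mono ((h3 s).const_mul _) (h1 s) fun x => EN_le hz (sli_adms hL hA s x)

theorem L8_continuous_chi : Continuous chi :=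
  continuous_iff_continuousAt.mpr fun t => (hasDerivAt_chi t).continuousAt

theorem RE_gamma {η : ℝ} (hη : 0 < η) (hη1 : η ≤ 1) :
    ∃ C : ℝ, 0 < C ∧ ∀ (z : ℝ), 0 < z → ∀ (R : ℝ), 1 ≤ R → ∀ (n : ℕ) (Φ : RW (n + 1)) (i : Fin (n + 1)),
      (∀ σ, LipC (Φ σ)) → AntiI i Φ →
      ∑ σ, ∫ X, (5 / (4 * R) * (z - n + ∑ k ∈ univ.erase i, chi (‖X k‖ / R))
          - η / R * (∑ k ∈ univ.erase i, chi (‖X k‖ / R)) - C / R ^ 2) * (Φ σ X) ^ 2
        ≤ RE z i Φ - EN z (n + 1) * nrm2 Φ := by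
  obtain ⟨C, hC, hg⟩ := gamma_prop hη hη1
  refine ⟨C, hC, fun z hz R hR n Φ i hL hA => ?_⟩
  have hR0 : 0 < R := by linarith
  have hcont : Continuous fun X : Conf (n + 1) => ∑ k ∈ univ.erase i, chi (‖X k‖ / R) :=
    continuous_finsetSum _ fun k _ => L8_continuous_chi.comp (((continuous_apply k).norm).div_const R)
  have hS0 : ∀ X : Conf (n + 1), 0 ≤ ∑ k ∈ univ.erase i, chi (‖X k‖ / R) := fun X =>
    Finset.sum_nonneg fun k _ => chi_nonnegL _
  have hS1 : ∀ X : Conf (n + 1), ∑ k ∈ univ.erase i, chi (‖X k‖ / R) ≤ n + 1 := fun X => by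
    calc ∑ k ∈ univ.erase i, chi (‖X k‖ / R) ≤ ∑ k ∈ univ.erase i, (1 : ℝ) :=
          Finset.sum_le_sum fun k _ => chi_le_oneL (by positivity)
      _ = ((univ.erase i).card : ℝ) := by simp
      _ ≤ n + 1 := by
          have : (univ.erase i).card ≤ n + 1 := by
            have := Finset.card_le_univ (univ.erase i)
            simpa using this
          exact_mod_cast this
  have hWc : Continuous fun X : Conf (n + 1) =>
      (5 / (4 * R) * (z - n + ∑ k ∈ univ.erase i, chi (‖X k‖ / R))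
          - η / R * (∑ k ∈ univ.erase i, chi (‖X k‖ / R)) - C / R ^ 2) :=
    ((continuous_const.mul (continuous_const.add hcont)).sub (continuous_const.mul hcont)).sub
      continuous_const
  have hWb : ∃ B, ∀ X : Conf (n + 1), |(5 / (4 * R) * (z - n + ∑ k ∈ univ.erase i, chi (‖X k‖ / R))
          - η / R * (∑ k ∈ univ.erase i, chi (‖X k‖ / R)) - C / R ^ 2)| ≤ B := by
    refine ⟨5 / (4 * R) * (z + n + (n + 1)) + η / R * (n + 1) + C / R ^ 2, fun X => ?_⟩
    have h0 := hS0 X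
    have h1 := hS1 X
    generalize ∑ k ∈ univ.erase i, chi (‖X k‖ / R) = S at h0 h1
    have hn : (0 : ℝ) ≤ n := Nat.cast_nonneg n
    have a1 : |5 / (4 * R) * (z - n + S)| ≤ 5 / (4 * R) * (z + n + (n + 1)) := by
      rw [abs_mul, abs_of_nonneg (by positivity : (0 : ℝ) ≤ 5 / (4 * R))]
      refine mul_le_mul_of_nonneg_left ?_ (by positivity)
      rw [abs_le]
      constructor <;> linarith
    have a2 : |η / R * S| ≤ η / R * (n + 1) := by
      rw [abs_of_nonneg (by positivity)]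
      exact mul_le_mul_of_nonneg_left h1 (by positivity)
    have a3 : |C / R ^ 2| ≤ C / R ^ 2 := by
      rw [abs_of_nonneg (by positivity)]
    have b1 := abs_le.mp a1
    have b2 := abs_le.mp a2
    have b3 := abs_le.mp a3
    rw [abs_le]
    constructor <;> linarith [b1.1, b1.2, b2.1, b2.2, b3.1, b3.2]
  obtain ⟨h1, h2⟩ := weight_slices hL i hWc hWb
  obtain ⟨h3, h4⟩ := RE_slices z hL i
  obtain ⟨h5, h6⟩ := L8_nrm2_slices hL i
  rw [h2, h4, h6, Finset.mul_sum, ← Finset.sum_sub_distrib]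
  refine Finset.sum_le_sum fun s _ => ?_
  rw [← integral_const_mul, ← integral_sub (h3 s) ((h5 s).const_mul _)]
  refine integral_mono (h1 s) ((h3 s).sub ((h5 s).const_mul _)) fun x => ?_
  have h7 := hg z hz R hR n (sli i s x Φ) (sli_adms hL hA s x)
  simp only [sum_chi_ins]
  exact h7

end Ion
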