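import Pool.Agent.Lib.MP_69e010_mp.I0
import Pool.Agent.Lib.MP_69e010_mp.I1
import Pool.Agent.Lib.MP_69e010_mp.I3
import Pool.Agent.Lib.MP_69e010_mp.I4
import Pool.Agent.Lib.MP_69e010_mp.QTools

/-!
# MP_69e010_mp, stream L (adding an electron, 10.2): definitions
-/

open MeasureTheory Metric Finset Filter Topology

noncomputable section

namespace Ion

variable {N : ℕ}

/-- clamp to `[0,1]` -/
def cla (t : ℝ) : ℝ := max 0 (min 1 t)

/-- derivative of `χ` -/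
def dchi (τ : ℝ) : ℝ := if τ ≤ 1 then 4 * τ ^ 3 / 5 else 4 / (5 * τ ^ 2)

/-- `h_i(X) = ∑_{k ≠ i} χ(|x_k| / R̃_i)` -/
def hR (m : ℕ) (R : ℝ) (i : Fin N) (X : Conf N) : ℝ := hj X i (Rt m R X i)

/-- the angle `ϑ = (π/2) clamp ((h_i/Q - 1 - c)/c)` -/
def vt (m : ℕ) (R c Q : ℝ) (i : Fin N) (X : Conf N) : ℝ :=
  Real.pi / 2 * cla ((hR m R i X / Q - 1 - c) / c)

/-- antisymmetry under the permutations fixing `i` -/
def AntiI (i : Fin N) (Φ : RW N) : Prop :=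
  ∀ π : Equiv.Perm (Fin N), π i = i → ∀ (σ : Spin N) (X : Conf N),
    Φ (σ ∘ π) (X ∘ π) = ((Equiv.Perm.sign π : ℤ) : ℝ) * Φ σ X

/-- energy of the electrons different from `i` -/
def RE (z : ℝ) (i : Fin N) (Φ : RW N) : ℝ :=
  ∑ σ, ∫ X, ((∑ k ∈ univ.erase i, gsq k (Φ σ) X) + (V z X - (Uo X i - z / ‖X i‖)) * (Φ σ X) ^ 2)

variable {n : ℕ}

/-- insert electron `i` at `x` -/
def ins (i : Fin (n + 1)) (x : E3) (Y : Conf n) : Conf (n + 1) := Fin.insertNth (α := fun _ => E3) i x Y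

/-- insert the spin of electron `i` -/
def insS (i : Fin (n + 1)) (s : Fin 2) (τ : Spin n) : Spin (n + 1) := Fin.insertNth (α := fun _ => Fin 2) i s τ

/-- the slice of `Φ` for fixed electron `i` -/
def sli (i : Fin (n + 1)) (s : Fin 2) (x : E3) (Φ : RW (n + 1)) : RW n := fun τ Y => Φ (insS i s τ) (ins i x Y)

end Ion
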