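import Pool.Agent.Lib.MP_69e010_mp.B6

/-!
# JOB P1: the perturbation identity (*) of section 4

Two trap systems `S, S'` with the same index set, strengths `t, t'` (both `Adm (ea m ^ 5)`). Outside `A` centers, `d_j` (hence radii) and strengths agree.
`v' := S'.v t'`, `ν'_b := t'_b v'_b`, `K := S.K`, `K' := S'.K`, `M := S.MM t`, `GG := S.GG t`.
1. `(1 + K T) v' = 1 - (K' T' - K T) v'`, so `v' - v = -M ((K' - K) ν') - GG ((T' - T) v')` (apply `M`, `MM_mul`, `v = M 1`, `GG = M K`).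
2. `K'_ab - K_ab = (S'.avj a - S.avj a)(S'.phi b) + (S.avj a)(S'.phi b - S.phi b)` and by symmetry of ball-ball averages (`av_ph_comm`)
   `S.avj a (S'.phi b) - S.avj a (S.phi b) = S'.avj b (S.phi a) - S.avj b (S.phi a)`.
3. `∑_b ν'_b (S'.avj a - S.avj a)(S'.phi b) = -(S'.avj a (S'.u t') - S.avj a (S'.u t'))` because `S'.u t' = 1 - ∑ ν'_b S'.phi b` (`av_FF`), zero for `a ∉ A`.
4. `∑_a M_ia (S'.avj b (S.phi a) - S.avj b (S.phi a)) = S'.avj b (S.g t i) - S.avj b (S.g t i)` (`g_eq_MM`, linearity of `av`), zero for `b ∉ A`.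
Here `S'.avj b F = av (S'.x b) (S'.del b) F` may be applied to any function.
-/

open MeasureTheory Metric Finset Filter Topology

noncomputable section

namespace Ion

namespace Sys

variable {ι : Type} [Fintype ι] [DecidableEq ι] {m : ℕ}

/-- averages of `u` -/
theorem P1_av_u (hm : 1 ≤ m) (S : Sys ι m) (t : ι → ℝ) (p : E3) {r : ℝ} (hr : 0 < r) :
    av p r (S.u t) = 1 - ∑ b, t b * S.v t b * av p r (S.phi b) :=
  S.av_FF hm 1 (fun j => t j * S.v t j) p hr

/-- averages of `g` -/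
theorem P1_av_g (hm : 1 ≤ m) (S : Sys ι m) {t : ι → ℝ} (ht : S.Adm (ea m ^ 5) t) (i : ι) (p : E3) (r : ℝ) :
    av p r (S.g t i) = ∑ a, S.MM t i a * av p r (S.phi a) := by
  have e : S.g t i = fun y => ∑ a ∈ Finset.univ, (fun a y => S.MM t i a * S.phi a y) a y :=
    funext (S.g_eq_MM hm ht i)
  have hc : ∀ a ∈ (Finset.univ : Finset ι), Continuous ((fun a y => S.MM t i a * S.phi a y) a) :=
    fun a _ => continuous_const.mul (S.phi_continuous hm a)
  calc av p r (S.g t i) = av p r (fun y => ∑ a ∈ Finset.univ, (fun a y => S.MM t i a * S.phi a y) a y) := by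
        rw [← e]
    _ = ∑ a ∈ Finset.univ, av p r ((fun a y => S.MM t i a * S.phi a y) a) := av_sum _ hc p r
    _ = _ := Finset.sum_congr rfl (fun a _ => av_mul _ _ _ _)

/-- `M (1 + K T) f = f` -/
theorem P1_MM (hm : 1 ≤ m) (S : Sys ι m) {t : ι → ℝ} (ht : S.Adm (ea m ^ 5) t) (f : ι → ℝ) (i : ι) :
    f i = ∑ a, S.MM t i a * (f a + ∑ b, S.K a b * (t b * f b)) := by
  have h : (S.MM t * (1 + S.K * Matrix.diagonal t)).mulVec f = f := by
    rw [S.MM_mul hm ht, Matrix.one_mulVec]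
  have h2 : ∀ a, (1 + S.K * Matrix.diagonal t).mulVec f a = f a + ∑ b, S.K a b * (t b * f b) := by
    intro a
    rw [Matrix.add_mulVec, Matrix.one_mulVec, Pi.add_apply, ← Matrix.mulVec_mulVec]
    have h3 : (Matrix.diagonal t).mulVec f = fun b => t b * f b := by
      funext b
      rw [Matrix.mulVec_diagonal]
    rw [h3]
    rfl
  calc f i = (S.MM t * (1 + S.K * Matrix.diagonal t)).mulVec f i := by rw [h]
    _ = (S.MM t).mulVec ((1 + S.K * Matrix.diagonal t).mulVec f) i := by rw [Matrix.mulVec_mulVec]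
    _ = ∑ a, S.MM t i a * ((1 + S.K * Matrix.diagonal t).mulVec f a) := rfl
    _ = _ := Finset.sum_congr rfl (fun a _ => by rw [h2])

theorem pert_identity (hm : 1 ≤ m) (S S' : Sys ι m) {t t' : ι → ℝ} (ht : S.Adm (ea m ^ 5) t)
    (ht' : S'.Adm (ea m ^ 5) t') (A : Finset ι)
    (hA : ∀ j, j ∉ A → S'.x j = S.x j ∧ S'.dj j = S.dj j ∧ t' j = t j) (i : ι) :
    S'.v t' i - S.v t i =
      ∑ a ∈ A, S.MM t i a * (S'.avj a (S'.u t') - S.avj a (S'.u t'))
      - ∑ b ∈ A, t' b * S'.v t' b * (S'.avj b (S.g t i) - S.avj b (S.g t i))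
      - ∑ b ∈ A, S.GG t i b * (t' b - t b) * S'.v t' b := by
  have hav : ∀ j, j ∉ A → ∀ F : E3 → ℝ, S'.avj j F = S.avj j F := by
    intro j hj F
    unfold avj del
    rw [(hA j hj).1, (hA j hj).2.1]
  have s1 : ∑ a ∈ A, S.MM t i a * (S'.avj a (S'.u t') - S.avj a (S'.u t')) =
      ∑ a, S.MM t i a * (S'.avj a (S'.u t') - S.avj a (S'.u t')) := by
    refine Finset.sum_subset (Finset.subset_univ A) (fun j _ hj => ?_)
    rw [hav j hj, sub_self, mul_zero]
  have s2 : ∑ b ∈ A, t' b * S'.v t' b * (S'.avj b (S.g t i) - S.avj b (S.g t i)) =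
      ∑ b, t' b * S'.v t' b * (S'.avj b (S.g t i) - S.avj b (S.g t i)) := by
    refine Finset.sum_subset (Finset.subset_univ A) (fun j _ hj => ?_)
    rw [hav j hj, sub_self, mul_zero]
  have s3 : ∑ b ∈ A, S.GG t i b * (t' b - t b) * S'.v t' b =
      ∑ b, S.GG t i b * (t' b - t b) * S'.v t' b := by
    refine Finset.sum_subset (Finset.subset_univ A) (fun j _ hj => ?_)
    rw [(hA j hj).2.2, sub_self, mul_zero, zero_mul]
  rw [s1, s2, s3]
  -- expand the averages
  have e1 : ∀ a, S'.avj a (S'.u t') - S.avj a (S'.u t') =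
      -∑ b, t' b * S'.v t' b * (S'.avj a (S'.phi b) - S.avj a (S'.phi b)) := by
    intro a
    have x1 := P1_av_u hm S' t' (S'.x a) (S'.del_pos hm a)
    have x2 := P1_av_u hm S' t' (S.x a) (S.del_pos hm a)
    unfold avj
    rw [x1, x2]
    simp only [mul_sub, Finset.sum_sub_distrib]
    ring
  have e2 : ∀ b, S'.avj b (S.g t i) - S.avj b (S.g t i) =
      ∑ a, S.MM t i a * (S'.avj b (S.phi a) - S.avj b (S.phi a)) := by
    intro b
    unfold avj
    rw [P1_av_g hm S ht i (S'.x b) (S'.del b), P1_av_g hm S ht i (S.x b) (S.del b),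
      ← Finset.sum_sub_distrib]
    exact Finset.sum_congr rfl (fun a _ => by rw [mul_sub])
  have e3 : ∀ b, S.GG t i b = ∑ a, S.MM t i a * S.K a b := fun b => Matrix.mul_apply
  have c1 : ∀ a b, S'.avj b (S.phi a) = S.avj a (S'.phi b) := fun a b =>
    av_ph_comm (S'.del_pos hm b) (S.del_pos hm a)
  have c2 : ∀ a b, S.avj b (S.phi a) = S.K a b := fun a b =>
    av_ph_comm (S.del_pos hm b) (S.del_pos hm a)
  have c3 : ∀ a b, S'.avj a (S'.phi b) = S'.K a b := fun a b => rfl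
  have hv' : ∀ a, S'.v t' a = 1 - ∑ b, S'.K a b * (t' b * S'.v t' b) := by
    intro a
    have := S'.v_eq hm ht' a
    linarith
  have hL : S'.v t' i - S.v t i =
      ∑ a, ∑ b, S.MM t i a * (S.K a b * (t b * S'.v t' b) - S'.K a b * (t' b * S'.v t' b)) := by
    have h1 := P1_MM hm S ht (S'.v t') i
    have h2 : S.v t i = ∑ a, S.MM t i a := rfl
    rw [h1, h2, ← Finset.sum_sub_distrib]
    refine Finset.sum_congr rfl (fun a _ => ?_)
    rw [← Finset.mul_sum, Finset.sum_sub_distrib]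
    have h3 := hv' a
    have h4 : S'.v t' a + ∑ b, S.K a b * (t b * S'.v t' b) =
        (1 - ∑ b, S'.K a b * (t' b * S'.v t' b)) + ∑ b, S.K a b * (t b * S'.v t' b) := by
      rw [← h3]
    rw [h4]
    ring
  have r1 : ∑ a, S.MM t i a * (S'.avj a (S'.u t') - S.avj a (S'.u t')) =
      ∑ a, ∑ b, -(S.MM t i a * (t' b * S'.v t' b * (S'.K a b - S.avj a (S'.phi b)))) := by
    refine Finset.sum_congr rfl (fun a _ => ?_)
    rw [e1, mul_neg, Finset.mul_sum, ← Finset.sum_neg_distrib]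
    exact Finset.sum_congr rfl (fun b _ => by rw [c3])
  have r2 : ∑ b, t' b * S'.v t' b * (S'.avj b (S.g t i) - S.avj b (S.g t i)) =
      ∑ a, ∑ b, t' b * S'.v t' b * (S.MM t i a * (S.avj a (S'.phi b) - S.K a b)) := by
    rw [Finset.sum_comm]
    refine Finset.sum_congr rfl (fun b _ => ?_)
    rw [e2, Finset.mul_sum]
    exact Finset.sum_congr rfl (fun a _ => by rw [c1, c2])
  have r3 : ∑ b, S.GG t i b * (t' b - t b) * S'.v t' b =
      ∑ a, ∑ b, S.MM t i a * S.K a b * (t' b - t b) * S'.v t' b := by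
    rw [Finset.sum_comm]
    refine Finset.sum_congr rfl (fun b _ => ?_)
    rw [e3, Finset.sum_mul, Finset.sum_mul]
  rw [hL, r1, r2, r3, ← Finset.sum_sub_distrib, ← Finset.sum_sub_distrib]
  refine Finset.sum_congr rfl (fun a _ => ?_)
  rw [← Finset.sum_sub_distrib, ← Finset.sum_sub_distrib]
  refine Finset.sum_congr rfl (fun b _ => ?_)
  ring

end Sys

end Ion
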