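import Pool.Agent.Lib.MP_69e010_mp.QTools
import Pool.Agent.Lib.MP_69e010_mp.H.HF
import Pool.Agent.Lib.MP_69e010_mp.H.HH
import Pool.Agent.Lib.MP_69e010_mp.MApi
import Pool.Agent.Lib.MP_69e010_mp.G.GD
import Pool.Agent.Lib.MP_69e010_mp.G.GH
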