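import Pool.Agent.Lib.MP_69e010_mp.Defs

/-!
# MP_69e010_mp: wave functions, energies (real valued wave functions)

Complex wave functions are treated through their real and imaginary parts.
-/

open MeasureTheory Metric Finset Filter Topology

noncomputable section

namespace Ion

/-- configurations of `N` electrons -/
abbrev Conf (N : ℕ) := Fin N → E3

/-- spin configurations -/
abbrev Spin (N : ℕ) := Fin N → Fin 2

/-- real wave functions -/
abbrev RW (N : ℕ) := Spin N → Conf N → ℝ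

variable {N : ℕ}

/-- derivative of `F` with respect to the `c`-th coordinate of electron `k` -/
def pd (k : Fin N) (c : Fin 3) (F : Conf N → ℝ) (X : Conf N) : ℝ :=
  fderiv ℝ F X (Pi.single k (EuclideanSpace.single c (1 : ℝ)))

/-- `∇_k F · ∇_k G` -/
def gin (k : Fin N) (F G : Conf N → ℝ) (X : Conf N) : ℝ := ∑ c, pd k c F X * pd k c G X

/-- `|∇_k F|²` -/
def gsq (k : Fin N) (F : Conf N → ℝ) (X : Conf N) : ℝ := ∑ c, (pd k c F X) ^ 2

/-- potential energy of the electrons -/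
def Vee (X : Conf N) : ℝ := ∑ i, ∑ j ∈ univ.filter (fun j => i < j), ‖X i - X j‖⁻¹

/-- `∑ 1/|x_i|` -/
def Ven (X : Conf N) : ℝ := ∑ i, ‖X i‖⁻¹

/-- total potential -/
def V (z : ℝ) (X : Conf N) : ℝ := Vee X - z * Ven X

/-- Lipschitz functions with compact support -/
def LipC (F : Conf N → ℝ) : Prop := (∃ K, LipschitzWith K F) ∧ HasCompactSupport F

/-- antisymmetry under simultaneous permutations of positions and spins -/
def Anti (ψ : RW N) : Prop :=
  ∀ (π : Equiv.Perm (Fin N)) (σ : Spin N) (X : Conf N),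
    ψ (σ ∘ π) (X ∘ π) = ((Equiv.Perm.sign π : ℤ) : ℝ) * ψ σ X

/-- squared norm -/
def nrm2 (ψ : RW N) : ℝ := ∑ σ, ∫ X, (ψ σ X) ^ 2

/-- kinetic energy -/
def TT (ψ : RW N) : ℝ := ∑ σ, ∫ X, ∑ k, gsq k (ψ σ) X

/-- energy form -/
def qf (z : ℝ) (ψ : RW N) : ℝ := TT ψ + ∑ σ, ∫ X, V z X * (ψ σ X) ^ 2

/-- smooth compactly supported antisymmetric functions -/
def IsTest (ψ : RW N) : Prop :=
  (∀ σ, ContDiff ℝ (⊤ : ℕ∞) (ψ σ)) ∧ (∀ σ, HasCompactSupport (ψ σ)) ∧ Anti ψ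

/-- ground state energy (real test functions) -/
def EN (z : ℝ) (N : ℕ) : ℝ :=
  sInf {e : ℝ | ∃ ψ : RW N, IsTest ψ ∧ nrm2 ψ = 1 ∧ e = qf z ψ}

/-- the wave functions used in the proof -/
def Adms (ψ : RW N) : Prop := (∀ σ, LipC (ψ σ)) ∧ Anti ψ

/-- `q(ψ) - E ‖ψ‖²` -/
def QQ (z : ℝ) (ψ : RW N) : ℝ := qf z ψ - EN z N * nrm2 ψ

/-- multiplication by a function of the positions -/
def mulw (g : Conf N → ℝ) (ψ : RW N) : RW N := fun σ X => g X * ψ σ X

/-- number of electrons in the ball `B(y, l)` -/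
def nb (y : E3) (l : ℝ) (X : Conf N) : ℝ := ∑ i, if ‖X i - y‖ < l then (1 : ℝ) else 0

/-- `χ(τ) = τ⁴/5` for `τ ≤ 1`, `1 - 4/(5τ)` for `τ ≥ 1` -/
def chi (τ : ℝ) : ℝ := if τ ≤ 1 then τ ^ 4 / 5 else 1 - 4 / (5 * τ)

end Ion
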