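import Pool.Agent.Lib.MP_69e010_mp.RDefs

/-!
# JOB R1: calculus of slopes

`Slope F X k L` means `|F (update X k x') - F X| ≤ L ‖x' - X k‖` for all `x'` near `X k`.

* `gsq_le_slope`: if `F` is not differentiable at `X` then `fderiv = 0` and `gsq = 0`. Otherwise let `g : E3` have coordinates `g c = pd k c F X = F'(X)(Pi.single k e_c)`; by linearity
  `F'(X)(Pi.single k v) = ⟪g, v⟫` for all `v : E3`, `gsq k F X = ‖g‖²`. For `v = g` and small `t > 0`: `update X k (X k + t v) = X + t • Pi.single k v`, so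
  `|F (X + t • Pi.single k v) - F X| ≤ L t ‖v‖`; divide by `t → 0+`: `|F'(X)(Pi.single k v)| ≤ L ‖v‖`, i.e. `‖g‖² ≤ L ‖g‖`.
* `slope_sqrt`: `L = 0`: trivial. In general, for `x'` near `X k`: `|F' - F| ≤ L F ‖x'-X k‖ ≤ 5/9 F` so `F' ≥ 4/9 F`, `√F' ≥ 2/3 √F`, `|√F' - √F| = |F' - F|/(√F' + √F) ≤ L F ‖x'-X k‖/(5/3 √F)`.
* `slope_div`: `F'/G' - F/G = (F'-F)/G' - F (G'-G)/(G G')`, so `|..| ≤ (F/G) (L + M) (G/G') ‖x'-X k‖` and `G' ≥ (10/11) G` for `x'` near `X k`.
* `slope_congr`: only the values `F (update X k x')` for `x'` near `X k` and `F X` matter (note `update X k (X k) = X`, so the second hypothesis follows from the first; `Filter.Eventually.self_of_nhds`).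
-/

open MeasureTheory Metric Finset Filter Topology

noncomputable section

namespace Ion

variable {N : ℕ}

theorem slope_mono {F : Conf N → ℝ} {X : Conf N} {k : Fin N} {L L' : ℝ} (h : Slope F X k L) (hL : L ≤ L') :
    Slope F X k L' := by
  unfold Slope at h ⊢
  filter_upwards [h] with x' hx
  exact le_trans hx (mul_le_mul_of_nonneg_right hL (norm_nonneg _))

theorem slope_congr {F G : Conf N → ℝ} {X : Conf N} {k : Fin N} {L : ℝ} (h : Slope F X k L)
    (hFG : ∀ᶠ x' in 𝓝 (X k), F (Function.update X k x') = G (Function.update X k x')) :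
    Slope G X k L := by
  have h0 : F X = G X := by
    have h1 := hFG.self_of_nhds
    rwa [Function.update_eq_self] at h1
  unfold Slope at h ⊢
  filter_upwards [h, hFG] with x' hx hx2
  rw [← hx2, ← h0]
  exact hx

theorem slope_const_mul {F : Conf N → ℝ} {X : Conf N} {k : Fin N} {L c : ℝ} (hc : 0 ≤ c) (h : Slope F X k L) :
    Slope (fun X => c * F X) X k (c * L) := by
  unfold Slope at h ⊢
  filter_upwards [h] with x' hx
  have h1 : c * F (Function.update X k x') - c * F X = c * (F (Function.update X k x') - F X) := by ring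
  rw [h1, abs_mul, abs_of_nonneg hc, mul_assoc]
  exact mul_le_mul_of_nonneg_left hx hc

theorem R1_update {X : Conf N} {k : Fin N} (t : ℝ) (v : E3) :
    Function.update X k (X k + t • v) = X + t • (Pi.single k v : Conf N) := by
  funext i
  by_cases hi : i = k
  · subst hi
    rw [Function.update_self, Pi.add_apply, Pi.smul_apply, Pi.single_eq_same]
  · rw [Function.update_of_ne hi, Pi.add_apply, Pi.smul_apply, Pi.single_eq_of_ne hi, smul_zero, add_zero]

theorem R1_lin (X : Conf N) (k : Fin N) (F : Conf N → ℝ) (v : E3) :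
    fderiv ℝ F X (Pi.single k v : Conf N) = ∑ c, v c * pd k c F X := by
  have h1 : (Pi.single k v : Conf N) = ∑ c, v c • (Pi.single k (EuclideanSpace.single c (1 : ℝ)) : Conf N) := by
    funext i
    rw [Finset.sum_apply]
    by_cases hi : i = k
    · subst hi
      simp only [Pi.smul_apply, Pi.single_eq_same]
      ext c
      simp [Finset.sum_apply, Pi.single_apply]
    · simp only [Pi.smul_apply, Pi.single_eq_of_ne hi, smul_zero, Finset.sum_const_zero]
  rw [h1, map_sum]
  refine Finset.sum_congr rfl fun c _ => ?_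
  rw [map_smul, smul_eq_mul]
  rfl

theorem R1_bound {F : Conf N → ℝ} {X : Conf N} {k : Fin N} {L : ℝ} (hd : DifferentiableAt ℝ F X)
    (h : Slope F X k L) (v : E3) : |fderiv ℝ F X (Pi.single k v : Conf N)| ≤ L * ‖v‖ := by
  have h1 : HasDerivAt (fun t : ℝ => F (X + t • (Pi.single k v : Conf N)))
      (fderiv ℝ F X (Pi.single k v : Conf N)) 0 := by
    have h2 : HasFDerivAt F (fderiv ℝ F X) (X + (0 : ℝ) • (Pi.single k v : Conf N)) := by
      rw [zero_smul, add_zero]
      exact hd.hasFDerivAt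
    have h3 : HasDerivAt (fun t : ℝ => X + t • (Pi.single k v : Conf N)) (Pi.single k v : Conf N) 0 := by
      have h4 : HasDerivAt (fun t : ℝ => t • (Pi.single k v : Conf N)) ((1 : ℝ) • (Pi.single k v : Conf N)) 0 :=
        (hasDerivAt_id (0 : ℝ)).smul_const _
      rw [one_smul] at h4
      exact h4.const_add X
    exact h2.comp_hasDerivAt 0 h3
  have h5 : Tendsto (fun t : ℝ => |t⁻¹ * (F (X + t • (Pi.single k v : Conf N)) - F X)|) (𝓝[>] 0)
      (𝓝 |fderiv ℝ F X (Pi.single k v : Conf N)|) := by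
    have h6 := (hasDerivAt_iff_tendsto_slope_zero.mp h1).mono_left
      (nhdsWithin_mono (0 : ℝ) (fun t (ht : t ∈ Set.Ioi (0 : ℝ)) => (ne_of_gt ht : t ≠ 0)))
    have h7 := h6.abs
    refine h7.congr fun t => ?_
    simp only [zero_add, zero_smul, add_zero, smul_eq_mul]
  refine le_of_tendsto h5 ?_
  have h8 : Tendsto (fun t : ℝ => X k + t • v) (𝓝[>] 0) (𝓝 (X k)) := by
    have h9 : Tendsto (fun t : ℝ => X k + t • v) (𝓝 0) (𝓝 (X k + (0 : ℝ) • v)) :=
      (continuous_const.add (continuous_id.smul continuous_const)).tendsto 0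
    rw [zero_smul, add_zero] at h9
    exact h9.mono_left nhdsWithin_le_nhds
  filter_upwards [h8.eventually h, self_mem_nhdsWithin] with t ht ht0
  have ht0' : 0 < t := ht0
  rw [R1_update, add_sub_cancel_left, norm_smul, Real.norm_eq_abs, abs_of_pos ht0'] at ht
  rw [abs_mul, abs_inv, abs_of_pos ht0', inv_mul_le_iff₀ ht0']
  linarith

/-- the gradient is bounded by the slope (no differentiability needed: `gsq = 0` otherwise) -/
theorem gsq_le_slope {F : Conf N → ℝ} {X : Conf N} {k : Fin N} {L : ℝ} (hL : 0 ≤ L)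
    (h : Slope F X k L) : gsq k F X ≤ L ^ 2 := by
  by_cases hd : DifferentiableAt ℝ F X
  · obtain ⟨g, hg⟩ : ∃ g : E3, ∀ c, g c = pd k c F X :=
      ⟨WithLp.toLp 2 fun c => pd k c F X, fun c => rfl⟩
    have h1 : gsq k F X = ‖g‖ ^ 2 := by
      rw [EuclideanSpace.norm_sq_eq]
      unfold gsq
      refine Finset.sum_congr rfl fun c _ => ?_
      rw [hg c, Real.norm_eq_abs, sq_abs]
    have h2 : fderiv ℝ F X (Pi.single k g : Conf N) = ‖g‖ ^ 2 := by
      rw [R1_lin, EuclideanSpace.norm_sq_eq]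
      refine Finset.sum_congr rfl fun c _ => ?_
      rw [← hg c, Real.norm_eq_abs, sq_abs, sq]
    have h3 := R1_bound hd h g
    rw [h2, abs_of_nonneg (sq_nonneg _)] at h3
    have h4 : ‖g‖ ≤ L := by
      by_contra hcon
      push Not at hcon
      have h5 : 0 < ‖g‖ := lt_of_le_of_lt hL hcon
      nlinarith
    rw [h1]
    exact pow_le_pow_left₀ (norm_nonneg _) h4 2
  · unfold gsq pd
    rw [fderiv_zero_of_not_differentiableAt hd]
    simp only [zero_apply, ne_eq, OfNat.ofNat_ne_zero, not_false_eq_true, zero_pow,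
      Finset.sum_const_zero]
    positivity

/-- for every `δ > 0` the displacement is eventually `≤ δ` -/
theorem R1_small {X : Conf N} {k : Fin N} {δ : ℝ} (hδ : 0 < δ) : ∀ᶠ x' in 𝓝 (X k), ‖x' - X k‖ ≤ δ := by
  filter_upwards [Metric.ball_mem_nhds (X k) hδ] with x' hx
  rw [Metric.mem_ball, dist_eq_norm] at hx
  exact hx.le

theorem slope_sqrt {F : Conf N → ℝ} {X : Conf N} {k : Fin N} {L : ℝ} (hF : 0 < F X) (hL : 0 ≤ L)
    (h : Slope F X k (L * F X)) : Slope (fun X => √(F X)) X k (3 / 5 * L * √(F X)) := by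
  have hδ : 0 < 5 / 9 / (L + 1) := by positivity
  unfold Slope at h ⊢
  filter_upwards [h, R1_small hδ] with x' hx hx2
  obtain ⟨A, hA⟩ : ∃ A, A = F (Function.update X k x') := ⟨_, rfl⟩
  obtain ⟨B, hB⟩ : ∃ B, B = F X := ⟨_, rfl⟩
  obtain ⟨r, hr⟩ : ∃ r, r = ‖x' - X k‖ := ⟨_, rfl⟩
  rw [← hA, ← hB, ← hr] at hx
  rw [← hr] at hx2
  rw [← hB] at hF
  rw [← hA, ← hB, ← hr]
  have hr0 : 0 ≤ r := by rw [hr]; exact norm_nonneg _
  have h1 : L * r ≤ 5 / 9 := by
    rw [le_div_iff₀ (by linarith)] at hx2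
    nlinarith
  have h2 : |A - B| ≤ 5 / 9 * B := by
    have h3 : L * B * r = L * r * B := by ring
    rw [h3] at hx
    exact le_trans hx (mul_le_mul_of_nonneg_right h1 hF.le)
  have h4 : 4 / 9 * B ≤ A := by
    have := (abs_le.mp h2).1
    linarith
  have hA0 : 0 < A := by linarith
  have hsB : 0 < √B := Real.sqrt_pos.mpr hF
  have h5 : 2 / 3 * √B ≤ √A := by
    rw [Real.le_sqrt' (by positivity), mul_pow, Real.sq_sqrt hF.le]
    linarith
  have h6 : (√A - √B) * (√A + √B) = A - B := by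
    have e1 := Real.sq_sqrt hA0.le
    have e2 := Real.sq_sqrt hF.le
    nlinarith
  have h7 : |√A - √B| * (√A + √B) = |A - B| := by
    rw [← h6, abs_mul, abs_of_pos (by linarith : 0 < √A + √B)]
  have h8 : |√A - √B| * (5 / 3 * √B) ≤ L * B * r := by
    have h9 : |√A - √B| * (5 / 3 * √B) ≤ |√A - √B| * (√A + √B) :=
      mul_le_mul_of_nonneg_left (by linarith) (abs_nonneg _)
    linarith
  have h10 : L * B * r = (3 / 5 * L * √B * r) * (5 / 3 * √B) := by
    have e2 := Real.sq_sqrt hF.le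
    calc L * B * r = L * (√B ^ 2) * r := by rw [e2]
      _ = (3 / 5 * L * √B * r) * (5 / 3 * √B) := by ring
  rw [h10] at h8
  exact le_of_mul_le_mul_right h8 (by positivity)

theorem slope_div {F G : Conf N → ℝ} {X : Conf N} {k : Fin N} {L M : ℝ} (hF : 0 < F X) (hG : 0 < G X)
    (hL : 0 ≤ L) (hM : 0 ≤ M) (hFs : Slope F X k (L * F X)) (hGs : Slope G X k (M * G X)) :
    Slope (fun X => F X / G X) X k (11 / 10 * (L + M) * (F X / G X)) := by
  have hδ : 0 < 1 / 11 / (M + 1) := by positivity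
  unfold Slope at hFs hGs ⊢
  filter_upwards [hFs, hGs, R1_small hδ] with x' hx hy hx2
  obtain ⟨A, hA⟩ : ∃ A, A = F (Function.update X k x') := ⟨_, rfl⟩
  obtain ⟨B, hB⟩ : ∃ B, B = F X := ⟨_, rfl⟩
  obtain ⟨C, hC⟩ : ∃ C, C = G (Function.update X k x') := ⟨_, rfl⟩
  obtain ⟨E, hE⟩ : ∃ E, E = G X := ⟨_, rfl⟩
  obtain ⟨r, hr⟩ : ∃ r, r = ‖x' - X k‖ := ⟨_, rfl⟩
  rw [← hA, ← hB, ← hr] at hx
  rw [← hC, ← hE, ← hr] at hy
  rw [← hr] at hx2
  rw [← hB] at hF
  rw [← hE] at hG
  rw [← hA, ← hB, ← hC, ← hE, ← hr]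
  have hr0 : 0 ≤ r := by rw [hr]; exact norm_nonneg _
  have h1 : M * r ≤ 1 / 11 := by
    rw [le_div_iff₀ (by linarith)] at hx2
    nlinarith
  have h2 : |C - E| ≤ 1 / 11 * E := by
    have h3 : M * E * r = M * r * E := by ring
    rw [h3] at hy
    exact le_trans hy (mul_le_mul_of_nonneg_right h1 hG.le)
  have h4 : 10 / 11 * E ≤ C := by
    have := (abs_le.mp h2).1
    linarith
  have hC0 : 0 < C := by linarith
  have h5 : A / C - B / E = ((A - B) * E - B * (C - E)) / (C * E) := by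
    field_simp
    ring
  rw [h5, abs_div, abs_of_pos (mul_pos hC0 hG), div_le_iff₀ (mul_pos hC0 hG)]
  have h6 : |(A - B) * E - B * (C - E)| ≤ |A - B| * E + B * |C - E| := by
    refine le_trans (abs_sub _ _) ?_
    rw [abs_mul, abs_mul, abs_of_pos hG, abs_of_pos hF]
  have h7 : |A - B| * E + B * |C - E| ≤ (L + M) * r * (B * E) := by
    have h8 := mul_le_mul_of_nonneg_right hx hG.le
    have h9 := mul_le_mul_of_nonneg_left hy hF.le
    nlinarith
  have h10 : 11 / 10 * (L + M) * (B / E) * r * (C * E) = (L + M) * r * B * (11 / 10 * C) := by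
    field_simp
  rw [h10]
  have h11 : (L + M) * r * (B * E) ≤ (L + M) * r * B * (11 / 10 * C) := by
    have h12 : 0 ≤ (L + M) * r * B := by positivity
    have h13 : E ≤ 11 / 10 * C := by linarith
    nlinarith [mul_le_mul_of_nonneg_left h13 h12]
  linarith

end Ion
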