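import Pool.Agent.Lib.MP_69e010_mp.RDefs
import Pool.Agent.Lib.MP_69e010_mp.C2
import Pool.Agent.Lib.MP_69e010_mp.C3

/-!
# JOB R2: how `d_j`, `s_j` change when the electrons move

* `tau_move`: `tau = min (ε, ‖y‖)`. If `‖y'‖ ≥ ‖y‖`: `min(ε,‖y'‖) ≤ (‖y'‖/‖y‖) min(ε,‖y‖)` and monotone; if `‖y'‖ ≤ ‖y‖`: `min(ε,‖y'‖) ≥ (‖y'‖/‖y‖) min(ε,‖y‖)`. And `|‖y'‖-‖y‖| ≤ ‖y'-y‖`.
* `dc_move`: `dd_lip` (C1) with `c = η`.
* `sc_move`: `s' - s = (τ'-τ) d' + τ (d'-d)`, `d' ≤ 1.02 d`, `|τ'-τ| ≤ τ η/‖x_j‖ ≤ τ η/(4 d)` (`dd_le`), so `|s'-s| ≤ τ η (0.255 + 2) ≤ 4 (η/d) s`.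
* `eventually_update`: `Good` is open (`isOpen_good`), `x' ↦ update X k x'` is continuous and `update X k (X k) = X`. For `l ∉ aff m X k`: `l ≠ k`, so `x_l` does not change. Either
  `‖X k - X l‖ ≠ DD m X (X l)`: `DD_update_eventually` (C2). Or `DD m X (X l) > ‖X l‖/4`: by `DD_lip` also `DD m X' (X l) > ‖X l‖/4` for `x'` near `X k`, so `dd = ‖X l‖/4` before and after.
  Finitely many `l` (`Filter.eventually_all`).
* `aff_dc`: for `b ∈ aff m X k`, `b ≠ k`: `dc b = DD m X (X b) = ‖X k - X b‖`, and `dc k ≤ dc b + ‖X k - X b‖` (`dd_lip_y`).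
-/

open MeasureTheory Metric Finset Filter Topology

noncomputable section

namespace Ion

variable {N : ℕ}

theorem eps_pos {m : ℕ} (hm : 1 ≤ m) : 0 < eps m := by
  unfold eps ea
  have : (0 : ℝ) < m := by exact_mod_cast hm
  positivity

theorem tau_pos {m : ℕ} (hm : 1 ≤ m) {y : E3} (hy : y ≠ 0) : 0 < tau m y := by
  exact lt_min (eps_pos hm) (norm_pos_iff.2 hy)

theorem R2_min {e a a' : ℝ} (he : 0 ≤ e) (ha : 0 < a) (ha' : 0 ≤ a') :
    |min e a' - min e a| * a ≤ min e a * |a' - a| := by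
  rcases le_total a a' with h | h
  · rw [abs_of_nonneg (sub_nonneg.2 (min_le_min_left e h)), abs_of_nonneg (sub_nonneg.2 h)]
    rcases le_total e a with h1 | h1
    · rw [min_eq_left h1, min_eq_left (h1.trans h)]
      nlinarith
    · rw [min_eq_right h1]
      have := min_le_right e a'
      nlinarith
  · rw [abs_of_nonpos (sub_nonpos.2 (min_le_min_left e h)), abs_of_nonpos (sub_nonpos.2 h)]
    rcases le_total e a' with h1 | h1
    · rw [min_eq_left h1, min_eq_left (h1.trans h)]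
      nlinarith
    · rw [min_eq_right h1]
      have := min_le_right e a
      nlinarith

theorem tau_move {m : ℕ} (hm : 1 ≤ m) {y y' : E3} (hy : y ≠ 0) :
    |tau m y' - tau m y| ≤ tau m y * (‖y' - y‖ / ‖y‖) := by
  have ha : 0 < ‖y‖ := norm_pos_iff.2 hy
  have he : 0 < eps m := eps_pos hm
  have h1 : |‖y'‖ - ‖y‖| ≤ ‖y' - y‖ := abs_norm_sub_norm_le _ _
  have h2 := R2_min he.le ha (norm_nonneg y')
  have h3 : 0 ≤ tau m y := (tau_pos hm hy).le
  unfold tau at h3 ⊢
  rw [← mul_div_assoc, le_div_iff₀ ha]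
  calc |min (eps m) ‖y'‖ - min (eps m) ‖y‖| * ‖y‖ ≤ min (eps m) ‖y‖ * |‖y'‖ - ‖y‖| := h2
    _ ≤ _ := mul_le_mul_of_nonneg_left h1 h3

theorem dc_pos {m : ℕ} (hm : 1 ≤ m) (hN : m ≤ N) {X : Conf N} (hX : Good m X) (j : Fin N) : 0 < dc m X j := by
  exact dd_pos hm hN hX (hX.1 j)

theorem sc_pos {m : ℕ} (hm : 1 ≤ m) (hN : m ≤ N) {X : Conf N} (hX : Good m X) (j : Fin N) : 0 < sc m X j := by
  exact mul_pos (tau_pos hm (hX.1 j)) (dc_pos hm hN hX j)

theorem dc_move {m : ℕ} (hN : m ≤ N) {X X' : Conf N} {η : ℝ} (hη : 0 ≤ η) (h : ∀ j, ‖X' j - X j‖ ≤ η) (j : Fin N) :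
    |dc m X' j - dc m X j| ≤ 2 * η := by
  have h1 := dd_lip hN (X := X) (X' := X') (X j) (X' j) hη (fun j => by rw [norm_sub_rev]; exact h j)
  have h2 := h j
  rw [norm_sub_rev] at h2
  unfold dc
  rw [abs_sub_comm]
  linarith

theorem sc_move {m : ℕ} (hm : 1 ≤ m) (hN : m ≤ N) {X X' : Conf N} (hX : Good m X) {j : Fin N} {η : ℝ}
    (hη : η ≤ dc m X j / 100) (hx : ‖X' j - X j‖ ≤ η) (hd : |dc m X' j - dc m X j| ≤ 2 * η) :
    |sc m X' j - sc m X j| ≤ 4 * (η / dc m X j) * sc m X j := by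
  have hd0 : 0 < dc m X j := dc_pos hm hN hX j
  have hη0 : 0 ≤ η := (norm_nonneg _).trans hx
  have ht0 : 0 < tau m (X j) := tau_pos hm (hX.1 j)
  have hn0 : 0 < ‖X j‖ := norm_pos_iff.2 (hX.1 j)
  have hdn : 4 * dc m X j ≤ ‖X j‖ := by
    have := dd_le m X (X j)
    unfold dc
    linarith
  have h1 : |tau m (X' j) - tau m (X j)| ≤ tau m (X j) * (η / (4 * dc m X j)) := by
    refine (tau_move hm (hX.1 j)).trans (mul_le_mul_of_nonneg_left ?_ ht0.le)
    exact div_le_div₀ hη0 hx (by positivity) hdn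
  have h2 : |dc m X' j| ≤ 1.02 * dc m X j := by
    have h3 := abs_sub_abs_le_abs_sub (dc m X' j) (dc m X j)
    rw [abs_of_pos hd0] at h3
    linarith
  have h3 : tau m (X j) * (η / (4 * dc m X j)) * (1.02 * dc m X j) = tau m (X j) * η * 0.255 := by
    field_simp
    ring
  have h4 : 4 * (η / dc m X j) * (tau m (X j) * dc m X j) = 4 * (tau m (X j) * η) := by
    field_simp
  have h5 : tau m (X' j) * dc m X' j - tau m (X j) * dc m X j =
      (tau m (X' j) - tau m (X j)) * dc m X' j + tau m (X j) * (dc m X' j - dc m X j) := by ring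
  have h6 : 0 ≤ tau m (X j) * η := mul_nonneg ht0.le hη0
  unfold sc
  rw [h4, h5]
  calc |(tau m (X' j) - tau m (X j)) * dc m X' j + tau m (X j) * (dc m X' j - dc m X j)|
      ≤ |tau m (X' j) - tau m (X j)| * |dc m X' j| + tau m (X j) * |dc m X' j - dc m X j| := by
        refine (abs_add_le _ _).trans ?_
        rw [abs_mul, abs_mul, abs_of_pos ht0]
    _ ≤ tau m (X j) * (η / (4 * dc m X j)) * (1.02 * dc m X j) + tau m (X j) * (2 * η) := by
        refine add_le_add (mul_le_mul h1 h2 (abs_nonneg _) (by positivity)) ?_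
        exact mul_le_mul_of_nonneg_left hd ht0.le
    _ ≤ 4 * (tau m (X j) * η) := by rw [h3]; linarith

theorem eventually_update {m : ℕ} (hm : 1 ≤ m) (hN : m ≤ N) {X : Conf N} (hX : Good m X) (k : Fin N) :
    ∀ᶠ x' in 𝓝 (X k), Good m (Function.update X k x') ∧
      ∀ l, l ∉ aff m X k → Function.update X k x' l = X l ∧ dc m (Function.update X k x') l = dc m X l ∧
        sc m (Function.update X k x') l = sc m X l := by
  have hcont : Continuous (fun x' : E3 => Function.update X k x') := continuous_const.update k continuous_id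
  have hgood : ∀ᶠ x' in 𝓝 (X k), Good m (Function.update X k x') := by
    have h1 : {X : Conf N | Good m X} ∈ 𝓝 (Function.update X k (X k)) := by
      rw [Function.update_eq_self]
      exact (isOpen_good hN).mem_nhds hX
    exact hcont.continuousAt.eventually h1
  have hall : ∀ᶠ x' in 𝓝 (X k), ∀ l, l ∉ aff m X k → Function.update X k x' l = X l ∧
      dc m (Function.update X k x') l = dc m X l ∧ sc m (Function.update X k x') l = sc m X l := by
    rw [Filter.eventually_all]
    intro l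
    by_cases hl : l ∈ aff m X k
    · exact Filter.Eventually.of_forall (fun x' h => absurd hl h)
    have hl' : ¬ (l = k ∨ (‖X k - X l‖ = DD m X (X l) ∧ DD m X (X l) ≤ ‖X l‖ / 4)) := fun h =>
      hl (Finset.mem_filter.2 ⟨Finset.mem_univ _, h⟩)
    have hlk : l ≠ k := fun h => hl' (Or.inl h)
    have hdd : ∀ᶠ x' in 𝓝 (X k), dd m (Function.update X k x') (X l) = dd m X (X l) := by
      by_cases h1 : ‖X k - X l‖ = DD m X (X l)
      · have h2 : ‖X l‖ / 4 < DD m X (X l) := by
          by_contra h3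
          exact hl' (Or.inr ⟨h1, not_lt.1 h3⟩)
        have h4 : ∀ᶠ x' in 𝓝 (X k), dist x' (X k) < DD m X (X l) - ‖X l‖ / 4 :=
          Metric.eventually_nhds_iff.2 ⟨_, sub_pos.2 h2, fun x' hx' => hx'⟩
        filter_upwards [h4] with x' hx'
        rw [dist_eq_norm] at hx'
        have h5 : |DD m X (X l) - DD m (Function.update X k x') (X l)| ≤ ‖x' - X k‖ := by
          refine DD_lip hN (norm_nonneg _) (fun j => ?_)
          by_cases hj : j = k
          · subst hj
            rw [Function.update_self]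
            refine (abs_norm_sub_norm_le _ _).trans ?_
            rw [norm_sub_rev x' (X j)]
            simp
          · rw [Function.update_of_ne hj, sub_self, abs_zero]
            exact norm_nonneg _
        have h6 := (abs_le.1 h5).2
        unfold dd
        rw [min_eq_right (by linarith), min_eq_right h2.le]
      · filter_upwards [DD_update_eventually hm hN X (X l) k h1] with x' hx'
        unfold dd
        rw [hx']
    filter_upwards [hdd] with x' hx' _
    have hu : Function.update X k x' l = X l := Function.update_of_ne hlk _ _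
    have hdc : dc m (Function.update X k x') l = dc m X l := by
      unfold dc
      rw [hu, hx']
    refine ⟨hu, hdc, ?_⟩
    unfold sc
    rw [hu, hdc]
  filter_upwards [hgood, hall] with x' h1 h2
  exact ⟨h1, h2⟩

theorem aff_dc {m : ℕ} (hm : 1 ≤ m) (hN : m ≤ N) {X : Conf N} (hX : Good m X) {k b : Fin N}
    (hb : b ∈ aff m X k) : dc m X k ≤ 2 * dc m X b := by
  have hb' : b = k ∨ (‖X k - X b‖ = DD m X (X b) ∧ DD m X (X b) ≤ ‖X b‖ / 4) := (Finset.mem_filter.1 hb).2
  rcases hb' with rfl | ⟨h1, h2⟩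
  · have := dc_pos hm hN hX b
    linarith
  · have h3 : dc m X b = ‖X k - X b‖ := by
      unfold dc dd
      rw [min_eq_left h2, h1]
    have h4 := (abs_le.1 (dd_lip_y hN X (X k) (X b))).2
    have h5 : dc m X k - dc m X b ≤ ‖X k - X b‖ := h4
    linarith

end Ion
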