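import Pool.Agent.Lib.MP_69e010_mp.CDefs

/-!
# MP_69e010_mp, stream R: definitions for sections 4 and 5
-/

open MeasureTheory Metric Finset Filter Topology

noncomputable section

namespace Ion

variable {N : ℕ}

/-- bound for `|∇_k log ν_i|` -/
def Lc (m : ℕ) (X : Conf N) (k i : Fin N) : ℝ :=
  (if i ∈ aff m X k then 17 / dc m X i else 0)
    + 3000 / ea m ^ 2 * ∑ b ∈ aff m X k, Gc m X i b * sc m X b * vc m X b / (vc m X i * dc m X b)

end Ion
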