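import Pool.Agent.Lib.MP_69e010_mp.TDefs

/-!
# JOB T1: basic facts on the weights `ν_j = s_j v_j`, `s_j = min(ε,|x_j|) d_j` (sections 3 and 6)

Everything follows from B1 (`dj_pos`, `del_pos`, `K_*`, `phi_zero`, `ea_pos`, `ea_le`, `mul_ea`), B5 (`v_eq`), B6 (`v_pos`, `v_le_one`, `u_pos`, `u_le_one`).
* `eps_small`: `ea m = 1/(100m) ≤ 1/100`, so `ea m ^ 12 ≤ 10⁻²⁴`; `m * ea m ^ 12 = (m * ea m) * ea m ^ 11 = ea m ^ 11 / 100 ≤ 10⁻²⁴`;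
  `ε / ea m ≤ ea m ^ 11 ≤ 10⁻²²`.
* `st_adm12`: `0 < min ε ‖x_j‖ ≤ ε ≤ ea¹²`. `st_adm`: `ea¹² ≤ ea⁵`.
* `cost_eq`: `v_eq` gives `v_j + ∑_i K j i (s_i v_i) = 1`; split off `i = j`, `K_symm`.
* `cost_le_one`: `WW ≥ 0`. `cost_le_vs`: `s_j K_jj ≤ ε d_j · 3/(2 ea d_j) = 1.5 ε/ea ≤ 0.01` (`K_le_left`, `del j = ea m * dj j`).
* `nu_K_le`: `ν_i K_il ≤ ε d_i v_i · 3/(2 ea d_i)` (`K_le_left` for `K i l`).
* `sum_nu_inv`: definition of `u` at `0` and `phi_zero`.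
* `pot_ineq`: `‖x_i-x_j‖⁻¹ ≥ K i j` (`K_le_inv`, `x_i ≠ x_j`), so the sum over `i` of `ν_i ∑_{j≠i} ‖x_i-x_j‖⁻¹` is at least `∑_i ∑_{j≠i} ν_i K_ij = ∑_j W_j` (exchange of sums,
  `Finset.sum_comm'` or write both as sums over pairs with `i ≠ j`) `= ∑_j (1 - c_j) = card - ∑ c_j`, and `∑ ν_i z ‖x_i‖⁻¹ = z (1 - u(0))`.
-/

open MeasureTheory Metric Finset Filter Topology

noncomputable section

namespace Ion

namespace Sys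

variable {ι : Type} [Fintype ι] {m : ℕ} (S : Sys ι m)

theorem T1_ea_pow (hm : 1 ≤ m) (k : ℕ) : ea m ^ k ≤ (1 / 100) ^ k :=
  pow_le_pow_left₀ (ea_pos hm).le (ea_le hm) k

theorem eps_small (hm : 1 ≤ m) {ε : ℝ} (hε' : ε ≤ ea m ^ 12) : ε ≤ 1 / 10 ^ 24 := by
  refine hε'.trans ((T1_ea_pow hm 12).trans ?_)
  norm_num

theorem m_eps_small (hm : 1 ≤ m) {ε : ℝ} (hε' : ε ≤ ea m ^ 12) : (m : ℝ) * ε ≤ 1 / 10 ^ 24 := by
  have h1 : (m : ℝ) * ε ≤ m * ea m ^ 12 := mul_le_mul_of_nonneg_left hε' (Nat.cast_nonneg m)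
  have h2 : (m : ℝ) * ea m ^ 12 = (m * ea m) * ea m ^ 11 := by ring
  rw [h2, mul_ea hm] at h1
  have h3 := T1_ea_pow hm 11
  have h4 : (1 / 100 : ℝ) * ea m ^ 11 ≤ 1 / 100 * (1 / 100) ^ 11 :=
    mul_le_mul_of_nonneg_left h3 (by norm_num)
  refine h1.trans (h4.trans ?_)
  norm_num

theorem eps_div_small (hm : 1 ≤ m) {ε : ℝ} (hε' : ε ≤ ea m ^ 12) : ε / ea m ≤ 1 / 10 ^ 20 := by
  have h0 := ea_pos hm
  rw [div_le_iff₀ h0]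
  have h2 : ea m ^ 12 = ea m ^ 11 * ea m := by ring
  rw [h2] at hε'
  refine hε'.trans (mul_le_mul_of_nonneg_right ((T1_ea_pow hm 11).trans ?_) h0.le)
  norm_num

theorem tau_pos {ε : ℝ} (hε : 0 < ε) (j : ι) : 0 < S.tau ε j :=
  lt_min hε (norm_pos_iff.mpr (S.ne j))

theorem tau_le {ε : ℝ} (j : ι) : S.tau ε j ≤ ε := min_le_left _ _

theorem st_pos {ε : ℝ} (hε : 0 < ε) (j : ι) : 0 < S.st ε j :=
  mul_pos (S.tau_pos hε j) (S.dj_pos j)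

theorem st_adm12 (hm : 1 ≤ m) {ε : ℝ} (hε : 0 < ε) (hε' : ε ≤ ea m ^ 12) : S.Adm (ea m ^ 12) (S.st ε) :=
  fun j => ⟨(S.st_pos hε j).le,
    mul_le_mul_of_nonneg_right ((min_le_left _ _).trans hε') (S.dj_pos j).le⟩

theorem st_adm (hm : 1 ≤ m) {ε : ℝ} (hε : 0 < ε) (hε' : ε ≤ ea m ^ 12) : S.Adm (ea m ^ 5) (S.st ε) := by
  intro j
  refine ⟨(S.st_adm12 hm hε hε' j).1, (S.st_adm12 hm hε hε' j).2.trans ?_⟩
  refine mul_le_mul_of_nonneg_right ?_ (S.dj_pos j).le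
  exact pow_le_pow_of_le_one (ea_pos hm).le ((ea_le hm).trans (by norm_num)) (by norm_num)

variable [DecidableEq ι]

theorem vs_pos (hm : 1 ≤ m) {ε : ℝ} (hε : 0 < ε) (hε' : ε ≤ ea m ^ 12) (j : ι) : 0 < S.vs ε j :=
  S.v_pos hm (S.st_adm hm hε hε') j

theorem vs_le_one (hm : 1 ≤ m) {ε : ℝ} (hε : 0 < ε) (hε' : ε ≤ ea m ^ 12) (j : ι) : S.vs ε j ≤ 1 :=
  S.v_le_one hm (S.st_adm hm hε hε') j

theorem nu_eq (ε : ℝ) (j : ι) : S.nu ε j = S.tau ε j * S.dj j * S.vs ε j := rfl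

theorem nu_pos (hm : 1 ≤ m) {ε : ℝ} (hε : 0 < ε) (hε' : ε ≤ ea m ^ 12) (j : ι) : 0 < S.nu ε j :=
  mul_pos (S.st_pos hε j) (S.vs_pos hm hε hε' j)

theorem nu_div_sq (hm : 1 ≤ m) {ε : ℝ} (j : ι) :
    S.nu ε j / S.dj j ^ 2 = S.tau ε j * S.vs ε j / S.dj j := by
  have h := S.dj_pos j
  rw [S.nu_eq]
  field_simp

theorem WW_nonneg (hm : 1 ≤ m) {ε : ℝ} (hε : 0 < ε) (hε' : ε ≤ ea m ^ 12) (j : ι) : 0 ≤ S.WW ε j :=
  Finset.sum_nonneg fun i _ => mul_nonneg (S.nu_pos hm hε hε' i).le (S.K_pos hm i j).le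

theorem cost_eq (hm : 1 ≤ m) {ε : ℝ} (hε : 0 < ε) (hε' : ε ≤ ea m ^ 12) (j : ι) :
    S.cost ε j = S.vs ε j * (1 + S.st ε j * S.K j j) := by
  have h1 := S.v_eq hm (S.st_adm hm hε hε') j
  have h2 : ∑ i, S.K j i * (S.st ε i * S.v (S.st ε) i)
      = S.K j j * (S.st ε j * S.v (S.st ε) j) + S.WW ε j := by
    rw [← Finset.add_sum_erase _ _ (Finset.mem_univ j), WW]
    congr 1
    refine Finset.sum_congr rfl fun i _ => ?_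
    rw [S.K_symm hm j i, nu]
    ring
  rw [h2] at h1
  rw [cost, vs]
  linarith

theorem cost_le_one (hm : 1 ≤ m) {ε : ℝ} (hε : 0 < ε) (hε' : ε ≤ ea m ^ 12) (j : ι) : S.cost ε j ≤ 1 := by
  have h := S.WW_nonneg hm hε hε' j
  rw [cost]
  linarith

theorem T1_st_K (hm : 1 ≤ m) {ε : ℝ} (hε : 0 < ε) (hε' : ε ≤ ea m ^ 12) (i l : ι) :
    S.st ε i * S.K i l ≤ 1 / 100 := by
  have h1 := S.K_le_left hm i l
  have h2 : S.st ε i ≤ ε * S.dj i := mul_le_mul_of_nonneg_right (min_le_left _ _) (S.dj_pos i).le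
  have h3 : S.st ε i * S.K i l ≤ ε * S.dj i * (3 / (2 * S.del i)) :=
    mul_le_mul h2 h1 (S.K_pos hm i l).le (mul_nonneg hε.le (S.dj_pos i).le)
  have h4 : ε * S.dj i * (3 / (2 * S.del i)) = 3 / 2 * (ε / ea m) := by
    have h5 := ea_pos hm
    have h6 := S.dj_pos i
    have h7 : S.del i = ea m * S.dj i := rfl
    rw [h7]
    field_simp
  rw [h4] at h3
  have h8 := eps_div_small hm hε'
  refine h3.trans ((mul_le_mul_of_nonneg_left h8 (by norm_num)).trans ?_)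
  norm_num

theorem cost_le_vs (hm : 1 ≤ m) {ε : ℝ} (hε : 0 < ε) (hε' : ε ≤ ea m ^ 12) (j : ι) :
    S.cost ε j ≤ 101 / 100 * S.vs ε j := by
  rw [S.cost_eq hm hε hε' j]
  have h1 := S.T1_st_K hm hε hε' j j
  have h2 := S.vs_pos hm hε hε' j
  nlinarith

theorem nu_K_le (hm : 1 ≤ m) {ε : ℝ} (hε : 0 < ε) (hε' : ε ≤ ea m ^ 12) (i l : ι) :
    S.nu ε i * S.K i l ≤ 1 / 100 * S.vs ε i := by
  have h1 := S.T1_st_K hm hε hε' i l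
  have h2 := S.vs_pos hm hε hε' i
  have h3 : S.nu ε i * S.K i l = (S.st ε i * S.K i l) * S.vs ε i := by
    rw [nu, vs]; ring
  rw [h3]
  exact mul_le_mul_of_nonneg_right h1 h2.le

theorem sum_nu_inv (hm : 1 ≤ m) (ε : ℝ) :
    ∑ j, S.nu ε j * ‖S.x j‖⁻¹ = 1 - S.u (S.st ε) 0 := by
  have h1 : S.u (S.st ε) 0 = 1 - ∑ j, S.st ε j * S.v (S.st ε) j * S.phi j 0 := rfl
  rw [h1]
  have h2 : ∑ j, S.st ε j * S.v (S.st ε) j * S.phi j 0 = ∑ j, S.nu ε j * ‖S.x j‖⁻¹ := by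
    refine Finset.sum_congr rfl fun j _ => ?_
    rw [S.phi_zero hm j, nu]
  rw [h2]
  ring

theorem sum_nu_inv_le (hm : 1 ≤ m) {ε : ℝ} (hε : 0 < ε) (hε' : ε ≤ ea m ^ 12) :
    ∑ j, S.nu ε j * ‖S.x j‖⁻¹ ≤ 1 := by
  rw [S.sum_nu_inv hm ε]
  have h := S.u_pos hm (S.st_adm hm hε hε') 0
  linarith

/-- Lemma 3.1 -/
theorem pot_ineq (hm : 1 ≤ m) {ε : ℝ} (hε : 0 < ε) (hε' : ε ≤ ea m ^ 12)
    (hinj : Function.Injective S.x) (z : ℝ) :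
    (Fintype.card ι : ℝ) - z + z * S.u (S.st ε) 0 - ∑ j, S.cost ε j
      ≤ ∑ i, S.nu ε i * (∑ j ∈ univ.erase i, ‖S.x i - S.x j‖⁻¹ - z * ‖S.x i‖⁻¹) := by
  have h1 : ∑ i, S.nu ε i * (∑ j ∈ univ.erase i, ‖S.x i - S.x j‖⁻¹ - z * ‖S.x i‖⁻¹)
      = ∑ i, ∑ j ∈ univ.erase i, S.nu ε i * ‖S.x i - S.x j‖⁻¹ - z * ∑ i, S.nu ε i * ‖S.x i‖⁻¹ := by
    rw [Finset.mul_sum, ← Finset.sum_sub_distrib]
    refine Finset.sum_congr rfl fun i _ => ?_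
    rw [mul_sub, Finset.mul_sum]
    ring
  have h2 : ∑ i, ∑ j ∈ univ.erase i, S.nu ε i * S.K i j
      ≤ ∑ i, ∑ j ∈ univ.erase i, S.nu ε i * ‖S.x i - S.x j‖⁻¹ := by
    refine Finset.sum_le_sum fun i _ => Finset.sum_le_sum fun j hj => ?_
    refine mul_le_mul_of_nonneg_left (S.K_le_inv hm ?_) (S.nu_pos hm hε hε' i).le
    intro h
    exact (Finset.ne_of_mem_erase hj) (hinj h).symm
  have h3 : ∑ i, ∑ j ∈ univ.erase i, S.nu ε i * S.K i j = ∑ j, S.WW ε j := by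
    unfold WW
    refine Finset.sum_comm' ?_
    intro a b
    constructor
    · rintro ⟨_, hb⟩
      exact ⟨Finset.mem_erase.mpr ⟨(Finset.ne_of_mem_erase hb).symm, Finset.mem_univ _⟩,
        Finset.mem_univ _⟩
    · rintro ⟨ha, _⟩
      exact ⟨Finset.mem_univ _,
        Finset.mem_erase.mpr ⟨(Finset.ne_of_mem_erase ha).symm, Finset.mem_univ _⟩⟩
  have h4 : ∑ j, S.cost ε j = (Fintype.card ι : ℝ) - ∑ j, S.WW ε j := by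
    unfold cost
    rw [Finset.sum_sub_distrib]
    simp
  rw [h1, S.sum_nu_inv hm ε]
  rw [h3] at h2
  rw [h4]
  linarith

end Sys

end Ion
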