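import Pool.Agent.Lib.MP_69e010_mp.T2

/-!
# JOB T3: number of isolated electrons in `{t ≤ |x| < ε}`

`isoIn ε t = {j : ‖x_j‖/200 < d_j, t ≤ ‖x_j‖ < ε}`. For `k : ℕ` let `J_k` be the set of those `j` with `t 2^k ≤ ‖x_j‖ < t 2^(k+1)`. `packing` (T2) with `r = t 2^(k+1)`, `ρ = t 2^k/200`
(`d_j > ‖x_j‖/200 ≥ ρ`): `3r/ρ = 1200`, `#J_k ≤ 1200³ m = 1.728·10⁹ m`. The sets `J_k`, `k < K`, cover `isoIn ε t` if `t 2^K ≥ ε`; choose
`K = ⌈log(ε/t)/log 2⌉₊ ≤ 1 + log(ε/t)/log 2 ≤ 1 + 1.4427 log(ε/t)` (`Real.log_two_gt_d9`). Total `≤ 1.728·10⁹ m (1 + 1.4427 log(ε/t)) ≤ 3·10⁹ m (1 + log(ε/t))`.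
(To find `k` for a given `j`: `k = ⌊log(‖x_j‖/t)/log 2⌋₊`, or `exists_nat_pow_near`.)
-/

open MeasureTheory Metric Finset Filter Topology

noncomputable section

namespace Ion

namespace Sys

variable {ι : Type} [Fintype ι] {m : ℕ} (S : Sys ι m)

theorem iso_count (hm : 1 ≤ m) {t ε : ℝ} (ht : 0 < t) (hte : t ≤ ε) :
    ((S.isoIn ε t).card : ℝ) ≤ 3 * 10 ^ 9 * m * (1 + Real.log (ε / t)) := by
  classical
  have hε : 0 < ε := lt_of_lt_of_le ht hte
  have hl2 : 0 < Real.log 2 := Real.log_pos (by norm_num)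
  have hlog : 0 ≤ Real.log (ε / t) := Real.log_nonneg (by rw [le_div_iff₀ ht]; linarith)
  set K : ℕ := ⌈Real.log (ε / t) / Real.log 2⌉₊ with hK
  set f : ι → ℕ := fun j => ⌊Real.log (‖S.x j‖ / t) / Real.log 2⌋₊ with hf
  have hmem : ∀ j ∈ S.isoIn ε t, ‖S.x j‖ / 200 < S.dj j ∧ t ≤ ‖S.x j‖ ∧ ‖S.x j‖ < ε := by
    intro j hj
    rw [isoIn, Finset.mem_filter] at hj
    exact hj.2
  have hmaps : ∀ j ∈ S.isoIn ε t, f j ∈ Finset.range K := by
    intro j hj
    obtain ⟨_, h2, h3⟩ := hmem j hj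
    have hx : 0 < ‖S.x j‖ := lt_of_lt_of_le ht h2
    rw [Finset.mem_range]
    have h4 : 0 ≤ Real.log (‖S.x j‖ / t) / Real.log 2 :=
      div_nonneg (Real.log_nonneg (by rw [le_div_iff₀ ht]; linarith)) hl2.le
    have h5 : Real.log (‖S.x j‖ / t) < Real.log (ε / t) :=
      Real.log_lt_log (by positivity) (div_lt_div_of_pos_right h3 ht)
    have h6 : ((f j : ℕ) : ℝ) < (K : ℝ) := by
      calc ((f j : ℕ) : ℝ) ≤ Real.log (‖S.x j‖ / t) / Real.log 2 := Nat.floor_le h4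
        _ < Real.log (ε / t) / Real.log 2 := div_lt_div_of_pos_right h5 hl2
        _ ≤ K := Nat.le_ceil _
    exact_mod_cast h6
  have hfib : ∀ k ∈ Finset.range K, ((S.isoIn ε t).filter fun j => f j = k).card ≤ m * 1200 ^ 3 := by
    intro k _
    have h0 : (0 : ℝ) < 2 ^ k := by positivity
    have h1 : (((S.isoIn ε t).filter fun j => f j = k).card : ℝ)
        ≤ m * (3 * (t * 2 ^ (k + 1)) / (t * 2 ^ k / 200)) ^ 3 := by
      have hb : ∀ j ∈ (S.isoIn ε t).filter (fun j => f j = k),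
          t * 2 ^ k ≤ ‖S.x j‖ ∧ ‖S.x j‖ ≤ t * 2 ^ (k + 1) ∧ ‖S.x j‖ / 200 < S.dj j := by
        intro j hj
        rw [Finset.mem_filter] at hj
        obtain ⟨hj1, hj2⟩ := hj
        obtain ⟨h1, h2, h3⟩ := hmem j hj1
        have hx : 0 < ‖S.x j‖ := lt_of_lt_of_le ht h2
        have hxt : 0 < ‖S.x j‖ / t := by positivity
        have h4 : 0 ≤ Real.log (‖S.x j‖ / t) / Real.log 2 :=
          div_nonneg (Real.log_nonneg (by rw [le_div_iff₀ ht]; linarith)) hl2.le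
        have h5 : (k : ℝ) ≤ Real.log (‖S.x j‖ / t) / Real.log 2 := by
          rw [← hj2]
          exact Nat.floor_le h4
        have h6 : Real.log (‖S.x j‖ / t) / Real.log 2 < (k : ℝ) + 1 := by
          rw [← hj2]
          exact Nat.lt_floor_add_one _
        refine ⟨?_, ?_, h1⟩
        · rw [le_div_iff₀ hl2, ← Real.log_pow, Real.log_le_log_iff h0 hxt, le_div_iff₀ ht] at h5
          linarith
        · rw [div_lt_iff₀ hl2] at h6
          have h7 : ((k : ℝ) + 1) * Real.log 2 = Real.log (2 ^ (k + 1)) := by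
            rw [Real.log_pow]; push_cast; ring
          rw [h7, Real.log_lt_log_iff hxt (by positivity), div_lt_iff₀ ht] at h6
          linarith
      refine S.packing hm (by positivity) ?_ (fun j hj => (hb j hj).2.1) ?_
      · rw [pow_succ]
        have : 0 < t * 2 ^ k := by positivity
        linarith
      · intro j hj
        obtain ⟨a, _, c⟩ := hb j hj
        linarith
    have h2 : 3 * (t * 2 ^ (k + 1)) / (t * 2 ^ k / 200) = 1200 := by
      rw [pow_succ]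
      field_simp
      norm_num
    rw [h2] at h1
    exact_mod_cast h1
  have h1 := Finset.card_le_mul_card_image_of_maps_to hmaps (m * 1200 ^ 3) hfib
  rw [Finset.card_range] at h1
  have h2 : ((S.isoIn ε t).card : ℝ) ≤ (m : ℝ) * 1200 ^ 3 * K := by exact_mod_cast h1
  have h3 : (K : ℝ) < Real.log (ε / t) / Real.log 2 + 1 :=
    Nat.ceil_lt_add_one (div_nonneg hlog hl2.le)
  have h4 : Real.log (ε / t) / Real.log 2 ≤ 1.45 * Real.log (ε / t) := by
    rw [div_le_iff₀ hl2]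
    have h5 := Real.log_two_gt_d9
    nlinarith
  have h6 : (K : ℝ) ≤ 1 + 1.45 * Real.log (ε / t) := by linarith
  have h7 : (0 : ℝ) ≤ m := Nat.cast_nonneg m
  calc ((S.isoIn ε t).card : ℝ) ≤ (m : ℝ) * 1200 ^ 3 * K := h2
    _ ≤ (m : ℝ) * 1200 ^ 3 * (1 + 1.45 * Real.log (ε / t)) :=
        mul_le_mul_of_nonneg_left h6 (by positivity)
    _ ≤ 3 * 10 ^ 9 * m * (1 + Real.log (ε / t)) := by
        nlinarith [mul_nonneg h7 hlog]

end Sys

end Ion
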