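import Pool.Agent.Lib.MP_69e010_mp.T1

/-!
# JOB T4: bound for `v_j` by the values at the nucleus

Fix `j`, `λ = ‖x_j‖ > 0`. Let `b_l = ν_l` if `3λ < ‖x_l‖` and `b_l = 0` otherwise, `H = FF 1 b = 1 - ∑_{far} ν_l φ_l` (far: `3λ < ‖x_l‖`). Then for all `w`
`H w = u w + ∑_{l : ‖x_l‖ ≤ 3λ} ν_l φ_l w ≥ u w > 0` (`u = FF 1 ν`, `u_pos`, `phi_pos`, `nu_pos`).
If `ball p r ⊆ ball 0 (2.9 λ)` (precisely: `‖p‖ + r ≤ 2.9 λ`, `r > 0`) then `av p r H = H p`: `av_FF`, and `av_phi_eq` for far `l`: `del l + r ≤ ‖x_l‖/400 + r` and `‖p - x_l‖ ≥ ‖x_l‖ - ‖p‖`, so one needs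
`‖x_l‖/400 + r ≤ ‖x_l‖ - ‖p‖`, true since `‖p‖ + r ≤ 2.9 λ ≤ (2.9/3) ‖x_l‖` and `2.9/3 + 1/400 ≤ 1`.
For `w ∈ ball (x_j) (del j)`: `‖w‖ ≤ λ + λ/400 ≤ 1.01 λ`, `H w = av w (1.8 λ) H ≤ (2.9/1.8)³ av 0 (2.9 λ) H = (2.9/1.8)³ H 0 ≤ 4.2 H 0` (`av_subset`). Average over `B_j` (`av_le`, `avj_u`, `av_mono`):
`v_j = avj u ≤ avj H ≤ 4.2 H 0`, and `H 0 = u 0 + ∑_{‖x_l‖ ≤ 3λ} ν_l ‖x_l‖⁻¹` (`phi_zero`).
-/

open MeasureTheory Metric Finset Filter Topology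

noncomputable section

namespace Ion

namespace Sys

variable {ι : Type} [Fintype ι] [DecidableEq ι] {m : ℕ} (S : Sys ι m)

/-- the function `H`: far electrons only -/
def T4_H (ε : ℝ) (j : ι) : E3 → ℝ :=
  S.FF 1 (fun l => if 3 * ‖S.x j‖ < ‖S.x l‖ then S.nu ε l else 0)

theorem T4_H_eq (ε : ℝ) (j : ι) (w : E3) : S.T4_H ε j w = S.u (S.st ε) w
    + ∑ l ∈ univ.filter (fun l => ‖S.x l‖ ≤ 3 * ‖S.x j‖), S.nu ε l * S.phi l w := by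
  have e1 : S.u (S.st ε) w = 1 - ∑ l, S.nu ε l * S.phi l w := rfl
  have e2 : S.T4_H ε j w
      = 1 - ∑ l, (if 3 * ‖S.x j‖ < ‖S.x l‖ then S.nu ε l else 0) * S.phi l w := rfl
  have e3 : ∑ l, S.nu ε l * S.phi l w
      = ∑ l, (if 3 * ‖S.x j‖ < ‖S.x l‖ then S.nu ε l else 0) * S.phi l w
        + ∑ l, (if ‖S.x l‖ ≤ 3 * ‖S.x j‖ then S.nu ε l * S.phi l w else 0) := by
    rw [← Finset.sum_add_distrib]
    refine Finset.sum_congr rfl fun l _ => ?_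
    by_cases h : 3 * ‖S.x j‖ < ‖S.x l‖
    · rw [if_pos h, if_neg (not_le.2 h), add_zero]
    · rw [if_neg h, if_pos (not_lt.1 h), zero_mul, zero_add]
  rw [e1, e2, Finset.sum_filter, e3]
  ring

theorem T4_H_cont (hm : 1 ≤ m) (ε : ℝ) (j : ι) : Continuous (S.T4_H ε j) :=
  S.FF_continuous hm 1 _

theorem T4_H_ge (hm : 1 ≤ m) {ε : ℝ} (hε : 0 < ε) (hε' : ε ≤ ea m ^ 12) (j : ι) (w : E3) :
    S.u (S.st ε) w ≤ S.T4_H ε j w := by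
  rw [T4_H_eq]
  refine le_add_of_nonneg_right (Finset.sum_nonneg fun l _ => ?_)
  exact mul_nonneg (S.nu_pos hm hε hε' l).le (S.phi_pos hm l w).le

theorem T4_H_pos (hm : 1 ≤ m) {ε : ℝ} (hε : 0 < ε) (hε' : ε ≤ ea m ^ 12) (j : ι) (w : E3) :
    0 < S.T4_H ε j w :=
  lt_of_lt_of_le (S.u_pos hm (S.st_adm hm hε hε') w) (S.T4_H_ge hm hε hε' j w)

/-- `H` is exactly averaged near the nucleus -/
theorem T4_av (hm : 1 ≤ m) (ε : ℝ) (j : ι) {p : E3} {r : ℝ} (hr : 0 < r)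
    (h : ‖p‖ + r ≤ 29 / 10 * ‖S.x j‖) : av p r (S.T4_H ε j) = S.T4_H ε j p := by
  have e1 : av p r (S.T4_H ε j)
      = 1 - ∑ l, (if 3 * ‖S.x j‖ < ‖S.x l‖ then S.nu ε l else 0) * av p r (S.phi l) :=
    S.av_FF hm 1 _ p hr
  have e2 : S.T4_H ε j p
      = 1 - ∑ l, (if 3 * ‖S.x j‖ < ‖S.x l‖ then S.nu ε l else 0) * S.phi l p := rfl
  rw [e1, e2]
  congr 1
  refine Finset.sum_congr rfl fun l _ => ?_
  by_cases hl : 3 * ‖S.x j‖ < ‖S.x l‖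
  · rw [if_pos hl, S.av_phi_eq hm l hr]
    have h1 := S.del_le hm l
    have h2 : ‖S.x l‖ - ‖p‖ ≤ ‖p - S.x l‖ := by
      rw [norm_sub_rev]
      exact norm_sub_norm_le _ _
    have h3 : 0 ≤ ‖S.x j‖ := norm_nonneg _
    linarith
  · rw [if_neg hl, zero_mul, zero_mul]

theorem v_nucleus (hm : 1 ≤ m) {ε : ℝ} (hε : 0 < ε) (hε' : ε ≤ ea m ^ 12) (j : ι) :
    S.vs ε j ≤ 21 / 5 * (S.u (S.st ε) 0
      + ∑ l ∈ univ.filter (fun l => ‖S.x l‖ ≤ 3 * ‖S.x j‖), S.nu ε l * ‖S.x l‖⁻¹) := by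
  have hlam : 0 < ‖S.x j‖ := norm_pos_iff.2 (S.ne j)
  have hcont := S.T4_H_cont hm ε j
  have hH0 := S.T4_H_pos hm hε hε' j 0
  have hpt : ∀ w ∈ ball (S.x j) (S.del j), S.T4_H ε j w ≤ 21 / 5 * S.T4_H ε j 0 := by
    intro w hw
    rw [mem_ball, dist_eq_norm] at hw
    have h1 := S.del_le hm j
    have h2 : ‖w‖ ≤ ‖S.x j‖ + ‖S.x j‖ / 400 := by
      have h3 := norm_sub_norm_le w (S.x j)
      linarith
    have hr : 0 < 9 / 5 * ‖S.x j‖ := by linarith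
    have hρ : 0 < 29 / 10 * ‖S.x j‖ := by linarith
    have e1 : av w (9 / 5 * ‖S.x j‖) (S.T4_H ε j) = S.T4_H ε j w :=
      S.T4_av hm ε j hr (by linarith)
    have e2 : av 0 (29 / 10 * ‖S.x j‖) (S.T4_H ε j) = S.T4_H ε j 0 :=
      S.T4_av hm ε j hρ (by rw [norm_zero, zero_add])
    have h4 := av_subset (F := S.T4_H ε j) hcont (p := w) (q := 0) (r := 9 / 5 * ‖S.x j‖)
      (ρ := 29 / 10 * ‖S.x j‖) hr (by
        apply ball_subset_ball'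
        rw [dist_zero_right]
        linarith) (fun w' _ => (S.T4_H_pos hm hε hε' j w').le)
    rw [e1, e2] at h4
    have e3 : (29 / 10 * ‖S.x j‖) / (9 / 5 * ‖S.x j‖) = 29 / 18 := by
      field_simp
      norm_num
    rw [e3] at h4
    refine h4.trans (mul_le_mul_of_nonneg_right (by norm_num) hH0.le)
  have h1 : S.vs ε j ≤ 21 / 5 * S.T4_H ε j 0 := by
    have e1 : S.avj j (S.u (S.st ε)) = S.vs ε j := S.avj_u hm (S.st_adm hm hε hε') j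
    rw [← e1]
    exact av_le (S.u_continuous hm _) (S.del_pos hm j)
      (fun w hw => (S.T4_H_ge hm hε hε' j w).trans (hpt w hw))
  refine h1.trans (le_of_eq ?_)
  rw [T4_H_eq]
  congr 2
  refine Finset.sum_congr rfl fun l _ => ?_
  rw [S.phi_zero hm]

end Sys

end Ion
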