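import Pool.Agent.Lib.MP_69e010_mp.T3
import Pool.Agent.Lib.MP_69e010_mp.T4

/-!
# JOB T5: the sum of `v_j` over isolated electrons near the nucleus

Let `C5 = 3·10⁹`, `A = isoIn ε a`, `S0 = ∑_{j∈A} v_j`, `u0 = u 0`. By `v_nucleus` (T4) and exchange of sums
`S0 ≤ 4.2 u0 #A + 4.2 ∑_l (ν_l/λ_l) n_l`, `n_l = #{j ∈ A : λ_l ≤ 3 λ_j}`. `#A ≤ C5 m (1 + log(ε/a))` (`iso_count`). For `λ_l ≥ 3ε`: `n_l = 0`. For `λ_l < 3ε`:
`n_l ≤ #(isoIn ε (λ_l/3)) ≤ C5 m (1 + log(3ε/λ_l))` (T3 with `t = λ_l/3 < ε`). The four kinds of `l` with `λ_l < 3 ε`: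
(1) `l` crowded (`d_l ≤ λ_l/200`); then `l ∈ clD` (`d_l ≤ λ_l/200 ≤ 50 min(ε, λ_l)`), and `4.2 C5 m (1+log(3ε/λ_l)) ν_l/λ_l ≤ (1/1600008) · 5000 ν_l/d_l²`:
   since `d_l² ≤ λ_l²/40000` it suffices that `4.2·C5·m·1600008·λ_l (1 + log(3ε/λ_l)) ≤ 2·10⁸`, and `λ(1 + log(3ε/λ)) ≤ 3ε` for `0 < λ ≤ 3ε` (`log x ≤ x - 1` with `x = 3ε/λ`),
   so the left side is `≤ 4.2·3·10⁹·1600008·3 m ε ≤ 4·10¹⁶ m ε`, and `m ε ≤ 10⁻²⁴` (`m_eps_small`).
(2) `l` isolated (`λ_l/200 < d_l`), `λ_l < ε`: `ν_l/λ_l = d_l v_l ≤ λ_l v_l/4` (`tau = λ_l`, `dj_le`), so the term is `≤ 4.2 C5 m (3ε/4) v_l ≤ v_l/2`. If `a ≤ λ_l` it belongs to `A` (sum `≤ S0/2`), if `λ_l < a` use `v_l ≤ 1`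
   (sum `≤ #(clA a)/2`).
(3) `l` isolated, `ε ≤ λ_l < 3ε`: `1 + log(3ε/λ_l) ≤ 1 + log 3 ≤ 2.1`, the sum is `≤ 4.2·2.1·C5 m ∑ ν_l/λ_l ≤ 9 C5 m` (`sum_nu_inv_le`).
Together `S0 ≤ 4.2 u0 C5 m (1+log(ε/a)) + (1/1600008) ∑_D 5000 ν/d² + S0/2 + #clA/2 + 9 C5 m`; multiply by 2.
-/

open MeasureTheory Metric Finset Filter Topology

noncomputable section

namespace Ion

namespace Sys

variable {ι : Type} [Fintype ι] [DecidableEq ι] {m : ℕ} (S : Sys ι m)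

theorem T5_log3 : Real.log 3 ≤ 1103 / 1000 := by
  have h1 : 2 * Real.log 3 = Real.log (9 / 8) + 3 * Real.log 2 := by
    have h2 : Real.log 9 = 2 * Real.log 3 := by
      rw [show (9 : ℝ) = 3 ^ 2 by norm_num, Real.log_pow]
      norm_num
    have h3 : Real.log 8 = 3 * Real.log 2 := by
      rw [show (8 : ℝ) = 2 ^ 3 by norm_num, Real.log_pow]
      norm_num
    rw [Real.log_div (by norm_num) (by norm_num), h2, h3]
    ring
  have h4 := Real.log_le_sub_one_of_pos (show (0 : ℝ) < 9 / 8 by norm_num)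
  have h5 := Real.log_two_lt_d9
  linarith

theorem T5_swap {κ : Type} [Fintype κ] (A : Finset κ) (w : κ → ℝ) (P : κ → κ → Prop)
    [∀ j l, Decidable (P j l)] :
    ∑ j ∈ A, ∑ l ∈ univ.filter (fun l => P j l), w l
      = ∑ l, w l * ((A.filter fun j => P j l).card : ℝ) := by
  calc ∑ j ∈ A, ∑ l ∈ univ.filter (fun l => P j l), w l
      = ∑ j ∈ A, ∑ l, if P j l then w l else 0 := by
        refine Finset.sum_congr rfl fun j _ => ?_
        rw [Finset.sum_filter]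
    _ = ∑ l, ∑ j ∈ A, if P j l then w l else 0 := Finset.sum_comm
    _ = ∑ l, w l * ((A.filter fun j => P j l).card : ℝ) := by
        refine Finset.sum_congr rfl fun l _ => ?_
        rw [← Finset.sum_filter, Finset.sum_const, nsmul_eq_mul, mul_comm]

omit [DecidableEq ι] in
theorem T5_n (hm : 1 ≤ m) {ε : ℝ} (hε : 0 < ε) {a : ℝ} (l : ι) :
    (((S.isoIn ε a).filter fun j => ‖S.x l‖ ≤ 3 * ‖S.x j‖).card : ℝ) ≤
      if ‖S.x l‖ < 3 * ε then 3 * 10 ^ 9 * m * (1 + Real.log (3 * ε / ‖S.x l‖)) else 0 := by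
  split_ifs with h
  · have hl : 0 < ‖S.x l‖ := norm_pos_iff.2 (S.ne l)
    have h1 : ((S.isoIn ε a).filter fun j => ‖S.x l‖ ≤ 3 * ‖S.x j‖) ⊆ S.isoIn ε (‖S.x l‖ / 3) := by
      intro j hj
      simp only [isoIn, Finset.mem_filter, Finset.mem_univ, true_and] at hj ⊢
      exact ⟨hj.1.1, by linarith [hj.2], hj.1.2.2⟩
    have h2 := S.iso_count hm (t := ‖S.x l‖ / 3) (ε := ε) (by positivity) (by linarith)
    have h3 : ε / (‖S.x l‖ / 3) = 3 * ε / ‖S.x l‖ := by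
      field_simp
    rw [h3] at h2
    exact (Nat.cast_le.2 (Finset.card_le_card h1)).trans h2
  · have h1 : ((S.isoIn ε a).filter fun j => ‖S.x l‖ ≤ 3 * ‖S.x j‖) = ∅ := by
      rw [Finset.filter_eq_empty_iff]
      intro j hj hj'
      simp only [isoIn, Finset.mem_filter, Finset.mem_univ, true_and] at hj
      exact h (by linarith [hj.2.2])
    rw [h1]
    simp

theorem T5_term (hm : 1 ≤ m) {ε : ℝ} (hε : 0 < ε) (hε' : ε ≤ ea m ^ 12) {a : ℝ} (l : ι) :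
    21 / 5 * (S.nu ε l * ‖S.x l‖⁻¹ *
        (((S.isoIn ε a).filter fun j => ‖S.x l‖ ≤ 3 * ‖S.x j‖).card : ℝ)) ≤
      (if l ∈ S.clD ε then 1 / 1600008 * (5000 * (S.nu ε l / S.dj l ^ 2)) else 0)
      + (if l ∈ S.isoIn ε a then S.vs ε l / 2 else 0)
      + (if l ∈ S.clA a then 1 / 2 else 0)
      + 27 * 10 ^ 9 * m * (S.nu ε l * ‖S.x l‖⁻¹) := by
  have hn := S.T5_n hm hε (a := a) l
  set n : ℝ := (((S.isoIn ε a).filter fun j => ‖S.x l‖ ≤ 3 * ‖S.x j‖).card : ℝ) with hndef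
  have hn0 : 0 ≤ n := Nat.cast_nonneg _
  have hl : 0 < ‖S.x l‖ := norm_pos_iff.2 (S.ne l)
  have hν := S.nu_pos hm hε hε' l
  have hv := S.vs_pos hm hε hε' l
  have hv1 := S.vs_le_one hm hε hε' l
  have hd := S.dj_pos l
  have hd4 := S.dj_le l
  have hνeq := S.nu_eq ε l
  have hmε := m_eps_small hm hε'
  have hm0 : (0 : ℝ) < m := by exact_mod_cast hm
  have r1 : 0 ≤ (if l ∈ S.clD ε then 1 / 1600008 * (5000 * (S.nu ε l / S.dj l ^ 2)) else 0) := by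
    split_ifs
    · positivity
    · exact le_rfl
  have r2 : 0 ≤ (if l ∈ S.isoIn ε a then S.vs ε l / 2 else 0) := by
    split_ifs
    · positivity
    · exact le_rfl
  have r3 : (0 : ℝ) ≤ (if l ∈ S.clA a then 1 / 2 else 0) := by
    split_ifs
    · norm_num
    · exact le_rfl
  have r4 : 0 ≤ 27 * 10 ^ 9 * m * (S.nu ε l * ‖S.x l‖⁻¹) := by positivity
  by_cases h : ‖S.x l‖ < 3 * ε
  · rw [if_pos h] at hn
    have hq : 0 < 3 * ε / ‖S.x l‖ := by positivity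
    have hlog := Real.log_le_sub_one_of_pos hq
    by_cases hc : S.dj l ≤ ‖S.x l‖ / 200
    · have hmem : l ∈ S.clD ε := by
        simp only [clD, Finset.mem_filter, Finset.mem_univ, true_and]
        refine ⟨hc, ?_⟩
        have : ‖S.x l‖ / 200 ≤ 50 * S.tau ε l := by
          rw [tau]
          rcases le_total ε ‖S.x l‖ with h5 | h5
          · rw [min_eq_left h5]
            linarith
          · rw [min_eq_right h5]
            linarith
        linarith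
      have key : 21 / 5 * (S.nu ε l * ‖S.x l‖⁻¹ * n) ≤
          1 / 1600008 * (5000 * (S.nu ε l / S.dj l ^ 2)) := by
        have hn2 : n ≤ 3 * 10 ^ 9 * m * (3 * ε / ‖S.x l‖) :=
          hn.trans (mul_le_mul_of_nonneg_left (by linarith) (by positivity))
        have e1 : S.nu ε l * ‖S.x l‖⁻¹ * n ≤
            S.nu ε l * ‖S.x l‖⁻¹ * (3 * 10 ^ 9 * m * (3 * ε / ‖S.x l‖)) :=
          mul_le_mul_of_nonneg_left hn2 (by positivity)
        have e2 : S.nu ε l * ‖S.x l‖⁻¹ * (3 * 10 ^ 9 * m * (3 * ε / ‖S.x l‖)) =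
            S.nu ε l / ‖S.x l‖ ^ 2 * (9 * 10 ^ 9 * (m * ε)) := by
          field_simp
          ring
        have e3 : S.nu ε l / ‖S.x l‖ ^ 2 ≤ S.nu ε l / S.dj l ^ 2 * (1 / 40000) := by
          rw [div_mul_div_comm, mul_one]
          refine div_le_div_of_nonneg_left hν.le (by positivity) ?_
          nlinarith
        have e4 : 0 ≤ S.nu ε l / ‖S.x l‖ ^ 2 := by positivity
        have e5 : 9 * 10 ^ 9 * ((m : ℝ) * ε) ≤ 1 := by linarith
        have e6 : S.nu ε l / ‖S.x l‖ ^ 2 * (9 * 10 ^ 9 * (m * ε)) ≤ S.nu ε l / ‖S.x l‖ ^ 2 * 1 :=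
          mul_le_mul_of_nonneg_left e5 e4
        have e7 : 0 ≤ S.nu ε l / S.dj l ^ 2 := by positivity
        linarith
      rw [if_pos hmem]
      linarith
    · rw [not_le] at hc
      by_cases h2 : ‖S.x l‖ < ε
      · have htau : S.tau ε l = ‖S.x l‖ := by
          rw [tau, min_eq_right h2.le]
        have hνl : S.nu ε l * ‖S.x l‖⁻¹ = S.dj l * S.vs ε l := by
          rw [hνeq, htau]
          field_simp
        have key : 21 / 5 * (S.nu ε l * ‖S.x l‖⁻¹ * n) ≤ S.vs ε l / 2 := by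
          have hn2 : n ≤ 3 * 10 ^ 9 * m * (3 * ε / ‖S.x l‖) :=
            hn.trans (mul_le_mul_of_nonneg_left (by linarith) (by positivity))
          rw [hνl]
          have e1 : S.dj l * S.vs ε l * n ≤
              (‖S.x l‖ / 4) * S.vs ε l * (3 * 10 ^ 9 * m * (3 * ε / ‖S.x l‖)) := by
            refine mul_le_mul ?_ hn2 hn0 (by positivity)
            exact mul_le_mul_of_nonneg_right hd4 hv.le
          have e2 : (‖S.x l‖ / 4) * S.vs ε l * (3 * 10 ^ 9 * m * (3 * ε / ‖S.x l‖)) =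
              S.vs ε l * (9 / 4 * 10 ^ 9 * (m * ε)) := by
            field_simp
            ring
          have e3 : S.vs ε l * (9 / 4 * 10 ^ 9 * (m * ε)) ≤ S.vs ε l * (1 / 10) :=
            mul_le_mul_of_nonneg_left (by linarith) hv.le
          linarith
        by_cases h3 : a ≤ ‖S.x l‖
        · have hmem : l ∈ S.isoIn ε a := by
            simp only [isoIn, Finset.mem_filter, Finset.mem_univ, true_and]
            exact ⟨hc, h3, h2⟩
          rw [if_pos hmem]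
          linarith
        · have hmem : l ∈ S.clA a := by
            simp only [clA, Finset.mem_filter, Finset.mem_univ, true_and]
            exact not_le.1 h3
          rw [if_pos hmem]
          linarith
      · rw [not_lt] at h2
        have hlog3 : Real.log (3 * ε / ‖S.x l‖) ≤ 1103 / 1000 := by
          refine le_trans (Real.log_le_log hq ?_) T5_log3
          rw [div_le_iff₀ hl]
          linarith
        have hn2 : n ≤ 3 * 10 ^ 9 * m * (2103 / 1000) :=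
          hn.trans (mul_le_mul_of_nonneg_left (by linarith) (by positivity))
        have e1 : S.nu ε l * ‖S.x l‖⁻¹ * n ≤ S.nu ε l * ‖S.x l‖⁻¹ * (3 * 10 ^ 9 * m * (2103 / 1000)) :=
          mul_le_mul_of_nonneg_left hn2 (by positivity)
        have e2 : 0 ≤ (m : ℝ) * (S.nu ε l * ‖S.x l‖⁻¹) := by positivity
        have e3 : S.nu ε l * ‖S.x l‖⁻¹ * (3 * 10 ^ 9 * m * (2103 / 1000)) =
            3 * 10 ^ 9 * (2103 / 1000) * ((m : ℝ) * (S.nu ε l * ‖S.x l‖⁻¹)) := by ring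
        have e4 : 27 * 10 ^ 9 * m * (S.nu ε l * ‖S.x l‖⁻¹) =
            27 * 10 ^ 9 * ((m : ℝ) * (S.nu ε l * ‖S.x l‖⁻¹)) := by ring
        rw [e4]
        rw [e3] at e1
        nlinarith
  · rw [if_neg h] at hn
    have hn00 : n = 0 := le_antisymm hn hn0
    rw [hn00]
    simp only [mul_zero]
    linarith

theorem isoIn_sum (hm : 1 ≤ m) {ε : ℝ} (hε : 0 < ε) (hε' : ε ≤ ea m ^ 12) {a : ℝ} (ha : 0 < a) (ha' : a ≤ ε) :
    ∑ j ∈ S.isoIn ε a, S.vs ε j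
      ≤ 42 / 5 * (3 * 10 ^ 9 * m * (1 + Real.log (ε / a))) * S.u (S.st ε) 0
        + 1 / 800004 * ∑ l ∈ S.clD ε, 5000 * (S.nu ε l / S.dj l ^ 2)
        + (S.clA a).card + 54 * 10 ^ 9 * m := by
  classical
  set u0 := S.u (S.st ε) 0 with hu0
  have hu : 0 < u0 := S.u_pos hm (S.st_adm hm hε hε') 0
  have h1 : ∑ j ∈ S.isoIn ε a, S.vs ε j ≤ ∑ j ∈ S.isoIn ε a, 21 / 5 * (u0
      + ∑ l ∈ univ.filter (fun l => ‖S.x l‖ ≤ 3 * ‖S.x j‖), S.nu ε l * ‖S.x l‖⁻¹) :=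
    Finset.sum_le_sum fun j _ => S.v_nucleus hm hε hε' j
  rw [← Finset.mul_sum, Finset.sum_add_distrib, Finset.sum_const, nsmul_eq_mul,
    T5_swap (S.isoIn ε a) (fun l => S.nu ε l * ‖S.x l‖⁻¹) (fun j l => ‖S.x l‖ ≤ 3 * ‖S.x j‖)] at h1
  have h2 : ((S.isoIn ε a).card : ℝ) * u0 ≤ 3 * 10 ^ 9 * m * (1 + Real.log (ε / a)) * u0 :=
    mul_le_mul_of_nonneg_right (S.iso_count hm ha ha') hu.le
  have h3 : 21 / 5 * ∑ l, S.nu ε l * ‖S.x l‖⁻¹ *
        (((S.isoIn ε a).filter fun j => ‖S.x l‖ ≤ 3 * ‖S.x j‖).card : ℝ) ≤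
      1 / 1600008 * ∑ l ∈ S.clD ε, 5000 * (S.nu ε l / S.dj l ^ 2)
        + 1 / 2 * ∑ j ∈ S.isoIn ε a, S.vs ε j
        + 1 / 2 * (S.clA a).card + 27 * 10 ^ 9 * m * ∑ l, S.nu ε l * ‖S.x l‖⁻¹ := by
    have h4 := Finset.sum_le_sum (s := Finset.univ) fun l (_ : l ∈ Finset.univ) =>
      S.T5_term hm hε hε' (a := a) l
    rw [← Finset.mul_sum] at h4
    simp only [Finset.sum_add_distrib] at h4
    rw [Finset.sum_ite_mem, Finset.sum_ite_mem, Finset.sum_ite_mem, Finset.univ_inter,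
      Finset.univ_inter, Finset.univ_inter, ← Finset.mul_sum, ← Finset.mul_sum, Finset.sum_const,
      nsmul_eq_mul, ← Finset.sum_div] at h4
    have e1 : ∑ l ∈ S.clD ε, 5000 * (S.nu ε l / S.dj l ^ 2) =
        5000 * ∑ l ∈ S.clD ε, S.nu ε l / S.dj l ^ 2 := (Finset.mul_sum _ _ _).symm
    have e2 : ∑ x, 27 * 10 ^ 9 * (m : ℝ) * (S.nu ε x * ‖S.x x‖⁻¹) =
        27 * 10 ^ 9 * (m : ℝ) * ∑ x, S.nu ε x * ‖S.x x‖⁻¹ := (Finset.mul_sum _ _ _).symm
    rw [e2] at h4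
    rw [e1]
    linarith
  have h5 : 27 * 10 ^ 9 * (m : ℝ) * ∑ l, S.nu ε l * ‖S.x l‖⁻¹ ≤ 27 * 10 ^ 9 * (m : ℝ) * 1 :=
    mul_le_mul_of_nonneg_left (S.sum_nu_inv_le hm hε hε') (by positivity)
  linarith

end Sys

end Ion
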