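import Pool.Agent.Lib.MP_69e010_mp.T5

/-!
# JOB T6: total cost of the isolated electrons, and absorption of the logarithm

* `iso_far_sum`: for `j` isolated with `λ_j ≥ ε`: `tau = ε`, `d_j > λ_j/200`, so `v_j = ν_j/(ε d_j) ≤ (200/ε) ν_j/λ_j`; sum `≤ 200/ε` by `sum_nu_inv_le`.
* `iso_cost`: `ν_j/d_j² = τ_j v_j/d_j ≤ λ_j v_j/d_j ≤ 200 v_j` (`nu_div_sq`), `c_j ≤ 1.01 v_j` (`cost_le_vs`), `ε/1600 ≤ 1/2`: total `≤ (1.01 + 0.5 + 2000·200) v_j ≤ 400002 v_j`.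
* `iso_total`: split `iso` into `λ_j ≥ ε` (`iso_far_sum`), `a ≤ λ_j < ε` (`isoIn_sum`), `λ_j < a` (`v_j ≤ 1`, at most `#(clA a)`), multiply by `400002`.
* `log_absorb`: with `y = z + z1 ≥ 1`: `log (ε y²) ≤ 2 log y` and for `c > 0`: `2 c log y = 2c (log (y/(2c)) + log (2c)) ≤ 2c (y/(2c) + log(2c)) = y + 2 c log (2c)`. So `C = z1 + c + 2c |log (2c)|` works
  (the case `c = 0` separately).
-/

open MeasureTheory Metric Finset Filter Topology

noncomputable section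

namespace Ion

theorem log_absorb {c z1 : ℝ} (hc : 0 ≤ c) (hz1 : 1 ≤ z1) :
    ∃ C : ℝ, ∀ z : ℝ, 0 < z → ∀ ε : ℝ, 0 < ε → ε ≤ 1 →
      c * (1 + Real.log (ε * (z + z1) ^ 2)) ≤ z + C := by
  refine ⟨z1 - c + 2 * c * Real.log (2 * c), fun z hz ε hε hε1 => ?_⟩
  have hy : 1 ≤ z + z1 := by linarith
  have hy0 : 0 < z + z1 := by linarith
  have h1 : Real.log (ε * (z + z1) ^ 2) ≤ 2 * Real.log (z + z1) := by
    have h2 : Real.log (ε * (z + z1) ^ 2) ≤ Real.log ((z + z1) ^ 2) := by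
      refine Real.log_le_log (by positivity) ?_
      have : 0 < (z + z1) ^ 2 := by positivity
      nlinarith
    have h3 : Real.log ((z + z1) ^ 2) = 2 * Real.log (z + z1) := by
      rw [Real.log_pow]
      norm_num
    linarith
  rcases hc.eq_or_lt with h0 | h0
  · rw [← h0]
    simp
    linarith
  · have h4 : Real.log (z + z1) = Real.log ((z + z1) / (2 * c)) + Real.log (2 * c) := by
      rw [Real.log_div hy0.ne' (by positivity)]
      ring
    have h5 := Real.log_le_sub_one_of_pos (show 0 < (z + z1) / (2 * c) by positivity)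
    have h6 : 2 * c * Real.log (z + z1) ≤ (z + z1) - 2 * c + 2 * c * Real.log (2 * c) := by
      rw [h4, mul_add]
      have h7 : 2 * c * Real.log ((z + z1) / (2 * c)) ≤ 2 * c * ((z + z1) / (2 * c) - 1) :=
        mul_le_mul_of_nonneg_left h5 (by positivity)
      have h8 : 2 * c * ((z + z1) / (2 * c) - 1) = (z + z1) - 2 * c := by
        field_simp
      linarith
    have h9 : c * Real.log (ε * (z + z1) ^ 2) ≤ c * (2 * Real.log (z + z1)) :=
      mul_le_mul_of_nonneg_left h1 hc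
    nlinarith

namespace Sys

variable {ι : Type} [Fintype ι] [DecidableEq ι] {m : ℕ} (S : Sys ι m)

theorem iso_far_sum (hm : 1 ≤ m) {ε : ℝ} (hε : 0 < ε) (hε' : ε ≤ ea m ^ 12) :
    ∑ j ∈ S.iso.filter (fun j => ε ≤ ‖S.x j‖), S.vs ε j ≤ 200 / ε := by
  have h1 : ∀ j ∈ S.iso.filter (fun j => ε ≤ ‖S.x j‖), S.vs ε j ≤
      200 / ε * (S.nu ε j * ‖S.x j‖⁻¹) := by
    intro j hj
    simp only [iso, Finset.mem_filter, Finset.mem_univ, true_and] at hj
    have hl : 0 < ‖S.x j‖ := norm_pos_iff.2 (S.ne j)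
    have htau : S.tau ε j = ε := by
      rw [tau, min_eq_left hj.2]
    have hv := S.vs_pos hm hε hε' j
    rw [S.nu_eq ε j, htau]
    have e1 : 200 / ε * (ε * S.dj j * S.vs ε j * ‖S.x j‖⁻¹) =
        200 * S.dj j / ‖S.x j‖ * S.vs ε j := by
      field_simp
    rw [e1]
    have e2 : 1 ≤ 200 * S.dj j / ‖S.x j‖ := by
      rw [le_div_iff₀ hl]
      linarith [hj.1]
    nlinarith
  refine (Finset.sum_le_sum h1).trans ?_
  rw [← Finset.mul_sum]
  have h2 : ∑ j ∈ S.iso.filter (fun j => ε ≤ ‖S.x j‖), S.nu ε j * ‖S.x j‖⁻¹ ≤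
      ∑ j, S.nu ε j * ‖S.x j‖⁻¹ := by
    refine Finset.sum_le_sum_of_subset_of_nonneg (Finset.subset_univ _) fun j _ _ => ?_
    exact mul_nonneg (S.nu_pos hm hε hε' j).le (inv_nonneg.2 (norm_nonneg _))
  have h3 := S.sum_nu_inv_le hm hε hε'
  have h4 : 0 ≤ 200 / ε := by positivity
  calc 200 / ε * ∑ j ∈ S.iso.filter (fun j => ε ≤ ‖S.x j‖), S.nu ε j * ‖S.x j‖⁻¹
      ≤ 200 / ε * 1 := mul_le_mul_of_nonneg_left (h2.trans h3) h4
    _ = 200 / ε := mul_one _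

theorem iso_cost (hm : 1 ≤ m) {ε : ℝ} (hε : 0 < ε) (hε' : ε ≤ ea m ^ 12) {j : ι} (hj : j ∈ S.iso) :
    S.cost ε j + ε / 1600 * S.vs ε j + 2000 * (S.nu ε j / S.dj j ^ 2) ≤ 400002 * S.vs ε j := by
  simp only [iso, Finset.mem_filter, Finset.mem_univ, true_and] at hj
  have hl : 0 < ‖S.x j‖ := norm_pos_iff.2 (S.ne j)
  have hd := S.dj_pos j
  have hv := S.vs_pos hm hε hε' j
  have h1 := S.cost_le_vs hm hε hε' j
  have h2 := eps_small hm hε'
  have h3 : S.nu ε j / S.dj j ^ 2 ≤ 200 * S.vs ε j := by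
    rw [S.nu_div_sq hm j, div_le_iff₀ hd]
    have h4 : S.tau ε j ≤ ‖S.x j‖ := by
      rw [tau]
      exact min_le_right _ _
    have h5 : S.tau ε j ≤ 200 * S.dj j := by linarith
    nlinarith
  have h6 : ε / 1600 * S.vs ε j ≤ 1 / 2 * S.vs ε j :=
    mul_le_mul_of_nonneg_right (by linarith) hv.le
  linarith

theorem iso_total (hm : 1 ≤ m) {ε : ℝ} (hε : 0 < ε) (hε' : ε ≤ ea m ^ 12) {a : ℝ} (ha : 0 < a) (ha' : a ≤ ε) :
    ∑ j ∈ S.iso, (S.cost ε j + ε / 1600 * S.vs ε j + 2000 * (S.nu ε j / S.dj j ^ 2))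
      ≤ 400002 * (200 / ε) + 800004 * ((S.clA a).card : ℝ) + 400002 * (54 * 10 ^ 9 * m)
        + 1 / 2 * ∑ l ∈ S.clD ε, 5000 * (S.nu ε l / S.dj l ^ 2)
        + 400002 * (42 / 5 * (3 * 10 ^ 9 * m * (1 + Real.log (ε / a)))) * S.u (S.st ε) 0 := by
  have hfar := S.iso_far_sum hm hε hε'
  have hin := S.isoIn_sum hm hε hε' ha ha'
  have h1 : ∑ j ∈ S.iso, (S.cost ε j + ε / 1600 * S.vs ε j + 2000 * (S.nu ε j / S.dj j ^ 2)) ≤
      400002 * ∑ j ∈ S.iso, S.vs ε j := by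
    rw [Finset.mul_sum]
    exact Finset.sum_le_sum fun j hj => S.iso_cost hm hε hε' hj
  have h2 : ∑ j ∈ S.iso, S.vs ε j ≤ ∑ j ∈ S.iso.filter (fun j => ε ≤ ‖S.x j‖), S.vs ε j
      + ∑ j ∈ S.isoIn ε a, S.vs ε j + ((S.clA a).card : ℝ) := by
    have e3 : ((S.clA a).card : ℝ) = ∑ j ∈ S.clA a, (1 : ℝ) := by simp
    rw [e3, iso, isoIn, clA, Finset.sum_filter, Finset.filter_filter, Finset.sum_filter,
      Finset.sum_filter, Finset.sum_filter, ← Finset.sum_add_distrib, ← Finset.sum_add_distrib]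
    refine Finset.sum_le_sum fun j _ => ?_
    have hv := S.vs_pos hm hε hε' j
    have hv1 := S.vs_le_one hm hε hε' j
    by_cases c1 : ‖S.x j‖ / 200 < S.dj j
    · rw [if_pos c1]
      by_cases c2 : ε ≤ ‖S.x j‖
      · rw [if_pos (show ‖S.x j‖ / 200 < S.dj j ∧ ε ≤ ‖S.x j‖ from ⟨c1, c2⟩)]
        have c3 : ¬ (‖S.x j‖ / 200 < S.dj j ∧ a ≤ ‖S.x j‖ ∧ ‖S.x j‖ < ε) :=
          fun h => absurd h.2.2 (not_lt.2 c2)
        have c4 : ¬ (‖S.x j‖ < a) := not_lt.2 (ha'.trans c2)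
        rw [if_neg c3, if_neg c4]
        linarith
      · have c3 : ¬ (‖S.x j‖ / 200 < S.dj j ∧ ε ≤ ‖S.x j‖) := fun h => c2 h.2
        rw [if_neg c3]
        by_cases c4 : a ≤ ‖S.x j‖
        · rw [if_pos (show ‖S.x j‖ / 200 < S.dj j ∧ a ≤ ‖S.x j‖ ∧ ‖S.x j‖ < ε from
            ⟨c1, c4, not_le.1 c2⟩), if_neg (not_lt.2 c4)]
          linarith
        · have c5 : ¬ (‖S.x j‖ / 200 < S.dj j ∧ a ≤ ‖S.x j‖ ∧ ‖S.x j‖ < ε) := fun h => c4 h.2.1
          rw [if_neg c5, if_pos (not_le.1 c4)]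
          linarith
    · rw [if_neg c1]
      have e1 : 0 ≤ (if ‖S.x j‖ / 200 < S.dj j ∧ ε ≤ ‖S.x j‖ then S.vs ε j else 0) := by
        split_ifs
        · exact hv.le
        · exact le_rfl
      have e2 : 0 ≤ (if ‖S.x j‖ / 200 < S.dj j ∧ a ≤ ‖S.x j‖ ∧ ‖S.x j‖ < ε then S.vs ε j else 0) := by
        split_ifs
        · exact hv.le
        · exact le_rfl
      have e3 : (0 : ℝ) ≤ (if ‖S.x j‖ < a then 1 else 0) := by
        split_ifs
        · exact zero_le_one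
        · exact le_rfl
      linarith
  linarith

end Sys

end Ion
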