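import Pool.Agent.Lib.MP_69e010_mp.T1

/-!
# JOB T7: boost lemma, first part

`k ∈ clCD`: `d_k ≤ λ_k/200` and `d_k > 50 min(ε, λ_k)`. If `λ_k ≤ ε` then `50 λ_k < d_k ≤ λ_k/200`, impossible; so `τ_k = ε`, `d_k > 50 ε`, `λ_k ≥ 200 d_k > 10⁴ ε`.
* `unb_half`: `cost k = 1 - W_k > 1 - ε/25` and `cost_le_vs`: `v_k ≥ (1 - ε/25)/1.01 ≥ 1/2`.
* `boosted_of_near`: `W_j ≥ ν_k K_kj` (single term of the sum, `nu_pos`, `K_pos`), `ν_k = ε d_k v_k ≥ ε d_k/2`, `K_kj ≥ (‖x_k-x_j‖ + del k + del j)⁻¹` (`K_ge`), `d_j ≤ d_k + ‖x_j-x_k‖ ≤ 11 d_k` (`lip`),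
  `del ≤ d/100` (`ea_le`): the bracket is `≤ (10 + 0.01 + 0.11) d_k ≤ 10.2 d_k`, so `W_j ≥ ε/20.4 ≥ ε/25`.
* `unb_sep`: two different unboosted `k, k'`: by `boosted_of_near` `‖x_k' - x_k‖ > 10 d_k` and `> 10 d_k'`.
* `unb1_card`: for every `k ∈ unb \ unb2` choose `j ∈ J`, `j ≠ k`, `‖x_j - x_k‖ < 5 d_k`; it is boosted (`ε/25 ≤ W_j`), and the map `k ↦ j` is injective because `‖x_k - x_k'‖ < 5 d_k + 5 d_k' ≤ 10 max` contradicts
  `unb_sep`. So `#(unb \ unb2) ≤ #(J.filter (ε/25 ≤ W_j))`.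
* `boost1`: with `B = #{j ∈ J : ε/25 ≤ W_j}`: `#J = B + #unb ≤ 2B + #unb2`, `∑_J cost = #J - ∑_J W_j ≤ #J - (ε/25) B` (`W_j ≥ 0`) `≤ #J - (ε/50)(#J - #unb2)`.
-/

open MeasureTheory Metric Finset Filter Topology

noncomputable section

namespace Ion

namespace Sys

variable {ι : Type} [Fintype ι] [DecidableEq ι] {m : ℕ} (S : Sys ι m)

theorem clCD_facts {ε : ℝ} (hε : 0 < ε) {k : ι} (hk : k ∈ S.clCD ε) :
    S.tau ε k = ε ∧ 50 * ε < S.dj k ∧ 10 ^ 4 * ε < ‖S.x k‖ ∧ S.dj k ≤ ‖S.x k‖ / 200 := by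
  have h0 := (Finset.mem_filter.1 hk).2
  obtain ⟨h1, h2⟩ := h0
  have hx : 0 ≤ ‖S.x k‖ := norm_nonneg _
  have h3 : ε ≤ ‖S.x k‖ := by
    by_contra hcon
    have h4 : S.tau ε k = ‖S.x k‖ := min_eq_right (not_le.1 hcon).le
    rw [h4] at h2
    linarith
  have h4 : S.tau ε k = ε := min_eq_left h3
  rw [h4] at h2
  refine ⟨h4, h2, ?_, h1⟩
  have h5 : (10 : ℝ) ^ 4 * ε = 200 * (50 * ε) := by ring
  rw [h5]
  linarith

theorem unb_half (hm : 1 ≤ m) {ε : ℝ} (hε : 0 < ε) (hε' : ε ≤ ea m ^ 12) {k : ι}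
    (hu : S.WW ε k < ε / 25) : 1 / 2 ≤ S.vs ε k := by
  have h1 := S.cost_le_vs hm hε hε' k
  have h2 := eps_small hm hε'
  have h3 : S.cost ε k = 1 - S.WW ε k := rfl
  have h4 : (1 : ℝ) / 10 ^ 24 ≤ 1 / 100 := by norm_num
  linarith

theorem boosted_of_near (hm : 1 ≤ m) {ε : ℝ} (hε : 0 < ε) (hε' : ε ≤ ea m ^ 12) {k : ι}
    (hk : k ∈ S.clCD ε) (hu : S.WW ε k < ε / 25) {j : ι} (hjk : j ≠ k)
    (h : ‖S.x j - S.x k‖ ≤ 10 * S.dj k) : ε / 25 ≤ S.WW ε j := by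
  obtain ⟨ht, h50, -, -⟩ := S.clCD_facts hε hk
  have hv := S.unb_half hm hε hε' hu
  have hd := S.dj_pos k
  have hdj := S.dj_pos j
  have h1 : S.nu ε k * S.K k j ≤ S.WW ε j := by
    unfold WW
    refine Finset.single_le_sum (f := fun i => S.nu ε i * S.K i j) (fun i _ => ?_)
      (Finset.mem_erase.2 ⟨hjk.symm, Finset.mem_univ k⟩)
    exact (mul_pos (S.nu_pos hm hε hε' i) (S.K_pos hm i j)).le
  have h2 : ε * S.dj k / 2 ≤ S.nu ε k := by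
    rw [S.nu_eq, ht]
    have h3 : 0 < ε * S.dj k := mul_pos hε hd
    nlinarith [mul_le_mul_of_nonneg_left hv h3.le]
  have h3 : S.dj j ≤ 11 * S.dj k := by
    have h4 := S.lip (S.x j) (S.x k)
    have h5 : S.dj j - S.dj k ≤ |S.d (S.x j) - S.d (S.x k)| := le_abs_self _
    linarith
  have he := ea_le hm
  have he0 := ea_pos hm
  have h4 : S.del k ≤ S.dj k / 100 := by
    have h5 : ea m * S.dj k ≤ 1 / 100 * S.dj k := mul_le_mul_of_nonneg_right he hd.le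
    have h6 : S.del k = ea m * S.dj k := rfl
    linarith
  have h5 : S.del j ≤ 11 * S.dj k / 100 := by
    have h6 : ea m * S.dj j ≤ 1 / 100 * S.dj j := mul_le_mul_of_nonneg_right he hdj.le
    have h7 : S.del j = ea m * S.dj j := rfl
    linarith
  have h6 : ‖S.x k - S.x j‖ + S.del k + S.del j ≤ 25 / 2 * S.dj k := by
    rw [norm_sub_rev]
    linarith
  have h7 : 0 < ‖S.x k - S.x j‖ + S.del k + S.del j := by
    have h8 := S.del_pos hm k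
    have h9 := S.del_pos hm j
    have h10 : 0 ≤ ‖S.x k - S.x j‖ := norm_nonneg _
    linarith
  have h8 : (25 / 2 * S.dj k)⁻¹ ≤ S.K k j := (inv_anti₀ h7 h6).trans (S.K_ge hm k j)
  have h9 : ε * S.dj k / 2 * (25 / 2 * S.dj k)⁻¹ = ε / 25 := by
    field_simp
  calc ε / 25 = ε * S.dj k / 2 * (25 / 2 * S.dj k)⁻¹ := h9.symm
    _ ≤ S.nu ε k * S.K k j :=
        mul_le_mul h2 h8 (by positivity) (S.nu_pos hm hε hε' k).le
    _ ≤ S.WW ε j := h1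

theorem unb_sep (hm : 1 ≤ m) {ε : ℝ} (hε : 0 < ε) (hε' : ε ≤ ea m ^ 12) {J : Finset ι}
    (hJ : J ⊆ S.clCD ε) {k k' : ι} (hk : k ∈ S.unb ε J) (hk' : k' ∈ S.unb ε J) (hne : k ≠ k') :
    10 * S.dj k < ‖S.x k' - S.x k‖ := by
  by_contra hcon
  have h1 := Finset.mem_filter.1 hk
  have h2 := Finset.mem_filter.1 hk'
  have h3 := S.boosted_of_near hm hε hε' (hJ h1.1) h1.2 hne.symm (not_lt.1 hcon)
  exact absurd h3 (not_le.2 h2.2)

theorem unb1_card (hm : 1 ≤ m) {ε : ℝ} (hε : 0 < ε) (hε' : ε ≤ ea m ^ 12) {J : Finset ι}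
    (hJ : J ⊆ S.clCD ε) :
    (S.unb ε J \ S.unb2 ε J).card ≤ (J.filter fun j => ε / 25 ≤ S.WW ε j).card := by
  classical
  have h1 : ∀ k, ∃ j, k ∈ S.unb ε J \ S.unb2 ε J → j ∈ J ∧ j ≠ k ∧ ‖S.x j - S.x k‖ < 5 * S.dj k := by
    intro k
    by_cases hk : k ∈ S.unb ε J \ S.unb2 ε J
    · obtain ⟨hk1, hk2⟩ := Finset.mem_sdiff.1 hk
      have h2 : ¬ ∀ j ∈ J, j ≠ k → 5 * S.dj k ≤ ‖S.x j - S.x k‖ := by
        intro h3
        exact hk2 (Finset.mem_filter.2 ⟨hk1, h3⟩)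
      push Not at h2
      obtain ⟨j, hj1, hj2, hj3⟩ := h2
      exact ⟨j, fun _ => ⟨hj1, hj2, hj3⟩⟩
    · exact ⟨k, fun h => absurd h hk⟩
  choose f hf using h1
  refine Finset.card_le_card_of_injOn f ?_ ?_
  · intro k hk
    have hk' : k ∈ S.unb ε J \ S.unb2 ε J := hk
    obtain ⟨g1, g2, g3⟩ := hf k hk'
    have h2 := Finset.mem_filter.1 (Finset.mem_sdiff.1 hk').1
    have h3 := S.dj_pos k
    have h4 : f k ∈ J.filter fun j => ε / 25 ≤ S.WW ε j :=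
      Finset.mem_filter.2 ⟨g1, S.boosted_of_near hm hε hε' (hJ h2.1) h2.2 g2 (by linarith)⟩
    exact h4
  · intro k hk k' hk' heq
    by_contra hne
    have hk1 : k ∈ S.unb ε J \ S.unb2 ε J := hk
    have hk2 : k' ∈ S.unb ε J \ S.unb2 ε J := hk'
    obtain ⟨-, -, g3⟩ := hf k hk1
    obtain ⟨-, -, g3'⟩ := hf k' hk2
    have heq' : f k = f k' := heq
    have h3 := S.unb_sep hm hε hε' hJ (Finset.mem_sdiff.1 hk1).1 (Finset.mem_sdiff.1 hk2).1 hne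
    have h4 := S.unb_sep hm hε hε' hJ (Finset.mem_sdiff.1 hk2).1 (Finset.mem_sdiff.1 hk1).1 (Ne.symm hne)
    rw [norm_sub_rev] at h4
    rw [← heq', norm_sub_rev] at g3'
    have h5 : ‖S.x k' - S.x k‖ ≤ ‖S.x k' - S.x (f k)‖ + ‖S.x (f k) - S.x k‖ := by
      have h6 : S.x k' - S.x k = (S.x k' - S.x (f k)) + (S.x (f k) - S.x k) := by abel
      rw [h6]
      exact norm_add_le _ _
    linarith

theorem boost1 (hm : 1 ≤ m) {ε : ℝ} (hε : 0 < ε) (hε' : ε ≤ ea m ^ 12) {J : Finset ι}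
    (hJ : J ⊆ S.clCD ε) :
    ∑ j ∈ J, S.cost ε j ≤ (1 - ε / 50) * J.card + ε / 50 * (S.unb2 ε J).card := by
  have h1 : (S.unb2 ε J).card ≤ (S.unb ε J).card := Finset.card_le_card (Finset.filter_subset _ _)
  have h2 : (S.unb ε J \ S.unb2 ε J).card + (S.unb2 ε J).card = (S.unb ε J).card :=
    Finset.card_sdiff_add_card_eq_card (Finset.filter_subset _ _)
  have h3 := S.unb1_card hm hε hε' hJ
  have h4 : (J.filter fun j => ε / 25 ≤ S.WW ε j).card + (S.unb ε J).card = J.card := by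
    have h5 : S.unb ε J = J.filter fun j => ¬ ε / 25 ≤ S.WW ε j := by
      unfold unb
      refine Finset.filter_congr fun j _ => ?_
      exact not_le.symm
    rw [h5]
    exact Finset.card_filter_add_card_filter_not _
  have h6 : (J.card : ℝ) ≤ 2 * ((J.filter fun j => ε / 25 ≤ S.WW ε j).card : ℝ) + ((S.unb2 ε J).card : ℝ) := by
    have h7 : J.card ≤ 2 * (J.filter fun j => ε / 25 ≤ S.WW ε j).card + (S.unb2 ε J).card := by omega
    exact_mod_cast h7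
  have h7 : ε / 25 * ((J.filter fun j => ε / 25 ≤ S.WW ε j).card : ℝ) ≤ ∑ j ∈ J, S.WW ε j := by
    calc ε / 25 * ((J.filter fun j => ε / 25 ≤ S.WW ε j).card : ℝ)
        = ∑ _j ∈ J.filter (fun j => ε / 25 ≤ S.WW ε j), ε / 25 := by
          rw [Finset.sum_const, nsmul_eq_mul, mul_comm]
      _ ≤ ∑ j ∈ J.filter (fun j => ε / 25 ≤ S.WW ε j), S.WW ε j :=
          Finset.sum_le_sum fun j hj => (Finset.mem_filter.1 hj).2
      _ ≤ ∑ j ∈ J, S.WW ε j :=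
          Finset.sum_le_sum_of_subset_of_nonneg (Finset.filter_subset _ _)
            (fun j _ _ => S.WW_nonneg hm hε hε' j)
  have h8 : ∑ j ∈ J, S.cost ε j = (J.card : ℝ) - ∑ j ∈ J, S.WW ε j := by
    unfold cost
    rw [Finset.sum_sub_distrib, Finset.sum_const, nsmul_eq_mul, mul_one]
  rw [h8]
  have h9 : 0 < ε / 50 := by positivity
  nlinarith [mul_le_mul_of_nonneg_left h6 h9.le]

end Sys

end Ion
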