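import Pool.Agent.Lib.MP_69e010_mp.B8
import Pool.Agent.Lib.MP_69e010_mp.QDefs

/-!
# MP_69e010_mp: definitions for the pointwise inequality (section 6)

Strengths `s_j = min(ε, |x_j|) d_j`, weights `ν_j = s_j v_j`, classes of electrons, the function `T(X)`.
Constants: `c₁ = ε/25`, `c' = c₁/16 = ε/400`, `L = 64/c₁ = 1600/ε`, `η₂ = c₁/64 = ε/1600`, `R ≥ L²`,
`C_K = 10000`, `C_0 = 2000`, `C_3 = 400002`, `C_5 = 3·10⁹`.
-/

open MeasureTheory Metric Finset Filter Topology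

noncomputable section

namespace Ion

namespace Sys

variable {ι : Type} [Fintype ι] {m : ℕ} (S : Sys ι m)

/-- `τ_j = min(ε, |x_j|)` -/
def tau (ε : ℝ) (j : ι) : ℝ := min ε ‖S.x j‖

/-- strengths `s_j = τ_j d_j` -/
def st (ε : ℝ) (j : ι) : ℝ := min ε ‖S.x j‖ * S.dj j

/-- crowded electrons -/
def crowd : Finset ι := univ.filter fun j => S.dj j ≤ ‖S.x j‖ / 200

/-- isolated electrons -/
def iso : Finset ι := univ.filter fun j => ‖S.x j‖ / 200 < S.dj j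

/-- `R̃_j = max(R, √d_j)` -/
def Rt (R : ℝ) (j : ι) : ℝ := max R (√(S.dj j))

/-- class `D`: crowded and `d_j ≤ 50 τ_j` -/
def clD (ε : ℝ) : Finset ι :=
  univ.filter fun j => S.dj j ≤ ‖S.x j‖ / 200 ∧ S.dj j ≤ 50 * S.tau ε j

/-- class `CD`: crowded and dilute -/
def clCD (ε : ℝ) : Finset ι :=
  univ.filter fun j => S.dj j ≤ ‖S.x j‖ / 200 ∧ 50 * S.tau ε j < S.dj j

/-- electrons with `|x_j| < a` -/
def clA (a : ℝ) : Finset ι := univ.filter fun j => ‖S.x j‖ < a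

/-- isolated electrons with `a ≤ |x_j| < ε` -/
def isoIn (ε a : ℝ) : Finset ι :=
  univ.filter fun j => ‖S.x j‖ / 200 < S.dj j ∧ a ≤ ‖S.x j‖ ∧ ‖S.x j‖ < ε

variable [DecidableEq ι]

/-- the solution `v_j` for the strengths `s_j` -/
def vs (ε : ℝ) (j : ι) : ℝ := S.v (S.st ε) j

/-- weights `ν_j = s_j v_j` -/
def nu (ε : ℝ) (j : ι) : ℝ := S.st ε j * S.v (S.st ε) j

/-- `W_j = ∑_{i ≠ j} ν_i k_ij` -/
def WW (ε : ℝ) (j : ι) : ℝ := ∑ i ∈ univ.erase j, S.nu ε i * S.K i j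

/-- cost `c_j = 1 - W_j` -/
def cost (ε : ℝ) (j : ι) : ℝ := 1 - S.WW ε j

/-- `h_j = ∑_{i ≠ j} χ(|x_i| / R̃_j)` -/
def hj (R : ℝ) (j : ι) : ℝ := ∑ i ∈ univ.erase j, chi (‖S.x i‖ / S.Rt R j)

/-- class `CDin`: in `CD` and `|x_j| < L R̃_j`, `L = 1600/ε` -/
def clIn (ε R : ℝ) : Finset ι := (S.clCD ε).filter fun j => ‖S.x j‖ < 1600 / ε * S.Rt R j

/-- class `CD+`: in `CD`, `|x_j| ≥ L R̃_j`, `h_j ≥ (1 + 3c'/2) Q` -/
def clP (ε R Q : ℝ) : Finset ι :=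
  (S.clCD ε).filter fun j =>
    1600 / ε * S.Rt R j ≤ ‖S.x j‖ ∧ (1 + 3 / 2 * (ε / 400)) * Q ≤ S.hj R j

/-- class `CD0`: in `CD`, `|x_j| ≥ L R̃_j`, `h_j < (1 + 3c'/2) Q` -/
def cl0 (ε R Q : ℝ) : Finset ι :=
  (S.clCD ε).filter fun j =>
    1600 / ε * S.Rt R j ≤ ‖S.x j‖ ∧ S.hj R j < (1 + 3 / 2 * (ε / 400)) * Q

/-- unboosted electrons of `J`: `W_k < ε/25` -/
def unb (ε : ℝ) (J : Finset ι) : Finset ι := J.filter fun k => S.WW ε k < ε / 25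

/-- unboosted electrons of `J` without another electron of `J` in `B(x_k, 5 d_k)` -/
def unb2 (ε : ℝ) (J : Finset ι) : Finset ι :=
  (S.unb ε J).filter fun k => ∀ j ∈ J, j ≠ k → 5 * S.dj k ≤ ‖S.x j - S.x k‖

/-- the function `T(X)`: `c' = ε/400`, `η₂ = ε/1600`, `C_K = 10000`, `C_0 = 2000` -/
def TX (ε z R Q : ℝ) (p : ι → ℝ) : ℝ :=
  ∑ i, S.nu ε i * (∑ j ∈ univ.erase i, ‖S.x i - S.x j‖⁻¹ - z * ‖S.x i‖⁻¹)
    + ∑ j, S.nu ε j * (p j * (ε / 400 * Q / (4 * R)) - ε / 1600 / (ε * S.dj j))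
    + 10000 * ∑ j ∈ S.crowd, S.nu ε j / S.dj j ^ 2
    - 2000 * ∑ j, S.nu ε j / S.dj j ^ 2

end Sys

end Ion
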